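import Mathlib

/-!
A horseshoe for every small perturbation of the max-plus recurrence
`z (n+3) = max 1 (z n) - max (z (n+2) - 5) (z (n+1))`.
-/

namespace V11219.TropHorse

open Set Filter Topology

/-- the sequence `z` satisfies the max-plus recurrence up to an error `1/10000`
as long as it stays in `[-7,7]`. -/
def Approx (z : ℕ → ℝ) : Prop :=
  ∀ n, |z n| ≤ 7 → |z (n+1)| ≤ 7 → |z (n+2)| ≤ 7 →
    |z (n+3) - (max 1 (z n) - max (z (n+2) - 5) (z (n+1)))| ≤ 1/10000

/-- the state at time `n` is close to the line of states `(x, x-5, 6-2x)`. -/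
def OnLine (z : ℕ → ℝ) (n : ℕ) : Prop :=
  |z (n+1) - (z n - 5)| ≤ 2/10000 ∧ |z (n+2) - (6 - 2 * z n)| ≤ 2/10000

lemma stepA {z : ℕ → ℝ} (hz : Approx z) {n : ℕ} (h : OnLine z n)
    (h1 : 26/100 ≤ z n) (h2 : z n ≤ 58/100) :
    |z (n+3) - 2 * z n| ≤ 3/10000 ∧ OnLine z (n+3) ∧
      (∀ i < 3, |z (n+i)| ≤ 7) ∧
      (53/100 ≤ z n → ∀ i < 3, z (n+i) < 2/10 ∨ 4/10 < z (n+i)) := by
  obtain ⟨e1, e2⟩ := h
  rw [abs_le] at e1 e2
  have b0 : |z n| ≤ 7 := by rw [abs_le]; constructor <;> linarith
  have b1 : |z (n+1)| ≤ 7 := by rw [abs_le]; constructor <;> linarith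
  have b2 : |z (n+2)| ≤ 7 := by rw [abs_le]; constructor <;> linarith
  have s3 := hz n b0 b1 b2
  rw [max_eq_left (by linarith), max_eq_left (by linarith), abs_le] at s3
  have b3 : |z (n+3)| ≤ 7 := by rw [abs_le]; constructor <;> linarith
  have s4 := hz (n+1) b1 b2 b3
  rw [show n+1+3 = n+4 from rfl, show n+1+2 = n+3 from rfl, show n+1+1 = n+2 from rfl,
    max_eq_left (by linarith), max_eq_right (by linarith), abs_le] at s4
  have b4 : |z (n+4)| ≤ 7 := by rw [abs_le]; constructor <;> linarith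
  have s5 := hz (n+2) b2 b3 b4
  rw [show n+2+3 = n+5 from rfl, show n+2+2 = n+4 from rfl, show n+2+1 = n+3 from rfl,
    max_eq_right (by linarith), max_eq_right (by linarith), abs_le] at s5
  refine ⟨by rw [abs_le]; constructor <;> linarith, ⟨?_, ?_⟩, ?_, ?_⟩
  · show |z (n+4) - (z (n+3) - 5)| ≤ 2/10000
    rw [abs_le]; constructor <;> linarith
  · show |z (n+5) - (6 - 2 * z (n+3))| ≤ 2/10000
    rw [abs_le]; constructor <;> linarith
  · intro i hi
    interval_cases i
    · exact b0
    · exact b1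
    · exact b2
  · intro h53 i hi
    interval_cases i
    · right; show _ < z n; linarith
    · left; linarith
    · right; linarith

lemma stepB {z : ℕ → ℝ} (hz : Approx z) {n : ℕ} (h : OnLine z n)
    (h1 : 105/100 ≤ z n) (h2 : z n ≤ 117/100) :
    |z (n+10) - (4 * z n - 4)| ≤ 20/10000 ∧ OnLine z (n+10) ∧
      (∀ i < 10, |z (n+i)| ≤ 7) ∧
      (∀ i < 10, z (n+i) < 2/10 ∨ 4/10 < z (n+i)) := by
  obtain ⟨e1, e2⟩ := h
  rw [abs_le] at e1 e2
  have b0 : |z n| ≤ 7 := by rw [abs_le]; constructor <;> linarith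
  have b1 : |z (n+1)| ≤ 7 := by rw [abs_le]; constructor <;> linarith
  have b2 : |z (n+2)| ≤ 7 := by rw [abs_le]; constructor <;> linarith
  have s3 := hz n b0 b1 b2
  rw [max_eq_right (by linarith), max_eq_left (by linarith), abs_le] at s3
  have b3 : |z (n+3)| ≤ 7 := by rw [abs_le]; constructor <;> linarith
  have s4 := hz (n+1) b1 b2 b3
  rw [show n+1+3 = n+4 from rfl, show n+1+2 = n+3 from rfl, show n+1+1 = n+2 from rfl,
    max_eq_left (by linarith), max_eq_right (by linarith), abs_le] at s4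
  have b4 : |z (n+4)| ≤ 7 := by rw [abs_le]; constructor <;> linarith
  have s5 := hz (n+2) b2 b3 b4
  rw [show n+2+3 = n+5 from rfl, show n+2+2 = n+4 from rfl, show n+2+1 = n+3 from rfl,
    max_eq_right (by linarith), max_eq_right (by linarith), abs_le] at s5
  have b5 : |z (n+5)| ≤ 7 := by rw [abs_le]; constructor <;> linarith
  have s6 := hz (n+3) b3 b4 b5
  rw [show n+3+3 = n+6 from rfl, show n+3+2 = n+5 from rfl, show n+3+1 = n+4 from rfl,
    max_eq_right (by linarith), max_eq_right (by linarith), abs_le] at s6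
  have b6 : |z (n+6)| ≤ 7 := by rw [abs_le]; constructor <;> linarith
  have s7 := hz (n+4) b4 b5 b6
  rw [show n+4+3 = n+7 from rfl, show n+4+2 = n+6 from rfl, show n+4+1 = n+5 from rfl,
    max_eq_left (by linarith), max_eq_right (by linarith), abs_le] at s7
  have b7 : |z (n+7)| ≤ 7 := by rw [abs_le]; constructor <;> linarith
  have s8 := hz (n+5) b5 b6 b7
  rw [show n+5+3 = n+8 from rfl, show n+5+2 = n+7 from rfl, show n+5+1 = n+6 from rfl,
    max_eq_right (by linarith), max_eq_right (by linarith), abs_le] at s8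
  have b8 : |z (n+8)| ≤ 7 := by rw [abs_le]; constructor <;> linarith
  have s9 := hz (n+6) b6 b7 b8
  rw [show n+6+3 = n+9 from rfl, show n+6+2 = n+8 from rfl, show n+6+1 = n+7 from rfl,
    max_eq_right (by linarith), max_eq_right (by linarith), abs_le] at s9
  have b9 : |z (n+9)| ≤ 7 := by rw [abs_le]; constructor <;> linarith
  have s10 := hz (n+7) b7 b8 b9
  rw [show n+7+3 = n+10 from rfl, show n+7+2 = n+9 from rfl, show n+7+1 = n+8 from rfl,
    max_eq_left (by linarith), max_eq_left (by linarith), abs_le] at s10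
  have b10 : |z (n+10)| ≤ 7 := by rw [abs_le]; constructor <;> linarith
  have s11 := hz (n+8) b8 b9 b10
  rw [show n+8+3 = n+11 from rfl, show n+8+2 = n+10 from rfl, show n+8+1 = n+9 from rfl,
    max_eq_left (by linarith), max_eq_right (by linarith), abs_le] at s11
  have b11 : |z (n+11)| ≤ 7 := by rw [abs_le]; constructor <;> linarith
  have s12 := hz (n+9) b9 b10 b11
  rw [show n+9+3 = n+12 from rfl, show n+9+2 = n+11 from rfl, show n+9+1 = n+10 from rfl,
    max_eq_right (by linarith), max_eq_right (by linarith), abs_le] at s12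
  refine ⟨by rw [abs_le]; constructor <;> linarith, ⟨?_, ?_⟩, ?_, ?_⟩
  · show |z (n+11) - (z (n+10) - 5)| ≤ 2/10000
    rw [abs_le]; constructor <;> linarith
  · show |z (n+12) - (6 - 2 * z (n+10))| ≤ 2/10000
    rw [abs_le]; constructor <;> linarith
  · intro i hi
    interval_cases i <;> assumption
  · intro i hi
    interval_cases i
    · right; show _ < z n; linarith
    · left; linarith
    · right; linarith
    · right; linarith
    · left; linarith
    · right; linarith
    · right; linarith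
    · left; linarith
    · left; linarith
    · right; linarith

/-- one full excursion: from the window `[53/100,58/100]` to `8 x - 4`. -/
lemma stepAB {z : ℕ → ℝ} (hz : Approx z) {n : ℕ} (h : OnLine z n)
    (h1 : 53/100 ≤ z n) (h2 : z n ≤ 58/100) :
    |z (n+13) - (8 * z n - 4)| ≤ 32/10000 ∧ OnLine z (n+13) ∧
      (∀ i < 13, |z (n+i)| ≤ 7) ∧
      (∀ i < 13, z (n+i) < 2/10 ∨ 4/10 < z (n+i)) := by
  obtain ⟨a1, a2, a3, a4⟩ := stepA hz h (by linarith) h2
  have a4' := a4 h1
  rw [abs_le] at a1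
  obtain ⟨b1, b2, b3, b4⟩ := stepB hz a2 (by linarith) (by linarith)
  rw [show n+3+10 = n+13 from rfl] at b1 b2
  rw [abs_le] at b1
  refine ⟨by rw [abs_le]; constructor <;> linarith, b2, ?_, ?_⟩
  · intro i hi
    rcases lt_or_ge i 3 with h3 | h3
    · exact a3 i h3
    · obtain ⟨j, rfl⟩ := Nat.exists_eq_add_of_le h3
      have := b3 j (by omega)
      rwa [show n+3+j = n+(3+j) by ring] at this
  · intro i hi
    rcases lt_or_ge i 3 with h3 | h3
    · exact a4' i h3
    · obtain ⟨j, rfl⟩ := Nat.exists_eq_add_of_le h3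
      have := b4 j (by omega)
      rwa [show n+3+j = n+(3+j) by ring] at this

/-- selection of a crossing subinterval -/
lemma select {g : ℝ → ℝ} (hg : Continuous g) {a b l r : ℝ} (hab : a ≤ b) (hlr : l < r)
    (ha : g a ≤ l) (hb : r ≤ g b) :
    ∃ a' b', a ≤ a' ∧ a' ≤ b' ∧ b' ≤ b ∧ g a' = l ∧ g b' = r ∧
      ∀ t ∈ Icc a' b', l ≤ g t ∧ g t ≤ r := by
  -- first time reaching r
  have hc : IsCompact (Icc a b ∩ g ⁻¹' Ici r) :=
    isCompact_Icc.inter_right (isClosed_Ici.preimage hg)
  have hne : (Icc a b ∩ g ⁻¹' Ici r).Nonempty := ⟨b, ⟨hab, le_rfl⟩, hb⟩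
  obtain ⟨b', hb', hmin⟩ := hc.exists_isLeast hne
  obtain ⟨⟨hab', hb'b⟩, hgb'⟩ := hb'
  have hbefore : ∀ t, a ≤ t → t < b' → g t < r := by
    intro t h1 h2
    by_contra h3
    push Not at h3
    have := hmin ⟨⟨h1, by linarith⟩, h3⟩
    linarith
  have hgb : g b' = r := by
    apply le_antisymm _ hgb'
    by_contra h3
    push Not at h3
    -- then a < b' and by IVT an earlier time reaches r
    have hlt : a < b' := by
      rcases eq_or_lt_of_le hab' with h | h
      · rw [← h] at h3; linarith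
      · exact h
    obtain ⟨t, ht, hgt⟩ := intermediate_value_Icc hab' hg.continuousOn
      (show r ∈ Icc (g a) (g b') from ⟨by linarith, h3.le⟩)
    have h4 : b' ≤ t := hmin ⟨⟨ht.1, by linarith [ht.2]⟩, hgt.ge⟩
    have h5 : t = b' := le_antisymm ht.2 h4
    rw [h5] at hgt; linarith
  -- last time at l before b'
  have hc2 : IsCompact (Icc a b' ∩ g ⁻¹' Iic l) :=
    isCompact_Icc.inter_right (isClosed_Iic.preimage hg)
  have hne2 : (Icc a b' ∩ g ⁻¹' Iic l).Nonempty := ⟨a, ⟨le_rfl, hab'⟩, ha⟩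
  obtain ⟨a', ha', hmax⟩ := hc2.exists_isGreatest hne2
  obtain ⟨⟨haa', ha'b'⟩, hga'⟩ := ha'
  have hga : g a' = l := by
    apply le_antisymm hga'
    by_contra h3
    push Not at h3
    obtain ⟨t, ht, hgt⟩ := intermediate_value_Icc ha'b' hg.continuousOn
      (show l ∈ Icc (g a') (g b') from ⟨h3.le, by linarith⟩)
    have h4 : t ≤ a' := hmax ⟨⟨by linarith [ht.1], ht.2⟩, hgt.le⟩
    have h5 : t = a' := le_antisymm h4 ht.1
    rw [h5] at hgt; linarith
  refine ⟨a', b', haa', ha'b', hb'b, hga, hgb, ?_⟩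
  intro t ht
  constructor
  · by_contra h3
    push Not at h3
    have h4 : t ≤ a' := hmax ⟨⟨by linarith [ht.1], ht.2⟩, h3.le⟩
    have h5 : t = a' := le_antisymm h4 ht.1
    rw [h5] at h3; linarith
  · rcases eq_or_lt_of_le ht.2 with h | h
    · rw [h]; exact hgb.le
    · exact (hbefore t (by linarith [ht.1]) h).le

/-- A stage of the nested construction -/
structure Stage (z : ℕ → ℝ → ℝ) where
  n : ℕ
  a : ℝ
  b : ℝ
  hab : a ≤ b
  ha : z n a = 53/100
  hb : z n b = 58/100
  hwin : ∀ t ∈ Icc a b, 53/100 ≤ z n t ∧ z n t ≤ 58/100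
  hline : ∀ t ∈ Icc a b, OnLine (fun m => z m t) n

def len (s : Bool) : ℕ := if s then 16 else 13

lemma exists_next {z : ℕ → ℝ → ℝ} (hc : ∀ n, Continuous (z n))
    (hz : ∀ t, Approx (fun m => z m t)) (S : Stage z) (s : Bool) :
    ∃ S' : Stage z, S'.n = S.n + len s ∧ S.a ≤ S'.a ∧ S'.b ≤ S.b ∧
      (∀ t ∈ Icc S'.a S'.b, ∀ i < len s, |z (S.n + i) t| ≤ 7) ∧
      (s = false → ∀ t ∈ Icc S'.a S'.b, ∀ i < 13,
        z (S.n + i) t < 2/10 ∨ 4/10 < z (S.n + i) t) ∧
      (s = true → ∀ t ∈ Icc S'.a S'.b, 26/100 ≤ z (S.n + 13) t ∧ z (S.n + 13) t ≤ 30/100) := by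
  have hA := fun t (ht : t ∈ Icc S.a S.b) =>
    stepAB (hz t) (S.hline t ht) (S.hwin t ht).1 (S.hwin t ht).2
  have hSa : S.a ∈ Icc S.a S.b := ⟨le_rfl, S.hab⟩
  have hSb : S.b ∈ Icc S.a S.b := ⟨S.hab, le_rfl⟩
  have ha1 := (hA S.a hSa).1
  have hb1 := (hA S.b hSb).1
  rw [abs_le] at ha1 hb1
  simp only [S.ha] at ha1
  simp only [S.hb] at hb1
  cases s with
  | false =>
    obtain ⟨a', b', h1, h2, h3, h4, h5, h6⟩ := select (hc (S.n + 13)) S.hab
      (show (53/100 : ℝ) < 58/100 by norm_num) (by linarith) (by linarith)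
    refine ⟨⟨S.n + 13, a', b', h2, h4, h5, h6, ?_⟩, rfl, h1, h3, ?_, ?_, ?_⟩
    · intro t ht
      exact (hA t ⟨by linarith [ht.1], by linarith [ht.2]⟩).2.1
    · intro t ht i hi
      exact (hA t ⟨by linarith [ht.1], by linarith [ht.2]⟩).2.2.1 i hi
    · intro _ t ht i hi
      exact (hA t ⟨by linarith [ht.1], by linarith [ht.2]⟩).2.2.2 i hi
    · intro h; cases h
  | true =>
    obtain ⟨a', b', h1, h2, h3, h4, h5, h6⟩ := select (hc (S.n + 13)) S.hab
      (show (26/100 : ℝ) < 30/100 by norm_num) (by linarith) (by linarith)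
    have hB := fun t (ht : t ∈ Icc a' b') =>
      stepA (hz t) (n := S.n + 13) ((hA t ⟨by linarith [ht.1], by linarith [ht.2]⟩).2.1)
        (h6 t ht).1 (by linarith [(h6 t ht).2])
    have ha2 := (hB a' ⟨le_rfl, h2⟩).1
    have hb2 := (hB b' ⟨h2, le_rfl⟩).1
    rw [abs_le] at ha2 hb2
    simp only [h4] at ha2
    simp only [h5] at hb2
    obtain ⟨a2, b2, k1, k2, k3, k4, k5, k6⟩ := select (hc (S.n + 13 + 3)) h2
      (show (53/100 : ℝ) < 58/100 by norm_num) (by linarith) (by linarith)
    refine ⟨⟨S.n + 13 + 3, a2, b2, k2, k4, k5, k6, ?_⟩, rfl, le_trans h1 k1, le_trans k3 h3, ?_, ?_, ?_⟩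
    · intro t ht
      exact (hB t ⟨by linarith [ht.1], by linarith [ht.2]⟩).2.1
    · intro t ht i hi
      rcases lt_or_ge i 13 with h13 | h13
      · exact (hA t ⟨by linarith [ht.1], by linarith [ht.2]⟩).2.2.1 i h13
      · obtain ⟨j, rfl⟩ := Nat.exists_eq_add_of_le h13
        have hj : j < 3 := by
          have : len true = 16 := rfl
          omega
        have := (hB t ⟨by linarith [ht.1], by linarith [ht.2]⟩).2.2.1 j hj
        rwa [show S.n + 13 + j = S.n + (13 + j) by ring] at this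
    · intro h; cases h
    · intro _ t ht
      exact h6 t ⟨by linarith [ht.1], by linarith [ht.2]⟩

lemma not_isSquare_between {m i : ℕ} (h1 : m * m < i) (h2 : i < (m+1)*(m+1)) : ¬ IsSquare i := by
  rintro ⟨r, rfl⟩
  have h3 : m < r := by
    by_contra h; push Not at h
    have := Nat.mul_le_mul h h
    omega
  have h4 : r < m + 1 := by
    by_contra h; push Not at h
    have := Nat.mul_le_mul h h
    omega
  omega

theorem exists_orbit {z : ℕ → ℝ → ℝ} (hc : ∀ n, Continuous (z n))
    (hz : ∀ t, Approx (fun m => z m t))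
    (h0 : ∀ t, z 0 t = t) (h1 : ∀ t, OnLine (fun m => z m t) 0) :
    ∃ t, (∀ n, |z n t| ≤ 7) ∧ ∀ (q : ℕ → ℝ) (k : ℕ), 0 < k → (∀ n, q (n+k) = q n) →
      ¬ Tendsto (fun n => z n t - q n) atTop (𝓝 0) := by
  classical
  let S0 : Stage z :=
    { n := 0, a := 53/100, b := 58/100, hab := by norm_num, ha := h0 _, hb := h0 _,
      hwin := fun t ht => by rw [h0]; exact ⟨ht.1, ht.2⟩
      hline := fun t _ => h1 t }
  let sym : ℕ → Bool := fun j => decide (IsSquare j)
  let S : ℕ → Stage z := fun j => Nat.rec S0 (fun j s => (exists_next hc hz s (sym j)).choose) j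
  have hS : ∀ j, (S (j+1)).n = (S j).n + len (sym j) ∧ (S j).a ≤ (S (j+1)).a ∧
      (S (j+1)).b ≤ (S j).b ∧
      (∀ t ∈ Icc (S (j+1)).a (S (j+1)).b, ∀ i < len (sym j), |z ((S j).n + i) t| ≤ 7) ∧
      (sym j = false → ∀ t ∈ Icc (S (j+1)).a (S (j+1)).b, ∀ i < 13,
        z ((S j).n + i) t < 2/10 ∨ 4/10 < z ((S j).n + i) t) ∧
      (sym j = true → ∀ t ∈ Icc (S (j+1)).a (S (j+1)).b,
        26/100 ≤ z ((S j).n + 13) t ∧ z ((S j).n + 13) t ≤ 30/100) :=
    fun j => (exists_next hc hz (S j) (sym j)).choose_spec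
  have hn0 : (S 0).n = 0 := rfl
  have hlen : ∀ s, 13 ≤ len s := by intro s; cases s <;> simp [len]
  have hn : ∀ j, 13 * j ≤ (S j).n := by
    intro j
    induction j with
    | zero => simp
    | succ j ih => rw [(hS j).1]; have := hlen (sym j); omega
  have hamono : Monotone fun j => (S j).a := monotone_nat_of_le_succ fun j => (hS j).2.1
  have hbmono : Antitone fun j => (S j).b := antitone_nat_of_succ_le fun j => (hS j).2.2.1
  have hab : ∀ i j, (S i).a ≤ (S j).b := by
    intro i j
    calc (S i).a ≤ (S (max i j)).a := hamono (le_max_left _ _)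
      _ ≤ (S (max i j)).b := (S _).hab
      _ ≤ (S j).b := hbmono (le_max_right _ _)
  have hbdd : BddAbove (range fun j => (S j).a) := ⟨(S 0).b, by rintro _ ⟨i, rfl⟩; exact hab i 0⟩
  set t : ℝ := ⨆ j, (S j).a with ht
  have htmem : ∀ j, t ∈ Icc (S j).a (S j).b :=
    fun j => ⟨le_ciSup hbdd j, ciSup_le fun i => hab i j⟩
  refine ⟨t, ?_, ?_⟩
  · have hdecomp : ∀ n, ∃ j i, n = (S j).n + i ∧ i < len (sym j) := by
      intro n
      induction n with
      | zero => exact ⟨0, 0, by simp [hn0], by have := hlen (sym 0); omega⟩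
      | succ n ih =>
        obtain ⟨j, i, h2, h3⟩ := ih
        rcases Nat.lt_or_ge (i+1) (len (sym j)) with h | h
        · exact ⟨j, i+1, by omega, h⟩
        · refine ⟨j+1, 0, ?_, by have := hlen (sym (j+1)); omega⟩
          rw [(hS j).1]; omega
    intro n
    obtain ⟨j, i, rfl, hi⟩ := hdecomp n
    exact (hS j).2.2.2.1 t (htmem (j+1)) i hi
  · intro q k hk hq hT
    rw [Metric.tendsto_atTop] at hT
    obtain ⟨N, hN⟩ := hT (2/100) (by norm_num)
    set m : ℕ := max N k + 1 with hm
    have hNm : N ≤ m := by omega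
    have hkm : k ≤ m := by omega
    set j : ℕ := m * m with hj
    have hjm : m ≤ j := Nat.le_mul_self m
    have hsymj : sym j = true := by simp only [sym, decide_eq_true_eq]; exact ⟨m, rfl⟩
    have hmark := (hS j).2.2.2.2.2 hsymj t (htmem (j+1))
    have hnj : N ≤ (S j).n := by have := hn j; omega
    -- the run of `false`
    have hrun : ∀ r ≤ 2 * m, (S (j+1+r)).n = (S j).n + 16 + 13 * r := by
      intro r
      induction r with
      | zero =>
        intro _
        have := (hS j).1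
        rw [hsymj] at this
        simpa [len] using this
      | succ r ih =>
        intro hr
        have h2 := ih (by omega)
        have hfalse : sym (j+1+r) = false := by
          simp only [sym, decide_eq_false_iff_not]
          apply not_isSquare_between (m := m)
          · omega
          · have : (m+1)*(m+1) = j + 2 * m + 1 := by rw [hj]; ring
            omega
        have h3 := (hS (j+1+r)).1
        rw [hfalse] at h3
        have : len false = 13 := rfl
        rw [show j + 1 + (r+1) = j + 1 + r + 1 by ring]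
        omega
    set p : ℕ := (S j).n + 13 with hp
    have hqp := hN p (by omega)
    have hper : q (p + 3 * k) = q p := by
      rw [show p + 3 * k = p + k + k + k by ring, hq, hq, hq]
    have hqp3 := hN (p + 3 * k) (by omega)
    rw [Real.dist_eq, sub_zero, abs_lt] at hqp hqp3
    rw [hper] at hqp3
    -- locate p + 3k
    set r : ℕ := (3 * k - 3) / 13 with hr
    set i : ℕ := (3 * k - 3) % 13 with hi
    have hri : 13 * r + i = 3 * k - 3 := Nat.div_add_mod _ _
    have hi13 : i < 13 := Nat.mod_lt _ (by norm_num)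
    have hr2m : r < 2 * m := by omega
    have hfalse : sym (j+1+r) = false := by
      simp only [sym, decide_eq_false_iff_not]
      apply not_isSquare_between (m := m)
      · omega
      · have : (m+1)*(m+1) = j + 2 * m + 1 := by rw [hj]; ring
        omega
    have hloc : p + 3 * k = (S (j+1+r)).n + i := by
      rw [hrun r hr2m.le]; omega
    have havoid := (hS (j+1+r)).2.2.2.2.1 hfalse t (htmem (j+1+r+1)) i hi13
    rw [← hloc] at havoid
    rcases havoid with h | h
    · linarith [hmark.1]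
    · linarith [hmark.2]

end V11219.TropHorse
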