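import Mathlib
import Pool.Agent.V11219.TropHorse

/-!
Transfer of the max-plus horseshoe to third-order rational recurrences.
-/

namespace V11219.TropRat

open Set Filter Topology

/-- numerator (or denominator) of a third-order rational recurrence. -/
def lin (c0 c1 c2 c3 u v w : ℝ) : ℝ := c0 + c1 * u + c2 * v + c3 * w

/-- state: oldest value, middle value, newest value -/
noncomputable def st (G : ℝ → ℝ → ℝ → ℝ) : ℕ → ℝ → ℝ × ℝ × ℝ
  | 0, t => (t, t - 5, 6 - 2 * t)
  | n + 1, t => ((st G n t).2.1, (st G n t).2.2,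
      G (st G n t).2.2 (st G n t).2.1 (st G n t).1)

noncomputable def zf (G : ℝ → ℝ → ℝ → ℝ) (n : ℕ) (t : ℝ) : ℝ := (st G n t).1

lemma zf_succ (G : ℝ → ℝ → ℝ → ℝ) (n : ℕ) (t : ℝ) : zf G (n+1) t = (st G n t).2.1 := rfl

lemma zf_succ2 (G : ℝ → ℝ → ℝ → ℝ) (n : ℕ) (t : ℝ) : zf G (n+2) t = (st G n t).2.2 := rfl

lemma zf_rec (G : ℝ → ℝ → ℝ → ℝ) (n : ℕ) (t : ℝ) :
    zf G (n+3) t = G (zf G (n+2) t) (zf G (n+1) t) (zf G n t) := rfl

lemma continuous_st {G : ℝ → ℝ → ℝ → ℝ} (hG : Continuous fun p : ℝ × ℝ × ℝ => G p.1 p.2.1 p.2.2)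
    (n : ℕ) : Continuous (st G n) := by
  induction n with
  | zero =>
    show Continuous fun t : ℝ => (t, t - 5, 6 - 2 * t)
    fun_prop
  | succ n ih =>
    show Continuous fun t : ℝ => ((st G n t).2.1, (st G n t).2.2,
      G (st G n t).2.2 (st G n t).2.1 (st G n t).1)
    have h2 : Continuous fun t : ℝ => ((st G n t).2.2, (st G n t).2.1, (st G n t).1) := by
      fun_prop
    have h3 := hG.comp h2
    exact (by fun_prop : Continuous fun t => (st G n t).2.1).prodMk
      ((by fun_prop : Continuous fun t => (st G n t).2.2).prodMk h3)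

lemma abs_log_sub_log_le {a b c : ℝ} (hc : 0 < c) (ha : c ≤ a) (hb : c ≤ b) :
    |Real.log a - Real.log b| ≤ |a - b| / c := by
  have ha0 : 0 < a := by linarith
  have hb0 : 0 < b := by linarith
  have key : ∀ x y : ℝ, c ≤ x → c ≤ y → Real.log x - Real.log y ≤ |x - y| / c := by
    intro x y hx hy
    have hx0 : 0 < x := by linarith
    have hy0 : 0 < y := by linarith
    rw [← Real.log_div hx0.ne' hy0.ne']
    calc Real.log (x / y) ≤ x / y - 1 := Real.log_le_sub_one_of_pos (by positivity)
      _ = (x - y) / y := by field_simp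
      _ ≤ |x - y| / y := by gcongr; exact le_abs_self _
      _ ≤ |x - y| / c := by gcongr
  rw [abs_le]
  constructor
  · have := key b a hb ha
    rw [abs_sub_comm] at this
    linarith
  · exact key a b ha hb

theorem transfer {L s : ℝ} (hL : 0 < L) {F : ℝ → ℝ → ℝ → ℝ}
    (hpos : ∀ u v w, 0 < u → 0 < v → 0 < w → 0 < F u v w)
    (hcont : Continuous fun p : ℝ × ℝ × ℝ =>
      F (Real.exp (L * (p.1 + s))) (Real.exp (L * (p.2.1 + s))) (Real.exp (L * (p.2.2 + s))))
    (happ : ∀ u v w, |u| ≤ 7 → |v| ≤ 7 → |w| ≤ 7 →
      |Real.log (F (Real.exp (L * (u + s))) (Real.exp (L * (v + s))) (Real.exp (L * (w + s)))) / L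
        - s - (max 1 w - max (u - 5) v)| ≤ 1/10000) :
    ∃ x : ℕ → ℝ, (∀ n, 0 < x n) ∧ (∀ n, x (n+3) = F (x (n+2)) (x (n+1)) (x n)) ∧
      (∃ M, ∀ n, x n ≤ M) ∧
      ∀ (p : ℕ → ℝ) (k : ℕ), 0 < k → (∀ n, p (n+k) = p n) →
        ¬ Tendsto (fun n => x n - p n) atTop (𝓝 0) := by
  set G : ℝ → ℝ → ℝ → ℝ := fun u v w =>
    Real.log (F (Real.exp (L * (u + s))) (Real.exp (L * (v + s))) (Real.exp (L * (w + s)))) / L - s
    with hG
  have hGc : Continuous fun p : ℝ × ℝ × ℝ => G p.1 p.2.1 p.2.2 := by
    have : Continuous fun p : ℝ × ℝ × ℝ => Real.log (F (Real.exp (L * (p.1 + s)))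
        (Real.exp (L * (p.2.1 + s))) (Real.exp (L * (p.2.2 + s)))) :=
      hcont.log fun p => (hpos _ _ _ (Real.exp_pos _) (Real.exp_pos _) (Real.exp_pos _)).ne'
    exact (this.div_const L).sub continuous_const
  have hzc : ∀ n, Continuous (zf G n) := fun n => continuous_fst.comp (continuous_st hGc n)
  have hzA : ∀ t, TropHorse.Approx (fun m => zf G m t) := by
    intro t n b0 b1 b2
    show |zf G (n+3) t - _| ≤ _
    rw [zf_rec]
    exact happ _ _ _ b2 b1 b0
  obtain ⟨t, hb, hnp⟩ := TropHorse.exists_orbit hzc hzA (fun t => rfl) (fun t => by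
    constructor
    · show |(t - 5) - (t - 5)| ≤ 2/10000
      norm_num
    · show |(6 - 2 * t) - (6 - 2 * t)| ≤ 2/10000
      norm_num)
  refine ⟨fun n => Real.exp (L * (zf G n t + s)), fun n => Real.exp_pos _, ?_, ?_, ?_⟩
  · intro n
    show Real.exp (L * (zf G (n+3) t + s)) = _
    rw [zf_rec]
    simp only [hG]
    rw [sub_add_cancel, mul_div_cancel₀ _ hL.ne', Real.exp_log]
    exact hpos _ _ _ (Real.exp_pos _) (Real.exp_pos _) (Real.exp_pos _)
  · refine ⟨Real.exp (L * (7 + s)), fun n => ?_⟩
    apply Real.exp_le_exp.mpr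
    have := (abs_le.mp (hb n)).2
    gcongr
  · intro p k hk hp hT
    set c := Real.exp (L * (-7 + s)) with hc
    have hc0 : 0 < c := Real.exp_pos _
    have hxc : ∀ n, c ≤ Real.exp (L * (zf G n t + s)) := by
      intro n
      apply Real.exp_le_exp.mpr
      have := (abs_le.mp (hb n)).1
      gcongr
    have hpj : ∀ n j, p (n + j * k) = p n := by
      intro n j
      induction j with
      | zero => simp
      | succ j ih => rw [show n + (j+1) * k = n + j * k + k by ring, hp, ih]
    have hpc : ∀ n, c ≤ p n := by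
      intro n
      by_contra hlt
      push Not at hlt
      rw [Metric.tendsto_atTop] at hT
      obtain ⟨N, hN⟩ := hT (c - p n) (by linarith)
      have h1 := hN (n + N * k) (by
        have : N ≤ N * k := Nat.le_mul_of_pos_right N hk
        omega)
      rw [Real.dist_eq, sub_zero, abs_lt, hpj] at h1
      have h2 := hxc (n + N * k)
      linarith [h1.2]
    apply hnp (fun n => Real.log (p n) / L - s) k hk (fun n => by simp only [hp])
    have hbound : ∀ n, |zf G n t - (Real.log (p n) / L - s)| ≤
        |Real.exp (L * (zf G n t + s)) - p n| * (1 / (c * L)) := by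
      intro n
      have h1 := abs_log_sub_log_le hc0 (hxc n) (hpc n)
      rw [Real.log_exp] at h1
      have h2 : zf G n t - (Real.log (p n) / L - s) =
          (L * (zf G n t + s) - Real.log (p n)) / L := by field_simp; ring
      rw [h2, abs_div, abs_of_pos hL]
      calc |L * (zf G n t + s) - Real.log (p n)| / L
          ≤ (|Real.exp (L * (zf G n t + s)) - p n| / c) / L := by gcongr
        _ = _ := by field_simp
    have h3 : Tendsto (fun n => |Real.exp (L * (zf G n t + s)) - p n| * (1 / (c * L))) atTop
        (𝓝 0) := by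
      have := (hT.abs).mul_const (1 / (c * L))
      simpa using this
    exact squeeze_zero_norm (fun n => by simpa using hbound n) h3

/-- estimate of the logarithm of a quotient -/
lemma est {L NN DD P Q : ℝ} (hL : 20000 ≤ L) (h1 : Real.exp (L * P) ≤ NN)
    (h2 : NN ≤ 4 * Real.exp (L * P)) (h3 : Real.exp (L * Q) ≤ DD)
    (h4 : DD ≤ 4 * Real.exp (L * Q)) :
    |Real.log (NN / DD) / L - (P - Q)| ≤ 1/10000 := by
  have hL0 : 0 < L := by linarith
  have hN0 : 0 < NN := lt_of_lt_of_le (Real.exp_pos _) h1
  have hD0 : 0 < DD := lt_of_lt_of_le (Real.exp_pos _) h3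
  rw [Real.log_div hN0.ne' hD0.ne']
  have hlog4 : Real.log 4 ≤ 2 := by
    rw [show (4:ℝ) = 2^2 by norm_num, Real.log_pow]
    have := Real.log_le_sub_one_of_pos (show (0:ℝ) < 2 by norm_num)
    push_cast; linarith
  have e1 : L * P ≤ Real.log NN := by
    rw [← Real.log_exp (L * P)]; exact Real.log_le_log (Real.exp_pos _) h1
  have e2 : Real.log NN ≤ 2 + L * P := by
    have := Real.log_le_log hN0 h2
    rw [Real.log_mul (by norm_num) (Real.exp_pos _).ne', Real.log_exp] at this
    linarith
  have e3 : L * Q ≤ Real.log DD := by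
    rw [← Real.log_exp (L * Q)]; exact Real.log_le_log (Real.exp_pos _) h3
  have e4 : Real.log DD ≤ 2 + L * Q := by
    have := Real.log_le_log hD0 h4
    rw [Real.log_mul (by norm_num) (Real.exp_pos _).ne', Real.log_exp] at this
    linarith
  have h5 : (Real.log NN - Real.log DD) / L - (P - Q) =
      (Real.log NN - Real.log DD - L * (P - Q)) / L := by field_simp
  rw [h5, abs_div, abs_of_pos hL0, div_le_iff₀ hL0, abs_le]
  constructor <;> nlinarith

/-- the family with numerator `α + x_n + γ x_{n-1} + δ x_{n-2}` and denominator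
`x_n + C x_{n-1} + D x_{n-2}`. -/
theorem famA {L γ D : ℝ} (hL : 20000 ≤ L) (hγ0 : 0 ≤ γ) (hγ1 : γ ≤ 1) (hD0 : 0 ≤ D)
    (hD1 : D ≤ Real.exp (L * (-20))) :
    ∃ x : ℕ → ℝ, (∀ n, 0 < x n) ∧
      (∀ n, x (n+3) = (Real.exp (L * 36) + x (n+2) + γ * x (n+1) + Real.exp (L * 20) * x n) /
        (x (n+2) + Real.exp (L * 5) * x (n+1) + D * x n)) ∧
      (∃ M, ∀ n, x n ≤ M) ∧
      ∀ (p : ℕ → ℝ) (k : ℕ), 0 < k → (∀ n, p (n+k) = p n) →
        ¬ Tendsto (fun n => x n - p n) atTop (𝓝 0) := by
  have hL0 : 0 < L := by linarith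
  have hE5 := Real.exp_pos (L * 5)
  have hE20 := Real.exp_pos (L * 20)
  have hE36 := Real.exp_pos (L * 36)
  apply transfer (L := L) (s := 15) hL0
    (F := fun u v w => (Real.exp (L * 36) + u + γ * v + Real.exp (L * 20) * w) /
        (u + Real.exp (L * 5) * v + D * w))
  · intro u v w hu hv hw
    positivity
  · apply Continuous.div (by fun_prop) (by fun_prop)
    intro p
    positivity
  · intro u v w hu hv hw
    rw [abs_le] at hu hv hw
    have key := est (L := L) (P := 35 + max 1 w) (Q := 20 + max (u - 5) v)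
      (NN := Real.exp (L * 36) + Real.exp (L * (u + 15)) + γ * Real.exp (L * (v + 15)) +
        Real.exp (L * 20) * Real.exp (L * (w + 15)))
      (DD := Real.exp (L * (u + 15)) + Real.exp (L * 5) * Real.exp (L * (v + 15)) +
        D * Real.exp (L * (w + 15))) hL ?_ ?_ ?_ ?_
    · convert key using 2
      ring
    · -- lower bound of the numerator
      have p1 := Real.exp_pos (L * (u + 15))
      have p2 := Real.exp_pos (L * (v + 15))
      have p3 := Real.exp_pos (L * (w + 15))
      have p4 : 0 ≤ γ * Real.exp (L * (v + 15)) := by positivity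
      rcases le_total 1 w with h | h
      · rw [max_eq_right h]
        have : Real.exp (L * (35 + w)) = Real.exp (L * 20) * Real.exp (L * (w + 15)) := by
          rw [← Real.exp_add]; ring_nf
        linarith
      · rw [max_eq_left h]
        have : Real.exp (L * (35 + 1)) = Real.exp (L * 36) := by ring_nf
        have p5 := mul_pos hE20 p3
        linarith
    · have q1 : Real.exp (L * 36) ≤ Real.exp (L * (35 + max 1 w)) := by
        apply Real.exp_le_exp.mpr
        have := le_max_left 1 w
        exact mul_le_mul_of_nonneg_left (by linarith) hL0.le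
      have q2 : Real.exp (L * (u + 15)) ≤ Real.exp (L * (35 + max 1 w)) := by
        apply Real.exp_le_exp.mpr
        have := le_max_left 1 w
        exact mul_le_mul_of_nonneg_left (by linarith) hL0.le
      have q3 : γ * Real.exp (L * (v + 15)) ≤ Real.exp (L * (35 + max 1 w)) := by
        calc γ * Real.exp (L * (v + 15)) ≤ 1 * Real.exp (L * (v + 15)) := by gcongr
          _ = Real.exp (L * (v + 15)) := one_mul _
          _ ≤ _ := by
            apply Real.exp_le_exp.mpr
            have := le_max_left 1 w
            exact mul_le_mul_of_nonneg_left (by linarith) hL0.le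
      have q4 : Real.exp (L * 20) * Real.exp (L * (w + 15)) ≤ Real.exp (L * (35 + max 1 w)) := by
        rw [← Real.exp_add]
        apply Real.exp_le_exp.mpr
        have := le_max_right 1 w
        rw [← mul_add]
        exact mul_le_mul_of_nonneg_left (by linarith) hL0.le
      linarith
    · have p1 := Real.exp_pos (L * (u + 15))
      have p2 := Real.exp_pos (L * (v + 15))
      have p3 := Real.exp_pos (L * (w + 15))
      have p4 : 0 ≤ D * Real.exp (L * (w + 15)) := by positivity
      rcases le_total (u - 5) v with h | h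
      · rw [max_eq_right h]
        have : Real.exp (L * (20 + v)) = Real.exp (L * 5) * Real.exp (L * (v + 15)) := by
          rw [← Real.exp_add]; ring_nf
        linarith
      · rw [max_eq_left h]
        have : Real.exp (L * (20 + (u - 5))) = Real.exp (L * (u + 15)) := by ring_nf
        have p5 := mul_pos hE5 p2
        linarith
    · have q1 : Real.exp (L * (u + 15)) ≤ Real.exp (L * (20 + max (u - 5) v)) := by
        apply Real.exp_le_exp.mpr
        have := le_max_left (u - 5) v
        exact mul_le_mul_of_nonneg_left (by linarith) hL0.le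
      have q2 : Real.exp (L * 5) * Real.exp (L * (v + 15)) ≤
          Real.exp (L * (20 + max (u - 5) v)) := by
        rw [← Real.exp_add]
        apply Real.exp_le_exp.mpr
        have := le_max_right (u - 5) v
        rw [← mul_add]
        exact mul_le_mul_of_nonneg_left (by linarith) hL0.le
      have q3 : D * Real.exp (L * (w + 15)) ≤ Real.exp (L * (20 + max (u - 5) v)) := by
        calc D * Real.exp (L * (w + 15)) ≤ Real.exp (L * (-20)) * Real.exp (L * (w + 15)) := by
              gcongr
          _ ≤ _ := by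
            rw [← Real.exp_add]
            apply Real.exp_le_exp.mpr
            have := le_max_right (u - 5) v
            rw [← mul_add]
            exact mul_le_mul_of_nonneg_left (by linarith) hL0.le
      have q5 := Real.exp_pos (L * (20 + max (u - 5) v))
      linarith

/-- the family `x_{n+1} = (α + x_{n-2})/(A + B x_n + x_{n-1})`. -/
theorem famB {L : ℝ} (hL : 20000 ≤ L) :
    ∃ x : ℕ → ℝ, (∀ n, 0 < x n) ∧
      (∀ n, x (n+3) = (Real.exp L + x n) /
        (Real.exp (L * (-20)) + Real.exp (L * (-5)) * x (n+2) + x (n+1))) ∧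
      (∃ M, ∀ n, x n ≤ M) ∧
      ∀ (p : ℕ → ℝ) (k : ℕ), 0 < k → (∀ n, p (n+k) = p n) →
        ¬ Tendsto (fun n => x n - p n) atTop (𝓝 0) := by
  have hL0 : 0 < L := by linarith
  have hE5 := Real.exp_pos (L * (-5))
  have hE20 := Real.exp_pos (L * (-20))
  have hE1 := Real.exp_pos L
  apply transfer (L := L) (s := 0) hL0
    (F := fun u v w => (Real.exp L + w) /
        (Real.exp (L * (-20)) + Real.exp (L * (-5)) * u + v))
  · intro u v w hu hv hw
    positivity
  · apply Continuous.div (by fun_prop) (by fun_prop)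
    intro p
    positivity
  · intro u v w hu hv hw
    rw [abs_le] at hu hv hw
    have key := est (L := L) (P := max 1 w) (Q := max (u - 5) v)
      (NN := Real.exp L + Real.exp (L * (w + 0)))
      (DD := Real.exp (L * (-20)) + Real.exp (L * (-5)) * Real.exp (L * (u + 0)) +
        Real.exp (L * (v + 0))) hL ?_ ?_ ?_ ?_
    · convert key using 2
      ring
    · have p3 := Real.exp_pos (L * (w + 0))
      rcases le_total 1 w with h | h
      · rw [max_eq_right h]
        have : Real.exp (L * w) = Real.exp (L * (w + 0)) := by ring_nf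
        linarith
      · rw [max_eq_left h, mul_one]
        linarith
    · have q1 : Real.exp L ≤ Real.exp (L * max 1 w) := by
        apply Real.exp_le_exp.mpr
        have := le_max_left 1 w
        nlinarith
      have q4 : Real.exp (L * (w + 0)) ≤ Real.exp (L * max 1 w) := by
        apply Real.exp_le_exp.mpr
        have := le_max_right 1 w
        exact mul_le_mul_of_nonneg_left (by linarith) hL0.le
      linarith
    · have p2 := Real.exp_pos (L * (v + 0))
      have p3 := Real.exp_pos (L * (u + 0))
      rcases le_total (u - 5) v with h | h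
      · rw [max_eq_right h]
        have : Real.exp (L * v) = Real.exp (L * (v + 0)) := by ring_nf
        have p5 := mul_pos hE5 p3
        linarith
      · rw [max_eq_left h]
        have : Real.exp (L * (u - 5)) = Real.exp (L * (-5)) * Real.exp (L * (u + 0)) := by
          rw [← Real.exp_add]; ring_nf
        linarith
    · have q1 : Real.exp (L * (-20)) ≤ Real.exp (L * max (u - 5) v) := by
        apply Real.exp_le_exp.mpr
        have := le_max_right (u - 5) v
        exact mul_le_mul_of_nonneg_left (by linarith) hL0.le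
      have q2 : Real.exp (L * (-5)) * Real.exp (L * (u + 0)) ≤
          Real.exp (L * max (u - 5) v) := by
        rw [← Real.exp_add]
        apply Real.exp_le_exp.mpr
        have := le_max_left (u - 5) v
        rw [← mul_add]
        exact mul_le_mul_of_nonneg_left (by linarith) hL0.le
      have q3 : Real.exp (L * (v + 0)) ≤ Real.exp (L * max (u - 5) v) := by
        apply Real.exp_le_exp.mpr
        have := le_max_right (u - 5) v
        exact mul_le_mul_of_nonneg_left (by linarith) hL0.le
      have q5 := Real.exp_pos (L * max (u - 5) v)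
      linarith

end V11219.TropRat
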