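import Pool.Agent.V11219.TwoDefs

/-!
# Classes on direct factors: definitions
-/

namespace Pool.Agent.V11219.Cls

/-- For all operators `P` the image of `U` under `P` is contained in the image of `V`. -/
def FactorsLe {K A : Type} [Field K] [AddCommGroup A] [Module K A] (U V : Submodule K A) : Prop :=
  ∀ P : Module.End K A, U.map P ≤ V.map P

/-- The elements of `U` belong to `V`. -/
def SubLe {K A : Type} [Field K] [AddCommGroup A] [Module K A] (U V : Submodule K A) : Prop :=
  U ≤ V

end Pool.Agent.V11219.Cls
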