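import Mathlib

/-! Functors in the category of compacta (compact Hausdorff spaces). -/

namespace Pool.Agent.V11219.CompFunctor

open CategoryTheory CategoryTheory.Limits Topology TopologicalSpace Set

universe u

/-- `F` sends injective maps to injective maps. -/
def Monomorphic (F : CompHaus.{u} ⥤ CompHaus.{u}) : Prop :=
  ∀ ⦃X Y : CompHaus.{u}⦄ (f : X ⟶ Y), Function.Injective f → Function.Injective (F.map f)

/-- `F` sends surjective maps to surjective maps. -/
def Epimorphic (F : CompHaus.{u} ⥤ CompHaus.{u}) : Prop :=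
  ∀ ⦃X Y : CompHaus.{u}⦄ (f : X ⟶ Y), Function.Surjective f → Function.Surjective (F.map f)

/-- `F` commutes with the limits of inverse spectra (indexed by nonempty directed sets). -/
def ContinuousFunctor (F : CompHaus.{u} ⥤ CompHaus.{u}) : Prop :=
  ∀ (J : Type u) [PartialOrder J] [IsDirectedOrder J] [Nonempty J], PreservesLimitsOfShape Jᵒᵖ F

/-- The square `f ∘ pX = pY ∘ f'` is bicommutative. -/
def Bicommutative {X' Y' X Y : Type u} (f' : X' → Y') (f : X → Y) (pX : X' → X) (pY : Y' → Y) :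
    Prop :=
  (∀ x, f (pX x) = pY (f' x)) ∧ ∀ x, f' '' (pX ⁻¹' {x}) = pY ⁻¹' {f x}

lemma isLimit_iff {J : Type u} [SmallCategory J] {D : J ⥤ CompHaus.{u}} (c : Cone D) :
    Nonempty (IsLimit c) ↔ ∀ s : (j : J) → D.obj j,
      (∀ ⦃i j : J⦄ (f : i ⟶ j), D.map f (s i) = s j) → ∃! x : c.pt, ∀ j, c.π.app j x = s j := by
  have h1 : Nonempty (IsLimit c) ↔ Nonempty (IsLimit ((forget CompHaus.{u}).mapCone c)) := by
    have h3 : PreservesLimitsOfShape J (compHausToTop.{u} ⋙ forget TopCat.{u}) := inferInstance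
    have h2 : PreservesLimitsOfShape J (forget CompHaus.{u}) := h3
    have h5 : ReflectsLimitsOfShape J (forget CompHaus.{u}) :=
      reflectsLimitsOfShape_of_reflectsIsomorphisms
    exact ⟨fun ⟨h⟩ => ⟨isLimitOfPreserves _ h⟩, fun ⟨h⟩ => ⟨isLimitOfReflects _ h⟩⟩
  rw [h1, Types.isLimit_iff]
  constructor
  · intro h s hs
    exact h s fun {i j} f => hs f
  · intro h s hs
    exact h s fun i j f => hs f

/-- A criterion for the continuity of a functor. -/
lemma continuousFunctor_of (F : CompHaus.{u} ⥤ CompHaus.{u})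
    (h : ∀ (J : Type u) [PartialOrder J] [IsDirectedOrder J] [Nonempty J]
      (D : Jᵒᵖ ⥤ CompHaus.{u}) (c : Cone D),
      (∀ s : (j : Jᵒᵖ) → D.obj j,
        (∀ ⦃i j : Jᵒᵖ⦄ (f : i ⟶ j), D.map f (s i) = s j) → ∃! x : c.pt, ∀ j, c.π.app j x = s j) →
      ∀ s : (j : Jᵒᵖ) → F.obj (D.obj j),
        (∀ ⦃i j : Jᵒᵖ⦄ (f : i ⟶ j), F.map (D.map f) (s i) = s j) →
        ∃! x : F.obj c.pt, ∀ j, F.map (c.π.app j) x = s j) : ContinuousFunctor F := by
  intro J _ _ _
  refine ⟨fun {D} => ⟨fun {c} hc => ?_⟩⟩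
  rw [isLimit_iff]
  exact h J D c ((isLimit_iff c).1 ⟨hc⟩)

end Pool.Agent.V11219.CompFunctor
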