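import Mathlib
import Pool.Agent.V11219.CompFunctor

/-! Threads of inverse spectra of compacta, quotients by closed relations, closed sets in the
Vietoris hyperspace. -/

namespace Pool.Agent.V11219.CompFunctor

open CategoryTheory CategoryTheory.Limits Topology TopologicalSpace Set

universe u

lemma continuous_hom {X Y : CompHaus.{u}} (f : X ⟶ Y) : Continuous (f : X → Y) :=
  f.hom.hom.continuous

/-- Threads through closed sets. -/
lemma exists_thread {J : Type u} [PartialOrder J] [IsDirectedOrder J] [Nonempty J]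
    (D : Jᵒᵖ ⥤ CompHaus.{u}) (T : (j : Jᵒᵖ) → Set (D.obj j)) (hc : ∀ j, IsClosed (T j))
    (hn : ∀ j, (T j).Nonempty) (hm : ∀ ⦃i j⦄ (f : i ⟶ j), ∀ x ∈ T i, D.map f x ∈ T j) :
    ∃ s : (j : Jᵒᵖ) → D.obj j, (∀ ⦃i j : Jᵒᵖ⦄ (f : i ⟶ j), D.map f (s i) = s j) ∧
      ∀ j, s j ∈ T j := by
  classical
  let S : Jᵒᵖ → Set ((j : Jᵒᵖ) → D.obj j) := fun j =>
    {x | x j ∈ T j ∧ ∀ k (f : j ⟶ k), D.map f (x j) = x k}
  have h1 : (⋂ j, S j).Nonempty := by
    refine IsCompact.nonempty_iInter_of_directed_nonempty_isCompact_isClosed S ?_ ?_ ?_ ?_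
    · intro i j
      obtain ⟨k, hik, hjk⟩ := exists_ge_ge i.unop j.unop
      have key : ∀ l : Jᵒᵖ, l.unop ≤ k → S (Opposite.op k) ⊆ S l := by
        rintro l hl x ⟨hx1, hx2⟩
        let f : Opposite.op k ⟶ l := (homOfLE hl).op
        refine ⟨?_, fun m g => ?_⟩
        · rw [← hx2 l f]
          exact hm f _ hx1
        · rw [← hx2 l f, ← hx2 m (f ≫ g), D.map_comp]
          rfl
      exact ⟨Opposite.op k, key i hik, key j hjk⟩
    · intro j
      obtain ⟨t, ht⟩ := hn j
      let x : (k : Jᵒᵖ) → D.obj k := fun k =>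
        if h : Nonempty (j ⟶ k) then D.map h.some t else (hn k).some
      have hx : ∀ k (f : j ⟶ k), x k = D.map f t := by
        intro k f
        have h1 : x k = D.map (⟨f⟩ : Nonempty (j ⟶ k)).some t := dif_pos ⟨f⟩
        rw [h1]
        have h2 : (⟨f⟩ : Nonempty (j ⟶ k)).some = f := Subsingleton.elim _ _
        rw [h2]
      have hxj : x j = t := by
        rw [hx j (𝟙 j), D.map_id]
        rfl
      refine ⟨x, ?_, ?_⟩
      · rw [hxj]
        exact ht
      · intro k f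
        rw [hx k f, hxj]
    · intro j
      refine IsClosed.isCompact ?_
      have h2 : S j = {x | x j ∈ T j} ∩ ⋂ k, ⋂ f : j ⟶ k, {x | D.map f (x j) = x k} := by
        ext x
        simp only [mem_inter_iff, mem_iInter]
        exact Iff.rfl
      rw [h2]
      refine ((hc j).preimage (continuous_apply j)).inter ?_
      exact isClosed_iInter fun k => isClosed_iInter fun f =>
        isClosed_eq ((continuous_hom _).comp (continuous_apply j)) (continuous_apply k)
    · intro j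
      have h2 : S j = {x | x j ∈ T j} ∩ ⋂ k, ⋂ f : j ⟶ k, {x | D.map f (x j) = x k} := by
        ext x
        simp only [mem_inter_iff, mem_iInter]
        exact Iff.rfl
      rw [h2]
      refine ((hc j).preimage (continuous_apply j)).inter ?_
      exact isClosed_iInter fun k => isClosed_iInter fun f =>
        isClosed_eq ((continuous_hom _).comp (continuous_apply j)) (continuous_apply k)
  obtain ⟨x, hx⟩ := h1
  rw [mem_iInter] at hx
  exact ⟨x, fun i j f => (hx i).2 j f, fun j => (hx j).1⟩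

/-- A Hausdorff quotient. -/
lemma t2Space_quotient {X : Type*} [TopologicalSpace X] [CompactSpace X] [T2Space X] (s : Setoid X)
    (hs : IsClosed {p : X × X | s p.1 p.2}) : T2Space (Quotient s) := by
  let q : X → Quotient s := Quotient.mk s
  have hq : IsQuotientMap q := isQuotientMap_quot_mk
  have hcl : ∀ C : Set X, IsClosed C → IsClosed (q '' C) := by
    intro C hC
    rw [← hq.isClosed_preimage]
    have h1 : q ⁻¹' (q '' C) = Prod.snd '' ({p : X × X | s p.1 p.2} ∩ Prod.fst ⁻¹' C) := by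
      ext y
      constructor
      · rintro ⟨x, hx, hxy⟩
        exact ⟨(x, y), ⟨Quotient.exact hxy, hx⟩, rfl⟩
      · rintro ⟨⟨x, y⟩, ⟨hxy, hx⟩, rfl⟩
        exact ⟨x, hx, Quotient.sound hxy⟩
    rw [h1]
    exact ((hs.inter (hC.preimage continuous_fst)).isCompact.image continuous_snd).isClosed
  refine ⟨fun x y hxy => ?_⟩
  have hpt : ∀ z : Quotient s, IsClosed (q ⁻¹' {z}) := by
    intro z
    refine IsClosed.preimage hq.continuous ?_
    obtain ⟨z', rfl⟩ := Quotient.exists_rep z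
    have := hcl {z'} isClosed_singleton
    rwa [image_singleton] at this
  have hdisj : Disjoint (q ⁻¹' {x}) (q ⁻¹' {y}) := by
    rw [Set.disjoint_left]
    intro a ha hb
    exact hxy (ha.symm.trans hb)
  obtain ⟨U, V, hU, hV, hxU, hyV, hUV⟩ :=
    SeparatedNhds.of_isCompact_isCompact (hpt x).isCompact (hpt y).isCompact hdisj
  refine ⟨(q '' Uᶜ)ᶜ, (q '' Vᶜ)ᶜ, (hcl _ hU.isClosed_compl).isOpen_compl,
    (hcl _ hV.isClosed_compl).isOpen_compl, ?_, ?_, ?_⟩
  · rintro ⟨a, ha, hax⟩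
    exact ha (hxU hax)
  · rintro ⟨a, ha, hax⟩
    exact ha (hyV hax)
  · rw [Set.disjoint_left]
    intro z hz1 hz2
    obtain ⟨z', rfl⟩ := Quotient.exists_rep z
    have h1 : z' ∈ U := by
      by_contra h
      exact hz1 ⟨z', h, rfl⟩
    have h2 : z' ∈ V := by
      by_contra h
      exact hz2 ⟨z', h, rfl⟩
    exact Set.disjoint_left.1 hUV h1 h2

lemma exists_compact_partition {X : Type*} [TopologicalSpace X] [T2Space X] {K : Set X}
    (hK : IsCompact K) (h : ¬ _root_.IsPreconnected K) :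
    ∃ A B : Set X, IsCompact A ∧ IsCompact B ∧ A.Nonempty ∧ B.Nonempty ∧ Disjoint A B ∧
      K = A ∪ B := by
  unfold _root_.IsPreconnected at h
  push Not at h
  obtain ⟨u, v, hu, hv, hKuv, ⟨a, haK, hau⟩, ⟨b, hbK, hbv⟩, huv⟩ := h
  have hnot : ∀ x ∈ K, ¬ (x ∈ u ∧ x ∈ v) := fun x hx hxx => by
    have : x ∈ K ∩ (u ∩ v) := ⟨hx, hxx⟩
    rw [huv] at this
    exact this
  refine ⟨K \ v, K \ u, hK.diff hv, hK.diff hu, ⟨a, haK, fun h => hnot a haK ⟨hau, h⟩⟩,
    ⟨b, hbK, fun h => hnot b hbK ⟨h, hbv⟩⟩, ?_, ?_⟩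
  · rw [Set.disjoint_left]
    rintro x ⟨hxK, hxv⟩ ⟨-, hxu⟩
    rcases hKuv hxK with h | h
    · exact hxu h
    · exact hxv h
  · ext x
    constructor
    · intro hx
      by_cases hxv : x ∈ v
      · exact Or.inr ⟨hx, fun h => hnot x hx ⟨h, hxv⟩⟩
      · exact Or.inl ⟨hx, hxv⟩
    · rintro (h | h)
      · exact h.1
      · exact h.1

lemma isClosed_preconnected (X : Type*) [TopologicalSpace X] [T2Space X] :
    IsClosed {K : Compacts X | _root_.IsPreconnected (K : Set X)} := by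
  rw [← isOpen_compl_iff, isOpen_iff_mem_nhds]
  intro K hK
  obtain ⟨A, B, hA, hB, hAn, hBn, hAB, hKAB⟩ := exists_compact_partition K.isCompact hK
  obtain ⟨U, V, hU, hV, hAU, hBV, hUV⟩ := SeparatedNhds.of_isCompact_isCompact hA hB hAB
  have hopen : IsOpen ({L : Compacts X | (L : Set X) ⊆ U ∪ V} ∩
      ({L : Compacts X | ((L : Set X) ∩ U).Nonempty} ∩
        {L : Compacts X | ((L : Set X) ∩ V).Nonempty})) :=
    (Compacts.isOpen_subsets_of_isOpen (hU.union hV)).inter
      ((Compacts.isOpen_inter_nonempty_of_isOpen hU).inter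
        (Compacts.isOpen_inter_nonempty_of_isOpen hV))
  refine Filter.mem_of_superset (hopen.mem_nhds ⟨?_, ?_, ?_⟩) ?_
  · show (K : Set X) ⊆ U ∪ V
    rw [hKAB]
    exact union_subset_union hAU hBV
  · obtain ⟨a, ha⟩ := hAn
    refine ⟨a, ?_, hAU ha⟩
    rw [hKAB]
    exact Or.inl ha
  · obtain ⟨a, ha⟩ := hBn
    refine ⟨a, ?_, hBV ha⟩
    rw [hKAB]
    exact Or.inr ha
  · rintro L ⟨h1, h2, h3⟩ hL
    obtain ⟨x, -, hx⟩ := hL U V hU hV h1 h2 h3
    exact Set.disjoint_left.1 hUV hx.1 hx.2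

lemma isClosed_subsingleton (X : Type*) [TopologicalSpace X] [T2Space X] :
    IsClosed {K : Compacts X | (K : Set X).Subsingleton} := by
  rw [← isOpen_compl_iff, isOpen_iff_mem_nhds]
  intro K hK
  have hK' : ¬ (K : Set X).Subsingleton := hK
  rw [Set.not_subsingleton_iff] at hK'
  obtain ⟨a, ha, b, hb, hab⟩ := hK'
  obtain ⟨U, V, hU, hV, haU, hbV, hUV⟩ := t2_separation hab
  have hopen : IsOpen ({L : Compacts X | ((L : Set X) ∩ U).Nonempty} ∩
        {L : Compacts X | ((L : Set X) ∩ V).Nonempty}) :=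
    (Compacts.isOpen_inter_nonempty_of_isOpen hU).inter
        (Compacts.isOpen_inter_nonempty_of_isOpen hV)
  refine Filter.mem_of_superset (hopen.mem_nhds ⟨⟨a, ha, haU⟩, ⟨b, hb, hbV⟩⟩) ?_
  rintro L ⟨⟨x, hx, hxU⟩, ⟨y, hy, hyV⟩⟩ hL
  have hxy : x = y := hL hx hy
  exact Set.disjoint_left.1 hUV hxU (hxy ▸ hyV)

end Pool.Agent.V11219.CompFunctor
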