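import Mathlib
import Pool.Agent.V11219.CompThread

/-! Normal functors in the category of compacta and the functor
`T X = {(x, y, z) ∈ X³ : x = y or x = z}`. -/

namespace Pool.Agent.V11219.CompFunctor

open CategoryTheory CategoryTheory.Limits Topology TopologicalSpace Set

universe u

/-- The weight of a topological space. -/
noncomputable def weight (X : Type u) [TopologicalSpace X] : Cardinal.{u} :=
  ⨅ B : {B : Set (Set X) // IsTopologicalBasis B}, Cardinal.mk B.1

/-- A closed subset of a compactum, as a compactum. -/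
def closedSub {X : CompHaus.{u}} (Z : Closeds X) : CompHaus.{u} where
  toTop := TopCat.of (Z : Set X)
  is_compact := isCompact_iff_compactSpace.1 Z.isClosed.isCompact
  is_hausdorff := inferInstanceAs (T2Space (Z : Set X))
  prop := trivial

/-- The inclusion map of a closed subset. -/
def incl {X : CompHaus.{u}} (Z : Closeds X) : closedSub Z ⟶ X :=
  ConcreteCategory.ofHom (C := CompHaus.{u}) ⟨Subtype.val, continuous_subtype_val⟩

/-- `F Z` as a subset of `F X`, for closed `Z ⊆ X`. -/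
def subF (F : CompHaus.{u} ⥤ CompHaus.{u}) {X : CompHaus.{u}} (Z : Closeds X) : Set (F.obj X) :=
  range (F.map (incl Z))

/-- The preimage of a closed set. -/
def preimageC {X Y : CompHaus.{u}} (f : X ⟶ Y) (Z : Closeds Y) : Closeds X :=
  ⟨f ⁻¹' Z, Z.isClosed.preimage (continuous_hom f)⟩

/-- Normal functors in the sense of Shchepin. -/
structure Normal (F : CompHaus.{u} ⥤ CompHaus.{u}) : Prop where
  monomorphic : Monomorphic F
  epimorphic : Epimorphic F
  continuous : ContinuousFunctor F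
  intersections : ∀ (X : CompHaus.{u}) (ι : Type u) [Nonempty ι] (Z : ι → Closeds X),
    subF F (⨅ i, Z i) = ⋂ i, subF F (Z i)
  preimages : ∀ (X Y : CompHaus.{u}) (f : X ⟶ Y) (Z : Closeds Y),
    F.map f ⁻¹' subF F Z = subF F (preimageC f Z)
  empty : ∀ X : CompHaus.{u}, IsEmpty X → IsEmpty (F.obj X)
  point : ∀ X : CompHaus.{u}, Nonempty X ∧ Subsingleton X →
    Nonempty (F.obj X) ∧ Subsingleton (F.obj X)
  weight : ∀ X : CompHaus.{u}, Infinite X → weight (F.obj X) = weight X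

/-- `F` sends finite spaces to finite spaces. -/
def Finitary (F : CompHaus.{u} ⥤ CompHaus.{u}) : Prop :=
  ∀ X : CompHaus.{u}, Finite X → Finite (F.obj X)

/-- The discrete space `{0, ..., n - 1}`. -/
def disc (n : ℕ) : CompHaus.{u} := CompHaus.of (ULift.{u} (Fin n))

/-- `F_n X = F X` for all `X`: every element of `F X` comes from a map `n → X`. -/
def DegreeLE (F : CompHaus.{u} ⥤ CompHaus.{u}) (n : ℕ) : Prop :=
  ∀ (X : CompHaus.{u}) (a : F.obj X), ∃ ξ : disc n ⟶ X, a ∈ range (F.map ξ)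

/-- Skeletal maps: preimages of nowhere dense sets are nowhere dense. -/
def SkeletalMap {X Y : Type u} [TopologicalSpace X] [TopologicalSpace Y] (f : X → Y) : Prop :=
  ∀ A : Set Y, IsNowhereDense A → IsNowhereDense (f ⁻¹' A)

/-- `F` sends open surjections to skeletal maps. -/
def SkeletalFunctor (F : CompHaus.{u} ⥤ CompHaus.{u}) : Prop :=
  ∀ ⦃X Y : CompHaus.{u}⦄ (f : X ⟶ Y), IsOpenMap f → Function.Surjective f → SkeletalMap (F.map f)

/-- `F` sends open surjections to open maps. -/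
def OpenFunctor (F : CompHaus.{u} ⥤ CompHaus.{u}) : Prop :=
  ∀ ⦃X Y : CompHaus.{u}⦄ (f : X ⟶ Y), IsOpenMap f → Function.Surjective f → IsOpenMap (F.map f)

/-- `F` sends bicommutative squares of surjections between finite spaces to bicommutative
squares. -/
def FinitelyBicommutative (F : CompHaus.{u} ⥤ CompHaus.{u}) : Prop :=
  ∀ ⦃X' Y' X Y : CompHaus.{u}⦄ (f' : X' ⟶ Y') (f : X ⟶ Y) (pX : X' ⟶ X) (pY : Y' ⟶ Y),
    Finite X' → Finite Y' → Finite X → Finite Y → Function.Surjective f' → Function.Surjective f →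
      Function.Surjective pX → Function.Surjective pY → Bicommutative f' f pX pY →
        Bicommutative (F.map f') (F.map f) (F.map pX) (F.map pY)

/-! ### The weight -/

lemma exists_basis (X : Type u) [TopologicalSpace X] :
    ∃ B : Set (Set X), IsTopologicalBasis B ∧ Cardinal.mk B = weight X := by
  have hne : Nonempty {B : Set (Set X) // IsTopologicalBasis B} :=
    ⟨⟨_, isTopologicalBasis_opens⟩⟩
  have h := ciInf_mem (fun B : {B : Set (Set X) // IsTopologicalBasis B} => Cardinal.mk B.1)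
  obtain ⟨B, hB⟩ := h
  exact ⟨B.1, B.2, hB⟩

lemma weight_le {X : Type u} [TopologicalSpace X] {B : Set (Set X)} (hB : IsTopologicalBasis B) :
    weight X ≤ Cardinal.mk B :=
  ciInf_le' (fun B : {B : Set (Set X) // IsTopologicalBasis B} => Cardinal.mk B.1) ⟨B, hB⟩

lemma weight_le_of_isInducing {X Y : Type u} [TopologicalSpace X] [TopologicalSpace Y] {f : X → Y}
    (hf : IsInducing f) : weight X ≤ weight Y := by
  obtain ⟨B, hB, hB'⟩ := exists_basis Y
  rw [← hB']
  exact (weight_le (hB.isInducing hf)).trans Cardinal.mk_image_le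

lemma weight_prod_le (X Y : Type u) [TopologicalSpace X] [TopologicalSpace Y] :
    weight (X × Y) ≤ weight X * weight Y := by
  obtain ⟨B, hB, hB'⟩ := exists_basis X
  obtain ⟨C, hC, hC'⟩ := exists_basis Y
  rw [← hB', ← hC']
  refine (weight_le (hB.prod hC)).trans ?_
  rw [Cardinal.mul_def]
  refine Cardinal.mk_le_of_surjective
    (f := fun p : B × C => (⟨p.1.1 ×ˢ p.2.1, mem_image2_of_mem p.1.2 p.2.2⟩ :
      image2 (fun (a : Set X) (b : Set Y) => a ×ˢ b) B C)) ?_
  rintro ⟨_, ⟨a, ha, b, hb, rfl⟩⟩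
  exact ⟨(⟨a, ha⟩, ⟨b, hb⟩), rfl⟩

lemma aleph0_le_weight (X : Type u) [TopologicalSpace X] [T2Space X] [Infinite X] :
    Cardinal.aleph0 ≤ weight X := by
  obtain ⟨B, hB, hB'⟩ := exists_basis X
  rw [← hB', Cardinal.aleph0_le_mk_iff]
  by_contra hfin
  have hfin' : Finite B := not_infinite_iff_finite.1 hfin
  have h1 : Function.Injective fun x : X => {b : B | x ∈ b.1} := by
    intro x y hxy
    by_contra hne
    obtain ⟨U, V, hU, hV, hxU, hyV, hUV⟩ := t2_separation hne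
    obtain ⟨b, hb, hxb, hbU⟩ := hB.exists_subset_of_mem_open hxU hU
    have h2 : (⟨b, hb⟩ : B) ∈ {b : B | x ∈ b.1} := hxb
    have hxy' : {b : B | x ∈ b.1} = {b : B | y ∈ b.1} := hxy
    rw [hxy'] at h2
    exact Set.disjoint_left.1 hUV (hbU h2) hyV
  have : Finite X := Finite.of_injective _ h1
  exact not_finite X

/-! ### The functor -/

/-- The underlying space of `T X`. -/
abbrev TT (X : Type u) : Type u := {p : X × X × X // p.1 = p.2.1 ∨ p.1 = p.2.2}

lemma isClosed_TT (X : Type u) [TopologicalSpace X] [T2Space X] :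
    IsClosed {p : X × X × X | p.1 = p.2.1 ∨ p.1 = p.2.2} :=
  (isClosed_eq (by fun_prop) (by fun_prop)).union (isClosed_eq (by fun_prop) (by fun_prop))

instance (X : Type u) [TopologicalSpace X] [T2Space X] [CompactSpace X] : CompactSpace (TT X) :=
  isCompact_iff_compactSpace.1 (isClosed_TT X).isCompact

/-- The map `T X → T Y` induced by a map `X → Y`. -/
def tmap {X Y : Type u} (f : X → Y) (p : TT X) : TT Y :=
  ⟨(f p.1.1, f p.1.2.1, f p.1.2.2), p.2.imp (congrArg f) (congrArg f)⟩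

lemma continuous_tmap {X Y : Type u} [TopologicalSpace X] [TopologicalSpace Y] {f : X → Y}
    (hf : Continuous f) : Continuous (tmap f) := by
  refine Continuous.subtype_mk ?_ _
  exact (hf.comp (continuous_fst.comp continuous_subtype_val)).prodMk
    ((hf.comp (continuous_fst.comp (continuous_snd.comp continuous_subtype_val))).prodMk
      (hf.comp (continuous_snd.comp (continuous_snd.comp continuous_subtype_val))))

/-- The functor `T X = {(x, y, z) ∈ X³ : x = y or x = z}`. -/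
def T : CompHaus.{u} ⥤ CompHaus.{u} where
  obj X := CompHaus.of (TT X)
  map f := CompHausLike.ofHom _ ⟨tmap f, continuous_tmap (continuous_hom f)⟩
  map_id _ := rfl
  map_comp _ _ := rfl

lemma T_monomorphic : Monomorphic T.{u} := by
  rintro X Y f hf ⟨⟨x, y, z⟩, hp⟩ ⟨⟨x', y', z'⟩, hp'⟩ h
  have h' : (f x, f y, f z) = (f x', f y', f z') := congrArg Subtype.val h
  simp only [Prod.mk.injEq] at h'
  refine Subtype.ext ?_
  show (x, y, z) = (x', y', z')
  rw [hf h'.1, hf h'.2.1, hf h'.2.2]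

lemma T_epimorphic : Epimorphic T.{u} := by
  rintro X Y f hf ⟨⟨x, y, z⟩, hp⟩
  obtain ⟨x, rfl⟩ := hf x
  obtain ⟨y, rfl⟩ := hf y
  obtain ⟨z, rfl⟩ := hf z
  rcases hp with h | h
  · have h' : f x = f y := h
    refine ⟨⟨(x, x, z), Or.inl rfl⟩, Subtype.ext ?_⟩
    show (f x, f x, f z) = (f x, f y, f z)
    rw [h']
  · have h' : f x = f z := h
    refine ⟨⟨(x, y, x), Or.inr rfl⟩, Subtype.ext ?_⟩
    show (f x, f y, f x) = (f x, f y, f z)
    rw [h']

lemma T_continuous : ContinuousFunctor T.{u} := by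
  refine continuousFunctor_of _ fun J _ _ _ D c hc s hs => ?_
  have hs' : ∀ ⦃i j : Jᵒᵖ⦄ (f : i ⟶ j), (D.map f (s i).1.1, D.map f (s i).1.2.1,
      D.map f (s i).1.2.2) = (s j).1 := fun i j f => congrArg Subtype.val (hs f)
  obtain ⟨x, hx, hx'⟩ := hc (fun j => (s j).1.1) fun i j f => congrArg Prod.fst (hs' f)
  obtain ⟨y, hy, hy'⟩ := hc (fun j => (s j).1.2.1) fun i j f => congrArg (fun p => p.2.1) (hs' f)
  obtain ⟨z, hz, hz'⟩ := hc (fun j => (s j).1.2.2) fun i j f => congrArg (fun p => p.2.2) (hs' f)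
  have hcone : ∀ {i j : Jᵒᵖ} (f : i ⟶ j) (x : c.pt),
      D.map f (c.π.app i x) = c.π.app j x := by
    intro i j f x
    have h := c.π.naturality f
    have h1 : c.π.app i ≫ D.map f = c.π.app j := by
      rw [← h]
      simp
    exact ConcreteCategory.congr_hom h1 x
  have hne : ∀ a b : c.pt, a ≠ b → ∃ j, c.π.app j a ≠ c.π.app j b := by
    intro a b hab
    by_contra hcon
    push Not at hcon
    exact hab ((hc (fun j => c.π.app j b) fun i j f => hcone f b).unique hcon fun _ => rfl)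
  have hmem : x = y ∨ x = z := by
    by_contra hcon
    push Not at hcon
    obtain ⟨h1, h2⟩ := hcon
    obtain ⟨i, hi⟩ := hne _ _ h1
    obtain ⟨j, hj⟩ := hne _ _ h2
    obtain ⟨k, hik, hjk⟩ := exists_ge_ge i.unop j.unop
    let f : Opposite.op k ⟶ i := (homOfLE hik).op
    let g : Opposite.op k ⟶ j := (homOfLE hjk).op
    rcases (s (Opposite.op k)).2 with h | h
    · refine hi ?_
      rw [← hcone f, ← hcone f, hx, hy, h]
    · refine hj ?_
      rw [← hcone g, ← hcone g, hx, hz, h]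
  refine ⟨⟨(x, y, z), hmem⟩, fun j => Subtype.ext (Prod.ext (hx j) (Prod.ext (hy j) (hz j))), ?_⟩
  rintro ⟨⟨x1, y1, z1⟩, hp⟩ h
  have h1 : x1 = x := hx' _ fun j => congrArg (fun p => p.1.1) (h j)
  have h2 : y1 = y := hy' _ fun j => congrArg (fun p => p.1.2.1) (h j)
  have h3 : z1 = z := hz' _ fun j => congrArg (fun p => p.1.2.2) (h j)
  exact Subtype.ext (Prod.ext h1 (Prod.ext h2 h3))

lemma mem_subF {X : CompHaus.{u}} (Z : Closeds X) (a : TT X) :
    a ∈ subF T Z ↔ a.1.1 ∈ Z ∧ a.1.2.1 ∈ Z ∧ a.1.2.2 ∈ Z := by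
  constructor
  · rintro ⟨⟨⟨x, y, z⟩, hp⟩, rfl⟩
    exact ⟨x.2, y.2, z.2⟩
  · rintro ⟨hx, hy, hz⟩
    refine ⟨⟨(⟨a.1.1, hx⟩, ⟨a.1.2.1, hy⟩, ⟨a.1.2.2, hz⟩), ?_⟩, rfl⟩
    exact a.2.imp Subtype.ext Subtype.ext

lemma T_intersections (X : CompHaus.{u}) (ι : Type u) [Nonempty ι] (Z : ι → Closeds X) :
    subF T (⨅ i, Z i) = ⋂ i, subF T (Z i) := by
  have hmem : ∀ x : X, x ∈ (⨅ i, Z i) ↔ ∀ i, x ∈ Z i := fun x => by
    rw [← SetLike.mem_coe, Closeds.coe_iInf, mem_iInter]
    exact Iff.rfl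
  refine Set.ext fun a => ?_
  have h1 : a ∈ subF T (⨅ i, Z i) ↔ _ := mem_subF _ a
  rw [h1, hmem, hmem, hmem, mem_iInter]
  constructor
  · rintro ⟨hx, hy, hz⟩ i
    exact (mem_subF _ a).2 ⟨hx i, hy i, hz i⟩
  · intro h
    exact ⟨fun i => ((mem_subF _ a).1 (h i)).1, fun i => ((mem_subF _ a).1 (h i)).2.1,
      fun i => ((mem_subF _ a).1 (h i)).2.2⟩

lemma T_preimages (X Y : CompHaus.{u}) (f : X ⟶ Y) (Z : Closeds Y) :
    T.map f ⁻¹' subF T Z = subF T (preimageC f Z) := by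
  refine Set.ext fun a => ?_
  have h1 : a ∈ subF T (preimageC f Z) ↔ _ := mem_subF _ a
  have h2 : T.map f a ∈ subF T Z ↔ _ := mem_subF _ (tmap f a)
  rw [h1]
  exact h2

lemma T_weight (X : CompHaus.{u}) (hX : Infinite X) : weight (T.obj X) = weight X := by
  apply le_antisymm
  · have h1 : weight (TT X) ≤ weight (X × X × X) := weight_le_of_isInducing IsInducing.subtypeVal
    refine h1.trans ((weight_prod_le _ _).trans ?_)
    have h2 := aleph0_le_weight X
    calc weight X * weight (X × X) ≤ weight X * (weight X * weight X) := by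
          gcongr
          exact weight_prod_le _ _
      _ = weight X := by rw [Cardinal.mul_eq_self h2, Cardinal.mul_eq_self h2]
  · let d : X → TT X := fun x => ⟨(x, x, x), Or.inl rfl⟩
    have hd : Continuous d :=
      Continuous.subtype_mk (continuous_id.prodMk (continuous_id.prodMk continuous_id)) _
    have hi : IsInducing d := by
      refine IsInducing.of_comp hd (g := fun p : TT X => p.1.1)
        (continuous_fst.comp continuous_subtype_val) ?_
      exact IsInducing.id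
    exact weight_le_of_isInducing hi

lemma T_normal : Normal T.{u} where
  monomorphic := T_monomorphic
  epimorphic := T_epimorphic
  continuous := T_continuous
  intersections := T_intersections
  preimages := T_preimages
  empty X hX := ⟨fun a : TT X => hX.false a.1.1⟩
  point X hX := by
    obtain ⟨⟨x⟩, hs⟩ := hX
    refine ⟨⟨(⟨(x, x, x), Or.inl rfl⟩ : TT X)⟩, ⟨fun a b : TT X => Subtype.ext ?_⟩⟩
    exact Subsingleton.elim _ _
  weight := T_weight

lemma T_finitary : Finitary T.{u} := fun X hX => by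
  have : Finite (X × X × X) := inferInstance
  exact inferInstanceAs (Finite (TT X))

lemma continuous_pair {X : Type u} [TopologicalSpace X] (x y : X) :
    Continuous fun i : ULift.{u} (Fin 2) => if i.down = 0 then x else y :=
  continuous_of_discreteTopology

/-- The map `2 → X` with values `x` and `y`. -/
def pairMap {X : CompHaus.{u}} (x y : X) : disc.{u} 2 ⟶ X :=
  ConcreteCategory.ofHom (C := CompHaus.{u}) ⟨fun i : ULift.{u} (Fin 2) => if i.down = 0 then x
    else y, continuous_pair x y⟩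

lemma T_degreeLE : DegreeLE T.{u} 2 := by
  intro X a
  obtain ⟨⟨x, y, z⟩, hp | hp⟩ := (show TT X from a)
  · have hp' : x = y := hp
    subst hp'
    exact ⟨pairMap x z, ⟨(⟨0⟩, ⟨0⟩, ⟨1⟩), Or.inl rfl⟩, rfl⟩
  · have hp' : x = z := hp
    subst hp'
    exact ⟨pairMap x y, ⟨(⟨0⟩, ⟨1⟩, ⟨0⟩), Or.inr rfl⟩, rfl⟩

lemma T_degree : IsLeast {n | DegreeLE T.{u} n} 2 := by
  refine ⟨T_degreeLE, fun n hn => ?_⟩
  by_contra hcon
  have hn2 : n < 2 := not_le.1 hcon
  have hsub : Subsingleton (ULift.{u} (Fin n)) := by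
    have : Subsingleton (Fin n) := by
      rw [Fin.subsingleton_iff_le_one]
      omega
    infer_instance
  let a : T.obj (disc.{u} 2) := (⟨(⟨0⟩, ⟨1⟩, ⟨0⟩), Or.inr rfl⟩ : TT (ULift.{u} (Fin 2)))
  obtain ⟨ξ, b, hb⟩ := hn (disc.{u} 2) a
  have h1 : ξ b.1.1 = (⟨0⟩ : ULift.{u} (Fin 2)) := congrArg (fun p : TT (ULift.{u} (Fin 2)) => p.1.1) hb
  have h2 : ξ b.1.2.1 = (⟨1⟩ : ULift.{u} (Fin 2)) :=
    congrArg (fun p : TT (ULift.{u} (Fin 2)) => p.1.2.1) hb
  have h3 : b.1.1 = b.1.2.1 := hsub.elim _ _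
  rw [h3, h2] at h1
  have h4 := congrArg ULift.down h1
  exact absurd h4 (by decide)

/-! ### Skeletality -/

lemma skeletalMap_of {X Y : Type u} [TopologicalSpace X] [TopologicalSpace Y] {f : X → Y}
    (hf : Continuous f)
    (h : ∀ U : Set X, IsOpen U → U.Nonempty → ∃ V ⊆ f '' U, IsOpen V ∧ V.Nonempty) :
    SkeletalMap f := by
  intro A hA
  by_contra hcon
  have hne : (interior (closure (f ⁻¹' A))).Nonempty := Set.nonempty_iff_ne_empty.2 hcon
  obtain ⟨V, hVU, hV, hVne⟩ := h _ isOpen_interior hne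
  have h1 : V ⊆ closure A := by
    refine hVU.trans ?_
    rintro _ ⟨x, hx, rfl⟩
    have h2 : x ∈ closure (f ⁻¹' A) := interior_subset hx
    exact (hf.closure_preimage_subset A) h2
  have h2 : V ⊆ interior (closure A) := interior_maximal h1 hV
  rw [show interior (closure A) = ∅ from hA] at h2
  obtain ⟨v, hv⟩ := hVne
  exact h2 hv

section skel

variable {X Y : Type u} [TopologicalSpace X] [TopologicalSpace Y]

/-- A basic neighbourhood of a point of `T X` with `x = z`. -/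
lemma exists_nhds_left {U : Set (TT X)} (hU : IsOpen U) {x y : X}
    (h : (⟨(x, y, x), Or.inr rfl⟩ : TT X) ∈ U) :
    ∃ A B : Set X, IsOpen A ∧ IsOpen B ∧ x ∈ A ∧ y ∈ B ∧
      ∀ a ∈ A, ∀ b ∈ B, (⟨(a, b, a), Or.inr rfl⟩ : TT X) ∈ U := by
  have hc : Continuous fun p : X × X => (⟨(p.1, p.2, p.1), Or.inr rfl⟩ : TT X) :=
    Continuous.subtype_mk (by fun_prop) _
  have h1 : (fun p : X × X => (⟨(p.1, p.2, p.1), Or.inr rfl⟩ : TT X)) ⁻¹' U ∈ 𝓝 (x, y) :=
    (hU.preimage hc).mem_nhds h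
  rw [mem_nhds_prod_iff'] at h1
  obtain ⟨A, B, hA, hxA, hB, hyB, hAB⟩ := h1
  exact ⟨A, B, hA, hB, hxA, hyB, fun a ha b hb => hAB (mk_mem_prod ha hb)⟩

/-- A basic neighbourhood of a point of `T X` with `x = y`. -/
lemma exists_nhds_right {U : Set (TT X)} (hU : IsOpen U) {x z : X}
    (h : (⟨(x, x, z), Or.inl rfl⟩ : TT X) ∈ U) :
    ∃ A B : Set X, IsOpen A ∧ IsOpen B ∧ x ∈ A ∧ z ∈ B ∧
      ∀ a ∈ A, ∀ b ∈ B, (⟨(a, a, b), Or.inl rfl⟩ : TT X) ∈ U := by
  have hc : Continuous fun p : X × X => (⟨(p.1, p.1, p.2), Or.inl rfl⟩ : TT X) :=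
    Continuous.subtype_mk (by fun_prop) _
  have h1 : (fun p : X × X => (⟨(p.1, p.1, p.2), Or.inl rfl⟩ : TT X)) ⁻¹' U ∈ 𝓝 (x, z) :=
    (hU.preimage hc).mem_nhds h
  rw [mem_nhds_prod_iff'] at h1
  obtain ⟨A, B, hA, hxA, hB, hyB, hAB⟩ := h1
  exact ⟨A, B, hA, hB, hxA, hyB, fun a ha b hb => hAB (mk_mem_prod ha hb)⟩

/-- If the images of `A` and `B` under an open map are the same point, this point is isolated. -/
lemma isOpen_diag {f : X → Y} (hf : IsOpenMap f) {A B : Set X} (hA : IsOpen A) {x y : X}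
    (hx : x ∈ A) (hy : y ∈ B) (h : ∀ a ∈ A, ∀ b ∈ B, f a = f b) :
    IsOpen {p : TT Y | p = ⟨(f x, f x, f x), Or.inl rfl⟩} := by
  have h1 : f '' A = {f x} := by
    refine Subset.antisymm ?_ ?_
    · rintro _ ⟨a, ha, rfl⟩
      exact (h a ha y hy).trans (h x hx y hy).symm
    · rintro _ rfl
      exact mem_image_of_mem f hx
  have h2 : IsOpen ({f x} : Set Y) := by
    rw [← h1]
    exact hf A hA
  have h3 : {p : TT Y | p = ⟨(f x, f x, f x), Or.inl rfl⟩} =
      Subtype.val ⁻¹' (({f x} : Set Y) ×ˢ (({f x} : Set Y) ×ˢ ({f x} : Set Y))) := by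
    refine Set.ext fun p => ⟨?_, ?_⟩
    · intro hp
      have hp' : p = ⟨(f x, f x, f x), Or.inl rfl⟩ := hp
      rw [hp']
      exact ⟨rfl, rfl, rfl⟩
    · rintro ⟨h1, h2, h3⟩
      exact Subtype.ext (Prod.ext h1 (Prod.ext h2 h3))
  rw [h3]
  exact (h2.prod (h2.prod h2)).preimage continuous_subtype_val

lemma exists_open_image [T2Space Y] {f : X → Y} (hfc : Continuous f) (hf : IsOpenMap f)
    {U : Set (TT X)} (hU : IsOpen U) (hne : U.Nonempty) :
    ∃ V ⊆ tmap f '' U, IsOpen V ∧ V.Nonempty := by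
  obtain ⟨⟨⟨x, y, z⟩, hp⟩, hpU⟩ := hne
  rcases hp with hp' | hp'
  · -- `x = y`
    have hp'' : x = y := hp'
    subst hp''
    obtain ⟨A, B, hA, hB, hxA, hzB, hAB⟩ := exists_nhds_right hU hpU
    by_cases h : ∀ a ∈ A, ∀ b ∈ B, f a = f b
    · refine ⟨_, ?_, isOpen_diag hf hA hxA hzB h, ⟨_, rfl⟩⟩
      rintro p hp
      have hp' : p = ⟨(f x, f x, f x), Or.inl rfl⟩ := hp
      refine ⟨_, hAB x hxA z hzB, ?_⟩
      rw [hp']
      refine Subtype.ext ?_
      show (f x, f x, f z) = (f x, f x, f x)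
      rw [h x hxA z hzB]
    · push Not at h
      obtain ⟨a, ha, b, hb, hab⟩ := h
      obtain ⟨V, W, hV, hW, haV, hbW, hVW⟩ := t2_separation hab
      have hA' : IsOpen (f '' (A ∩ f ⁻¹' V)) := hf _ (hA.inter (hV.preimage hfc))
      have hB' : IsOpen (f '' (B ∩ f ⁻¹' W)) := hf _ (hB.inter (hW.preimage hfc))
      refine ⟨Subtype.val ⁻¹' ((f '' (A ∩ f ⁻¹' V)) ×ˢ ((univ : Set Y) ×ˢ (f '' (B ∩ f ⁻¹' W)))),
        ?_, (hA'.prod (isOpen_univ.prod hB')).preimage continuous_subtype_val,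
        ⟨⟨(f a, f a, f b), Or.inl rfl⟩, ⟨a, ⟨ha, haV⟩, rfl⟩, mem_univ _, ⟨b, ⟨hb, hbW⟩, rfl⟩⟩⟩
      rintro ⟨⟨u, v, w⟩, hp⟩ ⟨⟨a', ⟨ha', haV'⟩, rfl⟩, -, ⟨b', ⟨hb', hbW'⟩, rfl⟩⟩
      have h1 : f a' ≠ f b' := fun h => Set.disjoint_left.1 hVW haV' (by rw [h]; exact hbW')
      rcases hp with hp | hp
      · have hp' : f a' = v := hp
        refine ⟨_, hAB a' ha' b' hb', Subtype.ext ?_⟩
        show (f a', f a', f b') = (f a', v, f b')
        rw [← hp']
      · exact absurd hp h1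
  · -- `x = z`
    have hp'' : x = z := hp'
    subst hp''
    obtain ⟨A, B, hA, hB, hxA, hzB, hAB⟩ := exists_nhds_left hU hpU
    by_cases h : ∀ a ∈ A, ∀ b ∈ B, f a = f b
    · refine ⟨_, ?_, isOpen_diag hf hA hxA hzB h, ⟨_, rfl⟩⟩
      rintro p hp
      have hp' : p = ⟨(f x, f x, f x), Or.inl rfl⟩ := hp
      refine ⟨_, hAB x hxA y hzB, ?_⟩
      rw [hp']
      refine Subtype.ext ?_
      show (f x, f y, f x) = (f x, f x, f x)
      rw [h x hxA y hzB]
    · push Not at h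
      obtain ⟨a, ha, b, hb, hab⟩ := h
      obtain ⟨V, W, hV, hW, haV, hbW, hVW⟩ := t2_separation hab
      have hA' : IsOpen (f '' (A ∩ f ⁻¹' V)) := hf _ (hA.inter (hV.preimage hfc))
      have hB' : IsOpen (f '' (B ∩ f ⁻¹' W)) := hf _ (hB.inter (hW.preimage hfc))
      refine ⟨Subtype.val ⁻¹' ((f '' (A ∩ f ⁻¹' V)) ×ˢ ((f '' (B ∩ f ⁻¹' W)) ×ˢ (univ : Set Y))),
        ?_, (hA'.prod (hB'.prod isOpen_univ)).preimage continuous_subtype_val,
        ⟨⟨(f a, f b, f a), Or.inr rfl⟩, ⟨a, ⟨ha, haV⟩, rfl⟩, ⟨b, ⟨hb, hbW⟩, rfl⟩, mem_univ _⟩⟩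
      rintro ⟨⟨u, v, w⟩, hp⟩ ⟨⟨a', ⟨ha', haV'⟩, rfl⟩, ⟨b', ⟨hb', hbW'⟩, rfl⟩, -⟩
      have h1 : f a' ≠ f b' := fun h => Set.disjoint_left.1 hVW haV' (by rw [h]; exact hbW')
      rcases hp with hp | hp
      · exact absurd hp h1
      · have hp' : f a' = w := hp
        refine ⟨_, hAB a' ha' b' hb', Subtype.ext ?_⟩
        show (f a', f b', f a') = (f a', f b', w)
        rw [← hp']

end skel

lemma T_skeletal : SkeletalFunctor T.{u} := by
  intro X Y f hf _
  exact skeletalMap_of (continuous_hom (T.map f)) fun U hU hne =>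
    exists_open_image (continuous_hom f) hf hU hne

end Pool.Agent.V11219.CompFunctor
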