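import Mathlib
import Pool.Agent.TH118.IS.Two

/-!
# Finite local monodromy with isolated eigenvalue ratios: mixed types

`X` is a representation of `Γ` over an algebraically closed field, the sum of strongly irreducible
subspaces `E i`. For each `i` an element of finite order has eigenvalues on `E i` which split in an
isolated way; different `i` can be of different types (symplectic or not).
-/

set_option linter.unusedSectionVars false

namespace Pool.Agent.V11219.FinIn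

open Module Pool.Agent.H204R3.SP Pool.Agent.H204R3.GP Pool.Agent.W522.U Pool.Agent.TH118.WC
open Pool.Agent.TH118.CR Pool.Agent.TH118.CU Pool.Agent.TH118.IS
open Pool.Agent.W529.Ta Pool.Agent.W528.Odd
open Pool.Agent.W528.Tor (AltDual)

section defs

variable {K : Type} [Field K] {X : Type} [AddCommGroup X] [Module K X]
  {Γ : Type} [Group Γ] (R : Representation K Γ X) (χ : Γ →* K) (ω : X →ₗ[K] X →ₗ[K] K)
  {I : Type} (E : I → Submodule K X)

/-- The form `ω` is not zero on `U`. -/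
def NonIso (U : Submodule K X) : Prop := ∃ u ∈ U, ∃ v ∈ U, ω u v ≠ 0

/-- Geometric progressions of length three with quotient `ν` in the set of the eigenvalues of `γ` on
`U` exist only if `ω` is not zero on `U`; they are self-dual, with one-dimensional outer
eigenspaces. -/
def ChainsDual (γ : Γ) (U : Submodule K X) (ν : K) : Prop :=
  ∀ α, eig R γ U α ≠ ⊥ → eig R γ U (α * ν) ≠ ⊥ → eig R γ U (α * ν * ν) ≠ ⊥ →
    NonIso ω U ∧ finrank K (eig R γ U α) = 1 ∧ α * (α * ν * ν) = χ γ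

/-- The splitting for general type. -/
def SplitsA (γ : Γ) (i : I) : Prop :=
  ∃ A : Set K, (∃ α ∈ A, eig R γ (E i) α ≠ ⊥) ∧ (∃ β ∉ A, eig R γ (E i) β ≠ ⊥) ∧
    ∀ α ∈ A, ∀ β ∉ A, eig R γ (E i) α ≠ ⊥ → eig R γ (E i) β ≠ ⊥ →
      (finrank K (eig R γ (E i) α) = 1 ∨ finrank K (eig R γ (E i) β) = 1) ∧
      (∀ α', eig R γ (E i) α' ≠ ⊥ → eig R γ (E i) (α' * (β * α⁻¹)) ≠ ⊥ → α' = α) ∧
      ∀ j, ChainsDual R χ ω γ (E j) (β * α⁻¹)

/-- The splitting for symplectic type. -/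
def SplitsB (γ : Γ) (i : I) : Prop :=
  NonIso ω (E i) ∧
  ∃ A : Set K, (∃ α ∈ A, eig R γ (E i) α ≠ ⊥) ∧ (∃ β ∉ A, eig R γ (E i) β ≠ ⊥) ∧
    (∀ α, eig R γ (E i) α ≠ ⊥ → (α ∈ A ↔ χ γ * α⁻¹ ∈ A)) ∧
    ∀ α ∈ A, ∀ β ∉ A, eig R γ (E i) α ≠ ⊥ → eig R γ (E i) β ≠ ⊥ →
      (finrank K (eig R γ (E i) α) = 1 ∨ finrank K (eig R γ (E i) β) = 1) ∧
      (∀ α', eig R γ (E i) α' ≠ ⊥ → eig R γ (E i) (α' * (β * α⁻¹)) ≠ ⊥ →
        α' = α ∨ α' * β = χ γ) ∧
      ∀ j, ChainsDual R χ ω γ (E j) (β * α⁻¹)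

/-- For `j` such that `E j` is not potentially isomorphic to `E i` the eigenvalues of `γ` on `E j`,
with multiplicities, are not the products of those on `E i` with a number. -/
def Separates (γ : Γ) (i : I) : Prop :=
  ∀ j, ¬Tw R (fun _ => 1) (E i) (E j) → ∀ a : K, a ≠ 0 → ∃ α : K,
    finrank K (eig R γ (E i) α) ≠ finrank K (eig R γ (E j) (a * α))

/-- For each `i` there is an element of finite order which preserves all `E j`, whose eigenvalues on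
`E i` split in an isolated way and separate `E i` from the `E j` which are not isomorphic to it (if
`E i` is not self-dual). -/
def HasFinitePlaces : Prop :=
  ∀ i, ∃ γ : Γ, (∃ k : ℕ, 0 < k ∧ R γ ^ k = 1) ∧ (∀ j, ∀ u ∈ E j, R γ u ∈ E j) ∧
    (SplitsA R χ ω E γ i ∨ SplitsB R χ ω E γ i) ∧
    (¬Du R χ (E i) (E i) → Separates R E γ i)

end defs

variable {K : Type} [Field K] [CharZero K] [IsAlgClosed K] {X : Type} [AddCommGroup X]
  [Module K X] [FiniteDimensional K X] {Γ : Type} [Group Γ] {R : Representation K Γ X}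
  {χ : Γ →* K} {I : Type} {E : I → Submodule K X}

section chains

variable {ω : X →ₗ[K] X →ₗ[K] K} (halt : ∀ v, ω v v = 0)
  (hωR : ∀ g u v, ω (R g u) (R g v) = χ g * ω u v) {γ : Γ} {k : ℕ} (hk : 0 < k)
  (hγ : R γ ^ k = 1) {U : Submodule K X} (hγU : ∀ u ∈ U, R γ u ∈ U)
  (hnd : NonIso ω U → ∀ u ∈ U, (∀ v ∈ U, ω u v = 0) → u = 0)

include halt hωR hk hγ hγU hnd in
theorem sq_zero {Y : End K X} (hY : Y ∈ lieT R χ) (hYU : ∀ u ∈ U, Y u ∈ U) {ν : K}
    (hν : ν ^ k = 1) (hν0 : ν ≠ 0) (h : ChainsDual R χ ω γ U ν) :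
    ∀ u ∈ U, avg R γ k ν Y (avg R γ k ν Y u) = 0 := by
  by_cases hU : NonIso ω U
  · exact sq_zero_of_dual halt hωR hk hγ hγU (hnd hU) hY hYU hν hν0
      fun α h1 h2 h3 => (h α h1 h2 h3).2
  · refine sq_zero_of_noChain hγ hγU (inv_stable hk hγ hγU) hYU hν hν0 hk fun α h1 h2 => ?_
    by_contra h3
    exact hU (h α h1 h2 h3).1

include hωR hk hγ hγU hnd in
theorem chains_inv {ν : K} (hν0 : ν ≠ 0) (h : ChainsDual R χ ω γ U ν) :
    ChainsDual R χ ω γ U ν⁻¹ := by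
  intro α h1 h2 h3
  have h4 := h (α * ν⁻¹ * ν⁻¹) h3
  rw [inv_mul_cancel_right₀ hν0, inv_mul_cancel_right₀ hν0] at h4
  obtain ⟨hU, h5, h6⟩ := h4 h2 h1
  have hα := eig_ne h1
  have h7 : α * ν⁻¹ * ν⁻¹ = χ γ * α⁻¹ := by
    rw [← h6]
    field_simp
  refine ⟨hU, ?_, by rw [mul_comm]; exact h6⟩
  rw [← finrank_dual hωR hk hγ hγU (hnd hU) hα, ← h7]
  exact h5

end chains

section nil

variable {ω : X →ₗ[K] X →ₗ[K] K} (halt : ∀ v, ω v v = 0)
    (hωR : ∀ g u v, ω (R g u) (R g v) = χ g * ω u v)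
    (hndE : ∀ j, NonIso ω (E j) → ∀ u ∈ E j, (∀ v ∈ E j, ω u v = 0) → u = 0)
    (hE : ⨆ j, E j = ⊤)
    (hst : ∀ j, ∀ Y ∈ lieT R χ, ∀ u ∈ E j, Y u ∈ E j) {γ : Γ} {k : ℕ} (hk : 0 < k)
    (hγ : R γ ^ k = 1) (hγE : ∀ j, ∀ u ∈ E j, R γ u ∈ E j) (i : I) (hSI : SI R (E i))
    (hns : ∃ Y ∈ lieT R χ, ¬∃ a : K, ∀ u ∈ E i, Y u = a • u)

include halt hωR hndE hE hst hk hγ hγE in
theorem sq_all {Y : End K X} (hY : Y ∈ lieT R χ) (ν : K) (hν : ν ^ k = 1) (hν0 : ν ≠ 0)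
    (h : ∀ j, ChainsDual R χ ω γ (E j) ν) : avg R γ k ν Y * avg R γ k ν Y = 0 := by
  rw [← LinearMap.ker_eq_top, eq_top_iff, ← hE, iSup_le_iff]
  intro j u hu
  rw [LinearMap.mem_ker, Module.End.mul_apply]
  exact sq_zero halt hωR hk hγ (hγE j) (hndE j) hY (hst j Y hY) hν hν0 (h j) u hu

include halt hωR hndE hE hst hk hγ hγE hSI hns in
theorem nil_A (hiso : SplitsA R χ ω E γ i) :
    ∃ N ∈ lieT R χ, N * N = 0 ∧ finrank K ((E i).map N) = 1 := by
  obtain ⟨A, hA, hB, h1⟩ := hiso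
  have hγE' : ∀ j, ∀ u ∈ E j, R γ⁻¹ u ∈ E j := fun j => inv_stable hk hγ (hγE j)
  have hrk : ∀ α ∈ A, ∀ β ∉ A, eig R γ (E i) α ≠ ⊥ → eig R γ (E i) β ≠ ⊥ → ∀ T : End K X,
      (∀ u ∈ E i, T u ∈ E i) → ∀ B : Set K,
      finrank K ((part R γ (E i) B).map (avg R γ k (β * α⁻¹) T)) ≤ 1 ∧
      finrank K ((part R γ (E i) B).map (avg R γ k (α * β⁻¹) T)) ≤ 1 := by
    intro α hα β hβ hα0 hβ0 T hT B
    obtain ⟨hl, huniq, -⟩ := h1 α hα β hβ hα0 hβ0
    have hα1 := eig_ne hα0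
    have hβ1 := eig_ne hβ0
    have hαk := eig_root hγ hα0
    have hβk := eig_root hγ hβ0
    have e1 : α * (β * α⁻¹) = β := by field_simp
    have e2 : β * (α * β⁻¹) = α := by field_simp
    constructor
    · refine finrank_part hγ (hγE i) (hγE' i) hT (by rw [mul_pow, inv_pow, hαk, hβk, inv_one, mul_one])
        (mul_ne_zero hβ1 (inv_ne_zero hα1)) (a := α) (fun α' _ h2 h3 => huniq α' h2 h3) ?_
      rw [e1]
      rcases hl with h | h
      · exact Or.inl h.le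
      · exact Or.inr h.le
    · refine finrank_part hγ (hγE i) (hγE' i) hT (by rw [mul_pow, inv_pow, hαk, hβk, inv_one, mul_one])
        (mul_ne_zero hα1 (inv_ne_zero hβ1)) (a := β) (fun α' _ h2 h3 => ?_) ?_
      · have h4 := huniq (α' * (α * β⁻¹)) h3 (by
          have e3 : α' * (α * β⁻¹) * (β * α⁻¹) = α' := by field_simp
          rwa [e3])
        have e4 : α' = α' * (α * β⁻¹) * (β * α⁻¹) := by field_simp
        rw [e4, h4, e1]
      · rw [e2]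
        rcases hl with h | h
        · exact Or.inr h.le
        · exact Or.inl h.le
  obtain ⟨α, hα, β, hβ, hα0, hβ0, Y, hY, hor⟩ := split' hSI (lieT R χ)
    (fun g Y hY => lieT_conj R χ g hY) (hst i) hns hk hγ (hγE i) (hγE' i) A hA hB
    (fun α hα β hβ h2 h3 T hT P hP => by
      rcases hP with rfl | rfl
      · exact hrk α hα β hβ h2 h3 T hT A
      · exact hrk α hα β hβ h2 h3 T hT Aᶜ)
  have hα1 := eig_ne hα0
  have hβ1 := eig_ne hβ0
  have hαk := eig_root hγ hα0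
  have hβk := eig_root hγ hβ0
  have hU := part_univ hk hγ (hγE i)
  have hch := fun j => (h1 α hα β hβ hα0 hβ0).2.2 j
  have hone : ∀ ν : K, finrank K ((part R γ (E i) Set.univ).map (avg R γ k ν Y)) ≤ 1 →
      (∃ u ∈ E i, avg R γ k ν Y u ≠ 0) → finrank K ((E i).map (avg R γ k ν Y)) = 1 := by
    intro ν h2 h3
    rw [hU] at h2
    obtain ⟨u, hu, hu0⟩ := h3
    refine le_antisymm h2 ?_
    rw [Nat.one_le_iff_ne_zero, ne_eq, Submodule.finrank_eq_zero]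
    intro h4
    apply hu0
    have h5 : avg R γ k ν Y u ∈ (E i).map (avg R γ k ν Y) := Submodule.mem_map_of_mem hu
    rwa [h4, Submodule.mem_bot] at h5
  have hν : (β * α⁻¹) ^ k = 1 := by rw [mul_pow, inv_pow, hαk, hβk, inv_one, mul_one]
  have hν' : (α * β⁻¹) ^ k = 1 := by rw [mul_pow, inv_pow, hαk, hβk, inv_one, mul_one]
  have hν0 : β * α⁻¹ ≠ 0 := mul_ne_zero hβ1 (inv_ne_zero hα1)
  have hν0' : α * β⁻¹ ≠ 0 := mul_ne_zero hα1 (inv_ne_zero hβ1)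
  rcases hor with hor | hor
  · exact ⟨_, avg_mem γ k _ hY, sq_all halt hωR hndE hE hst hk hγ hγE hY _ hν hν0 hch,
      hone _ (hrk α hα β hβ hα0 hβ0 Y (hst i Y hY) Set.univ).1 hor⟩
  · refine ⟨_, avg_mem γ k _ hY, sq_all halt hωR hndE hE hst hk hγ hγE hY _ hν' hν0' ?_,
      hone _ (hrk α hα β hβ hα0 hβ0 Y (hst i Y hY) Set.univ).2 hor⟩
    intro j
    have h2 := chains_inv hωR hk hγ (hγE j) (hndE j) hν0 (hch j)
    rwa [mul_inv, inv_inv, mul_comm β⁻¹] at h2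

include halt hωR hndE hE hst hk hγ hγE hSI hns in
theorem nil_B (hiso : SplitsB R χ ω E γ i) :
    ∃ N ∈ lieT R χ, N * N = 0 ∧ (E i).map N ≠ ⊥ ∧ finrank K ((E i).map N) ≤ 2 := by
  obtain ⟨hni, A, hA, hB, hdual, h1⟩ := hiso
  have hγE' : ∀ j, ∀ u ∈ E j, R γ⁻¹ u ∈ E j := fun j => inv_stable hk hγ (hγE j)
  have hχ : χ γ ≠ 0 := χne γ
  have hrk : ∀ α ∈ A, ∀ β ∉ A, eig R γ (E i) α ≠ ⊥ → eig R γ (E i) β ≠ ⊥ → ∀ T : End K X,
      (∀ u ∈ E i, T u ∈ E i) →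
      (finrank K ((part R γ (E i) A).map (avg R γ k (β * α⁻¹) T)) ≤ 1 ∧
      finrank K ((part R γ (E i) Aᶜ).map (avg R γ k (β * α⁻¹) T)) ≤ 1) ∧
      (finrank K ((part R γ (E i) A).map (avg R γ k (α * β⁻¹) T)) ≤ 1 ∧
      finrank K ((part R γ (E i) Aᶜ).map (avg R γ k (α * β⁻¹) T)) ≤ 1) := by
    intro α hα β hβ hα0 hβ0 T hT
    obtain ⟨hl, huniq, -⟩ := h1 α hα β hβ hα0 hβ0
    have hα1 := eig_ne hα0
    have hβ1 := eig_ne hβ0
    have hαk := eig_root hγ hα0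
    have hβk := eig_root hγ hβ0
    have hν : (β * α⁻¹) ^ k = 1 := by rw [mul_pow, inv_pow, hαk, hβk, inv_one, mul_one]
    have hν' : (α * β⁻¹) ^ k = 1 := by rw [mul_pow, inv_pow, hαk, hβk, inv_one, mul_one]
    have hν0 : β * α⁻¹ ≠ 0 := mul_ne_zero hβ1 (inv_ne_zero hα1)
    have hν0' : α * β⁻¹ ≠ 0 := mul_ne_zero hα1 (inv_ne_zero hβ1)
    have hdα := finrank_dual hωR hk hγ (hγE i) (hndE i hni) hα1
    have hdβ := finrank_dual hωR hk hγ (hγE i) (hndE i hni) hβ1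
    have hβA : χ γ * β⁻¹ ∉ A := fun h => hβ ((hdual β hβ0).2 h)
    have hαA : χ γ * α⁻¹ ∈ A := (hdual α hα0).1 hα
    have hsol : ∀ x y : K, y ≠ 0 → x * y = χ γ → x = χ γ * y⁻¹ := by
      intro x y hy h
      rw [← h, mul_inv_cancel_right₀ hy]
    have huniq' : ∀ α', eig R γ (E i) α' ≠ ⊥ → eig R γ (E i) (α' * (α * β⁻¹)) ≠ ⊥ →
        α' = β ∨ α' = χ γ * α⁻¹ := by
      intro α' h2 h3
      have e3 : α' * (α * β⁻¹) * (β * α⁻¹) = α' := by field_simp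
      rcases huniq (α' * (α * β⁻¹)) h3 (by rwa [e3]) with h4 | h4
      · left
        rw [← e3, h4]
        field_simp
      · right
        refine hsol _ _ hα1 ?_
        rw [← h4]
        field_simp
    refine ⟨⟨?_, ?_⟩, ?_, ?_⟩
    · refine finrank_part hγ (hγE i) (hγE' i) hT hν hν0 (a := α) (fun α' hα' h2 h3 => ?_) ?_
      · rcases huniq α' h2 h3 with h4 | h4
        · exact h4
        · exact absurd hα' (by rw [hsol _ _ hβ1 h4]; exact hβA)
      · rw [show α * (β * α⁻¹) = β by field_simp]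
        rcases hl with h | h
        · exact Or.inl h.le
        · exact Or.inr h.le
    · refine finrank_part hγ (hγE i) (hγE' i) hT hν hν0 (a := χ γ * β⁻¹) (fun α' hα' h2 h3 => ?_) ?_
      · rcases huniq α' h2 h3 with h4 | h4
        · exact absurd (by rw [h4]; exact hα) hα'
        · exact hsol _ _ hβ1 h4
      · rw [show χ γ * β⁻¹ * (β * α⁻¹) = χ γ * α⁻¹ by field_simp, hdα, hdβ]
        rcases hl with h | h
        · exact Or.inr h.le
        · exact Or.inl h.le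
    · refine finrank_part hγ (hγE i) (hγE' i) hT hν' hν0' (a := χ γ * α⁻¹)
        (fun α' hα' h2 h3 => ?_) ?_
      · rcases huniq' α' h2 h3 with h4 | h4
        · exact absurd hα' (by rw [h4]; exact hβ)
        · exact h4
      · rw [show χ γ * α⁻¹ * (α * β⁻¹) = χ γ * β⁻¹ by field_simp, hdα, hdβ]
        rcases hl with h | h
        · exact Or.inl h.le
        · exact Or.inr h.le
    · refine finrank_part hγ (hγE i) (hγE' i) hT hν' hν0' (a := β) (fun α' hα' h2 h3 => ?_) ?_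
      · rcases huniq' α' h2 h3 with h4 | h4
        · exact h4
        · exact absurd (by rw [h4]; exact hαA) hα'
      · rw [show β * (α * β⁻¹) = α by field_simp]
        rcases hl with h | h
        · exact Or.inr h.le
        · exact Or.inl h.le
  obtain ⟨α, hα, β, hβ, hα0, hβ0, Y, hY, hor⟩ := split' hSI (lieT R χ)
    (fun g Y hY => lieT_conj R χ g hY) (hst i) hns hk hγ (hγE i) (hγE' i) A hA hB
    (fun α hα β hβ h2 h3 T hT P hP => by
      have h4 := hrk α hα β hβ h2 h3 T hT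
      rcases hP with rfl | rfl
      · exact ⟨h4.1.1, h4.2.1⟩
      · exact ⟨h4.1.2, h4.2.2⟩)
  have hα1 := eig_ne hα0
  have hβ1 := eig_ne hβ0
  have hαk := eig_root hγ hα0
  have hβk := eig_root hγ hβ0
  have hν : (β * α⁻¹) ^ k = 1 := by rw [mul_pow, inv_pow, hαk, hβk, inv_one, mul_one]
  have hν' : (α * β⁻¹) ^ k = 1 := by rw [mul_pow, inv_pow, hαk, hβk, inv_one, mul_one]
  have hν0 : β * α⁻¹ ≠ 0 := mul_ne_zero hβ1 (inv_ne_zero hα1)
  have hν0' : α * β⁻¹ ≠ 0 := mul_ne_zero hα1 (inv_ne_zero hβ1)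
  have hch := fun j => (h1 α hα β hβ hα0 hβ0).2.2 j
  have h4 := hrk α hα β hβ hα0 hβ0 Y (hst i Y hY)
  have hne : ∀ ν : K, (∃ u ∈ E i, avg R γ k ν Y u ≠ 0) → (E i).map (avg R γ k ν Y) ≠ ⊥ := by
    rintro ν ⟨u, hu, hu0⟩ h4
    apply hu0
    have h5 : avg R γ k ν Y u ∈ (E i).map (avg R γ k ν Y) := Submodule.mem_map_of_mem hu
    rwa [h4, Submodule.mem_bot] at h5
  have htwo : ∀ ν : K, finrank K ((part R γ (E i) A).map (avg R γ k ν Y)) ≤ 1 →
      finrank K ((part R γ (E i) Aᶜ).map (avg R γ k ν Y)) ≤ 1 →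
      finrank K ((E i).map (avg R γ k ν Y)) ≤ 2 := by
    intro ν h2 h3
    have h5 : (E i).map (avg R γ k ν Y) ≤ (part R γ (E i) A).map (avg R γ k ν Y) ⊔
        (part R γ (E i) Aᶜ).map (avg R γ k ν Y) := by
      rintro _ ⟨u, hu, rfl⟩
      obtain ⟨a, ha, b, hb, rfl⟩ := Submodule.mem_sup.1 (sup_part (A := A) hk hγ (hγE i) hu)
      rw [map_add]
      exact Submodule.add_mem_sup (Submodule.mem_map_of_mem ha) (Submodule.mem_map_of_mem hb)
    have h6 := Submodule.finrank_mono h5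
    have h7 := Submodule.finrank_add_le_finrank_add_finrank
      ((part R γ (E i) A).map (avg R γ k ν Y)) ((part R γ (E i) Aᶜ).map (avg R γ k ν Y))
    omega
  rcases hor with hor | hor
  · exact ⟨_, avg_mem γ k _ hY, sq_all halt hωR hndE hE hst hk hγ hγE hY _ hν hν0 hch,
      hne _ hor, htwo _ h4.1.1 h4.1.2⟩
  · refine ⟨_, avg_mem γ k _ hY, sq_all halt hωR hndE hE hst hk hγ hγE hY _ hν' hν0' ?_,
      hne _ hor, htwo _ h4.2.1 h4.2.2⟩
    intro j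
    have h2 := chains_inv hωR hk hγ (hγE j) (hndE j) hν0 (hch j)
    rwa [mul_inv, inv_inv, mul_comm β⁻¹] at h2

end nil

/-- A nonisotropic strongly irreducible subspace is, with everything isomorphic to it, symplectic. -/
theorem altDual_of (ω : X →ₗ[K] X →ₗ[K] K) (halt : ∀ v, ω v v = 0)
    (hωR : ∀ g u v, ω (R g u) (R g v) = χ g * ω u v) {U U' : Submodule K X} (hU : SI R U)
    (hU' : SI R U') (h : Tw R (fun _ => 1) U U') (hni : NonIso ω U') : AltDual R χ U := by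
  obtain ⟨Δ, hΔ, T, hTU, h0, hT⟩ := h
  have hmap := tw_map hU hU' hΔ hTU h0 hT
  obtain ⟨u, hu, v, hv, huv⟩ := hni
  rw [← hmap] at hu hv
  obtain ⟨u', hu', rfl⟩ := hu
  obtain ⟨v', hv', rfl⟩ := hv
  refine ⟨Δ, hΔ, ω.compl₁₂ T T, ⟨u', hu', v', hv', huv⟩, fun w _ => ?_, fun g hg w hw w' hw' => ?_⟩
  · rw [LinearMap.compl₁₂_apply, halt]
  · rw [LinearMap.compl₁₂_apply, LinearMap.compl₁₂_apply, hT g hg w hw, hT g hg w' hw', one_smul,
      one_smul, hωR]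

/-- The main theorem over an algebraically closed field. -/
theorem det_of_places (ω : X →ₗ[K] X →ₗ[K] K) (halt : ∀ v, ω v v = 0)
    (hnd : ∀ u, (∀ v, ω u v = 0) → u = 0)
    (hωR : ∀ g u v, ω (R g u) (R g v) = χ g * ω u v) (hss : HasProj R)
    (hE : SumOfSI R E) (hpl : HasFinitePlaces R χ ω E) (hF : HasFrobenii R E)
    {m : ℕ} (φ : MultilinearMap K (fun _ : Fin m × Fin 2 => X) K) (hφ : IsTate R χ m φ) :
    φ ∈ Submodule.span K (DetProd R χ m) := by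
  have hst : ∀ j, ∀ Y ∈ lieT R χ, ∀ u ∈ E j, Y u ∈ E j := fun j Y hY =>
    lieT_stable ω hnd hωR hss (hE.1 j).2.1 hY
  have hndE : ∀ j, NonIso ω (E j) → ∀ u ∈ E j, (∀ v ∈ E j, ω u v = 0) → u = 0 := fun j hj =>
    du_left (hE.1 j) (hE.1 j).2.1 (Δ := ⊤) inferInstance hj
      (fun g _ u _ v _ => hωR g u v)
  have hN : ∀ i, ∃ N ∈ lieT R χ, N * N = 0 ∧ (finrank K ((E i).map N) = 1 ∨
      (NonIso ω (E i) ∧ (E i).map N ≠ ⊥ ∧ finrank K ((E i).map N) ≤ 2)) := by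
    intro i
    obtain ⟨γ, ⟨k, hk, hγ⟩, hγE, h1 | h1, -⟩ := hpl i
    · obtain ⟨N, h2, h3, h4⟩ := nil_A halt hωR hndE hE.2 hst hk hγ hγE i (hE.1 i)
        (nonscalar_of_frob hF i) h1
      exact ⟨N, h2, h3, Or.inl h4⟩
    · obtain ⟨N, h2, h3, h4⟩ := nil_B halt hωR hndE hE.2 hst hk hγ hγE i (hE.1 i)
        (nonscalar_of_frob hF i) h1
      exact ⟨N, h2, h3, Or.inr ⟨h1.1, h4⟩⟩
  have h2 : ∀ i, 2 ≤ finrank K (E i) := by
    intro i
    obtain ⟨γ, -, -, ⟨A, ⟨α, hα, hα0⟩, ⟨β, hβ, hβ0⟩, -⟩ | ⟨-, A, ⟨α, hα, hα0⟩, ⟨β, hβ, hβ0⟩, -⟩, -⟩ :=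
      hpl i
    · exact two_le_finrank (α := α) (β := β) (fun h => hβ (by rw [← h]; exact hα)) hα0 hβ0
    · exact two_le_finrank (α := α) (β := β) (fun h => hβ (by rw [← h]; exact hα)) hα0 hβ0
  have hdim : ∀ U, SI R U → 2 ≤ finrank K U := by
    intro U hU
    obtain ⟨i, Δ, hΔ, T, hTU, h0, hT⟩ := exists_iso' hss hE hU
    obtain ⟨e, -⟩ := tw_equiv hU (hE.1 i) hΔ hTU h0 hT
    rw [e.finrank_eq]
    exact h2 i
  refine Pool.Agent.TH118.CU.nil_det ω hnd hωR ?_ hss ?_ ?_ φ hφ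
  · intro U hU _
    obtain ⟨i, hi⟩ := exists_iso' hss hE hU
    obtain ⟨N, hN1, hN2, hN3⟩ := hN i
    have hrk := rank_transfer ω hnd hωR hss hU (hE.1 i) hi hN1
    rcases hN3 with hN3 | ⟨hni, hN3, hN4⟩
    · refine ⟨N, hN1, hN2, Or.inl ?_⟩
      rw [← hrk]
      exact hN3
    · have hne : U.map N ≠ ⊥ := by
        intro h0
        apply hN3
        rw [← Submodule.finrank_eq_zero (R := K), hrk, h0, finrank_bot]
      rw [hrk] at hN4
      exact ⟨N, hN1, hN2, Or.inr ⟨hne, altDual_of ω halt hωR hU (hE.1 i) hi hni,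
        coreProp_nil hU hN1 hN2 hne hN4⟩⟩
  · intro U hU h1
    have h3 := hdim U hU
    omega
  · intro U U' hU hU' _ hnDu ψ hψ
    obtain ⟨i, hi⟩ := exists_iso' hss hE hU
    obtain ⟨j, hj⟩ := exists_iso' hss hE hU'
    have h3 := ((hi.symm1 hU (hE.1 i)).trans hU hψ).trans hU' hj
    have hnDi : ¬Du R χ (E i) (E i) := by
      rintro ⟨Δ₁, hΔ₁, B, ⟨u, hu, v, hv, huv⟩, hB⟩
      apply hnDu
      obtain ⟨Δ, hΔ, T, hTU, h0, hT⟩ := hi
      have hmap := tw_map hU (hE.1 i) hΔ hTU h0 hT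
      rw [← hmap] at hu hv
      obtain ⟨u', hu', rfl⟩ := hu
      obtain ⟨v', hv', rfl⟩ := hv
      refine ⟨Δ ⊓ Δ₁, inferInstance, B.compl₁₂ T T, ⟨u', hu', v', hv', huv⟩,
        fun g hg w hw w' hw' => ?_⟩
      rw [LinearMap.compl₁₂_apply, LinearMap.compl₁₂_apply, hT g hg.1 w hw, hT g hg.1 w' hw',
        one_smul, one_smul, hB g hg.2 _ (hTU w hw) _ (hTU w' hw')]
    have hsep : Tw R (fun _ => 1) (E i) (E j) := by
      by_contra hij
      obtain ⟨γ, ⟨k, hk, hγ⟩, hγE, -, hs⟩ := hpl i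
      obtain ⟨a, ha, h1⟩ := eig_of_tw (hE.1 i) (hE.1 j) (hγE i) (inv_stable hk hγ (hγE j)) h3
      obtain ⟨α, hα⟩ := hs hnDi j hij a ha
      exact hα (h1 α)
    exact (hi.trans1 (hE.1 i) hsep).trans1 (hE.1 j) (hj.symm1 hU' (hE.1 j))

/-- If `ω` is not zero on any `E i` all strongly irreducible subspaces are self-dual. -/
theorem selfDual_of (ω : X →ₗ[K] X →ₗ[K] K) (halt : ∀ v, ω v v = 0)
    (hωR : ∀ g u v, ω (R g u) (R g v) = χ g * ω u v) (hss : HasProj R)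
    (hE : SumOfSI R E) (hni : ∀ i, NonIso ω (E i)) : ∀ U, SI R U → Du R χ U U := by
  intro U hU
  obtain ⟨i, hi⟩ := exists_iso' hss hE hU
  obtain ⟨Δ, hΔ, B, h0, -, hB⟩ := altDual_of ω halt hωR hU (hE.1 i) hi (hni i)
  exact ⟨Δ, hΔ, B, h0, hB⟩

end Pool.Agent.V11219.FinIn
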