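import Mathlib
import Pool.Agent.V11219.FinIn
import Pool.Agent.Y144.MT.Cond

/-!
# Places of different kinds for different strongly irreducible subspaces
-/

set_option linter.unusedSectionVars false

namespace Pool.Agent.V11219.FinIn

open Module Pool.Agent.H204R3.SP Pool.Agent.H204R3.GP Pool.Agent.W522.U Pool.Agent.TH118.WC
open Pool.Agent.TH118.CR Pool.Agent.TH118.CU Pool.Agent.TH118.IS
open Pool.Agent.W529.Ta Pool.Agent.W528.Odd Pool.Agent.Y144.MT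
open Pool.Agent.W528.Tor (AltDual)

section defs

variable {K : Type} [Field K] {X : Type} [AddCommGroup X] [Module K X]
  {Γ : Type} [Group Γ] (R : Representation K Γ X) (χ : Γ →* K) (ω : X →ₗ[K] X →ₗ[K] K)
  {I : Type} (E : I → Submodule K X)

/-- A diagonalizable element with two eigenvectors in `U` such that the quotient of the eigenvalues
is not a root of unity. -/
def Frob (U : Submodule K X) : Prop :=
  ∃ (F : Γ) (b : Basis (Fin (finrank K X)) K X), (∀ k, ∃ a : K, R F (b k) = a • b k) ∧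
    ∃ u ∈ U, ∃ v ∈ U, u ≠ 0 ∧ v ≠ 0 ∧ ∃ s t : K, R F u = s • u ∧ R F v = t • v ∧
      ∀ k : ℕ, 0 < k → s ^ k ≠ t ^ k

/-- A place of potentially good reduction for `E i`. -/
def FinitePlace (i : I) : Prop :=
  Frob R (E i) ∧ ∃ γ : Γ, (∃ k : ℕ, 0 < k ∧ R γ ^ k = 1) ∧ (∀ j, ∀ u ∈ E j, R γ u ∈ E j) ∧
    (SplitsA R χ ω E γ i ∨ SplitsB R χ ω E γ i) ∧
    (¬Du R χ (E i) (E i) → Separates R E γ i)

/-- Places of different kinds. -/
def MixedPlaces : Prop :=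
  ∀ i, (finrank K (E i) = 1 ∧ ¬Du R χ (E i) (E i)) ∨
    (2 ≤ finrank K (E i) ∧ (HasBadPlace R χ (E i) ∨ HasGoodPlaces R χ (E i)) ∧
      (¬Du R χ (E i) (E i) → ∀ (j : I) (ψ : Γ → K), Tw R ψ (E i) (E j) →
        Tw R (fun _ => 1) (E i) (E j))) ∨
    FinitePlace R χ ω E i

end defs

variable {K : Type} [Field K] [CharZero K] [IsAlgClosed K] {X : Type} [AddCommGroup X]
  [Module K X] [FiniteDimensional K X] {Γ : Type} [Group Γ] {R : Representation K Γ X}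
  {χ : Γ →* K} {I : Type} {E : I → Submodule K X}

theorem du_transfer {U U' : Submodule K X} (hU : SI R U) (hU' : SI R U')
    (h : Tw R (fun _ => 1) U U') (hD : Du R χ U' U') : Du R χ U U := by
  obtain ⟨Δ₁, hΔ₁, B, ⟨u, hu, v, hv, huv⟩, hB⟩ := hD
  obtain ⟨Δ, hΔ, T, hTU, h0, hT⟩ := h
  have hmap := tw_map hU hU' hΔ hTU h0 hT
  rw [← hmap] at hu hv
  obtain ⟨u', hu', rfl⟩ := hu
  obtain ⟨v', hv', rfl⟩ := hv
  refine ⟨Δ ⊓ Δ₁, inferInstance, B.compl₁₂ T T, ⟨u', hu', v', hv', huv⟩,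
    fun g hg w hw w' hw' => ?_⟩
  rw [LinearMap.compl₁₂_apply, LinearMap.compl₁₂_apply, hT g hg.1 w hw, hT g hg.1 w' hw',
    one_smul, one_smul, hB g hg.2 _ (hTU w hw) _ (hTU w' hw')]

theorem finrank_eq_of_tw {U U' : Submodule K X} (hU : SI R U) (hU' : SI R U')
    (h : Tw R (fun _ => 1) U U') : finrank K U = finrank K U' := by
  obtain ⟨Δ, hΔ, T, hTU, h0, hT⟩ := h
  obtain ⟨e, -⟩ := tw_equiv hU hU' hΔ hTU h0 hT
  exact e.finrank_eq

/-- The main theorem over an algebraically closed field, places of different kinds. -/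
theorem det_of_mixed (ω : X →ₗ[K] X →ₗ[K] K) (halt : ∀ v, ω v v = 0)
    (hnd : ∀ u, (∀ v, ω u v = 0) → u = 0)
    (hωR : ∀ g u v, ω (R g u) (R g v) = χ g * ω u v) (hss : HasProj R)
    (hE : SumOfSI R E) (hpl : MixedPlaces R χ ω E)
    {m : ℕ} (φ : MultilinearMap K (fun _ : Fin m × Fin 2 => X) K) (hφ : IsTate R χ m φ) :
    φ ∈ Submodule.span K (DetProd R χ m) := by
  have hst : ∀ j, ∀ Y ∈ lieT R χ, ∀ u ∈ E j, Y u ∈ E j := fun j Y hY =>
    lieT_stable ω hnd hωR hss (hE.1 j).2.1 hY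
  have hndE : ∀ j, NonIso ω (E j) → ∀ u ∈ E j, (∀ v ∈ E j, ω u v = 0) → u = 0 := fun j hj =>
    du_left (hE.1 j) (hE.1 j).2.1 (Δ := ⊤) inferInstance hj
      (fun g _ u _ v _ => hωR g u v)
  have hfin2 : ∀ i, FinitePlace R χ ω E i → 2 ≤ finrank K (E i) := by
    rintro i ⟨-, γ, -, -, ⟨A, ⟨α, hα, hα0⟩, ⟨β, hβ, hβ0⟩, -⟩ |
      ⟨-, A, ⟨α, hα, hα0⟩, ⟨β, hβ, hβ0⟩, -⟩, -⟩
    · exact two_le_finrank (α := α) (β := β) (fun h => hβ (by rw [← h]; exact hα)) hα0 hβ0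
    · exact two_le_finrank (α := α) (β := β) (fun h => hβ (by rw [← h]; exact hα)) hα0 hβ0
  have hN : ∀ i, 2 ≤ finrank K (E i) → ∃ N ∈ lieT R χ, N * N = 0 ∧ (finrank K ((E i).map N) = 1 ∨
      (NonIso ω (E i) ∧ (E i).map N ≠ ⊥ ∧ finrank K ((E i).map N) ≤ 2)) := by
    intro i hi2
    rcases hpl i with h | ⟨-, h | h, -⟩ | ⟨hF, γ, ⟨k, hk, hγ⟩, hγE, h1, -⟩
    · omega
    · obtain ⟨N, h2, h3, h4⟩ := one_of_bad ω hnd hωR hss (hE.1 i) h
      exact ⟨N, h2, h3, Or.inl h4⟩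
    · obtain ⟨N, h2, h3, h4⟩ := one_of_good ω hnd hωR hss (hE.1 i) h
      exact ⟨N, h2, h3, Or.inl h4⟩
    · have hns : ∃ Y ∈ lieT R χ, ¬∃ a : K, ∀ u ∈ E i, Y u = a • u :=
        nonscalar_of_frob (E := fun _ : Unit => E i) (fun _ => hF) ()
      rcases h1 with h1 | h1
      · obtain ⟨N, h2, h3, h4⟩ := nil_A halt hωR hndE hE.2 hst hk hγ hγE i (hE.1 i) hns h1
        exact ⟨N, h2, h3, Or.inl h4⟩
      · obtain ⟨N, h2, h3, h4⟩ := nil_B halt hωR hndE hE.2 hst hk hγ hγE i (hE.1 i) hns h1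
        exact ⟨N, h2, h3, Or.inr ⟨h1.1, h4⟩⟩
  refine Pool.Agent.TH118.CU.nil_det ω hnd hωR ?_ hss ?_ ?_ φ hφ
  · intro U hU hU2
    obtain ⟨i, hi⟩ := exists_iso' hss hE hU
    obtain ⟨N, hN1, hN2, hN3⟩ := hN i (by rw [← finrank_eq_of_tw hU (hE.1 i) hi]; exact hU2)
    have hrk := rank_transfer ω hnd hωR hss hU (hE.1 i) hi hN1
    rcases hN3 with hN3 | ⟨hni, hN3, hN4⟩
    · refine ⟨N, hN1, hN2, Or.inl ?_⟩
      rw [← hrk]
      exact hN3
    · have hne : U.map N ≠ ⊥ := by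
        intro h0
        apply hN3
        rw [← Submodule.finrank_eq_zero (R := K), hrk, h0, finrank_bot]
      rw [hrk] at hN4
      exact ⟨N, hN1, hN2, Or.inr ⟨hne, altDual_of ω halt hωR hU (hE.1 i) hi hni,
        coreProp_nil hU hN1 hN2 hne hN4⟩⟩
  · intro U hU h1 hD
    obtain ⟨i, hi⟩ := exists_iso' hss hE hU
    have h2 := finrank_eq_of_tw hU (hE.1 i) hi
    rcases hpl i with h | h | h
    · exact h.2 (du_transfer (hE.1 i) hU (hi.symm1 hU (hE.1 i)) hD)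
    · have h3 := h.1
      omega
    · have h3 := hfin2 i h
      omega
  · intro U U' hU hU' hU2 hnDu ψ hψ
    obtain ⟨i, hi⟩ := exists_iso' hss hE hU
    obtain ⟨j, hj⟩ := exists_iso' hss hE hU'
    have h3 := ((hi.symm1 hU (hE.1 i)).trans hU hψ).trans hU' hj
    have h2 := finrank_eq_of_tw hU (hE.1 i) hi
    have hnDi : ¬Du R χ (E i) (E i) := fun h => hnDu (du_transfer hU (hE.1 i) hi h)
    have hsep : Tw R (fun _ => 1) (E i) (E j) := by
      rcases hpl i with h | h | ⟨-, γ, ⟨k, hk, hγ⟩, hγE, -, hs⟩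
      · omega
      · exact h.2.2 hnDi j _ h3
      · by_contra hij
        obtain ⟨a, ha, h1⟩ := eig_of_tw (hE.1 i) (hE.1 j) (hγE i) (inv_stable hk hγ (hγE j)) h3
        obtain ⟨α, hα⟩ := hs hnDi j hij a ha
        exact hα (h1 α)
    exact (hi.trans1 (hE.1 i) hsep).trans1 (hE.1 j) (hj.symm1 hU' (hE.1 j))

end Pool.Agent.V11219.FinIn
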