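import Pool.Agent.V11219.LocDefs

/-!
# Varieties with local conditions: definitions
-/

open CategoryTheory AlgebraicGeometry

universe u

namespace Pool.Agent.V11219.Cls

open Pool.Agent.TH125.Gal Pool.Agent.V11219.Loc

open Pool.Agent.H914 Pool.Agent.H914.VarClass Pool.Agent.H914.VarClass.Obj
  Pool.Agent.H914.WeilCohomology Pool.Agent.H281R3.HT

variable {k : Type u} [Field k] {𝒱 : VarClass k} {ops : CycleOps 𝒱}
  {W : WeilCohomology.{u, 0} ops} {Γ : Type} [Group Γ] {ι : Type}

/-- The group `Γ` acts on the cohomology of the odd-dimensional varieties `X i` like a Galois group;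
numerical and homological equivalence coincide for them; their transcendental cohomology is in the
middle degree and irreducible under all subgroups of finite index; and for every `i` there is an
element as in `LocalCondition`. -/
structure LocalVars (χ : Γ →* W.Kˣ) (X : ι → GVar W Γ) (Z : GVar W Γ) : Prop where
  odd : ∀ i, Odd (X i).X.dim
  galois : ∀ i, IsGaloisVar χ (X i)
  homEqNum : ∀ i, HomEqNum W (X i).X
  middle : ∀ i, transcendental W (X i).X ≤ W.gr (X i).X (X i).X.dim
  irreducible : ∀ i, IrredAct (X i).act (transcendental W (X i).X)
  cond : ∀ i, LocalCondition χ (transcendental W (X i).X) (X i).act (trivialOn X Z i)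
    (eigenvaluesIn X Z i)

end Pool.Agent.V11219.Cls
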