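import Pool.Agent.TH125.Gal.Pub

/-!
# Systems of classes (Hodge classes, absolute Hodge classes, motivated classes) and Tate classes
-/

open CategoryTheory AlgebraicGeometry

universe u

namespace Pool.Agent.V11219.Cls

open Pool.Agent.TH125.Gal

section Alg

variable {K A B Γ : Type} [Field K] [Ring A] [Algebra K A] [Ring B] [Algebra K B] [Group Γ]

/-- The element `c` is multiplied by `χ g ^ j` by all `g` in a subgroup of finite index. -/
def PotSemi (χ : Γ →* Kˣ) (ρ : Γ →* (A ≃ₐ[K] A)) (j : ℕ) (c : A) : Prop :=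
  ∃ Δ : Subgroup Γ, Δ.FiniteIndex ∧ ∀ g ∈ Δ, ρ g c = (χ g : K) ^ j • c

/-- For all `j`, every element of `gr (2 * j)` which is multiplied by `χ g ^ j` by all `g` in a
subgroup of finite index belongs to `U`. -/
def TateInAct (χ : Γ →* Kˣ) (gr : ℕ → Submodule K A) (U : Submodule K A)
    (ρ : Γ →* (A ≃ₐ[K] A)) : Prop :=
  ∀ j, ∀ c ∈ gr (2 * j), PotSemi χ ρ j c → c ∈ U

/-- Products of elements of `U` belong to `U`. -/
def MulStable (U : Submodule K A) : Prop := ∀ a ∈ U, ∀ b ∈ U, a * b ∈ U

/-- `f` maps `U` into `V`. -/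
def MapsInto (f : A →ₗ[K] B) (U : Submodule K A) (V : Submodule K B) : Prop :=
  ∀ a ∈ U, f a ∈ V

end Alg

open Pool.Agent.H914 Pool.Agent.H914.VarClass Pool.Agent.H914.VarClass.Obj
  Pool.Agent.H914.WeilCohomology Pool.Agent.H281R3.HT

variable {k : Type u} [Field k] {𝒱 : VarClass k} {ops : CycleOps 𝒱}

/-- Families of spaces of cohomology classes. -/
abbrev Classes (W : WeilCohomology.{u, 0} ops) : Type _ := ∀ A : 𝒱.Obj, Submodule W.K (W.H A)

/-- The spaces `C A` contain the classes of algebraic cycles and are stable under products,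
pull-backs and push-forwards. -/
structure ClassSystem (W : WeilCohomology.{u, 0} ops) (C : Classes W) : Prop where
  alg : ∀ A, algSpan W A ≤ C A
  mul : ∀ A, MulStable (C A)
  map : ∀ (A B : 𝒱.Obj) (f : A ⟶ B), MapsInto (W.map f).toLinearMap (C B) (C A)
  push : ∀ (A B : 𝒱.Obj) (f : A ⟶ B), MapsInto (W.push f) (C A) (C B)

variable {W : WeilCohomology.{u, 0} ops} {Γ : Type} [Group Γ] {ι : Type}

/-- For all `j`, every class in `H^(2j)(A)` which is multiplied by `χ g ^ j` by all `g` in a subgroup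
of finite index belongs to `C A`. -/
def TateIn (χ : Γ →* W.Kˣ) (C : Classes W) (A : GVar W Γ) : Prop :=
  TateInAct χ (W.gr A.X) (C A.X) A.act

/-- The varieties `Y = X_1^(n_1) × (X_2^(n_2) × ( ⋯ × Z))`, where the `X_i` are pairwise different
members of the family `X` (`S` is the set of the indices which are used). -/
inductive Tower (X : ι → GVar W Γ) (Z : GVar W Γ) : Set ι → GVar W Γ → Prop
  | base : Tower X Z ∅ Z
  | step {S Y Y'} (i : ι) (n : ℕ) : Tower X Z S Y → i ∉ S → IsPowProd (X i) n Y Y' →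
      Tower X Z (insert i S) Y'

end Pool.Agent.V11219.Cls
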