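import Mathlib
import Pool.Agent.H204R3.SP.Full

/-!
# The symplectic Lie algebra: ideals, and isomorphisms of graphs
-/

set_option linter.unusedSectionVars false

namespace Pool.Agent.V11219.Gk

open Module Pool.Agent.H204R3.SP

section sp

variable {K V : Type} [Field K] [CharZero K] [AddCommGroup V] [Module K V]
  {B : V →ₗ[K] V →ₗ[K] K}

/-- Skew operators. -/
def Sk (B : V →ₗ[K] V →ₗ[K] K) (X : End K V) : Prop := ∀ x y, B (X x) y + B x (X y) = 0

theorem swap (halt : ∀ v, B v v = 0) (x y : V) : B x y = - B y x := by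
  have h1 := halt (x + y)
  rw [map_add, map_add, LinearMap.add_apply, LinearMap.add_apply, halt, halt, zero_add,
    add_zero] at h1
  exact eq_neg_of_add_eq_zero_right h1

theorem exists_one (halt : ∀ v, B v v = 0) (hnd : ∀ u, (∀ v, B u v = 0) → u = 0) {u : V}
    (hu : u ≠ 0) : ∃ a, B a u = 1 := by
  have h1 : ∃ v, B u v ≠ 0 := by
    by_contra hcon
    push Not at hcon
    exact hu (hnd u hcon)
  obtain ⟨v, hv⟩ := h1
  refine ⟨(-(B u v)⁻¹) • v, ?_⟩
  rw [map_smul, LinearMap.smul_apply, swap halt v u, smul_eq_mul, neg_mul_neg,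
    inv_mul_cancel₀ hv]

theorem SS_add_left (a a' b : V) : SS B (a + a') b = SS B a b + SS B a' b := by
  ext x
  simp only [SS_apply, LinearMap.add_apply, map_add, add_smul, smul_add]
  abel

theorem SS_smul_left (c : K) (a b : V) : SS B (c • a) b = c • SS B a b := by
  ext x
  simp only [SS_apply, LinearMap.smul_apply, map_smul, smul_add, smul_eq_mul, mul_smul]
  rw [smul_comm (B b x) c]

theorem SS_add_right (a b b' : V) : SS B a (b + b') = SS B a b + SS B a b' := by
  rw [SS_comm, SS_add_left, SS_comm B b, SS_comm B b']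

theorem SS_smul_right (c : K) (a b : V) : SS B a (c • b) = c • SS B a b := by
  rw [SS_comm, SS_smul_left, SS_comm B b]

theorem SS_sub_left (a a' b : V) : SS B (a - a') b = SS B a b - SS B a' b := by
  rw [sub_eq_add_neg, SS_add_left, sub_eq_add_neg, ← neg_one_smul K a', SS_smul_left,
    neg_one_smul]

theorem SS_zero_left (b : V) : SS B 0 b = 0 := by
  have h := SS_smul_left (B := B) 0 (0 : V) b
  rwa [zero_smul, zero_smul] at h

theorem SS_sk (halt : ∀ v, B v v = 0) (a b : V) : Sk B (SS B a b) := by
  intro x y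
  rw [SS_apply, SS_apply]
  simp only [map_add, map_smul, LinearMap.add_apply, LinearMap.smul_apply, smul_eq_mul]
  rw [swap halt x b, swap halt x a]
  ring

theorem br_SS {X : End K V} (hX : Sk B X) (a b : V) :
    X * SS B a b - SS B a b * X = SS B (X a) b + SS B a (X b) := by
  ext x
  simp only [LinearMap.sub_apply, LinearMap.add_apply, Module.End.mul_apply, SS_apply, map_add,
    map_smul]
  rw [eq_neg_of_add_eq_zero_left (hX a x), eq_neg_of_add_eq_zero_left (hX b x)]
  module

theorem SS_inj (halt : ∀ v, B v v = 0) (hnd : ∀ u, (∀ v, B u v = 0) → u = 0) {a v : V}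
    (hv : v ≠ 0) (h : SS B a v = 0) : a = 0 := by
  obtain ⟨x, hx⟩ := exists_one halt hnd hv
  have hx' : B v x = -1 := by rw [swap halt, hx]
  have h1 := congrArg (fun f : End K V => f x) h
  simp only [SS_apply, LinearMap.zero_apply, hx'] at h1
  have h2 : a = B a x • v := by
    rw [neg_smul, one_smul, add_neg_eq_zero] at h1
    exact h1.symm
  rw [h2, SS_smul_left] at h
  have h3 := congrArg (fun f : End K V => f x) h
  simp only [SS_apply, LinearMap.zero_apply, LinearMap.smul_apply, hx'] at h3
  have h4 : (-2 * B a x) • v = 0 := by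
    rw [← h3]
    module
  rcases smul_eq_zero.1 h4 with h5 | h5
  · rw [h2, (mul_eq_zero.1 h5).resolve_left (by norm_num), zero_smul]
  · exact absurd h5 hv

/-- An operator which maps `v` to `w`. -/
noncomputable def mv (B : V →ₗ[K] V →ₗ[K] K) (a w v : V) : End K V :=
  SS B a w - (2⁻¹ * B w v) • SS B a a

theorem mv_apply {a v : V} (ha : B a v = 1) (w : V) : mv B a w v v = w := by
  rw [mv, LinearMap.sub_apply, LinearMap.smul_apply, SS_apply, SS_apply, ha]
  have h2 : (2 : K) ≠ 0 := two_ne_zero
  have h3 : (2⁻¹ * B w v) • ((1 : K) • a + (1 : K) • a) = B w v • a := by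
    rw [one_smul, ← two_smul K a, smul_smul]
    congr 1
    field_simp
  rw [h3, one_smul]
  abel

theorem mv_mem {L : Submodule K (End K V)} (h : ∀ a b, SS B a b ∈ L) (a w v : V) :
    mv B a w v ∈ L := L.sub_mem (h _ _) (L.smul_mem _ (h _ _))

theorem mv_sk (halt : ∀ v, B v v = 0) (a w v : V) : Sk B (mv B a w v) := by
  intro x y
  have h1 := SS_sk halt a w x y
  have h2 := SS_sk halt a a x y
  rw [mv]
  simp only [LinearMap.sub_apply, LinearMap.smul_apply, map_sub, map_smul, smul_eq_mul]
  linear_combination h1 - (2⁻¹ * B w v) * h2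

/-- A sandwich. -/
theorem SS_sand (a x : V) (A : End K V) :
    SS B a a (A (SS B a a x)) = (2 * B a (A a)) • SS B a a x := by
  simp only [SS_apply, map_add, map_smul, smul_add, smul_smul]
  module

theorem SS_sand' (a : V) (A : End K V) :
    SS B a a * A * SS B a a = (2 * B a (A a)) • SS B a a := by
  ext x
  exact SS_sand a x A

theorem SS_sq (halt : ∀ v, B v v = 0) (a : V) : SS B a a * SS B a a = 0 := by
  ext x
  rw [Module.End.mul_apply, SS_apply, SS_apply, map_add, map_smul, halt]
  simp

/-- Conjugating a square. -/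
theorem sand_SS {n : End K V} (hn : Sk B n) (v : V) : n * SS B v v * n = - SS B (n v) (n v) := by
  ext x
  simp only [Module.End.mul_apply, SS_apply, LinearMap.neg_apply, map_add, map_smul]
  rw [eq_neg_of_add_eq_zero_left (hn v x)]
  module

/-- **Ideals.** -/
theorem ideal_full (halt : ∀ v, B v v = 0) (hnd : ∀ u, (∀ v, B u v = 0) → u = 0)
    {L : Submodule K (End K V)} (hsk : ∀ A ∈ L, Sk B A)
    (hbr : ∀ u v, ∀ A ∈ L, SS B u v * A - A * SS B u v ∈ L) {A : End K V} (hA : A ∈ L)
    (hA0 : A ≠ 0) (u v : V) : SS B u v ∈ L := by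
  have hv : ∃ v, B v (A v) ≠ 0 := by
    by_contra hcon
    push Not at hcon
    apply hA0
    ext w
    refine hnd _ fun v => ?_
    have h1 := hcon (v + w)
    rw [map_add, map_add, map_add, LinearMap.add_apply, LinearMap.add_apply, hcon, hcon,
      zero_add, add_zero] at h1
    have h2 := hsk A hA w v
    have h3 : B v (A w) = - B (A w) v := swap halt _ _
    rw [h3] at h1
    have h4 : (2 : K) * B (A w) v = 0 := by linear_combination h2 - h1
    exact (mul_eq_zero.1 h4).resolve_left two_ne_zero
  obtain ⟨v0, hv0⟩ := hv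
  have hv00 : v0 ≠ 0 := by
    rintro rfl
    rw [map_zero, LinearMap.zero_apply] at hv0
    exact hv0 rfl
  have h0 : SS B v0 v0 ∈ L := by
    have h1 := hbr v0 v0 _ (hbr v0 v0 A hA)
    have h2 : SS B v0 v0 * (SS B v0 v0 * A - A * SS B v0 v0) -
        (SS B v0 v0 * A - A * SS B v0 v0) * SS B v0 v0 = (-4 * B v0 (A v0)) • SS B v0 v0 := by
      have h3 : SS B v0 v0 * (SS B v0 v0 * A - A * SS B v0 v0) -
          (SS B v0 v0 * A - A * SS B v0 v0) * SS B v0 v0 =
          (SS B v0 v0 * SS B v0 v0) * A + A * (SS B v0 v0 * SS B v0 v0) -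
            (2 : K) • (SS B v0 v0 * A * SS B v0 v0) := by
        rw [two_smul]
        noncomm_ring
      rw [h3, SS_sq halt, SS_sand', zero_mul, mul_zero, smul_smul]
      module
    rw [h2] at h1
    exact (Submodule.smul_mem_iff _ (mul_ne_zero (by norm_num) hv0)).1 h1
  obtain ⟨a, ha⟩ := exists_one halt hnd hv00
  have hmv : ∀ w, ∀ A ∈ L, mv B a w v0 * A - A * mv B a w v0 ∈ L := by
    intro w A hA
    have h1 : mv B a w v0 * A - A * mv B a w v0 = (SS B a w * A - A * SS B a w) -
        (2⁻¹ * B w v0) • (SS B a a * A - A * SS B a a) := by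
      rw [mv, sub_mul, mul_sub, smul_mul_assoc, mul_smul_comm, smul_sub]
      abel
    rw [h1]
    exact L.sub_mem (hbr _ _ _ hA) (L.smul_mem _ (hbr _ _ _ hA))
  have h1 : ∀ w, SS B w v0 ∈ L := by
    intro w
    have h2 := hmv w _ h0
    rw [br_SS (mv_sk halt a w v0), mv_apply ha, SS_comm B v0 w, ← two_smul K] at h2
    exact (Submodule.smul_mem_iff _ two_ne_zero).1 h2
  have h2 := hmv v _ (h1 u)
  rw [br_SS (mv_sk halt a v v0), mv_apply ha] at h2
  exact (Submodule.add_mem_iff_right _ (h1 _)).1 h2

/-- Skew operators are combinations of the `SS a b`. -/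
theorem sk_mem [FiniteDimensional K V] (halt : ∀ v, B v v = 0)
    (hnd : ∀ u, (∀ v, B u v = 0) → u = 0) {L : Submodule K (End K V)}
    (hL : ∀ a b, SS B a b ∈ L) {X : End K V} (hX : Sk B X) : X ∈ L := by
  classical
  have hnd' : LinearMap.BilinForm.Nondegenerate B := by
    refine ⟨fun x hx => hnd x hx, fun x hx => hnd x fun y => ?_⟩
    rw [swap halt, show B y x = 0 from hx y, neg_zero]
  set e := Module.finBasis K V with he
  set f := LinearMap.BilinForm.dualBasis B hnd' e with hf
  have h1 : ∀ k l, B (f k) (e l) = if l = k then 1 else 0 := fun k l =>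
    LinearMap.BilinForm.apply_dualBasis_left (B := B) hnd' e k l
  have h2 : ∀ x, ∑ k, B (f k) x • e k = x := by
    intro x
    have h3 : ∀ k, B (f k) x = e.repr x k := by
      intro k
      conv_lhs => rw [← e.sum_repr x]
      rw [map_sum, Finset.sum_eq_single k]
      · rw [map_smul, h1, if_pos rfl, smul_eq_mul, mul_one]
      · intro l _ hl
        rw [map_smul, h1, if_neg hl, smul_zero]
      · intro h
        exact absurd (Finset.mem_univ _) h
    rw [Finset.sum_congr rfl fun k _ => by rw [h3 k]]
    exact e.sum_repr x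
  have h3 : ∀ y, ∑ k, B (e k) y • f k = - y := by
    intro y
    refine sub_eq_zero.1 (hnd _ fun x => ?_)
    have h4 : B y x = ∑ k, B (f k) x * B y (e k) := by
      conv_lhs => rw [← h2 x]
      rw [map_sum]
      exact Finset.sum_congr rfl fun k _ => by rw [map_smul, smul_eq_mul]
    rw [map_sub, LinearMap.sub_apply, map_neg, LinearMap.neg_apply, h4, map_sum,
      LinearMap.sum_apply, sub_neg_eq_add, ← Finset.sum_add_distrib]
    refine Finset.sum_eq_zero fun k _ => ?_
    rw [map_smul, LinearMap.smul_apply, smul_eq_mul, swap halt y (e k)]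
    ring
  have h4 : (2 : K) • X = ∑ k, SS B (f k) (X (e k)) := by
    ext x
    rw [LinearMap.smul_apply, LinearMap.sum_apply, Finset.sum_congr rfl fun k _ => SS_apply B _ _ _,
      Finset.sum_add_distrib]
    have h5 : ∑ k, B (f k) x • X (e k) = X x := by
      conv_rhs => rw [← h2 x]
      rw [map_sum]
      exact Finset.sum_congr rfl fun k _ => (map_smul _ _ _).symm
    have h6 : ∑ k, B (X (e k)) x • f k = X x := by
      have h7 : ∀ k, B (X (e k)) x • f k = - (B (e k) (X x) • f k) := by
        intro k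
        rw [eq_neg_of_add_eq_zero_left (hX (e k) x), neg_smul]
      rw [Finset.sum_congr rfl fun k _ => h7 k, Finset.sum_neg_distrib, h3, neg_neg]
    rw [h5, h6, two_smul]
  refine (Submodule.smul_mem_iff _ (two_ne_zero (α := K))).1 ?_
  rw [h4]
  exact Submodule.sum_mem _ fun k _ => hL _ _

/-- Operators commuting with all `SS a b` are scalars. -/
theorem comm_scalar [FiniteDimensional K V] [IsAlgClosed K] [Nontrivial V]
    (halt : ∀ v, B v v = 0)
    (hnd : ∀ u, (∀ v, B u v = 0) → u = 0) {Q : End K V}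
    (hQ : ∀ a, Q * SS B a a = SS B a a * Q) : ∃ c : K, ∀ x, Q x = c • x := by
  obtain ⟨c, hc⟩ := Module.End.exists_eigenvalue Q
  obtain ⟨x, hx⟩ := hc.exists_hasEigenvector
  refine ⟨c, ?_⟩
  have h1 : ∀ a, B a x ≠ 0 → Q a = c • a := by
    intro a ha
    have h2 := congrArg (fun f : End K V => f x) (hQ a)
    simp only [Module.End.mul_apply, SS_apply, hx.apply_eq_smul, map_add, map_smul] at h2
    have h3 : (2 * B a x) • (Q a - c • a) = 0 := by
      have h4 : (2 * B a x) • (Q a - c • a) = (B a x • Q a + B a x • Q a) -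
        ((c • B a x) • a + (c • B a x) • a) := by
        rw [smul_eq_mul]
        module
      rw [h4, h2, smul_eq_mul]
      module
    exact sub_eq_zero.1 ((smul_eq_zero.1 h3).resolve_left (mul_ne_zero two_ne_zero ha))
  obtain ⟨a, ha⟩ := exists_one halt hnd hx.2
  intro y
  by_cases hy : B y x = 0
  · have h2 := h1 (y + a) (by rw [map_add, LinearMap.add_apply, hy, ha, zero_add]
                              exact one_ne_zero)
    have h3 := h1 a (by rw [ha]; exact one_ne_zero)
    rw [map_add, h3, smul_add] at h2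
    exact add_right_cancel h2
  · exact h1 y hy

end sp

end Pool.Agent.V11219.Gk
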