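import Mathlib
import Pool.Agent.V11219.GkSp

/-!
# Graphs of isomorphisms of symplectic Lie algebras
-/

set_option linter.unusedSectionVars false

namespace Pool.Agent.V11219.Gk

open Module Pool.Agent.H204R3.SP

variable {K V U : Type} [Field K] [CharZero K] [AddCommGroup V] [Module K V]
  [AddCommGroup U] [Module K U] {B : V →ₗ[K] V →ₗ[K] K} {C : U →ₗ[K] U →ₗ[K] K}
  {L : Submodule K (End K V × End K U)}

/-- A Lie algebra of pairs of skew operators which is the graph of a bijection. -/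
structure Graph (B : V →ₗ[K] V →ₗ[K] K) (C : U →ₗ[K] U →ₗ[K] K)
    (L : Submodule K (End K V × End K U)) : Prop where
  alt1 : ∀ v, B v v = 0
  nd1 : ∀ u, (∀ v, B u v = 0) → u = 0
  alt2 : ∀ v, C v v = 0
  nd2 : ∀ u, (∀ v, C u v = 0) → u = 0
  br : ∀ X ∈ L, ∀ Y ∈ L, X * Y - Y * X ∈ L
  sk1 : ∀ X ∈ L, Sk B X.1
  sk2 : ∀ X ∈ L, Sk C X.2
  g12 : ∀ X ∈ L, X.1 = 0 → X.2 = 0
  g21 : ∀ X ∈ L, X.2 = 0 → X.1 = 0
  full1 : ∀ a b, ∃ X ∈ L, X.1 = SS B a b
  full2 : ∀ a b, ∃ X ∈ L, X.2 = SS C a b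

/-- Elements killed by the weights. -/
theorem weight_zero (halt : ∀ v, B v v = 0) {a v0 : V} (ha : B v0 a = 1) {Z : End K V}
    (hZ : Sk B Z) (hZ0 : Z v0 = 0) {m : ℕ} (hm : m ≠ 0)
    (h : SS B a v0 * Z - Z * SS B a v0 = (m : K) • Z) : Z = 0 := by
  have ha' : B a v0 = -1 := by rw [swap halt, ha]
  have hm0 : (m : K) ≠ 0 := Nat.cast_ne_zero.2 hm
  have h1 : ∀ y, SS B a v0 (Z y) - Z (SS B a v0 y) = (m : K) • Z y := fun y =>
    congrArg (fun f : End K V => f y) h
  have h2 : ∀ y, B v0 (Z y) = 0 := by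
    intro y
    have h3 := hZ v0 y
    rw [hZ0, map_zero, LinearMap.zero_apply, zero_add] at h3
    exact h3
  have hZa : Z a = 0 := by
    have h3 := h1 a
    rw [SS_apply, SS_apply, h2, zero_smul, add_zero, halt, zero_smul, zero_add, ha, one_smul] at h3
    have h4 : Z a = (((m : K) + 1)⁻¹ * B a (Z a)) • v0 := by
      have h5 : ((m : K) + 1) • Z a = B a (Z a) • v0 := by
        rw [add_smul, one_smul, ← h3]
        abel
      rw [mul_smul, ← h5, smul_smul, inv_mul_cancel₀ (by exact_mod_cast Nat.succ_ne_zero m),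
        one_smul]
    have h5 : B a (Z a) = -(((m : K) + 1)⁻¹ * B a (Z a)) := by
      conv_lhs => rw [h4]
      rw [map_smul, ha', smul_eq_mul]
      ring
    have h6 : ((m : K) + 2) * B a (Z a) = 0 := by
      have h7 : ((m : K) + 1) ≠ 0 := by exact_mod_cast Nat.succ_ne_zero m
      field_simp at h5
      linear_combination h5
    have h7 : B a (Z a) = 0 :=
      (mul_eq_zero.1 h6).resolve_left (by exact_mod_cast Nat.succ_ne_zero (m + 1))
    rw [h4, h7, mul_zero, zero_smul]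
  have h3 : ∀ y, B a (Z y) = 0 := by
    intro y
    have h4 := hZ a y
    rw [hZa, map_zero, LinearMap.zero_apply, zero_add] at h4
    exact h4
  ext x
  set y := x - B v0 x • a + B a x • v0 with hy
  have h4 : SS B a v0 y = 0 := by
    rw [hy, map_add, map_sub, map_smul, map_smul, SS_apply, SS_apply, SS_apply, halt, halt, ha,
      ha']
    module
  have h5 : Z y = Z x := by
    rw [hy, map_add, map_sub, map_smul, map_smul, hZa, hZ0, smul_zero, smul_zero, sub_zero,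
      add_zero]
  have h6 := h1 y
  rw [h4, SS_apply, h2, h3, zero_smul, zero_smul, add_zero, map_zero, sub_zero] at h6
  rw [← h5, LinearMap.zero_apply]
  exact (smul_eq_zero.1 h6.symm).resolve_left hm0

theorem Graph.ext1 (h : Graph B C L) {X Y : End K V × End K U} (hX : X ∈ L) (hY : Y ∈ L)
    (h1 : X.1 = Y.1) : X.2 = Y.2 := by
  refine sub_eq_zero.1 (h.g12 _ (L.sub_mem hX hY) ?_)
  rw [Prod.fst_sub, h1, sub_self]

/-- **The isomorphism.** -/
theorem Graph.exists_iso [FiniteDimensional K V] (h : Graph B C L) {v0 : V} {w0 : U}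
    (hv0 : v0 ≠ 0) (hw0 : w0 ≠ 0) (hE : (SS B v0 v0, SS C w0 w0) ∈ L) :
    ∃ T : V ≃ₗ[K] U, ∀ X ∈ L, ∀ x, T (X.1 x) = X.2 (T x) := by
  classical
  have h2 : (2 : K) ≠ 0 := two_ne_zero
  set E : End K V × End K U := (SS B v0 v0, SS C w0 w0) with hEdef
  obtain ⟨a0, ha0⟩ := exists_one h.alt1 h.nd1 hv0
  obtain ⟨c0, hc0⟩ := exists_one h.alt2 h.nd2 hw0
  have hskB : ∀ X, Sk B X → ∃ Y ∈ L, Y.1 = X := by
    intro X hX
    have h3 : X ∈ L.map (LinearMap.fst K (End K V) (End K U)) :=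
      sk_mem h.alt1 h.nd1 (fun a b => by
        obtain ⟨Y, hY, hY1⟩ := h.full1 a b
        exact ⟨Y, hY, hY1⟩) hX
    obtain ⟨Y, hY, hY1⟩ := h3
    exact ⟨Y, hY, hY1⟩
  -- brackets with E
  have hbE : ∀ X ∈ L, X * E - E * X = ((2 : K) • SS B (X.1 v0) v0, (2 : K) • SS C (X.2 w0) w0) := by
    intro X hX
    refine Prod.ext ?_ ?_
    · change X.1 * SS B v0 v0 - SS B v0 v0 * X.1 = (2 : K) • SS B (X.1 v0) v0
      rw [br_SS (h.sk1 X hX), SS_comm B v0, two_smul]
    · change X.2 * SS C w0 w0 - SS C w0 w0 * X.2 = (2 : K) • SS C (X.2 w0) w0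
      rw [br_SS (h.sk2 X hX), SS_comm C w0, two_smul]
  have hpair : ∀ X ∈ L, (SS B (X.1 v0) v0, SS C (X.2 w0) w0) ∈ L := by
    intro X hX
    have h3 := h.br X hX E hE
    rw [hbE X hX, ← Prod.smul_mk] at h3
    exact (Submodule.smul_mem_iff _ h2).1 h3
  have hker12 : ∀ X ∈ L, X.1 v0 = 0 → X.2 w0 = 0 := by
    intro X hX h3
    have h4 := hpair X hX
    rw [h3, SS_zero_left] at h4
    exact SS_inj h.alt2 h.nd2 hw0 (h.g12 _ h4 rfl)
  have hker21 : ∀ X ∈ L, X.2 w0 = 0 → X.1 v0 = 0 := by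
    intro X hX h3
    have h4 := hpair X hX
    rw [h3, SS_zero_left] at h4
    exact SS_inj h.alt1 h.nd1 hv0 (h.g21 _ h4 rfl)
  -- the map
  let ev1 : L →ₗ[K] V := LinearMap.applyₗ v0 ∘ₗ LinearMap.fst K _ _ ∘ₗ L.subtype
  let ev2 : L →ₗ[K] U := LinearMap.applyₗ w0 ∘ₗ LinearMap.snd K _ _ ∘ₗ L.subtype
  have hs1 : LinearMap.range ev1 = ⊤ := by
    rw [LinearMap.range_eq_top]
    intro w
    obtain ⟨X, hX, hX1⟩ := hskB _ (mv_sk h.alt1 a0 w v0)
    refine ⟨⟨X, hX⟩, ?_⟩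
    change X.1 v0 = w
    rw [hX1, mv_apply ha0]
  have hs2 : ∀ w : U, ∃ X ∈ L, X.2 w0 = w := by
    intro w
    have h3 : mv C c0 w w0 ∈ L.map (LinearMap.snd K (End K V) (End K U)) :=
      mv_mem (fun a b => by
        obtain ⟨Y, hY, hY1⟩ := h.full2 a b
        exact ⟨Y, hY, hY1⟩) _ _ _
    obtain ⟨Y, hY, hY1⟩ := h3
    refine ⟨Y, hY, ?_⟩
    change (LinearMap.snd K (End K V) (End K U) Y) w0 = w
    rw [hY1, mv_apply hc0]
  obtain ⟨s, hs⟩ := ev1.exists_rightInverse_of_surjective hs1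
  have hs' : ∀ a, ev1 (s a) = a := fun a => congrArg (fun f : V →ₗ[K] V => f a) hs
  set T0 : V →ₗ[K] U := ev2 ∘ₗ s with hT0
  have hT : ∀ X ∈ L, T0 (X.1 v0) = X.2 w0 := by
    intro X hX
    have h3 := hker12 (s (X.1 v0) - X) (L.sub_mem (s (X.1 v0)).2 hX) (by
      change ((s (X.1 v0) : End K V × End K U).1 - X.1) v0 = 0
      rw [LinearMap.sub_apply]
      exact sub_eq_zero.2 (hs' _))
    have h4 : ((s (X.1 v0) : End K V × End K U).2 - X.2) w0 = 0 := h3
    rw [LinearMap.sub_apply] at h4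
    exact sub_eq_zero.1 h4
  have hinj : Function.Injective T0 := by
    rw [← LinearMap.ker_eq_bot, LinearMap.ker_eq_bot']
    intro a ha
    have h3 := hker21 _ (s a).2 ha
    exact (hs' a).symm.trans h3
  have hsur : Function.Surjective T0 := by
    intro w
    obtain ⟨X, hX, hXw⟩ := hs2 w
    exact ⟨X.1 v0, by rw [hT X hX, hXw]⟩
  -- T v0 = w0
  have hTv : T0 v0 = w0 := by
    obtain ⟨X, hX, hX1⟩ := hskB _ (mv_sk h.alt1 a0 v0 v0)
    have h3 : X.1 v0 = v0 := by rw [hX1, mv_apply ha0]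
    have h4 := hpair X hX
    rw [h3] at h4
    have h5 := h.ext1 h4 hE rfl
    have h6 : SS C (X.2 w0 - w0) w0 = 0 := by
      rw [SS_sub_left, sub_eq_zero]
      exact h5
    have h7 := sub_eq_zero.1 (SS_inj h.alt2 h.nd2 hw0 h6)
    rw [← h7, ← hT X hX, h3]
  have hA : ∀ a, (SS B a v0, SS C (T0 a) w0) ∈ L := by
    intro a
    obtain ⟨X, hX, hX1⟩ := hskB _ (mv_sk h.alt1 a0 a v0)
    have h3 : X.1 v0 = a := by rw [hX1, mv_apply ha0]
    have h4 := hpair X hX
    rw [← hT X hX, h3] at h4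
    exact h4
  -- T is an isometry
  have hiso0 : ∀ a b, (C (T0 a) (T0 b) - B a b) • w0 + (C w0 (T0 b) - B v0 b) • T0 a +
      (C (T0 a) w0 - B a v0) • T0 b = 0 := by
    intro a b
    have h3 := h.br _ (hA a) _ (hA b)
    have h4 : ((SS B a v0, SS C (T0 a) w0) * (SS B b v0, SS C (T0 b) w0) -
        (SS B b v0, SS C (T0 b) w0) * (SS B a v0, SS C (T0 a) w0) : End K V × End K U) =
        (B a b • SS B v0 v0 + B v0 b • SS B a v0 + B a v0 • SS B b v0,
        C (T0 a) (T0 b) • SS C w0 w0 + C w0 (T0 b) • SS C (T0 a) w0 +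
          C (T0 a) w0 • SS C (T0 b) w0) := by
      refine Prod.ext ?_ ?_
      · change SS B a v0 * SS B b v0 - SS B b v0 * SS B a v0 = _
        rw [br_SS (SS_sk h.alt1 a v0), SS_apply, SS_apply, h.alt1, zero_smul, add_zero,
          SS_add_left, SS_smul_left, SS_smul_left, SS_smul_right]
      · change SS C (T0 a) w0 * SS C (T0 b) w0 - SS C (T0 b) w0 * SS C (T0 a) w0 = _
        rw [br_SS (SS_sk h.alt2 (T0 a) w0), SS_apply, SS_apply, h.alt2, zero_smul, add_zero,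
          SS_add_left, SS_smul_left, SS_smul_left, SS_smul_right]
    rw [h4] at h3
    have h5 : (B a b • E + B v0 b • (SS B a v0, SS C (T0 a) w0) +
        B a v0 • (SS B b v0, SS C (T0 b) w0)) ∈ L :=
      L.add_mem (L.add_mem (L.smul_mem _ hE) (L.smul_mem _ (hA a))) (L.smul_mem _ (hA b))
    have h6 : C (T0 a) (T0 b) • SS C w0 w0 + C w0 (T0 b) • SS C (T0 a) w0 +
          C (T0 a) w0 • SS C (T0 b) w0 = B a b • SS C w0 w0 + B v0 b • SS C (T0 a) w0 +
          B a v0 • SS C (T0 b) w0 := h.ext1 h3 h5 rfl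
    refine SS_inj h.alt2 h.nd2 hw0 ?_
    rw [SS_add_left, SS_add_left, SS_smul_left, SS_smul_left, SS_smul_left, sub_smul, sub_smul,
      sub_smul]
    rw [← sub_eq_zero] at h6
    rw [← h6]
    abel
  have hiso1 : ∀ a, C (T0 a) w0 = B a v0 := by
    intro a
    have h3 := hiso0 a v0
    rw [hTv, h.alt2, h.alt1, sub_self, zero_smul, add_zero, ← add_smul] at h3
    have h4 := (smul_eq_zero.1 h3).resolve_right hw0
    have h5 : (2 : K) * (C (T0 a) w0 - B a v0) = 0 := by linear_combination h4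
    exact sub_eq_zero.1 ((mul_eq_zero.1 h5).resolve_left h2)
  have hiso : ∀ a b, C (T0 a) (T0 b) = B a b := by
    intro a b
    have h3 := hiso0 a b
    have h4 : C w0 (T0 b) = B v0 b := by rw [swap h.alt2, hiso1, swap h.alt1 v0]
    rw [h4, hiso1, sub_self, sub_self, zero_smul, zero_smul, add_zero, add_zero] at h3
    exact sub_eq_zero.1 ((smul_eq_zero.1 h3).resolve_right hw0)
  let T : V ≃ₗ[K] U := LinearEquiv.ofBijective T0 ⟨hinj, hsur⟩
  have hTT : ∀ x, T x = T0 x := fun x => rfl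
  refine ⟨T, ?_⟩
  -- the difference
  let D : End K V × End K U → End K V := fun X =>
    T.symm.toLinearMap ∘ₗ X.2 ∘ₗ T.toLinearMap - X.1
  have hDa : ∀ X x, D X x = T.symm (X.2 (T x)) - X.1 x := fun X x => rfl
  have hDsk : ∀ X ∈ L, Sk B (D X) := by
    intro X hX x y
    have e1 : B (T.symm (X.2 (T x))) y = C (X.2 (T x)) (T y) := by
      rw [← hiso, ← hTT, ← hTT, LinearEquiv.apply_symm_apply]
    have e2 : B x (T.symm (X.2 (T y))) = C (T x) (X.2 (T y)) := by
      rw [← hiso, ← hTT, ← hTT, LinearEquiv.apply_symm_apply]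
    have h3 := h.sk2 X hX (T x) (T y)
    have h4 := h.sk1 X hX x y
    rw [hDa, hDa, map_sub, LinearMap.sub_apply, map_sub, e1, e2]
    linear_combination h3 - h4
  have hDv : ∀ X ∈ L, D X v0 = 0 := by
    intro X hX
    rw [hDa, hTT, hTv, ← hT X hX, ← hTT, LinearEquiv.symm_apply_apply, sub_self]
  have hSST : ∀ a b x, T.symm (SS C (T a) (T b) (T x)) = SS B a b x := by
    intro a b x
    rw [SS_apply, map_add, map_smul, map_smul, LinearEquiv.symm_apply_apply,
      LinearEquiv.symm_apply_apply, hTT, hTT, hTT, hiso, hiso, SS_apply]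
  have hDA : ∀ X ∈ L, ∀ a, D ((SS B a v0, SS C (T0 a) w0) * X - X *
      (SS B a v0, SS C (T0 a) w0)) = SS B a v0 * D X - D X * SS B a v0 := by
    intro X hX a
    ext x
    rw [hDa]
    change T.symm (SS C (T0 a) w0 (X.2 (T x)) - X.2 (SS C (T0 a) w0 (T x))) -
      (SS B a v0 (X.1 x) - X.1 (SS B a v0 x)) = SS B a v0 (T.symm (X.2 (T x)) - X.1 x) -
      (T.symm (X.2 (T (SS B a v0 x))) - X.1 (SS B a v0 x))
    have e1 : T.symm (SS C (T0 a) w0 (X.2 (T x))) = SS B a v0 (T.symm (X.2 (T x))) := by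
      have h3 := hSST a v0 (T.symm (X.2 (T x)))
      rw [LinearEquiv.apply_symm_apply, hTT, hTT, hTv] at h3
      exact h3
    have e2 : SS C (T0 a) w0 (T x) = T (SS B a v0 x) := by
      have h3 := hSST a v0 x
      rw [hTT a, hTT v0, hTv] at h3
      rw [← h3, LinearEquiv.apply_symm_apply]
    rw [map_sub T.symm, e1, e2, map_sub (SS B a v0)]
    abel
  have hD1 : ∀ X ∈ L, (∃ a, X.1 = SS B a v0) → D X = 0 := by
    rintro X hX ⟨a, ha⟩
    have h3 := h.ext1 hX (hA a) ha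
    ext x
    rw [hDa, h3, ha]
    have h4 := hSST a v0 x
    rw [hTT a, hTT v0, hTv] at h4
    change T.symm (SS C (T0 a) w0 (T x)) - SS B a v0 x = 0
    rw [h4, sub_self]
  have hD2 : ∀ X ∈ L, X.1 v0 = 0 → D X = 0 := by
    intro X hX hXv
    ext a
    have h3 : D ((SS B a v0, SS C (T0 a) w0) * X - X * (SS B a v0, SS C (T0 a) w0)) = 0 := by
      refine hD1 _ (h.br _ (hA a) _ hX) ⟨-(X.1 a), ?_⟩
      change SS B a v0 * X.1 - X.1 * SS B a v0 = _
      have h4 := br_SS (h.sk1 X hX) a v0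
      rw [hXv, SS_comm B a 0, SS_zero_left, add_zero] at h4
      rw [← neg_one_smul K, SS_smul_left, ← h4]
      module
    rw [hDA X hX] at h3
    have h4 := br_SS (hDsk X hX) a v0
    rw [hDv X hX, SS_comm B a 0, SS_zero_left, add_zero, ← neg_sub, h3, neg_zero] at h4
    exact SS_inj h.alt1 h.nd1 hv0 h4.symm
  have ha0' : B v0 a0 = -1 := by rw [swap h.alt1, ha0]
  set a : V := - a0 with hadef
  have ha : B v0 a = 1 := by rw [hadef, map_neg, ha0', neg_neg]
  have ha' : B a v0 = -1 := by rw [hadef, map_neg, LinearMap.neg_apply, ha0]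
  have hDw : ∀ X ∈ L, ∀ m : ℕ, m ≠ 0 → SS B a v0 * X.1 - X.1 * SS B a v0 = (m : K) • X.1 →
      D X = 0 := by
    intro X hX m hm h3
    refine weight_zero h.alt1 ha (hDsk X hX) (hDv X hX) hm ?_
    rw [← hDA X hX a]
    have h4 : ((SS B a v0, SS C (T0 a) w0) * X - X * (SS B a v0, SS C (T0 a) w0)).2 =
        ((m : K) • X).2 := h.ext1 (h.br _ (hA a) _ hX) (L.smul_mem _ hX) h3
    have h5 : (SS B a v0, SS C (T0 a) w0) * X - X * (SS B a v0, SS C (T0 a) w0) = (m : K) • X :=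
      Prod.ext h3 h4
    rw [h5]
    ext x
    rw [hDa]
    change T.symm ((m : K) • X.2 (T x)) - (m : K) • X.1 x = (m : K) • (D X x)
    rw [hDa, map_smul, smul_sub]
  have hDadd : ∀ X Y, D (X + Y) = D X + D Y := by
    intro X Y
    ext x
    rw [LinearMap.add_apply, hDa, hDa, hDa]
    change T.symm (X.2 (T x) + Y.2 (T x)) - (X.1 x + Y.1 x) = _
    rw [map_add]
    abel
  have hDsmul : ∀ (c : K) X, D (c • X) = c • D X := by
    intro c X
    ext x
    rw [LinearMap.smul_apply, hDa, hDa]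
    change T.symm (c • X.2 (T x)) - c • X.1 x = _
    rw [map_smul, smul_sub]
  have haa : SS B a v0 a = a := by rw [SS_apply, h.alt1, ha, zero_smul, one_smul, zero_add]
  -- the elements
  have hDaa : ∀ X ∈ L, X.1 = SS B a a → D X = 0 := by
    intro X hX h3
    refine hDw X hX 2 two_ne_zero ?_
    rw [h3, br_SS (SS_sk h.alt1 a v0), haa, ← two_smul K]
    norm_num
  have hDab : ∀ b, ∀ X ∈ L, X.1 = SS B a b → D X = 0 := by
    intro b X hX h3
    obtain ⟨Y, hY, hY1⟩ := h.full1 a (b - B v0 b • a + B a b • v0)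
    have h4 : D Y = 0 := by
      refine hDw Y hY 1 one_ne_zero ?_
      have h5 : SS B a v0 (b - B v0 b • a + B a b • v0) = 0 := by
        rw [map_add, map_sub, map_smul, map_smul, SS_apply, SS_apply, SS_apply, h.alt1, h.alt1,
          ha, ha']
        module
      rw [hY1, br_SS (SS_sk h.alt1 a v0), haa, h5, SS_comm B a 0, SS_zero_left, add_zero,
        Nat.cast_one, one_smul]
    obtain ⟨Z, hZ, hZ1⟩ := h.full1 a a
    have h5 := hDaa Z hZ hZ1
    have h6 := hD1 _ (hA a) ⟨a, rfl⟩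
    have h7 : X = Y + B v0 b • Z + (- B a b) • (SS B a v0, SS C (T0 a) w0) := by
      have h8 : X.1 = (Y + B v0 b • Z + (- B a b) • (SS B a v0, SS C (T0 a) w0)).1 := by
        change X.1 = Y.1 + B v0 b • Z.1 + (- B a b) • SS B a v0
        rw [h3, hY1, hZ1, SS_add_right, sub_eq_add_neg, SS_add_right, ← neg_smul, SS_smul_right,
          SS_smul_right]
        module
      exact Prod.ext h8 (h.ext1 hX (L.add_mem (L.add_mem hY (L.smul_mem _ hZ))
        (L.smul_mem _ (hA a))) h8)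
    rw [h7, hDadd, hDadd, hDsmul, hDsmul, h4, h5, h6, smul_zero, smul_zero, add_zero, add_zero]
  have hDall : ∀ X ∈ L, D X = 0 := by
    intro X hX
    obtain ⟨Y, hY, hY1⟩ := h.full1 a (X.1 v0)
    obtain ⟨Z, hZ, hZ1⟩ := h.full1 a a
    have h3 : D (X + Y + (2⁻¹ * B (X.1 v0) v0) • Z) = 0 := by
      refine hD2 _ (L.add_mem (L.add_mem hX hY) (L.smul_mem _ hZ)) ?_
      change X.1 v0 + Y.1 v0 + (2⁻¹ * B (X.1 v0) v0) • Z.1 v0 = 0
      rw [hY1, hZ1, SS_apply, SS_apply, ha']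
      have h4 : (2⁻¹ * B (X.1 v0) v0) • ((-1 : K) • a + (-1 : K) • a) = - (B (X.1 v0) v0 • a) := by
        rw [← add_smul, smul_smul, ← neg_smul]
        congr 1
        field_simp
        ring
      rw [h4]
      module
    rw [hDadd, hDadd, hDsmul, hDab _ Y hY hY1, hDaa Z hZ hZ1, smul_zero, add_zero, add_zero] at h3
    exact h3
  intro X hX x
  have h3 := congrArg (fun f : End K V => T (f x)) (hDall X hX)
  simp only [hDa, map_sub, LinearEquiv.apply_symm_apply, LinearMap.zero_apply, map_zero] at h3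
  exact (sub_eq_zero.1 h3).symm

end Pool.Agent.V11219.Gk
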