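import Mathlib
import Pool.Agent.V11219.GkT

/-!
# Counting dimensions
-/

set_option linter.unusedSectionVars false

namespace Pool.Agent.V11219.Gk

open Module Pool.Agent.H204R3.SP

variable {K V U : Type} [Field K] [CharZero K] [AddCommGroup V] [Module K V]
  [FiniteDimensional K V] [AddCommGroup U] [Module K U] [FiniteDimensional K U]
  {B : V →ₗ[K] V →ₗ[K] K} {C : U →ₗ[K] U →ₗ[K] K}

theorem sk_symm (halt : ∀ v, B v v = 0) {X : End K V} (hX : Sk B X) (x y : V) :
    B x (X y) = B y (X x) := by
  rw [swap halt y (X x)]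
  linear_combination hX x y

/-- The values of the symmetric form on a family of vectors. -/
noncomputable def vals (D : Submodule K (End K V)) (halt : ∀ v, B v v = 0)
    (hsk : ∀ X ∈ D, Sk B X) {r : ℕ} (e : Fin r → V) : D →ₗ[K] (Sym2 (Fin r) → K) where
  toFun X := Sym2.lift ⟨fun a b => B (e a) ((X : End K V) (e b)),
    fun a b => sk_symm halt (hsk X X.2) _ _⟩
  map_add' X Y := by
    funext s
    induction s using Sym2.ind with
    | _ a b =>
      change B (e a) (((X : End K V) + (Y : End K V)) (e b)) = B (e a) ((X : End K V) (e b)) +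
        B (e a) ((Y : End K V) (e b))
      rw [LinearMap.add_apply, map_add]
  map_smul' c X := by
    funext s
    induction s using Sym2.ind with
    | _ a b =>
      change B (e a) ((c • (X : End K V)) (e b)) = c • B (e a) ((X : End K V) (e b))
      rw [LinearMap.smul_apply, map_smul]

theorem vals_apply (D : Submodule K (End K V)) (halt : ∀ v, B v v = 0)
    (hsk : ∀ X ∈ D, Sk B X) {r : ℕ} (e : Fin r → V) (X : D) (a b : Fin r) :
    vals D halt hsk e X s(a, b) = B (e a) ((X : End K V) (e b)) := rfl

theorem vals_zero {D : Submodule K (End K V)} {halt : ∀ v, B v v = 0}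
    {hsk : ∀ X ∈ D, Sk B X} (hnd : ∀ u, (∀ v, B u v = 0) → u = 0) {n : End K V} (hn : Sk B n)
    {r : ℕ} (e : Module.Basis (Fin r) K (LinearMap.range n)) (X : D) :
    vals D halt hsk (fun a => (e a : V)) X = 0 ↔ n * (X : End K V) * n = 0 := by
  have key : ∀ x y, B (n x) ((X : End K V) (n y)) = - B x ((n * (X : End K V) * n) y) := by
    intro x y
    exact eq_neg_of_add_eq_zero_left (hn x _)
  constructor
  · intro h
    have h1 : ∀ a b, B (e a) ((X : End K V) (e b)) = 0 := fun a b => congrFun h s(a, b)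
    have h2 : ∀ x ∈ LinearMap.range n, ∀ b, B x ((X : End K V) (e b)) = 0 := by
      intro x hx b
      have h3 : x = ∑ a, e.repr ⟨x, hx⟩ a • (e a : V) := by
        have h4 := congrArg (fun z : LinearMap.range n => (z : V)) (e.sum_repr ⟨x, hx⟩)
        simp only [Submodule.coe_sum, Submodule.coe_smul] at h4
        exact h4.symm
      rw [h3, map_sum, LinearMap.sum_apply]
      refine Finset.sum_eq_zero fun a _ => ?_
      rw [map_smul, LinearMap.smul_apply, h1, smul_zero]
    have h3 : ∀ x ∈ LinearMap.range n, ∀ y ∈ LinearMap.range n, B x ((X : End K V) y) = 0 := by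
      intro x hx y hy
      have h3 : y = ∑ a, e.repr ⟨y, hy⟩ a • (e a : V) := by
        have h4 := congrArg (fun z : LinearMap.range n => (z : V)) (e.sum_repr ⟨y, hy⟩)
        simp only [Submodule.coe_sum, Submodule.coe_smul] at h4
        exact h4.symm
      rw [h3, map_sum, map_sum]
      refine Finset.sum_eq_zero fun a _ => ?_
      rw [map_smul, map_smul, h2 x hx, smul_zero]
    ext y
    rw [LinearMap.zero_apply]
    refine hnd _ fun x => ?_
    rw [swap halt, ← key, h3 _ ⟨x, rfl⟩ _ ⟨y, rfl⟩]
  · intro h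
    funext s
    induction s using Sym2.ind with
    | _ a b =>
      obtain ⟨x, hx⟩ := (e a).2
      obtain ⟨y, hy⟩ := (e b).2
      rw [vals_apply, ← hx, ← hy, key, h, LinearMap.zero_apply, map_zero, neg_zero]
      rfl

theorem vals_surj {D : Submodule K (End K V)} {halt : ∀ v, B v v = 0}
    {hsk : ∀ X ∈ D, Sk B X} (hnd : ∀ u, (∀ v, B u v = 0) → u = 0) (hD : ∀ a b, SS B a b ∈ D)
    {n : End K V} {r : ℕ} (e : Module.Basis (Fin r) K (LinearMap.range n)) :
    Function.Surjective (vals D halt hsk (fun a => (e a : V))) := by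
  classical
  have hinj : Function.Injective B := by
    rw [← LinearMap.ker_eq_bot, LinearMap.ker_eq_bot']
    intro u hu
    exact hnd u fun v => by rw [hu]; rfl
  have hsur : Function.Surjective B :=
    (LinearMap.injective_iff_surjective_of_finrank_eq_finrank
      (Subspace.dual_finrank_eq (K := K) (V := V)).symm).1 hinj
  have h1 : ∀ a, ∃ v : V, ∀ b, B v (e b) = if b = a then 1 else 0 := by
    intro a
    obtain ⟨g, hg⟩ := LinearMap.exists_extend (e.coord a)
    obtain ⟨v, hv⟩ := hsur g
    refine ⟨v, fun b => ?_⟩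
    rw [hv]
    have h2 : g (e b : V) = e.coord a (e b) := congrArg (fun f : LinearMap.range n →ₗ[K] K => f (e b)) hg
    rw [h2, Basis.coord_apply, Basis.repr_self, Finsupp.single_apply]
  choose v hv using h1
  intro g
  have hX : (∑ a, ∑ b, (-(2⁻¹ * g s(a, b))) • SS B (v a) (v b)) ∈ D :=
    Submodule.sum_mem _ fun a _ => Submodule.sum_mem _ fun b _ => D.smul_mem _ (hD _ _)
  refine ⟨⟨_, hX⟩, ?_⟩
  funext s
  induction s using Sym2.ind with
  | _ c d =>
    rw [vals_apply]
    simp only [LinearMap.sum_apply, map_sum, LinearMap.smul_apply, map_smul, SS_apply, map_add]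
    have h2 : ∀ a b, (-(2⁻¹ * g s(a, b))) • ((B (v a) (e d : V)) • (B (e c : V) (v b)) +
        (B (v b) (e d : V)) • (B (e c : V) (v a))) =
        (if d = a then (if c = b then 2⁻¹ * g s(a, b) else 0) else 0) +
        (if d = b then (if c = a then 2⁻¹ * g s(a, b) else 0) else 0) := by
      intro a b
      rw [hv, hv, swap halt (e c : V) (v b), swap halt (e c : V) (v a), hv, hv]
      simp only [smul_eq_mul]
      split_ifs <;> ring
    rw [Finset.sum_congr rfl fun a _ => Finset.sum_congr rfl fun b _ => h2 a b]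
    simp only [Finset.sum_add_distrib]
    rw [Finset.sum_comm (f := fun a b => if d = b then (if c = a then 2⁻¹ * g s(a, b) else 0)
      else 0)]
    simp only [Finset.sum_ite_eq, Finset.mem_univ, if_true, Finset.sum_ite_irrel,
      Finset.sum_const_zero]
    rw [Sym2.eq_swap (a := d) (b := c), ← two_mul, ← mul_assoc, mul_inv_cancel₀ two_ne_zero,
      one_mul]

/-- **An element which is killed on the side of smaller rank.** -/
theorem exists_small_side (halt : ∀ v, B v v = 0) (hnd : ∀ u, (∀ v, B u v = 0) → u = 0)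
    (halt' : ∀ v, C v v = 0) (hnd' : ∀ u, (∀ v, C u v = 0) → u = 0)
    {n : End K V} (hn : Sk B n) {m : End K U} (hm : Sk C m)
    (hr : finrank K (LinearMap.range m) < finrank K (LinearMap.range n))
    {L : Submodule K (End K V × End K U)} (hsk : ∀ X ∈ L, Sk B X.1) (hsk' : ∀ X ∈ L, Sk C X.2)
    (hfull : ∀ u v, ∃ X ∈ L, X.1 = SS B u v) :
    ∃ X ∈ L, m * X.2 * m = 0 ∧ n * X.1 * n ≠ 0 := by
  by_contra hcon
  push Not at hcon
  let D := L.map (LinearMap.fst K (End K V) (End K U))
  let D' := L.map (LinearMap.snd K (End K V) (End K U))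
  have hD : ∀ X ∈ D, Sk B X := by
    rintro _ ⟨X, hX, rfl⟩
    exact hsk X hX
  have hD' : ∀ X ∈ D', Sk C X := by
    rintro _ ⟨X, hX, rfl⟩
    exact hsk' X hX
  have hDf : ∀ a b, SS B a b ∈ D := by
    intro a b
    obtain ⟨X, hX, hX1⟩ := hfull a b
    exact ⟨X, hX, hX1⟩
  set e := Module.finBasis K (LinearMap.range n) with he
  set e' := Module.finBasis K (LinearMap.range m) with he'
  let p1 : L →ₗ[K] D := (LinearMap.fst K (End K V) (End K U)).restrict fun X hX => ⟨X, hX, rfl⟩
  let p2 : L →ₗ[K] D' := (LinearMap.snd K (End K V) (End K U)).restrict fun X hX => ⟨X, hX, rfl⟩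
  let Ψ := vals D halt hD (fun a => (e a : V)) ∘ₗ p1
  let Φ := vals D' halt' hD' (fun a => (e' a : U)) ∘ₗ p2
  have hp1 : Function.Surjective p1 := by
    rintro ⟨_, X, hX, rfl⟩
    exact ⟨⟨X, hX⟩, rfl⟩
  have hΨ : Function.Surjective Ψ := (vals_surj (halt := halt) (hsk := hD) hnd hDf e).comp hp1
  have hker : LinearMap.ker Φ ≤ LinearMap.ker Ψ := by
    intro X hX
    rw [LinearMap.mem_ker] at hX ⊢
    have h1 : m * (X : End K V × End K U).2 * m = 0 :=
      (vals_zero (halt := halt') (hsk := hD') hnd' hm e' (p2 X)).1 hX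
    have h2 := hcon X X.2 h1
    exact (vals_zero (halt := halt) (hsk := hD) hnd hn e (p1 X)).2 h2
  have h1 := LinearMap.finrank_range_add_finrank_ker Φ
  have h2 := LinearMap.finrank_range_add_finrank_ker Ψ
  have h3 : finrank K (LinearMap.ker Φ) ≤ finrank K (LinearMap.ker Ψ) :=
    Submodule.finrank_mono hker
  rw [LinearMap.range_eq_top.2 hΨ, finrank_top, Module.finrank_fintype_fun_eq_card,
    Sym2.card, Fintype.card_fin] at h2
  have h4 : finrank K (LinearMap.range Φ) ≤ (finrank K (LinearMap.range m) + 1).choose 2 := by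
    have h5 := Submodule.finrank_le (LinearMap.range Φ)
    rwa [Module.finrank_fintype_fun_eq_card, Sym2.card, Fintype.card_fin] at h5
  have h5 : (finrank K (LinearMap.range m) + 1).choose 2 + (finrank K (LinearMap.range m) + 1) ≤
      (finrank K (LinearMap.range n) + 1).choose 2 := by
    refine le_trans ?_ (Nat.choose_le_choose 2 (Nat.succ_le_succ hr))
    have h6 : (finrank K (LinearMap.range m)).succ.succ.choose 2 =
        (finrank K (LinearMap.range m) + 1) + (finrank K (LinearMap.range m) + 1).choose 2 := by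
      rw [Nat.choose_succ_succ, Nat.choose_one_right]
    omega
  omega

end Pool.Agent.V11219.Gk
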