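import Mathlib
import Pool.Agent.TH118.SG.Unip
import Pool.Agent.Y126.OT.Ext

/-!
# Square-zero elements of arbitrary rank: the whole symplectic Lie algebra
-/

set_option linter.unusedSectionVars false

namespace Pool.Agent.V11219.Quad

open Module Finset Function Pool.Agent.TH125.Gal Pool.Agent.TH118.SG
open Pool.Agent.W528.Odd Pool.Agent.Y126.OT

section lie

variable {K : Type} [Field K] [CharZero K] [IsAlgClosed K] {V : Type} [AddCommGroup V] [Module K V]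
  [FiniteDimensional K V] {𝔥 : Submodule K (Module.End K V)} {Γ : Type} [Group Γ]
  (ρ : Representation K Γ V)

/-- An extremal element. -/
theorem exists_extremal (hbr : ∀ X ∈ 𝔥, ∀ Y ∈ 𝔥, X * Y - Y * X ∈ 𝔥) {N : Module.End K V}
    (hN : N ∈ 𝔥) (hN2 : N * N = 0) (hN0 : N ≠ 0) :
    ∃ e ∈ 𝔥, e * e = 0 ∧ e ≠ 0 ∧ ∀ x ∈ 𝔥, ∃ c : K, e * x * e = c • e := by
  classical
  have hex : ∃ n, ∃ e ∈ 𝔥, e * e = 0 ∧ e ≠ 0 ∧ rk e = n := ⟨_, N, hN, hN2, hN0, rfl⟩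
  obtain ⟨e, he, he2, he0, hen⟩ := Nat.find_spec hex
  have hmin : ∀ a ∈ 𝔥, a * a = 0 → a ≠ 0 → rk e ≤ rk a := by
    intro a ha ha2 ha0
    rw [hen]
    exact Nat.find_min' hex ⟨a, ha, ha2, ha0, rfl⟩
  refine ⟨e, he, he2, he0, fun x hx => ?_⟩
  let S : Submodule K (Module.End K V) :=
    { carrier := {a | a ∈ 𝔥 ∧ (∀ v, a v ∈ LinearMap.range e) ∧ ∀ v ∈ LinearMap.ker e, a v = 0}
      zero_mem' := ⟨𝔥.zero_mem, fun v => Submodule.zero_mem _, fun v _ => rfl⟩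
      add_mem' := by
        rintro a a' ⟨h1, h2, h3⟩ ⟨h1', h2', h3'⟩
        refine ⟨𝔥.add_mem h1 h1', fun v => Submodule.add_mem _ (h2 v) (h2' v), fun v hv => ?_⟩
        rw [LinearMap.add_apply, h3 v hv, h3' v hv, add_zero]
      smul_mem' := by
        rintro c a ⟨h1, h2, h3⟩
        refine ⟨𝔥.smul_mem _ h1, fun v => Submodule.smul_mem _ _ (h2 v), fun v hv => ?_⟩
        rw [LinearMap.smul_apply, h3 v hv, smul_zero] }
  refine extremal S (e := e) ⟨he, fun v => ⟨v, rfl⟩, fun v hv => hv⟩ he0 ?_ x ?_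
  · rintro a ⟨h1, h2, h3⟩ ha0
    refine hmin a h1 ?_ ha0
    refine LinearMap.ext fun v => ?_
    obtain ⟨w, hw⟩ := h2 v
    rw [Module.End.mul_apply, LinearMap.zero_apply]
    refine h3 _ ?_
    rw [LinearMap.mem_ker, ← hw, ← Module.End.mul_apply, he2]
    rfl
  · refine ⟨sq_mul_mem hbr he he2 hx, fun v => ⟨_, rfl⟩, fun v hv => ?_⟩
    rw [LinearMap.mem_ker] at hv
    rw [Module.End.mul_apply, hv, map_zero]

/-- Defects without common factor, or a defect two, give a square-zero element of rank one or two. -/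
theorem exists_small (hirr : SIrr ρ) (hbr : ∀ X ∈ 𝔥, ∀ Y ∈ 𝔥, X * Y - Y * X ∈ 𝔥)
    (hconj : ∀ s : Γ, ∀ X ∈ 𝔥, ρ s * X * ρ s⁻¹ ∈ 𝔥) {N : Module.End K V} (hN : N ∈ 𝔥)
    (hN2 : N * N = 0)
    (hd : (∀ p : ℕ, p.Prime → ∃ d, Defect 𝔥 N d ∧ ¬ p ∣ d) ∨ Defect 𝔥 N 2) :
    ∃ e ∈ 𝔥, e * e = 0 ∧ e ≠ 0 ∧ rk e ≤ 2 := by
  rcases hd with hd | hd
  · have hN0 : N ≠ 0 := by
      rintro rfl
      obtain ⟨d, hd, h2⟩ := hd 2 Nat.prime_two
      apply h2
      rcases hd with rfl | ⟨N', -, -, l, hl, rfl⟩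
      · rw [Pool.Agent.W528.Odd.rk, LinearMap.range_zero, finrank_bot]
        exact dvd_zero 2
      · have h3 : ((0 : Module.End K V) * N').maxGenEigenspace l = ⊥ := by
          rw [zero_mul, eq_bot_iff]
          intro v hv
          obtain ⟨k, hk⟩ := (Module.End.mem_maxGenEigenspace _ _ _).1 hv
          rw [zero_sub, ← neg_smul, smul_pow, one_pow, LinearMap.smul_apply,
            Module.End.one_apply] at hk
          exact (smul_eq_zero.1 hk).resolve_left (pow_ne_zero _ (neg_ne_zero.2 hl))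
        rw [h3, finrank_bot]
        exact dvd_zero 2
    obtain ⟨e, he, he2, he0, hext⟩ := exists_extremal hbr hN hN2 hN0
    refine ⟨e, he, he2, he0, ?_⟩
    rw [extremal_rank_one ρ hirr hbr hconj hN hN2 hd he he2 he0 hext]
    exact one_le_two
  · obtain ⟨n, hn, hn2, hr, -⟩ := defect_elt ρ hirr hbr hconj hN hN2 hd
    refine ⟨n, hn, hn2, ?_, hr.le⟩
    rintro rfl
    rw [Pool.Agent.W528.Odd.rk, LinearMap.range_zero, finrank_bot] at hr
    omega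

end lie

variable {K : Type} [Field K] [CharZero K] [IsAlgClosed K] {T : Type} [AddCommGroup T]
  [Module K T] [FiniteDimensional K T] {E : Type} [AddCommGroup E] [Module K E]
  [FiniteDimensional K E] {S : Type} [Fintype S] [DecidableEq S] {G : Type} [Group G]
  {B : T →ₗ[K] T →ₗ[K] K} {ρ : G →* (T →ₗ[K] T)} {σ : G →* (E →ₗ[K] E)} {χ : G →* K}

/-- The number `d` is a defect of `γ`: the rank of `γ - 1`, or the multiplicity of a nonzero
eigenvalue of `(γ - 1) (γ' - 1)` for an element `γ'` of the set `A` with `(γ' - 1) ^ 2 = 0`. -/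
def GDefect (ρ : G →* (T →ₗ[K] T)) (A : Set G) (γ : G) (d : ℕ) : Prop :=
  d = finrank K (LinearMap.range (ρ γ - 1)) ∨ ∃ γ' ∈ A, (ρ γ' - 1) * (ρ γ' - 1) = 0 ∧
    ∃ a : K, a ≠ 0 ∧ d = finrank K (Module.End.maxGenEigenspace ((ρ γ - 1) * (ρ γ' - 1)) a)

/-- **The whole symplectic Lie algebra.** -/
theorem quad_full (halt : ∀ v, B v v = 0) (hnd : ∀ u, (∀ v, B u v = 0) → u = 0)
    (hB : ∀ g x y, B (ρ g x) (ρ g y) = χ g * B x y) (hSI : Pool.Agent.TH125.Gal.SI ρ)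
    {A : Set G} (hχ : ∀ g ∈ A, χ g = 1) (hσ : ∀ g ∈ A, σ g = 1) {γ : G} (hγA : γ ∈ A)
    (hγ : (ρ γ - 1) * (ρ γ - 1) = 0)
    (hd : (∀ p : ℕ, p.Prime → ∃ d, GDefect ρ A γ d ∧ ¬ p ∣ d) ∨ GDefect ρ A γ 2) (x y : T) :
    Pool.Agent.H204R3.SP.SS B x y ∈ LL S B ρ σ := by
  have hLL : ∀ g ∈ A, (ρ g - 1) * (ρ g - 1) = 0 → ρ g - 1 ∈ LL S B ρ σ := by
    intro g hg h2
    refine unip_mem (fun x => ?_) (fun x => ?_) (fun x y => by rw [hB, hχ g hg, one_mul])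
      (hσ g hg)
    · rw [LinearMap.sub_apply, Module.End.one_apply]
      abel
    · exact congrArg (fun f : End K T => f x) h2
  have hdef : ∀ d, GDefect ρ A γ d → Defect (LL S B ρ σ) (ρ γ - 1) d := by
    rintro d (hd | ⟨γ', hγ', h2, a, ha, hd⟩)
    · exact Or.inl hd
    · exact Or.inr ⟨_, hLL γ' hγ' h2, h2, a, ha, hd⟩
  have hconj : ∀ g : G, ∀ Y ∈ LL S B ρ σ, ρ g * Y * ρ g⁻¹ ∈ LL S B ρ σ := by
    intro g Y hY
    have h1 := LL_conj (μ := χ) hB hY g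
    exact h1
  have hbr : ∀ Y ∈ LL S B ρ σ, ∀ Z ∈ LL S B ρ σ, Y * Z - Z * Y ∈ LL S B ρ σ :=
    fun Y hY Z hZ => LL_bracket hY hZ
  have hsp : ∀ Y ∈ LL S B ρ σ, ∀ u w, B (Y u) w + B u (Y w) = 0 := fun Y hY u w => hY.1 u w
  obtain ⟨e, he, he2, he0, her⟩ := exists_small (𝔥 := LL S B ρ σ) ρ hSI hbr hconj
    (hLL γ hγA hγ) hγ (by
      rcases hd with hd | hd
      · left
        intro p hp
        obtain ⟨d, h1, h2⟩ := hd p hp
        exact ⟨d, hdef d h1, h2⟩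
      · exact Or.inr (hdef 2 hd))
  obtain ⟨z, hz⟩ : ∃ z, e z ≠ 0 := by
    by_contra hcon
    push Not at hcon
    exact he0 (LinearMap.ext hcon)
  have hX := SI_conv ⟨e z, hz⟩ hSI
  refine full_of_N (R := ρ) (χ := χ) halt hnd hB hconj hbr hsp hX he he2 he0 ?_ x y
  rw [Pool.Agent.W528.Odd.rk] at her
  rw [Submodule.map_top]
  exact her

end Pool.Agent.V11219.Quad
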