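import Mathlib
import Pool.Agent.TH118.SG.Unip
import Pool.Agent.Y126.OT.Ext
import Pool.Agent.V11219.QuadFull
import Pool.Agent.V11219.GkT

/-!
# Lie algebras with several symplectic projections
-/

set_option linter.unusedSectionVars false

namespace Pool.Agent.V11219.Gk

open Module Pool.Agent.W528.Odd Pool.Agent.Y126.OT Pool.Agent.TH118.SG
open Pool.Agent.H204R3.SP (SS SS_apply SS_comm)

section one

variable {K : Type} [Field K] [CharZero K] {V : Type} [AddCommGroup V] [Module K V]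
  [FiniteDimensional K V] {𝔥 : Submodule K (Module.End K V)} {Γ : Type} [Group Γ]
  (ρ : Representation K Γ V)

theorem defect_zero {d : ℕ} (hd : Defect 𝔥 0 d) : d = 0 := by
  rcases hd with rfl | ⟨N', -, -, l, hl, rfl⟩
  · rw [Pool.Agent.W528.Odd.rk, LinearMap.range_zero, finrank_bot]
  · have h3 : ((0 : Module.End K V) * N').maxGenEigenspace l = ⊥ := by
      rw [zero_mul, eq_bot_iff]
      intro v hv
      obtain ⟨k, hk⟩ := (Module.End.mem_maxGenEigenspace _ _ _).1 hv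
      rw [zero_sub, ← neg_smul, smul_pow, one_pow, LinearMap.smul_apply,
        Module.End.one_apply] at hk
      exact (smul_eq_zero.1 hk).resolve_left (pow_ne_zero _ (neg_ne_zero.2 hl))
    rw [h3, finrank_bot]

/-- **Extremal elements have rank one**, if the conjugates of one square-zero element act
irreducibly and the defects of all square-zero elements have no common prime factor. -/
theorem extremal_rank_one_conj [IsAlgClosed K] (hirr : SIrr ρ)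
    (hbr : ∀ X ∈ 𝔥, ∀ Y ∈ 𝔥, X * Y - Y * X ∈ 𝔥)
    (hconj : ∀ s : Γ, ∀ X ∈ 𝔥, ρ s * X * ρ s⁻¹ ∈ 𝔥) {N : Module.End K V} (hN : N ∈ 𝔥)
    (hN2 : N * N = 0) (hCI : ConjIrr ρ N)
    (hd : ∀ p : ℕ, p.Prime → ∃ N' ∈ 𝔥, N' * N' = 0 ∧ ∃ d, Defect 𝔥 N' d ∧ ¬ p ∣ d)
    {e : Module.End K V} (he : e ∈ 𝔥) (he2 : e * e = 0) (he0 : e ≠ 0)
    (hext : ∀ x ∈ 𝔥, ∃ c : K, e * x * e = c • e) : rk e = 1 := by
  have hS := setup_sl0 ρ hirr hbr hconj
  have hconj' : ∀ s : Γ, ∀ X ∈ sl0 𝔥, ρ s * X * ρ s⁻¹ ∈ sl0 𝔥 := by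
    intro s X hX
    refine ⟨hconj s X hX.1, ?_⟩
    change LinearMap.trace K V _ = 0
    rw [LinearMap.trace_mul_comm, ← mul_assoc, ← map_mul, inv_mul_cancel, map_one, one_mul]
    exact hX.2
  have hCN : ConjIrr (rN (sl0 𝔥)) N := by
    intro W hW
    refine hCI W fun g u hu => ?_
    exact hW (toN ρ hconj' g) u hu
  have hNsl := sq_mem_sl0 hN hN2
  have hesl := sq_mem_sl0 he he2
  have hNO : NoOrthOf (rN (sl0 𝔥)) (sl0 𝔥) e :=
    Pool.Agent.W261.OT.NoOrth.main K V (Nz (sl0 𝔥)) (rN (sl0 𝔥)) (sl0 𝔥) hS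
      (fun 𝔞 h𝔞 h1 h2 h3 => Pool.Agent.W363.OT.Cart.main K V (Nz (sl0 𝔥)) (rN (sl0 𝔥)) hS.irr
        𝔞 h1 h2 (fun x hx => hS.tr x (h𝔞 hx)) h3) N hNsl hN2 hCN e hesl he2 he0
  have hdvd := Pool.Agent.W806.OT.DIV.main K V (Nz (sl0 𝔥)) (rN (sl0 𝔥)) (sl0 𝔥) hS e hesl he2
    (fun x hx => hext x hx.1) hNO
  by_contra h1
  obtain ⟨p, hp, hpm⟩ := Nat.exists_prime_and_dvd h1
  obtain ⟨N', hN', hN2', d, hd, hpd⟩ := hd p hp
  obtain ⟨n, hn, hn2, hnd, -⟩ := defect_elt ρ hirr hbr hconj hN' hN2' hd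
  apply hpd
  rw [← hnd]
  exact hpm.trans (hdvd n (sq_mem_sl0 hn hn2) hn2)

/-- The three conditions. -/
def SmallCond (𝔥 : Submodule K (Module.End K V)) (ρ : Representation K Γ V) : Prop :=
  (∃ N ∈ 𝔥, N * N = 0 ∧ ((∀ p : ℕ, p.Prime → ∃ d, Defect 𝔥 N d ∧ ¬ p ∣ d) ∨ Defect 𝔥 N 2)) ∨
  ∃ N ∈ 𝔥, N * N = 0 ∧ ConjIrr ρ N ∧
    ∀ p : ℕ, p.Prime → ∃ N' ∈ 𝔥, N' * N' = 0 ∧ ∃ d, Defect 𝔥 N' d ∧ ¬ p ∣ d

variable {ρ} {B : V →ₗ[K] V →ₗ[K] K} {χ : Γ →* K}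

/-- **The whole symplectic Lie algebra.** -/
theorem full_of_small [IsAlgClosed K] (halt : ∀ v, B v v = 0)
    (hnd : ∀ u, (∀ v, B u v = 0) → u = 0)
    (hB : ∀ g x y, B (ρ g x) (ρ g y) = χ g * B x y) (hSI : SIrr ρ)
    (hbr : ∀ X ∈ 𝔥, ∀ Y ∈ 𝔥, X * Y - Y * X ∈ 𝔥)
    (hconj : ∀ s : Γ, ∀ X ∈ 𝔥, ρ s * X * ρ s⁻¹ ∈ 𝔥) (hsp : ∀ X ∈ 𝔥, Sk B X)
    (hsm : SmallCond 𝔥 ρ) (x y : V) : SS B x y ∈ 𝔥 := by
  have hex : ∃ e ∈ 𝔥, e * e = 0 ∧ e ≠ 0 ∧ rk e ≤ 2 := by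
    rcases hsm with ⟨N, hN, hN2, hd⟩ | ⟨N, hN, hN2, hCI, hd⟩
    · exact Quad.exists_small ρ hSI hbr hconj hN hN2 hd
    · obtain ⟨N', hN', hN2', d, hd', h2⟩ := hd 2 Nat.prime_two
      have hN0 : N' ≠ 0 := by
        rintro rfl
        rw [defect_zero hd'] at h2
        exact h2 (dvd_zero 2)
      obtain ⟨e, he, he2, he0, hext⟩ := Quad.exists_extremal hbr hN' hN2' hN0
      refine ⟨e, he, he2, he0, ?_⟩
      rw [extremal_rank_one_conj ρ hSI hbr hconj hN hN2 hCI hd he he2 he0 hext]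
      exact one_le_two
  obtain ⟨e, he, he2, he0, her⟩ := hex
  obtain ⟨z, hz⟩ : ∃ z, e z ≠ 0 := by
    by_contra hcon
    push Not at hcon
    exact he0 (LinearMap.ext hcon)
  have hX := SI_conv ⟨e z, hz⟩ hSI
  refine full_of_N (R := ρ) (χ := χ) halt hnd hB hconj hbr hsp hX he he2 he0 ?_ x y
  rw [Pool.Agent.W528.Odd.rk] at her
  rw [Submodule.map_top]
  exact her

/-- There is a nonzero square-zero element among the elements of the condition. -/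
theorem SmallCond.exists_ne {P : Module.End K V → Prop} (hP : ∀ N ∈ 𝔥, N * N = 0 → P N → N = 0)
    (h : (∃ N ∈ 𝔥, N * N = 0 ∧ P N ∧ ((∀ p : ℕ, p.Prime → ∃ d, Defect 𝔥 N d ∧ ¬ p ∣ d) ∨
      Defect 𝔥 N 2)) ∨ ∃ N' ∈ 𝔥, N' * N' = 0 ∧ P N' ∧ ∃ d, Defect 𝔥 N' d ∧ ¬ 2 ∣ d) : False := by
  rcases h with ⟨N, hN, hN2, hPN, hd⟩ | ⟨N, hN, hN2, hPN, d, hd, h2⟩
  · have h0 := hP N hN hN2 hPN
    subst h0
    rcases hd with hd | hd
    · obtain ⟨d, hd, h2⟩ := hd 2 Nat.prime_two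
      rw [defect_zero hd] at h2
      exact h2 (dvd_zero 2)
    · exact absurd (defect_zero hd) two_ne_zero
  · have h0 := hP N hN hN2 hPN
    subst h0
    rw [defect_zero hd] at h2
    exact h2 (dvd_zero 2)

end one

/-- Sandwiches. -/
theorem sand_mem {K A : Type} [Field K] [CharZero K] [Ring A] [Algebra K A] {𝔤 : Submodule K A}
    (hbr : ∀ X ∈ 𝔤, ∀ Y ∈ 𝔤, X * Y - Y * X ∈ 𝔤) {n X : A} (hn : n ∈ 𝔤) (hn2 : n * n = 0)
    (hX : X ∈ 𝔤) : n * X * n ∈ 𝔤 := by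
  have h1 := hbr _ hn _ (hbr _ hn _ hX)
  have h2 : n * (n * X - X * n) - (n * X - X * n) * n = (-2 : K) • (n * X * n) := by
    have h3 : n * (n * X - X * n) - (n * X - X * n) * n =
        (n * n) * X - n * X * n - n * X * n + X * (n * n) := by noncomm_ring
    rw [h3, hn2, zero_mul, mul_zero]
    module
  rw [h2] at h1
  exact (Submodule.smul_mem_iff _ (by norm_num : (-2 : K) ≠ 0)).1 h1

variable {K Γ : Type} [Field K] [CharZero K] [IsAlgClosed K] [Group Γ] {ι : Type}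
  {V : ι → Type} [∀ i, AddCommGroup (V i)] [∀ i, Module K (V i)]
  [∀ i, FiniteDimensional K (V i)] {μ : ι → Γ →* K} {ρ : ∀ i, Representation K Γ (V i)}
  {B : ∀ i, V i →ₗ[K] V i →ₗ[K] K} {𝔤 : Submodule K (∀ i, Module.End K (V i))}

/-- `d` is a defect of `n` on `V i`. -/
def FDefect (𝔤 : Submodule K (∀ i, Module.End K (V i))) (i : ι) (n : ∀ i, Module.End K (V i))
    (d : ℕ) : Prop :=
  d = rk (n i) ∨ ∃ n' ∈ 𝔤, n' * n' = 0 ∧ ∃ l : K, l ≠ 0 ∧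
    d = finrank K ((n i * n' i).maxGenEigenspace l)

/-- A Lie algebra stable under the group. -/
structure LieFam (μ : ι → Γ →* K) (ρ : ∀ i, Representation K Γ (V i))
    (B : ∀ i, V i →ₗ[K] V i →ₗ[K] K) (𝔤 : Submodule K (∀ i, Module.End K (V i))) : Prop where
  alt : ∀ i v, B i v v = 0
  nondeg : ∀ i v, (∀ w, B i v w = 0) → v = 0
  act : ∀ i g v w, B i (ρ i g v) (ρ i g w) = μ i g * B i v w
  irreducible : ∀ i, SIrr (ρ i)
  distinct : ∀ i j, i ≠ j → ¬ ∃ T : V i ≃ₗ[K] V j, ∀ g, ∃ c : K, ∀ x,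
    T (ρ i g x) = c • ρ j g (T x)
  br : ∀ X ∈ 𝔤, ∀ Y ∈ 𝔤, X * Y - Y * X ∈ 𝔤
  conj : ∀ g, ∀ X ∈ 𝔤, (fun i => ρ i g * X i * ρ i g⁻¹) ∈ 𝔤
  sk : ∀ X ∈ 𝔤, ∀ i, Sk (B i) (X i)
  small : ∀ i, (∃ n ∈ 𝔤, n * n = 0 ∧ ((∀ p : ℕ, p.Prime → ∃ d, FDefect 𝔤 i n d ∧ ¬ p ∣ d) ∨
    FDefect 𝔤 i n 2)) ∨ ∃ n ∈ 𝔤, n * n = 0 ∧ ConjIrr (ρ i) (n i) ∧
    ∀ p : ℕ, p.Prime → ∃ n' ∈ 𝔤, n' * n' = 0 ∧ ∃ d, FDefect 𝔤 i n' d ∧ ¬ p ∣ d

/-- The projection. -/
def pj (𝔤 : Submodule K (∀ i, Module.End K (V i))) (i : ι) : Submodule K (Module.End K (V i)) :=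
  𝔤.map (LinearMap.proj i)

theorem mem_pj {i : ι} {X : ∀ i, Module.End K (V i)} (hX : X ∈ 𝔤) : X i ∈ pj 𝔤 i := ⟨X, hX, rfl⟩

theorem FDefect.defect {i : ι} {n : ∀ i, Module.End K (V i)} {d : ℕ} (h : FDefect 𝔤 i n d) :
    Defect (pj 𝔤 i) (n i) d := by
  rcases h with h | ⟨n', hn', hn2, l, hl, h⟩
  · exact Or.inl h
  · exact Or.inr ⟨n' i, mem_pj hn', congrFun hn2 i, l, hl, h⟩

namespace LieFam

variable (h : LieFam μ ρ B 𝔤)

include h

theorem proj_full (i : ι) (x y : V i) : ∃ X ∈ 𝔤, X i = SS (B i) x y := by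
  have h1 : SS (B i) x y ∈ pj 𝔤 i := by
    refine full_of_small (ρ := ρ i) (χ := μ i) (h.alt i) (h.nondeg i) (h.act i) (h.irreducible i)
      ?_ ?_ ?_ ?_ x y
    · rintro _ ⟨X, hX, rfl⟩ _ ⟨Y, hY, rfl⟩
      exact ⟨_, h.br X hX Y hY, rfl⟩
    · rintro s _ ⟨X, hX, rfl⟩
      exact ⟨_, h.conj s X hX, rfl⟩
    · rintro _ ⟨X, hX, rfl⟩
      exact h.sk X hX i
    · rcases h.small i with ⟨n, hn, hn2, hd⟩ | ⟨n, hn, hn2, hCI, hd⟩
      · refine Or.inl ⟨n i, mem_pj hn, congrFun hn2 i, ?_⟩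
        rcases hd with hd | hd
        · left
          intro p hp
          obtain ⟨d, hd, hpd⟩ := hd p hp
          exact ⟨d, hd.defect, hpd⟩
        · exact Or.inr hd.defect
      · refine Or.inr ⟨n i, mem_pj hn, congrFun hn2 i, hCI, fun p hp => ?_⟩
        obtain ⟨n', hn', hn2', d, hd, hpd⟩ := hd p hp
        exact ⟨n' i, mem_pj hn', congrFun hn2' i, d, hd.defect, hpd⟩
  obtain ⟨X, hX, hX1⟩ := h1
  exact ⟨X, hX, hX1⟩

theorem exists_sq (i : ι) : ∃ n ∈ 𝔤, n * n = 0 ∧ n i ≠ 0 := by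
  by_contra hcon
  push Not at hcon
  have h1 : ∀ n d, FDefect 𝔤 i n d → n i = 0 → d = 0 := by
    intro n d hd h0
    have h2 := hd.defect
    rw [h0] at h2
    exact defect_zero h2
  rcases h.small i with ⟨n, hn, hn2, hd⟩ | ⟨n, hn, hn2, hCI, hd⟩
  · have h0 := hcon n hn hn2
    rcases hd with hd | hd
    · obtain ⟨d, hd, h2⟩ := hd 2 Nat.prime_two
      rw [h1 n d hd h0] at h2
      exact h2 (dvd_zero 2)
    · exact absurd (h1 n 2 hd h0) two_ne_zero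
  · obtain ⟨n', hn', hn2', d, hd, h2⟩ := hd 2 Nat.prime_two
    rw [h1 n' d hd (hcon n' hn' hn2')] at h2
    exact h2 (dvd_zero 2)

/-- The case of a graph. -/
theorem not_graph {i j : ι} (hij : i ≠ j) (h12 : ∀ X ∈ 𝔤, X i = 0 → X j = 0)
    (h21 : ∀ X ∈ 𝔤, X j = 0 → X i = 0) : False := by
  obtain ⟨n, hn, hn2, hn0⟩ := h.exists_sq i
  obtain ⟨v, hv⟩ : ∃ v, n i v ≠ 0 := by
    by_contra hcon
    push Not at hcon
    exact hn0 (LinearMap.ext hcon)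
  obtain ⟨X, hX, hX1⟩ := h.proj_full i v v
  set E := n * X * n with hE
  have hEg : E ∈ 𝔤 := sand_mem h.br hn hn2 hX
  have hEi : E i = - SS (B i) (n i v) (n i v) := by
    rw [hE, Pi.mul_apply, Pi.mul_apply, hX1, sand_SS (h.sk n hn i)]
  have hE2 : E * E = 0 := by
    have e1 : E * E = n * X * (n * n) * X * n := by
      rw [hE]
      simp only [mul_assoc]
    rw [e1, hn2, mul_zero, zero_mul, zero_mul]
  have hSS0 : ∀ (k : ι) (u : V k), u ≠ 0 → SS (B k) u u ≠ 0 := fun k u hu h0 =>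
    hu (SS_inj (h.alt k) (h.nondeg k) hu h0)
  have hEi0 : E i ≠ 0 := by
    rw [hEi]
    exact neg_ne_zero.2 (hSS0 i _ hv)
  have hEj0 : E j ≠ 0 := fun h0 => hEi0 (h21 E hEg h0)
  have hEY : ∀ Y ∈ 𝔤, ∃ c : K, E j * Y j * E j = c • E j := by
    intro Y hY
    have e1 : (E * Y * E) i = (-(2 * B i (n i v) (Y i (n i v)))) • E i := by
      rw [Pi.mul_apply, Pi.mul_apply, hEi, neg_mul, neg_mul_neg, SS_sand', neg_smul_neg]
    refine ⟨-(2 * B i (n i v) (Y i (n i v))), ?_⟩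
    have e2 := h12 (E * Y * E - (-(2 * B i (n i v) (Y i (n i v)))) • E)
      (𝔤.sub_mem (sand_mem h.br hEg hE2 hY) (𝔤.smul_mem _ hEg)) (by
        rw [Pi.sub_apply, e1, Pi.smul_apply, sub_self])
    exact sub_eq_zero.1 e2
  obtain ⟨u, hu⟩ : ∃ u, E j u ≠ 0 := by
    by_contra hcon
    push Not at hcon
    exact hEj0 (LinearMap.ext hcon)
  obtain ⟨Y, hY, hY1⟩ := h.proj_full j u u
  obtain ⟨c, hc⟩ := hEY Y hY
  rw [hY1, sand_SS (h.sk E hEg j)] at hc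
  have hc0 : c ≠ 0 := by
    rintro rfl
    rw [zero_smul, neg_eq_zero] at hc
    exact hSS0 j _ hu hc
  have hEj : E j = (-c⁻¹) • SS (B j) (E j u) (E j u) := by
    rw [neg_smul, ← smul_neg, hc, smul_smul, inv_mul_cancel₀ hc0, one_smul]
  obtain ⟨α, hα⟩ := IsAlgClosed.exists_pow_nat_eq (-1 : K) (n := 2) two_pos
  obtain ⟨β, hβ⟩ := IsAlgClosed.exists_pow_nat_eq (-c⁻¹ : K) (n := 2) two_pos
  have hα0 : α ≠ 0 := by
    rintro rfl
    norm_num at hα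
  have hβ0 : β ≠ 0 := by
    rintro rfl
    rw [zero_pow two_ne_zero] at hβ
    exact hc0 (inv_eq_zero.1 (neg_eq_zero.1 hβ.symm))
  have hsq : ∀ (k : ι) (a : K) (u : V k), SS (B k) (a • u) (a • u) = a ^ 2 • SS (B k) u u := by
    intro k a u
    rw [SS_smul_left, SS_smul_right, smul_smul, pow_two]
  let P : (∀ i, Module.End K (V i)) →ₗ[K] Module.End K (V i) × Module.End K (V j) :=
    LinearMap.prod (LinearMap.proj i) (LinearMap.proj j)
  have hG : Graph (B i) (B j) (𝔤.map P) :=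
    { alt1 := h.alt i
      nd1 := h.nondeg i
      alt2 := h.alt j
      nd2 := h.nondeg j
      br := by
        rintro _ ⟨X, hX, rfl⟩ _ ⟨Y, hY, rfl⟩
        exact ⟨_, h.br X hX Y hY, rfl⟩
      sk1 := by
        rintro _ ⟨X, hX, rfl⟩
        exact h.sk X hX i
      sk2 := by
        rintro _ ⟨X, hX, rfl⟩
        exact h.sk X hX j
      g12 := by
        rintro _ ⟨X, hX, rfl⟩ h0
        exact h12 X hX h0
      g21 := by
        rintro _ ⟨X, hX, rfl⟩ h0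
        exact h21 X hX h0
      full1 := fun a b => by
        obtain ⟨X, hX, hX1⟩ := h.proj_full i a b
        exact ⟨_, ⟨X, hX, rfl⟩, hX1⟩
      full2 := fun a b => by
        obtain ⟨X, hX, hX1⟩ := h.proj_full j a b
        exact ⟨_, ⟨X, hX, rfl⟩, hX1⟩ }
  obtain ⟨T, hT⟩ := hG.exists_iso (v0 := α • n i v) (w0 := β • E j u) (smul_ne_zero hα0 hv)
    (smul_ne_zero hβ0 hu) ⟨E, hEg, by
      refine Prod.ext ?_ ?_
      · change E i = SS (B i) (α • n i v) (α • n i v)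
        rw [hsq, hα, neg_smul, one_smul, hEi]
      · change E j = SS (B j) (β • E j u) (β • E j u)
        rw [hsq, hβ, ← hEj]⟩
  have hT' : ∀ X ∈ 𝔤, ∀ x, T (X i x) = X j (T x) := fun X hX x => hT _ ⟨X, hX, rfl⟩ x
  have hnt : Nontrivial (V i) := ⟨⟨_, _, hv⟩⟩
  refine h.distinct i j hij ⟨T, fun g => ?_⟩
  let Q : Module.End K (V i) := T.symm.toLinearMap ∘ₗ ρ j g⁻¹ ∘ₗ T.toLinearMap ∘ₗ ρ i g
  have hQa : ∀ x, Q x = T.symm (ρ j g⁻¹ (T (ρ i g x))) := fun x => rfl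
  have hinv : ∀ (k : ι) (x : V k), ρ k g⁻¹ (ρ k g x) = x := by
    intro k x
    rw [← Module.End.mul_apply, ← map_mul, inv_mul_cancel, map_one]
    rfl
  have hinv' : ∀ (k : ι) (x : V k), ρ k g (ρ k g⁻¹ x) = x := by
    intro k x
    rw [← Module.End.mul_apply, ← map_mul, mul_inv_cancel, map_one]
    rfl
  obtain ⟨c', hc'⟩ := comm_scalar (h.alt i) (h.nondeg i) (Q := Q) (fun a => by
    obtain ⟨X, hX, hX1⟩ := h.proj_full i a a
    have h1 := hT' _ (h.conj g X hX)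
    have h2 := hT' X hX
    rw [← hX1]
    ext x
    rw [Module.End.mul_apply, Module.End.mul_apply, hQa, hQa]
    have h3 : ρ i g (X i x) = (ρ i g * X i * ρ i g⁻¹) (ρ i g x) := by
      rw [Module.End.mul_apply, Module.End.mul_apply, hinv]
    rw [h3, h1, Module.End.mul_apply, Module.End.mul_apply, hinv]
    apply T.injective
    rw [h2, LinearEquiv.apply_symm_apply, LinearEquiv.apply_symm_apply])
  refine ⟨c', fun x => ?_⟩
  have h1 := hc' x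
  rw [hQa] at h1
  have h2 := congrArg T h1
  rw [LinearEquiv.apply_symm_apply, map_smul] at h2
  have h3 := congrArg (ρ j g) h2
  rw [hinv', map_smul] at h3
  exact h3

/-- Ideals. -/
theorem ideal {i j : ι} {X : ∀ i, Module.End K (V i)} (hX : X ∈ 𝔤) (hXj : X j = 0)
    (hXi : X i ≠ 0) (u v : V i) : ∃ Y ∈ 𝔤, Y i = SS (B i) u v ∧ Y j = 0 := by
  have h0 : X i ∈ (𝔤 ⊓ LinearMap.ker (LinearMap.proj (R := K)
      (φ := fun i => Module.End K (V i)) j)).map (LinearMap.proj (R := K)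
      (φ := fun i => Module.End K (V i)) i) := ⟨X, ⟨hX, hXj⟩, rfl⟩
  have h1 : SS (B i) u v ∈ (𝔤 ⊓ LinearMap.ker (LinearMap.proj (R := K)
      (φ := fun i => Module.End K (V i)) j)).map (LinearMap.proj (R := K)
      (φ := fun i => Module.End K (V i)) i) := by
    refine ideal_full (A := X i) (h.alt i) (h.nondeg i) ?_ ?_ h0 hXi u v
    · rintro _ ⟨Y, ⟨hY, -⟩, rfl⟩
      exact h.sk Y hY i
    · rintro a b _ ⟨Y, ⟨hY, hYj⟩, rfl⟩
      obtain ⟨Z, hZ, hZ1⟩ := h.proj_full i a b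
      refine ⟨Z * Y - Y * Z, ⟨h.br Z hZ Y hY, ?_⟩, ?_⟩
      · have h2 : Y j = 0 := hYj
        change Z j * Y j - Y j * Z j = 0
        rw [h2, mul_zero, zero_mul, sub_zero]
      · change Z i * Y i - Y i * Z i = _
        rw [hZ1]
        rfl
  obtain ⟨Y, ⟨hY, hYj⟩, hYi⟩ := h1
  exact ⟨Y, hY, hYi, hYj⟩

theorem pair {i j : ι} (hij : i ≠ j) (u v : V i) : ∃ Y ∈ 𝔤, Y i = SS (B i) u v ∧ Y j = 0 := by
  by_cases h1 : ∃ X ∈ 𝔤, X j = 0 ∧ X i ≠ 0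
  · obtain ⟨X, hX, hXj, hXi⟩ := h1
    exact h.ideal hX hXj hXi u v
  · push Not at h1
    exfalso
    by_cases h2 : ∃ X ∈ 𝔤, X i = 0 ∧ X j ≠ 0
    · obtain ⟨X, hX, hXi, hXj⟩ := h2
      obtain ⟨n, hn, -, hn0⟩ := h.exists_sq i
      have h3 : n j ∈ (𝔤 ⊓ LinearMap.ker (LinearMap.proj (R := K)
          (φ := fun i => Module.End K (V i)) i)).map (LinearMap.proj (R := K)
          (φ := fun i => Module.End K (V i)) j) := by
        refine sk_mem (h.alt j) (h.nondeg j) (fun a b => ?_) (h.sk n hn j)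
        obtain ⟨Y, hY, hYj, hYi⟩ := h.ideal hX hXi hXj a b
        exact ⟨Y, ⟨hY, hYi⟩, hYj⟩
      obtain ⟨Y, ⟨hY, hYi⟩, hYj⟩ := h3
      apply hn0
      have h4 : Y i = 0 := hYi
      have h5 : Y j = n j := hYj
      have h6 := h1 (n - Y) (𝔤.sub_mem hn hY) (by rw [Pi.sub_apply, h5, sub_self])
      rwa [Pi.sub_apply, h4, sub_zero] at h6
    · push Not at h2
      exact h.not_graph hij h2 h1

theorem many [DecidableEq ι] (i : ι) (J : Finset ι) (hJ : i ∉ J) (u v : V i) :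
    ∃ Y ∈ 𝔤, Y i = SS (B i) u v ∧ ∀ j ∈ J, Y j = 0 := by
  induction J using Finset.induction_on generalizing u v with
  | empty =>
    obtain ⟨Y, hY, hY1⟩ := h.proj_full i u v
    exact ⟨Y, hY, hY1, fun j hj => absurd hj (Finset.notMem_empty j)⟩
  | insert j J hjJ ih =>
    have hij : i ≠ j := by
      rintro rfl
      exact hJ (Finset.mem_insert_self _ _)
    have hiJ : i ∉ J := fun h' => hJ (Finset.mem_insert_of_mem h')
    by_cases hu : u = 0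
    · subst hu
      exact ⟨0, 𝔤.zero_mem, by rw [SS_zero_left]; rfl, fun _ _ => rfl⟩
    obtain ⟨a, ha⟩ := exists_one (h.alt i) (h.nondeg i) hu
    obtain ⟨X, hX, hXi, hXJ⟩ := ih hiJ u u
    obtain ⟨Y, hY, hYi, hYj⟩ := h.pair hij a v
    obtain ⟨Z, hZ, hZi, hZj⟩ := h.pair hij a a
    set W := Y - (2⁻¹ * B i v u) • Z with hW
    have hWg : W ∈ 𝔤 := 𝔤.sub_mem hY (𝔤.smul_mem _ hZ)
    have hWi : W i = mv (B i) a v u := by
      rw [hW, Pi.sub_apply, Pi.smul_apply, hYi, hZi, mv]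
    have hWj : W j = 0 := by
      rw [hW, Pi.sub_apply, Pi.smul_apply, hYj, hZj, smul_zero, sub_zero]
    refine ⟨(2⁻¹ : K) • (W * X - X * W), 𝔤.smul_mem _ (h.br W hWg X hX), ?_, ?_⟩
    · change (2⁻¹ : K) • (W i * X i - X i * W i) = _
      rw [hXi, br_SS (h.sk W hWg i), hWi, mv_apply ha, SS_comm (B i) v u, ← two_smul K, smul_smul,
        inv_mul_cancel₀ two_ne_zero, one_smul]
    · intro k hk
      change (2⁻¹ : K) • (W k * X k - X k * W k) = 0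
      rcases Finset.mem_insert.1 hk with rfl | hk
      · rw [hWj, mul_zero, zero_mul, sub_zero, smul_zero]
      · rw [hXJ k hk, mul_zero, zero_mul, sub_zero, smul_zero]

/-- **The Lie algebra contains the symplectic Lie algebras.** -/
theorem single_mem [Fintype ι] [DecidableEq ι] (i : ι) (u v : V i) :
    (Pi.single i (SS (B i) u v) : ∀ i, Module.End K (V i)) ∈ 𝔤 := by
  obtain ⟨Y, hY, hYi, hYj⟩ := h.many i (Finset.univ.erase i) (Finset.notMem_erase _ _) u v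
  have h1 : Y = Pi.single i (SS (B i) u v) := by
    funext j
    by_cases hj : j = i
    · subst hj
      rw [Pi.single_eq_same, hYi]
    · rw [Pi.single_eq_of_ne hj, hYj j (Finset.mem_erase.2 ⟨hj, Finset.mem_univ _⟩)]
  rw [← h1]
  exact hY

end LieFam

end Pool.Agent.V11219.Gk
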