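import Mathlib
import Pool.Agent.V11219.GkLie
import Pool.Agent.V11219.GkCount

/-!
# Lie algebras with several symplectic projections and another component
-/

set_option linter.unusedSectionVars false

namespace Pool.Agent.V11219.Gk

open Module Pool.Agent.W528.Odd Pool.Agent.Y126.OT Pool.Agent.TH118.SG
open Pool.Agent.H204R3.SP (SS SS_apply SS_comm)

variable {K Γ : Type} [Field K] [CharZero K] [IsAlgClosed K] [Group Γ] {ι : Type}
  {V : ι → Type} [∀ i, AddCommGroup (V i)] [∀ i, Module K (V i)]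
  [∀ i, FiniteDimensional K (V i)] {U : Type} [AddCommGroup U] [Module K U]
  [FiniteDimensional K U] {μ : ι → Γ →* K} {ρ : ∀ i, Representation K Γ (V i)}
  {B : ∀ i, V i →ₗ[K] V i →ₗ[K] K} {τ : Representation K Γ U} {C : U →ₗ[K] U →ₗ[K] K}
  {G : Submodule K ((∀ i, Module.End K (V i)) × Module.End K U)}

/-- `d` is a defect of `n` on `V i`. -/
def BDefect (G : Submodule K ((∀ i, Module.End K (V i)) × Module.End K U)) (i : ι)
    (n : ∀ i, Module.End K (V i)) (d : ℕ) : Prop :=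
  d = rk (n i) ∨ ∃ n' ∈ G, n' * n' = 0 ∧ ∃ l : K, l ≠ 0 ∧
    d = finrank K ((n i * n'.1 i).maxGenEigenspace l)

/-- A Lie algebra stable under the group. -/
structure BigFam (μ : ι → Γ →* K) (ρ : ∀ i, Representation K Γ (V i))
    (B : ∀ i, V i →ₗ[K] V i →ₗ[K] K) (τ : Representation K Γ U) (C : U →ₗ[K] U →ₗ[K] K)
    (G : Submodule K ((∀ i, Module.End K (V i)) × Module.End K U)) : Prop where
  alt : ∀ i v, B i v v = 0
  nondeg : ∀ i v, (∀ w, B i v w = 0) → v = 0
  act : ∀ i g v w, B i (ρ i g v) (ρ i g w) = μ i g * B i v w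
  alt' : ∀ v, C v v = 0
  nondeg' : ∀ v, (∀ w, C v w = 0) → v = 0
  irreducible : ∀ i, SIrr (ρ i)
  distinct : ∀ i j, i ≠ j → ¬ ∃ T : V i ≃ₗ[K] V j, ∀ g, ∃ c : K, ∀ x,
    T (ρ i g x) = c • ρ j g (T x)
  br : ∀ X ∈ G, ∀ Y ∈ G, X * Y - Y * X ∈ G
  conj : ∀ g, ∀ X ∈ G, ((fun i => ρ i g * X.1 i * ρ i g⁻¹), τ g * X.2 * τ g⁻¹) ∈ G
  sk : ∀ X ∈ G, ∀ i, Sk (B i) (X.1 i)
  sk' : ∀ X ∈ G, Sk C X.2
  small : ∀ i, (∃ n ∈ G, n * n = 0 ∧ ((∀ p : ℕ, p.Prime → ∃ d, BDefect G i n.1 d ∧ ¬ p ∣ d) ∨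
    BDefect G i n.1 2)) ∨ ∃ n ∈ G, n * n = 0 ∧ ConjIrr (ρ i) (n.1 i) ∧
    ∀ p : ℕ, p.Prime → ∃ n' ∈ G, n' * n' = 0 ∧ ∃ d, BDefect G i n'.1 d ∧ ¬ p ∣ d
  larger : ∀ i, ∃ n ∈ G, n * n = 0 ∧
    finrank K (LinearMap.range n.2) < finrank K (LinearMap.range (n.1 i))

/-- The first projection. -/
def p1 (G : Submodule K ((∀ i, Module.End K (V i)) × Module.End K U)) :
    Submodule K (∀ i, Module.End K (V i)) :=
  G.map (LinearMap.fst K _ _)

theorem mem_p1 {X : (∀ i, Module.End K (V i)) × Module.End K U} (hX : X ∈ G) : X.1 ∈ p1 G :=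
  ⟨X, hX, rfl⟩

theorem sq_fst {X : (∀ i, Module.End K (V i)) × Module.End K U} (h : X * X = 0) :
    X.1 * X.1 = 0 := congrArg Prod.fst h

theorem BDefect.fdefect {i : ι} {n : ∀ i, Module.End K (V i)} {d : ℕ} (h : BDefect G i n d) :
    FDefect (p1 G) i n d := by
  rcases h with h | ⟨n', hn', hn2, l, hl, h⟩
  · exact Or.inl h
  · exact Or.inr ⟨n'.1, mem_p1 hn', sq_fst hn2, l, hl, h⟩

namespace BigFam

variable (h : BigFam μ ρ B τ C G)

include h

theorem lieFam : LieFam μ ρ B (p1 G) where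
  alt := h.alt
  nondeg := h.nondeg
  act := h.act
  irreducible := h.irreducible
  distinct := h.distinct
  br := by
    rintro _ ⟨X, hX, rfl⟩ _ ⟨Y, hY, rfl⟩
    exact ⟨_, h.br X hX Y hY, rfl⟩
  conj := by
    rintro g _ ⟨X, hX, rfl⟩
    exact ⟨_, h.conj g X hX, rfl⟩
  sk := by
    rintro _ ⟨X, hX, rfl⟩ i
    exact h.sk X hX i
  small := by
    intro i
    rcases h.small i with ⟨n, hn, hn2, hd⟩ | ⟨n, hn, hn2, hCI, hd⟩
    · refine Or.inl ⟨n.1, mem_p1 hn, sq_fst hn2, ?_⟩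
      rcases hd with hd | hd
      · left
        intro p hp
        obtain ⟨d, hd, hpd⟩ := hd p hp
        exact ⟨d, hd.fdefect, hpd⟩
      · exact Or.inr hd.fdefect
    · refine Or.inr ⟨n.1, mem_p1 hn, sq_fst hn2, hCI, fun p hp => ?_⟩
      obtain ⟨n', hn', hn2', d, hd, hpd⟩ := hd p hp
      exact ⟨n'.1, mem_p1 hn', sq_fst hn2', d, hd.fdefect, hpd⟩

/-- **The Lie algebra contains the symplectic Lie algebras.** -/
theorem single_mem [Fintype ι] [DecidableEq ι] (i : ι) (u v : V i) :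
    ((Pi.single i (SS (B i) u v) : ∀ i, Module.End K (V i)), (0 : Module.End K U)) ∈ G := by
  obtain ⟨n, hn, hn2, hr⟩ := h.larger i
  have h1 : ∀ a b, ∃ Y, ((Pi.single i (SS (B i) a b) : ∀ i, Module.End K (V i)), Y) ∈ G := by
    intro a b
    obtain ⟨X, hX, hX1⟩ := h.lieFam.single_mem i a b
    refine ⟨X.2, ?_⟩
    have h2 : X = (Pi.single i (SS (B i) a b), X.2) := Prod.ext hX1 rfl
    rw [← h2]
    exact hX
  let P : Module.End K (V i) × Module.End K U →ₗ[K] (∀ i, Module.End K (V i)) × Module.End K U :=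
    (LinearMap.single K (fun i => Module.End K (V i)) i).prodMap LinearMap.id
  have hP : ∀ X Y, P (X, Y) = (Pi.single i X, Y) := fun X Y => rfl
  obtain ⟨⟨X, Y⟩, hXY, hm, hne⟩ := exists_small_side (L := G.comap P) (h.alt i) (h.nondeg i) h.alt'
    h.nondeg' (h.sk n hn i) (h.sk' n hn) hr (by
      rintro ⟨X, Y⟩ hX
      have h2 : Sk (B i) ((Pi.single i X : ∀ i, Module.End K (V i)) i) := h.sk _ hX i
      rw [Pi.single_eq_same] at h2
      exact h2) (by
      rintro ⟨X, Y⟩ hX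
      exact h.sk' _ hX) (by
      intro a b
      obtain ⟨Y, hY⟩ := h1 a b
      exact ⟨(SS (B i) a b, Y), hY, rfl⟩)
  have h2 := sand_mem h.br hn hn2 (show (Pi.single i X, Y) ∈ G from hXY)
  have h3 : n * (Pi.single i X, Y) * n = (Pi.single i (n.1 i * X * n.1 i), 0) := by
    refine Prod.ext ?_ hm
    change n.1 * Pi.single i X * n.1 = Pi.single i (n.1 i * X * n.1 i)
    funext j
    by_cases hj : j = i
    · subst hj
      rw [Pi.mul_apply, Pi.mul_apply, Pi.single_eq_same, Pi.single_eq_same]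
    · rw [Pi.mul_apply, Pi.mul_apply, Pi.single_eq_of_ne hj, Pi.single_eq_of_ne hj, mul_zero,
        zero_mul]
  rw [h3] at h2
  have hG : ∀ Z, Z ∈ (G.comap P).comap (LinearMap.inl K (Module.End K (V i)) (Module.End K U)) ↔
      ((Pi.single i Z : ∀ i, Module.End K (V i)), (0 : Module.End K U)) ∈ G := fun Z => Iff.rfl
  refine (hG _).1 (ideal_full (A := n.1 i * X * n.1 i) (h.alt i) (h.nondeg i) ?_ ?_
    ((hG _).2 h2) hne u v)
  · intro A hA
    have h4 : Sk (B i) ((Pi.single i A : ∀ i, Module.End K (V i)) i) := h.sk _ ((hG A).1 hA) i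
    rw [Pi.single_eq_same] at h4
    exact h4
  · intro a b A hA
    obtain ⟨W, hW⟩ := h1 a b
    have h4 := h.br _ hW _ ((hG A).1 hA)
    refine (hG _).2 ?_
    have h5 : ((Pi.single i (SS (B i) a b) : ∀ i, Module.End K (V i)), W) *
        ((Pi.single i A : ∀ i, Module.End K (V i)), (0 : Module.End K U)) -
        ((Pi.single i A : ∀ i, Module.End K (V i)), (0 : Module.End K U)) *
        ((Pi.single i (SS (B i) a b) : ∀ i, Module.End K (V i)), W) =
        ((Pi.single i (SS (B i) a b * A - A * SS (B i) a b) : ∀ i, Module.End K (V i)), 0) := by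
      refine Prod.ext ?_ ?_
      · change (Pi.single i (SS (B i) a b) : ∀ i, Module.End K (V i)) * Pi.single i A -
          Pi.single i A * Pi.single i (SS (B i) a b) =
          (Pi.single i (SS (B i) a b * A - A * SS (B i) a b) : ∀ i, Module.End K (V i))
        rw [← Pi.single_mul, ← Pi.single_mul, ← Pi.single_sub]
      · change W * 0 - 0 * W = 0
        rw [mul_zero, zero_mul, sub_zero]
    rw [← h5]
    exact h4

end BigFam

end Pool.Agent.V11219.Gk
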