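import Mathlib

/-!
# Symplectic pieces with local conditions and arbitrary representations: definitions
-/

namespace Pool.Agent.V11219.Sm

open Module

section One

variable {K V Γ : Type} [Field K] [AddCommGroup V] [Module K V] [Group Γ]

/-- Every subspace stable under a subgroup of finite index is `0` or `V`. -/
def StronglyIrreducible (ρ : Representation K Γ V) : Prop :=
  ∀ Δ : Subgroup Γ, Δ.FiniteIndex → ∀ U : Submodule K V, (∀ g ∈ Δ, ∀ x ∈ U, ρ g x ∈ U) →
    U = ⊥ ∨ U = ⊤

/-- The number `d` is a *defect* of `g`: the rank of `g - 1`, or the (algebraic) multiplicity of a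
nonzero eigenvalue of `(g - 1) (g' - 1)`, for an element `g'` of the set `N` with
`(g' - 1) ^ 2 = 0`. -/
def IsDefect (ρ : Representation K Γ V) (N : Set Γ) (g : Γ) (d : ℕ) : Prop :=
  d = finrank K (LinearMap.range (ρ g - 1)) ∨ ∃ g' ∈ N, (ρ g' - 1) * (ρ g' - 1) = 0 ∧
    ∃ a : K, a ≠ 0 ∧ d = finrank K (Module.End.maxGenEigenspace ((ρ g - 1) * (ρ g' - 1)) a)

/-- There is an element `g` of `N` with `(g - 1) ^ 2 = 0` whose defects have no common prime factor
or contain the number two. -/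
def Unipotent (ρ : Representation K Γ V) (N : Set Γ) : Prop :=
  ∃ g ∈ N, (ρ g - 1) * (ρ g - 1) = 0 ∧
    ((∀ p : ℕ, p.Prime → ∃ d, IsDefect ρ N g d ∧ ¬ p ∣ d) ∨ IsDefect ρ N g 2)

/-- Numbers `a` with multiplicities `m a` (the eigenvalues of an operator) are *isolated* with
respect to a group `Λ` of numbers: they are divided into two nonempty sets, `S` and its complement,
both stable under `α ↦ α⁻¹`, such that for `α` in `S` and `β` in the complement `β / α` is not in
`Λ`, at least one of `α`, `β` has multiplicity one, `β / α` is the quotient of no other pair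
except the dual pair, and geometric progressions of length three with the quotient
`β / α` are self-dual, with outer terms of multiplicity one. -/
def Isolated (Λ : Subgroup Kˣ) (m : K → ℕ) : Prop :=
  ∃ S : Set K, (∃ α ∈ S, m α ≠ 0) ∧ (∃ β ∉ S, m β ≠ 0) ∧ (∀ α, m α ≠ 0 → (α ∈ S ↔ α⁻¹ ∈ S)) ∧
    ∀ α ∈ S, ∀ β ∉ S, m α ≠ 0 → m β ≠ 0 →
      (∀ l ∈ Λ, (l : K) ≠ β * α⁻¹) ∧ (m α = 1 ∨ m β = 1) ∧
      (∀ α', m α' ≠ 0 → m (α' * (β * α⁻¹)) ≠ 0 → α' = α ∨ α' * β = 1) ∧
      ∀ α', m α' ≠ 0 → m (α' * (β * α⁻¹)) ≠ 0 → m (α' * (β * α⁻¹) * (β * α⁻¹)) ≠ 0 →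
        m α' = 1 ∧ α' * (α' * (β * α⁻¹) * (β * α⁻¹)) = 1

/-- Some element of the group is *hyperbolic*: it has two eigenvalues whose quotient is not a root of
unity. The element `g` has finite order and its eigenvalues are isolated with respect to `Λ`. -/
def FiniteIsolated (ρ : Representation K Γ V) (Λ : Subgroup Kˣ) (g : Γ) : Prop :=
  (∃ F : Γ, ∃ x y : V, x ≠ 0 ∧ y ≠ 0 ∧ ∃ a b : K, ρ F x = a • x ∧ ρ F y = b • y ∧
    ∀ k : ℕ, 0 < k → a ^ k ≠ b ^ k) ∧ (∃ k : ℕ, 0 < k ∧ ρ g ^ k = 1) ∧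
  Isolated Λ fun a => finrank K (Module.End.eigenspace (ρ g) a)

/-- All eigenvalues of `f` belong to `Λ`. -/
def EigenvaluesIn (Λ : Subgroup Kˣ) (f : V →ₗ[K] V) : Prop :=
  ∀ (a : K) (z : V), z ≠ 0 → f z = a • z → ∃ l ∈ Λ, (l : K) = a

end One

variable {K Γ : Type} [Field K] [Group Γ] {ι : Type} {V : ι → Type} [∀ i, AddCommGroup (V i)]
  [∀ i, Module K (V i)] {M : Type} [AddCommGroup M] [Module K M]

/-- The elements of `Γ` which act trivially on `M` and on the `V j` with `j ≠ i`. -/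
def trivialOn (ρ : ∀ i, Representation K Γ (V i)) (σ : Representation K Γ M) (i : ι) : Set Γ :=
  {g | σ g = 1 ∧ ∀ j, j ≠ i → ρ j g = 1}

/-- The elements of `Γ` whose eigenvalues on `M` and on the `V j` with `j ≠ i` belong to `Λ`. -/
def eigenvaluesIn (ρ : ∀ i, Representation K Γ (V i)) (σ : Representation K Γ M) (i : ι)
    (Λ : Subgroup Kˣ) : Set Γ :=
  {g | EigenvaluesIn Λ (σ g) ∧ ∀ j, j ≠ i → EigenvaluesIn Λ (ρ j g)}

/-- The forms `B i` on `V i` are nondegenerate and alternating, and respected by the group `Γ` up to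
the character `μ i`; the representations `V i` are strongly irreducible; for every `i`, there is an
element `g` with `μ i g = 1` which is unipotent on `V i` with `(g - 1) ^ 2 = 0` and coprime defects
and acts trivially on `M` and on the other `V j`; or which has finite order on `V i` and whose
eigenvalues on `V i` are isolated with respect to a group of numbers which contains its eigenvalues on
`M` and on the other `V j`. -/
structure LocalFamily (μ : ι → Γ →* K) (ρ : ∀ i, Representation K Γ (V i))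
    (B : ∀ i, V i →ₗ[K] V i →ₗ[K] K) (σ : Representation K Γ M) : Prop where
  alt : ∀ i v, B i v v = 0
  nondeg : ∀ i v, (∀ w, B i v w = 0) → v = 0
  act : ∀ i g v w, B i (ρ i g v) (ρ i g w) = μ i g * B i v w
  irreducible : ∀ i, StronglyIrreducible (ρ i)
  cond : ∀ i, Unipotent (ρ i) {g | μ i g = 1 ∧ g ∈ trivialOn ρ σ i} ∨
    ∃ Λ, ∃ g ∈ eigenvaluesIn ρ σ i Λ, μ i g = 1 ∧ FiniteIsolated (ρ i) Λ g

/-- `f` is a linear combination of maps of the form
`x ↦ (∏ l, B (c l) (x (e (l, 0)) (c l)) (x (e (l, 1)) (c l))) • w`, where the `e (l, 0)`, `e (l, 1)`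
are the pairs of a perfect matching of the set `S`, and `w` is an element of `M` with
`g w = (∏ l, μ (c l) g) w` for the elements `g` of `Δ`. -/
def ClassesSplit (μ : ι → Γ →* K) (B : ∀ i, V i →ₗ[K] V i →ₗ[K] K) (σ : Representation K Γ M)
    {S : Type} (Δ : Subgroup Γ) (f : MultilinearMap K (fun _ : S => ∀ i, V i) M) : Prop :=
  f ∈ Submodule.span K {h : MultilinearMap K (fun _ : S => ∀ i, V i) M |
    ∃ (m : ℕ) (e : Fin m × Fin 2 ≃ S) (c : Fin m → ι) (w : M),
      (∀ g ∈ Δ, σ g w = (∏ l, μ (c l) g) • w) ∧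
      ∀ x, h x = (∏ l, B (c l) (x (e (l, 0)) (c l)) (x (e (l, 1)) (c l))) • w}

end Pool.Agent.V11219.Sm
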