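import Mathlib
import Pool.Agent.V11219.SmDefs

/-!
# Symplectic pieces and another representation: comparison of unipotent ranks (definitions)
-/

namespace Pool.Agent.V11219.Gk

open Module

section One

variable {K V Γ : Type} [Field K] [AddCommGroup V] [Module K V] [Group Γ]

/-- The form `B` on `V` is nondegenerate and alternating, and respected by the group `Γ` up to the
character `χ`. -/
structure IsSymplectic (χ : Γ →* K) (ρ : Representation K Γ V) (B : V →ₗ[K] V →ₗ[K] K) :
    Prop where
  alt : ∀ v, B v v = 0
  nondeg : ∀ v, (∀ w, B v w = 0) → v = 0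
  act : ∀ g v w, B (ρ g v) (ρ g w) = χ g * B v w

/-- The representations are isomorphic up to scalars. -/
def IsoUpToScalars {W : Type} [AddCommGroup W] [Module K W] (ρ : Representation K Γ V)
    (τ : Representation K Γ W) : Prop :=
  ∃ T : V ≃ₗ[K] W, ∀ g, ∃ c : K, ∀ x, T (ρ g x) = c • τ g (T x)

/-- For an element `g` of `N` the rank of `g - 1` on `W` is smaller than the rank of `g - 1` on
`V`. -/
def SmallerRank {W : Type} [AddCommGroup W] [Module K W] (τ : Representation K Γ W)
    (ρ : Representation K Γ V) (N : Set Γ) : Prop :=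
  ∃ g ∈ N, finrank K (LinearMap.range (τ g - 1)) < finrank K (LinearMap.range (ρ g - 1))

/-- The set `N` contains an element `g` whose defects have no common prime factor or contain the
number two; or the conjugates of an element of `N` act irreducibly on `V`, and the defects of all the
elements of `N` have no common prime factor. -/
def SmallDefects (ρ : Representation K Γ V) (N : Set Γ) : Prop :=
  (∃ g ∈ N, (∀ p : ℕ, p.Prime → ∃ d, Sm.IsDefect ρ N g d ∧ ¬ p ∣ d) ∨ Sm.IsDefect ρ N g 2) ∨
  ((∃ g ∈ N, ∀ W : Submodule K V, (∀ h : Γ, ∀ x ∈ W, ρ (h * g * h⁻¹) x ∈ W) → W = ⊥ ∨ W = ⊤) ∧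
    ∀ p : ℕ, p.Prime → ∃ g ∈ N, ∃ d, Sm.IsDefect ρ N g d ∧ ¬ p ∣ d)

end One

variable {K Γ : Type} [Field K] [Group Γ] {ι : Type} {V : ι → Type} [∀ i, AddCommGroup (V i)]
  [∀ i, Module K (V i)] {U : Type} [AddCommGroup U] [Module K U] {M : Type} [AddCommGroup M]
  [Module K M]

/-- The elements `g` of `Γ` which act trivially on `M` and with `(g - 1) ^ 2 = 0` on `U` and on the
`V i`, and with trivial multipliers. -/
def quadratic (μ : ι → Γ →* K) (ρ : ∀ i, Representation K Γ (V i)) (ν : Γ →* K)
    (τ : Representation K Γ U) (σ : Representation K Γ M) : Set Γ :=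
  {g | σ g = 1 ∧ (∀ i, μ i g = 1 ∧ (ρ i g - 1) * (ρ i g - 1) = 0) ∧ ν g = 1 ∧
    (τ g - 1) * (τ g - 1) = 0}

/-- The forms `B i` on `V i` and `C` on `U` are nondegenerate and alternating, and respected by the
group `Γ` up to the characters `μ i` and `ν`; the representations `V i` are strongly irreducible, and
no two of them are isomorphic up to scalars; for every `i`, the set `quadratic` of the unipotent
elements of `Γ` satisfies `SmallDefects` on `V i`, and contains an element `g` for which the rank of
`g - 1` on `U` is smaller than the rank of `g - 1` on `V i`. -/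
structure SemistableFamily (μ : ι → Γ →* K) (ρ : ∀ i, Representation K Γ (V i))
    (B : ∀ i, V i →ₗ[K] V i →ₗ[K] K) (ν : Γ →* K) (τ : Representation K Γ U)
    (C : U →ₗ[K] U →ₗ[K] K) (σ : Representation K Γ M) : Prop where
  symplectic : ∀ i, IsSymplectic (μ i) (ρ i) (B i)
  symplectic' : IsSymplectic ν τ C
  irreducible : ∀ i, Sm.StronglyIrreducible (ρ i)
  distinct : ∀ i j, i ≠ j → ¬ IsoUpToScalars (ρ i) (ρ j)
  small : ∀ i, SmallDefects (ρ i) (quadratic μ ρ ν τ σ)
  larger : ∀ i, SmallerRank τ (ρ i) (quadratic μ ρ ν τ σ)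

/-- The action of `g` on the multilinear maps `h` from `U` to `M`: the map
`y ↦ g (h (g⁻¹ y))`. -/
def coefMap (τ : Representation K Γ U) (σ : Representation K Γ M) (S : Type) (g : Γ) :
    MultilinearMap K (fun _ : S => U) M →ₗ[K] MultilinearMap K (fun _ : S => U) M where
  toFun h := (σ g).compMultilinearMap (h.compLinearMap fun _ => τ g⁻¹)
  map_add' _ _ := MultilinearMap.ext fun _ => map_add (σ g) _ _
  map_smul' _ _ := MultilinearMap.ext fun _ => map_smul (σ g) _ _

theorem coefMap_one (τ : Representation K Γ U) (σ : Representation K Γ M) (S : Type) :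
    coefMap τ σ S 1 = 1 := by
  ext h y
  simp [coefMap]

theorem coefMap_mul (τ : Representation K Γ U) (σ : Representation K Γ M) (S : Type) (g g' : Γ) :
    coefMap τ σ S (g * g') = coefMap τ σ S g * coefMap τ σ S g' := by
  ext h y
  simp [coefMap, mul_inv_rev]

/-- The action on the multilinear maps from `U` to `M`. -/
def coef (τ : Representation K Γ U) (σ : Representation K Γ M) (S : Type) :
    Representation K Γ (MultilinearMap K (fun _ : S => U) M) where
  toFun := coefMap τ σ S
  map_one' := coefMap_one τ σ S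
  map_mul' := coefMap_mul τ σ S

end Pool.Agent.V11219.Gk
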