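import Pool.Agent.TH118.SG.Defs

/-!
# Finite inertia with isolated eigenvalue quotients: definitions
-/

open CategoryTheory AlgebraicGeometry

universe u

namespace Pool.Agent.V11219.IsoF

open Pool.Agent.TH125.Gal Pool.Agent.TH118.SG
open Pool.Agent.H914 Pool.Agent.H914.VarClass Pool.Agent.H914.VarClass.Obj
  Pool.Agent.H914.WeilCohomology Pool.Agent.H281R3.HT Pool.Agent.W552

/-- Numbers `a` with multiplicities `m a` (the eigenvalues of an operator) are *isolated* with
respect to a group `Λ` of numbers: they are divided into two nonempty sets, `S` and its complement,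
both stable under `α ↦ α⁻¹`, such that for `α` in `S` and `β` in the complement `β / α` is not in
`Λ`, at least one of `α`, `β` has multiplicity one, `β / α` is the quotient of no other pair
except the dual pair, and geometric progressions of length three with the quotient
`β / α` are self-dual, with outer terms of multiplicity one. -/
def Isolated {K : Type} [Field K] (Λ : Subgroup Kˣ) (m : K → ℕ) : Prop :=
  ∃ S : Set K, (∃ α ∈ S, m α ≠ 0) ∧ (∃ β ∉ S, m β ≠ 0) ∧ (∀ α, m α ≠ 0 → (α ∈ S ↔ α⁻¹ ∈ S)) ∧
    ∀ α ∈ S, ∀ β ∉ S, m α ≠ 0 → m β ≠ 0 →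
      (∀ l ∈ Λ, (l : K) ≠ β * α⁻¹) ∧ (m α = 1 ∨ m β = 1) ∧
      (∀ α', m α' ≠ 0 → m (α' * (β * α⁻¹)) ≠ 0 → α' = α ∨ α' * β = 1) ∧
      ∀ α', m α' ≠ 0 → m (α' * (β * α⁻¹)) ≠ 0 → m (α' * (β * α⁻¹) * (β * α⁻¹)) ≠ 0 →
        m α' = 1 ∧ α' * (α' * (β * α⁻¹) * (β * α⁻¹)) = 1

section Alg

variable {K : Type} [Field K] {A : Type} [Ring A] [Algebra K A] {Γ : Type} [Group Γ]

/-- All eigenvalues of `g` belong to `Λ`. -/
def EigenvaluesIn (Λ : Subgroup Kˣ) (ρ : Γ →* (A ≃ₐ[K] A)) (g : Γ) : Prop :=
  ∀ a : K, (∃ z, z ≠ 0 ∧ ρ g z = a • z) → ∃ l ∈ Λ, (l : K) = a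

/-- `g` acts on `T` with finite order and its eigenvalues are isolated with respect to `Λ`. -/
def IsolatedAct (Λ : Subgroup Kˣ) (T : Submodule K A) (ρ : Γ →* (A ≃ₐ[K] A)) (g : Γ) : Prop :=
  (∃ k : ℕ, 0 < k ∧ ∀ t ∈ T, ρ (g ^ k) t = t) ∧
    Isolated Λ fun a => Module.finrank K (eigT T ρ g a)

end Alg

variable {k : Type u} [Field k] {𝒱 : VarClass k} {ops : CycleOps 𝒱}
  {W : WeilCohomology.{u, 0} ops} {Γ : Type} [Group Γ] {χ : Γ →* W.Kˣ}

/-- `g` acts on the transcendental cohomology of `X i` with finite order and such that its eigenvalues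
are isolated with respect to a group `Λ` of numbers which contains all eigenvalues of `g` on the
cohomology of `Z` and of the other `X j`; and some element of `Γ` has two eigenvalues on the
transcendental cohomology of `X i` whose quotient is not a root of unity. -/
def IsolatedElement {ι : Type} (X : ι → GVar W Γ) (Z : GVar W Γ) (i : ι) (g : Γ) : Prop :=
  HyperbolicAct (transcendental W (X i).X) (X i).act ∧ ∃ Λ : Subgroup W.Kˣ,
    IsolatedAct Λ (transcendental W (X i).X) (X i).act g ∧ EigenvaluesIn Λ Z.act g ∧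
    ∀ j, j ≠ i → EigenvaluesIn Λ (X j).act g

/-- `g` acts on the transcendental cohomology of `X i` by a unipotent map of rank at most two, or with
finite order and small codimension (and then some element of `Γ` is hyperbolic), and acts trivially on
the cohomology of `Z` and of the other `X j`. -/
def SmallElement {ι : Type} (X : ι → GVar W Γ) (Z : GVar W Γ) (i : ι) (g : Γ) : Prop :=
  (UnipAct (transcendental W (X i).X) (X i).act g ∨
    (SmallAct (transcendental W (X i).X) (X i).act g ∧
      HyperbolicAct (transcendental W (X i).X) (X i).act)) ∧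
  TrivAct Z.act g ∧ ∀ j, j ≠ i → TrivAct (X j).act g

/-- `Γ` acts on the cohomology of the odd-dimensional varieties `X i` like a Galois group; their
transcendental cohomology is in the middle degree and irreducible under all subgroups of finite
index; numerical and homological equivalence coincide for them; for every `i` there is an element
`g` of `Γ` with `χ g = 1` of one of the two kinds. -/
structure InertiaFamily (χ : Γ →* W.Kˣ) {ι : Type} (X : ι → GVar W Γ) (Z : GVar W Γ) :
    Prop where
  odd : ∀ i, Odd (X i).X.dim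
  galois : ∀ i, IsGaloisAct χ (W.gr (X i).X) (X i).X.dim (W.tr (X i).X)
    (algClasses W (X i).X) (X i).act
  homEqNum : ∀ i, HomEqNum W (X i).X
  middle : ∀ i, transcendental W (X i).X ≤ W.gr (X i).X (X i).X.dim
  irreducible : ∀ i, IrredAct (X i).act (transcendental W (X i).X)
  inertia : ∀ i, ∃ g : Γ, χ g = 1 ∧ (IsolatedElement X Z i g ∨ SmallElement X Z i g)

end Pool.Agent.V11219.IsoF
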