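import Mathlib
import Pool.Agent.TH118.SG.Group
import Pool.Agent.V11219.FinIn
import Pool.Agent.V11219.IsoDefs

/-!
# Elements of finite order with isolated eigenvalue ratios: the symplectic Lie algebra
-/

set_option linter.unusedSectionVars false

namespace Pool.Agent.V11219.IsoF

open Module Finset Function Pool.Agent.TH125.Gal Pool.Agent.TH118.IS Pool.Agent.TH118.SG
open Pool.Agent.H204R3.SP Pool.Agent.H204R3.GP Pool.Agent.W522.U Pool.Agent.TH118.CU
open Pool.Agent.TH118.CR (avg)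

section skew

variable {K : Type} [Field K] [CharZero K] [IsAlgClosed K] {X : Type} [AddCommGroup X]
  [Module K X] [FiniteDimensional K X] {Γ : Type} [Group Γ] {R : Representation K Γ X}
  {χ : Γ →* K} {γ : Γ} {k : ℕ} {ω : X →ₗ[K] X →ₗ[K] K}

/-- A skew operator which multiplies the eigenvalues by `ν` has square zero if all chains are
self-dual. -/
theorem sq_zero_skew (halt : ∀ v, ω v v = 0) (hωR : ∀ g u v, ω (R g u) (R g v) = χ g * ω u v)
    (hk : 0 < k) (hγ : R γ ^ k = 1) (hnd : ∀ u, (∀ v, ω u v = 0) → u = 0) {N : End K X} {ν : K}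
    (hN : ∀ α u, u ∈ eig R γ ⊤ α → N u ∈ eig R γ ⊤ (α * ν))
    (hsk : ∀ u w, ω (N u) w + ω u (N w) = 0)
    (h : ∀ α, eig R γ ⊤ α ≠ ⊥ → eig R γ ⊤ (α * ν) ≠ ⊥ → eig R γ ⊤ (α * ν * ν) ≠ ⊥ →
      finrank K (eig R γ ⊤ α) = 1 ∧ α * (α * ν * ν) = χ γ) : N * N = 0 := by
  have hγU : ∀ u ∈ (⊤ : Submodule K X), R γ u ∈ (⊤ : Submodule K X) :=
    fun u _ => Submodule.mem_top
  apply LinearMap.ext
  intro u
  rw [Module.End.mul_apply, LinearMap.zero_apply]
  have hu : u ∈ part R γ ⊤ Set.univ := by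
    rw [part_univ hk hγ hγU]
    exact Submodule.mem_top
  rw [part] at hu
  induction hu using Submodule.iSup_induction' with
  | mem α u hu =>
    by_cases h0 : N u = 0
    · rw [h0, map_zero]
    have hu0 : u ≠ 0 := by
      rintro rfl
      exact h0 (map_zero _)
    have h1 : eig R γ ⊤ (α : K) ≠ ⊥ := by
      intro h2
      rw [h2, Submodule.mem_bot] at hu
      exact hu0 hu
    have h3 := hN _ u hu
    have h2 : eig R γ ⊤ (α * ν) ≠ ⊥ := by
      intro h2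
      apply h0
      rwa [h2, Submodule.mem_bot] at h3
    have h4 := hN _ _ h3
    by_cases h5 : eig R γ ⊤ (α * ν * ν) = ⊥
    · rwa [h5, Submodule.mem_bot] at h4
    obtain ⟨h6, h7⟩ := h α h1 h2 h5
    refine zero_of_dual hωR hk hγ hγU (fun u _ hv => hnd u fun v => hv v Submodule.mem_top) h4
      fun β hβ w hw => ?_
    have h8 : β = α := by
      have h9 : α * ν * ν * (β - α) = 0 := by linear_combination hβ - h7
      exact sub_eq_zero.1 ((mul_eq_zero.1 h9).resolve_left (eig_ne h5))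
    subst h8
    obtain ⟨c, hc⟩ := (finrank_eq_one_iff_of_nonzero' (⟨u, hu⟩ : eig R γ ⊤ _)
      (fun h => hu0 (congrArg Subtype.val h))).1 h6 ⟨w, hw⟩
    have hc' : c • u = w := congrArg Subtype.val hc
    have h9 := hsk (N u) u
    rw [halt, add_zero] at h9
    rw [← hc', map_smul, h9, smul_zero]
  | zero => rw [map_zero, map_zero]
  | add u v _ _ h1 h2 => rw [map_add, map_add, h1, h2, add_zero]

end skew

variable {K : Type} [Field K] [CharZero K] [IsAlgClosed K] {T : Type} [AddCommGroup T]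
  [Module K T] [FiniteDimensional K T] {E : Type} [AddCommGroup E] [Module K E]
  [FiniteDimensional K E] {S : Type} [Fintype S] [DecidableEq S] {G : Type} [Group G]
  {B : T →ₗ[K] T →ₗ[K] K} {ρ : G →* (T →ₗ[K] T)} {σ : G →* (E →ₗ[K] E)} {χ : G →* K}

/-- All eigenvalues of `f` belong to the group `Λ`. -/
def EigIn {M : Type} [AddCommGroup M] [Module K M] (Λ : Subgroup Kˣ) (f : End K M) : Prop :=
  ∀ (a : K) (z : M), z ≠ 0 → f z = a • z → ∃ l ∈ Λ, (l : K) = a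

theorem EigIn.gen {Λ : Subgroup Kˣ} {f : End K E} (h : EigIn Λ f) {a : K}
    (ha : f.maxGenEigenspace a ≠ ⊥) : ∃ l ∈ Λ, (l : K) = a := by
  obtain ⟨z, hz, hz0⟩ := Submodule.exists_mem_ne_zero_of_ne_bot ha
  obtain ⟨n, hn⟩ := mem_gen.1 hz
  have h1 : ∃ n : ℕ, ((f - algebraMap K (End K E) a) ^ n) z = 0 := ⟨n, hn⟩
  classical
  have h2 := Nat.find_spec h1
  set m := Nat.find h1 with hm
  have hm0 : m ≠ 0 := by
    intro h0
    rw [h0, pow_zero, Module.End.one_apply] at h2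
    exact hz0 h2
  obtain ⟨m', hm'⟩ := Nat.exists_eq_succ_of_ne_zero hm0
  have h3 : ((f - algebraMap K (End K E) a) ^ m') z ≠ 0 := by
    intro h3
    have h4 := Nat.find_min' h1 h3
    rw [← hm, hm'] at h4
    omega
  refine h a _ h3 ?_
  rw [hm', Nat.succ_eq_add_one, pow_succ', Module.End.mul_apply, LinearMap.sub_apply,
    Module.algebraMap_end_apply, sub_eq_zero] at h2
  exact h2

/-- If `Λ` contains the eigenvalues of `f`, operators with `f Q = ν Q f` are zero for `ν` not in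
`Λ`. -/
theorem EigIn.zero {Λ : Subgroup Kˣ} {f : End K E} (h : EigIn Λ f) {ν : K}
    (hν : ∀ l ∈ Λ, (l : K) ≠ ν) {Q : End K E} (hQ : f * Q = ν • (Q * f)) : Q = 0 := by
  refine op_ext f fun a z hz => ?_
  rw [LinearMap.zero_apply]
  by_contra hne
  have hz0 : f.maxGenEigenspace a ≠ ⊥ := by
    intro h0
    rw [h0, Submodule.mem_bot] at hz
    rw [hz, map_zero] at hne
    exact hne rfl
  have h1 : Q z ∈ f.maxGenEigenspace (ν * a) := by
    obtain ⟨n, hn⟩ := mem_gen.1 hz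
    refine mem_gen.2 ⟨n, ?_⟩
    have h2 : ∀ n : ℕ, ∀ z, ((f - algebraMap K (End K E) (ν * a)) ^ n) (Q z) =
        ν ^ n • Q (((f - algebraMap K (End K E) a) ^ n) z) := by
      intro n
      induction n with
      | zero => intro z; simp
      | succ n ih =>
        intro z
        have h3 := congrArg (fun q : End K E => q z) hQ
        simp only [Module.End.mul_apply, LinearMap.smul_apply] at h3
        rw [pow_succ, Module.End.mul_apply, LinearMap.sub_apply, h3, Module.algebraMap_end_apply,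
          mul_smul, ← smul_sub, map_smul, ← map_smul Q a z, ← map_sub, ih, pow_succ ν,
          pow_succ (f - algebraMap K (End K E) a), Module.End.mul_apply, LinearMap.sub_apply,
          Module.algebraMap_end_apply, smul_smul, mul_comm ν]
    rw [h2, hn, map_zero, smul_zero]
  have h2 : f.maxGenEigenspace (ν * a) ≠ ⊥ := by
    intro h0
    rw [h0, Submodule.mem_bot] at h1
    exact hne h1
  obtain ⟨l, hl, hla⟩ := h.gen hz0
  obtain ⟨l', hl', hla'⟩ := h.gen h2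
  refine hν (l' * l⁻¹) (Λ.mul_mem hl' (Λ.inv_mem hl)) ?_
  rw [Units.val_mul, hla', ← hla, mul_assoc, Units.mul_inv, mul_one]

/-- The eigenvectors of the conjugation by `γ` are in the Lie algebra, if the eigenvalue is not a
quotient of eigenvalues on the other factor. -/
theorem LL_of_Lnu' (hB : ∀ g x y, B (ρ g x) (ρ g y) = χ g * B x y) {γ : G} {Λ : Subgroup Kˣ}
    (hσ : EigIn Λ (σ γ)) {ν : K} (hν : ∀ l ∈ Λ, (l : K) ≠ ν) {N : End K T}
    (hN : N ∈ Lnu (R := ρ) (LP S B ρ σ) γ ν) : N ∈ LL S B ρ σ := by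
  obtain ⟨c, Y', h⟩ := mem_LP.1 hN.1
  have hσ1 : σ γ⁻¹ * σ γ = 1 := by rw [← map_mul, inv_mul_cancel, map_one]
  let C : End K (End K E) := LinearMap.mulLeft K (σ γ) ∘ₗ LinearMap.mulRight K (σ γ⁻¹)
  have hC : ∀ Q, C Q = σ γ * Q * σ γ⁻¹ := fun Q => by
    change σ γ * (Q * σ γ⁻¹) = _
    rw [mul_assoc]
  have h2 : ρ γ * N * ρ γ⁻¹ = ν • N := by
    apply LinearMap.ext
    intro x
    rw [Module.End.mul_apply, Module.End.mul_apply, hN.2, rinv, LinearMap.smul_apply]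
  have hpow : ∀ n : ℕ, (ν ^ n • N, c, (C ^ n) Y') ∈ PP S B ρ σ := by
    intro n
    induction n with
    | zero => simpa using h
    | succ n ih =>
      have h3 := PP_conj hB ih γ
      rw [mul_smul_comm, smul_mul_assoc, h2, smul_smul, ← pow_succ, ← hC,
        ← Module.End.mul_apply, ← pow_succ'] at h3
      exact h3
  have hpoly : ∀ p : Polynomial K, (p.eval ν • N, p.eval 1 * c, (Polynomial.aeval C p) Y') ∈
      PP S B ρ σ := by
    intro p
    induction p using Polynomial.induction_on' with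
    | add p q hp hq =>
      have h3 := Submodule.add_mem _ hp hq
      rw [Prod.mk_add_mk, Prod.mk_add_mk] at h3
      rw [Polynomial.eval_add, Polynomial.eval_add, map_add, add_smul, add_mul,
        LinearMap.add_apply]
      exact h3
    | monomial n a =>
      have h3 := Submodule.smul_mem _ a (hpow n)
      rw [Prod.smul_mk, Prod.smul_mk] at h3
      rw [Polynomial.eval_monomial, Polynomial.eval_monomial, one_pow, mul_one,
        Polynomial.aeval_monomial, mul_smul, Module.End.mul_apply, Module.algebraMap_end_apply]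
      exact h3
  have hroot : (minpoly K C).eval ν ≠ 0 := by
    intro h0
    have h3 : C.HasEigenvalue ν := Module.End.hasEigenvalue_iff_isRoot.2 h0
    obtain ⟨Q, hQ⟩ := h3.exists_hasEigenvector
    apply hQ.2
    refine hσ.zero hν ?_
    have h4 := hQ.apply_eq_smul
    rw [hC] at h4
    have h5 : σ γ * Q = σ γ * Q * σ γ⁻¹ * σ γ := by rw [mul_assoc (σ γ * Q), hσ1, mul_one]
    rw [h5, h4, smul_mul_assoc]
  have hν1 : ν ≠ 1 := fun h1 => hν 1 Λ.one_mem (by rw [h1, Units.val_one])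
  have h3 := hpoly ((Polynomial.X - Polynomial.C 1) * minpoly K C)
  rw [map_mul, minpoly.aeval, mul_zero, LinearMap.zero_apply, Polynomial.eval_mul,
    Polynomial.eval_mul, Polynomial.eval_sub, Polynomial.eval_sub, Polynomial.eval_X,
    Polynomial.eval_C, Polynomial.eval_X, Polynomial.eval_C, sub_self, zero_mul, zero_mul] at h3
  have h4 := Submodule.smul_mem _ ((ν - 1) * (minpoly K C).eval ν)⁻¹ (LL_of_PP h3)
  rwa [smul_smul, inv_mul_cancel₀ (mul_ne_zero (sub_ne_zero.2 hν1) hroot), one_smul] at h4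

/-- **The whole symplectic Lie algebra.** -/
theorem iso_full (halt : ∀ v, B v v = 0) (hnd : ∀ u, (∀ v, B u v = 0) → u = 0)
    (hB : ∀ g x y, B (ρ g x) (ρ g y) = χ g * B x y) (hSI : Pool.Agent.TH125.Gal.SI ρ)
    {γ : G} (hχ : χ γ = 1) {Λ : Subgroup Kˣ} (hσ : EigIn Λ (σ γ)) {k : ℕ} (hk : 0 < k)
    (hγ : ρ γ ^ k = 1) (hiso : Isolated Λ fun a => finrank K (Module.End.eigenspace (ρ γ) a))
    (F : G) {u v : T} (hu0 : u ≠ 0) (hv0 : v ≠ 0) {al be : K}
    (hu : ρ F u = al • u) (hv : ρ F v = be • v) (hab : ∀ k : ℕ, 0 < k → al ^ k ≠ be ^ k)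
    (x y : T) : Pool.Agent.H204R3.SP.SS B x y ∈ LL S B ρ σ := by
  have hX := SI_conv ⟨u, hu0⟩ hSI
  have heig : ∀ α, eig (X := T) ρ γ ⊤ α = Module.End.eigenspace (ρ γ) α := fun α => top_inf_eq _
  have hee : (fun a => finrank K (Module.End.eigenspace (ρ γ) a)) =
      fun a => finrank K (eig (X := T) ρ γ ⊤ a) := by
    funext α
    rw [heig α]
  rw [hee] at hiso
  obtain ⟨A, hA, hB', hdual, h1⟩ := hiso
  simp only [ne_eq, Submodule.finrank_eq_zero] at hA hB' hdual h1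
  have hγU : ∀ u ∈ (⊤ : Submodule K T), ρ γ u ∈ (⊤ : Submodule K T) :=
    fun u _ => Submodule.mem_top
  have hγU' : ∀ u ∈ (⊤ : Submodule K T), ρ γ⁻¹ u ∈ (⊤ : Submodule K T) :=
    fun u _ => Submodule.mem_top
  have hndE : ∀ u ∈ (⊤ : Submodule K T), (∀ v ∈ (⊤ : Submodule K T), B u v = 0) → u = 0 :=
    fun u _ hv => hnd u fun v => hv v Submodule.mem_top
  have hfd : ∀ α : K, α ≠ 0 →
      finrank K (eig (X := T) ρ γ ⊤ α⁻¹) = finrank K (eig (X := T) ρ γ ⊤ α) := by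
    intro α hα
    have h2 := finrank_dual (R := ρ) (χ := χ) hB hk hγ hγU hndE hα
    rwa [hχ, one_mul] at h2
  -- the rank
  have hrk : ∀ α ∈ A, ∀ β ∉ A, eig (X := T) ρ γ ⊤ α ≠ ⊥ → eig (X := T) ρ γ ⊤ β ≠ ⊥ →
      ∀ Q : End K T,
      (finrank K ((part (X := T) ρ γ ⊤ A).map (avg (X := T) ρ γ k (β * α⁻¹) Q)) ≤ 1 ∧
      finrank K ((part (X := T) ρ γ ⊤ Aᶜ).map (avg (X := T) ρ γ k (β * α⁻¹) Q)) ≤ 1) ∧
      (finrank K ((part (X := T) ρ γ ⊤ A).map (avg (X := T) ρ γ k (α * β⁻¹) Q)) ≤ 1 ∧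
      finrank K ((part (X := T) ρ γ ⊤ Aᶜ).map (avg (X := T) ρ γ k (α * β⁻¹) Q)) ≤ 1) := by
    intro α hα β hβ hα0 hβ0 Q
    have hT : ∀ u ∈ (⊤ : Submodule K T), Q u ∈ (⊤ : Submodule K T) :=
      fun u _ => Submodule.mem_top
    obtain ⟨-, hl, huniq, -⟩ := h1 α hα β hβ hα0 hβ0
    have hα1 := eig_ne hα0
    have hβ1 := eig_ne hβ0
    have hαk := eig_root hγ hα0
    have hβk := eig_root hγ hβ0
    have hν : (β * α⁻¹) ^ k = 1 := by rw [mul_pow, inv_pow, hαk, hβk, inv_one, mul_one]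
    have hν' : (α * β⁻¹) ^ k = 1 := by rw [mul_pow, inv_pow, hαk, hβk, inv_one, mul_one]
    have hν0 : β * α⁻¹ ≠ 0 := mul_ne_zero hβ1 (inv_ne_zero hα1)
    have hν0' : α * β⁻¹ ≠ 0 := mul_ne_zero hα1 (inv_ne_zero hβ1)
    have hdα := hfd α hα1
    have hdβ := hfd β hβ1
    have hβA : β⁻¹ ∉ A := fun h => hβ ((hdual β hβ0).2 h)
    have hαA : α⁻¹ ∈ A := (hdual α hα0).1 hα
    have hsol : ∀ x y : K, y ≠ 0 → x * y = 1 → x = y⁻¹ := by
      intro x y hy h
      exact eq_inv_of_mul_eq_one_left h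
    have huniq' : ∀ α', eig (X := T) ρ γ ⊤ α' ≠ ⊥ → eig (X := T) ρ γ ⊤ (α' * (α * β⁻¹)) ≠ ⊥ →
        α' = β ∨ α' = α⁻¹ := by
      intro α' h2 h3
      have e3 : α' * (α * β⁻¹) * (β * α⁻¹) = α' := by field_simp
      rcases huniq (α' * (α * β⁻¹)) h3 (by rwa [e3]) with h4 | h4
      · left
        rw [← e3, h4]
        field_simp
      · right
        refine hsol _ _ hα1 ?_
        rw [← h4]
        field_simp
    refine ⟨⟨?_, ?_⟩, ?_, ?_⟩
    · refine finrank_part hγ hγU hγU' hT hν hν0 (a := α) (fun α' hα' h2 h3 => ?_) ?_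
      · rcases huniq α' h2 h3 with h4 | h4
        · exact h4
        · exact absurd hα' (by rw [hsol _ _ hβ1 h4]; exact hβA)
      · rw [show α * (β * α⁻¹) = β by field_simp]
        rcases hl with h | h
        · exact Or.inl h.le
        · exact Or.inr h.le
    · refine finrank_part hγ hγU hγU' hT hν hν0 (a := β⁻¹) (fun α' hα' h2 h3 => ?_) ?_
      · rcases huniq α' h2 h3 with h4 | h4
        · exact absurd (by rw [h4]; exact hα) hα'
        · exact hsol _ _ hβ1 h4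
      · rw [show β⁻¹ * (β * α⁻¹) = α⁻¹ by field_simp, hdα, hdβ]
        rcases hl with h | h
        · exact Or.inr h.le
        · exact Or.inl h.le
    · refine finrank_part hγ hγU hγU' hT hν' hν0' (a := α⁻¹) (fun α' hα' h2 h3 => ?_) ?_
      · rcases huniq' α' h2 h3 with h4 | h4
        · exact absurd hα' (by rw [h4]; exact hβ)
        · exact h4
      · rw [show α⁻¹ * (α * β⁻¹) = β⁻¹ by field_simp, hdα, hdβ]
        rcases hl with h | h
        · exact Or.inl h.le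
        · exact Or.inr h.le
    · refine finrank_part hγ hγU hγU' hT hν' hν0' (a := β) (fun α' hα' h2 h3 => ?_) ?_
      · rcases huniq' α' h2 h3 with h4 | h4
        · exact h4
        · exact absurd (by rw [h4]; exact hαA) hα'
      · rw [show β * (α * β⁻¹) = α by field_simp]
        rcases hl with h | h
        · exact Or.inr h.le
        · exact Or.inl h.le
  obtain ⟨Y, hY, hYn⟩ := exists_PP (S := S) (σ := σ) (μ := χ) hB F hu0 hv0 hu hv hab
  have hconjP : ∀ g : G, ∀ Y ∈ LP S B ρ σ, ρ g * Y * ρ g⁻¹ ∈ LP S B ρ σ :=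
    fun g Y hY => LP_conj (μ := χ) hB g Y hY
  obtain ⟨α, hα, β, hβ, hα0, hβ0, Y, hY, hor⟩ := split' (R := ρ) hX (LP S B ρ σ)
    hconjP (fun Y _ u _ => Submodule.mem_top)
    ⟨Y, hY, fun ⟨c, hc⟩ => hYn ⟨c, fun x => hc x Submodule.mem_top⟩⟩ hk hγ hγU hγU' A hA hB'
    (fun α hα β hβ h2 h3 Q _ P hP => by
      have h4 := hrk α hα β hβ h2 h3 Q
      rcases hP with rfl | rfl
      · exact ⟨h4.1.1, h4.2.1⟩
      · exact ⟨h4.1.2, h4.2.2⟩)
  have hα1 := eig_ne hα0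
  have hβ1 := eig_ne hβ0
  have hαk := eig_root hγ hα0
  have hβk := eig_root hγ hβ0
  have hν : (β * α⁻¹) ^ k = 1 := by rw [mul_pow, inv_pow, hαk, hβk, inv_one, mul_one]
  have hν' : (α * β⁻¹) ^ k = 1 := by rw [mul_pow, inv_pow, hαk, hβk, inv_one, mul_one]
  have hν0 : β * α⁻¹ ≠ 0 := mul_ne_zero hβ1 (inv_ne_zero hα1)
  have hν0' : α * β⁻¹ ≠ 0 := mul_ne_zero hα1 (inv_ne_zero hβ1)
  have hne1 := (h1 α hα β hβ hα0 hβ0).1
  have hne1' : ∀ l ∈ Λ, (l : K) ≠ α * β⁻¹ := by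
    intro l hl h
    refine hne1 l⁻¹ (Λ.inv_mem hl) ?_
    rw [Units.val_inv_eq_inv_val, h, mul_inv, inv_inv, mul_comm]
  have h4 := hrk α hα β hβ hα0 hβ0 Y
  have hch := (h1 α hα β hβ hα0 hβ0).2.2.2
  have hconj : ∀ g : G, ∀ Y ∈ LL S B ρ σ, ρ g * Y * ρ g⁻¹ ∈ LL S B ρ σ := by
    intro g Y hY
    have h1 := LL_conj (μ := χ) hB hY g
    exact h1
  have hbr : ∀ Y ∈ LL S B ρ σ, ∀ Z ∈ LL S B ρ σ, Y * Z - Z * Y ∈ LL S B ρ σ :=
    fun Y hY Z hZ => LL_bracket hY hZ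
  have hsp : ∀ Y ∈ LL S B ρ σ, ∀ u w, B (Y u) w + B u (Y w) = 0 := fun Y hY u w => hY.1 u w
  have htwo : ∀ ν : K,
      finrank K ((part (X := T) ρ γ ⊤ A).map (avg (X := T) ρ γ k ν Y)) ≤ 1 →
      finrank K ((part (X := T) ρ γ ⊤ Aᶜ).map (avg (X := T) ρ γ k ν Y)) ≤ 1 →
      finrank K ((⊤ : Submodule K T).map (avg (X := T) ρ γ k ν Y)) ≤ 2 := by
    intro ν h2 h3
    have h5 : (⊤ : Submodule K T).map (avg (X := T) ρ γ k ν Y) ≤
        (part (X := T) ρ γ ⊤ A).map (avg (X := T) ρ γ k ν Y) ⊔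
        (part (X := T) ρ γ ⊤ Aᶜ).map (avg (X := T) ρ γ k ν Y) := by
      rintro _ ⟨u, hu, rfl⟩
      obtain ⟨a, ha, b, hb, rfl⟩ := Submodule.mem_sup.1 (sup_part (A := A) hk hγ hγU hu)
      rw [map_add]
      exact Submodule.add_mem_sup (Submodule.mem_map_of_mem ha) (Submodule.mem_map_of_mem hb)
    have h6 := Submodule.finrank_mono h5
    have h7 := Submodule.finrank_add_le_finrank_add_finrank
      ((part (X := T) ρ γ ⊤ A).map (avg (X := T) ρ γ k ν Y))
      ((part (X := T) ρ γ ⊤ Aᶜ).map (avg (X := T) ρ γ k ν Y))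
    omega
  have main : ∀ ν : K, ν ^ k = 1 → ν ≠ 0 → (∀ l ∈ Λ, (l : K) ≠ ν) →
      (∃ u ∈ (⊤ : Submodule K T), avg (X := T) ρ γ k ν Y u ≠ 0) →
      finrank K ((part (X := T) ρ γ ⊤ A).map (avg (X := T) ρ γ k ν Y)) ≤ 1 →
      finrank K ((part (X := T) ρ γ ⊤ Aᶜ).map (avg (X := T) ρ γ k ν Y)) ≤ 1 →
      (∀ α, eig (X := T) ρ γ ⊤ α ≠ ⊥ → eig (X := T) ρ γ ⊤ (α * ν) ≠ ⊥ →
        eig (X := T) ρ γ ⊤ (α * ν * ν) ≠ ⊥ →
        finrank K (eig (X := T) ρ γ ⊤ α) = 1 ∧ α * (α * ν * ν) = χ γ) →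
      Pool.Agent.H204R3.SP.SS B x y ∈ LL S B ρ σ := by
    intro ν hν hν0 hν1 hne h2 h3 h
    have hLnu := avg_Lnu (R := ρ) (L := LP S B ρ σ) hconjP hγ hν hν0 hY
    have hN : avg (X := T) ρ γ k ν Y ∈ LL S B ρ σ := LL_of_Lnu' hB hσ hν1 hLnu
    refine full_of_N (R := ρ) (χ := χ) halt hnd hB hconj hbr hsp hX hN ?_ ?_ (htwo ν h2 h3) x y
    · exact sq_zero_skew (R := ρ) (χ := χ) halt hB hk hγ hnd (fun α u hu => Lnu_maps hLnu hu)
        (hsp _ hN) h
    · intro h0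
      obtain ⟨u, -, hu⟩ := hne
      apply hu
      rw [h0, LinearMap.zero_apply]
  have hch' : ∀ α', eig (X := T) ρ γ ⊤ α' ≠ ⊥ → eig (X := T) ρ γ ⊤ (α' * (β * α⁻¹)) ≠ ⊥ →
      eig (X := T) ρ γ ⊤ (α' * (β * α⁻¹) * (β * α⁻¹)) ≠ ⊥ →
      finrank K (eig (X := T) ρ γ ⊤ α') = 1 ∧ α' * (α' * (β * α⁻¹) * (β * α⁻¹)) = χ γ := by
    intro α' h5 h6 h7
    rw [hχ]
    exact hch α' h5 h6 h7
  rcases hor with hor | hor
  · exact main _ hν hν0 hne1 hor h4.1.1 h4.1.2 hch'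
  · refine main _ hν' hν0' hne1' hor h4.2.1 h4.2.2 ?_
    have h8 := dualChain_inv (R := ρ) (χ := χ) hB hk hγ hγU hndE hν0 hch'
    rwa [mul_inv, inv_inv, mul_comm β⁻¹] at h8

end Pool.Agent.V11219.IsoF
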