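import Mathlib
import Pool.Agent.V11219.SmDefs
import Pool.Agent.V11219.IsoFull
import Pool.Agent.V11219.QuadFull

/-!
# The action on multilinear maps and the Lie algebras
-/

set_option linter.unusedSectionVars false

namespace Pool.Agent.V11219.Sm

open Module Function Finset

section mult

variable {K : Type} [Field K] [CharZero K] {Γ : Type} [Group Γ] {U : Type} [AddCommGroup U]
  [Module K U]
  {M : Type} [AddCommGroup M] [Module K M]

/-- The action on the multilinear maps. -/
noncomputable def actM (r : Representation K Γ U) (σ : Representation K Γ M) (S : Type) :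
    Representation K Γ (MultilinearMap K (fun _ : S => U) M) where
  toFun g :=
    { toFun := fun h => (σ g).compMultilinearMap (h.compLinearMap fun _ => r g⁻¹)
      map_add' := fun h h' => by
        ext y
        simp
      map_smul' := fun a h => by
        ext y
        simp }
  map_one' := by
    ext h y
    simp
  map_mul' g g' := by
    ext h y
    simp [mul_inv_rev]

theorem actM_apply (r : Representation K Γ U) (σ : Representation K Γ M) {S : Type} (g : Γ)
    (h : MultilinearMap K (fun _ : S => U) M) (y : S → U) :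
    actM r σ S g h y = σ g (h fun s => r g⁻¹ (y s)) := rfl

theorem rep_inv (r : Representation K Γ U) (g : Γ) (x : U) : r g (r g⁻¹ x) = x := by
  rw [← Module.End.mul_apply, ← map_mul, mul_inv_cancel, map_one]
  rfl

theorem rep_inv' (r : Representation K Γ U) (g : Γ) (x : U) : r g⁻¹ (r g x) = x := by
  rw [← Module.End.mul_apply, ← map_mul, inv_mul_cancel, map_one]
  rfl

/-- The span of the generalized eigenvectors. -/
theorem span_gen [IsAlgClosed K] [FiniteDimensional K U] (f : End K U) :
    ⊤ ≤ Submodule.span K {v : U | ∃ (l : K) (n : ℕ), ((f - algebraMap K (End K U) l) ^ n) v = 0} := by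
  rw [← Module.End.iSup_maxGenEigenspace_eq_top f, iSup_le_iff]
  intro l v hv
  obtain ⟨n, hn⟩ := Pool.Agent.TH118.SG.mem_gen.1 hv
  exact Submodule.subset_span ⟨l, n, hn⟩

theorem exists_gen [IsAlgClosed K] [FiniteDimensional K U] (f : End K U) {S : Type} [Fintype S]
    {h : MultilinearMap K (fun _ : S => U) M} (hh : h ≠ 0) :
    ∃ (y : S → U) (l : S → K) (n : S → ℕ),
      (∀ s, ((f - algebraMap K (End K U) (l s)) ^ (n s)) (y s) = 0) ∧ h y ≠ 0 := by
  classical
  by_contra hcon
  push Not at hcon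
  apply hh
  refine Module.Basis.ext_multilinear (fun _ => Module.Basis.ofSpan (span_gen f)) fun v => ?_
  have h1 : ∀ s, ∃ (l : K) (n : ℕ), ((f - algebraMap K (End K U) l) ^ n)
      (Module.Basis.ofSpan (span_gen f) (v s)) = 0 := by
    intro s
    exact Module.Basis.ofSpan_subset (span_gen f) ⟨v s, rfl⟩
  choose l n hln using h1
  rw [zero_apply]
  exact hcon _ l n hln

/-- The eigenvalues on multilinear maps. -/
theorem eig_actM [IsAlgClosed K] [FiniteDimensional K U] {r : Representation K Γ U}
    {σ : Representation K Γ M} {S : Type} [Fintype S] {Λ : Subgroup Kˣ} {g : Γ}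
    (hU : EigenvaluesIn Λ (r g)) (hM : EigenvaluesIn Λ (σ g)) :
    EigenvaluesIn Λ (actM r σ S g) := by
  classical
  intro a h hh hg
  have hg' : ∀ y : S → U, σ g (h y) = a • h fun s => r g (y s) := by
    intro y
    have h1 := congrArg (fun q : MultilinearMap K (fun _ : S => U) M => q fun s => r g (y s)) hg
    simp only [actM_apply, rep_inv', smul_apply] at h1
    exact h1
  have hex : ∃ N : ℕ, ∃ (y : S → U) (l : S → K) (n : S → ℕ), ∑ s, n s = N ∧
      (∀ s, ((r g - algebraMap K (End K U) (l s)) ^ (n s)) (y s) = 0) ∧ h y ≠ 0 := by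
    obtain ⟨y, l, n, h1, h2⟩ := exists_gen (r g) hh
    exact ⟨_, y, l, n, rfl, h1, h2⟩
  obtain ⟨y, l, n, hn, hy, hhy⟩ := Nat.find_spec hex
  have hmin : ∀ (y : S → U) (l : S → K) (n : S → ℕ), ∑ s, n s < Nat.find hex →
      (∀ s, ((r g - algebraMap K (End K U) (l s)) ^ (n s)) (y s) = 0) → h y = 0 := by
    intro y l n hlt h1
    by_contra h2
    exact Nat.find_min hex hlt ⟨y, l, n, rfl, h1, h2⟩
  have hy0 : ∀ s, y s ≠ 0 := fun s h0 => hhy (h.map_coord_zero s h0)
  have hn0 : ∀ s, n s ≠ 0 := by
    intro s h0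
    have h1 := hy s
    rw [h0, pow_zero, Module.End.one_apply] at h1
    exact hy0 s h1
  set y' : S → U := fun s => (r g - algebraMap K (End K U) (l s)) (y s) with hy'
  have hy'n : ∀ s, ((r g - algebraMap K (End K U) (l s)) ^ (n s - 1)) (y' s) = 0 := by
    intro s
    have h1 := hy s
    rw [← Nat.sub_add_cancel (Nat.one_le_iff_ne_zero.2 (hn0 s)), pow_succ,
      Module.End.mul_apply] at h1
    exact h1
  have hsplit : (fun s => r g (y s)) = (fun s => l s • y s) + y' := by
    funext s
    rw [Pi.add_apply, hy']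
    simp only [LinearMap.sub_apply, Module.algebraMap_end_apply]
    abel
  have hprod : h (fun s => r g (y s)) = (∏ s, l s) • h y := by
    rw [hsplit, MultilinearMap.map_add_univ, Finset.sum_eq_single univ]
    · rw [Finset.piecewise_univ, MultilinearMap.map_smul_univ]
    · intro T _ hT
      refine hmin _ l (T.piecewise n fun s => n s - 1) ?_ fun s => ?_
      · rw [← hn]
        obtain ⟨s, hs⟩ : ∃ s, s ∉ T := by
          by_contra hcon
          push Not at hcon
          exact hT (Finset.eq_univ_iff_forall.2 hcon)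
        refine Finset.sum_lt_sum (fun s _ => ?_) ⟨s, Finset.mem_univ _, ?_⟩
        · by_cases hs : s ∈ T
          · rw [Finset.piecewise_eq_of_mem _ _ _ hs]
          · rw [Finset.piecewise_eq_of_notMem _ _ _ hs]
            exact Nat.sub_le _ _
        · rw [Finset.piecewise_eq_of_notMem _ _ _ hs]
          have := hn0 s
          omega
      · by_cases hs : s ∈ T
        · rw [Finset.piecewise_eq_of_mem _ _ _ hs, Finset.piecewise_eq_of_mem _ _ _ hs, map_smul,
            hy, smul_zero]
        · rw [Finset.piecewise_eq_of_notMem _ _ _ hs, Finset.piecewise_eq_of_notMem _ _ _ hs]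
          exact hy'n s
    · intro h1
      exact absurd (Finset.mem_univ _) h1
  have hl : ∀ s, ∃ u ∈ Λ, (u : K) = l s := by
    intro s
    refine IsoF.EigIn.gen (Λ := Λ) (f := r g) hU fun h0 => hy0 s ?_
    rw [← Submodule.mem_bot K, ← h0]
    exact Pool.Agent.TH118.SG.mem_gen.2 ⟨n s, hy s⟩
  choose u hu hul using hl
  obtain ⟨w, hw, hwa⟩ := hM (a * ∏ s, l s) (h y) hhy (by rw [hg', hprod, smul_smul])
  refine ⟨w * (∏ s, u s)⁻¹, Λ.mul_mem hw (Λ.inv_mem (Subgroup.prod_mem _ fun s _ => hu s)), ?_⟩
  have h1 : ((∏ s, u s : Kˣ) : K) = ∏ s, l s := by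
    rw [Units.coe_prod]
    exact Finset.prod_congr rfl fun s _ => hul s
  rw [Units.val_mul, hwa, ← h1, mul_assoc, Units.mul_inv, mul_one]

end mult

section family

variable {K : Type} [Field K] [CharZero K] [IsAlgClosed K] {Γ : Type} [Group Γ] {ι : Type}
  [Fintype ι] [DecidableEq ι] {V : ι → Type} [∀ i, AddCommGroup (V i)] [∀ i, Module K (V i)]
  [∀ i, FiniteDimensional K (V i)] {M : Type} [AddCommGroup M] [Module K M]
  [FiniteDimensional K M] {μ : ι → Γ →* K} {ρ : ∀ i, Representation K Γ (V i)}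
  {B : ∀ i, V i →ₗ[K] V i →ₗ[K] K} {σ : Representation K Γ M}

/-- The action on the sum of the other pieces. -/
noncomputable def rOther (ρ : ∀ i, Representation K Γ (V i)) (i : ι) :
    Representation K Γ (∀ j : {j : ι // j ≠ i}, V j) where
  toFun g := LinearMap.pi fun j => (ρ j g) ∘ₗ LinearMap.proj j
  map_one' := by
    ext x
    simp
  map_mul' g g' := by
    ext x
    simp

theorem rOther_apply (ρ : ∀ i, Representation K Γ (V i)) (i : ι) (g : Γ)
    (x : ∀ j : {j : ι // j ≠ i}, V j) (j : {j : ι // j ≠ i}) :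
    rOther ρ i g x j = ρ j g (x j) := rfl

theorem eig_rOther {i : ι} {Λ : Subgroup Kˣ} {g : Γ}
    (h : ∀ j, j ≠ i → EigenvaluesIn Λ (ρ j g)) : EigenvaluesIn Λ (rOther ρ i g) := by
  intro a x hx hg
  obtain ⟨j, hj⟩ := Function.ne_iff.1 hx
  exact h j j.2 a (x j) hj (congrFun hg j)

/-- **The Lie algebras.** -/
theorem LocalFamily.full (h : LocalFamily μ ρ B σ) (i : ι) (S S' : Type) [Fintype S]
    [DecidableEq S] [Fintype S'] (x y : V i) : Pool.Agent.H204R3.SP.SS (B i) x y ∈
      Pool.Agent.TH125.Gal.LL S (B i) (ρ i) (actM (rOther ρ i) σ S') := by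
  rcases h.cond i with ⟨g, hg, h2, hd⟩ | ⟨Λ, g, ⟨hgM, hgj⟩, hμ, ⟨F, u, v, hu, hv, a, b, hu', hv',
    hab⟩, ⟨k, hk, hgk⟩, hiso⟩
  · refine Quad.quad_full (χ := μ i) (A := {g | μ i g = 1 ∧ g ∈ trivialOn ρ σ i}) (γ := g)
      (h.alt i) (h.nondeg i) (h.act i) (h.irreducible i) (fun g hg => hg.1) (fun g hg => ?_) hg
      h2 hd x y
    have h3 : ∀ g ∈ trivialOn ρ σ i, rOther ρ i g⁻¹ = 1 := by
      intro g hg
      have h4 : rOther ρ i g = 1 := by
        refine LinearMap.ext fun z => funext fun j => ?_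
        rw [rOther_apply, hg.2 j j.2]
        rfl
      calc rOther ρ i g⁻¹ = rOther ρ i g⁻¹ * rOther ρ i g := by rw [h4, mul_one]
        _ = 1 := by rw [← map_mul, inv_mul_cancel, map_one]
    refine LinearMap.ext fun f => MultilinearMap.ext fun z => ?_
    rw [actM_apply, h3 g hg.2, hg.2.1]
    rfl
  · exact IsoF.iso_full (χ := μ i) (γ := g) (Λ := Λ) (h.alt i) (h.nondeg i) (h.act i)
      (h.irreducible i) hμ (eig_actM (eig_rOther hgj) hgM) hk hgk hiso F hu hv hu' hv' hab x y

end family

end Pool.Agent.V11219.Sm
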