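import Mathlib
import Pool.Agent.V11219.SmAct
import Pool.Agent.TH125.Nod.Fft2

/-!
# The operators killing equivariant multilinear maps on a sum of pieces
-/

set_option linter.unusedSectionVars false

namespace Pool.Agent.V11219.Sm

open Module Function Finset

variable {K : Type} [Field K] {Γ : Type} [Group Γ] {ι : Type} [DecidableEq ι] {V : ι → Type}
  [∀ i, AddCommGroup (V i)] [∀ i, Module K (V i)] {M : Type} [AddCommGroup M] [Module K M]
  {S : Type} [Fintype S] [DecidableEq S]

/-- The inclusion of the sum of the other pieces. -/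
noncomputable def incl (V : ι → Type) [∀ i, AddCommGroup (V i)] [∀ i, Module K (V i)] (i : ι) :
    (∀ j : {j : ι // j ≠ i}, V j) →ₗ[K] ∀ j, V j :=
  LinearMap.pi fun j => if h : j ≠ i then LinearMap.proj (⟨j, h⟩ : {j : ι // j ≠ i}) else 0

theorem incl_ne {i j : ι} (h : j ≠ i) (y : ∀ j : {j : ι // j ≠ i}, V j) :
    incl (K := K) V i y j = y ⟨j, h⟩ := by
  simp [incl, h]

theorem incl_self {i : ι} (y : ∀ j : {j : ι // j ≠ i}, V j) : incl (K := K) V i y i = 0 := by
  simp [incl]

/-- The vectors: in the piece `i` at the positions labelled `i`, in the other pieces at the other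
positions. -/
noncomputable def glue (K : Type) [Field K] {V : ι → Type} [∀ i, AddCommGroup (V i)]
    [∀ i, Module K (V i)] (c : S → ι) (i : ι) (x : {s // c s = i} → V i)
    (y : {s // ¬ c s = i} → ∀ j : {j : ι // j ≠ i}, V j) : S → ∀ j, V j :=
  fun s => if hs : c s = i then Pi.single i (x ⟨s, hs⟩) else incl (K := K) V i (y ⟨s, hs⟩)

theorem glue_left (c : S → ι) (i : ι) [DecidableEq {s // c s = i}] (x : {s // c s = i} → V i)
    (y : {s // ¬ c s = i} → ∀ j : {j : ι // j ≠ i}, V j) (j : {s // c s = i}) (v : V i) :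
    glue K c i (update x j v) y = update (glue K c i x y) j.1 (Pi.single i v) := by
  funext s
  by_cases h : s = j.1
  · subst h
    rw [update_self, glue, dif_pos j.2]
    congr 1
    exact update_self j v x
  · rw [update_of_ne h, glue, glue]
    by_cases hs : c s = i
    · rw [dif_pos hs, dif_pos hs, update_of_ne]
      exact fun h' => h (congrArg Subtype.val h')
    · rw [dif_neg hs, dif_neg hs]

theorem glue_right (c : S → ι) (i : ι) [DecidableEq {s // ¬ c s = i}]
    (x : {s // c s = i} → V i)
    (y : {s // ¬ c s = i} → ∀ j : {j : ι // j ≠ i}, V j) (j : {s // ¬ c s = i})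
    (v : ∀ j : {j : ι // j ≠ i}, V j) :
    glue K c i x (update y j v) = update (glue K c i x y) j.1 (incl (K := K) V i v) := by
  funext s
  by_cases h : s = j.1
  · subst h
    rw [update_self, glue, dif_neg j.2]
    congr 1
    exact update_self j v y
  · rw [update_of_ne h, glue, glue]
    by_cases hs : c s = i
    · rw [dif_pos hs, dif_pos hs]
    · rw [dif_neg hs, dif_neg hs, update_of_ne]
      exact fun h' => h (congrArg Subtype.val h')

/-- The map as a multilinear map of the variables labelled `i`. -/
noncomputable def cur (f : MultilinearMap K (fun _ : S => ∀ j, V j) M) (c : S → ι) (i : ι) :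
    MultilinearMap K (fun _ : {s // c s = i} => V i)
      (MultilinearMap K (fun _ : {s // ¬ c s = i} => ∀ j : {j : ι // j ≠ i}, V j) M) where
  toFun x :=
    { toFun := fun y => f (glue K c i x y)
      map_update_add' := by
        intro hd y j v v'
        rw [glue_right, glue_right, glue_right, map_add, MultilinearMap.map_update_add]
      map_update_smul' := by
        intro hd y j a v
        rw [glue_right, glue_right, map_smul, MultilinearMap.map_update_smul] }
  map_update_add' := by
    intro hd x j v v'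
    ext y
    simp only [MultilinearMap.coe_mk, add_apply]
    rw [glue_left, glue_left, glue_left, Pi.single_add, MultilinearMap.map_update_add]
  map_update_smul' := by
    intro hd x j a v
    ext y
    simp only [MultilinearMap.coe_mk, smul_apply]
    rw [glue_left, glue_left, Pi.single_smul, MultilinearMap.map_update_smul]

/-- The equivariance of a map under the subgroup `Δ`. -/
def EqvOn (ρ : ∀ i, Representation K Γ (V i)) (σ : Representation K Γ M) (Δ : Subgroup Γ)
    (f : MultilinearMap K (fun _ : S => ∀ j, V j) M) : Prop :=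
  ∀ g ∈ Δ, ∀ x, f (fun s j => ρ j g (x s j)) = σ g (f x)

variable [CharZero K] [IsAlgClosed K] [Fintype ι] [∀ i, FiniteDimensional K (V i)]
  [FiniteDimensional K M] {μ : ι → Γ →* K} {ρ : ∀ i, Representation K Γ (V i)}
  {B : ∀ i, V i →ₗ[K] V i →ₗ[K] K} {σ : Representation K Γ M} {Δ : Subgroup Γ}
  {f : MultilinearMap K (fun _ : S => ∀ j, V j) M}

theorem cur_eqv (hΔ : Δ.FiniteIndex) (hf : EqvOn ρ σ Δ f) (c : S → ι) (i : ι) :
    Pool.Agent.TH125.Gal.Eqv (ρ i) (actM (rOther ρ i) σ {s // ¬ c s = i}) (cur f c i) := by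
  refine ⟨Δ, hΔ, fun g hg x => MultilinearMap.ext fun y => ?_⟩
  rw [actM_apply]
  change f (glue K c i (fun j => ρ i g (x j)) y) =
    σ g (f (glue K c i x fun s => rOther ρ i g⁻¹ (y s)))
  rw [← hf g hg]
  congr 1
  funext s j
  by_cases hs : c s = i
  · rw [glue, glue, dif_pos hs, dif_pos hs]
    by_cases hj : j = i
    · subst hj
      rw [Pi.single_eq_same, Pi.single_eq_same]
    · rw [Pi.single_eq_of_ne hj, Pi.single_eq_of_ne hj, map_zero]
  · rw [glue, glue, dif_neg hs, dif_neg hs]
    by_cases hj : j = i
    · subst hj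
      rw [incl_self, incl_self, map_zero]
    · rw [incl_ne hj, incl_ne hj, rOther_apply, rep_inv]

/-- The operators of the symplectic Lie algebra kill `f`. -/
theorem LocalFamily.kill (h : LocalFamily μ ρ B σ) (hΔ : Δ.FiniteIndex) (hf : EqvOn ρ σ Δ f)
    (c : S → ι) (i : ι) (u v : V i) (z : S → ∀ j, V j)
    (hz : ∀ s, c s = i → ∀ j, j ≠ i → z s j = 0) (hz' : ∀ s, c s ≠ i → z s i = 0) :
    ∑ s ∈ univ.filter (fun s => c s = i),
      f (update z s (Pi.single i (Pool.Agent.H204R3.SP.SS (B i) u v (z s i)))) = 0 := by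
  have h1 := (h.full i {s // c s = i} {s // ¬ c s = i} u v).2 _ (cur_eqv hΔ hf c i)
    (fun s => z s.1 i)
  have h2 := congrArg (fun q : MultilinearMap K (fun _ : {s // ¬ c s = i} =>
    ∀ j : {j : ι // j ≠ i}, V j) M => q fun s j => z s.1 j) h1
  have h3 : glue K c i (fun s => z s.1 i) (fun s j => z s.1 j) = z := by
    funext s j
    by_cases hs : c s = i
    · rw [glue, dif_pos hs]
      by_cases hj : j = i
      · subst hj
        rw [Pi.single_eq_same]
      · rw [Pi.single_eq_of_ne hj, hz s hs j hj]
    · rw [glue, dif_neg hs]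
      by_cases hj : j = i
      · subst hj
        rw [incl_self, hz' s hs]
      · rw [incl_ne hj]
  rw [_root_.sum_apply] at h2
  have h4 : ∀ s : {s // c s = i}, (cur f c i (update (fun s : {s // c s = i} => z s.1 i) s
      (Pool.Agent.H204R3.SP.SS (B i) u v (z s.1 i)))) (fun s j => z s.1 j) =
      f (update z s.1 (Pi.single i (Pool.Agent.H204R3.SP.SS (B i) u v (z s.1 i)))) := by
    intro s
    change f (glue K c i (update (fun s : {s // c s = i} => z s.1 i) s
      (Pool.Agent.H204R3.SP.SS (B i) u v (z s.1 i))) (fun s j => z s.1 j)) = _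
    rw [glue_left, h3]
  rw [Finset.sum_congr rfl fun s _ => h4 s] at h2
  rw [← Finset.sum_subtype_eq_sum_filter]
  refine Eq.trans ?_ h2
  refine Finset.sum_congr ?_ fun _ _ => rfl
  ext s
  simp

end Pool.Agent.V11219.Sm
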