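import Mathlib
import Pool.Agent.V11219.SmCur

/-!
# Equivariant multilinear maps on a sum of symplectic pieces
-/

set_option linter.unusedSectionVars false

namespace Pool.Agent.V11219.Sm

open Module Function Finset

variable {K : Type} [Field K] {Γ : Type} [Group Γ] {ι : Type} [DecidableEq ι] {V : ι → Type}
  [∀ i, AddCommGroup (V i)] [∀ i, Module K (V i)] {M : Type} [AddCommGroup M] [Module K M]
  {S : Type}

/-- The product of the values of the forms at the pairs. -/
def pr (B : ∀ i, V i →ₗ[K] V i →ₗ[K] K) {m : ℕ} (e : Fin m × Fin 2 ≃ S) (c : Fin m → ι)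
    (x : S → ∀ i, V i) : K :=
  ∏ l, B (c l) (x (e (l, 0)) (c l)) (x (e (l, 1)) (c l))

theorem pr_update [DecidableEq S] (B : ∀ i, V i →ₗ[K] V i →ₗ[K] K) {m : ℕ}
    (e : Fin m × Fin 2 ≃ S) (c : Fin m → ι) (x : S → ∀ i, V i) (s : S) :
    ∃ φ : (∀ i, V i) →ₗ[K] K, ∀ v, pr B e c (update x s v) = φ v := by
  obtain ⟨⟨l, a⟩, rfl⟩ := e.surjective s
  have h1 : ∀ v, pr B e c (update x (e (l, a)) v) =
      B (c l) (update x (e (l, a)) v (e (l, 0)) (c l)) (update x (e (l, a)) v (e (l, 1)) (c l)) *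
      ∏ l' ∈ univ.erase l, B (c l') (x (e (l', 0)) (c l')) (x (e (l', 1)) (c l')) := by
    intro v
    rw [pr, ← Finset.mul_prod_erase _ _ (Finset.mem_univ l)]
    congr 1
    refine Finset.prod_congr rfl fun l' hl' => ?_
    have h2 : ∀ b, e (l', b) ≠ e (l, a) := by
      intro b hb
      exact Finset.ne_of_mem_erase hl' (congrArg Prod.fst (e.injective hb))
    rw [update_of_ne (h2 0), update_of_ne (h2 1)]
  have h3 : e (l, 1) ≠ e (l, 0) := by
    intro h
    have h4 : (1 : Fin 2) = 0 := congrArg Prod.snd (e.injective h)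
    exact absurd h4 (by decide)
  fin_cases a
  · refine ⟨(∏ l' ∈ univ.erase l, B (c l') (x (e (l', 0)) (c l')) (x (e (l', 1)) (c l'))) •
      ((B (c l)).flip (x (e (l, 1)) (c l))) ∘ₗ LinearMap.proj (c l), fun v => ?_⟩
    rw [h1]
    simp only [Fin.zero_eta, update_self]
    rw [update_of_ne h3]
    simp [mul_comm]
  · refine ⟨(∏ l' ∈ univ.erase l, B (c l') (x (e (l', 0)) (c l')) (x (e (l', 1)) (c l'))) •
      (B (c l) (x (e (l, 0)) (c l))) ∘ₗ LinearMap.proj (c l), fun v => ?_⟩
    rw [h1]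
    simp only [Fin.mk_one, update_self]
    rw [update_of_ne h3.symm]
    simp [mul_comm]

/-- The multilinear map. -/
noncomputable def pm (B : ∀ i, V i →ₗ[K] V i →ₗ[K] K) {m : ℕ} (e : Fin m × Fin 2 ≃ S)
    (c : Fin m → ι) (w : M) : MultilinearMap K (fun _ : S => ∀ i, V i) M where
  toFun x := pr B e c x • w
  map_update_add' := by
    intro hd x s v v'
    obtain ⟨φ, hφ⟩ := pr_update B e c x s
    rw [hφ, hφ, hφ, map_add, add_smul]
  map_update_smul' := by
    intro hd x s a v
    obtain ⟨φ, hφ⟩ := pr_update B e c x s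
    rw [hφ, hφ, map_smul, smul_assoc]

theorem pm_apply (B : ∀ i, V i →ₗ[K] V i →ₗ[K] K) {m : ℕ} (e : Fin m × Fin 2 ≃ S)
    (c : Fin m → ι) (w : M) (x : S → ∀ i, V i) : pm B e c w x = pr B e c x • w := rfl

/-- The span of these maps. -/
def Sp0 (B : ∀ i, V i →ₗ[K] V i →ₗ[K] K) (S M : Type) [AddCommGroup M] [Module K M] :
    Submodule K (MultilinearMap K (fun _ : S => ∀ i, V i) M) :=
  Submodule.span K {h | ∃ (m : ℕ) (e : Fin m × Fin 2 ≃ S) (c : Fin m → ι) (w : M),
    h = pm B e c w}

/-- The sum of the forms. -/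
noncomputable def BB [Fintype ι] (B : ∀ i, V i →ₗ[K] V i →ₗ[K] K) :
    (∀ i, V i) →ₗ[K] (∀ i, V i) →ₗ[K] K :=
  ∑ i, (B i).compl₁₂ (LinearMap.proj i) (LinearMap.proj i)

theorem BB_apply [Fintype ι] (B : ∀ i, V i →ₗ[K] V i →ₗ[K] K) (x y : ∀ i, V i) :
    BB B x y = ∑ i, B i (x i) (y i) := by
  simp [BB, LinearMap.sum_apply]

theorem BB_single [Fintype ι] (B : ∀ i, V i →ₗ[K] V i →ₗ[K] K) (i : ι) (u : V i)
    (y : ∀ i, V i) : BB B (Pi.single i u) y = B i u (y i) := by
  rw [BB_apply, Finset.sum_eq_single i]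
  · rw [Pi.single_eq_same]
  · intro j _ hj
    rw [Pi.single_eq_of_ne hj, map_zero, LinearMap.zero_apply]
  · intro h
    exact absurd (Finset.mem_univ _) h

variable [CharZero K] [IsAlgClosed K] [Fintype ι] [∀ i, FiniteDimensional K (V i)]
  [FiniteDimensional K M] {μ : ι → Γ →* K} {ρ : ∀ i, Representation K Γ (V i)}
  {B : ∀ i, V i →ₗ[K] V i →ₗ[K] K} {σ : Representation K Γ M} {Δ : Subgroup Γ}
  [Fintype S] [DecidableEq S] {f : MultilinearMap K (fun _ : S => ∀ j, V j) M}

/-- The index set of the basis. -/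
abbrev JJ (K : Type) [Field K] {ι : Type} (V : ι → Type) [∀ i, AddCommGroup (V i)]
    [∀ i, Module K (V i)] : Type := Σ i : ι, Fin (finrank K (V i))

/-- The basis. -/
noncomputable def tb (K : Type) [Field K] {ι : Type} [Fintype ι] [DecidableEq ι] (V : ι → Type)
    [∀ i, AddCommGroup (V i)] [∀ i, Module K (V i)] [∀ i, FiniteDimensional K (V i)] :
    Module.Basis (JJ K V) K (∀ i, V i) :=
  Pi.basis fun i => Module.finBasis K (V i)

theorem tb_apply (a : JJ K V) : tb K V a = Pi.single a.1 (Module.finBasis K (V a.1) a.2) := by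
  rw [tb, Pi.basis_apply]

theorem tb_ne {a : JJ K V} {i : ι} (h : a.1 ≠ i) : tb K V a i = 0 := by
  rw [tb_apply, Pi.single_eq_of_ne (Ne.symm h)]

/-- The Gram matrix. -/
noncomputable def QQ (B : ∀ i, V i →ₗ[K] V i →ₗ[K] K) : Matrix (JJ K V) (JJ K V) K :=
  Matrix.of fun a b => BB B (tb K V a) (tb K V b)

theorem QQ_eq (B : ∀ i, V i →ₗ[K] V i →ₗ[K] K) {a b : JJ K V} {i : ι} (h : a.1 = i) :
    QQ B a b = B i (tb K V a i) (tb K V b i) := by
  subst h
  rw [QQ, Matrix.of_apply]
  conv_lhs => rw [tb_apply a]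
  rw [BB_single, tb_apply a, Pi.single_eq_same]

theorem QQ_ne (B : ∀ i, V i →ₗ[K] V i →ₗ[K] K) {a b : JJ K V} (h : a.1 ≠ b.1) :
    QQ B a b = 0 := by
  rw [QQ_eq B rfl, tb_ne (Ne.symm h), map_zero]

theorem LocalFamily.skew (h : LocalFamily μ ρ B σ) (i : ι) (x y : V i) :
    B i x y = - B i y x := by
  have h1 := h.alt i (x + y)
  rw [map_add, map_add, LinearMap.add_apply, LinearMap.add_apply, h.alt, h.alt, zero_add,
    add_zero] at h1
  exact eq_neg_of_add_eq_zero_right h1

theorem LocalFamily.QQ_skew (h : LocalFamily μ ρ B σ) (a b : JJ K V) :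
    QQ B a b = - QQ B b a := by
  by_cases hab : a.1 = b.1
  · rw [QQ_eq B hab, QQ_eq (a := b) B rfl, h.skew]
  · rw [QQ_ne B hab, QQ_ne B (Ne.symm hab), neg_zero]

theorem LocalFamily.BB_nondeg (h : LocalFamily μ ρ B σ) (x : ∀ i, V i)
    (hx : ∀ y, BB B x y = 0) : x = 0 := by
  funext i
  refine h.nondeg i _ fun w => ?_
  have h1 := hx (Pi.single i w)
  rw [BB_apply, Finset.sum_eq_single i] at h1
  · rwa [Pi.single_eq_same] at h1
  · intro j _ hj
    rw [Pi.single_eq_of_ne hj, map_zero]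
  · intro h
    exact absurd (Finset.mem_univ _) h

theorem LocalFamily.exists_inv (h : LocalFamily μ ρ B σ) :
    ∃ R : Matrix (JJ K V) (JJ K V) K, QQ B * R = 1 := by
  have hBnd : LinearMap.BilinForm.Nondegenerate (LinearMap.flip (BB B)) := by
    have hsk : ∀ x y, BB B x y = - BB B y x := by
      intro x y
      rw [BB_apply, BB_apply, ← Finset.sum_neg_distrib]
      exact Finset.sum_congr rfl fun i _ => h.skew i _ _
    refine ⟨fun x hx => h.BB_nondeg x fun y => ?_, fun x hx => h.BB_nondeg x fun y => hx y⟩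
    rw [hsk, show BB B y x = 0 from hx y, neg_zero]
  refine ⟨Matrix.of fun j k =>
    (tb K V).repr (LinearMap.BilinForm.dualBasis (LinearMap.flip (BB B)) hBnd (tb K V) k) j, ?_⟩
  ext i k
  rw [Matrix.mul_apply, Matrix.one_apply]
  simp only [Matrix.of_apply, QQ]
  have h1 := LinearMap.BilinForm.apply_dualBasis_left (B := LinearMap.flip (BB B)) hBnd
    (tb K V) k i
  rw [LinearMap.flip_apply] at h1
  rw [← h1]
  conv_rhs => rw [← (tb K V).sum_repr
    (LinearMap.BilinForm.dualBasis (LinearMap.flip (BB B)) hBnd (tb K V) k)]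
  rw [map_sum]
  refine Finset.sum_congr rfl fun j _ => ?_
  rw [map_smul, smul_eq_mul, mul_comm]

open Classical in
/-- The coordinates of the component of `f` with the pattern `c`. -/
noncomputable def FF (f : MultilinearMap K (fun _ : S => ∀ j, V j) M) (c : S → ι) :
    (S → JJ K V) → M :=
  fun r => if ∀ j, (r j).1 = c j then f fun j => tb K V (r j) else 0

open Pool.Agent.TH125.Nod in
theorem LocalFamily.inv (h : LocalFamily μ ρ B σ) (hΔ : Δ.FiniteIndex) (hf : EqvOn ρ σ Δ f)
    (c : S → ι) : Inv Sigma.fst (QQ B) (fun _ => (((-1 : ℤ)) : K)) (FF f c) := by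
  rintro ⟨i, u⟩ ⟨i', v⟩ hκ r
  change i = i' at hκ
  subst hκ
  by_cases hr : ∀ j, (r j).1 = c j
  · set z : S → ∀ j, V j := fun s => tb K V (r s) with hz
    have hupd : ∀ (j : S) (a : JJ K V), (fun s => tb K V (update r j a s)) =
        update z j (tb K V a) := by
      intro j a
      funext s
      by_cases hs : s = j
      · subst hs
        rw [update_self, update_self]
      · rw [update_of_ne hs, update_of_ne hs]
    have hFF : ∀ (j : S) (a : JJ K V), a.1 = c j → FF f c (update r j a) =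
        f (update z j (tb K V a)) := by
      intro j a ha
      rw [FF, if_pos, hupd]
      intro s
      by_cases hs : s = j
      · subst hs
        rw [update_self, ha]
      · rw [update_of_ne hs, hr]
    have key := h.kill hΔ hf c i (Module.finBasis K (V i) u) (Module.finBasis K (V i) v) z
      (fun s hs j hj => tb_ne (by rw [hr, hs]; exact Ne.symm hj))
      (fun s hs => tb_ne (by rw [hr]; exact hs))
    rw [← key, Finset.sum_filter]
    refine Finset.sum_congr rfl fun j _ => ?_
    by_cases hj : c j = i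
    · rw [if_pos hj, hFF j _ hj.symm, hFF j _ hj.symm, QQ_eq (i := i) B rfl,
        QQ_eq (i := i) B rfl, Pool.Agent.H204R3.SP.SS_apply, Pi.single_add, Pi.single_smul,
        Pi.single_smul, MultilinearMap.map_update_add, MultilinearMap.map_update_smul,
        MultilinearMap.map_update_smul, tb_apply ⟨i, u⟩, tb_apply ⟨i, v⟩]
      dsimp only
      rw [Pi.single_eq_same, Pi.single_eq_same, Int.cast_neg, Int.cast_one, neg_one_mul, neg_smul,
        sub_neg_eq_add, add_comm]
    · rw [if_neg hj, QQ_ne B (a := ⟨i, v⟩) (b := r j) (by rw [hr]; exact Ne.symm hj),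
        QQ_ne B (a := ⟨i, u⟩) (b := r j) (by rw [hr]; exact Ne.symm hj), zero_smul, mul_zero,
        zero_smul, sub_zero]
  · have hzero : ∀ (j : S) (a b : JJ K V), a.1 = i → b.1 = i →
        (QQ B b (r j) = 0 ∨ FF f c (update r j a) = 0) := by
      intro j a b ha hb
      by_contra hcon
      push Not at hcon
      obtain ⟨h1, h2⟩ := hcon
      apply hr
      have h3 : ∀ s, (update r j a s).1 = c s := by
        by_contra h3
        exact h2 (if_neg h3)
      intro s
      by_cases hs : s = j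
      · subst hs
        have h4 := h3 s
        rw [update_self] at h4
        rw [← h4, ha, ← hb]
        by_contra h5
        exact h1 (QQ_ne B (Ne.symm h5))
      · have h4 := h3 s
        rwa [update_of_ne hs] at h4
    refine Finset.sum_eq_zero fun j _ => ?_
    have e1 : QQ B ⟨i, v⟩ (r j) • FF f c (update r j ⟨i, u⟩) = 0 := by
      rcases hzero j ⟨i, u⟩ ⟨i, v⟩ rfl rfl with h1 | h1
      · rw [h1, zero_smul]
      · rw [h1, smul_zero]
    have e2 : QQ B ⟨i, u⟩ (r j) • FF f c (update r j ⟨i, v⟩) = 0 := by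
      rcases hzero j ⟨i, v⟩ ⟨i, u⟩ rfl rfl with h1 | h1
      · rw [h1, zero_smul]
      · rw [h1, smul_zero]
    rw [e1, mul_smul, e2, smul_zero, sub_zero]

open Pool.Agent.TH125.Nod in
theorem LocalFamily.gen (h : LocalFamily μ ρ B σ) (hΔ : Δ.FiniteIndex) (hf : EqvOn ρ σ Δ f)
    (c : S → ι) : FF f c ∈ Gen Sigma.fst (QQ B) c := by
  obtain ⟨R, hR⟩ := h.exists_inv
  refine fft (K := K) (κ := (Sigma.fst : JJ K V → ι)) (s := fun _ => (-1 : ℤ))
    (fun _ => Or.inr rfl) (fun a b hab => QQ_ne B hab) (fun a b => ?_)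
    hR (Fintype.card S) S c (FF f c) rfl (fun r hr => if_neg hr) (h.inv hΔ hf c)
    (fun i hi => absurd hi (by decide))
  rw [h.QQ_skew, Int.cast_neg, Int.cast_one, neg_one_mul]

/-- Generators come from the maps. -/
theorem exists_pm (c : S → ι) {F : (S → JJ K V) → M}
    (hF : F ∈ Pool.Agent.TH125.Nod.Gen (Sigma.fst : JJ K V → ι) (QQ B) c) :
    ∃ h ∈ Sp0 B S M, ∀ r, h (fun s => tb K V (r s)) = F r := by
  induction hF using Submodule.span_induction with
  | mem F hF =>
    obtain ⟨m, e, w, rfl⟩ := hF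
    by_cases hc : ∀ l, c (e (l, 1)) = c (e (l, 0))
    · refine ⟨pm B e (fun l => c (e (l, 0))) w, Submodule.subset_span ⟨m, e, _, w, rfl⟩,
        fun r => ?_⟩
      rw [pm_apply, Pool.Agent.TH125.Nod.gen]
      by_cases hr : ∀ j, (r j).1 = c j
      · rw [if_pos hr, pr]
        congr 1
        exact Finset.prod_congr rfl fun l _ => (QQ_eq B (hr _)).symm
      · rw [if_neg hr]
        push Not at hr
        obtain ⟨j, hj⟩ := hr
        obtain ⟨⟨l, a⟩, rfl⟩ := e.surjective j
        rw [pr, Finset.prod_eq_zero (Finset.mem_univ l), zero_smul]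
        fin_cases a
        · have h1 : (r (e (l, 0))).1 ≠ c (e (l, 0)) := hj
          rw [tb_ne h1, map_zero, LinearMap.zero_apply]
        · have h1 : (r (e (l, 1))).1 ≠ c (e (l, 0)) := by
            rw [← hc l]
            exact hj
          rw [tb_ne h1, map_zero]
    · refine ⟨0, Submodule.zero_mem _, fun r => ?_⟩
      rw [zero_apply, Pool.Agent.TH125.Nod.gen]
      by_cases hr : ∀ j, (r j).1 = c j
      · rw [if_pos hr]
        push Not at hc
        obtain ⟨l, hl⟩ := hc
        rw [Finset.prod_eq_zero (Finset.mem_univ l), zero_smul]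
        exact QQ_ne B (by rw [hr, hr]; exact Ne.symm hl)
      · rw [if_neg hr]
  | zero => exact ⟨0, Submodule.zero_mem _, fun r => rfl⟩
  | add F F' _ _ h1 h2 =>
    obtain ⟨h, hh, hr⟩ := h1
    obtain ⟨h', hh', hr'⟩ := h2
    refine ⟨h + h', Submodule.add_mem _ hh hh', fun r => ?_⟩
    rw [add_apply, hr, hr']
    rfl
  | smul a F _ h1 =>
    obtain ⟨h, hh, hr⟩ := h1
    refine ⟨a • h, Submodule.smul_mem _ a hh, fun r => ?_⟩
    rw [smul_apply, hr]
    rfl

/-- **The structure of the equivariant maps.** -/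
theorem LocalFamily.mem_Sp0 (h : LocalFamily μ ρ B σ) (hΔ : Δ.FiniteIndex)
    (hf : EqvOn ρ σ Δ f) : f ∈ Sp0 B S M := by
  have h1 : ∀ c : S → ι, ∃ h ∈ Sp0 B S M, ∀ r, h (fun s => tb K V (r s)) = FF f c r :=
    fun c => exists_pm c (h.gen hΔ hf c)
  choose H hH hHr using h1
  have h2 : f = ∑ c, H c := by
    refine Module.Basis.ext_multilinear (fun _ => tb K V) fun r => ?_
    rw [_root_.sum_apply, Finset.sum_eq_single fun s => (r s).1]
    · rw [hHr, FF, if_pos fun _ => rfl]
    · intro c _ hc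
      rw [hHr, FF, if_neg]
      intro hr
      exact hc (funext fun s => (hr s).symm)
    · intro h
      exact absurd (Finset.mem_univ _) h
  rw [h2]
  exact Submodule.sum_mem _ fun c _ => hH c

/-- A representation of `f` with `n` terms. -/
def Rep (B : ∀ i, V i →ₗ[K] V i →ₗ[K] K) (f : MultilinearMap K (fun _ : S => ∀ j, V j) M)
    (n : ℕ) : Prop :=
  ∃ (P : Fin n → Σ m : ℕ, (Fin m × Fin 2 ≃ S) × (Fin m → ι)) (w : Fin n → M),
    ∀ x, f x = ∑ k, pr B (P k).2.1 (P k).2.2 x • w k

theorem exists_rep (hf : f ∈ Sp0 B S M) : ∃ n, Rep B f n := by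
  rw [Sp0] at hf
  induction hf using Submodule.span_induction with
  | mem f hf =>
    obtain ⟨m, e, c, w, rfl⟩ := hf
    refine ⟨1, fun _ => ⟨m, e, c⟩, fun _ => w, fun x => ?_⟩
    rw [Fin.sum_univ_one]
    rfl
  | zero => exact ⟨0, fun k => k.elim0, fun k => k.elim0, fun x => by simp⟩
  | add f f' _ _ h1 h2 =>
    obtain ⟨n, P, w, h1⟩ := h1
    obtain ⟨n', P', w', h2⟩ := h2
    refine ⟨n + n', Fin.append P P', Fin.append w w', fun x => ?_⟩
    rw [add_apply, h1, h2, Fin.sum_univ_add]
    congr 1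
    · refine Finset.sum_congr rfl fun k _ => ?_
      rw [Fin.append_left, Fin.append_left]
    · refine Finset.sum_congr rfl fun k _ => ?_
      rw [Fin.append_right, Fin.append_right]
  | smul a f _ h1 =>
    obtain ⟨n, P, w, h1⟩ := h1
    refine ⟨n, P, fun k => a • w k, fun x => ?_⟩
    rw [smul_apply, h1, Finset.smul_sum]
    exact Finset.sum_congr rfl fun k _ => smul_comm _ _ _

/-- **The structure of the equivariant maps.** -/
theorem LocalFamily.split (h : LocalFamily μ ρ B σ) (hΔ : Δ.FiniteIndex)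
    (hf : EqvOn ρ σ Δ f) : ClassesSplit μ B σ Δ f := by
  classical
  have hex : ∃ n, Rep B f n := exists_rep (h.mem_Sp0 hΔ hf)
  obtain ⟨P, w, hP⟩ := Nat.find_spec hex
  have hmin : ∀ n, n < Nat.find hex → ¬ Rep B f n := fun n hn => Nat.find_min hex hn
  generalize Nat.find hex = n at *
  -- the coefficients are linearly independent
  have hli : LinearIndependent K fun k => (pr B (P k).2.1 (P k).2.2 : (S → ∀ i, V i) → K) := by
    by_contra hcon
    obtain ⟨a, ha, k, hk⟩ := Fintype.not_linearIndependent_iff.1 hcon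
    obtain _ | n := n
    · exact k.elim0
    refine hmin n (Nat.lt_succ_self n) ⟨fun j => P (k.succAbove j), fun j => w (k.succAbove j) -
      (a (k.succAbove j) / a k) • w k, fun x => ?_⟩
    rw [hP, Fin.sum_univ_succAbove _ k]
    have h1 := congrFun ha x
    rw [Fin.sum_univ_succAbove _ k, Pi.add_apply, Finset.sum_apply, Pi.zero_apply] at h1
    simp only [Pi.smul_apply, smul_eq_mul] at h1
    have h2 : pr B (P k).2.1 (P k).2.2 x = - ∑ j, (a (k.succAbove j) / a k) *
        pr B (P (k.succAbove j)).2.1 (P (k.succAbove j)).2.2 x := by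
      have h3 : a k * (pr B (P k).2.1 (P k).2.2 x + ∑ j, (a (k.succAbove j) / a k) *
          pr B (P (k.succAbove j)).2.1 (P (k.succAbove j)).2.2 x) = 0 := by
        rw [mul_add, Finset.mul_sum, ← h1]
        congr 1
        refine Finset.sum_congr rfl fun j _ => ?_
        rw [← mul_assoc, mul_div_cancel₀ _ hk]
      exact eq_neg_of_add_eq_zero_left ((mul_eq_zero.1 h3).resolve_left hk)
    rw [h2, neg_smul, Finset.sum_smul, ← sub_eq_neg_add, ← Finset.sum_sub_distrib]
    refine Finset.sum_congr rfl fun j _ => ?_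
    rw [smul_sub, smul_smul, mul_comm]
  -- the action
  have hact : ∀ g x k, pr B (P k).2.1 (P k).2.2 (fun s j => ρ j g (x s j)) =
      (∏ l, μ ((P k).2.2 l) g) * pr B (P k).2.1 (P k).2.2 x := by
    intro g x k
    rw [pr, pr, ← Finset.prod_mul_distrib]
    exact Finset.prod_congr rfl fun l _ => h.act _ _ _ _
  have hw : ∀ g ∈ Δ, ∀ k, σ g (w k) = (∏ l, μ ((P k).2.2 l) g) • w k := by
    intro g hg k
    refine (sub_eq_zero.1 ?_).symm
    refine (Module.forall_dual_apply_eq_zero_iff K _).1 fun φ => ?_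
    have h1 : ∑ k, φ ((∏ l, μ ((P k).2.2 l) g) • w k - σ g (w k)) •
        (pr B (P k).2.1 (P k).2.2 : (S → ∀ i, V i) → K) = 0 := by
      funext x
      have h2 := hf g hg x
      rw [hP, hP, map_sum] at h2
      have h3 := congrArg φ (sub_eq_zero.2 h2)
      rw [← Finset.sum_sub_distrib, map_sum, map_zero] at h3
      rw [Finset.sum_apply, Pi.zero_apply, ← h3]
      refine Finset.sum_congr rfl fun k _ => ?_
      rw [Pi.smul_apply, hact, map_smul, mul_comm, mul_smul, ← smul_sub, map_smul, smul_eq_mul,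
        smul_eq_mul, mul_comm]
    exact Fintype.linearIndependent_iff.1 hli _ h1 k
  have h2 : f = ∑ k, pm B (P k).2.1 (P k).2.2 (w k) := by
    refine MultilinearMap.ext fun x => ?_
    rw [hP, _root_.sum_apply]
    rfl
  rw [ClassesSplit, h2]
  exact Submodule.sum_mem _ fun k _ => Submodule.subset_span
    ⟨(P k).1, (P k).2.1, (P k).2.2, w k, fun g hg => hw g hg k, fun x => rfl⟩

/-- The converse. -/
theorem LocalFamily.eqv_of_split (h : LocalFamily μ ρ B σ) (hf : ClassesSplit μ B σ Δ f) :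
    EqvOn ρ σ Δ f := by
  intro g hg x
  rw [ClassesSplit] at hf
  induction hf using Submodule.span_induction with
  | mem f hf =>
    obtain ⟨m, e, c, w, hw, hx⟩ := hf
    rw [hx, hx, map_smul, hw g hg, smul_smul, mul_comm, ← Finset.prod_mul_distrib]
    congr 1
    exact Finset.prod_congr rfl fun l _ => h.act _ _ _ _
  | zero => rw [zero_apply, zero_apply, map_zero]
  | add f f' _ _ h1 h2 => rw [add_apply, add_apply, h1, h2, map_add]
  | smul a f _ h1 => rw [smul_apply, smul_apply, h1, map_smul]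

end Pool.Agent.V11219.Sm
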