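import Mathlib
import Pool.Agent.V11219.GkDefs
import Pool.Agent.V11219.GkBig
import Pool.Agent.V11219.GkFft

/-!
# Equivariant multilinear maps on symplectic pieces and another representation
-/

set_option linter.unusedSectionVars false

namespace Pool.Agent.V11219.Gk

open Module Function Finset Pool.Agent.TH125.Gal
open Pool.Agent.H204R3.SP (SS SS_apply SS_comm)

variable {K Γ : Type} [Field K] [CharZero K] [IsAlgClosed K] [Group Γ] {ι : Type} [Fintype ι]
  [DecidableEq ι] {V : ι → Type} [∀ i, AddCommGroup (V i)] [∀ i, Module K (V i)]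
  [∀ i, FiniteDimensional K (V i)] {U : Type} [AddCommGroup U] [Module K U]
  [FiniteDimensional K U] {M : Type} [AddCommGroup M] [Module K M] [FiniteDimensional K M]
  {μ : ι → Γ →* K} {ρ : ∀ i, Representation K Γ (V i)}
  {B : ∀ i, V i →ₗ[K] V i →ₗ[K] K} {ν : Γ →* K} {τ : Representation K Γ U}
  {C : U →ₗ[K] U →ₗ[K] K} {σ : Representation K Γ M}

theorem SemistableFamily.alt (h : SemistableFamily μ ρ B ν τ C σ) (i : ι) (v : V i) :
    B i v v = 0 := (h.symplectic i).alt v

theorem SemistableFamily.nondeg (h : SemistableFamily μ ρ B ν τ C σ) (i : ι) (v : V i)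
    (hv : ∀ w, B i v w = 0) : v = 0 := (h.symplectic i).nondeg v hv

theorem SemistableFamily.act (h : SemistableFamily μ ρ B ν τ C σ) (i : ι) (g : Γ) (v w : V i) :
    B i (ρ i g v) (ρ i g w) = μ i g * B i v w := (h.symplectic i).act g v w

theorem SemistableFamily.alt' (h : SemistableFamily μ ρ B ν τ C σ) (v : U) :
    C v v = 0 := h.symplectic'.alt v

theorem SemistableFamily.nondeg' (h : SemistableFamily μ ρ B ν τ C σ) (v : U)
    (hv : ∀ w, C v w = 0) : v = 0 := h.symplectic'.nondeg v hv

theorem SemistableFamily.act' (h : SemistableFamily μ ρ B ν τ C σ) (g : Γ) (v w : U) :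
    C (τ g v) (τ g w) = ν g * C v w := h.symplectic'.act g v w

/-- The operator on the whole space. -/
noncomputable def dg : ((∀ i, Module.End K (V i)) × Module.End K U) →ₗ[K]
    Module.End K ((∀ i, V i) × U) where
  toFun X := LinearMap.prodMap (LinearMap.pi fun i => X.1 i ∘ₗ LinearMap.proj i) X.2
  map_add' X Y := by
    ext x <;> rfl
  map_smul' c X := by
    ext x <;> rfl

theorem dg_apply (X : (∀ i, Module.End K (V i)) × Module.End K U) (x : (∀ i, V i) × U) :
    dg X x = ((fun i => X.1 i (x.1 i)), X.2 x.2) := rfl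

theorem dg_mul (X Y : (∀ i, Module.End K (V i)) × Module.End K U) :
    dg (X * Y) = dg X * dg Y := by
  apply LinearMap.ext
  intro x
  rfl

/-- The action on the whole space. -/
noncomputable def rT (ρ : ∀ i, Representation K Γ (V i)) (τ : Representation K Γ U) :
    Representation K Γ ((∀ i, V i) × U) where
  toFun g := dg ((fun i => ρ i g), τ g)
  map_one' := by
    apply LinearMap.ext
    intro x
    rw [dg_apply]
    refine Prod.ext (funext fun i => ?_) ?_
    · change ρ i 1 (x.1 i) = x.1 i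
      rw [map_one]
      rfl
    · change τ 1 x.2 = x.2
      rw [map_one]
      rfl
  map_mul' g g' := by
    apply LinearMap.ext
    intro x
    rw [dg_apply]
    refine Prod.ext (funext fun i => ?_) ?_
    · change ρ i (g * g') (x.1 i) = ρ i g (ρ i g' (x.1 i))
      rw [map_mul]
      rfl
    · change τ (g * g') x.2 = τ g (τ g' x.2)
      rw [map_mul]
      rfl

theorem rT_apply (g : Γ) (x : (∀ i, V i) × U) :
    rT ρ τ g x = ((fun i => ρ i g (x.1 i)), τ g x.2) := rfl

/-- The Lie algebra. -/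
noncomputable def GG (S : Type) [Fintype S] [DecidableEq S] (ρ : ∀ i, Representation K Γ (V i))
    (B : ∀ i, V i →ₗ[K] V i →ₗ[K] K) (τ : Representation K Γ U) (C : U →ₗ[K] U →ₗ[K] K)
    (σ : Representation K Γ M) : Submodule K ((∀ i, Module.End K (V i)) × Module.End K U) where
  carrier := {X | (∀ i, Sk (B i) (X.1 i)) ∧ Sk C X.2 ∧
    dg X ∈ LL S (0 : ((∀ i, V i) × U) →ₗ[K] ((∀ i, V i) × U) →ₗ[K] K) (rT ρ τ) σ}
  zero_mem' := by
    refine ⟨fun i x y => ?_, fun x y => ?_, ?_⟩
    · change B i (0 : V i) y + B i x 0 = 0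
      simp
    · change C (0 : U) y + C x 0 = 0
      simp
    · rw [map_zero]
      exact Submodule.zero_mem _
  add_mem' := by
    rintro X Y ⟨h1, h2, h3⟩ ⟨h1', h2', h3'⟩
    refine ⟨fun i x y => ?_, fun x y => ?_, ?_⟩
    · change B i (X.1 i x + Y.1 i x) y + B i x (X.1 i y + Y.1 i y) = 0
      rw [map_add, map_add, LinearMap.add_apply]
      linear_combination h1 i x y + h1' i x y
    · change C (X.2 x + Y.2 x) y + C x (X.2 y + Y.2 y) = 0
      rw [map_add, map_add, LinearMap.add_apply]
      linear_combination h2 x y + h2' x y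
    · rw [map_add]
      exact Submodule.add_mem _ h3 h3'
  smul_mem' := by
    rintro c X ⟨h1, h2, h3⟩
    refine ⟨fun i x y => ?_, fun x y => ?_, ?_⟩
    · change B i (c • X.1 i x) y + B i x (c • X.1 i y) = 0
      rw [map_smul, map_smul, LinearMap.smul_apply, smul_eq_mul, smul_eq_mul]
      linear_combination c * h1 i x y
    · change C (c • X.2 x) y + C x (c • X.2 y) = 0
      rw [map_smul, map_smul, LinearMap.smul_apply, smul_eq_mul, smul_eq_mul]
      linear_combination c * h2 x y
    · rw [map_smul]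
      exact Submodule.smul_mem _ _ h3

variable {S : Type} [Fintype S] [DecidableEq S]

theorem sk_br {W : Type} [AddCommGroup W] [Module K W] {D : W →ₗ[K] W →ₗ[K] K}
    {X Y : Module.End K W} (hX : Sk D X) (hY : Sk D Y) : Sk D (X * Y - Y * X) := by
  intro x y
  simp only [LinearMap.sub_apply, Module.End.mul_apply, map_sub]
  linear_combination hX (Y x) y - hY (X x) y + hX x (Y y) - hY x (X y)

theorem sk_conj {W : Type} [AddCommGroup W] [Module K W] {D : W →ₗ[K] W →ₗ[K] K}
    {r : Representation K Γ W} {χ : Γ →* K} (hD : ∀ g x y, D (r g x) (r g y) = χ g * D x y)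
    {X : Module.End K W} (hX : Sk D X) (g : Γ) : Sk D (r g * X * r g⁻¹) := by
  intro x y
  have hinv : ∀ x, r g (r g⁻¹ x) = x := by
    intro x
    rw [← Module.End.mul_apply, ← map_mul, mul_inv_cancel, map_one]
    rfl
  have h1 := hX (r g⁻¹ x) (r g⁻¹ y)
  have h2 := hD g (X (r g⁻¹ x)) (r g⁻¹ y)
  have h3 := hD g (r g⁻¹ x) (X (r g⁻¹ y))
  rw [hinv] at h2 h3
  rw [Module.End.mul_apply, Module.End.mul_apply, Module.End.mul_apply, Module.End.mul_apply,
    h2, h3, ← mul_add, h1, mul_zero]

theorem sk_unip {W : Type} [AddCommGroup W] [Module K W] {D : W →ₗ[K] W →ₗ[K] K}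
    {r : Representation K Γ W} {χ : Γ →* K} (hD : ∀ g x y, D (r g x) (r g y) = χ g * D x y)
    {g : Γ} (hχ : χ g = 1) (h2 : (r g - 1) * (r g - 1) = 0) : Sk D (r g - 1) := by
  have hg : ∀ x, r g x = x + (r g - 1) x := by
    intro x
    rw [LinearMap.sub_apply, Module.End.one_apply]
    abel
  have hN : ∀ x, (r g - 1) ((r g - 1) x) = 0 := fun x => congrArg (fun f : End K W => f x) h2
  have h0 : ∀ x y, D ((r g - 1) x) y + D x ((r g - 1) y) + D ((r g - 1) x) ((r g - 1) y) = 0 := by
    intro x y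
    have h1 := hD g x y
    rw [hχ, one_mul, hg x, hg y] at h1
    simp only [map_add, LinearMap.add_apply] at h1
    linear_combination h1
  intro x y
  have h1 := h0 ((r g - 1) x) y
  rw [hN, map_zero, LinearMap.zero_apply, LinearMap.zero_apply, zero_add, add_zero] at h1
  have h3 := h0 x y
  rwa [h1, add_zero] at h3

theorem quad_mem (h : SemistableFamily μ ρ B ν τ C σ) {g : Γ} (hg : g ∈ quadratic μ ρ ν τ σ) :
    ((fun i => ρ i g - 1), τ g - 1) ∈ GG S ρ B τ C σ := by
  obtain ⟨h1, h2, h3, h4⟩ := hg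
  refine ⟨fun i => sk_unip (h.act i) (h2 i).1 (h2 i).2, sk_unip h.act' h3 h4, ?_⟩
  refine Pool.Agent.TH118.SG.unip_mem (g := g) (fun x => ?_) (fun x => ?_) (fun x y => rfl) h1
  · rw [rT_apply, dg_apply]
    refine Prod.ext (funext fun i => ?_) ?_
    · change ρ i g (x.1 i) = x.1 i + (ρ i g (x.1 i) - x.1 i)
      abel
    · change τ g x.2 = x.2 + (τ g x.2 - x.2)
      abel
  · rw [dg_apply, dg_apply]
    refine Prod.ext (funext fun i => ?_) ?_
    · exact congrArg (fun f : End K (V i) => f (x.1 i)) (h2 i).2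
    · exact congrArg (fun f : End K U => f x.2) h4

theorem quad_sq {g : Γ} (hg : g ∈ quadratic μ ρ ν τ σ) :
    (((fun i => ρ i g - 1), τ g - 1) : (∀ i, Module.End K (V i)) × Module.End K U) *
      ((fun i => ρ i g - 1), τ g - 1) = 0 := by
  refine Prod.ext (funext fun i => ?_) ?_
  · exact (hg.2.1 i).2
  · exact hg.2.2.2

theorem bdefect (h : SemistableFamily μ ρ B ν τ C σ) {i : ι} {g : Γ} {d : ℕ}
    (hd : Sm.IsDefect (ρ i) (quadratic μ ρ ν τ σ) g d) :
    BDefect (GG S ρ B τ C σ) i (fun i => ρ i g - 1) d := by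
  rcases hd with hd | ⟨g', hg', -, a, ha, hd⟩
  · exact Or.inl hd
  · exact Or.inr ⟨_, quad_mem h hg', quad_sq hg', a, ha, hd⟩

/-- The Lie algebra satisfies the conditions. -/
theorem bigFam (h : SemistableFamily μ ρ B ν τ C σ) : BigFam μ ρ B τ C (GG S ρ B τ C σ) where
  alt := h.alt
  nondeg := h.nondeg
  act := h.act
  alt' := h.alt'
  nondeg' := h.nondeg'
  irreducible := h.irreducible
  distinct := h.distinct
  br := by
    rintro X ⟨h1, h2, h3⟩ Y ⟨h1', h2', h3'⟩
    refine ⟨fun i => sk_br (h1 i) (h1' i), sk_br h2 h2', ?_⟩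
    rw [map_sub, dg_mul, dg_mul]
    exact LL_bracket h3 h3'
  conj := by
    rintro g X ⟨h1, h2, h3⟩
    refine ⟨fun i => sk_conj (h.act i) (h1 i) g, sk_conj h.act' h2 g, ?_⟩
    have h4 := LL_conj (μ := fun _ => 0) (fun g x y => by simp) h3 g
    exact h4
  sk := fun X hX i => hX.1 i
  sk' := fun X hX => hX.2.1
  small := by
    intro i
    rcases h.small i with ⟨g, hg, hd⟩ | ⟨⟨g, hg, hW⟩, hd⟩
    · refine Or.inl ⟨_, quad_mem h hg, quad_sq hg, ?_⟩
      rcases hd with hd | hd
      · left
        intro p hp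
        obtain ⟨d, hd, hpd⟩ := hd p hp
        exact ⟨d, bdefect h hd, hpd⟩
      · exact Or.inr (bdefect h hd)
    · refine Or.inr ⟨_, quad_mem h hg, quad_sq hg, fun W hW' => hW W fun s x hx => ?_, ?_⟩
      · have h1 := hW' s x hx
        have h2 : ρ i (s * g * s⁻¹) x = (ρ i s * (ρ i g - 1) * ρ i s⁻¹) x + x := by
          have e1 : ρ i s * ρ i s⁻¹ = 1 := by rw [← map_mul, mul_inv_cancel, map_one]
          rw [map_mul, map_mul, mul_sub, sub_mul, mul_one, e1, LinearMap.sub_apply,
            Module.End.one_apply]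
          abel
        rw [h2]
        exact W.add_mem h1 hx
      · intro p hp
        obtain ⟨g', hg', d, hd, hpd⟩ := hd p hp
        exact ⟨_, quad_mem h hg', quad_sq hg', d, bdefect h hd, hpd⟩
  larger := by
    intro i
    obtain ⟨g, hg, hr⟩ := h.larger i
    exact ⟨_, quad_mem h hg, quad_sq hg, hr⟩

variable {S' : Type} [Fintype S'] [DecidableEq S'] {Δ : Subgroup Γ}

/-- The map as a multilinear map on the whole space. -/
noncomputable def whole (f : MultilinearMap K (fun _ : S => ∀ i, V i)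
    (MultilinearMap K (fun _ : S' => U) M)) :
    MultilinearMap K (fun _ : S ⊕ S' => (∀ i, V i) × U) M :=
  MultilinearMap.uncurrySum
    ((MultilinearMap.compLinearMapₗ (fun _ : S' => LinearMap.snd K (∀ i, V i) U)).compMultilinearMap
      (f.compLinearMap fun _ => LinearMap.fst K (∀ i, V i) U))

theorem whole_apply (f : MultilinearMap K (fun _ : S => ∀ i, V i)
    (MultilinearMap K (fun _ : S' => U) M)) (z : S ⊕ S' → (∀ i, V i) × U) :
    whole f z = f (fun s => (z (Sum.inl s)).1) (fun s => (z (Sum.inr s)).2) := rfl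

/-- The symplectic Lie algebras kill the equivariant maps. -/
theorem killAll (h : SemistableFamily μ ρ B ν τ C σ) (hΔ : Δ.FiniteIndex)
    {f : MultilinearMap K (fun _ : S => ∀ i, V i) (MultilinearMap K (fun _ : S' => U) M)}
    (hf : ∀ g ∈ Δ, ∀ x y, f (fun s i => ρ i g (x s i)) (fun s => τ g (y s)) = σ g (f x y)) :
    KillAll B f := by
  intro i u v z
  have h1 := (bigFam (S := S ⊕ S') h).single_mem i u v
  have h2 : Eqv (rT ρ τ) σ (whole f) := ⟨Δ, hΔ, fun g hg z => hf g hg _ _⟩
  have h3 := h1.2.2.2 _ h2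
  apply MultilinearMap.ext
  intro y
  have h4 := h3 (Sum.elim (fun s => (z s, 0)) fun s => (0, y s))
  rw [Fintype.sum_sum_type] at h4
  have h5 : ∀ s' : S', whole f (update (Sum.elim (fun s => (z s, (0 : U))) fun s => (0, y s))
      (Sum.inr s') (dg ((Pi.single i (SS (B i) u v) : ∀ i, Module.End K (V i)), 0)
      (Sum.elim (fun s => (z s, (0 : U))) (fun s => (0, y s)) (Sum.inr s')))) = 0 := by
    intro s'
    rw [whole_apply]
    have h6 : (fun s : S' => (update (Sum.elim (fun s => (z s, (0 : U))) fun s => (0, y s))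
        (Sum.inr s') (dg ((Pi.single i (SS (B i) u v) : ∀ i, Module.End K (V i)), 0)
        (Sum.elim (fun s => (z s, (0 : U))) (fun s => (0, y s)) (Sum.inr s')))
        (Sum.inr s)).2) s' = 0 := by
      dsimp only
      rw [update_self]
      rfl
    exact MultilinearMap.map_coord_zero _ s' h6
  rw [Finset.sum_congr rfl fun s' _ => h5 s', Finset.sum_const_zero, add_zero] at h4
  rw [_root_.sum_apply, zero_apply]
  refine Eq.trans (Finset.sum_congr rfl fun s _ => ?_) h4
  rw [whole_apply]
  congr 2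
  funext s'
  by_cases hs : s' = s
  · subst hs
    rw [update_self, update_self, dg_apply]
    funext j
    by_cases hj : j = i
    · subst hj
      simp
    · simp [hj]
  · rw [update_of_ne hs, update_of_ne (fun h => hs (Sum.inl_injective h))]
    rfl

/-- **Equivariant maps are combinations of products.** -/
theorem eqv_iff (h : SemistableFamily μ ρ B ν τ C σ) (hΔ : Δ.FiniteIndex)
    (f : MultilinearMap K (fun _ : S => ∀ i, V i) (MultilinearMap K (fun _ : S' => U) M)) :
    (∀ g ∈ Δ, ∀ x y, f (fun s i => ρ i g (x s i)) (fun s => τ g (y s)) = σ g (f x y)) ↔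
      Sm.ClassesSplit μ B (coef τ σ S') Δ f := by
  have hB : Base μ ρ B := ⟨h.alt, h.nondeg, h.act⟩
  have hinv : ∀ g (x : U), τ g (τ g⁻¹ x) = x := by
    intro g x
    rw [← Module.End.mul_apply, ← map_mul, mul_inv_cancel, map_one]
    rfl
  have hinv' : ∀ g (x : U), τ g⁻¹ (τ g x) = x := by
    intro g x
    rw [← Module.End.mul_apply, ← map_mul, inv_mul_cancel, map_one]
    rfl
  constructor
  · intro hf
    refine hB.split (killAll h hΔ hf) fun g hg x => MultilinearMap.ext fun y => ?_
    have h1 := hf g hg x (fun s => τ g⁻¹ (y s))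
    simp only [hinv] at h1
    exact h1
  · intro hf g hg x y
    have h1 := hB.eqv_of_split hf g hg x
    rw [h1]
    change σ g (f x fun s => τ g⁻¹ (τ g (y s))) = _
    simp only [hinv']

end Pool.Agent.V11219.Gk
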