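import Mathlib
import Pool.Agent.TH118.SG.Family
import Pool.Agent.V11219.IsoFull

/-!
# Products with powers: the step, without elements acting trivially
-/

open CategoryTheory AlgebraicGeometry Finset Function

set_option linter.unusedSectionVars false

namespace Pool.Agent.V11219.IsoF

universe u

open Pool.Agent.TH125.Gal Pool.Agent.TH118.SG

open Pool.Agent.H914 Pool.Agent.H914.VarClass Pool.Agent.H914.VarClass.Obj
  Pool.Agent.H914.WeilCohomology Pool.Agent.H281R3.HT Pool.Agent.W552

variable {k : Type u} [Field k] {𝒱 : VarClass k} {ops : CycleOps 𝒱}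
  {W : WeilCohomology.{u, 0} ops} {P : Polarized 𝒱} {n : ℕ} {Z : 𝒱.Obj} {s : SB W P.X}
  {Γ : Type} [Group Γ] {χ : Γ →* W.Kˣ} {ρ : Γ →* (W.H P.X ≃ₐ[W.K] W.H P.X)}
  {τ : Γ →* (W.H Z ≃ₐ[W.K] W.H Z)}
  {υ : Γ →* (W.H ((nest ops n fun _ => P).X.prod Z) ≃ₐ[W.K]
    W.H ((nest ops n fun _ => P).X.prod Z))}

/-- All Lie algebras are the whole symplectic one. -/
def FullT (χ : Γ →* W.Kˣ) (hG : IsGalois W χ P.X ρ) (τ : Γ →* (W.H Z ≃ₐ[W.K] W.H Z)) : Prop :=
  ∀ (S : Type) [Fintype S] [DecidableEq S] (σ : Γ →* (W.H Z →ₗ[W.K] W.H Z)),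
    (∀ g, χ g = 1 → ∀ z, σ g z = τ g z) →
    ∀ x y, rk (rform W P.X (transcendental W P.X)) y x + rk (rform W P.X (transcendental W P.X)) x y
      ∈ LL S (rform W P.X (transcendental W P.X)) (rhoT hG) σ

theorem fullT_of (hG : IsGalois W χ P.X ρ) {g : Γ} (hχ : χ g = 1) (hτ : τ g = 1)
    (h : Full hG Z g) : FullT χ hG τ := by
  intro S _ _ σ hσ x y
  refine h S σ ?_ x y
  apply LinearMap.ext
  intro z
  rw [hσ g hχ, hτ]
  rfl

section

variable {b : Module.Basis (Fin (n + 1) → Fin s.NC ⊕ Fin s.NT) W.K (W.H (nest ops n fun _ => P).X)}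
  (hb : ∀ r, b r = mono (prj ops n fun _ => P) fun p => s.e (r p))

include hb in
/-- the coordinates at the free positions are invariant -/
theorem gen_free'' (hDX : HomEqNum W P.X) (hmid : transcendental W P.X ≤ W.gr P.X P.X.dim)
    (hG : IsGalois W χ P.X ρ) (hP : IsPowAct W P n Z ρ τ υ) (hodd : Odd P.X.dim)
    (hfull : FullT χ hG τ)
    {c : W.H ((nest ops n fun _ => P).X.prod Z)} {j : ℕ} {Δ : Subgroup Γ} (hΔ : Δ.FiniteIndex)
    (hc : ∀ g ∈ Δ, υ g c = (χ g : W.K) ^ j • c) (c₀ : Fin (n + 1) → Option (Fin s.NC)) :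
    (fun r : Free c₀ → Fin s.NT => hml s.e b c fun p => s.es (comb c₀ r p)) ∈
      Pool.Agent.TH125.Nod.Gen (fun _ : Fin s.NT => ())
        (Matrix.of fun i j => bil W P.X (s.uT i) (s.uT j)) (fun _ : Free c₀ => ()) := by
  have h1 := gen_mem' (S := Free c₀) (J := Fin s.NT) (s := (-1) ^ P.X.dim)
    (B := rform W P.X (transcendental W P.X)) hodd.neg_one_pow
    (fun a b => by
      rw [rform_apply, rform_apply, trans_symm hmid a.2 b.2]
      push_cast
      rfl)
    (trans_nondeg hDX)
    (fun u v => hfull (Free c₀) (twist (lamb χ s c₀ j) τ) (by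
      intro g hχ z
      rw [twist_apply, lamb_apply, hχ]
      simp) u v)
    (hS_eqv hb hG hP hΔ hc c₀) s.uT
  have h2 : (fun r : Free c₀ → Fin s.NT => hS s b c c₀ fun j => s.uT (r j)) =
      fun r : Free c₀ → Fin s.NT => hml s.e b c fun p => s.es (comb c₀ r p) := by
    funext r
    exact hS_comb c c₀ r
  rw [← h2]
  exact h1

include hb in
/-- **The structure of the Tate classes on products with powers.** -/
theorem mem_Tgt'' (hDX : HomEqNum W P.X) (hmid : transcendental W P.X ≤ W.gr P.X P.X.dim)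
    (hG : IsGalois W χ P.X ρ) (hP : IsPowAct W P n Z ρ τ υ) (hodd : Odd P.X.dim)
    (hfull : FullT χ hG τ)
    {c : W.H ((nest ops n fun _ => P).X.prod Z)} {j : ℕ} {Δ : Subgroup Γ} (hΔ : Δ.FiniteIndex)
    (hc : ∀ g ∈ Δ, υ g c = (χ g : W.K) ^ j • c) : c ∈ Tgt s n Z := by
  rw [expand b c, sum_patterns]
  refine Submodule.sum_mem _ fun c₀ _ => ?_
  have h1 := gen_free'' hb hDX hmid hG hP hodd hfull hΔ hc c₀
  have h2 : ∀ F ∈ Pool.Agent.TH125.Nod.Gen (fun _ : Fin s.NT => ())
      (Matrix.of fun i j => bil W P.X (s.uT i) (s.uT j)) (fun _ : Free c₀ => ()),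
      ∑ r : Free c₀ → Fin s.NT, W.map (fst _ Z) (b (comb c₀ r)) * W.map (snd _ Z) (F r : W.H Z) ∈
        Tgt s n Z := by
    intro F hF
    induction hF using Submodule.span_induction with
    | mem F hF =>
      obtain ⟨m, e, w, rfl⟩ := hF
      obtain ⟨ε, S, i, x, hx, h3⟩ := mq_sum (s := s) (π := prj ops n fun _ => P) hmid e
      have h4 : ∑ r : Free c₀ → Fin s.NT, W.map (fst _ Z) (b (comb c₀ r)) *
          W.map (snd _ Z) (Pool.Agent.TH125.Nod.gen (fun _ : Fin s.NT => ())
            (Matrix.of fun i j => bil W P.X (s.uT i) (s.uT j)) (fun _ : Free c₀ => ()) e w r) =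
          (ε : W.K) • (W.map (fst _ Z) x * W.map (snd _ Z) w) := by
        rw [← smul_mul_assoc, ← map_smul, ← h3, map_sum, Finset.sum_mul]
        refine Finset.sum_congr rfl fun r _ => ?_
        rw [Pool.Agent.TH125.Nod.gen, if_pos (fun _ => rfl), map_smul, map_smul, mul_smul_comm,
          smul_mul_assoc, hb]
        rfl
      rw [h4]
      exact Submodule.smul_mem _ _ (Submodule.subset_span ⟨S, i, x, w, hx, rfl⟩)
    | zero =>
      simp only [Pi.zero_apply, map_zero, mul_zero, Finset.sum_const_zero]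
      exact Submodule.zero_mem _
    | add F F' _ _ hF hF' =>
      simp only [Pi.add_apply, map_add, mul_add, Finset.sum_add_distrib]
      exact Submodule.add_mem _ hF hF'
    | smul x F _ hF =>
      simp only [Pi.smul_apply, map_smul, mul_smul_comm]
      rw [← Finset.smul_sum]
      exact Submodule.smul_mem _ _ hF
  have h3 := h2 _ h1
  simp only [coord_eq hb]
  exact h3

end

/-- **The Tate conjecture for products with powers.** -/
theorem tate_step'' (hDX : HomEqNum W P.X) (hmid : transcendental W P.X ≤ W.gr P.X P.X.dim)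
    (hG : IsGalois W χ P.X ρ) (hP : IsPowAct W P n Z ρ τ υ) (hodd : Odd P.X.dim)
    (hfull : FullT χ hG τ)
    (hT : TateConj W χ Z τ) :
    TateConj W χ ((nest ops n fun _ => P).X.prod Z) υ := by
  obtain ⟨s⟩ := exists_SB hDX
  obtain ⟨b, hb⟩ := exists_monoBasis (ops := ops) P s.e n
  intro j c hcj ⟨Δ, hΔ, hc⟩
  have h1 := mem_Tgt'' hb hDX hmid hG hP hodd hfull hΔ hc
  obtain ⟨N, m, i, φ, hm, hφ, hexp⟩ := exists_expansion s n Z
  obtain ⟨Δ', hΔ', hfix⟩ := exists_fix hG s
  have h2 := hexp c h1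
  -- uniqueness
  have huni : ∀ (x : Fin N → W.H Z) (l : Fin N),
      ctr (φ l) (∑ l', W.map (fst _ Z) (m l') * W.map (snd _ Z) (x l')) = x l := by
    intro x l
    rw [map_sum, Finset.sum_eq_single l]
    · rw [ctr_apply, hφ, if_pos rfl, one_smul]
    · intro l' _ hl
      rw [ctr_apply, hφ, if_neg hl, zero_smul]
    · intro h
      exact absurd (Finset.mem_univ _) h
  set x : Fin N → W.H Z := fun l => ctr (φ l) c with hx
  -- degrees
  have hdeg : ∀ l, x l = if 2 * i l ≤ 2 * j then
      proj (W.isInternal Z) (2 * j - 2 * i l) (x l) else 0 := by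
    intro l
    have h3 : c = ∑ l', W.map (fst _ Z) (m l') * W.map (snd _ Z)
        (if 2 * i l' ≤ 2 * j then proj (W.isInternal Z) (2 * j - 2 * i l') (x l') else 0) := by
      conv_lhs => rw [← proj_same (W.isInternal _) hcj, h2]
      rw [map_sum]
      refine Finset.sum_congr rfl fun l' _ => ?_
      obtain ⟨S, hS⟩ := hm l'
      rw [proj_ext (hS.gr hmid)]
      by_cases h : 2 * i l' ≤ 2 * j
      · rw [if_pos h, if_pos h]
      · rw [if_neg h, if_neg h, map_zero, mul_zero]
    conv_lhs => rw [hx]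
    beta_reduce
    rw [h3]
    exact huni _ l
  -- semi-invariance
  have hact : ∀ g ∈ Δ ⊓ Δ', ∀ l, (χ g : W.K) ^ i l • τ g (x l) = (χ g : W.K) ^ j • x l := by
    intro g hg l
    have h3 : υ g c = ∑ l', W.map (fst _ Z) (m l') * W.map (snd _ Z)
        ((χ g : W.K) ^ i l' • τ g (x l')) := by
      conv_lhs => rw [h2]
      rw [map_sum]
      refine Finset.sum_congr rfl fun l' _ => ?_
      obtain ⟨S, hS⟩ := hm l'
      rw [map_mul, mq_act hmid hG hP (hfix g hg.2) hS, (hP g).2, map_smul, smul_mul_assoc,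
        mul_smul_comm]
    have h4 := huni (fun l' => (χ g : W.K) ^ i l' • τ g (x l')) l
    rw [← h3, hc g hg.1, map_smul] at h4
    exact h4.symm
  have halg : ∀ l, x l ∈ algSpan W Z := by
    intro l
    by_cases h : 2 * i l ≤ 2 * j
    · have h3 := hdeg l
      rw [if_pos h] at h3
      have h4 : x l ∈ W.gr Z (2 * (j - i l)) := by
        rw [h3, show 2 * (j - i l) = 2 * j - 2 * i l by omega]
        exact proj_mem _ _ _
      have h5 := hT (j - i l) (x l) h4 ⟨Δ ⊓ Δ', inferInstance, fun g hg => ?_⟩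
      · exact Submodule.span_mono (Set.subset_iUnion _ _) h5
      · have h6 := hact g hg l
        have h7 : (χ g : W.K) ^ j = (χ g : W.K) ^ i l * (χ g : W.K) ^ (j - i l) := by
          rw [← pow_add]
          congr 1
          omega
        rw [h7, mul_smul] at h6
        exact smul_right_injective _ (pow_ne_zero _ (Units.ne_zero (χ g))) h6
    · have h3 := hdeg l
      rw [if_neg h] at h3
      rw [h3]
      exact Submodule.zero_mem _
  refine algSpan_gr ?_ hcj
  rw [h2]
  refine Submodule.sum_mem _ fun l _ => ?_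
  obtain ⟨S, hS⟩ := hm l
  exact algSpan_mul (algSpan_map _ (hS.alg hDX hmid)) (algSpan_map _ (halg l))

section eigen

/-- All eigenvalues of the automorphism belong to the group `Λ`. -/
def EigA {A : Type} [Ring A] [Algebra W.K A] (Λ : Subgroup W.Kˣ) (f : A ≃ₐ[W.K] A) : Prop :=
  EigIn Λ f.toLinearMap

variable {A : Type} [Ring A] [Algebra W.K A]

/-- The sum of the generalized eigenspaces for the elements of `Λ`. -/
noncomputable def GE (Λ : Subgroup W.Kˣ) (f : A ≃ₐ[W.K] A) : Submodule W.K A :=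
  ⨆ l : Λ, Module.End.maxGenEigenspace f.toLinearMap ((l : W.Kˣ) : W.K)

theorem GE_top [IsAlgClosed W.K] [Module.Finite W.K A] {Λ : Subgroup W.Kˣ} {f : A ≃ₐ[W.K] A}
    (h : EigA Λ f) : GE Λ f = ⊤ := by
  rw [eq_top_iff, ← Module.End.iSup_maxGenEigenspace_eq_top f.toLinearMap, iSup_le_iff]
  intro a
  by_cases ha : Module.End.maxGenEigenspace f.toLinearMap a = ⊥
  · rw [ha]
    exact bot_le
  · obtain ⟨l, hl, rfl⟩ := EigIn.gen (K := W.K) h ha
    exact le_iSup (fun l : Λ => Module.End.maxGenEigenspace f.toLinearMap ((l : W.Kˣ) : W.K))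
      ⟨l, hl⟩

theorem eig_of_GE {Λ : Subgroup W.Kˣ} {f : A ≃ₐ[W.K] A} (h : GE Λ f = ⊤) : EigA Λ f := by
  intro a z hz hf
  by_contra hcon
  push Not at hcon
  apply hz
  have h1 := Module.End.independent_maxGenEigenspace f.toLinearMap a
  rw [disjoint_iff, eq_bot_iff] at h1
  have h2 : z ∈ Module.End.maxGenEigenspace f.toLinearMap a := by
    refine mem_gen.2 ⟨1, ?_⟩
    rw [pow_one, LinearMap.sub_apply, hf, Module.algebraMap_end_apply, sub_self]
  have h3 : z ∈ ⨆ b, ⨆ (_ : b ≠ a), Module.End.maxGenEigenspace f.toLinearMap b := by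
    have h4 : z ∈ GE Λ f := by rw [h]; exact Submodule.mem_top
    refine (iSup_le fun l => ?_ : GE Λ f ≤ _) h4
    exact le_iSup₂_of_le ((l : W.Kˣ) : W.K) (hcon l l.2) le_rfl
  exact (Submodule.mem_bot W.K).1 (h1 ⟨h2, h3⟩)

/-- The product of generalized eigenvectors of an automorphism of an algebra. -/
theorem gen_mul (f : A ≃ₐ[W.K] A) {a b : W.K} : ∀ (s : ℕ) (x y : A) (n m : ℕ), n + m ≤ s →
    ((f.toLinearMap - algebraMap W.K (Module.End W.K A) a) ^ n) x = 0 →
    ((f.toLinearMap - algebraMap W.K (Module.End W.K A) b) ^ m) y = 0 →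
    ((f.toLinearMap - algebraMap W.K (Module.End W.K A) (a * b)) ^ s) (x * y) = 0 := by
  intro s
  induction s with
  | zero =>
    intro x y n m hs hx hy
    have h0 : n = 0 := by omega
    rw [h0, pow_zero, Module.End.one_apply] at hx
    rw [hx, zero_mul, map_zero]
  | succ s ih =>
    intro x y n m hs hx hy
    rcases Nat.eq_zero_or_pos n with h0 | hn
    · rw [h0, pow_zero, Module.End.one_apply] at hx
      rw [hx, zero_mul, map_zero]
    rcases Nat.eq_zero_or_pos m with h0 | hm
    · rw [h0, pow_zero, Module.End.one_apply] at hy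
      rw [hy, mul_zero, map_zero]
    have hcf : ∀ (b : W.K) (m : ℕ) (y : A),
        ((f.toLinearMap - algebraMap W.K (Module.End W.K A) b) ^ m) y = 0 →
        ((f.toLinearMap - algebraMap W.K (Module.End W.K A) b) ^ m) (f y) = 0 := by
      intro b m y hy
      have h1 : Commute (f.toLinearMap : Module.End W.K A)
          ((f.toLinearMap - algebraMap W.K (Module.End W.K A) b) ^ m) :=
        ((Commute.refl _).sub_right (Algebra.commute_algebraMap_right b _)).pow_right m
      have h2 := congrArg (fun q : Module.End W.K A => q y) h1.eq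
      simp only [Module.End.mul_apply] at h2
      rw [hy, map_zero] at h2
      exact h2.symm
    rw [pow_succ, Module.End.mul_apply]
    have h1 : (f.toLinearMap - algebraMap W.K (Module.End W.K A) (a * b)) (x * y) =
        ((f.toLinearMap - algebraMap W.K (Module.End W.K A) a) x) * f y +
        a • (x * ((f.toLinearMap - algebraMap W.K (Module.End W.K A) b) y)) := by
      rw [LinearMap.sub_apply, LinearMap.sub_apply, LinearMap.sub_apply,
        Module.algebraMap_end_apply, Module.algebraMap_end_apply, Module.algebraMap_end_apply,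
        AlgEquiv.toLinearMap_apply, AlgEquiv.toLinearMap_apply, AlgEquiv.toLinearMap_apply,
        map_mul, sub_mul, mul_sub, smul_sub, smul_mul_assoc, mul_smul_comm, smul_smul,
        sub_add_sub_cancel]
    rw [h1, map_add, map_smul]
    rw [ih _ _ (n - 1) m (by omega) (by
      rw [← Module.End.mul_apply, ← pow_succ, Nat.sub_add_cancel hn]
      exact hx) (hcf b m y hy), zero_add]
    rw [ih _ _ n (m - 1) (by omega) hx (by
      rw [← Module.End.mul_apply, ← pow_succ, Nat.sub_add_cancel hm]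
      exact hy), smul_zero]

theorem GE_mul {Λ : Subgroup W.Kˣ} {f : A ≃ₐ[W.K] A} {x y : A} (hx : x ∈ GE Λ f)
    (hy : y ∈ GE Λ f) : x * y ∈ GE Λ f := by
  rw [GE] at hx hy
  induction hx using Submodule.iSup_induction' with
  | mem l x hx =>
    induction hy using Submodule.iSup_induction' with
    | mem l' y hy =>
      obtain ⟨n, hn⟩ := mem_gen.1 hx
      obtain ⟨m, hm⟩ := mem_gen.1 hy
      have h1 := gen_mul f (n + m) x y n m le_rfl hn hm
      refine Submodule.mem_iSup_of_mem (l * l') (mem_gen.2 ⟨n + m, ?_⟩)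
      exact h1
    | zero => rw [mul_zero]; exact Submodule.zero_mem _
    | add y z _ _ h1 h2 => rw [mul_add]; exact Submodule.add_mem _ h1 h2
  | zero => rw [zero_mul]; exact Submodule.zero_mem _
  | add y z _ _ h1 h2 => rw [add_mul]; exact Submodule.add_mem _ h1 h2

theorem GE_one {Λ : Subgroup W.Kˣ} {f : A ≃ₐ[W.K] A} : (1 : A) ∈ GE Λ f := by
  refine Submodule.mem_iSup_of_mem (1 : Λ) (mem_gen.2 ⟨1, ?_⟩)
  rw [pow_one, LinearMap.sub_apply, Module.algebraMap_end_apply]
  simp

/-- The image under an equivariant homomorphism. -/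
theorem GE_map {A' : Type} [Ring A'] [Algebra W.K A'] {Λ : Subgroup W.Kˣ} {f : A ≃ₐ[W.K] A}
    {f' : A' ≃ₐ[W.K] A'} (φ : A →ₗ[W.K] A') (hφ : ∀ a, f' (φ a) = φ (f a)) {x : A}
    (hx : x ∈ GE Λ f) : φ x ∈ GE Λ f' := by
  rw [GE] at hx
  induction hx using Submodule.iSup_induction' with
  | mem l x hx =>
    obtain ⟨n, hn⟩ := mem_gen.1 hx
    refine Submodule.mem_iSup_of_mem l (mem_gen.2 ⟨n, ?_⟩)
    have h1 : ∀ (n : ℕ) (x : A),
        ((f'.toLinearMap - algebraMap W.K (Module.End W.K A') ((l : W.Kˣ) : W.K)) ^ n) (φ x) =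
        φ (((f.toLinearMap - algebraMap W.K (Module.End W.K A) ((l : W.Kˣ) : W.K)) ^ n) x) := by
      intro n
      induction n with
      | zero => intro x; rfl
      | succ n ih =>
        intro x
        rw [pow_succ, Module.End.mul_apply, LinearMap.sub_apply, AlgEquiv.toLinearMap_apply, hφ,
          Module.algebraMap_end_apply, ← map_smul, ← map_sub, ih, pow_succ, Module.End.mul_apply]
        rfl
    rw [h1, hn, map_zero]
  | zero => rw [map_zero]; exact Submodule.zero_mem _
  | add y z _ _ h1 h2 => rw [map_add]; exact Submodule.add_mem _ h1 h2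

end eigen

/-- The eigenvalues on the product. -/
theorem eig_pow [IsAlgClosed W.K] (hP : IsPowAct W P n Z ρ τ υ) {Λ : Subgroup W.Kˣ} {g : Γ}
    (hρ : EigA Λ (ρ g)) (hτ : EigA Λ (τ g)) : EigA Λ (υ g) := by
  obtain ⟨b, hb⟩ := exists_monoBasis (ops := ops) P (Module.finBasis W.K (W.H P.X)) n
  apply eig_of_GE
  rw [eq_top_iff]
  intro c _
  have h3 : ∀ a : Fin (n + 1) → W.H P.X, W.map (fst _ Z)
      (mono (prj ops n fun _ => P) a) ∈ GE Λ (υ g) := by
    intro a
    rw [mono, map_list_prod, List.map_ofFn]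
    have h4 : ∀ L : List (W.H ((nest ops n fun _ => P).X.prod Z)), (∀ x ∈ L, x ∈ GE Λ (υ g)) →
        L.prod ∈ GE Λ (υ g) := by
      intro L
      induction L with
      | nil => intro _; exact GE_one
      | cons x L ih =>
        intro h
        rw [List.prod_cons]
        exact GE_mul (h x List.mem_cons_self) (ih fun y hy => h y (List.mem_cons_of_mem _ hy))
    refine h4 _ fun x hx => ?_
    obtain ⟨p, rfl⟩ := (List.mem_ofFn' _ _).1 hx
    refine GE_map (f := ρ g) (((W.map (fst (nest ops n fun _ => P).X Z)).toLinearMap) ∘ₗ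
      (W.map (prj ops n (fun _ => P) p)).toLinearMap) (fun z => (hP g).1 p z) (x := a p) ?_
    rw [GE_top hρ]
    exact Submodule.mem_top
  rw [expand b c]
  refine Submodule.sum_mem _ fun r _ => GE_mul ?_ ?_
  · rw [hb r]
    exact h3 _
  · refine GE_map (f := τ g) (W.map (snd (nest ops n fun _ => P).X Z)).toLinearMap
      (fun z => (hP g).2 z) ?_
    rw [GE_top hτ]
    exact Submodule.mem_top

end Pool.Agent.V11219.IsoF
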