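import Mathlib
import Pool.Agent.V11219.IsoStep

/-!
# Families of varieties with finite inertia and isolated eigenvalue quotients
-/

open CategoryTheory AlgebraicGeometry Finset

set_option linter.unusedSectionVars false

universe u

namespace Pool.Agent.V11219.IsoF

open Pool.Agent.TH125.Gal Pool.Agent.TH118.SG
open Pool.Agent.H914 Pool.Agent.H914.VarClass Pool.Agent.H914.VarClass.Obj
  Pool.Agent.H914.WeilCohomology Pool.Agent.H281R3.HT Pool.Agent.W552

variable {k : Type u} [Field k] {𝒱 : VarClass k} {ops : CycleOps 𝒱}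
  {W : WeilCohomology.{u, 0} ops} {Γ : Type} [Group Γ] {χ : Γ →* W.Kˣ}

section

variable {P : Polarized 𝒱} {ρ : Γ →* (W.H P.X ≃ₐ[W.K] W.H P.X)} {Z : 𝒱.Obj}
  {τ : Γ →* (W.H Z ≃ₐ[W.K] W.H Z)}

/-- Isolated eigenvalues. -/
theorem fullT_iso [IsAlgClosed W.K] (hDX : HomEqNum W P.X)
    (hmid : transcendental W P.X ≤ W.gr P.X P.X.dim)
    (hG : IsGalois W χ P.X ρ) (hodd : Odd P.X.dim)
    (hirr : StronglyIrreducible ρ (transcendental W P.X)) {g : Γ} (hχ : χ g = 1)
    {Λ : Subgroup W.Kˣ} (hg : IsolatedAct Λ (transcendental W P.X) ρ g)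
    (hF : HyperbolicAct (transcendental W P.X) ρ) (hτ : EigA Λ (τ g)) :
    FullT χ hG τ := by
  intro S _ _ σ hσ x y
  obtain ⟨⟨k, hk, hgk⟩, hiso⟩ := hg
  obtain ⟨F, u, hu, v, hv, hu0, hv0, al, be, hFu, hFv, hab⟩ := hF
  rw [rk_eq_SS]
  have hγ : rhoT hG g ^ k = 1 := by
    rw [← map_pow]
    apply LinearMap.ext
    intro x
    exact Subtype.ext (hgk x x.2)
  refine iso_full (χ := mult χ P.X.dim) (γ := g) (Λ := Λ) (form_alt hmid hodd)
    (trans_nondeg hDX) (fun g a b => ?_) (SI_rhoT hG hirr) ?_ ?_ hk hγ ?_ F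
    (u := ⟨u, hu⟩) (v := ⟨v, hv⟩) (fun h => hu0 (congrArg Subtype.val h))
    (fun h => hv0 (congrArg Subtype.val h)) (Subtype.ext hFu) (Subtype.ext hFv) hab x y
  · rw [mult_apply]
    exact bil_act hG g a b
  · rw [mult_apply, hχ, Units.val_one, one_pow]
  · intro a z hz hz1
    rw [hσ g hχ] at hz1
    exact hτ a z hz hz1
  · have h1 : (fun a => Module.finrank W.K (Module.End.eigenspace (rhoT hG g) a)) =
        fun a => Module.finrank W.K (eigT (transcendental W P.X) ρ g a) :=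
      funext fun a => finrank_eigT hG g a
    rw [h1]
    exact hiso

end

theorem GTower.eig [IsAlgClosed W.K] {ι : Type} {X : ι → GVar W Γ} {Z : GVar W Γ} {S : Set ι}
    {Y : GVar W Γ} (h : GTower X Z S Y) {Λ : Subgroup W.Kˣ} {g : Γ}
    (hX : ∀ j ∈ S, EigenvaluesIn Λ (X j).act g) (hZ : EigenvaluesIn Λ Z.act g) :
    EigA Λ (Y.act g) := by
  induction h with
  | base => exact fun a z hz h => hZ a ⟨z, hz, h⟩
  | step i n _ _ _ hP ih =>
    obtain ⟨υ, h1, h2⟩ := hP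
    exact eig_pow (isPowAct h1 h2)
      (fun a z hz h => hX i (Set.mem_insert _ _) a ⟨z, hz, h⟩)
      (ih fun j hj => hX j (Set.mem_insert_of_mem _ hj))

/-- **The Tate conjecture for towers.** -/
theorem tate_inertia [IsAlgClosed W.K] {ι : Type} {X : ι → GVar W Γ} {Z : GVar W Γ}
    (h : InertiaFamily χ X Z) {S : Set ι} {Y : GVar W Γ} (hY : GTower X Z S Y) :
    TateConjecture χ Y ↔ TateConjecture χ Z := by
  induction hY with
  | base => exact Iff.rfl
  | @step S Y Y' i n hT hi hn hP ih =>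
    obtain ⟨g, hχ, hg⟩ := h.inertia i
    rw [← ih]
    obtain ⟨υ, h1, h2⟩ := hP
    have hG := isGalois (h.galois i)
    have hfull : FullT (P := ⟨(X i).X, 0⟩) χ hG Y.act := by
      rcases hg with ⟨hF, Λ, hg, hZ, hj⟩ | ⟨hg, hZ, hj⟩
      · exact fullT_iso (P := ⟨(X i).X, 0⟩) (h.homEqNum i) (h.middle i) hG (h.odd i)
          (h.irreducible i) hχ hg hF
          (GTower.eig hT (fun j hjS => hj j fun h' => hi (h' ▸ hjS)) hZ)
      · refine fullT_of (P := ⟨(X i).X, 0⟩) hG hχ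
          (trivAct.1 (hT.trivAct (fun j hjS => hj j fun h' => hi (h' ▸ hjS)) hZ)) ?_
        rcases hg with hg | ⟨hg, hF⟩
        · exact full_unip (P := ⟨(X i).X, 0⟩) (h.homEqNum i) (h.middle i) hG (h.odd i)
            (h.irreducible i) hχ hg
        · exact full_small (P := ⟨(X i).X, 0⟩) (h.homEqNum i) (h.middle i) hG (h.odd i)
            (h.irreducible i) hχ hg hF
    constructor
    · refine tate_conv (P := ⟨(X i).X, 0⟩) (h.homEqNum i) ?_ (isPowAct h1 h2)
      intro h3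
      obtain ⟨t, ht⟩ : ∃ t : W.H (X i).X, t ≠ 0 := by
        rcases hg with ⟨⟨F, x, hx, y, hy, hx0, -⟩, -⟩ | ⟨⟨⟨t, ht, ht0⟩, -, -⟩ |
          ⟨-, F, x, hx, y, hy, hx0, -⟩, -⟩
        · exact ⟨x, hx0⟩
        · refine ⟨t, fun h => ht0 ?_⟩
          rw [h, map_zero]
        · exact ⟨x, hx0⟩
      apply ht
      rw [← one_mul t, h3, zero_mul]
    · exact tate_step'' (P := ⟨(X i).X, 0⟩) (h.homEqNum i) (h.middle i) hG
        (isPowAct h1 h2) (h.odd i) hfull

end Pool.Agent.V11219.IsoF
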