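import Pool.Agent.TH125.Gal.Pub2

/-!
# Polarized varieties with local conditions and their products: definitions
-/

open CategoryTheory AlgebraicGeometry

universe u

namespace Pool.Agent.V11219.Loc

open Pool.Agent.TH125.Gal

section Alg

variable {K : Type} [Field K] {A : Type} [Ring A] [Algebra K A] {Γ : Type} [Group Γ]

/-- The actions of `Γ` on the algebra `A`. -/
abbrev Act (K : Type) [Field K] (A : Type) [Ring A] [Algebra K A] (Γ : Type) [Group Γ] : Type :=
  Γ →* (A ≃ₐ[K] A)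

/-- The operator `g - 1`. -/
def dif (ρ : Γ →* (A ≃ₐ[K] A)) (g : Γ) : Module.End K A := (ρ g).toLinearMap - 1

/-- `(g - 1) ^ 2 = 0` on `T`. -/
def Quad (T : Submodule K A) (ρ : Γ →* (A ≃ₐ[K] A)) (g : Γ) : Prop :=
  ∀ t ∈ T, ρ g (ρ g t - t) = ρ g t - t

/-- The number `d` is a *defect* of `g` on `T`: the rank of `g - 1` on `T`, or the (algebraic)
multiplicity on `T` of a nonzero eigenvalue of `(g - 1) (g' - 1)`, for an element `g'` of the set `M`
with `(g' - 1) ^ 2 = 0` on `T`. -/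
def IsDefect (T : Submodule K A) (ρ : Γ →* (A ≃ₐ[K] A)) (M : Set Γ) (g : Γ) (d : ℕ) : Prop :=
  d = Module.finrank K (T.map (dif ρ g)) ∨ ∃ g' ∈ M, Quad T ρ g' ∧ ∃ a : K, a ≠ 0 ∧
    d = Module.finrank K (T ⊓ Module.End.maxGenEigenspace (dif ρ g * dif ρ g') a : Submodule K A)

/-- There is an element `g` of `M` with `(g - 1) ^ 2 = 0` on `T` whose defects have no common prime
factor or contain the number two. -/
def Unipotent (T : Submodule K A) (ρ : Γ →* (A ≃ₐ[K] A)) (M : Set Γ) : Prop :=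
  ∃ g ∈ M, Quad T ρ g ∧ ((∀ p : ℕ, p.Prime → ∃ d, IsDefect T ρ M g d ∧ ¬ p ∣ d) ∨
    IsDefect T ρ M g 2)

/-- Numbers `a` with multiplicities `m a` (the eigenvalues of an operator) are *isolated* with
respect to a group `Λ` of numbers: they are divided into two nonempty sets, `S` and its complement,
both stable under `α ↦ α⁻¹`, such that for `α` in `S` and `β` in the complement `β / α` is not in
`Λ`, at least one of `α`, `β` has multiplicity one, `β / α` is the quotient of no other pair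
except the dual pair, and geometric progressions of length three with the quotient
`β / α` are self-dual, with outer terms of multiplicity one. -/
def Isolated (Λ : Subgroup Kˣ) (m : K → ℕ) : Prop :=
  ∃ S : Set K, (∃ α ∈ S, m α ≠ 0) ∧ (∃ β ∉ S, m β ≠ 0) ∧ (∀ α, m α ≠ 0 → (α ∈ S ↔ α⁻¹ ∈ S)) ∧
    ∀ α ∈ S, ∀ β ∉ S, m α ≠ 0 → m β ≠ 0 →
      (∀ l ∈ Λ, (l : K) ≠ β * α⁻¹) ∧ (m α = 1 ∨ m β = 1) ∧
      (∀ α', m α' ≠ 0 → m (α' * (β * α⁻¹)) ≠ 0 → α' = α ∨ α' * β = 1) ∧
      ∀ α', m α' ≠ 0 → m (α' * (β * α⁻¹)) ≠ 0 → m (α' * (β * α⁻¹) * (β * α⁻¹)) ≠ 0 →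
        m α' = 1 ∧ α' * (α' * (β * α⁻¹) * (β * α⁻¹)) = 1

/-- `g` acts on `T` with finite order and its eigenvalues are isolated with respect to `Λ`. -/
def FiniteOrder (Λ : Subgroup Kˣ) (T : Submodule K A) (ρ : Γ →* (A ≃ₐ[K] A)) (g : Γ) : Prop :=
  (∃ k : ℕ, 0 < k ∧ ∀ t ∈ T, ρ (g ^ k) t = t) ∧
    Isolated Λ fun a => Module.finrank K
      (T ⊓ Module.End.eigenspace (ρ g).toLinearMap a : Submodule K A)

/-- Some element has two eigenvalues on `T` whose quotient is not a root of unity. -/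
def Hyperbolic (T : Submodule K A) (ρ : Γ →* (A ≃ₐ[K] A)) : Prop :=
  ∃ F : Γ, ∃ x ∈ T, ∃ y ∈ T, x ≠ 0 ∧ y ≠ 0 ∧ ∃ a b : K, ρ F x = a • x ∧ ρ F y = b • y ∧
    ∀ k : ℕ, 0 < k → a ^ k ≠ b ^ k

/-- The local condition: among the elements with `χ g = 1` there is a unipotent one in the set `N`
with coprime defects; or one of finite order and in the set `P Λ`, whose eigenvalues are isolated with
respect to `Λ` (and some element of the group is hyperbolic). -/
def LocalCondition (χ : Γ →* Kˣ) (T : Submodule K A) (ρ : Γ →* (A ≃ₐ[K] A)) (N : Set Γ)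
    (P : Subgroup Kˣ → Set Γ) : Prop :=
  Unipotent T ρ {g | χ g = 1 ∧ g ∈ N} ∨
    (Hyperbolic T ρ ∧ ∃ Λ, ∃ g ∈ P Λ, χ g = 1 ∧ FiniteOrder Λ T ρ g)

/-- All eigenvalues of `g` belong to `Λ`. -/
def EigIn (Λ : Subgroup Kˣ) (ρ : Γ →* (A ≃ₐ[K] A)) (g : Γ) : Prop :=
  ∀ a : K, (∃ z, z ≠ 0 ∧ ρ g z = a • z) → ∃ l ∈ Λ, (l : K) = a

end Alg

open Pool.Agent.H914 Pool.Agent.H914.VarClass Pool.Agent.H914.VarClass.Obj
  Pool.Agent.H914.WeilCohomology Pool.Agent.H281R3.HT

variable {k : Type u} [Field k] {𝒱 : VarClass k} {ops : CycleOps 𝒱}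
  {W : WeilCohomology.{u, 0} ops} {Γ : Type} [Group Γ] {ι : Type}

/-- The elements of `Γ` which act trivially on the cohomology of `Z` and of the `X j`, `j ≠ i`. -/
def trivialOn (X : ι → GVar W Γ) (Z : GVar W Γ) (i : ι) : Set Γ :=
  {g | TrivVar Z g ∧ ∀ j, j ≠ i → TrivVar (X j) g}

/-- The elements of `Γ` whose eigenvalues on the cohomology of `Z` and of the `X j`, `j ≠ i`, are in
`Λ`. -/
def eigenvaluesIn (X : ι → GVar W Γ) (Z : GVar W Γ) (i : ι) (Λ : Subgroup W.Kˣ) : Set Γ :=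
  {g | EigIn Λ Z.act g ∧ ∀ j, j ≠ i → EigIn Λ (X j).act g}

/-- The pull-backs by the projections of the product are equivariant for the action `υ`. -/
def ProdAct (A B : GVar W Γ) (υ : Act W.K (W.H (A.X.prod B.X)) Γ) : Prop :=
  Intertwines (W.map (fst A.X B.X)) A.act υ ∧ Intertwines (W.map (snd A.X B.X)) B.act υ

/-- For all `A` and `B` in `G` the product of `A` and `B`, with an action which is compatible with the
projections, is in `G`. -/
def ClosedUnderProducts (G : Set (GVar W Γ)) : Prop :=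
  ∀ A ∈ G, ∀ B ∈ G, ∃ υ : Act W.K (W.H (A.X.prod B.X)) Γ, ProdAct A B υ ∧ (⟨A.X.prod B.X, υ⟩ : GVar W Γ) ∈ G

/-- The group acts on the cohomology of the members of the class `G` like a Galois group, and `G`
is closed under products. The variety `Z` and the odd-dimensional varieties `X i` are members of `G`;
the divisors `D i` on `X i` satisfy the hard Lefschetz theorem and the standard conjectures of
Lefschetz and of Hodge type; the transcendental cohomology of `X i` is in the middle degree and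
irreducible under all subgroups of finite index; and for every `i` there is an element as in
`LocalCondition`. -/
structure LocalSystem (χ : Γ →* W.Kˣ) (G : Set (GVar W Γ)) (X : ι → GVar W Γ)
    (D : ∀ i, (X i).X.Cycles) (Z : GVar W Γ) : Prop where
  galois : ∀ A ∈ G, IsGaloisVar χ A
  prod : ClosedUnderProducts G
  mem : ∀ i, X i ∈ G
  mem_base : Z ∈ G
  odd : ∀ i, Odd (X i).X.dim
  transIrred : ∀ i, TransIrred (X i) (D i)
  cond : ∀ i, LocalCondition χ (transcendental W (X i).X) (X i).act (trivialOn X Z i)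
    (eigenvaluesIn X Z i)

end Pool.Agent.V11219.Loc
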