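import Pool.Agent.TH125.Gal.Pub

/-!
# Families of varieties with unipotent inertia of arbitrary rank: definitions
-/

open CategoryTheory AlgebraicGeometry

universe u

namespace Pool.Agent.V11219.Quad

open Pool.Agent.TH125.Gal

section Alg

variable {K : Type} [Field K] {A : Type} [Ring A] [Algebra K A] {Γ : Type} [Group Γ]

/-- `(g - 1) ^ 2 = 0` on `T`. -/
def QuadAct (T : Submodule K A) (ρ : Γ →* (A ≃ₐ[K] A)) (g : Γ) : Prop :=
  ∀ t ∈ T, ρ g (ρ g t - t) = ρ g t - t

/-- The operator `g - 1`. -/
def dif (ρ : Γ →* (A ≃ₐ[K] A)) (g : Γ) : Module.End K A := (ρ g).toLinearMap - 1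

/-- The number `d` is a *defect* of `g` on `T`: the rank of `g - 1` on `T`, or the (algebraic)
multiplicity on `T` of a nonzero eigenvalue of `(g - 1) (g' - 1)`, for an element `g'` of the set `M`
with `(g' - 1) ^ 2 = 0` on `T`. -/
def IsDefectOn (T : Submodule K A) (ρ : Γ →* (A ≃ₐ[K] A)) (M : Set Γ) (g : Γ) (d : ℕ) : Prop :=
  d = Module.finrank K (T.map (dif ρ g)) ∨ ∃ g' ∈ M, QuadAct T ρ g' ∧ ∃ a : K, a ≠ 0 ∧
    d = Module.finrank K (T ⊓ Module.End.maxGenEigenspace (dif ρ g * dif ρ g') a : Submodule K A)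

/-- `(g - 1) ^ 2 = 0` on `T`, and the defects of `g` on `T` have no common prime factor, or one of
them is two. -/
def CoprimeDefects (T : Submodule K A) (ρ : Γ →* (A ≃ₐ[K] A)) (M : Set Γ) (g : Γ) : Prop :=
  QuadAct T ρ g ∧ ((∀ p : ℕ, p.Prime → ∃ d, IsDefectOn T ρ M g d ∧ ¬ p ∣ d) ∨
    IsDefectOn T ρ M g 2)

end Alg

open Pool.Agent.H914 Pool.Agent.H914.VarClass Pool.Agent.H914.VarClass.Obj
  Pool.Agent.H914.WeilCohomology Pool.Agent.H281R3.HT Pool.Agent.W552

variable {k : Type u} [Field k] {𝒱 : VarClass k} {ops : CycleOps 𝒱}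
  {W : WeilCohomology.{u, 0} ops} {Γ : Type} [Group Γ]

/-- The elements of `Γ` which act trivially on the Tate twists and on the cohomology of `Z` and of the
`X j` with `j ≠ i`. -/
def inertia (χ : Γ →* W.Kˣ) {ι : Type} (X : ι → GVar W Γ) (Z : GVar W Γ) (i : ι) : Set Γ :=
  {g | χ g = 1 ∧ TrivAct Z.act g ∧ ∀ j, j ≠ i → TrivAct (X j).act g}

/-- `Γ` acts on the cohomology of the odd-dimensional varieties `X i` like a Galois group; their
transcendental cohomology is in the middle degree and irreducible under all subgroups of finite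
index; numerical and homological equivalence coincide for them; for every `i` there is an element
of `inertia χ X Z i` with `(g - 1) ^ 2 = 0` on the transcendental cohomology of `X i` whose defects
have no common prime factor or contain the number two. -/
structure UnipotentFamily (χ : Γ →* W.Kˣ) {ι : Type} (X : ι → GVar W Γ) (Z : GVar W Γ) :
    Prop where
  odd : ∀ i, Odd (X i).X.dim
  galois : ∀ i, IsGaloisAct χ (W.gr (X i).X) (X i).X.dim (W.tr (X i).X)
    (algClasses W (X i).X) (X i).act
  homEqNum : ∀ i, HomEqNum W (X i).X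
  middle : ∀ i, transcendental W (X i).X ≤ W.gr (X i).X (X i).X.dim
  irreducible : ∀ i, IrredAct (X i).act (transcendental W (X i).X)
  unipotent : ∀ i, ∃ g ∈ inertia χ X Z i,
    CoprimeDefects (transcendental W (X i).X) (X i).act (inertia χ X Z i) g

end Pool.Agent.V11219.Quad
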