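import Mathlib
import Pool.Agent.V11219.QuadDefs
import Pool.Agent.V11219.QuadFull
import Pool.Agent.V11219.IsoStep

/-!
# Families of varieties with unipotent inertia of arbitrary rank
-/

open CategoryTheory AlgebraicGeometry Finset

set_option linter.unusedSectionVars false

universe u

namespace Pool.Agent.V11219.Quad

open Pool.Agent.TH125.Gal Pool.Agent.TH118.SG Pool.Agent.V11219.IsoF
open Pool.Agent.H914 Pool.Agent.H914.VarClass Pool.Agent.H914.VarClass.Obj
  Pool.Agent.H914.WeilCohomology Pool.Agent.H281R3.HT Pool.Agent.W552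

variable {k : Type u} [Field k] {𝒱 : VarClass k} {ops : CycleOps 𝒱}
  {W : WeilCohomology.{u, 0} ops} {Γ : Type} [Group Γ] {χ : Γ →* W.Kˣ}

section

variable {P : Polarized 𝒱} {ρ : Γ →* (W.H P.X ≃ₐ[W.K] W.H P.X)} {Z : 𝒱.Obj}
  {τ : Γ →* (W.H Z ≃ₐ[W.K] W.H Z)}

theorem quadAct_iff (hG : IsGalois W χ P.X ρ) {g : Γ} :
    QuadAct (transcendental W P.X) ρ g ↔ (rhoT hG g - 1) * (rhoT hG g - 1) = 0 := by
  constructor
  · intro h
    apply LinearMap.ext
    intro x
    apply Subtype.ext
    have h4 := h x x.2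
    rw [Module.End.mul_apply, LinearMap.sub_apply, LinearMap.sub_apply, Module.End.one_apply,
      Module.End.one_apply]
    change ρ g (ρ g x - x) - (ρ g x - x) = 0
    rw [h4, sub_self]
  · intro h t ht
    have h1 := congrArg (fun f : Module.End W.K (transcendental W P.X) => ((f ⟨t, ht⟩ :
      transcendental W P.X) : W.H P.X)) h
    have h2 : ρ g (ρ g t - t) - (ρ g t - t) = 0 := h1
    exact sub_eq_zero.1 h2

theorem dif_rhoT (hG : IsGalois W χ P.X ρ) (g : Γ) (x : transcendental W P.X) :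
    (((rhoT hG g - 1) x : transcendental W P.X) : W.H P.X) = dif ρ g x := rfl

theorem gdefect_of (hG : IsGalois W χ P.X ρ) {M : Set Γ} {g : Γ} {d : ℕ}
    (h : IsDefectOn (transcendental W P.X) ρ M g d) : GDefect (rhoT hG) M g d := by
  rcases h with h | ⟨g', hg', h2, a, ha, h⟩
  · left
    have e1 : (transcendental W P.X).map (dif ρ g) =
        (LinearMap.range (rhoT hG g - 1)).map (transcendental W P.X).subtype := by
      rw [LinearMap.range_eq_map]
      ext z
      constructor
      · rintro ⟨x, hx, rfl⟩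
        exact ⟨_, ⟨⟨x, hx⟩, Submodule.mem_top, rfl⟩, rfl⟩
      · rintro ⟨_, ⟨x, -, rfl⟩, rfl⟩
        exact ⟨x, x.2, rfl⟩
    rw [h, e1]
    exact Submodule.finrank_map_subtype_eq _ _
  · right
    refine ⟨g', hg', (quadAct_iff hG).1 h2, a, ha, ?_⟩
    have key : ∀ (n : ℕ) (x : transcendental W P.X),
        ((((((rhoT hG g - 1) * (rhoT hG g' - 1) - a • 1) ^ n :
          Module.End W.K (transcendental W P.X)) x : transcendental W P.X)) : W.H P.X) =
        ((dif ρ g * dif ρ g' - a • 1) ^ n : Module.End W.K (W.H P.X)) (x : W.H P.X) := by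
      intro n
      induction n with
      | zero => intro x; rfl
      | succ n ih =>
        intro x
        rw [pow_succ, Module.End.mul_apply, ih, pow_succ, Module.End.mul_apply]
        rfl
    have e1 : (transcendental W P.X ⊓
        Module.End.maxGenEigenspace (dif ρ g * dif ρ g') a : Submodule W.K (W.H P.X)) =
        (Module.End.maxGenEigenspace ((rhoT hG g - 1) * (rhoT hG g' - 1)) a).map
          (transcendental W P.X).subtype := by
      ext z
      constructor
      · rintro ⟨hz, hz'⟩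
        refine ⟨⟨z, hz⟩, ?_, rfl⟩
        obtain ⟨n, hn⟩ := (Module.End.mem_maxGenEigenspace _ _ _).1 hz'
        refine (Module.End.mem_maxGenEigenspace _ _ _).2 ⟨n, Subtype.ext ?_⟩
        exact (key n ⟨z, hz⟩).trans hn
      · rintro ⟨x, hx, rfl⟩
        refine ⟨x.2, ?_⟩
        obtain ⟨n, hn⟩ := (Module.End.mem_maxGenEigenspace _ _ _).1 hx
        refine (Module.End.mem_maxGenEigenspace _ _ _).2 ⟨n, ?_⟩
        have h3 := key n x
        rw [hn] at h3
        exact h3.symm
    rw [h, e1]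
    exact Submodule.finrank_map_subtype_eq _ _

/-- Unipotent elements. -/
theorem fullT_quad [IsAlgClosed W.K] (hDX : HomEqNum W P.X)
    (hmid : transcendental W P.X ≤ W.gr P.X P.X.dim)
    (hG : IsGalois W χ P.X ρ) (hodd : Odd P.X.dim)
    (hirr : StronglyIrreducible ρ (transcendental W P.X)) {M : Set Γ} (hχ : ∀ g ∈ M, χ g = 1)
    (hτ : ∀ g ∈ M, τ g = 1) {g : Γ} (hgM : g ∈ M)
    (hg : CoprimeDefects (transcendental W P.X) ρ M g) :
    FullT χ hG τ := by
  intro S _ _ σ hσ x y
  obtain ⟨hq, hd⟩ := hg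
  rw [rk_eq_SS]
  refine quad_full (χ := mult χ P.X.dim) (γ := g) (A := M) (form_alt hmid hodd)
    (trans_nondeg hDX) (fun g a b => ?_) (SI_rhoT hG hirr) (fun g hg => ?_) (fun g hg => ?_) hgM
    ((quadAct_iff hG).1 hq) ?_ x y
  · rw [mult_apply]
    exact bil_act hG g a b
  · rw [mult_apply, hχ g hg, Units.val_one, one_pow]
  · apply LinearMap.ext
    intro z
    rw [hσ g (hχ g hg), hτ g hg]
    rfl
  · rcases hd with hd | hd
    · left
      intro p hp
      obtain ⟨d, h1, h2⟩ := hd p hp
      exact ⟨d, gdefect_of hG h1, h2⟩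
    · exact Or.inr (gdefect_of hG hd)

/-- The transcendental cohomology is not zero. -/
theorem exists_ne_of_coprime {M : Set Γ} {g : Γ}
    (hg : CoprimeDefects (transcendental W P.X) ρ M g) : ∃ t : W.H P.X, t ≠ 0 := by
  by_contra hcon
  push Not at hcon
  have hbot : ∀ U : Submodule W.K (W.H P.X), Module.finrank W.K U = 0 := by
    intro U
    rw [Submodule.finrank_eq_zero, eq_bot_iff]
    intro x _
    rw [hcon x]
    exact Submodule.zero_mem _
  have h0 : ∀ d, IsDefectOn (transcendental W P.X) ρ M g d → d = 0 := by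
    rintro d (h | ⟨g', -, -, a, -, h⟩)
    · rw [h, hbot]
    · rw [h, hbot]
  rcases hg.2 with h | h
  · obtain ⟨d, h1, h2⟩ := h 2 Nat.prime_two
    rw [h0 d h1] at h2
    exact h2 (dvd_zero 2)
  · exact absurd (h0 2 h) two_ne_zero

end

/-- **The Tate conjecture for towers.** -/
theorem tate_unipotent [IsAlgClosed W.K] {ι : Type} {X : ι → GVar W Γ} {Z : GVar W Γ}
    (h : UnipotentFamily χ X Z) {S : Set ι} {Y : GVar W Γ} (hY : GTower X Z S Y) :
    TateConjecture χ Y ↔ TateConjecture χ Z := by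
  induction hY with
  | base => exact Iff.rfl
  | @step S Y Y' i n hT hi hn hP ih =>
    obtain ⟨g, hgM, hg⟩ := h.unipotent i
    rw [← ih]
    obtain ⟨υ, h1, h2⟩ := hP
    have hG := isGalois (h.galois i)
    have hfull : FullT (P := ⟨(X i).X, 0⟩) χ hG Y.act :=
      fullT_quad (P := ⟨(X i).X, 0⟩) (h.homEqNum i) (h.middle i) hG (h.odd i)
        (h.irreducible i) (M := inertia χ X Z i) (fun g hg => hg.1)
        (fun g hg => trivAct.1 (hT.trivAct (fun j hjS => hg.2.2 j fun h' => hi (h' ▸ hjS)) hg.2.1))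
        hgM hg
    constructor
    · refine tate_conv (P := ⟨(X i).X, 0⟩) (h.homEqNum i) ?_ (isPowAct h1 h2)
      intro h3
      obtain ⟨t, ht⟩ := exists_ne_of_coprime (P := ⟨(X i).X, 0⟩) hg
      apply ht
      rw [← one_mul t, h3, zero_mul]
    · exact tate_step'' (P := ⟨(X i).X, 0⟩) (h.homEqNum i) (h.middle i) hG
        (isPowAct h1 h2) (h.odd i) hfull

end Pool.Agent.V11219.Quad
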