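import Mathlib
import Pool.Agent.V11219.LocDefs
import Pool.Agent.V11219.QuadFamily
import Pool.Agent.V11219.IsoFamily
import Pool.Agent.TH125.Gal.Lef

/-!
# The standard conjectures for products with powers: local conditions
-/

open CategoryTheory AlgebraicGeometry Finset

set_option linter.unusedSectionVars false

universe u

namespace Pool.Agent.V11219.Loc

open Pool.Agent.TH125.Gal Pool.Agent.TH118.SG Pool.Agent.V11219.IsoF Pool.Agent.V11219.Quad
open Pool.Agent.H914 Pool.Agent.H914.VarClass Pool.Agent.H914.VarClass.Obj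
  Pool.Agent.H914.WeilCohomology Pool.Agent.H281R3.HT Pool.Agent.W552 Pool.Agent.H447

variable {k : Type u} [Field k] {𝒱 : VarClass k} {ops : CycleOps 𝒱}
  {W : WeilCohomology.{u, 0} ops} {Γ : Type} [Group Γ] {χ : Γ →* W.Kˣ} {G : Set (GVar W Γ)}

theorem eigT_eq {K : Type} [Field K] {A : Type} [Ring A] [Algebra K A] {Γ : Type} [Group Γ]
    (T : Submodule K A) (ρ : Γ →* (A ≃ₐ[K] A)) (g : Γ) (a : K) :
    eigT T ρ g a = T ⊓ Module.End.eigenspace (ρ g).toLinearMap a := by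
  ext t
  rw [Submodule.mem_inf, Module.End.mem_eigenspace_iff]
  exact Iff.rfl

theorem isolatedAct_of {K : Type} [Field K] {A : Type} [Ring A] [Algebra K A] {Γ : Type}
    [Group Γ] {Λ : Subgroup Kˣ} {T : Submodule K A} {ρ : Γ →* (A ≃ₐ[K] A)} {g : Γ}
    (h : FiniteOrder Λ T ρ g) : IsolatedAct Λ T ρ g := by
  refine ⟨h.1, ?_⟩
  have h1 : (fun a => Module.finrank K (eigT T ρ g a)) = fun a => Module.finrank K
      (T ⊓ Module.End.eigenspace (ρ g).toLinearMap a : Submodule K A) := by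
    funext a
    rw [eigT_eq]
  rw [h1]
  exact h.2

/-- The conditions on the polarized variety `A` relative to `B`. -/
structure SplitData (A : GVar W Γ) (D : A.X.Cycles) (B : GVar W Γ) : Prop where
  pol : IsPolarization W A.X D
  middle : transcendental W A.X ≤ W.gr A.X A.X.dim
  one_ne : (1 : W.H A.X) ≠ 0
  tgt : ∀ (s : SB W A.X) (m : ℕ) (c : W.H ((nest ops m fun _ => ⟨A.X, D⟩).X.prod B.X)),
    W552.AS W _ c → c ∈ Tgt (P := ⟨A.X, D⟩) s m B.X

section

variable {A B : GVar W Γ} {D : A.X.Cycles} {n : ℕ}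

/-- **The algebraic classes on a product.** -/
theorem tgt_of_full (hG : GaloisClass χ G) (hA : A ∈ G) (hB : B ∈ G)
    (hmid : transcendental W A.X ≤ W.gr A.X A.X.dim) (hDX : HomEqNum W A.X)
    (hodd : Odd A.X.dim)
    (hfull : FullT (P := ⟨A.X, D⟩) χ (isGalois (hG.galois A hA)) B.act)
    (s : SB W A.X) (m : ℕ)
    (c : W.H ((nest ops m fun _ => ⟨A.X, D⟩).X.prod B.X)) (hc : W552.AS W _ c) :
    c ∈ Tgt (P := ⟨A.X, D⟩) s m B.X := by
  obtain ⟨υ, hυ, hP⟩ := exists_pow_act hG hA hB D m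
  obtain ⟨b, hb⟩ := exists_monoBasis (ops := ops) (⟨A.X, D⟩ : Polarized 𝒱) s.e m
  have hgal := (hG.galois _ hυ)
  refine W552.AS.ind (p := fun c => c ∈ Tgt (P := ⟨A.X, D⟩) s m B.X) ?_ ?_ hc
  · intro j c hc
    obtain ⟨Δ, hΔ, h1⟩ := hgal.cl_fix j c hc
    exact mem_Tgt'' (P := ⟨A.X, D⟩) hb hDX hmid (isGalois (hG.galois A hA)) hP hodd hfull hΔ h1
  · intro x y hx hy
    exact Submodule.add_mem _ hx hy

theorem homEqNum_of_pol (h : IsPolarization W A.X D) : HomEqNum W A.X := by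
  obtain ⟨f, F, _⟩ := exists_Fp h.div h.hard h.lefschetz h.hodge
  exact F.hodge.2

theorem SplitData.homEqNum (h : SplitData A D B) : HomEqNum W A.X := homEqNum_of_pol h.pol

/-- positivity on the powers -/
theorem SplitData.fp_nest (h : SplitData A D B) (hB1 : (1 : W.H B.X) ≠ 0) (n : ℕ) :
    ∃ g, Fp W (nest ops n fun _ => ⟨A.X, D⟩).X (nest ops n fun _ => ⟨A.X, D⟩).D g := by
  obtain ⟨f, F, hls⟩ := exists_Fp h.pol.div h.pol.hard h.pol.lefschetz h.pol.hodge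
  obtain ⟨s⟩ := exists_SB h.homEqNum
  have key : ∀ m, ∀ c, W552.AS W (nest ops m fun _ => ⟨A.X, D⟩).X c → c ∈
      Submodule.span W.K {c | ∃ S i, Mq s (prj ops m fun _ => ⟨A.X, D⟩) S i c} := by
    intro m c hc
    exact mq_of_fst (P := ⟨A.X, D⟩) hB1 (h.tgt s m _ (hc.map (fst _ B.X)))
  exact Pool.Agent.TH125.Gal.fp_nest (P := ⟨A.X, D⟩) F hls h.pol.hard h.pol.lefschetz h.homEqNum h.middle s h.one_ne
    n (fun _ => key 1) (key n)

/-- **The conjecture D for products with powers.** -/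
theorem SplitData.homEqNum_prod (h : SplitData A D B) (n : ℕ) (hDB : HomEqNum W B.X) :
    HomEqNum W ((nest ops n fun _ => ⟨A.X, D⟩).X.prod B.X) := by
  by_cases hB1 : (1 : W.H B.X) = 0
  · intro j _ z _ _
    rw [← one_mul (W.cl _ z), ← map_one (W.map (snd _ B.X)), hB1, map_zero, zero_mul]
  · obtain ⟨g, F⟩ := h.fp_nest hB1 n
    obtain ⟨s⟩ := exists_SB h.homEqNum
    exact Pool.Agent.TH125.Gal.homEqNum_prod F (fun c hc => tgt_lspan h.homEqNum h.middle (h.tgt s n c hc)) hDB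

/-- **Positivity for products with powers.** -/
theorem SplitData.fp_prod (h : SplitData A D B) (n : ℕ) {E : B.X.Cycles}
    (hE : ∃ g, Fp W B.X E g) :
    ∃ g, Fp W ((nest ops n fun _ => ⟨A.X, D⟩).prod ops ⟨B.X, E⟩).X
      ((nest ops n fun _ => ⟨A.X, D⟩).prod ops ⟨B.X, E⟩).D g := by
  obtain ⟨g', F'⟩ := hE
  by_cases hB1 : (1 : W.H B.X) = 0
  · obtain ⟨f, F, hls⟩ := exists_Fp h.pol.div h.pol.hard h.pol.lefschetz h.pol.hodge
    obtain ⟨g, l, hFg, hSg, -⟩ := exists_nest (ops := ops) n (fun _ => (⟨A.X, D⟩ : Polarized 𝒱))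
      (fun _ => f) (fun _ => F.fr) (fun _ => F.sy) (fun _ => (exists_HB W A.X).some)
    refine ⟨_, hFg.prod F'.fr, hSg.prod hFg F'.fr F'.sy, fun x _ hx0 => absurd ?_ hx0⟩
    have h1 : (1 : W.H ((nest ops n fun _ => (⟨A.X, D⟩ : Polarized 𝒱)).X.prod B.X)) = 0 := by
      rw [← map_one (W.map (snd _ B.X)), hB1, map_zero]
    exact (one_mul x).symm.trans ((congrArg (· * x) h1).trans (zero_mul x))
  · obtain ⟨g, F⟩ := h.fp_nest hB1 n
    obtain ⟨s⟩ := exists_SB h.homEqNum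
    exact ⟨_, F.prod F' (fun c hc => tgt_lspan h.homEqNum h.middle (h.tgt s n c hc))⟩

/-- The algebraic cycles on a product split. -/
theorem SplitData.clSplit (h : SplitData A D B) (hB1 : (1 : W.H B.X) ≠ 0) (n : ℕ) :
    TH132.A.ClSplit W (nest ops n fun _ => (⟨A.X, D⟩ : Polarized 𝒱)).X B.X := by
  obtain ⟨g, F⟩ := h.fp_nest hB1 n
  obtain ⟨s⟩ := exists_SB h.homEqNum
  refine TH132.A.clSplit_of_tens fun z hz => TH132.A.mem_tens F.hodge.2 hz ?_
  exact lspan_le (tgt_lspan h.homEqNum h.middle (h.tgt s n _ hz))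

theorem SplitData.nest_one_ne (h : SplitData A D B) (n : ℕ) :
    (1 : W.H (nest ops n fun _ => (⟨A.X, D⟩ : Polarized 𝒱)).X) ≠ 0 := by
  obtain ⟨x, hx⟩ := exists_tr h.one_ne
  have h2 : W.tr (nest ops n fun _ => (⟨A.X, D⟩ : Polarized 𝒱)).X
      (mono (prj ops n fun _ => (⟨A.X, D⟩ : Polarized 𝒱)) fun _ => x) ≠ 0 := by
    rw [tr_mono]
    exact pow_ne_zero _ hx
  intro h0
  apply h2
  rw [← one_mul (mono _ _), h0, zero_mul, map_zero]

theorem SplitData.nest_hard (h : SplitData A D B) (m : ℕ) :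
    (nest ops m fun _ => (⟨A.X, D⟩ : Polarized 𝒱)).X.IsCyc 1
      (nest ops m fun _ => (⟨A.X, D⟩ : Polarized 𝒱)).D ∧
    HardLefschetz W (nest ops m fun _ => (⟨A.X, D⟩ : Polarized 𝒱)).X
      (nest ops m fun _ => (⟨A.X, D⟩ : Polarized 𝒱)).D := by
  induction m with
  | zero => exact ⟨h.pol.div, h.pol.hard⟩
  | succ m ih =>
    exact ⟨SmVar.IsCyc.add (ops.pull_mem _ h.pol.div) (ops.pull_mem _ ih.1),
      hardLefschetz_prod h.pol.div ih.1 h.pol.hard ih.2⟩

/-- **The conjecture A for products with powers.** -/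
theorem SplitData.lefschetzA_iff (h : SplitData A D B) (n : ℕ) {E : B.X.Cycles}
    (hE : B.X.IsCyc 1 E) (hHL : HardLefschetz W B.X E) :
    LefschetzA W ((nest ops n fun _ => (⟨A.X, D⟩ : Polarized 𝒱)).prod ops ⟨B.X, E⟩).X
      ((nest ops n fun _ => (⟨A.X, D⟩ : Polarized 𝒱)).prod ops ⟨B.X, E⟩).D ↔
      LefschetzA W B.X E := by
  by_cases hB1 : (1 : W.H B.X) = 0
  · refine iff_of_true (lefschetzA_of_zero ?_ _) (lefschetzA_of_zero hB1 _)
    have h1 : (1 : W.H ((nest ops n fun _ => (⟨A.X, D⟩ : Polarized 𝒱)).X.prod B.X)) = 0 := by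
      rw [← map_one (W.map (snd _ B.X)), hB1, map_zero]
    exact h1
  · obtain ⟨g, F⟩ := h.fp_nest hB1 n
    obtain ⟨hP, hPL⟩ := h.nest_hard n
    refine TH132.A.lefschetzA_prod_iff (h.clSplit hB1 n) hP hE
      (SmVar.IsCyc.add (ops.pull_mem _ hP) (ops.pull_mem _ hE)) ?_ hPL hHL
      (lefschetzA_of_D hP hPL F.hodge.2) (h.nest_one_ne n)
    show W.cl _ (ops.pull _ _ + ops.pull _ _) = _
    rw [map_add, W.cl_pull, W.cl_pull]

/-- **The conjecture A for products with powers and all divisors.** -/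
theorem SplitData.lefAll_iff (h : SplitData A D B) (n : ℕ) :
    LefAll W ((nest ops n fun _ => (⟨A.X, D⟩ : Polarized 𝒱)).X.prod B.X) ↔ LefAll W B.X := by
  by_cases hB1 : (1 : W.H B.X) = 0
  · refine iff_of_true (fun _ _ _ => lefschetzA_of_zero ?_ _)
      (fun _ _ _ => lefschetzA_of_zero hB1 _)
    have h1 : (1 : W.H ((nest ops n fun _ => (⟨A.X, D⟩ : Polarized 𝒱)).X.prod B.X)) = 0 := by
      rw [← map_one (W.map (snd _ B.X)), hB1, map_zero]
    exact h1
  have hP1 := h.nest_one_ne n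
  obtain ⟨g, F⟩ := h.fp_nest hB1 n
  have hS := h.clSplit hB1 n
  constructor
  · intro h1 E hE hHL
    obtain ⟨hP, hPL⟩ := h.nest_hard n
    exact (h.lefschetzA_iff n hE hHL).1 (h1 _
      (SmVar.IsCyc.add (ops.pull_mem _ hP) (ops.pull_mem _ hE))
      (hardLefschetz_prod hP hE hPL hHL))
  · intro h1 C hC hHL
    obtain ⟨D', E', hD', hE', hDE⟩ := TH132.A.div_split hS hC
    have h2 := TH132.A.hl_left hD' hE' hDE hHL hB1
    have h3 := TH132.A.hl_right hE' hD' hDE hHL hP1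
    exact (TH132.A.lefschetzA_prod_iff hS hD' hE' hC hDE h2 h3
      (lefschetzA_of_D hD' h2 F.hodge.2) hP1).2 (h1 E' hE' h3)

end

variable {ι : Type} {X : ι → GVar W Γ} {D : ∀ i, (X i).X.Cycles} {Z : GVar W Γ}

theorem LocalSystem.galoisClass (h : LocalSystem χ G X D Z) : GaloisClass χ G where
  galois := h.galois
  prod := fun A hA B hB => by
    obtain ⟨υ, hυ, hG⟩ := h.prod A hA B hB
    exact ⟨_, hG, IsProdVar.mk υ hυ.1 hυ.2⟩

/-- the action on the towers -/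
theorem exists_tower_act' [IsAlgClosed W.K] (hG : GaloisClass χ G) (hX : ∀ i, X i ∈ G)
    (hZ : Z ∈ G) (E : Z.X.Cycles) (L : List (ι × ℕ)) :
    ∃ υ : Γ →* (W.H (tower' ops (fun i => ⟨(X i).X, D i⟩) ⟨Z.X, E⟩ L).X ≃ₐ[W.K]
        W.H (tower' ops (fun i => ⟨(X i).X, D i⟩) ⟨Z.X, E⟩ L).X),
      (⟨(tower' ops (fun i => ⟨(X i).X, D i⟩) ⟨Z.X, E⟩ L).X, υ⟩ : GVar W Γ) ∈ G ∧
      (∀ g, (∀ a ∈ L, TrivAct (X a.1).act g) → TrivAct Z.act g → υ g = 1) ∧
      ∀ (Λ : Subgroup W.Kˣ) g, (∀ a ∈ L, EigenvaluesIn Λ (X a.1).act g) →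
        EigenvaluesIn Λ Z.act g → EigA Λ (υ g) := by
  induction L with
  | nil => exact ⟨Z.act, hZ, fun g _ h => trivAct.1 h, fun Λ g _ h a z hz h1 => h a ⟨z, hz, h1⟩⟩
  | cons a L ih =>
    obtain ⟨τ, hτ, hτ', hτe⟩ := ih
    obtain ⟨υ, hυ, hP⟩ := exists_pow_act hG (hX a.1) hτ (D a.1) a.2
    refine ⟨υ, hυ, fun g hg hgZ => ?_, fun Λ g hg hgZ => ?_⟩
    · exact act_one hP (trivAct.1 (hg a List.mem_cons_self))
        (hτ' g (fun b hb => hg b (List.mem_cons_of_mem _ hb)) hgZ)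
    · exact eig_pow hP (fun c z hz h => hg a List.mem_cons_self c ⟨z, hz, h⟩)
        (hτe Λ g (fun b hb => hg b (List.mem_cons_of_mem _ hb)) hgZ)

/-- the conditions for one step -/
theorem LocalSystem.split [IsAlgClosed W.K] (h : LocalSystem χ G X D Z) {a : ι × ℕ} {Y : 𝒱.Obj}
    {υ : Γ →* (W.H Y ≃ₐ[W.K] W.H Y)} (hY : (⟨Y, υ⟩ : GVar W Γ) ∈ G)
    {L : List (ι × ℕ)} (hL : a.1 ∉ L.map Prod.fst)
    (hυ : ∀ g, (∀ a ∈ L, TrivAct (X a.1).act g) → TrivAct Z.act g → υ g = 1)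
    (hυe : ∀ (Λ : Subgroup W.Kˣ) g, (∀ a ∈ L, EigenvaluesIn Λ (X a.1).act g) →
        EigenvaluesIn Λ Z.act g → EigA Λ (υ g)) :
    SplitData (X a.1) (D a.1) ⟨Y, υ⟩ := by
  have hne : ∀ b ∈ L, b.1 ≠ a.1 := fun b hb h0 => hL (List.mem_map.2 ⟨b, hb, h0⟩)
  have hpol := (h.transIrred a.1).polarization
  have hmid := (h.transIrred a.1).middle
  have hirr := (h.transIrred a.1).irreducible
  have hDX := homEqNum_of_pol hpol
  have hone : ∀ t : W.H (X a.1).X, t ≠ 0 → (1 : W.H (X a.1).X) ≠ 0 := by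
    intro t ht h3
    apply ht
    rw [← one_mul t, h3, zero_mul]
  have hGal := isGalois (h.galoisClass.galois _ (h.mem a.1))
  have hfull : FullT (P := ⟨(X a.1).X, D a.1⟩) χ hGal υ ∧ ∃ t : W.H (X a.1).X, t ≠ 0 := by
    rcases h.cond a.1 with ⟨g, hgM, hg⟩ | ⟨hF, Λ, g, hgP, hχ, hg⟩
    · have hg' : CoprimeDefects (transcendental W (X a.1).X) (X a.1).act
          {g | χ g = 1 ∧ g ∈ trivialOn X Z a.1} g := hg
      exact ⟨fullT_quad (P := ⟨(X a.1).X, D a.1⟩) hDX hmid hGal (h.odd a.1) hirr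
        (M := {g | χ g = 1 ∧ g ∈ trivialOn X Z a.1}) (fun g hg => hg.1)
        (fun g hg => hυ g (fun b hb => hg.2.2 b.1 (hne b hb)) hg.2.1) hgM hg',
        exists_ne_of_coprime (P := ⟨(X a.1).X, D a.1⟩) hg'⟩
    · have hg' : IsolatedAct Λ (transcendental W (X a.1).X) (X a.1).act g := isolatedAct_of hg
      refine ⟨fullT_iso (P := ⟨(X a.1).X, D a.1⟩) hDX hmid hGal (h.odd a.1) hirr hχ hg' hF
        (hυe Λ g (fun b hb => hgP.2 b.1 (hne b hb)) hgP.1), ?_⟩
      obtain ⟨F, x, hx, y, hy, hx0, -⟩ := hF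
      exact ⟨x, hx0⟩
  obtain ⟨hfull, t, ht⟩ := hfull
  exact ⟨hpol, hmid, hone t ht, fun s m c hc =>
    tgt_of_full h.galoisClass (h.mem a.1) hY hmid hDX (h.odd a.1) hfull s m c hc⟩

/-- **The conjecture D.** -/
theorem homEqNum_local [IsAlgClosed W.K] (h : LocalSystem χ G X D Z) (E : Z.X.Cycles)
    (L : List (ι × ℕ)) (hL : (L.map Prod.fst).Nodup) :
    HomEqNum W (nodalTower X D Z E L).X ↔ HomEqNum W Z.X := by
  rw [nodalTower, tower_eq]
  induction L with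
  | nil => exact Iff.rfl
  | cons a L ih =>
    rw [List.map_cons, List.nodup_cons] at hL
    obtain ⟨υ, hυ, hυ', hυe⟩ := exists_tower_act' (D := D) h.galoisClass h.mem h.mem_base E L
    have hN := h.split (a := a) hυ hL.1 hυ' hυe
    rw [← ih hL.2]
    constructor
    · intro h1
      obtain ⟨x, hx⟩ := exists_tr hN.one_ne
      have h2 : W.tr (nest ops a.2 fun _ => (⟨(X a.1).X, D a.1⟩ : Polarized 𝒱)).X
          (mono (prj ops a.2 fun _ => (⟨(X a.1).X, D a.1⟩ : Polarized 𝒱)) fun _ => x) ≠ 0 := by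
        rw [tr_mono]
        exact pow_ne_zero _ hx
      exact homEqNum_factor h2 h1
    · intro h1
      exact hN.homEqNum_prod a.2 h1

/-- **The conjecture of Hodge type.** -/
theorem hodge_local [IsAlgClosed W.K] (h : LocalSystem χ G X D Z) {E : Z.X.Cycles}
    (hE : IsPolarization W Z.X E) (L : List (ι × ℕ)) (hL : (L.map Prod.fst).Nodup) :
    HodgeType W (nodalTower X D Z E L).X (nodalTower X D Z E L).D ∧
      HomEqNum W (nodalTower X D Z E L).X := by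
  rw [nodalTower, tower_eq]
  have key : ∃ g, Fp W (tower' ops (fun i => ⟨(X i).X, D i⟩) ⟨Z.X, E⟩ L).X
      (tower' ops (fun i => ⟨(X i).X, D i⟩) ⟨Z.X, E⟩ L).D g := by
    induction L with
    | nil =>
      obtain ⟨g, hg, _⟩ := exists_Fp hE.div hE.hard hE.lefschetz hE.hodge
      exact ⟨g, hg⟩
    | cons a L ih =>
      rw [List.map_cons, List.nodup_cons] at hL
      obtain ⟨υ, hυ, hυ', hυe⟩ := exists_tower_act' (D := D) h.galoisClass h.mem h.mem_base E L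
      exact (h.split (a := a) hυ hL.1 hυ' hυe).fp_prod a.2 (ih hL.2)
  obtain ⟨g, F⟩ := key
  exact F.hodge

theorem local_hard [IsAlgClosed W.K] (h : LocalSystem χ G X D Z) {E : Z.X.Cycles}
    (hE : Z.X.IsCyc 1 E) (hHL : HardLefschetz W Z.X E) (L : List (ι × ℕ))
    (hL : (L.map Prod.fst).Nodup) :
    (tower' ops (fun i => ⟨(X i).X, D i⟩) ⟨Z.X, E⟩ L).X.IsCyc 1
      (tower' ops (fun i => ⟨(X i).X, D i⟩) ⟨Z.X, E⟩ L).D ∧
    HardLefschetz W (tower' ops (fun i => ⟨(X i).X, D i⟩) ⟨Z.X, E⟩ L).X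
      (tower' ops (fun i => ⟨(X i).X, D i⟩) ⟨Z.X, E⟩ L).D := by
  induction L with
  | nil => exact ⟨hE, hHL⟩
  | cons a L ih =>
    rw [List.map_cons, List.nodup_cons] at hL
    obtain ⟨υ, hυ, hυ', hυe⟩ := exists_tower_act' (D := D) h.galoisClass h.mem h.mem_base E L
    have hN := h.split (a := a) hυ hL.1 hυ' hυe
    have h1 := ih hL.2
    obtain ⟨hP, hPL⟩ := hN.nest_hard a.2
    exact ⟨SmVar.IsCyc.add (ops.pull_mem _ hP) (ops.pull_mem _ h1.1),
      hardLefschetz_prod hP h1.1 hPL h1.2⟩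

/-- **The conjecture A for towers.** -/
theorem lefschetzA_local [IsAlgClosed W.K] (h : LocalSystem χ G X D Z) {E : Z.X.Cycles}
    (hE : Z.X.IsCyc 1 E) (hHL : HardLefschetz W Z.X E) (L : List (ι × ℕ))
    (hL : (L.map Prod.fst).Nodup) :
    LefschetzA W (nodalTower X D Z E L).X (nodalTower X D Z E L).D ↔ LefschetzA W Z.X E := by
  rw [nodalTower, tower_eq]
  induction L with
  | nil => exact Iff.rfl
  | cons a L ih =>
    rw [List.map_cons, List.nodup_cons] at hL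
    obtain ⟨υ, hυ, hυ', hυe⟩ := exists_tower_act' (D := D) h.galoisClass h.mem h.mem_base E L
    have hN := h.split (a := a) hυ hL.1 hυ' hυe
    have h1 := local_hard h hE hHL L hL.2
    rw [← ih hL.2]
    exact hN.lefschetzA_iff a.2 h1.1 h1.2

/-- **The conjecture A for towers and all divisors.** -/
theorem lefAll_local [IsAlgClosed W.K] (h : LocalSystem χ G X D Z) (E : Z.X.Cycles)
    (L : List (ι × ℕ)) (hL : (L.map Prod.fst).Nodup) :
    LefAll W (nodalTower X D Z E L).X ↔ LefAll W Z.X := by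
  rw [nodalTower, tower_eq]
  induction L with
  | nil => exact Iff.rfl
  | cons a L ih =>
    rw [List.map_cons, List.nodup_cons] at hL
    obtain ⟨υ, hυ, hυ', hυe⟩ := exists_tower_act' (D := D) h.galoisClass h.mem h.mem_base E L
    have hN := h.split (a := a) hυ hL.1 hυ' hυe
    rw [← ih hL.2]
    exact hN.lefAll_iff a.2

end Pool.Agent.V11219.Loc
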