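import Mathlib
import Pool.Agent.V11219.ClsDefs
import Pool.Agent.V11219.SstStep

/-!
# Tate classes and systems of classes: the step
-/

open CategoryTheory AlgebraicGeometry Finset Function

set_option linter.unusedSectionVars false

namespace Pool.Agent.V11219.Cls

universe u

open Pool.Agent.TH125.Gal Pool.Agent.TH118.SG Pool.Agent.V11219.IsoF Pool.Agent.V11219.Loc
  Pool.Agent.V11219.Sst

open Pool.Agent.H914 Pool.Agent.H914.VarClass Pool.Agent.H914.VarClass.Obj
  Pool.Agent.H914.WeilCohomology Pool.Agent.H281R3.HT Pool.Agent.W552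

variable {k : Type u} [Field k] {𝒱 : VarClass k} {ops : CycleOps 𝒱}
  {W : WeilCohomology.{u, 0} ops} {P : Polarized 𝒱} {n : ℕ} {Z : 𝒱.Obj}
  {Γ : Type} [Group Γ] {χ : Γ →* W.Kˣ} {ρ : Γ →* (W.H P.X ≃ₐ[W.K] W.H P.X)}
  {τ : Γ →* (W.H Z ≃ₐ[W.K] W.H Z)}
  {υ : Γ →* (W.H ((nest ops n fun _ => P).X.prod Z) ≃ₐ[W.K]
    W.H ((nest ops n fun _ => P).X.prod Z))}
  {C : Classes W}

/-- The step for systems of classes. -/
theorem step_cls (hC : ClassSystem W C) (hDX : HomEqNum W P.X)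
    (hmid : transcendental W P.X ≤ W.gr P.X P.X.dim)
    (hG : IsGalois W χ P.X ρ) (hP : IsPowAct W P n Z ρ τ υ) (hodd : Odd P.X.dim)
    (hfull : FullR χ hG τ) (hT : TateIn χ C (⟨Z, τ⟩ : GVar W Γ)) :
    TateIn χ C (⟨(nest ops n fun _ => P).X.prod Z, υ⟩ : GVar W Γ) := by
  obtain ⟨s⟩ := exists_SB hDX
  obtain ⟨b, hb⟩ := exists_monoBasis (ops := ops) P s.e n
  intro j c hcj ⟨Δ, hΔ, hc⟩
  have h1 := mem_TgtR hb hDX hmid hG hP hodd hfull hΔ hc
  obtain ⟨N, m, i, φ, hm, hφ, hexp⟩ := exists_expansion s n Z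
  obtain ⟨Δ', hΔ', hfix⟩ := exists_fix hG s
  have h2 := hexp c h1
  -- uniqueness
  have huni : ∀ (x : Fin N → W.H Z) (l : Fin N),
      ctr (φ l) (∑ l', W.map (fst _ Z) (m l') * W.map (snd _ Z) (x l')) = x l := by
    intro x l
    rw [map_sum, Finset.sum_eq_single l]
    · rw [ctr_apply, hφ, if_pos rfl, one_smul]
    · intro l' _ hl
      rw [ctr_apply, hφ, if_neg hl, zero_smul]
    · intro h
      exact absurd (Finset.mem_univ _) h
  set x : Fin N → W.H Z := fun l => ctr (φ l) c with hx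
  -- degrees
  have hdeg : ∀ l, x l = if 2 * i l ≤ 2 * j then
      proj (W.isInternal Z) (2 * j - 2 * i l) (x l) else 0 := by
    intro l
    have h3 : c = ∑ l', W.map (fst _ Z) (m l') * W.map (snd _ Z)
        (if 2 * i l' ≤ 2 * j then proj (W.isInternal Z) (2 * j - 2 * i l') (x l') else 0) := by
      conv_lhs => rw [← proj_same (W.isInternal _) hcj, h2]
      rw [map_sum]
      refine Finset.sum_congr rfl fun l' _ => ?_
      obtain ⟨S, hS⟩ := hm l'
      rw [proj_ext (hS.gr hmid)]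
      by_cases h : 2 * i l' ≤ 2 * j
      · rw [if_pos h, if_pos h]
      · rw [if_neg h, if_neg h, map_zero, mul_zero]
    conv_lhs => rw [hx]
    beta_reduce
    rw [h3]
    exact huni _ l
  -- semi-invariance
  have hact : ∀ g ∈ Δ ⊓ Δ', ∀ l, (χ g : W.K) ^ i l • τ g (x l) = (χ g : W.K) ^ j • x l := by
    intro g hg l
    have h3 : υ g c = ∑ l', W.map (fst _ Z) (m l') * W.map (snd _ Z)
        ((χ g : W.K) ^ i l' • τ g (x l')) := by
      conv_lhs => rw [h2]
      rw [map_sum]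
      refine Finset.sum_congr rfl fun l' _ => ?_
      obtain ⟨S, hS⟩ := hm l'
      rw [map_mul, mq_act hmid hG hP (hfix g hg.2) hS, (hP g).2, map_smul, smul_mul_assoc,
        mul_smul_comm]
    have h4 := huni (fun l' => (χ g : W.K) ^ i l' • τ g (x l')) l
    rw [← h3, hc g hg.1, map_smul] at h4
    exact h4.symm
  have hcls : ∀ l, x l ∈ C Z := by
    intro l
    by_cases h : 2 * i l ≤ 2 * j
    · have h3 := hdeg l
      rw [if_pos h] at h3
      have h4 : x l ∈ W.gr Z (2 * (j - i l)) := by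
        rw [h3, show 2 * (j - i l) = 2 * j - 2 * i l by omega]
        exact proj_mem _ _ _
      refine hT (j - i l) (x l) h4 ⟨Δ ⊓ Δ', inferInstance, fun g hg => ?_⟩
      have h6 := hact g hg l
      have h7 : (χ g : W.K) ^ j = (χ g : W.K) ^ i l * (χ g : W.K) ^ (j - i l) := by
        rw [← pow_add]
        congr 1
        omega
      rw [h7, mul_smul] at h6
      exact smul_right_injective _ (pow_ne_zero _ (Units.ne_zero (χ g))) h6
    · have h3 := hdeg l
      rw [if_neg h] at h3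
      rw [h3]
      exact Submodule.zero_mem _
  have h8 : c ∈ C ((nest ops n fun _ => P).X.prod Z) := by
    rw [h2]
    refine Submodule.sum_mem _ fun l _ => ?_
    obtain ⟨S, hS⟩ := hm l
    exact hC.mul _ _ (hC.map _ _ _ _ (hC.alg _ (hS.alg hDX hmid))) _ (hC.map _ _ _ _ (hcls l))
  exact h8

/-- The converse of the step. -/
theorem conv_cls (hC : ClassSystem W C) (hDX : HomEqNum W P.X) (h1 : (1 : W.H P.X) ≠ 0)
    (hP : IsPowAct W P n Z ρ τ υ)
    (hT : TateIn χ C (⟨(nest ops n fun _ => P).X.prod Z, υ⟩ : GVar W Γ)) :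
    TateIn χ C (⟨Z, τ⟩ : GVar W Γ) := by
  intro j c hcj ⟨Δ, hΔ, hc⟩
  have h2 : W.map (snd _ Z) c ∈ C ((nest ops n fun _ => P).X.prod Z) :=
    hT j (W.map (snd _ Z) c) (W.map_mem _ hcj) ⟨Δ, hΔ, fun g hg => by
      change υ g (W.map (snd _ Z) c) = _
      rw [(hP g).2, hc g hg, map_smul]⟩
  obtain ⟨a, ha, ha0⟩ := exists_pt hDX h1
  have h3 : W.push (snd (nest ops n fun _ => P).X Z) (W.map (fst _ Z)
      (mono (prj ops n fun _ => P) fun _ => a) * W.map (snd _ Z) c) ∈ C Z :=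
    hC.push _ _ _ _ (hC.mul _ _ (hC.alg _ (algSpan_map _ (mono_alg _ fun _ => alg_mem ha))) _ h2)
  rw [W.push_snd, tr_mono] at h3
  have h4 := Submodule.smul_mem _ (W.tr P.X a ^ (n + 1))⁻¹ h3
  rw [smul_smul, inv_mul_cancel₀ (pow_ne_zero _ ha0), one_smul] at h4
  exact h4

/-- From `FullT` to `FullR`. -/
theorem fullR_of_fullT {hG : IsGalois W χ P.X ρ} (h : FullT χ hG τ) : FullR χ hG τ := by
  intro S _ _ lam hlam x y
  refine h S (twist lam τ) (fun g hg z => ?_) x y
  rw [twist_apply, hlam g hg]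
  simp

theorem Tower.gTower {ι : Type} {X : ι → GVar W Γ} {Z Y : GVar W Γ} {S : Set ι}
    (hodd : ∀ i, Odd (X i).X.dim) (h : Tower X Z S Y) : GTower X Z S Y := by
  induction h with
  | base => exact GTower.base
  | step i n _ hi hP ih =>
    exact GTower.step i n ih hi (fun h => absurd h (Nat.not_even_iff_odd.2 (hodd i))) hP

end Pool.Agent.V11219.Cls
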