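import Pool.Agent.V11219.SstDefs

/-!
# Simultaneous semistable degenerations, relative to other varieties: definitions
-/

open CategoryTheory AlgebraicGeometry

universe u

namespace Pool.Agent.V11219.Sst

open Pool.Agent.TH125.Gal Pool.Agent.V11219.Loc

open Pool.Agent.H914 Pool.Agent.H914.VarClass Pool.Agent.H914.VarClass.Obj
  Pool.Agent.H914.WeilCohomology Pool.Agent.H281R3.HT

variable {k : Type u} [Field k] {𝒱 : VarClass k} {ops : CycleOps 𝒱}
  {W : WeilCohomology.{u, 0} ops} {Γ : Type} [Group Γ] {ι β : Type}

/-- The rank of `g - 1` on `T`. -/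
noncomputable def rankOf {K A Γ : Type} [Field K] [Ring A] [Algebra K A] [Group Γ]
    (T : Submodule K A) (ρ : Act K A Γ) (g : Γ) : ℕ :=
  Module.finrank K (T.map (dif ρ g))

/-- The characters of `Γ` with values in the coefficient field of `W`. -/
abbrev CharOf (W : WeilCohomology.{u, 0} ops) (Γ : Type) [Group Γ] : Type := Γ →* W.Kˣ

/-- The rank of `g - 1` on the transcendental cohomology of `A`. -/
noncomputable def rankOn (A : GVar W Γ) (g : Γ) : ℕ := rankOf (transcendental W A.X) A.act g

/-- For an element `g` of `N` the rank on `A` is larger than the sum of the ranks on the `Y b`. -/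
def LargerRank [Fintype β] (A : GVar W Γ) (Y : β → GVar W Γ) (N : Set Γ) : Prop :=
  ∃ g ∈ N, ∑ b, rankOn (Y b) g < rankOn A g

/-- The variety `A` has odd dimension, numerical and homological equivalence coincide for `A`, and
its transcendental cohomology is in the middle degree. -/
def GoodVar (A : GVar W Γ) : Prop :=
  Odd A.X.dim ∧ HomEqNum W A.X ∧ transcendental W A.X ≤ W.gr A.X A.X.dim

/-- The varieties `X i` and `Y b` satisfy `GoodVar`, and `Γ` acts on their cohomology like a Galois
group; the dimension of the varieties `Y b` is `d`; the transcendental cohomology of `X i` is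
irreducible under all subgroups of finite index, and no two of them are isomorphic up to scalars; for
every `i` the set of the elements which belong to `semistable` for the family `X` and for the family
`Y` satisfies `SmallDefects` on it and contains an element `g` with a rank on `X i` which is larger
than the sum of the ranks on the varieties `Y b`. -/
structure SemistableOver [Fintype β] (χ : CharOf W Γ) (X : ι → GVar W Γ) (Y : β → GVar W Γ) (d : ℕ)
    (Z : GVar W Γ) : Prop where
  good : ∀ i, GoodVar (X i)
  good' : ∀ b, GoodVar (Y b)
  galois : ∀ i, IsGaloisVar χ (X i)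
  galois' : ∀ b, IsGaloisVar χ (Y b)
  dim : ∀ b, (Y b).X.dim = d
  irreducible : ∀ i, IrredAct (X i).act (transcendental W (X i).X)
  distinct : ∀ i j, i ≠ j → ¬ IsoUpToScalars (X i) (X j)
  small : ∀ i, SmallVar (X i) (semistable χ X Z ∩ semistable χ Y Z)
  larger : ∀ i, LargerRank (X i) Y (semistable χ X Z ∩ semistable χ Y Z)

end Pool.Agent.V11219.Sst
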