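import Pool.Agent.V11219.LocDefs

/-!
# Polarized varieties with simultaneous semistable degenerations and their products: definitions
-/

open CategoryTheory AlgebraicGeometry

universe u

namespace Pool.Agent.V11219.Sst

open Pool.Agent.TH125.Gal Pool.Agent.V11219.Loc

open Pool.Agent.H914 Pool.Agent.H914.VarClass Pool.Agent.H914.VarClass.Obj
  Pool.Agent.H914.WeilCohomology Pool.Agent.H281R3.HT

variable {k : Type u} [Field k] {𝒱 : VarClass k} {ops : CycleOps 𝒱}
  {W : WeilCohomology.{u, 0} ops} {Γ : Type} [Group Γ] {ι : Type}

section Alg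

variable {K A B Γ : Type} [Field K] [Ring A] [Algebra K A] [Ring B] [Algebra K B] [Group Γ]

/-- `χ g = 1`. -/
def InKer (χ : Γ →* Kˣ) (g : Γ) : Prop := χ g = 1

/-- The defects of `g` have no common prime factor or contain the number two. -/
def Coprime (T : Submodule K A) (ρ : Act K A Γ) (N : Set Γ) (g : Γ) : Prop :=
  (∀ p : ℕ, p.Prime → ∃ d, IsDefect T ρ N g d ∧ ¬ p ∣ d) ∨ IsDefect T ρ N g 2

/-- The defects of the elements of `N` have no common prime factor. -/
def AllCoprime (T : Submodule K A) (ρ : Act K A Γ) (N : Set Γ) : Prop :=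
  ∀ p : ℕ, p.Prime → ∃ g ∈ N, ∃ d, IsDefect T ρ N g d ∧ ¬ p ∣ d

/-- The subspace `U` is stable under the conjugates of `g`. -/
def StableConj (ρ : Act K A Γ) (g : Γ) (U : Submodule K A) : Prop :=
  ∀ h : Γ, ∀ x ∈ U, ρ (h * g * h⁻¹) x ∈ U

/-- The conjugates of `g` act irreducibly on `T`. -/
def ConjIrreducible (T : Submodule K A) (ρ : Act K A Γ) (g : Γ) : Prop :=
  ∀ U ≤ T, StableConj ρ g U → U = ⊥ ∨ U = T

/-- The set `N` contains an element whose defects on `T` have no common prime factor or contain the
number two; or the conjugates of an element of `N` act irreducibly on `T`, and the defects of all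
elements of `N` have no common prime factor. -/
def SmallDefects (T : Submodule K A) (ρ : Act K A Γ) (N : Set Γ) : Prop :=
  (∃ g ∈ N, Coprime T ρ N g) ∨ ((∃ g ∈ N, ConjIrreducible T ρ g) ∧ AllCoprime T ρ N)

/-- The subspaces `T` and `T'` are isomorphic up to scalars. -/
def IsoUp (T : Submodule K A) (T' : Submodule K B) (ρ : Act K A Γ) (ρ' : Act K B Γ) : Prop :=
  ∃ f : T ≃ₗ[K] T', ∀ g, ∃ c : K, ∀ x y : T, (y : A) = ρ g x → (f y : B) = c • ρ' g (f x)

end Alg

/-- `(g - 1) ^ 2 = 0` on the transcendental cohomology of `A`. -/
def QuadVar (A : GVar W Γ) (g : Γ) : Prop := Quad (transcendental W A.X) A.act g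

/-- `SmallDefects` for the transcendental cohomology of `A`. -/
def SmallVar (A : GVar W Γ) (N : Set Γ) : Prop := SmallDefects (transcendental W A.X) A.act N

/-- The elements `g` of `Γ` with `χ g = 1` which act trivially on the cohomology of `Z` and with
`(g - 1) ^ 2 = 0` on the transcendental cohomology of all `X i`. -/
def semistable (χ : Γ →* W.Kˣ) (X : ι → GVar W Γ) (Z : GVar W Γ) : Set Γ :=
  {g | InKer χ g ∧ TrivVar Z g ∧ ∀ i, QuadVar (X i) g}

/-- The transcendental cohomologies of `A` and `B` are isomorphic up to scalars. -/
def IsoUpToScalars (A B : GVar W Γ) : Prop :=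
  IsoUp (transcendental W A.X) (transcendental W B.X) A.act B.act

/-- The group `Γ` acts on the cohomology of the odd-dimensional varieties `X i` like a Galois group;
numerical and homological equivalence coincide for them; their transcendental cohomology is in the
middle degree and irreducible under all subgroups of finite index, and no two of them are isomorphic
up to scalars; and for every `i` the set `semistable` satisfies `SmallDefects` on it. -/
structure SemistableVars (χ : Γ →* W.Kˣ) (X : ι → GVar W Γ) (Z : GVar W Γ) : Prop where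
  odd : ∀ i, Odd (X i).X.dim
  galois : ∀ i, IsGaloisVar χ (X i)
  homEqNum : ∀ i, HomEqNum W (X i).X
  middle : ∀ i, transcendental W (X i).X ≤ W.gr (X i).X (X i).X.dim
  irreducible : ∀ i, IrredAct (X i).act (transcendental W (X i).X)
  distinct : ∀ i j, i ≠ j → ¬ IsoUpToScalars (X i) (X j)
  small : ∀ i, SmallVar (X i) (semistable χ X Z)

/-- The group acts on the cohomology of the members of the class `G` like a Galois group, and `G`
is closed under products. The variety `Z` and the odd-dimensional varieties `X i` are members of `G`;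
the divisors `D i` on `X i` satisfy the hard Lefschetz theorem and the standard conjectures of
Lefschetz and of Hodge type; the transcendental cohomology of `X i` is in the middle degree and
irreducible under all subgroups of finite index, and no two of them are isomorphic up to scalars;
and for every `i` the set `semistable` satisfies `SmallDefects` on it. -/
structure SemistableSystem (χ : Γ →* W.Kˣ) (G : Set (GVar W Γ)) (X : ι → GVar W Γ)
    (D : ∀ i, (X i).X.Cycles) (Z : GVar W Γ) : Prop where
  galois : ∀ A ∈ G, IsGaloisVar χ A
  prod : ClosedUnderProducts G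
  mem : ∀ i, X i ∈ G
  mem_base : Z ∈ G
  odd : ∀ i, Odd (X i).X.dim
  transIrred : ∀ i, TransIrred (X i) (D i)
  distinct : ∀ i j, i ≠ j → ¬ IsoUpToScalars (X i) (X j)
  small : ∀ i, SmallVar (X i) (semistable χ X Z)

end Pool.Agent.V11219.Sst
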