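import Mathlib
import Pool.Agent.V11219.SstDefs
import Pool.Agent.V11219.SstStep

/-!
# Simultaneous semistable degenerations: the symplectic Lie algebras kill all equivariant maps
-/

open CategoryTheory AlgebraicGeometry Finset Function

set_option linter.unusedSectionVars false
set_option linter.unusedVariables false

namespace Pool.Agent.V11219.Sst

universe u

open Pool.Agent.TH125.Gal Pool.Agent.TH118.SG Pool.Agent.V11219.IsoF Pool.Agent.V11219.Loc

open Pool.Agent.H914 Pool.Agent.H914.VarClass Pool.Agent.H914.VarClass.Obj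
  Pool.Agent.H914.WeilCohomology Pool.Agent.H281R3.HT Pool.Agent.W552

variable {k : Type u} [Field k] {𝒱 : VarClass k} {ops : CycleOps 𝒱}
  {W : WeilCohomology.{u, 0} ops} {Γ : Type} [Group Γ] {χ : Γ →* W.Kˣ}

section act

variable {P : Polarized 𝒱} {n : ℕ} {Z : 𝒱.Obj} {s : SB W P.X}
  {ρ : Γ →* (W.H P.X ≃ₐ[W.K] W.H P.X)} {τ : Γ →* (W.H Z ≃ₐ[W.K] W.H Z)}
  {υ : Γ →* (W.H ((nest ops n fun _ => P).X.prod Z) ≃ₐ[W.K]
    W.H ((nest ops n fun _ => P).X.prod Z))}
  {b : Module.Basis (Fin (n + 1) → Fin s.NC ⊕ Fin s.NT) W.K (W.H (nest ops n fun _ => P).X)}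
  (hb : ∀ r, b r = mono (prj ops n fun _ => P) fun p => s.e (r p))

include hb in
/-- The action on the multilinear maps. -/
theorem hS_act (hG : IsGalois W χ P.X ρ) (hP : IsPowAct W P n Z ρ τ υ) :
    ∃ Δ' : Subgroup Γ, Δ'.FiniteIndex ∧ ∀ g ∈ Δ', ∀ c (c₀ : Fin (n + 1) → Option (Fin s.NC)) v,
      hS s b (υ g c) c₀ (fun p => rhoT hG g (v p)) =
        ((lamb χ s c₀ 0 g : W.Kˣ) : W.K) • τ g (hS s b c c₀ v) := by
  obtain ⟨Δ', hΔ', hfix⟩ := exists_fix hG s
  refine ⟨Δ', hΔ', fun g hg c c₀ v => ?_⟩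
  have hχ : (χ g : W.K) ≠ 0 := Units.ne_zero _
  set V : Fin (n + 1) → W.H P.X := fun p =>
    if h : c₀ p = none then (v ⟨p, h⟩ : W.H P.X) else fixv s c₀ ⟨p, h⟩ with hV
  have h1 : (fun p => if h : c₀ p = none then ((rhoT hG g (v ⟨p, h⟩) : transcendental W P.X) :
      W.H P.X) else fixv s c₀ ⟨p, h⟩) = fun p => ((χ g : W.K) ^ fixw s c₀ p)⁻¹ • ρ g (V p) := by
    funext p
    by_cases h : c₀ p = none
    · rw [dif_pos h, hV]
      beta_reduce
      rw [dif_pos h, fixw, h, rhoT_apply]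
      simp
    · obtain ⟨i, hi⟩ := Option.ne_none_iff_exists'.1 h
      rw [dif_neg h, hV]
      beta_reduce
      rw [dif_neg h, fixv_some hi, uC_act hG s (hfix g hg), fixw, hi, smul_smul]
      change _ = (((χ g : W.K) ^ (P.X.dim - s.jC i))⁻¹ * (χ g : W.K) ^ (P.X.dim - s.jC i)) •
        (s.uC i : W.H P.X)
      rw [inv_mul_cancel₀ (pow_ne_zero _ hχ), one_smul]
  rw [hS_apply, h1, MultilinearMap.map_smul_univ,
    hml_equiv hb (bil_act hG g) (hP g).1 (hP g).2, smul_smul, lamb_apply, hS_apply]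
  congr 1
  push_cast
  simp

include hb in
/-- The multilinear map of a class, as a linear map. -/
theorem exists_hSL (c₀ : Fin (n + 1) → Option (Fin s.NC)) :
    ∃ L : W.H ((nest ops n fun _ => P).X.prod Z) →ₗ[W.K]
      MultilinearMap W.K (fun _ : Free c₀ => transcendental W P.X) (W.H Z),
      ∀ c, L c = hS s b c c₀ :=
  ⟨{ toFun := fun c => hS s b c c₀
     map_add' := fun c c' => by
      apply MultilinearMap.ext
      intro v
      rw [add_apply, hS_apply, hS_apply, hS_apply, hml_add hb]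
     map_smul' := fun x c => by
      apply MultilinearMap.ext
      intro v
      rw [smul_apply, hS_apply, hS_apply, hml_smul hb]
      rfl }, fun _ => rfl⟩

include hb in
/-- A class is determined by the multilinear maps. -/
theorem eq_zero_of_hS {c : W.H ((nest ops n fun _ => P).X.prod Z)}
    (h : ∀ (c₀ : Fin (n + 1) → Option (Fin s.NC)) (r : Free c₀ → Fin s.NT),
      hS s b c c₀ (fun j => s.uT (r j)) = 0) : c = 0 := by
  rw [expand b c, sum_patterns]
  refine Finset.sum_eq_zero fun c₀ _ => Finset.sum_eq_zero fun r _ => ?_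
  rw [coord_eq hb, ← hS_comb, h, map_zero, mul_zero]

end act

variable {ι : Type} [Fintype ι] [DecidableEq ι] {X : ι → GVar W Γ}

/-- The symplectic Lie algebra of the `i`-th piece kills all twisted equivariant maps to the
cohomology of `Y`. -/
def KT (hG : ∀ i, IsGalois W χ (X i).X (X i).act) (Y : 𝒱.Obj) (τ : Γ →* (W.H Y ≃ₐ[W.K] W.H Y))
    (i : ι) : Prop :=
  ∀ (S : Type) [Fintype S] [DecidableEq S] (lam : Γ →* W.Kˣ), (∀ g, χ g = 1 → lam g = 1) →
  ∀ Δ : Subgroup Γ, Δ.FiniteIndex →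
  ∀ f : MultilinearMap W.K (fun _ : S => ∀ j, transcendental W (X j).X) (W.H Y),
  (∀ g ∈ Δ, ∀ x : S → ∀ j, transcendental W (X j).X,
    f (fun s j => rhoT (hG j) g (x s j)) = (lam g : W.K) • τ g (f x)) →
  ∀ (u v : transcendental W (X i).X) (z : S → ∀ j, transcendental W (X j).X),
    ∑ s, f (update z s (Pi.single i (Pool.Agent.H204R3.SP.SS
      (rform W (X i).X (transcendental W (X i).X)) u v (z s i)))) = 0

/-- The Lie algebra is the whole symplectic one. -/
theorem fullR_of (hG : ∀ i, IsGalois W χ (X i).X (X i).act) {Y : 𝒱.Obj}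
    {τ : Γ →* (W.H Y ≃ₐ[W.K] W.H Y)} {i : ι} (h : KT hG Y τ i) (D : (X i).X.Cycles)
    (hmid : transcendental W (X i).X ≤ W.gr (X i).X (X i).X.dim) (hodd : Odd (X i).X.dim) :
    FullR (P := ⟨(X i).X, D⟩) χ (hG i) τ := by
  intro S _ _ lam hlam x y
  rw [rk_eq_SS]
  refine ⟨Gk.SS_sk (form_alt (P := ⟨(X i).X, D⟩) hmid hodd) x y, ?_⟩
  rintro f ⟨Δ, hΔ, hf⟩ v
  have h1 := h S lam hlam Δ hΔ (f.compLinearMap fun _ => LinearMap.proj i) (fun g hg x => by
    rw [MultilinearMap.compLinearMap_apply, MultilinearMap.compLinearMap_apply]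
    exact hf g hg fun s => x s i) x y (fun s => Pi.single i (v s))
  refine Eq.trans (Finset.sum_congr rfl fun s _ => ?_) h1
  rw [MultilinearMap.compLinearMap_apply]
  congr 1
  funext s'
  by_cases hs : s' = s
  · subst hs
    rw [update_self, update_self, LinearMap.proj_apply, Pi.single_eq_same, Pi.single_eq_same]
  · rw [update_of_ne hs, update_of_ne hs, LinearMap.proj_apply, Pi.single_eq_same]

/-- **The step.** -/
theorem KT.step (hG : ∀ i, IsGalois W χ (X i).X (X i).act) {Y : 𝒱.Obj}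
    {τ : Γ →* (W.H Y ≃ₐ[W.K] W.H Y)} {i j : ι} (hij : i ≠ j) (h : KT hG Y τ i)
    (hDX : HomEqNum W (X j).X) {D : (X j).X.Cycles} {n : ℕ}
    {υ : Γ →* (W.H ((nest ops n fun _ => (⟨(X j).X, D⟩ : Polarized 𝒱)).X.prod Y) ≃ₐ[W.K]
      W.H ((nest ops n fun _ => (⟨(X j).X, D⟩ : Polarized 𝒱)).X.prod Y))}
    (hP : IsPowAct W ⟨(X j).X, D⟩ n Y (X j).act τ υ) :
    KT hG ((nest ops n fun _ => (⟨(X j).X, D⟩ : Polarized 𝒱)).X.prod Y) υ i := by
  obtain ⟨s⟩ := exists_SB hDX
  obtain ⟨b, hb⟩ := exists_monoBasis (ops := ops) (⟨(X j).X, D⟩ : Polarized 𝒱) s.e n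
  obtain ⟨Δ', hΔ', hact⟩ := hS_act (P := ⟨(X j).X, D⟩) (s := s) hb (hG j) hP
  intro S _ _ lam hlam Δ hΔ f hf u v z
  refine eq_zero_of_hS (P := ⟨(X j).X, D⟩) hb fun c₀ r => ?_
  obtain ⟨L, hL⟩ := exists_hSL (P := ⟨(X j).X, D⟩) (Z := Y) (s := s) hb c₀
  -- the multilinear map
  set F : MultilinearMap W.K (fun _ : S ⊕ Free c₀ => ∀ j, transcendental W (X j).X) (W.H Y) :=
    MultilinearMap.uncurrySum ((MultilinearMap.compLinearMapₗ
      (fun _ : Free c₀ => (LinearMap.proj j : (∀ j, transcendental W (X j).X) →ₗ[W.K]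
        transcendental W (X j).X))).compMultilinearMap (L.compMultilinearMap f)) with hF
  have hFa : ∀ w, F w = hS s b (f fun s => w (Sum.inl s)) c₀ (fun p => w (Sum.inr p) j) := by
    intro w
    rw [← hL]
    rfl
  set mu : Γ →* W.Kˣ := lamb (P := ⟨(X j).X, D⟩) (n := n) χ s c₀ 0 with hmu
  have hlam' : ∀ g, χ g = 1 → (lam * mu) g = 1 := by
    intro g hg
    rw [MonoidHom.mul_apply, hlam g hg, hmu, lamb_apply, hg]
    simp
  have heq : ∀ g ∈ Δ ⊓ Δ', ∀ w : S ⊕ Free c₀ → ∀ j, transcendental W (X j).X,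
      F (fun a k => rhoT (hG k) g (w a k)) = (((lam * mu) g : W.Kˣ) : W.K) • τ g (F w) := by
    intro g hg w
    have h2 := hf g hg.1 fun s => w (Sum.inl s)
    have h3 := hact g hg.2 (f fun s => w (Sum.inl s)) c₀ fun p => w (Sum.inr p) j
    have e1 : F (fun a k => rhoT (hG k) g (w a k)) =
        hS s b (f fun s k => rhoT (hG k) g (w (Sum.inl s) k)) c₀
          (fun p => rhoT (hG j) g (w (Sum.inr p) j)) := hFa _
    have e2 : hS s b ((lam g : W.K) • υ g (f fun s => w (Sum.inl s))) c₀ =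
        (lam g : W.K) • hS s b (υ g (f fun s => w (Sum.inl s))) c₀ := by
      rw [← hL, ← hL, map_smul]
    have e3 : F w = hS s b (f fun s => w (Sum.inl s)) c₀ (fun p => w (Sum.inr p) j) := hFa _
    rw [e1, h2, e2, e3, MonoidHom.mul_apply, Units.val_mul, mul_smul]
    exact congrArg (fun y : W.H Y => (lam g : W.K) • y) h3
  have h1 := h (S ⊕ Free c₀) (lam * mu) hlam' (Δ ⊓ Δ') inferInstance F heq u v
    (Sum.elim z fun p => Pi.single j (s.uT (r p)))
  rw [Fintype.sum_sum_type] at h1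
  have h5 : ∀ p : Free c₀, F (update (Sum.elim z fun p => Pi.single j (s.uT (r p))) (Sum.inr p)
      (Pi.single i (Pool.Agent.H204R3.SP.SS (rform W (X i).X (transcendental W (X i).X)) u v
        ((Sum.elim z fun p => Pi.single j (s.uT (r p)) : S ⊕ Free c₀ →
          ∀ j, transcendental W (X j).X) (Sum.inr p) i)))) = 0 := by
    intro p
    rw [hFa]
    refine MultilinearMap.map_coord_zero _ p ?_
    rw [update_self, Pi.single_eq_of_ne hij.symm]
  rw [Finset.sum_congr rfl fun p _ => h5 p, Finset.sum_const_zero, add_zero] at h1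
  rw [← hL, map_sum, _root_.sum_apply]
  refine Eq.trans (Finset.sum_congr rfl fun s' _ => ?_) h1
  rw [hFa, hL]
  have h6 : (fun a => update (Sum.elim z fun p => Pi.single j (s.uT (r p))) (Sum.inl s')
      (Pi.single i (Pool.Agent.H204R3.SP.SS (rform W (X i).X (transcendental W (X i).X)) u v
        ((Sum.elim z fun p => Pi.single j (s.uT (r p)) : S ⊕ Free c₀ →
          ∀ j, transcendental W (X j).X) (Sum.inl s') i))) (Sum.inl a)) =
      update z s' (Pi.single i (Pool.Agent.H204R3.SP.SS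
        (rform W (X i).X (transcendental W (X i).X)) u v (z s' i))) := by
    funext a
    by_cases ha : a = s'
    · subst ha
      rw [update_self, update_self]
      rfl
    · rw [update_of_ne (fun h => ha (Sum.inl_injective h)), update_of_ne ha]
      rfl
  rw [h6]
  congr 1
  funext p
  rw [update_of_ne (by simp)]
  have h7 : (Pi.single j (s.uT (r p)) : ∀ j, transcendental W (X j).X) j = s.uT (r p) :=
    Pi.single_eq_same _ _
  exact h7.symm

end Pool.Agent.V11219.Sst
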