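import Mathlib
import Pool.Agent.V11219.SstKill

/-!
# Simultaneous semistable degenerations: the conjectures for products with powers
-/

open CategoryTheory AlgebraicGeometry Finset Function

set_option linter.unusedSectionVars false
set_option linter.unusedVariables false

namespace Pool.Agent.V11219.Sst

universe u

open Pool.Agent.TH125.Gal Pool.Agent.TH118.SG Pool.Agent.V11219.IsoF Pool.Agent.V11219.Loc
  Pool.Agent.V11219.Quad

open Pool.Agent.H914 Pool.Agent.H914.VarClass Pool.Agent.H914.VarClass.Obj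
  Pool.Agent.H914.WeilCohomology Pool.Agent.H281R3.HT Pool.Agent.W552 Pool.Agent.H447

variable {k : Type u} [Field k] {𝒱 : VarClass k} {ops : CycleOps 𝒱}
  {W : WeilCohomology.{u, 0} ops} {Γ : Type} [Group Γ] {χ : Γ →* W.Kˣ} {G : Set (GVar W Γ)}
  {ι : Type} {X : ι → GVar W Γ} {D : ∀ i, (X i).X.Cycles} {Z : GVar W Γ}

theorem SemistableVars.gal (h : SemistableVars χ X Z) (i : ι) :
    IsGalois W χ (X i).X (X i).act := isGalois (h.galois i)

/-- Defects. -/
theorem defect_conv (h : SemistableVars χ X Z) {i : ι} {N N' : Set Γ} (hN : N ⊆ N') {g : Γ}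
    {d : ℕ} (hd : Loc.IsDefect (transcendental W (X i).X) (X i).act N g d) :
    Sm.IsDefect (rhoT (h.gal i)) N' g d := by
  have h1 : GDefect (rhoT (h.gal i)) N g d := gdefect_of (P := ⟨(X i).X, 0⟩) (h.gal i) hd
  rcases h1 with h1 | ⟨g', hg', h2⟩
  · exact Or.inl h1
  · exact Or.inr ⟨g', hN hg', h2⟩

theorem defect_zero' {V : Type} {K : Type} [Field K] [AddCommGroup V] [Module K V]
    {ρ : Representation K Γ V} {N : Set Γ} (h0 : ∀ g ∈ N, ρ g = 1) {g : Γ} (hg : g ∈ N) {d : ℕ}
    (hd : Sm.IsDefect ρ N g d) : d = 0 := by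
  rcases hd with h | ⟨g', hg', -, a, ha, h⟩
  · rw [h, h0 g hg, sub_self, LinearMap.range_zero, finrank_bot]
  · rw [h, h0 g hg, sub_self, zero_mul]
    have h1 : Module.End.maxGenEigenspace (0 : Module.End K V) a = ⊥ := by
      rw [eq_bot_iff]
      intro x hx
      obtain ⟨n, hn⟩ := (Module.End.mem_maxGenEigenspace _ _ _).1 hx
      rw [zero_sub, ← neg_smul, smul_pow, one_pow, LinearMap.smul_apply, Module.End.one_apply] at hn
      exact (Submodule.mem_bot K).2 ((smul_eq_zero.1 hn).resolve_left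
        (pow_ne_zero _ (neg_ne_zero.2 ha)))
    rw [h1, finrank_bot]

theorem SemistableVars.conv (h : SemistableVars χ X Z) (i : ι) {N' : Set Γ}
    (hN : semistable χ X Z ⊆ N') : Gk.SmallDefects (rhoT (h.gal i)) N' := by
  rcases h.small i with ⟨g, hg, h1⟩ | ⟨⟨g, hg, h1⟩, h2⟩
  · refine Or.inl ⟨g, hN hg, ?_⟩
    rcases h1 with h1 | h1
    · left
      intro p hp
      obtain ⟨d, hd, hpd⟩ := h1 p hp
      exact ⟨d, defect_conv h hN hd, hpd⟩
    · exact Or.inr (defect_conv h hN h1)
  · refine Or.inr ⟨⟨g, hN hg, fun U hU => ?_⟩, fun p hp => ?_⟩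
    · have h3 : ∀ h' : Γ, ∀ x ∈ U.map (transcendental W (X i).X).subtype,
          (X i).act (h' * g * h'⁻¹) x ∈ U.map (transcendental W (X i).X).subtype := by
        rintro h' _ ⟨x, hx, rfl⟩
        exact ⟨rhoT (h.gal i) (h' * g * h'⁻¹) x, hU h' x hx, rfl⟩
      rcases h1 (U.map (transcendental W (X i).X).subtype) (Submodule.map_subtype_le _ _) h3 with
        h4 | h4
      · left
        rw [eq_bot_iff]
        intro x hx
        have h5 : (x : W.H (X i).X) ∈ U.map (transcendental W (X i).X).subtype := ⟨x, hx, rfl⟩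
        rw [h4, Submodule.mem_bot] at h5
        exact (Submodule.mem_bot _).2 (Subtype.ext h5)
      · right
        rw [eq_top_iff]
        intro x _
        have h5 : (x : W.H (X i).X) ∈ U.map (transcendental W (X i).X).subtype := by
          rw [h4]
          exact x.2
        obtain ⟨y, hy, hyx⟩ := h5
        have h6 : y = x := Subtype.ext hyx
        rwa [h6] at hy
    · obtain ⟨g, hg, d, hd, hpd⟩ := h2 p hp
      exact ⟨g, hN hg, d, defect_conv h hN hd, hpd⟩

/-- A nontrivial element. -/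
theorem exists_ne_one {V : Type} {K : Type} [Field K] [AddCommGroup V] [Module K V]
    {ρ : Representation K Γ V} {N : Set Γ} (h : Gk.SmallDefects ρ N) : ∃ g ∈ N, ρ g ≠ 1 := by
  by_contra hcon
  push Not at hcon
  rcases h with ⟨g, hg, h1 | h1⟩ | ⟨-, h1⟩
  · obtain ⟨d, hd, h2⟩ := h1 2 Nat.prime_two
    rw [defect_zero' hcon hg hd] at h2
    exact h2 (dvd_zero 2)
  · exact absurd (defect_zero' hcon hg h1) (by norm_num)
  · obtain ⟨g, hg, d, hd, h2⟩ := h1 2 Nat.prime_two
    rw [defect_zero' hcon hg hd] at h2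
    exact h2 (dvd_zero 2)

variable [Fintype ι] [DecidableEq ι]

/-- The family of representations. -/
theorem SemistableVars.family [IsAlgClosed W.K] (h : SemistableVars χ X Z)
    {lam : Γ →* W.Kˣ} (hlam : ∀ g, χ g = 1 → lam g = 1) :
    Gk.SemistableFamily (fun i => mult χ (X i).X.dim) (fun i => rhoT (h.gal i))
      (fun i => rform W (X i).X (transcendental W (X i).X)) (1 : Γ →* W.K)
      (1 : Γ →* (PUnit.{1} →ₗ[W.K] PUnit.{1})) 0 (twist lam Z.act) := by
  have hDX := h.homEqNum
  have hN : semistable χ X Z ⊆ Gk.quadratic (fun i => mult χ (X i).X.dim)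
      (fun i => rhoT (h.gal i)) (1 : Γ →* W.K) (1 : Γ →* (PUnit.{1} →ₗ[W.K] PUnit.{1}))
      (twist lam Z.act) := by
    rintro g ⟨h1, h2, h3⟩
    have h1 : χ g = 1 := h1
    refine ⟨?_, fun i => ⟨?_, ?_⟩, rfl, ?_⟩
    · apply LinearMap.ext
      intro z
      have h4 : Z.act g = 1 := trivAct.1 h2
      rw [twist_apply, hlam g h1, h4]
      simp
    · rw [mult_apply, h1, Units.val_one, one_pow]
    · exact (quadAct_iff (P := ⟨(X i).X, 0⟩) (h.gal i)).1 (h3 i)
    · exact LinearMap.ext fun _ => rfl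
  refine ⟨fun i => ⟨?_, ?_, ?_⟩, ⟨fun _ => rfl, fun _ _ => rfl, fun _ _ _ => ?_⟩, fun i => ?_,
    fun i j hij hiso => ?_, fun i => h.conv i hN, fun i => ?_⟩
  · exact form_alt (P := ⟨(X i).X, 0⟩) (h.middle i) (h.odd i)
  · exact trans_nondeg (hDX i)
  · intro g a b
    rw [mult_apply]
    exact bil_act (h.gal i) g a b
  · simp
  · exact SI_rhoT (P := ⟨(X i).X, 0⟩) (h.gal i) (h.irreducible i)
  · obtain ⟨T, hT⟩ := hiso
    refine h.distinct i j hij ⟨T, fun g => ?_⟩
    obtain ⟨c, hc⟩ := hT g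
    refine ⟨c, fun x y hy => ?_⟩
    have h1 : y = rhoT (h.gal i) g x := Subtype.ext hy
    rw [h1, hc]
    rfl
  · obtain ⟨g, hg, hne⟩ := exists_ne_one (h.conv i hN)
    refine ⟨g, hg, ?_⟩
    have h1 : LinearMap.range ((1 : Γ →* (PUnit.{1} →ₗ[W.K] PUnit.{1})) g - 1) = ⊥ := by
      rw [eq_bot_iff]
      intro x _
      exact (Submodule.mem_bot W.K).2 rfl
    rw [h1, finrank_bot]
    refine Nat.pos_of_ne_zero fun h0 => hne ?_
    have h2 := Submodule.finrank_eq_zero.1 h0
    exact sub_eq_zero.1 (LinearMap.range_eq_bot.1 h2)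

/-- **The base.** -/
theorem SemistableVars.base [IsAlgClosed W.K] (h : SemistableVars χ X Z) (i : ι) :
    KT h.gal Z.X Z.act i := by
  intro S _ _ lam hlam Δ hΔ f hf u v z
  set L : W.H Z.X →ₗ[W.K] MultilinearMap W.K (fun _ : Empty => PUnit.{1}) (W.H Z.X) :=
    { toFun := fun m => MultilinearMap.constOfIsEmpty W.K _ m
      map_add' := fun _ _ => rfl
      map_smul' := fun _ _ => rfl } with hL
  have h1 := Gk.killAll (h.family hlam) hΔ (f := L.compMultilinearMap f)
    (fun g hg x y => by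
      change f (fun s i => rhoT (h.gal i) g (x s i)) = twist lam Z.act g (f x)
      rw [twist_apply]
      exact hf g hg x)
  have h2 := congrArg (fun m => m (fun e : Empty => e.elim)) (h1 i u v z)
  simp only [_root_.sum_apply] at h2
  exact h2

theorem SemistableSystem.galoisClass (h : SemistableSystem χ G X D Z) : GaloisClass χ G where
  galois := h.galois
  prod := fun A hA B hB => by
    obtain ⟨υ, hυ, hG⟩ := h.prod A hA B hB
    exact ⟨_, hG, IsProdVar.mk υ hυ.1 hυ.2⟩

theorem SemistableSystem.vars (h : SemistableSystem χ G X D Z) : SemistableVars χ X Z where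
  odd := h.odd
  galois := fun i => h.galois _ (h.mem i)
  homEqNum := fun i => homEqNum_of_pol (h.transIrred i).polarization
  middle := fun i => (h.transIrred i).middle
  irreducible := fun i => (h.transIrred i).irreducible
  distinct := h.distinct
  small := h.small

/-- The action on the towers. -/
theorem SemistableSystem.tower [IsAlgClosed W.K] (h : SemistableSystem χ G X D Z)
    (E : Z.X.Cycles) (L : List (ι × ℕ)) :
    ∃ υ : Γ →* (W.H (tower' ops (fun i => ⟨(X i).X, D i⟩) ⟨Z.X, E⟩ L).X ≃ₐ[W.K]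
        W.H (tower' ops (fun i => ⟨(X i).X, D i⟩) ⟨Z.X, E⟩ L).X),
      (⟨(tower' ops (fun i => ⟨(X i).X, D i⟩) ⟨Z.X, E⟩ L).X, υ⟩ : GVar W Γ) ∈ G ∧
      ∀ i, i ∉ L.map Prod.fst →
        KT h.vars.gal (tower' ops (fun i => ⟨(X i).X, D i⟩) ⟨Z.X, E⟩ L).X υ i := by
  induction L with
  | nil => exact ⟨Z.act, h.mem_base, fun i _ => h.vars.base i⟩
  | cons a L ih =>
    obtain ⟨τ, hτ, hK⟩ := ih
    obtain ⟨υ, hυ, hP⟩ := exists_pow_act h.galoisClass (h.mem a.1) hτ (D a.1) a.2
    refine ⟨υ, hυ, fun i hi => ?_⟩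
    rw [List.map_cons, List.mem_cons, not_or] at hi
    exact KT.step h.vars.gal hi.1 (hK i hi.2) (homEqNum_of_pol (h.transIrred a.1).polarization) hP

/-- The conditions for one step. -/
theorem SemistableSystem.split [IsAlgClosed W.K] (h : SemistableSystem χ G X D Z) (i : ι)
    {Y : 𝒱.Obj} {υ : Γ →* (W.H Y ≃ₐ[W.K] W.H Y)} (hY : (⟨Y, υ⟩ : GVar W Γ) ∈ G)
    (hK : KT h.vars.gal Y υ i) : SplitData (X i) (D i) ⟨Y, υ⟩ := by
  have hpol := (h.transIrred i).polarization
  have hmid := (h.transIrred i).middle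
  have hDX := homEqNum_of_pol hpol
  have hfull : FullR (P := ⟨(X i).X, D i⟩) χ (h.vars.gal i) υ := fullR_of h.vars.gal hK (D i) hmid (h.odd i)
  obtain ⟨g, -, hne⟩ := exists_ne_one (h.vars.conv i (Set.Subset.refl _))
  have hone : (1 : W.H (X i).X) ≠ 0 := by
    intro h3
    apply hne
    apply LinearMap.ext
    intro t
    apply Subtype.ext
    have h4 : ∀ t : W.H (X i).X, t = 0 := fun t => by rw [← one_mul t, h3, zero_mul]
    rw [h4 (rhoT (h.vars.gal i) g t : transcendental W (X i).X), h4 ((1 : Module.End W.K _) t :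
      transcendental W (X i).X)]
  exact ⟨hpol, hmid, hone, fun s m c hc =>
    tgt_of_fullR h.galoisClass (h.mem i) hY hmid hDX (h.odd i) hfull s m c hc⟩

/-- **The conjecture D.** -/
theorem homEqNum_sst [IsAlgClosed W.K] (h : SemistableSystem χ G X D Z) (E : Z.X.Cycles)
    (L : List (ι × ℕ)) (hL : (L.map Prod.fst).Nodup) :
    HomEqNum W (nodalTower X D Z E L).X ↔ HomEqNum W Z.X := by
  rw [nodalTower, tower_eq]
  induction L with
  | nil => exact Iff.rfl
  | cons a L ih =>
    rw [List.map_cons, List.nodup_cons] at hL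
    obtain ⟨υ, hυ, hK⟩ := h.tower E L
    have hN := h.split a.1 hυ (hK a.1 hL.1)
    rw [← ih hL.2]
    constructor
    · intro h1
      obtain ⟨x, hx⟩ := exists_tr hN.one_ne
      have h2 : W.tr (nest ops a.2 fun _ => (⟨(X a.1).X, D a.1⟩ : Polarized 𝒱)).X
          (mono (prj ops a.2 fun _ => (⟨(X a.1).X, D a.1⟩ : Polarized 𝒱)) fun _ => x) ≠ 0 := by
        rw [tr_mono]
        exact pow_ne_zero _ hx
      exact homEqNum_factor h2 h1
    · intro h1
      exact hN.homEqNum_prod a.2 h1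

/-- **The conjecture of Hodge type.** -/
theorem hodge_sst [IsAlgClosed W.K] (h : SemistableSystem χ G X D Z) {E : Z.X.Cycles}
    (hE : IsPolarization W Z.X E) (L : List (ι × ℕ)) (hL : (L.map Prod.fst).Nodup) :
    HodgeType W (nodalTower X D Z E L).X (nodalTower X D Z E L).D ∧
      HomEqNum W (nodalTower X D Z E L).X := by
  rw [nodalTower, tower_eq]
  have key : ∃ g, Fp W (tower' ops (fun i => ⟨(X i).X, D i⟩) ⟨Z.X, E⟩ L).X
      (tower' ops (fun i => ⟨(X i).X, D i⟩) ⟨Z.X, E⟩ L).D g := by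
    induction L with
    | nil =>
      obtain ⟨g, hg, _⟩ := exists_Fp hE.div hE.hard hE.lefschetz hE.hodge
      exact ⟨g, hg⟩
    | cons a L ih =>
      rw [List.map_cons, List.nodup_cons] at hL
      obtain ⟨υ, hυ, hK⟩ := h.tower E L
      exact (h.split a.1 hυ (hK a.1 hL.1)).fp_prod a.2 (ih hL.2)
  obtain ⟨g, F⟩ := key
  exact F.hodge

/-- **The conjecture A for towers and all divisors.** -/
theorem lefAll_sst [IsAlgClosed W.K] (h : SemistableSystem χ G X D Z) (E : Z.X.Cycles)
    (L : List (ι × ℕ)) (hL : (L.map Prod.fst).Nodup) :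
    LefAll W (nodalTower X D Z E L).X ↔ LefAll W Z.X := by
  rw [nodalTower, tower_eq]
  induction L with
  | nil => exact Iff.rfl
  | cons a L ih =>
    rw [List.map_cons, List.nodup_cons] at hL
    obtain ⟨υ, hυ, hK⟩ := h.tower E L
    have hN := h.split a.1 hυ (hK a.1 hL.1)
    rw [← ih hL.2]
    exact hN.lefAll_iff a.2

/-- **The Tate conjecture for towers.** -/
theorem tate_sst [IsAlgClosed W.K] (h : SemistableVars χ X Z) {S : Set ι} {Y : GVar W Γ}
    (hY : GTower X Z S Y) :
    (TateConjecture χ Y ↔ TateConjecture χ Z) ∧ ∀ i, i ∉ S → KT h.gal Y.X Y.act i := by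
  induction hY with
  | base => exact ⟨Iff.rfl, fun i _ => h.base i⟩
  | @step S Y Y' i n hT hi hn hP ih =>
    obtain ⟨ih, hK⟩ := ih
    obtain ⟨υ, h1, h2⟩ := hP
    have hfull : FullR (P := ⟨(X i).X, 0⟩) χ (h.gal i) Y.act :=
      fullR_of h.gal (hK i hi) 0 (h.middle i) (h.odd i)
    refine ⟨?_, fun j hj => ?_⟩
    · rw [← ih]
      constructor
      · refine tate_conv (P := ⟨(X i).X, 0⟩) (h.homEqNum i) ?_ (isPowAct h1 h2)
        intro h3
        obtain ⟨g, -, hne⟩ := exists_ne_one (h.conv i (Set.Subset.refl _))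
        apply hne
        apply LinearMap.ext
        intro t
        apply Subtype.ext
        have h4 : ∀ t : W.H (X i).X, t = 0 := fun t => by rw [← one_mul t, h3, zero_mul]
        rw [h4 (rhoT (h.gal i) g t : transcendental W (X i).X), h4 ((1 : Module.End W.K _) t :
          transcendental W (X i).X)]
      · exact tate_stepR (P := ⟨(X i).X, 0⟩) (h.homEqNum i) (h.middle i) (h.gal i)
          (isPowAct h1 h2) (h.odd i) hfull
    · rw [Set.mem_insert_iff, not_or] at hj
      exact KT.step h.gal hj.1 (hK j hj.2) (h.homEqNum i) (isPowAct h1 h2)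

end Pool.Agent.V11219.Sst
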