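import Mathlib
import Pool.Agent.V11219.GkDefs

/-!
# Direct sums of symplectic representations
-/

namespace Pool.Agent.V11219.Sst

open Module

variable {K Γ : Type} [Field K] [Group Γ] {β : Type} [Fintype β] {U : β → Type}
  [∀ b, AddCommGroup (U b)] [∀ b, Module K (U b)]

/-- The direct sum of representations. -/
noncomputable def pR (τ : ∀ b, Representation K Γ (U b)) : Representation K Γ (∀ b, U b) where
  toFun g := LinearMap.pi fun b => τ b g ∘ₗ LinearMap.proj b
  map_one' := by
    apply LinearMap.ext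
    intro x
    funext b
    change τ b 1 (x b) = x b
    rw [map_one]
    rfl
  map_mul' g g' := by
    apply LinearMap.ext
    intro x
    funext b
    change τ b (g * g') (x b) = τ b g (τ b g' (x b))
    rw [map_mul]
    rfl

theorem pR_apply (τ : ∀ b, Representation K Γ (U b)) (g : Γ) (x : ∀ b, U b) (b : β) :
    pR τ g x b = τ b g (x b) := rfl

/-- The direct sum of bilinear forms. -/
noncomputable def pC (C : ∀ b, U b →ₗ[K] U b →ₗ[K] K) : (∀ b, U b) →ₗ[K] (∀ b, U b) →ₗ[K] K :=
  ∑ b, (C b).compl₁₂ (LinearMap.proj b) (LinearMap.proj b)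

theorem pC_apply (C : ∀ b, U b →ₗ[K] U b →ₗ[K] K) (x y : ∀ b, U b) :
    pC C x y = ∑ b, C b (x b) (y b) := by
  rw [pC, LinearMap.sum_apply, LinearMap.sum_apply]
  rfl

theorem symp_sum {ν : Γ →* K} {τ : ∀ b, Representation K Γ (U b)}
    {C : ∀ b, U b →ₗ[K] U b →ₗ[K] K} (h : ∀ b, Gk.IsSymplectic ν (τ b) (C b)) :
    Gk.IsSymplectic ν (pR τ) (pC C) := by
  classical
  refine ⟨fun v => ?_, fun v hv => ?_, fun g v w => ?_⟩
  · rw [pC_apply]
    exact Finset.sum_eq_zero fun b _ => (h b).alt _
  · funext b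
    refine (h b).nondeg _ fun w => ?_
    have h1 := hv (Pi.single b w)
    rw [pC_apply, Finset.sum_eq_single b] at h1
    · rwa [Pi.single_eq_same] at h1
    · intro b' _ hb
      rw [Pi.single_eq_of_ne hb, map_zero]
    · intro h2
      exact absurd (Finset.mem_univ b) h2
  · rw [pC_apply, pC_apply, Finset.mul_sum]
    exact Finset.sum_congr rfl fun b _ => (h b).act g _ _

theorem sq_sum {τ : ∀ b, Representation K Γ (U b)} {g : Γ}
    (h : ∀ b, (τ b g - 1) * (τ b g - 1) = 0) : (pR τ g - 1) * (pR τ g - 1) = 0 := by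
  apply LinearMap.ext
  intro x
  funext b
  exact congrArg (fun f : End K (U b) => f (x b)) (h b)

theorem rank_sum [∀ b, FiniteDimensional K (U b)] (τ : ∀ b, Representation K Γ (U b)) (g : Γ) :
    finrank K (LinearMap.range (pR τ g - 1)) ≤
      ∑ b, finrank K (LinearMap.range (τ b g - 1)) := by
  rw [← Module.finrank_pi_fintype K]
  have hmem : ∀ x ∈ LinearMap.range (pR τ g - 1), ∀ b, x b ∈ LinearMap.range (τ b g - 1) := by
    rintro _ ⟨y, rfl⟩ b
    exact ⟨y b, rfl⟩
  let L : LinearMap.range (pR τ g - 1) →ₗ[K] (∀ b, LinearMap.range (τ b g - 1)) :=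
    { toFun := fun x b => ⟨x.1 b, hmem x.1 x.2 b⟩
      map_add' := fun _ _ => rfl
      map_smul' := fun _ _ => rfl }
  refine LinearMap.finrank_le_finrank_of_injective (f := L) ?_
  intro x y hxy
  apply Subtype.ext
  funext b
  exact congrArg Subtype.val (congrFun hxy b)

end Pool.Agent.V11219.Sst
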