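import Mathlib
import Pool.Agent.V11219.SstStd
import Pool.Agent.V11219.SstSum
import Pool.Agent.V11219.SstOverDefs

/-!
# Simultaneous semistable degenerations, relative to other varieties
-/

open CategoryTheory AlgebraicGeometry Finset Function

set_option linter.unusedSectionVars false
set_option linter.unusedVariables false

namespace Pool.Agent.V11219.Sst

universe u

open Pool.Agent.TH125.Gal Pool.Agent.TH118.SG Pool.Agent.V11219.IsoF Pool.Agent.V11219.Loc
  Pool.Agent.V11219.Quad

open Pool.Agent.H914 Pool.Agent.H914.VarClass Pool.Agent.H914.VarClass.Obj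
  Pool.Agent.H914.WeilCohomology Pool.Agent.H281R3.HT Pool.Agent.W552 Pool.Agent.H447

variable {k : Type u} [Field k] {𝒱 : VarClass k} {ops : CycleOps 𝒱}
  {W : WeilCohomology.{u, 0} ops} {Γ : Type} [Group Γ] {χ : Γ →* W.Kˣ}
  {ι β : Type} {X : ι → GVar W Γ} {Y : β → GVar W Γ} {d : ℕ} {Z : GVar W Γ}

/-- Defects. -/
theorem small_conv {A : GVar W Γ} (hG : IsGalois W χ A.X A.act) {N N' : Set Γ} (hN : N ⊆ N')
    (h : SmallVar A N) : Gk.SmallDefects (rhoT hG) N' := by
  have conv : ∀ {g : Γ} {d : ℕ}, Loc.IsDefect (transcendental W A.X) A.act N g d →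
      Sm.IsDefect (rhoT hG) N' g d := by
    intro g d hd
    have h1 : GDefect (rhoT hG) N g d := gdefect_of (P := ⟨A.X, 0⟩) hG hd
    rcases h1 with h1 | ⟨g', hg', h2⟩
    · exact Or.inl h1
    · exact Or.inr ⟨g', hN hg', h2⟩
  rcases h with ⟨g, hg, h1⟩ | ⟨⟨g, hg, h1⟩, h2⟩
  · refine Or.inl ⟨g, hN hg, ?_⟩
    rcases h1 with h1 | h1
    · left
      intro p hp
      obtain ⟨d, hd, hpd⟩ := h1 p hp
      exact ⟨d, conv hd, hpd⟩
    · exact Or.inr (conv h1)
  · refine Or.inr ⟨⟨g, hN hg, fun U hU => ?_⟩, fun p hp => ?_⟩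
    · have h3 : ∀ h' : Γ, ∀ x ∈ U.map (transcendental W A.X).subtype,
          A.act (h' * g * h'⁻¹) x ∈ U.map (transcendental W A.X).subtype := by
        rintro h' _ ⟨x, hx, rfl⟩
        exact ⟨rhoT hG (h' * g * h'⁻¹) x, hU h' x hx, rfl⟩
      rcases h1 (U.map (transcendental W A.X).subtype) (Submodule.map_subtype_le _ _) h3 with
        h4 | h4
      · left
        rw [eq_bot_iff]
        intro x hx
        have h5 : (x : W.H A.X) ∈ U.map (transcendental W A.X).subtype := ⟨x, hx, rfl⟩
        rw [h4, Submodule.mem_bot] at h5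
        exact (Submodule.mem_bot _).2 (Subtype.ext h5)
      · right
        rw [eq_top_iff]
        intro x _
        have h5 : (x : W.H A.X) ∈ U.map (transcendental W A.X).subtype := by
          rw [h4]
          exact x.2
        obtain ⟨y, hy, hyx⟩ := h5
        have h6 : y = x := Subtype.ext hyx
        rwa [h6] at hy
    · obtain ⟨g, hg, d, hd, hpd⟩ := h2 p hp
      exact ⟨g, hN hg, d, conv hd, hpd⟩

/-- Ranks. -/
theorem rankOn_eq {A : GVar W Γ} (hG : IsGalois W χ A.X A.act) (g : Γ) :
    rankOn A g = Module.finrank W.K (LinearMap.range (rhoT hG g - 1)) := by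
  have e1 : (transcendental W A.X).map (Loc.dif A.act g) =
      (LinearMap.range (rhoT hG g - 1)).map (transcendental W A.X).subtype := by
    rw [LinearMap.range_eq_map]
    ext z
    constructor
    · rintro ⟨x, hx, rfl⟩
      exact ⟨_, ⟨⟨x, hx⟩, Submodule.mem_top, rfl⟩, rfl⟩
    · rintro ⟨_, ⟨x, -, rfl⟩, rfl⟩
      exact ⟨x, x.2, rfl⟩
  rw [rankOn, rankOf, e1]
  exact Submodule.finrank_map_subtype_eq _ _

variable [Fintype ι] [DecidableEq ι] [Fintype β] [DecidableEq β]

theorem SemistableOver.gal (h : SemistableOver χ X Y d Z) (i : ι) :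
    IsGalois W χ (X i).X (X i).act := isGalois (h.galois i)

theorem SemistableOver.gal' (h : SemistableOver χ X Y d Z) (b : β) :
    IsGalois W χ (Y b).X (Y b).act := isGalois (h.galois' b)

theorem SemistableOver.galS (h : SemistableOver χ X Y d Z) :
    ∀ j : β ⊕ ι, IsGalois W χ (Sum.elim Y X j).X (Sum.elim Y X j).act
  | Sum.inl b => h.gal' b
  | Sum.inr i => h.gal i

theorem symp_var {A : GVar W Γ} (h : GoodVar A) (hG : IsGalois W χ A.X A.act) {n : ℕ}
    (hn : A.X.dim = n) :
    Gk.IsSymplectic (mult χ n) (rhoT hG) (rform W A.X (transcendental W A.X)) := by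
  subst hn
  refine ⟨?_, ?_, ?_⟩
  · exact form_alt (P := ⟨A.X, 0⟩) h.2.2 h.1
  · exact trans_nondeg h.2.1
  · intro g a b
    rw [mult_apply]
    exact bil_act hG g a b

/-- The family of representations. -/
theorem SemistableOver.family [IsAlgClosed W.K] (h : SemistableOver χ X Y d Z)
    {lam : Γ →* W.Kˣ} (hlam : ∀ g, χ g = 1 → lam g = 1) :
    Gk.SemistableFamily (fun i => mult χ (X i).X.dim) (fun i => rhoT (h.gal i))
      (fun i => rform W (X i).X (transcendental W (X i).X)) (mult χ d)
      (pR fun b => rhoT (h.gal' b)) (pC fun b => rform W (Y b).X (transcendental W (Y b).X))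
      (twist lam Z.act) := by
  have hN : semistable χ X Z ∩ semistable χ Y Z ⊆ Gk.quadratic (fun i => mult χ (X i).X.dim)
      (fun i => rhoT (h.gal i)) (mult χ d) (pR fun b => rhoT (h.gal' b))
      (twist lam Z.act) := by
    rintro g ⟨⟨h1, h2, h3⟩, -, -, h4⟩
    have h1 : χ g = 1 := h1
    refine ⟨?_, fun i => ⟨?_, ?_⟩, ?_, ?_⟩
    · apply LinearMap.ext
      intro z
      have h4 : Z.act g = 1 := trivAct.1 h2
      rw [twist_apply, hlam g h1, h4]
      simp
    · rw [mult_apply, h1, Units.val_one, one_pow]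
    · exact (quadAct_iff (P := ⟨(X i).X, 0⟩) (h.gal i)).1 (h3 i)
    · rw [mult_apply, h1, Units.val_one, one_pow]
    · exact sq_sum fun b => (quadAct_iff (P := ⟨(Y b).X, 0⟩) (h.gal' b)).1 (h4 b)
  refine ⟨fun i => symp_var (h.good i) (h.gal i) rfl,
    symp_sum fun b => symp_var (h.good' b) (h.gal' b) (h.dim b),
    fun i => SI_rhoT (P := ⟨(X i).X, 0⟩) (h.gal i) (h.irreducible i),
    fun i j hij hiso => ?_, fun i => small_conv (h.gal i) hN (h.small i), fun i => ?_⟩
  · obtain ⟨T, hT⟩ := hiso
    refine h.distinct i j hij ⟨T, fun g => ?_⟩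
    obtain ⟨c, hc⟩ := hT g
    refine ⟨c, fun x y hy => ?_⟩
    have h1 : y = rhoT (h.gal i) g x := Subtype.ext hy
    rw [h1, hc]
    rfl
  · obtain ⟨g, hg, hlt⟩ := h.larger i
    refine ⟨g, hN hg, lt_of_le_of_lt (rank_sum _ g) ?_⟩
    rw [rankOn_eq (h.gal i)] at hlt
    refine lt_of_eq_of_lt (Finset.sum_congr rfl fun b _ => ?_) hlt
    exact (rankOn_eq (h.gal' b) g).symm

/-- The linear map from the pairs to the tuples. -/
def joinL (X : ι → GVar W Γ) (Y : β → GVar W Γ) :
    ((∀ i, transcendental W (X i).X) × (∀ b, transcendental W (Y b).X)) →ₗ[W.K]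
      (∀ j : β ⊕ ι, transcendental W (Sum.elim Y X j).X) where
  toFun x j := match j with
    | Sum.inl b => x.2 b
    | Sum.inr i => x.1 i
  map_add' x y := by
    funext j
    rcases j with b | i <;> rfl
  map_smul' c x := by
    funext j
    rcases j with b | i <;> rfl

/-- **The base.** -/
theorem SemistableOver.base [IsAlgClosed W.K] (h : SemistableOver χ X Y d Z) (i : ι) :
    KT h.galS Z.X Z.act (Sum.inr i) := by
  intro S _ _ lam hlam Δ hΔ f hf u v z
  have h1 := ((Gk.bigFam (S := S) (h.family hlam)).single_mem i u v).2.2.2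
    (f.compLinearMap fun _ => joinL X Y) ⟨Δ, hΔ, fun g hg x => by
      have h2 := hf g hg fun s => joinL X Y (x s)
      rw [MultilinearMap.compLinearMap_apply, MultilinearMap.compLinearMap_apply, twist_apply]
      refine Eq.trans (congrArg f ?_) h2
      funext s j
      rcases j with b | i <;> rfl⟩
  have h3 := h1 fun s => ((fun i => z s (Sum.inr i)), fun b => z s (Sum.inl b))
  refine Eq.trans (Finset.sum_congr rfl fun s _ => ?_) h3
  rw [MultilinearMap.compLinearMap_apply]
  congr 1
  funext s'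
  by_cases hs : s' = s
  · subst hs
    rw [update_self, update_self, Gk.dg_apply]
    funext j
    rcases j with b | j
    · rw [Pi.single_eq_of_ne (by simp)]
      rfl
    · by_cases hj : j = i
      · subst hj
        rw [Pi.single_eq_same]
        change _ = ((Pi.single j (Pool.Agent.H204R3.SP.SS
          (rform W (X j).X (transcendental W (X j).X)) u v) :
          ∀ j, Module.End W.K (transcendental W (X j).X)) j) (z s' (Sum.inr j))
        rw [Pi.single_eq_same]
        rfl
      · rw [Pi.single_eq_of_ne (fun h => hj (Sum.inr_injective h))]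
        change _ = ((Pi.single i (Pool.Agent.H204R3.SP.SS
          (rform W (X i).X (transcendental W (X i).X)) u v) :
          ∀ j, Module.End W.K (transcendental W (X j).X)) j) (z s' (Sum.inr j))
        rw [Pi.single_eq_of_ne hj]
        rfl
  · rw [update_of_ne hs, update_of_ne hs]
    funext j
    rcases j with b | j <;> rfl

/-- The products of `Z` with powers of the varieties `Y b`. -/
theorem SemistableOver.aux [IsAlgClosed W.K] (h : SemistableOver χ X Y d Z) {S : Set β}
    {Z₁ : GVar W Γ} (hZ : GTower Y Z S Z₁) (i : ι) : KT h.galS Z₁.X Z₁.act (Sum.inr i) := by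
  induction hZ with
  | base => exact h.base i
  | @step S A A' b n hT hi hn hP ih =>
    obtain ⟨υ, h1, h2⟩ := hP
    exact KT.step (X := Sum.elim Y X) (j := Sum.inl b) h.galS (by simp) ih (h.good' b).2.1
      (isPowAct h1 h2)

/-- **The Tate conjecture for towers.** -/
theorem tate_over [IsAlgClosed W.K] (h : SemistableOver χ X Y d Z) {S' : Set β} {Z₁ : GVar W Γ}
    (hZ : GTower Y Z S' Z₁) {S : Set ι} {T : GVar W Γ} (hT : GTower X Z₁ S T) :
    (TateConjecture χ T ↔ TateConjecture χ Z₁) ∧
      ∀ i, i ∉ S → KT h.galS T.X T.act (Sum.inr i) := by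
  induction hT with
  | base => exact ⟨Iff.rfl, fun i _ => h.aux hZ i⟩
  | @step S A A' i n hT hi hn hP ih =>
    obtain ⟨ih, hK⟩ := ih
    obtain ⟨υ, h1, h2⟩ := hP
    have hfull : FullR (P := ⟨(X i).X, 0⟩) χ (h.gal i) A.act :=
      fullR_of (X := Sum.elim Y X) (i := Sum.inr i) h.galS (hK i hi) 0 (h.good i).2.2
        (h.good i).1
    refine ⟨?_, fun j hj => ?_⟩
    · rw [← ih]
      constructor
      · refine tate_conv (P := ⟨(X i).X, 0⟩) (h.good i).2.1 ?_ (isPowAct h1 h2)
        intro h3
        obtain ⟨g, -, hne⟩ := exists_ne_one (small_conv (h.gal i) (Set.Subset.refl _) (h.small i))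
        apply hne
        apply LinearMap.ext
        intro t
        apply Subtype.ext
        have h4 : ∀ t : W.H (X i).X, t = 0 := fun t => by rw [← one_mul t, h3, zero_mul]
        rw [h4 (rhoT (h.gal i) g t : transcendental W (X i).X), h4 ((1 : Module.End W.K _) t :
          transcendental W (X i).X)]
      · exact tate_stepR (P := ⟨(X i).X, 0⟩) (h.good i).2.1 (h.good i).2.2 (h.gal i)
          (isPowAct h1 h2) (h.good i).1 hfull
    · rw [Set.mem_insert_iff, not_or] at hj
      exact KT.step (X := Sum.elim Y X) (j := Sum.inr i) h.galS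
        (fun h => hj.1 (Sum.inr_injective h)) (hK j hj.2) (h.good i).2.1 (isPowAct h1 h2)

end Pool.Agent.V11219.Sst
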