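import Mathlib
import Pool.Agent.V11219.ClsStep
import Pool.Agent.V11219.ClsLocDefs
import Pool.Agent.V11219.SstOver

/-!
# Tate classes and systems of classes on products with powers
-/

open CategoryTheory AlgebraicGeometry Finset Function

set_option linter.unusedSectionVars false
set_option linter.unusedVariables false

namespace Pool.Agent.V11219.Cls

universe u

open Pool.Agent.TH125.Gal Pool.Agent.TH118.SG Pool.Agent.V11219.IsoF Pool.Agent.V11219.Loc
  Pool.Agent.V11219.Quad Pool.Agent.V11219.Sst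

open Pool.Agent.H914 Pool.Agent.H914.VarClass Pool.Agent.H914.VarClass.Obj
  Pool.Agent.H914.WeilCohomology Pool.Agent.H281R3.HT Pool.Agent.W552 Pool.Agent.H447

variable {k : Type u} [Field k] {𝒱 : VarClass k} {ops : CycleOps 𝒱}
  {W : WeilCohomology.{u, 0} ops} {Γ : Type} [Group Γ] {χ : Γ →* W.Kˣ}
  {C : Classes W} {ι β : Type} {X : ι → GVar W Γ} {Y : β → GVar W Γ}
  {d : ℕ} {Z : GVar W Γ}

theorem one_ne_of {A : GVar W Γ} (hG : IsGalois W χ A.X A.act) {N : Set Γ}
    (h : Gk.SmallDefects (rhoT hG) N) : (1 : W.H A.X) ≠ 0 := by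
  intro h3
  obtain ⟨g, -, hne⟩ := exists_ne_one h
  apply hne
  apply LinearMap.ext
  intro t
  apply Subtype.ext
  have h4 : ∀ t : W.H A.X, t = 0 := fun t => by rw [← one_mul t, h3, zero_mul]
  rw [h4 (rhoT hG g t : transcendental W A.X), h4 ((1 : Module.End W.K _) t :
    transcendental W A.X)]

/-- **Systems of classes, simultaneous semistable degenerations.** -/
theorem cls_sst [IsAlgClosed W.K] [Fintype ι] [DecidableEq ι] (hC : ClassSystem W C)
    (h : SemistableVars χ X Z) {S : Set ι} {T : GVar W Γ} (hT : GTower X Z S T) :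
    TateIn χ C T ↔ TateIn χ C Z := by
  induction hT with
  | base => exact Iff.rfl
  | @step S A A' i n hT hi hn hP ih =>
    obtain ⟨υ, h1, h2⟩ := hP
    have hK := (tate_sst h hT).2
    have hfull : FullR (P := ⟨(X i).X, 0⟩) χ (h.gal i) A.act :=
      fullR_of h.gal (hK i hi) 0 (h.middle i) (h.odd i)
    rw [← ih]
    constructor
    · exact conv_cls (P := ⟨(X i).X, 0⟩) hC (h.homEqNum i)
        (one_ne_of (h.gal i) (h.conv i (Set.Subset.refl _))) (isPowAct h1 h2)
    · exact step_cls (P := ⟨(X i).X, 0⟩) hC (h.homEqNum i) (h.middle i) (h.gal i)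
        (isPowAct h1 h2) (h.odd i) hfull

/-- **Systems of classes, comparison of ranks.** -/
theorem cls_over [IsAlgClosed W.K] [Fintype ι] [DecidableEq ι] [Fintype β] [DecidableEq β]
    (hC : ClassSystem W C) (h : SemistableOver χ X Y d Z) {S' : Set β} {Z₁ : GVar W Γ}
    (hZ : GTower Y Z S' Z₁) {S : Set ι} {T : GVar W Γ} (hT : GTower X Z₁ S T) :
    TateIn χ C T ↔ TateIn χ C Z₁ := by
  induction hT with
  | base => exact Iff.rfl
  | @step S A A' i n hT hi hn hP ih =>
    obtain ⟨υ, h1, h2⟩ := hP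
    have hK := (tate_over h hZ hT).2
    have hfull : FullR (P := ⟨(X i).X, 0⟩) χ (h.gal i) A.act :=
      fullR_of (X := Sum.elim Y X) (i := Sum.inr i) h.galS (hK i hi) 0 (h.good i).2.2
        (h.good i).1
    rw [← ih]
    constructor
    · exact conv_cls (P := ⟨(X i).X, 0⟩) hC (h.good i).2.1
        (one_ne_of (h.gal i) (small_conv (h.gal i) (Set.Subset.refl _) (h.small i)))
        (isPowAct h1 h2)
    · exact step_cls (P := ⟨(X i).X, 0⟩) hC (h.good i).2.1 (h.good i).2.2 (h.gal i)
        (isPowAct h1 h2) (h.good i).1 hfull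

/-- **Systems of classes, local conditions.** -/
theorem cls_local [IsAlgClosed W.K] (hC : ClassSystem W C)
    (h : LocalVars χ X Z) {S : Set ι} {T : GVar W Γ} (hT : GTower X Z S T) :
    TateIn χ C T ↔ TateIn χ C Z := by
  induction hT with
  | base => exact Iff.rfl
  | @step S A A' i n hT hi hn hP ih =>
    rw [← ih]
    obtain ⟨υ, h1, h2⟩ := hP
    have hG := isGalois (h.galois i)
    have key : FullT (P := ⟨(X i).X, 0⟩) χ hG A.act ∧ ∃ t : W.H (X i).X, t ≠ 0 := by
      rcases h.cond i with ⟨g, hgM, hg⟩ | ⟨hF, Λ, g, ⟨hZ, hj⟩, hχ, hg⟩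
      · have hg' : CoprimeDefects (transcendental W (X i).X) (X i).act
            {g | χ g = 1 ∧ g ∈ trivialOn X Z i} g := hg
        refine ⟨?_, exists_ne_of_coprime (P := ⟨(X i).X, 0⟩) hg'⟩
        exact fullT_quad (P := ⟨(X i).X, 0⟩) (h.homEqNum i) (h.middle i) hG (h.odd i)
          (h.irreducible i) (M := {g | χ g = 1 ∧ g ∈ trivialOn X Z i}) (fun g hg => hg.1)
          (fun g hg => trivAct.1
            (hT.trivAct (fun j hjS => hg.2.2 j fun h' => hi (h' ▸ hjS)) hg.2.1)) hgM hg'
      · refine ⟨?_, ?_⟩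
        · exact fullT_iso (P := ⟨(X i).X, 0⟩) (h.homEqNum i) (h.middle i) hG (h.odd i)
              (h.irreducible i) hχ (isolatedAct_of hg) hF
              (GTower.eig hT (fun j hjS => hj j fun h' => hi (h' ▸ hjS)) hZ)
        · obtain ⟨F, x, hx, y, hy, hx0, -⟩ := hF
          exact ⟨x, hx0⟩
    obtain ⟨hfull, t, ht⟩ := key
    constructor
    · refine conv_cls (P := ⟨(X i).X, 0⟩) hC (h.homEqNum i) ?_ (isPowAct h1 h2)
      intro h3
      apply ht
      rw [← one_mul t, h3, zero_mul]
    · exact step_cls (P := ⟨(X i).X, 0⟩) hC (h.homEqNum i) (h.middle i) hG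
        (isPowAct h1 h2) (h.odd i) (fullR_of_fullT hfull)

end Pool.Agent.V11219.Cls
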