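import Mathlib
import Pool.Agent.V11219.MinOver
import Pool.Agent.V11219.ClsMain

/-!
# Conversions
-/

universe u

namespace Pool.Agent.V11219.Min

open Pool.Agent.TH125.Gal Pool.Agent.V11219.Cls

open Pool.Agent.H914 Pool.Agent.H914.VarClass Pool.Agent.H914.VarClass.Obj
  Pool.Agent.H914.WeilCohomology Pool.Agent.H281R3.HT

variable {k : Type u} [Field k] {𝒱 : VarClass k} {ops : CycleOps 𝒱}
  {W : WeilCohomology.{u, 0} ops} {Γ : Type} [Group Γ] {ι β : Type}
  {χ : Γ →* W.Kˣ} {X : ι → GVar W Γ} {Y : β → GVar W Γ} {Z : GVar W Γ} {d : ℕ}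

theorem Family.vars (h : Family χ X Z) : Sst.SemistableVars χ X Z where
  odd := fun i => (h.good i).1
  galois := h.galois
  homEqNum := fun i => (h.good i).2.1
  middle := fun i => (h.good i).2.2
  irreducible := h.irreducible
  distinct := h.distinct
  small := h.small

theorem FamilyOver.over [Fintype β] (h : FamilyOver χ X Y d Z) : Sst.SemistableOver χ X Y d Z where
  good := h.good
  good' := h.good'
  galois := h.galois
  galois' := h.galois'
  dim := h.dim
  irreducible := h.irreducible
  distinct := h.distinct
  small := h.small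
  larger := h.larger

end Pool.Agent.V11219.Min
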