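import Pool.Agent.V11219.MinDefs

/-!
# Two systems of classes: definitions
-/

open CategoryTheory AlgebraicGeometry

universe u

namespace Pool.Agent.V11219.Cls

open Pool.Agent.TH125.Gal

/-- The space `U` is spanned by elements which are multiplied by powers of `χ g` by all `g` in a
subgroup of finite index. -/
def SpanSemi {K A Γ : Type} [Field K] [Ring A] [Algebra K A] [Group Γ] (χ : Γ →* Kˣ)
    (U : Submodule K A) (ρ : Γ →* (A ≃ₐ[K] A)) : Prop :=
  U ≤ Submodule.span K {c | c ∈ U ∧ ∃ j, PotSemi χ ρ j c}

open Pool.Agent.H914 Pool.Agent.H914.VarClass Pool.Agent.H914.VarClass.Obj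
  Pool.Agent.H914.WeilCohomology Pool.Agent.H281R3.HT

variable {k : Type u} [Field k] {𝒱 : VarClass k} {ops : CycleOps 𝒱}
  {W : WeilCohomology.{u, 0} ops} {Γ : Type} [Group Γ]

/-- The classes of the system `H` on `A` are potentially semi-invariant. -/
def SemiOn (χ : Min.CharOf W Γ) (H : Classes W) (A : GVar W Γ) : Prop := SpanSemi χ (H A.X) A.act

/-- All classes of the system `H` on `A` belong to the system `C`. -/
def Included (H C : Classes W) (A : GVar W Γ) : Prop := H A.X ≤ C A.X

/-- Numerical and homological equivalence coincide for all powers of `A`. -/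
def PowersHomEqNum (A : GVar W Γ) : Prop := ∀ n, HomEqNum W (power ops A.X n)

end Pool.Agent.V11219.Cls
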