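import Mathlib
import Pool.Agent.V11219.TwoDefs
import Pool.Agent.V11219.ClsMain

/-!
# Two systems of classes on products with powers
-/

open CategoryTheory AlgebraicGeometry Finset Function

set_option linter.unusedSectionVars false
set_option linter.unusedVariables false

namespace Pool.Agent.V11219.Cls

universe u

open Pool.Agent.TH125.Gal Pool.Agent.TH118.SG Pool.Agent.V11219.IsoF Pool.Agent.V11219.Loc
  Pool.Agent.V11219.Quad Pool.Agent.V11219.Sst

open Pool.Agent.H914 Pool.Agent.H914.VarClass Pool.Agent.H914.VarClass.Obj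
  Pool.Agent.H914.WeilCohomology Pool.Agent.H281R3.HT Pool.Agent.W552

variable {k : Type u} [Field k] {𝒱 : VarClass k} {ops : CycleOps 𝒱}
  {W : WeilCohomology.{u, 0} ops}

/-- Functionals on the algebraic classes are given by algebraic classes. -/
theorem exists_alg {A : 𝒱.Obj} (hD : HomEqNum W A) (φ : W.H A →ₗ[W.K] W.K) :
    ∃ a ∈ algSpan W A, ∀ x ∈ algSpan W A, W.tr A (a * x) = φ x := by
  have hi : Function.Injective (rform W A (algSpan W A)) :=
    (injective_iff_map_eq_zero _).2 fun a ha => alg_nondeg hD a fun b => by rw [ha]; rfl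
  have hs : Function.Surjective (rform W A (algSpan W A)) :=
    (LinearMap.injective_iff_surjective_of_finrank_eq_finrank
      (Subspace.dual_finrank_eq (K := W.K) (V := algSpan W A)).symm).1 hi
  obtain ⟨a, ha⟩ := hs (φ.comp (algSpan W A).subtype)
  exact ⟨a, a.2, fun x hx => LinearMap.congr_fun ha ⟨x, hx⟩⟩

variable {P : Polarized 𝒱} {n : ℕ} {Z : 𝒱.Obj}
  {Γ : Type} [Group Γ] {χ : Γ →* W.Kˣ} {ρ : Γ →* (W.H P.X ≃ₐ[W.K] W.H P.X)}
  {τ : Γ →* (W.H Z ≃ₐ[W.K] W.H Z)}
  {υ : Γ →* (W.H ((nest ops n fun _ => P).X.prod Z) ≃ₐ[W.K]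
    W.H ((nest ops n fun _ => P).X.prod Z))}
  {H C : Classes W}

/-- **The step for two systems of classes.** -/
theorem two_step (hH : ClassSystem W H) (hC : ClassSystem W C) (hDX : HomEqNum W P.X)
    (hmid : transcendental W P.X ≤ W.gr P.X P.X.dim)
    (hG : IsGalois W χ P.X ρ) (hP : IsPowAct W P n Z ρ τ υ) (hodd : Odd P.X.dim)
    (hfull : FullR χ hG τ) (hDn : HomEqNum W (nest ops n fun _ => P).X)
    (hs : SpanSemi χ (H ((nest ops n fun _ => P).X.prod Z)) υ) (hle : H Z ≤ C Z) :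
    H ((nest ops n fun _ => P).X.prod Z) ≤ C ((nest ops n fun _ => P).X.prod Z) := by
  obtain ⟨s⟩ := exists_SB hDX
  obtain ⟨b, hb⟩ := exists_monoBasis (ops := ops) P s.e n
  obtain ⟨N, m, i, φ, hm, hφ, hexp⟩ := exists_expansion s n Z
  have hmalg : ∀ l, m l ∈ algSpan W (nest ops n fun _ => P).X := by
    intro l
    obtain ⟨S, hS⟩ := hm l
    exact hS.alg hDX hmid
  choose a ha hatr using fun l => exists_alg hDn (φ l)
  refine hs.trans (Submodule.span_le.2 ?_)
  rintro c ⟨hcH, j, Δ, hΔ, hc⟩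
  have h1 := mem_TgtR hb hDX hmid hG hP hodd hfull hΔ hc
  have h2 := hexp c h1
  set x : Fin N → W.H Z := fun l => ctr (φ l) c with hx
  have hxH : ∀ l, x l ∈ H Z := by
    intro l
    have h3 : W.push (snd (nest ops n fun _ => P).X Z) (W.map (fst _ Z) (a l) * c) ∈ H Z :=
      hH.push _ _ _ _ (hH.mul _ _ (hH.alg _ (algSpan_map _ (ha l))) _ hcH)
    have h4 : W.push (snd (nest ops n fun _ => P).X Z) (W.map (fst _ Z) (a l) * c) = x l := by
      conv_lhs => rw [h2]
      rw [Finset.mul_sum, map_sum, Finset.sum_eq_single l]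
      · rw [← mul_assoc, ← map_mul, W.push_snd, hatr l _ (hmalg l), hφ, if_pos rfl, one_smul]
      · intro l' _ hl
        rw [← mul_assoc, ← map_mul, W.push_snd, hatr l _ (hmalg l'), hφ, if_neg hl, zero_smul]
      · intro h
        exact absurd (Finset.mem_univ _) h
    rw [← h4]
    exact h3
  have h8 : c ∈ C ((nest ops n fun _ => P).X.prod Z) := by
    rw [h2]
    refine Submodule.sum_mem _ fun l _ => ?_
    exact hC.mul _ _ (hC.map _ _ _ _ (hC.alg _ (hmalg l))) _ (hC.map _ _ _ _ (hle (hxH l)))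
  exact h8

/-- The converse. -/
theorem two_conv (hH : ClassSystem W H) (hC : ClassSystem W C) (hDX : HomEqNum W P.X)
    (h1 : (1 : W.H P.X) ≠ 0)
    (hle : H ((nest ops n fun _ => P).X.prod Z) ≤ C ((nest ops n fun _ => P).X.prod Z)) :
    H Z ≤ C Z := by
  intro c hc
  have h2 : W.map (snd _ Z) c ∈ C ((nest ops n fun _ => P).X.prod Z) :=
    hle (hH.map _ _ _ _ hc)
  obtain ⟨a, ha, ha0⟩ := exists_pt hDX h1
  have h3 : W.push (snd (nest ops n fun _ => P).X Z) (W.map (fst _ Z)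
      (mono (prj ops n fun _ => P) fun _ => a) * W.map (snd _ Z) c) ∈ C Z :=
    hC.push _ _ _ _ (hC.mul _ _ (hC.alg _ (algSpan_map _ (mono_alg _ fun _ => alg_mem ha))) _ h2)
  rw [W.push_snd, tr_mono] at h3
  have h4 := Submodule.smul_mem _ (W.tr P.X a ^ (n + 1))⁻¹ h3
  rw [smul_smul, inv_mul_cancel₀ (pow_ne_zero _ ha0), one_smul] at h4
  exact h4

end Pool.Agent.V11219.Cls
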