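import Mathlib
import Pool.Agent.V11219.TwoStep
import Pool.Agent.V11219.MinMain

/-!
# Two systems of classes on towers
-/

open CategoryTheory AlgebraicGeometry Finset Function

set_option linter.unusedSectionVars false
set_option linter.unusedVariables false

namespace Pool.Agent.V11219.Cls

universe u

open Pool.Agent.TH125.Gal Pool.Agent.TH118.SG Pool.Agent.V11219.IsoF Pool.Agent.V11219.Loc
  Pool.Agent.V11219.Quad Pool.Agent.V11219.Sst

open Pool.Agent.H914 Pool.Agent.H914.VarClass Pool.Agent.H914.VarClass.Obj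
  Pool.Agent.H914.WeilCohomology Pool.Agent.H281R3.HT Pool.Agent.W552

variable {k : Type u} [Field k] {𝒱 : VarClass k} {ops : CycleOps 𝒱}
  {W : WeilCohomology.{u, 0} ops} {Γ : Type} [Group Γ] {χ : Γ →* W.Kˣ}
  {H C : Classes W} {ι β : Type} {X : ι → GVar W Γ} {Y : β → GVar W Γ}
  {d : ℕ} {Z : GVar W Γ}

/-- **Two systems, simultaneous semistable degenerations.** -/
theorem two_sst [IsAlgClosed W.K] [Fintype ι] [DecidableEq ι] (hH : ClassSystem W H)
    (hC : ClassSystem W C) (h : SemistableVars χ X Z) (hD : ∀ i, PowersHomEqNum (X i))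
    (hs : ∀ S A, Tower X Z S A → SemiOn χ H A) {S : Set ι} {T : GVar W Γ}
    (hT : Tower X Z S T) : Included H C T ↔ Included H C Z := by
  induction hT with
  | base => exact Iff.rfl
  | @step S A A' i n hT hi hP ih =>
    have hsA := hs _ _ (Tower.step i n hT hi hP)
    obtain ⟨υ, h1, h2⟩ := hP
    have hK := (tate_sst h (hT.gTower h.odd)).2
    have hfull : FullR (P := ⟨(X i).X, 0⟩) χ (h.gal i) A.act :=
      fullR_of h.gal (hK i hi) 0 (h.middle i) (h.odd i)
    rw [← ih]
    constructor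
    · exact two_conv (P := ⟨(X i).X, 0⟩) hH hC (h.homEqNum i)
        (one_ne_of (h.gal i) (h.conv i (Set.Subset.refl _)))
    · exact two_step (P := ⟨(X i).X, 0⟩) hH hC (h.homEqNum i) (h.middle i) (h.gal i)
        (isPowAct h1 h2) (h.odd i) hfull (hD i n) hsA

/-- **Two systems, comparison of ranks.** -/
theorem two_over [IsAlgClosed W.K] [Fintype ι] [DecidableEq ι] [Fintype β] [DecidableEq β]
    (hH : ClassSystem W H) (hC : ClassSystem W C) (h : SemistableOver χ X Y d Z)
    (hD : ∀ i, PowersHomEqNum (X i)) {S' : Set β} {Z₁ : GVar W Γ} (hZ : GTower Y Z S' Z₁)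
    (hs : ∀ S A, Tower X Z₁ S A → SemiOn χ H A) {S : Set ι} {T : GVar W Γ}
    (hT : Tower X Z₁ S T) : Included H C T ↔ Included H C Z₁ := by
  induction hT with
  | base => exact Iff.rfl
  | @step S A A' i n hT hi hP ih =>
    have hsA := hs _ _ (Tower.step i n hT hi hP)
    obtain ⟨υ, h1, h2⟩ := hP
    have hK := (tate_over h hZ (hT.gTower fun i => (h.good i).1)).2
    have hfull : FullR (P := ⟨(X i).X, 0⟩) χ (h.gal i) A.act :=
      fullR_of (X := Sum.elim Y X) (i := Sum.inr i) h.galS (hK i hi) 0 (h.good i).2.2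
        (h.good i).1
    rw [← ih]
    constructor
    · exact two_conv (P := ⟨(X i).X, 0⟩) hH hC (h.good i).2.1
        (one_ne_of (h.gal i) (small_conv (h.gal i) (Set.Subset.refl _) (h.small i)))
    · exact two_step (P := ⟨(X i).X, 0⟩) hH hC (h.good i).2.1 (h.good i).2.2 (h.gal i)
        (isPowAct h1 h2) (h.good i).1 hfull (hD i n) hsA

/-- **Two systems, local conditions.** -/
theorem two_local [IsAlgClosed W.K] (hH : ClassSystem W H) (hC : ClassSystem W C)
    (h : LocalVars χ X Z) (hD : ∀ i, PowersHomEqNum (X i))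
    (hs : ∀ S A, Tower X Z S A → SemiOn χ H A) {S : Set ι} {T : GVar W Γ}
    (hT : Tower X Z S T) : Included H C T ↔ Included H C Z := by
  induction hT with
  | base => exact Iff.rfl
  | @step S A A' i n hT hi hP ih =>
    rw [← ih]
    have hsA := hs _ _ (Tower.step i n hT hi hP)
    have hT' := hT.gTower h.odd
    obtain ⟨υ, h1, h2⟩ := hP
    have hG := isGalois (h.galois i)
    have key : FullT (P := ⟨(X i).X, 0⟩) χ hG A.act ∧ ∃ t : W.H (X i).X, t ≠ 0 := by
      rcases h.cond i with ⟨g, hgM, hg⟩ | ⟨hF, Λ, g, ⟨hZ, hj⟩, hχ, hg⟩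
      · have hg' : CoprimeDefects (transcendental W (X i).X) (X i).act
            {g | χ g = 1 ∧ g ∈ trivialOn X Z i} g := hg
        refine ⟨?_, exists_ne_of_coprime (P := ⟨(X i).X, 0⟩) hg'⟩
        exact fullT_quad (P := ⟨(X i).X, 0⟩) (h.homEqNum i) (h.middle i) hG (h.odd i)
          (h.irreducible i) (M := {g | χ g = 1 ∧ g ∈ trivialOn X Z i}) (fun g hg => hg.1)
          (fun g hg => trivAct.1
            (hT'.trivAct (fun j hjS => hg.2.2 j fun h' => hi (h' ▸ hjS)) hg.2.1)) hgM hg'
      · refine ⟨?_, ?_⟩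
        · exact fullT_iso (P := ⟨(X i).X, 0⟩) (h.homEqNum i) (h.middle i) hG (h.odd i)
              (h.irreducible i) hχ (isolatedAct_of hg) hF
              (GTower.eig hT' (fun j hjS => hj j fun h' => hi (h' ▸ hjS)) hZ)
        · obtain ⟨F, x, hx, y, hy, hx0, -⟩ := hF
          exact ⟨x, hx0⟩
    obtain ⟨hfull, t, ht⟩ := key
    constructor
    · refine two_conv (P := ⟨(X i).X, 0⟩) hH hC (h.homEqNum i) ?_
      intro h3
      apply ht
      rw [← one_mul t, h3, zero_mul]
    · exact two_step (P := ⟨(X i).X, 0⟩) hH hC (h.homEqNum i) (h.middle i) hG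
        (isPowAct h1 h2) (h.odd i) (fullR_of_fullT hfull) (hD i n) hsA

end Pool.Agent.V11219.Cls
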