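import Mathlib
import Pool.Agent.V11219.TwoMain

/-!
# Numerical and homological equivalence on products with powers, without positivity
-/

open CategoryTheory AlgebraicGeometry Finset Function

set_option linter.unusedSectionVars false
set_option linter.unusedVariables false

namespace Pool.Agent.V11219.Cls

universe u

open Pool.Agent.TH125.Gal Pool.Agent.TH118.SG Pool.Agent.V11219.IsoF Pool.Agent.V11219.Loc
  Pool.Agent.V11219.Quad Pool.Agent.V11219.Sst

open Pool.Agent.H914 Pool.Agent.H914.VarClass Pool.Agent.H914.VarClass.Obj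
  Pool.Agent.H914.WeilCohomology Pool.Agent.H281R3.HT Pool.Agent.W552

variable {k : Type u} [Field k] {𝒱 : VarClass k} {ops : CycleOps 𝒱}
  {W : WeilCohomology.{u, 0} ops}

/-- The system of algebraic classes. -/
theorem algSystem : ClassSystem W (fun A => algSpan W A) where
  alg := fun A => le_rfl
  mul := fun A a ha b hb => algSpan_mul ha hb
  map := fun A B f b hb => algSpan_map f hb
  push := fun A B f a ha => algSpan_push f ha

/-- The conjecture D in terms of the nondegeneracy of the intersection form. -/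
theorem dee_iff {A : 𝒱.Obj} : HomEqNum W A ↔
    ∀ c ∈ algSpan W A, (∀ b ∈ algSpan W A, W.tr A (c * b) = 0) → c = 0 := by
  constructor
  · intro h c hc h1
    have h2 := alg_nondeg h ⟨c, hc⟩ fun b => h1 b b.2
    exact congrArg Subtype.val h2
  · intro h
    rw [homEqNum_iff]
    intro c hc hnum
    have hc' : c ∈ algSpan W A :=
      W552.AS.ind (p := fun x => x ∈ algSpan W A) (fun j x hx => alg_mem hx)
        (fun x y hx hy => Submodule.add_mem _ hx hy) hc
    refine h c hc' fun b hb => ?_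
    induction hb using Submodule.span_induction with
    | mem b hb =>
      obtain ⟨i, hi⟩ := Set.mem_iUnion.1 hb
      exact hnum b (W552.AS.of hi)
    | zero => rw [mul_zero, map_zero]
    | add x y _ _ hx hy => rw [mul_add, map_add, hx, hy, add_zero]
    | smul q x _ hx => rw [mul_smul_comm, map_smul, hx, smul_zero]

variable {P : Polarized 𝒱} {n : ℕ} {Z : 𝒱.Obj}
  {Γ : Type} [Group Γ] {χ : Γ →* W.Kˣ} {ρ : Γ →* (W.H P.X ≃ₐ[W.K] W.H P.X)}
  {τ : Γ →* (W.H Z ≃ₐ[W.K] W.H Z)}
  {υ : Γ →* (W.H ((nest ops n fun _ => P).X.prod Z) ≃ₐ[W.K]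
    W.H ((nest ops n fun _ => P).X.prod Z))}

/-- **The conjecture D, the step.** -/
theorem dee_step (hDX : HomEqNum W P.X)
    (hmid : transcendental W P.X ≤ W.gr P.X P.X.dim)
    (hG : IsGalois W χ P.X ρ) (hP : IsPowAct W P n Z ρ τ υ) (hodd : Odd P.X.dim)
    (hfull : FullR χ hG τ) (hDn : HomEqNum W (nest ops n fun _ => P).X)
    (hs : SpanSemi χ (algSpan W ((nest ops n fun _ => P).X.prod Z)) υ) (hDZ : HomEqNum W Z) :
    HomEqNum W ((nest ops n fun _ => P).X.prod Z) := by
  obtain ⟨s⟩ := exists_SB hDX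
  obtain ⟨b, hb⟩ := exists_monoBasis (ops := ops) P s.e n
  obtain ⟨N, m, i, φ, hm, hφ, hexp⟩ := exists_expansion s n Z
  have hmalg : ∀ l, m l ∈ algSpan W (nest ops n fun _ => P).X := by
    intro l
    obtain ⟨S, hS⟩ := hm l
    exact hS.alg hDX hmid
  choose a ha hatr using fun l => exists_alg hDn (φ l)
  rw [dee_iff]
  intro c hcA hnum
  have h1 : c ∈ Tgt s n Z := by
    have h0 : Submodule.span W.K {c | c ∈ algSpan W ((nest ops n fun _ => P).X.prod Z) ∧
        ∃ j, PotSemi χ υ j c} ≤ Tgt s n Z := by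
      refine Submodule.span_le.2 ?_
      rintro c ⟨-, j, Δ, hΔ, hc⟩
      exact mem_TgtR hb hDX hmid hG hP hodd hfull hΔ hc
    exact h0 (hs hcA)
  have h2 := hexp c h1
  set x : Fin N → W.H Z := fun l => ctr (φ l) c with hx
  have hx0 : ∀ l, x l = 0 := by
    intro l
    have h4 : W.push (snd (nest ops n fun _ => P).X Z) (W.map (fst _ Z) (a l) * c) = x l := by
      conv_lhs => rw [h2]
      rw [Finset.mul_sum, map_sum, Finset.sum_eq_single l]
      · rw [← mul_assoc, ← map_mul, W.push_snd, hatr l _ (hmalg l), hφ, if_pos rfl, one_smul]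
      · intro l' _ hl
        rw [← mul_assoc, ← map_mul, W.push_snd, hatr l _ (hmalg l'), hφ, if_neg hl, zero_smul]
      · intro h
        exact absurd (Finset.mem_univ _) h
    have h5 : W.map (fst (nest ops n fun _ => P).X Z) (a l) ∈
        algSpan W ((nest ops n fun _ => P).X.prod Z) := algSpan_map _ (ha l)
    have hxA : x l ∈ algSpan W Z := by
      rw [← h4]
      exact algSpan_push _ (algSpan_mul h5 hcA)
    refine dee_iff.1 hDZ _ hxA fun w hw => ?_
    rw [← h4, W.tr_push, alg_comm h5 c, mul_assoc]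
    exact hnum _ (algSpan_mul h5 (algSpan_map _ hw))
  rw [h2]
  refine Finset.sum_eq_zero fun l _ => ?_
  have h6 : ctr (φ l) c = 0 := hx0 l
  rw [h6, map_zero, mul_zero]

/-- The converse. -/
theorem dee_conv (hDX : HomEqNum W P.X) (h1 : (1 : W.H P.X) ≠ 0)
    (h : HomEqNum W ((nest ops n fun _ => P).X.prod Z)) : HomEqNum W Z := by
  obtain ⟨x, hx⟩ := exists_tr h1
  have h2 : W.tr (nest ops n fun _ => P).X (mono (prj ops n fun _ => P) fun _ => x) ≠ 0 := by
    rw [tr_mono]
    exact pow_ne_zero _ hx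
  exact homEqNum_factor h2 h

variable {ι β : Type} {X : ι → GVar W Γ} {Y : β → GVar W Γ} {d : ℕ} {B : GVar W Γ}

/-- **The conjecture D, comparison of ranks.** -/
theorem dee_over [IsAlgClosed W.K] [Fintype ι] [DecidableEq ι] [Fintype β] [DecidableEq β]
    (h : SemistableOver χ X Y d B) (hD : ∀ i, PowersHomEqNum (X i)) {S' : Set β}
    {Z₁ : GVar W Γ} (hZ : GTower Y B S' Z₁)
    (hs : ∀ S A, Tower X Z₁ S A → SemiOn χ (fun A => algSpan W A) A) {S : Set ι} {T : GVar W Γ}
    (hT : Tower X Z₁ S T) : HomEqNum W T.X ↔ HomEqNum W Z₁.X := by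
  induction hT with
  | base => exact Iff.rfl
  | @step S A A' i n hT hi hP ih =>
    have hsA := hs _ _ (Tower.step i n hT hi hP)
    obtain ⟨υ, h1, h2⟩ := hP
    have hK := (tate_over h hZ (hT.gTower fun i => (h.good i).1)).2
    have hfull : FullR (P := ⟨(X i).X, 0⟩) χ (h.gal i) A.act :=
      fullR_of (X := Sum.elim Y X) (i := Sum.inr i) h.galS (hK i hi) 0 (h.good i).2.2
        (h.good i).1
    rw [← ih]
    constructor
    · exact dee_conv (P := ⟨(X i).X, 0⟩) (h.good i).2.1
        (one_ne_of (h.gal i) (small_conv (h.gal i) (Set.Subset.refl _) (h.small i)))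
    · exact dee_step (P := ⟨(X i).X, 0⟩) (h.good i).2.1 (h.good i).2.2 (h.gal i)
        (isPowAct h1 h2) (h.good i).1 hfull (hD i n) hsA

/-- **The conjecture D, simultaneous semistable degenerations.** -/
theorem dee_sst [IsAlgClosed W.K] [Fintype ι] [DecidableEq ι]
    (h : SemistableVars χ X B) (hD : ∀ i, PowersHomEqNum (X i))
    (hs : ∀ S A, Tower X B S A → SemiOn χ (fun A => algSpan W A) A) {S : Set ι} {T : GVar W Γ}
    (hT : Tower X B S T) : HomEqNum W T.X ↔ HomEqNum W B.X := by
  induction hT with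
  | base => exact Iff.rfl
  | @step S A A' i n hT hi hP ih =>
    have hsA := hs _ _ (Tower.step i n hT hi hP)
    obtain ⟨υ, h1, h2⟩ := hP
    have hK := (tate_sst h (hT.gTower h.odd)).2
    have hfull : FullR (P := ⟨(X i).X, 0⟩) χ (h.gal i) A.act :=
      fullR_of h.gal (hK i hi) 0 (h.middle i) (h.odd i)
    rw [← ih]
    constructor
    · exact dee_conv (P := ⟨(X i).X, 0⟩) (h.homEqNum i)
        (one_ne_of (h.gal i) (h.conv i (Set.Subset.refl _)))
    · exact dee_step (P := ⟨(X i).X, 0⟩) (h.homEqNum i) (h.middle i) (h.gal i)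
        (isPowAct h1 h2) (h.odd i) hfull (hD i n) hsA

end Pool.Agent.V11219.Cls
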