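import Pool.Agent.V11219.MinDefs

/-!
# Direct factors of cohomology: definitions
-/

open CategoryTheory AlgebraicGeometry

universe u

namespace Pool.Agent.V11219.Cls

open Pool.Agent.TH125.Gal

section Alg

variable {K A Γ : Type} [Field K] [Ring A] [Algebra K A] [Group Γ]

/-- The representation `σ` on `M` is by the maps `s` and `f` a direct factor, up to the twist by
`χ ^ j`, of `gr (2 * j)`: the composition `f ∘ s` is the identity, and `s` is equivariant. -/
structure IsFactor (χ : Γ →* Kˣ) (gr : ℕ → Submodule K A) (ρ : Min.Act K A Γ) (j : ℕ) {M : Type}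
    [AddCommGroup M] [Module K M] (σ : Γ →* (M →ₗ[K] M)) (s : M →ₗ[K] A) (f : A →ₗ[K] M) :
    Prop where
  deg : ∀ m, s m ∈ gr (2 * j)
  eqv : ∀ g m, ρ g (s m) = (χ g : K) ^ j • s (σ g m)
  ret : ∀ m, f (s m) = m

/-- The element `m` is invariant under a subgroup of finite index. -/
def PotInv {M : Type} [AddCommGroup M] [Module K M] (σ : Γ →* (M →ₗ[K] M)) (m : M) : Prop :=
  ∃ Δ : Subgroup Γ, Δ.FiniteIndex ∧ ∀ g ∈ Δ, σ g m = m

/-- For all direct factors `M` every potentially invariant element of `M` is the image of an element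
of `U`. -/
def FactorsIn (χ : Γ →* Kˣ) (gr : ℕ → Submodule K A) (U : Submodule K A) (ρ : Min.Act K A Γ) :
    Prop :=
  ∀ (M : Type) [AddCommGroup M] [Module K M] (j : ℕ) (σ : Γ →* (M →ₗ[K] M)) (s : M →ₗ[K] A)
    (f : A →ₗ[K] M), IsFactor χ gr ρ j σ s f → ∀ m, PotInv σ m → m ∈ U.map f

end Alg

open Pool.Agent.H914 Pool.Agent.H914.VarClass Pool.Agent.H914.VarClass.Obj
  Pool.Agent.H914.WeilCohomology Pool.Agent.H281R3.HT

variable {k : Type u} [Field k] {𝒱 : VarClass k} {ops : CycleOps 𝒱}
  {W : WeilCohomology.{u, 0} ops} {Γ : Type} [Group Γ]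

/-- For all direct factors `M` of the cohomology of `A` every potentially invariant element of `M` is
the image of an element of `C A`. -/
def FactorsTate (χ : Min.CharOf W Γ) (C : Classes W) (A : GVar W Γ) : Prop :=
  FactorsIn χ (W.gr A.X) (C A.X) A.act

end Pool.Agent.V11219.Cls
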