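import Mathlib
import Pool.Agent.V11219.FacDefs
import Pool.Agent.V11219.DeeStep

/-!
# Direct factors of cohomology
-/

universe u

namespace Pool.Agent.V11219.Cls

open Pool.Agent.TH125.Gal
open Pool.Agent.H914 Pool.Agent.H914.VarClass Pool.Agent.H914.VarClass.Obj
  Pool.Agent.H914.WeilCohomology Pool.Agent.H281R3.HT

theorem factorsIn {K A Γ : Type} [Field K] [Ring A] [Algebra K A] [Group Γ] {χ : Γ →* Kˣ}
    {gr : ℕ → Submodule K A} {U : Submodule K A} {ρ : Γ →* (A ≃ₐ[K] A)}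
    (h : TateInAct χ gr U ρ) : FactorsIn χ gr U ρ := by
  rintro M _ _ j σ s f hf m ⟨Δ, hΔ, hm⟩
  exact ⟨s m, h j (s m) (hf.deg m) ⟨Δ, hΔ, fun g hg => by rw [hf.eqv, hm g hg]⟩, hf.ret m⟩

variable {k : Type u} [Field k] {𝒱 : VarClass k} {ops : CycleOps 𝒱}
  {W : WeilCohomology.{u, 0} ops} {Γ : Type} [Group Γ]

theorem TateIn.factors {χ : Γ →* W.Kˣ} {C : Classes W} {A : GVar W Γ} (h : TateIn χ C A) :
    FactorsTate χ C A := factorsIn h

end Pool.Agent.V11219.Cls
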