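import Mathlib
import Pool.Agent.V11219.MinOver
import Pool.Agent.V11219.FacMain

/-!
# The conjecture D and the Tate conjecture for towers
-/

universe u

namespace Pool.Agent.V11219.Cls

open Pool.Agent.TH125.Gal Pool.Agent.V11219.Min
open Pool.Agent.H914 Pool.Agent.H914.VarClass Pool.Agent.H914.VarClass.Obj
  Pool.Agent.H914.WeilCohomology Pool.Agent.H281R3.HT

variable {k : Type u} [Field k] {𝒱 : VarClass k} {ops : CycleOps 𝒱}
  {W : WeilCohomology.{u, 0} ops} {Γ : Type} [Group Γ] {χ : Γ →* W.Kˣ}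
  {ι β : Type} {X : ι → GVar W Γ} {Y : β → GVar W Γ} {Z : GVar W Γ} {d : ℕ}

theorem semi_of_galois {A : GVar W Γ} (h : GaloisVar χ A) :
    SemiOn χ (fun A => algSpan W A) A := by
  intro c hc
  refine Submodule.span_mono ?_ hc
  intro x hx
  obtain ⟨j, hj⟩ := Set.mem_iUnion.1 hx
  obtain ⟨Δ, hΔ, h1⟩ := h.cl_fix j x hj
  exact ⟨Submodule.subset_span hx, j, Δ, hΔ, h1⟩

/-- **D, comparison of ranks.** -/
theorem dee_over' [IsAlgClosed W.K] [Finite ι] [Fintype β] (h : FamilyOver χ X Y d Z)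
    (hD : ∀ i, PowersHomEqNum (X i)) {S' : Set β} {Z₁ : GVar W Γ} (hZ : Tower Y Z S' Z₁)
    (hs : ∀ S A, Tower X Z₁ S A → GaloisVar χ A) {S : Set ι} {T : GVar W Γ}
    (hT : Tower X Z₁ S T) : HomEqNum W T.X ↔ HomEqNum W Z₁.X := by
  classical
  have := Fintype.ofFinite ι
  exact dee_over h.over hD (hZ.gTower fun b => (h.good' b).1)
    (fun S A hA => semi_of_galois (hs S A hA)) hT

/-- **Tate for direct factors.** -/
theorem factors_sst [IsAlgClosed W.K] [Finite ι] {C : Classes W} (hC : ClassSystem W C)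
    (h : Family χ X Z) {S : Set ι} {T : GVar W Γ} (hT : Tower X Z S T) :
    (TateIn χ C T ∧ FactorsTate χ C T) ↔ TateIn χ C Z := by
  classical
  have := Fintype.ofFinite ι
  have h1 := cls_sst hC h.vars (hT.gTower h.vars.odd)
  exact ⟨fun h2 => h1.1 h2.1, fun h2 => ⟨h1.2 h2, (h1.2 h2).factors⟩⟩

/-- **Tate and D, comparison of ranks.** -/
theorem both_over [IsAlgClosed W.K] [Finite ι] [Fintype β] (h : FamilyOver χ X Y d Z)
    (hD : ∀ i, PowersHomEqNum (X i)) {S' : Set β} {Z₁ : GVar W Γ} (hZ : Tower Y Z S' Z₁)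
    (hs : ∀ S A, Tower X Z₁ S A → GaloisVar χ A) {S : Set ι} {T : GVar W Γ}
    (hT : Tower X Z₁ S T) :
    (TateIn χ (algSpan W) T ∧ FactorsTate χ (algSpan W) T ∧ HomEqNum W T.X) ↔
      (TateIn χ (algSpan W) Z₁ ∧ HomEqNum W Z₁.X) := by
  classical
  have h0 := dee_over' h hD hZ hs hT
  have := Fintype.ofFinite ι
  have h1 := cls_over (C := algSpan W) algSystem h.over (hZ.gTower fun b => (h.good' b).1)
    (hT.gTower fun i => (h.good i).1)
  exact ⟨fun h2 => ⟨h1.1 h2.1, h0.1 h2.2.2⟩,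
    fun h2 => ⟨h1.2 h2.1, (h1.2 h2.1).factors, h0.2 h2.2⟩⟩

end Pool.Agent.V11219.Cls
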