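import Pool.Agent.V11219.MinDefs

/-!
# Varieties dominated by a variety: definitions
-/

open CategoryTheory AlgebraicGeometry

universe u

namespace Pool.Agent.V11219.Cls

open Pool.Agent.TH125.Gal

section Alg

variable {K A B Γ : Type} [Field K] [Ring A] [Algebra K A] [Ring B] [Algebra K B] [Group Γ]

/-- The map `f` is compatible with the actions. -/
def EquivMap (ρ : Min.Act K A Γ) (σ : Min.Act K B Γ) (f : B → A) : Prop :=
  ∀ γ x, ρ γ (f x) = f (σ γ x)

/-- `1` is the image under `f` of an element of `U`. -/
def OneImage (U : Submodule K A) (f : A → B) : Prop := ∃ a ∈ U, f a = 1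

end Alg

open Pool.Agent.H914 Pool.Agent.H914.VarClass Pool.Agent.H914.VarClass.Obj
  Pool.Agent.H914.WeilCohomology Pool.Agent.H281R3.HT

variable {k : Type u} [Field k] {𝒱 : VarClass k} {ops : CycleOps 𝒱}

/-- `1` is the direct image under `g` of a combination of classes of algebraic cycles. -/
def PushOne (W : WeilCohomology.{u, 0} ops) {A B : 𝒱.Obj} (g : A ⟶ B) : Prop :=
  OneImage (algSpan W A) (W.push g)

variable {W : WeilCohomology.{u, 0} ops} {Γ : Type} [Group Γ]

/-- The pull-back by `g` is compatible with the actions of `Γ`. -/
def PullEquiv (A B : GVar W Γ) (g : A.X ⟶ B.X) : Prop := EquivMap A.act B.act (W.map g)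

/-- The variety `B` is *dominated* by `A`: there is a morphism `g` from `A` to `B`, compatible with
the actions of `Γ`, such that `1` is the direct image of a combination of classes of algebraic
cycles. -/
def DominatesVar (A B : GVar W Γ) : Prop := ∃ g : A.X ⟶ B.X, PushOne W g ∧ PullEquiv A B g

/-- All potentially semi-invariant classes of all varieties dominated by `A` are in `C`. -/
def DominatedTate (χ : Min.CharOf W Γ) (C : Classes W) (A : GVar W Γ) : Prop :=
  ∀ B : GVar W Γ, DominatesVar A B → TateIn χ C B

end Pool.Agent.V11219.Cls
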