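import Pool.Agent.V11219.MinDefs

/-!
# Systems of groups of classes: definitions
-/

open CategoryTheory AlgebraicGeometry

universe u

namespace Pool.Agent.V11219.Cls

/-- Products of elements of `U` belong to `U`. -/
def MulClosed {A : Type} [Ring A] (U : AddSubgroup A) : Prop := ∀ a ∈ U, ∀ b ∈ U, a * b ∈ U

/-- `f` maps `U` into `V`. -/
def Into {A B : Type} [Ring A] [Ring B] (f : A → B) (U : AddSubgroup A) (V : AddSubgroup B) :
    Prop :=
  ∀ a ∈ U, f a ∈ V

/-- The set `U` is contained in `V`. -/
def SetIn {A : Type} [Ring A] (U : Set A) (V : AddSubgroup A) : Prop := ∀ a ∈ U, a ∈ V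

/-- The group `U` is contained in `V`. -/
def GroupIn {A : Type} [Ring A] (U V : AddSubgroup A) : Prop := ∀ a ∈ U, a ∈ V

/-- The intersection of the groups with the property `P`. -/
def meet {A : Type} [Ring A] (P : AddSubgroup A → Prop) : AddSubgroup A := sInf {U | P U}

/-- The space spanned by the group `U`. -/
def spanGroup (K : Type) {A : Type} [Field K] [Ring A] [Algebra K A] (U : AddSubgroup A) :
    Submodule K A :=
  Submodule.span K (U : Set A)

open Pool.Agent.H914 Pool.Agent.H914.VarClass Pool.Agent.H914.VarClass.Obj
  Pool.Agent.H914.WeilCohomology Pool.Agent.H281R3.HT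

variable {k : Type u} [Field k] {𝒱 : VarClass k} {ops : CycleOps 𝒱}

/-- Families of groups of cohomology classes. -/
abbrev ClassGroups (W : WeilCohomology.{u, 0} ops) : Type _ := ∀ A : 𝒱.Obj, AddSubgroup (W.H A)

/-- The groups `D A` contain the classes of algebraic cycles and are stable under products,
pull-backs and push-forwards. -/
structure GroupSystem (W : WeilCohomology.{u, 0} ops) (D : ClassGroups W) : Prop where
  alg : ∀ (A : 𝒱.Obj) (j : ℕ), SetIn (algClasses W A j) (D A)
  mul : ∀ A, MulClosed (D A)
  map : ∀ (A B : 𝒱.Obj) (f : A ⟶ B), Into (W.map f) (D B) (D A)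
  push : ∀ (A B : 𝒱.Obj) (f : A ⟶ B), Into (W.push f) (D A) (D B)

variable {W : WeilCohomology.{u, 0} ops}

/-- The groups `D A` contain the groups `D₀ A`. -/
def Contain (D₀ D : ClassGroups W) : Prop := ∀ A, GroupIn (D₀ A) (D A)

/-- The group `U` of classes of `A` is the group `D A` for a system `D` of groups which contain the
classes of algebraic cycles and the groups `D₀ B` and are stable under products, pull-backs and
push-forwards. -/
def IsSystemAt (D₀ : ClassGroups W) (A : 𝒱.Obj) (U : AddSubgroup (W.H A)) : Prop :=
  ∃ D : ClassGroups W, GroupSystem W D ∧ Contain D₀ D ∧ U = D A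

/-- The smallest system of groups of classes which contains the classes of algebraic cycles and the
groups `D₀ A` and is stable under products, pull-backs and push-forwards. -/
def generated (D₀ : ClassGroups W) : ClassGroups W := fun A => meet (IsSystemAt D₀ A)

/-- The spaces spanned by the groups `D A`. -/
def spanned (D : ClassGroups W) : Classes W := fun A => spanGroup W.K (D A)

end Pool.Agent.V11219.Cls
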