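import Mathlib
import Pool.Agent.V11219.DomDefs
import Pool.Agent.V11219.GenDefs
import Pool.Agent.V11219.DeeMain

/-!
# Varieties dominated by a variety, and systems of groups of classes
-/

open CategoryTheory AlgebraicGeometry

universe u

namespace Pool.Agent.V11219.Cls

open Pool.Agent.TH125.Gal Pool.Agent.V11219.Min
open Pool.Agent.H914 Pool.Agent.H914.VarClass Pool.Agent.H914.VarClass.Obj
  Pool.Agent.H914.WeilCohomology Pool.Agent.H281R3.HT

variable {k : Type u} [Field k] {𝒱 : VarClass k} {ops : CycleOps 𝒱}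
  {W : WeilCohomology.{u, 0} ops}

theorem push_mul_map' {X Y : 𝒱.Obj} (f : X ⟶ Y) (a : W.H X) (b : W.H Y) :
    W.push f (a * W.map f b) = W.push f a * b := by
  refine sub_eq_zero.1 (W.nondeg _ fun c => ?_)
  rw [sub_mul, map_sub, W.tr_push, mul_assoc (W.push f a), W.tr_push, map_mul (W.map f),
    mul_assoc, sub_self]

theorem push_id_one (X : 𝒱.Obj) : W.push (𝟙 X) (1 : W.H X) = 1 := by
  refine sub_eq_zero.1 (W.nondeg _ fun c => ?_)
  rw [sub_mul, map_sub, W.tr_push, W.map_id, sub_self]

theorem one_mem_algSpan (X : 𝒱.Obj) : (1 : W.H X) ∈ algSpan W X :=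
  Submodule.subset_span (Set.mem_iUnion.2 ⟨0, by
    refine ⟨X.V.fundCycle, ?_, W.cl_fund X⟩
    exact SmVar.fundCycle_mem X.V⟩)

variable {Γ : Type} [Group Γ] {χ : CharOf W Γ}

theorem dominates_refl (A : GVar W Γ) : DominatesVar A A :=
  ⟨𝟙 A.X, ⟨1, one_mem_algSpan _, push_id_one _⟩, fun γ x => by rw [W.map_id, W.map_id]⟩

theorem TateIn.dominated {C : Classes W} (hC : ClassSystem W C) {A B : GVar W Γ}
    (hAB : DominatesVar A B) (h : TateIn χ C A) : TateIn χ C B := by
  obtain ⟨g, ⟨a, ha, ha1⟩, hg⟩ := hAB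
  rintro j x hx ⟨Δ, hΔ, hx1⟩
  have h1 : W.map g x ∈ C A.X :=
    h j _ (W.map_mem g hx) ⟨Δ, hΔ, fun γ hγ => by rw [hg, hx1 γ hγ, map_smul]⟩
  have h2 := hC.push _ _ g _ (hC.mul _ _ (hC.alg _ ha) _ h1)
  rwa [push_mul_map', ha1, one_mul] at h2

theorem dominatedTate_iff {C : Classes W} (hC : ClassSystem W C) {A : GVar W Γ} :
    DominatedTate χ C A ↔ TateIn χ C A :=
  ⟨fun h => h A (dominates_refl A), fun h _ hB => h.dominated hC hB⟩

/-! ### systems of groups -/

theorem mem_meet {A : Type} [Ring A] {P : AddSubgroup A → Prop} {a : A} :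
    a ∈ meet P ↔ ∀ U, P U → a ∈ U := AddSubgroup.mem_sInf

theorem GroupSystem.classSystem {D : ClassGroups W} (hD : GroupSystem W D) :
    ClassSystem W (spanned D) where
  alg := fun A => Submodule.span_mono (Set.iUnion_subset fun j a ha => hD.alg A j a ha)
  mul := by
    intro A a ha b hb
    have h : Submodule.span W.K (D A : Set (W.H A)) * Submodule.span W.K (D A : Set (W.H A)) ≤
        Submodule.span W.K (D A : Set (W.H A)) := by
      rw [Submodule.span_mul_span]
      refine Submodule.span_mono ?_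
      rintro _ ⟨x, hx, y, hy, rfl⟩
      exact hD.mul A x hx y hy
    exact h (Submodule.mul_mem_mul ha hb)
  map := by
    intro A B f b hb
    have h : Submodule.span W.K (D B : Set (W.H B)) ≤
        (Submodule.span W.K (D A : Set (W.H A))).comap (W.map f).toLinearMap :=
      Submodule.span_le.2 fun x hx => Submodule.subset_span (hD.map A B f x hx)
    exact h hb
  push := by
    intro A B f a ha
    have h : Submodule.span W.K (D A : Set (W.H A)) ≤
        (Submodule.span W.K (D B : Set (W.H B))).comap (W.push f) :=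
      Submodule.span_le.2 fun x hx => Submodule.subset_span (hD.push A B f x hx)
    exact h ha

theorem groupSystem_generated (D₀ : ClassGroups W) : GroupSystem W (generated D₀) where
  alg := by
    intro A j a ha
    refine mem_meet.2 ?_
    rintro _ ⟨D, hD, -, rfl⟩
    exact hD.alg A j a ha
  mul := by
    intro A a ha b hb
    refine mem_meet.2 ?_
    rintro _ ⟨D, hD, h0, rfl⟩
    exact hD.mul A a (mem_meet.1 ha _ ⟨D, hD, h0, rfl⟩) b
      (mem_meet.1 hb _ ⟨D, hD, h0, rfl⟩)
  map := by
    intro A B f b hb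
    refine mem_meet.2 ?_
    rintro _ ⟨D, hD, h0, rfl⟩
    exact hD.map A B f b (mem_meet.1 hb _ ⟨D, hD, h0, rfl⟩)
  push := by
    intro A B f a ha
    refine mem_meet.2 ?_
    rintro _ ⟨D, hD, h0, rfl⟩
    exact hD.push A B f a (mem_meet.1 ha _ ⟨D, hD, h0, rfl⟩)

variable {ι β : Type} {X : ι → GVar W Γ} {Y : β → GVar W Γ} {Z : GVar W Γ} {d : ℕ}

/-- **Dominated varieties, comparison of ranks.** -/
theorem dom_over [IsAlgClosed W.K] [Finite ι] [Fintype β] {C : Classes W}
    (hC : ClassSystem W C) (h : FamilyOver χ X Y d Z) {S' : Set β} {Z₁ : GVar W Γ}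
    (hZ : Tower Y Z S' Z₁) {S : Set ι} {T : GVar W Γ} (hT : Tower X Z₁ S T) :
    DominatedTate χ C T ↔ TateIn χ C Z₁ := by
  classical
  have := Fintype.ofFinite ι
  rw [dominatedTate_iff hC]
  exact cls_over hC h.over (hZ.gTower fun b => (h.good' b).1) (hT.gTower fun i => (h.good i).1)

/-- **Dominated varieties.** -/
theorem dom_sst [IsAlgClosed W.K] [Finite ι] {C : Classes W} (hC : ClassSystem W C)
    (h : Family χ X Z) {S : Set ι} {T : GVar W Γ} (hT : Tower X Z S T) :
    DominatedTate χ C T ↔ TateIn χ C Z := by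
  classical
  have := Fintype.ofFinite ι
  rw [dominatedTate_iff hC]
  exact cls_sst hC h.vars (hT.gTower h.vars.odd)

end Pool.Agent.V11219.Cls
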