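import Mathlib

/-!
# Dyson-Phillips terms on `L^1(ν)`: definitions, and a criterion for weak compactness
-/

open MeasureTheory Filter Topology
open scoped ENNReal

namespace Pool.Agent.V11219.DP

section Defs

variable {X : Type*} [NormedAddCommGroup X] [NormedSpace ℝ X]

/-- The domain `D(T)` of the generator `T` of a one-parameter family `U`: the vectors `φ` for
which `(U(t) φ - φ) / t` converges as `t → 0+`. -/
def genDomain (U : ℝ → (X →L[ℝ] X)) : Submodule ℝ X where
  carrier := {φ | ∃ ψ, Tendsto (fun t : ℝ => t⁻¹ • (U t φ - φ)) (𝓝[>] 0) (𝓝 ψ)}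
  zero_mem' := ⟨0, by simp⟩
  add_mem' := by
    rintro a b ⟨a', ha⟩ ⟨b', hb⟩
    refine ⟨a' + b', (ha.add hb).congr fun t => ?_⟩
    rw [map_add, ← smul_add]
    congr 1; abel
  smul_mem' := by
    rintro c a ⟨a', ha⟩
    refine ⟨c • a', (ha.const_smul c).congr fun t => ?_⟩
    rw [map_smul, ← smul_sub, smul_comm]

/-- The generator `T` of `U`: `T φ = lim_{t → 0+} (U(t) φ - φ) / t` for `φ ∈ D(T)`. -/
noncomputable def gen (U : ℝ → (X →L[ℝ] X)) (φ : genDomain U) : X := Classical.choose φ.2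

lemma gen_tendsto (U : ℝ → (X →L[ℝ] X)) (φ : genDomain U) :
    Tendsto (fun t : ℝ => t⁻¹ • (U t (φ : X) - φ)) (𝓝[>] 0) (𝓝 (gen U φ)) :=
  Classical.choose_spec φ.2

lemma gen_eq (U : ℝ → (X →L[ℝ] X)) (φ : genDomain U) {ψ : X}
    (h : Tendsto (fun t : ℝ => t⁻¹ • (U t (φ : X) - φ)) (𝓝[>] 0) (𝓝 ψ)) : gen U φ = ψ :=
  tendsto_nhds_unique (gen_tendsto U φ) h

/-- The spectral radius of a bounded operator `K` on a real Banach space (equivalently, of its
complexification), given by Gelfand's formula `inf_n ‖K^n‖^{1/n}`. -/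
noncomputable def specRad (K : X →L[ℝ] X) : ℝ := ⨅ n : ℕ, ‖K ^ (n + 1)‖ ^ ((1 : ℝ) / (n + 1))

/-- The extension by zero to `X` of a linear map `B : D(T) → X`. -/
noncomputable def extend (U : ℝ → (X →L[ℝ] X)) (B : genDomain U →ₗ[ℝ] X) (φ : X) : X :=
  open Classical in if h : φ ∈ genDomain U then B ⟨φ, h⟩ else 0

/-- A bounded operator is *weakly compact* if it maps bounded sets to relatively weakly compact
sets. -/
def WeaklyCompact {Y : Type*} [NormedAddCommGroup Y] [NormedSpace ℝ Y] (A : X →L[ℝ] Y) : Prop :=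
  ∀ S : Set X, Bornology.IsBounded S →
    ∃ K : Set (WeakSpace ℝ Y), IsCompact K ∧ (toWeakSpace ℝ Y) '' (A '' S) ⊆ K

end Defs

section Setting

variable {X : Type} [NormedAddCommGroup X] [NormedSpace ℝ X]

/-- `U` is a substochastic (positive, contractive) `C_0`-semigroup on `X`. -/
structure IsSubstochasticSemigroup [PartialOrder X] (U : ℝ → (X →L[ℝ] X)) : Prop where
  zero : U 0 = 1
  add : ∀ s t, 0 ≤ s → 0 ≤ t → U (s + t) = U s * U t
  cont : ∀ φ, ContinuousOn (fun t => U t φ) (Set.Ici 0)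
  norm_le : ∀ t, 0 ≤ t → ‖U t‖ ≤ 1
  nonneg : ∀ t, 0 ≤ t → ∀ φ, 0 ≤ φ → 0 ≤ U t φ

/-- `R` is the resolvent `(lam - T)⁻¹` of the generator `T` of `U`. -/
def IsResolvent (U : ℝ → (X →L[ℝ] X)) (lam : ℝ) (R : X →L[ℝ] X) : Prop :=
  (∀ φ, ∃ h : R φ ∈ genDomain U, lam • R φ - gen U ⟨R φ, h⟩ = φ) ∧
    ∀ φ : genDomain U, R (lam • (φ : X) - gen U φ) = φ

/-- For all large `lam`, the resolvent `R = (lam - T)⁻¹` exists and the operator `K = B R` is
bounded with spectral radius `< 1`. -/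
def SpectralCondition (U : ℝ → (X →L[ℝ] X)) (B : genDomain U →ₗ[ℝ] X) : Prop :=
  ∃ lam₀ : ℝ, ∀ lam : ℝ, lam₀ ≤ lam → ∃ R K : X →L[ℝ] X,
    IsResolvent U lam R ∧ (∀ φ, K φ = extend U B (R φ)) ∧ specRad K < 1

/-- `B : D(T) → X` is positive and `T`-bounded, and satisfies the spectral condition. -/
structure IsPerturbation [PartialOrder X] (U : ℝ → (X →L[ℝ] X)) (B : genDomain U →ₗ[ℝ] X) :
    Prop where
  bdd : ∃ a b : ℝ, ∀ φ : genDomain U, ‖B φ‖ ≤ a * ‖(φ : X)‖ + b * ‖gen U φ‖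
  nonneg : ∀ φ : genDomain U, 0 ≤ (φ : X) → 0 ≤ B φ
  spec : SpectralCondition U B

/-- `W j t = U_j(t)` are the Dyson-Phillips terms: `U_0 = U` and
`U_{j+1}(t) φ = ∫_0^t U_j(t-s) B U(s) φ ds` for `φ ∈ D(T)` (the integrand being integrable). -/
structure IsDysonPhillips (U : ℝ → (X →L[ℝ] X)) (B : genDomain U →ₗ[ℝ] X)
    (W : ℕ → ℝ → (X →L[ℝ] X)) : Prop where
  zero : ∀ t, 0 ≤ t → W 0 t = U t
  int : ∀ j t, 0 ≤ t → ∀ φ ∈ genDomain U,
    IntervalIntegrable (fun s => W j (t - s) (extend U B (U s φ))) volume 0 t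
  succ : ∀ j t, 0 ≤ t → ∀ φ ∈ genDomain U,
    W (j + 1) t φ = ∫ s in (0 : ℝ)..t, W j (t - s) (extend U B (U s φ))

/-- For every `n ≥ 1`: `U_n(t)` is weakly compact for every `t ≥ 0`, but `U_{2n+1}(t)` is not
compact for any `t > 0`, and `t ↦ U_{2n+2}(t)` is not continuous in operator norm on `[0, ∞)`. -/
def Fails (W : ℕ → ℝ → (X →L[ℝ] X)) : Prop :=
  ∀ n : ℕ, 1 ≤ n →
    (∀ t : ℝ, 0 ≤ t → WeaklyCompact (W n t)) ∧
    (∀ t : ℝ, 0 < t → ¬ IsCompactOperator (W (2 * n + 1) t)) ∧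
    ¬ ContinuousOn (fun t : ℝ => W (2 * n + 2) t) (Set.Ici 0)

end Setting

/-- The ordered normed space `X` carries a counterexample: a substochastic `C_0`-semigroup `U`
with generator `T`, a perturbation `B : D(T) → X` and its Dyson-Phillips terms `W j t = U_j(t)`
such that `Fails W`. -/
def HasCounterexample (X : Type) [NormedAddCommGroup X] [NormedSpace ℝ X] [PartialOrder X] :
    Prop :=
  ∃ (U : ℝ → (X →L[ℝ] X)) (B : genDomain U →ₗ[ℝ] X) (W : ℕ → ℝ → (X →L[ℝ] X)),
    IsSubstochasticSemigroup U ∧ IsPerturbation U B ∧ IsDysonPhillips U B W ∧ Fails W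

section Weak

variable {H : Type*} [NormedAddCommGroup H] [InnerProductSpace ℝ H] [CompleteSpace H]

/-- Closed balls of a Hilbert space are weakly compact. -/
lemma isCompact_weak_closedBall (r : ℝ) :
    IsCompact ((toWeakSpace ℝ H) '' Metric.closedBall (0 : H) r) := by
  have hK : IsCompact (WeakDual.toStrongDual ⁻¹' Metric.closedBall (0 : StrongDual ℝ H) r) :=
    WeakDual.isCompact_closedBall (𝕜 := ℝ) (E := H) 0 r
  set g : WeakDual ℝ H → WeakSpace ℝ H := fun x =>
    toWeakSpace ℝ H ((InnerProductSpace.toDual ℝ H).symm (WeakDual.toStrongDual x)) with hg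
  have hcont : Continuous g := by
    apply WeakBilin.continuous_of_continuous_eval
    intro l
    have : ∀ x : WeakDual ℝ H, ((topDualPairing ℝ H).flip (g x)) l =
        x ((InnerProductSpace.toDual ℝ H).symm l) := by
      intro x
      have h1 : ((topDualPairing ℝ H).flip (g x)) l =
        l ((InnerProductSpace.toDual ℝ H).symm (WeakDual.toStrongDual x)) := rfl
      rw [h1]
      conv_lhs => rw [← (InnerProductSpace.toDual ℝ H).apply_symm_apply l]
      rw [InnerProductSpace.toDual_apply_apply, real_inner_comm,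
        InnerProductSpace.toDual_symm_apply]
      rfl
    simp only [this]
    exact WeakDual.eval_continuous _
  have himg : (toWeakSpace ℝ H) '' Metric.closedBall (0 : H) r =
      g '' (WeakDual.toStrongDual ⁻¹' Metric.closedBall (0 : StrongDual ℝ H) r) := by
    ext y
    constructor
    · rintro ⟨x, hx, rfl⟩
      refine ⟨StrongDual.toWeakDual (InnerProductSpace.toDual ℝ H x), ?_, ?_⟩
      · rw [Set.mem_preimage, mem_closedBall_zero_iff]
        rw [mem_closedBall_zero_iff] at hx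
        have : ‖(InnerProductSpace.toDual ℝ H x)‖ = ‖x‖ := LinearIsometryEquiv.norm_map _ _
        exact this.trans_le hx
      · have : (InnerProductSpace.toDual ℝ H).symm (InnerProductSpace.toDual ℝ H x) = x :=
          LinearIsometryEquiv.symm_apply_apply _ _
        exact congrArg (toWeakSpace ℝ H) this
    · rintro ⟨x, hx, rfl⟩
      refine ⟨(InnerProductSpace.toDual ℝ H).symm (WeakDual.toStrongDual x), ?_, rfl⟩
      rw [Set.mem_preimage, mem_closedBall_zero_iff] at hx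
      rw [mem_closedBall_zero_iff, LinearIsometryEquiv.norm_map]
      exact hx
  rw [himg]
  exact hK.image hcont

/-- An operator that factors through a Hilbert space is weakly compact. -/
lemma weaklyCompact_of_factor {X Y : Type*} [NormedAddCommGroup X] [NormedSpace ℝ X]
    [NormedAddCommGroup Y] [NormedSpace ℝ Y] (S : X →L[ℝ] H) (J : H →L[ℝ] Y) :
    WeaklyCompact (J.comp S) := by
  intro A hA
  obtain ⟨r, hr⟩ := hA.exists_norm_le
  refine ⟨(WeakSpace.map J) '' ((toWeakSpace ℝ H) '' Metric.closedBall (0 : H) (‖S‖ * r)),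
    (isCompact_weak_closedBall _).image (WeakSpace.map J).continuous, ?_⟩
  rintro _ ⟨_, ⟨x, hx, rfl⟩, rfl⟩
  refine ⟨toWeakSpace ℝ H (S x), ⟨S x, ?_, rfl⟩, rfl⟩
  rw [mem_closedBall_zero_iff]
  exact (S.le_opNorm x).trans (mul_le_mul_of_nonneg_left (hr x hx) (norm_nonneg _))

end Weak

end Pool.Agent.V11219.DP
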