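import Pool.Agent.V11219.DP1

open MeasureTheory Filter Topology
open scoped ENNReal

namespace Pool.Agent.V11219.DP

/-- bounded measurable multipliers -/
structure Mult (Ω : Type) [MeasurableSpace Ω] where
  f : Ω → ℝ
  meas : Measurable f
  bdd : ∀ x, |f x| ≤ 1

variable {Ω : Type} [MeasurableSpace Ω] {ν : Measure Ω}

lemma memLp_mult (g : Mult Ω) (φ : Lp ℝ 1 ν) : MemLp (fun x => g.f x * φ x) 1 ν := by
  refine (Lp.memLp φ).of_le (g.meas.aestronglyMeasurable.mul (Lp.aestronglyMeasurable φ)) ?_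
  refine Eventually.of_forall fun x => ?_
  rw [norm_mul]
  have := g.bdd x
  rw [← Real.norm_eq_abs] at this
  nlinarith [norm_nonneg (φ x)]

/-- the multiplication operator -/
noncomputable def M (ν : Measure Ω) (g : Mult Ω) : Lp ℝ 1 ν →L[ℝ] Lp ℝ 1 ν :=
  LinearMap.mkContinuous
    { toFun := fun φ => (memLp_mult g φ).toLp
      map_add' := by
        intro φ ψ
        rw [← MemLp.toLp_add]
        apply MemLp.toLp_congr
        filter_upwards [Lp.coeFn_add φ ψ] with x hx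
        simp only [hx, Pi.add_apply, mul_add]
      map_smul' := by
        intro c φ
        rw [RingHom.id_apply, ← MemLp.toLp_const_smul]
        apply MemLp.toLp_congr
        filter_upwards [Lp.coeFn_smul c φ] with x hx
        simp only [hx, Pi.smul_apply, smul_eq_mul]
        ring } 1 (by
    intro φ
    rw [one_mul]
    refine Lp.norm_le_norm_of_ae_le ?_
    filter_upwards [(memLp_mult g φ).coeFn_toLp] with x hx
    simp only [LinearMap.coe_mk, AddHom.coe_mk]
    rw [hx, norm_mul]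
    have := g.bdd x
    rw [← Real.norm_eq_abs] at this
    nlinarith [norm_nonneg (φ x)])

lemma M_ae (g : Mult Ω) (φ : Lp ℝ 1 ν) : M ν g φ =ᵐ[ν] fun x => g.f x * φ x :=
  (memLp_mult g φ).coeFn_toLp

lemma M_norm (g : Mult Ω) : ‖M ν g‖ ≤ 1 := LinearMap.mkContinuous_norm_le _ zero_le_one _

lemma M_norm_apply (g : Mult Ω) (φ : Lp ℝ 1 ν) : ‖M ν g φ‖ ≤ ‖φ‖ := by
  simpa using (M ν g).le_of_opNorm_le (M_norm g) φ

lemma M_pos (g : Mult Ω) (hg : ∀ x, 0 ≤ g.f x) (φ : Lp ℝ 1 ν) (hφ : 0 ≤ φ) : 0 ≤ M ν g φ := by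
  rw [← Lp.coeFn_nonneg] at hφ ⊢
  filter_upwards [hφ, M_ae g φ] with x hx hx2
  rw [hx2]
  exact mul_nonneg (hg x) hx

lemma tendsto_M {ι : Type*} {l : Filter ι} [l.IsCountablyGenerated] (F : ι → Mult Ω) (f : Mult Ω)
    (h : ∀ x, Tendsto (fun i => (F i).f x) l (𝓝 (f.f x))) (φ : Lp ℝ 1 ν) :
    Tendsto (fun i => M ν (F i) φ) l (𝓝 (M ν f φ)) := by
  rw [tendsto_iff_norm_sub_tendsto_zero]
  have e : ∀ i, ‖M ν (F i) φ - M ν f φ‖ = ∫ x, ‖((F i).f x - f.f x) * φ x‖ ∂ν := by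
    intro i
    rw [L1.norm_eq_integral_norm]
    refine integral_congr_ae ?_
    filter_upwards [Lp.coeFn_sub (M ν (F i) φ) (M ν f φ), M_ae (F i) φ, M_ae f φ] with x h1 h2 h3
    rw [h1, Pi.sub_apply, h2, h3]
    ring_nf
  simp only [e]
  have h0 : (0 : ℝ) = ∫ _x : Ω, (0 : ℝ) ∂ν := by simp
  rw [h0]
  refine tendsto_integral_filter_of_dominated_convergence (fun x => 2 * ‖φ x‖) ?_ ?_ ?_ ?_
  · refine Eventually.of_forall fun i => ?_
    exact ((((F i).meas.sub f.meas).aestronglyMeasurable).mul (Lp.aestronglyMeasurable φ)).norm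
  · refine Eventually.of_forall fun i => Eventually.of_forall fun x => ?_
    rw [norm_norm, norm_mul]
    refine mul_le_mul_of_nonneg_right ?_ (norm_nonneg _)
    rw [Real.norm_eq_abs]
    calc |(F i).f x - f.f x| ≤ |(F i).f x| + |f.f x| := abs_sub _ _
      _ ≤ 2 := by linarith [(F i).bdd x, f.bdd x]
  · exact (L1.integrable_coeFn φ).norm.const_mul 2
  · refine Eventually.of_forall fun x => ?_
    have h1 : Tendsto (fun i => ((F i).f x - f.f x) * φ x) l (𝓝 ((f.f x - f.f x) * φ x)) :=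
      ((h x).sub_const _).mul_const _
    simpa using h1.norm

section Averages

variable (h : Ω → ℕ) (hh : Measurable h)

/-- the integral over the `m`-th piece -/
noncomputable def cm (ν : Measure Ω) (h : Ω → ℕ) (m : ℕ) : Lp ℝ 1 ν →L[ℝ] ℝ :=
  LinearMap.mkContinuous
    { toFun := fun φ => ∫ x in h ⁻¹' {m}, φ x ∂ν
      map_add' := by
        intro φ ψ
        rw [← integral_add (L1.integrable_coeFn φ).integrableOn
          (L1.integrable_coeFn ψ).integrableOn]
        exact integral_congr_ae (ae_restrict_of_ae (Lp.coeFn_add φ ψ))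
      map_smul' := by
        intro c φ
        rw [RingHom.id_apply, smul_eq_mul, ← integral_const_mul]
        refine integral_congr_ae (ae_restrict_of_ae ?_)
        filter_upwards [Lp.coeFn_smul c φ] with x hx
        simp [hx] } 1 (by
    intro φ
    rw [one_mul]
    simp only [LinearMap.coe_mk, AddHom.coe_mk]
    calc ‖∫ x in h ⁻¹' {m}, φ x ∂ν‖ ≤ ∫ x in h ⁻¹' {m}, ‖φ x‖ ∂ν := norm_integral_le_integral_norm _
      _ ≤ ∫ x, ‖φ x‖ ∂ν := setIntegral_le_integral (L1.integrable_coeFn φ).norm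
          (Eventually.of_forall fun x => norm_nonneg _)
      _ = ‖φ‖ := (L1.norm_eq_integral_norm φ).symm)

lemma cm_apply (m : ℕ) (φ : Lp ℝ 1 ν) : cm ν h m φ = ∫ x in h ⁻¹' {m}, φ x ∂ν := rfl

include hh in
lemma cm_sum (φ : Lp ℝ 1 ν) : Summable (fun m => |cm ν h m φ|) ∧
    ∑' m, |cm ν h m φ| ≤ ‖φ‖ := by
  have hd : Pairwise (Function.onFun Disjoint fun m : ℕ => h ⁻¹' {m}) := by
    intro m n hmn
    refine Disjoint.preimage _ ?_
    simpa using hmn
  have hU : (⋃ m : ℕ, h ⁻¹' {m}) = Set.univ := by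
    ext x; simp
  have hs := hasSum_integral_iUnion (μ := ν) (f := fun x => ‖φ x‖) (s := fun m : ℕ => h ⁻¹' {m})
    (fun m => hh (measurableSet_singleton m)) hd (L1.integrable_coeFn φ).norm.integrableOn
  rw [hU, setIntegral_univ, ← L1.norm_eq_integral_norm] at hs
  have hle : ∀ m, |cm ν h m φ| ≤ ∫ x in h ⁻¹' {m}, ‖φ x‖ ∂ν := fun m =>
    norm_integral_le_integral_norm (fun x => φ x)
  have hsum : Summable (fun m => |cm ν h m φ|) :=
    Summable.of_nonneg_of_le (fun _ => abs_nonneg _) hle hs.summable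
  refine ⟨hsum, ?_⟩
  calc ∑' m, |cm ν h m φ| ≤ ∑' m, ∫ x in h ⁻¹' {m}, ‖φ x‖ ∂ν :=
      hsum.tsum_le_tsum hle hs.summable
    _ = ‖φ‖ := hs.tsum_eq

lemma cm_M (m : ℕ) (g : Mult Ω) (a : ℝ) (hg : ∀ x, h x = m → g.f x = a) (hh : Measurable h)
    (φ : Lp ℝ 1 ν) : cm ν h m (M ν g φ) = a * cm ν h m φ := by
  rw [cm_apply, cm_apply, ← integral_const_mul]
  refine setIntegral_congr_ae (hh (measurableSet_singleton m)) ?_
  filter_upwards [M_ae g φ] with x hx hxm
  rw [hx, hg x hxm]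

variable {E : Type*} [NormedAddCommGroup E] [NormedSpace ℝ E] [CompleteSpace E]

include hh in
lemma summable_cm_smul (y : ℕ → E) (C : ℝ) (hy : ∀ m, ‖y m‖ ≤ C) (φ : Lp ℝ 1 ν) :
    Summable (fun m => cm ν h m φ • y m) := by
  refine Summable.of_norm_bounded ((cm_sum h hh φ).1.mul_right C) fun m => ?_
  rw [norm_smul, Real.norm_eq_abs]
  exact mul_le_mul_of_nonneg_left (hy m) (abs_nonneg _)

/-- the operator `φ ↦ ∑ c_m(φ) y_m` -/
noncomputable def LL (ν : Measure Ω) (h : Ω → ℕ) (hh : Measurable h) (y : ℕ → E) (C : ℝ)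
    (hy : ∀ m, ‖y m‖ ≤ C) : Lp ℝ 1 ν →L[ℝ] E :=
  LinearMap.mkContinuous
    { toFun := fun φ => ∑' m, cm ν h m φ • y m
      map_add' := by
        intro φ ψ
        rw [← (summable_cm_smul h hh y C hy φ).tsum_add (summable_cm_smul h hh y C hy ψ)]
        simp [add_smul]
      map_smul' := by
        intro c φ
        rw [RingHom.id_apply, ← (summable_cm_smul h hh y C hy φ).tsum_const_smul]
        simp [mul_smul] } C (by
    intro φ
    simp only [LinearMap.coe_mk, AddHom.coe_mk]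
    have hC : 0 ≤ C := (norm_nonneg _).trans (hy 0)
    have h1 : Summable fun m => ‖cm ν h m φ • y m‖ := by
      refine Summable.of_nonneg_of_le (fun _ => norm_nonneg _) (fun m => ?_)
        ((cm_sum h hh φ).1.mul_right C)
      rw [norm_smul, Real.norm_eq_abs]
      exact mul_le_mul_of_nonneg_left (hy m) (abs_nonneg _)
    calc ‖∑' m, cm ν h m φ • y m‖ ≤ ∑' m, ‖cm ν h m φ • y m‖ := norm_tsum_le_tsum_norm h1
      _ ≤ ∑' m, |cm ν h m φ| * C := by
          refine h1.tsum_le_tsum (fun m => ?_) ((cm_sum h hh φ).1.mul_right C)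
          rw [norm_smul, Real.norm_eq_abs]
          exact mul_le_mul_of_nonneg_left (hy m) (abs_nonneg _)
      _ = (∑' m, |cm ν h m φ|) * C := tsum_mul_right
      _ ≤ C * ‖φ‖ := by
          rw [mul_comm]
          exact mul_le_mul_of_nonneg_left (cm_sum h hh φ).2 hC)

lemma LL_apply (y : ℕ → E) (C : ℝ) (hy : ∀ m, ‖y m‖ ≤ C) (φ : Lp ℝ 1 ν) :
    LL ν h hh y C hy φ = ∑' m, cm ν h m φ • y m := rfl

lemma LL_norm (y : ℕ → E) (C : ℝ) (hy : ∀ m, ‖y m‖ ≤ C) : ‖LL ν h hh y C hy‖ ≤ C :=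
  LinearMap.mkContinuous_norm_le _ ((norm_nonneg _).trans (hy 0)) _

end Averages

end Pool.Agent.V11219.DP
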