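import Pool.Agent.V11219.DP2

open MeasureTheory Filter Topology
open scoped ENNReal

namespace Pool.Agent.V11219.DP

variable {Ω : Type} [MeasurableSpace Ω] {ν : Measure Ω}

/-- the ingredients of the example -/
structure Sys (ν : Measure Ω) where
  h : Ω → ℕ
  hh : Measurable h
  e : ℕ → Lp ℝ 1 ν
  ψ : ℕ → Lp ℝ 1 ν
  e_norm : ∀ n, ‖e n‖ ≤ 1
  ψ_norm : ∀ n, ‖ψ n‖ ≤ 1
  e_pos : ∀ n, 0 ≤ e n
  ψ_pos : ∀ n, 0 ≤ ψ n
  e_supp : ∀ n (g : Mult Ω) (a : ℝ), (∀ x, h x = n → g.f x = a) → M ν g (e n) = a • e n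
  ψ_supp : ∀ n (g : Mult Ω), (∀ x, h x = 0 → g.f x = 1) → M ν g (ψ n) = ψ n
  c_e : ∀ m n, 1 ≤ n → cm ν h m (e n) = if m = n then 1 else 0
  c_ψ : ∀ m n, 1 ≤ m → cm ν h m (ψ n) = 0

/-- the Poisson weights -/
noncomputable def pp (j : ℕ) (x : ℝ) : ℝ := Real.exp (-x) * (x ^ j / j.factorial)

/-- the Poisson tails -/
noncomputable def PP (j : ℕ) (x : ℝ) : ℝ := 1 - ∑ i ∈ Finset.range j, pp i x

lemma pp_nonneg (j : ℕ) {x : ℝ} (hx : 0 ≤ x) : 0 ≤ pp j x := by
  unfold pp; positivity

lemma pp_le_one (j : ℕ) {x : ℝ} (hx : 0 ≤ x) : pp j x ≤ 1 := by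
  unfold pp
  have h1 := Real.pow_div_factorial_le_exp x hx j
  calc Real.exp (-x) * (x ^ j / j.factorial) ≤ Real.exp (-x) * Real.exp x :=
      mul_le_mul_of_nonneg_left h1 (Real.exp_pos _).le
    _ = 1 := by rw [← Real.exp_add]; simp

lemma PP_nonneg (j : ℕ) {x : ℝ} (hx : 0 ≤ x) : 0 ≤ PP j x := by
  unfold PP pp
  rw [← Finset.mul_sum, sub_nonneg]
  calc Real.exp (-x) * ∑ i ∈ Finset.range j, x ^ i / i.factorial ≤ Real.exp (-x) * Real.exp x :=
      mul_le_mul_of_nonneg_left (Real.sum_le_exp_of_nonneg hx j) (Real.exp_pos _).le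
    _ = 1 := by rw [← Real.exp_add]; simp

lemma PP_le_one (j : ℕ) {x : ℝ} (hx : 0 ≤ x) : PP j x ≤ 1 := by
  unfold PP
  have := Finset.sum_nonneg fun i (_ : i ∈ Finset.range j) => pp_nonneg i hx
  linarith

lemma pp_zero_right {j : ℕ} (hj : 1 ≤ j) : pp j 0 = 0 := by
  unfold pp
  rw [zero_pow (by omega)]; simp

lemma PP_zero_right {j : ℕ} (hj : 1 ≤ j) : PP j 0 = 0 := by
  obtain ⟨i, rfl⟩ : ∃ i, j = i + 1 := ⟨j - 1, by omega⟩
  unfold PP
  rw [Finset.sum_range_succ']
  have : ∀ k ∈ Finset.range i, pp (k + 1) 0 = 0 := fun k _ => pp_zero_right (by omega)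
  rw [Finset.sum_eq_zero this]
  simp [pp]

lemma continuous_pp (j : ℕ) : Continuous (pp j) := by
  unfold pp; fun_prop

lemma continuous_PP (j : ℕ) : Continuous (PP j) := by
  unfold PP
  exact continuous_const.sub (continuous_finsetSum _ fun i _ => continuous_pp i)

lemma integral_pp (j : ℕ) (m t : ℝ) :
    ∫ s in (0 : ℝ)..t, m * Real.exp (-(m * s)) * pp j (m * (t - s)) = pp (j + 1) (m * t) := by
  have h1 : ∀ s : ℝ, m * Real.exp (-(m * s)) * pp j (m * (t - s)) =
      Real.exp (-(m * t)) * (m * ((m * (t - s)) ^ j / j.factorial)) := by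
    intro s
    unfold pp
    have : Real.exp (-(m * t)) = Real.exp (-(m * s)) * Real.exp (-(m * (t - s))) := by
      rw [← Real.exp_add]; congr 1; ring
    rw [this]; ring
  simp only [h1]
  rw [intervalIntegral.integral_const_mul]
  have h2 : ∀ s ∈ Set.uIcc 0 t, HasDerivAt (fun s => -((m * (t - s)) ^ (j + 1) / (j + 1).factorial))
      (m * ((m * (t - s)) ^ j / j.factorial)) s := by
    intro s _
    have a1 : HasDerivAt (fun s => m * (t - s)) (-m) s := by
      have := ((hasDerivAt_id s).const_sub t).const_mul m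
      simpa using this
    have a2 : HasDerivAt (fun s => -((m * (t - s)) ^ (j + 1) / (j + 1).factorial)) _ s :=
      ((a1.fun_pow (j + 1)).div_const ((j + 1).factorial : ℝ)).fun_neg
    refine a2.congr_deriv ?_
    rw [Nat.factorial_succ]
    push_cast
    have : (j.factorial : ℝ) ≠ 0 := by positivity
    field_simp
  rw [intervalIntegral.integral_eq_sub_of_hasDerivAt h2]
  · unfold pp; simp
  · apply Continuous.intervalIntegrable
    fun_prop

lemma integral_exp_mul (m t : ℝ) :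
    ∫ s in (0 : ℝ)..t, m * Real.exp (-(m * s)) = 1 - Real.exp (-(m * t)) := by
  have h2 : ∀ s ∈ Set.uIcc 0 t, HasDerivAt (fun s => -(Real.exp (-(m * s))))
      (m * Real.exp (-(m * s))) s := by
    intro s _
    have a1 : HasDerivAt (fun s => -(m * s)) (-(m * 1)) s :=
      ((hasDerivAt_id s).const_mul m).fun_neg
    have a2 : HasDerivAt (fun s => -(Real.exp (-(m * s)))) _ s := a1.exp.fun_neg
    refine a2.congr_deriv ?_
    ring
  rw [intervalIntegral.integral_eq_sub_of_hasDerivAt h2]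
  · simp; ring
  · apply Continuous.intervalIntegrable
    fun_prop

lemma integral_PP (j : ℕ) (m t : ℝ) :
    ∫ s in (0 : ℝ)..t, m * Real.exp (-(m * s)) * PP j (m * (t - s)) = PP (j + 1) (m * t) := by
  have h1 : ∀ s : ℝ, m * Real.exp (-(m * s)) * PP j (m * (t - s)) =
      m * Real.exp (-(m * s)) -
        ∑ i ∈ Finset.range j, m * Real.exp (-(m * s)) * pp i (m * (t - s)) := by
    intro s
    unfold PP
    rw [mul_sub, mul_one, Finset.mul_sum]
  simp only [h1]
  have hc : ∀ i, Continuous fun s => m * Real.exp (-(m * s)) * pp i (m * (t - s)) := by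
    intro i
    have := continuous_pp i
    fun_prop
  rw [intervalIntegral.integral_sub, intervalIntegral.integral_finsetSum, integral_exp_mul]
  · simp only [integral_pp]
    unfold PP
    rw [Finset.sum_range_succ']
    have : pp 0 (m * t) = Real.exp (-(m * t)) := by simp [pp]
    rw [this]; ring
  · intro i _
    exact (hc i).intervalIntegrable _ _
  · apply Continuous.intervalIntegrable
    fun_prop
  · exact (continuous_finsetSum _ fun i _ => hc i).intervalIntegrable _ _

end Pool.Agent.V11219.DP
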