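import Pool.Agent.V11219.DP3

open MeasureTheory Filter Topology
open scoped ENNReal

namespace Pool.Agent.V11219.DP

variable {Ω : Type} [MeasurableSpace Ω] {ν : Measure Ω}

lemma M_mul (g₁ g₂ g₃ : Mult Ω) (h : ∀ x, g₃.f x = g₁.f x * g₂.f x) (φ : Lp ℝ 1 ν) :
    M ν g₁ (M ν g₂ φ) = M ν g₃ φ := by
  refine Lp.ext ?_
  filter_upwards [M_ae g₁ (M ν g₂ φ), M_ae g₂ φ, M_ae g₃ φ] with x h1 h2 h3
  rw [h1, h2, h3, h]; ring

lemma M_one (g : Mult Ω) (h : ∀ x, g.f x = 1) (φ : Lp ℝ 1 ν) : M ν g φ = φ := by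
  refine Lp.ext ?_
  filter_upwards [M_ae g φ] with x h1
  rw [h1, h]; ring

/-- linear combinations of multiplication operators -/
lemma M_lin (g : Mult Ω) (g₁ : Mult Ω) (a b : ℝ) (h : ∀ x, g.f x = a * g₁.f x + b)
    (φ : Lp ℝ 1 ν) : M ν g φ = a • M ν g₁ φ + b • φ := by
  refine Lp.ext ?_
  filter_upwards [M_ae g φ, M_ae g₁ φ, Lp.coeFn_add (a • M ν g₁ φ) (b • φ),
    Lp.coeFn_smul a (M ν g₁ φ), Lp.coeFn_smul b φ] with x h1 h2 h3 h4 h5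
  rw [h1, h3, Pi.add_apply, h4, h5, Pi.smul_apply, Pi.smul_apply, h2, h]
  simp only [smul_eq_mul]
  ring

lemma Lp_smul_nonneg {c : ℝ} (hc : 0 ≤ c) {φ : Lp ℝ 1 ν} (hφ : 0 ≤ φ) : 0 ≤ c • φ := by
  rw [← Lp.coeFn_nonneg] at hφ ⊢
  filter_upwards [hφ, Lp.coeFn_smul c φ] with x hx hx2
  rw [hx2]
  exact mul_nonneg hc hx

variable (S : Sys ν)

/-- the multiplier `e^{-t h}` -/
noncomputable def gexp (h : Ω → ℕ) (hh : Measurable h) (t : ℝ) : Mult Ω where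
  f x := Real.exp (-(max t 0 * h x))
  meas := by
    have : Measurable fun x => (h x : ℝ) := measurable_from_nat.comp hh
    fun_prop
  bdd x := by
    rw [abs_of_pos (Real.exp_pos _), Real.exp_le_one_iff]
    have : 0 ≤ max t 0 * (h x : ℝ) := by positivity
    linarith

/-- the semigroup -/
noncomputable def UU (t : ℝ) : Lp ℝ 1 ν →L[ℝ] Lp ℝ 1 ν := M ν (gexp S.h S.hh t)

lemma UU_zero : UU S 0 = 1 := by
  ext1 φ
  exact M_one _ (by intro x; simp [gexp]) φ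

lemma UU_add (s t : ℝ) (hs : 0 ≤ s) (ht : 0 ≤ t) : UU S (s + t) = UU S s * UU S t := by
  ext1 φ
  symm
  refine M_mul _ _ _ ?_ φ
  intro x
  simp only [gexp, max_eq_left hs, max_eq_left ht, max_eq_left (add_nonneg hs ht)]
  rw [← Real.exp_add]; congr 1; ring

lemma UU_cont (φ : Lp ℝ 1 ν) : Continuous (fun t => UU S t φ) := by
  rw [continuous_iff_continuousAt]
  intro t
  refine tendsto_M _ _ (fun x => ?_) φ
  have : Continuous fun t : ℝ => (gexp S.h S.hh t).f x := by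
    simp only [gexp]; fun_prop
  exact this.tendsto t

lemma UU_comm (s t : ℝ) (φ : Lp ℝ 1 ν) : UU S s (UU S t φ) = UU S t (UU S s φ) := by
  refine Lp.ext ?_
  filter_upwards [M_ae (gexp S.h S.hh s) (UU S t φ), M_ae (gexp S.h S.hh t) φ,
    M_ae (gexp S.h S.hh t) (UU S s φ), M_ae (gexp S.h S.hh s) φ] with x h1 h2 h3 h4
  unfold UU at *
  rw [h1, h2, h3, h4]; ring

lemma UU_mem (s : ℝ) (φ : genDomain (UU S)) : UU S s (φ : Lp ℝ 1 ν) ∈ genDomain (UU S) ∧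
    Tendsto (fun t : ℝ => t⁻¹ • (UU S t (UU S s (φ : Lp ℝ 1 ν)) - UU S s (φ : Lp ℝ 1 ν)))
      (𝓝[>] 0) (𝓝 (UU S s (gen (UU S) φ))) := by
  have h := ((UU S s).continuous.tendsto _).comp (gen_tendsto (UU S) φ)
  have h2 : Tendsto (fun t : ℝ => t⁻¹ • (UU S t (UU S s (φ : Lp ℝ 1 ν)) -
      UU S s (φ : Lp ℝ 1 ν))) (𝓝[>] 0) (𝓝 (UU S s (gen (UU S) φ))) := by
    refine h.congr fun t => ?_
    simp only [Function.comp_apply, map_smul, map_sub]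
    rw [UU_comm]
  exact ⟨⟨_, h2⟩, h2⟩

lemma gen_UU (s : ℝ) (φ : genDomain (UU S)) :
    gen (UU S) ⟨UU S s (φ : Lp ℝ 1 ν), (UU_mem S s φ).1⟩ = UU S s (gen (UU S) φ) :=
  gen_eq _ _ (UU_mem S s φ).2

lemma cm_UU (m : ℕ) (t : ℝ) (ht : 0 ≤ t) (φ : Lp ℝ 1 ν) :
    cm ν S.h m (UU S t φ) = Real.exp (-(m * t)) * cm ν S.h m φ := by
  refine cm_M S.h m _ _ ?_ S.hh φ
  intro x hx
  simp only [gexp, hx, max_eq_left ht]
  congr 2; ring

lemma cm_gen (m : ℕ) (φ : genDomain (UU S)) :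
    cm ν S.h m (gen (UU S) φ) = - (m * cm ν S.h m (φ : Lp ℝ 1 ν)) := by
  have h := ((cm ν S.h m).continuous.tendsto _).comp (gen_tendsto (UU S) φ)
  have h2 : Tendsto (fun t : ℝ => (t⁻¹ * (Real.exp (-(m * t)) - 1)) *
      cm ν S.h m (φ : Lp ℝ 1 ν)) (𝓝[>] 0) (𝓝 (-m * cm ν S.h m (φ : Lp ℝ 1 ν))) := by
    refine Tendsto.mul_const _ ?_
    have a1 : HasDerivAt (fun t : ℝ => Real.exp (-(m * t))) (Real.exp (-(m * 0)) * (-(m * 1))) 0 :=
      (((hasDerivAt_id (0 : ℝ)).const_mul (m : ℝ)).fun_neg).exp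
    have a2 := a1.tendsto_slope_zero
    have a3 := a2.mono_left (nhdsWithin_mono (0 : ℝ)
      (fun x (hx : x ∈ Set.Ioi 0) => (ne_of_gt hx : x ≠ 0)) : 𝓝[>] (0 : ℝ) ≤ _)
    simpa using a3
  have h3 : Tendsto (fun t : ℝ => (t⁻¹ * (Real.exp (-(m * t)) - 1)) *
      cm ν S.h m (φ : Lp ℝ 1 ν)) (𝓝[>] 0) (𝓝 (cm ν S.h m (gen (UU S) φ))) := by
    refine h.congr' ?_
    filter_upwards [self_mem_nhdsWithin] with t ht
    simp only [Function.comp_apply, map_smul, map_sub, smul_eq_mul]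
    rw [cm_UU S m t (le_of_lt ht)]
    ring
  have := tendsto_nhds_unique h3 h2
  rw [this]; ring

/-- the generator as a linear map -/
noncomputable def genL : genDomain (UU S) →ₗ[ℝ] Lp ℝ 1 ν where
  toFun := gen (UU S)
  map_add' a b := by
    refine gen_eq _ _ (((gen_tendsto _ a).add (gen_tendsto _ b)).congr fun t => ?_)
    simp only [Submodule.coe_add, map_add, ← smul_add]
    congr 1; abel
  map_smul' c a := by
    refine gen_eq _ _ (((gen_tendsto _ a).const_smul c).congr fun t => ?_)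
    simp only [Submodule.coe_smul, map_smul, ← smul_sub]
    rw [smul_comm]

/-- the vectors `(e_m + ψ_m)/4` -/
noncomputable def gB (m : ℕ) : Lp ℝ 1 ν := (1 / 4 : ℝ) • (S.e m + S.ψ m)

lemma gB_norm (m : ℕ) : ‖gB S m‖ ≤ 1 / 2 := by
  unfold gB
  rw [norm_smul]
  have := norm_add_le (S.e m) (S.ψ m)
  have h1 := S.e_norm m
  have h2 := S.ψ_norm m
  rw [Real.norm_eq_abs, abs_of_pos (by norm_num)]
  linarith

lemma gB_pos (m : ℕ) : 0 ≤ gB S m := by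
  unfold gB
  exact Lp_smul_nonneg (by norm_num) (add_nonneg (S.e_pos m) (S.ψ_pos m))

/-- the perturbation -/
noncomputable def BB : genDomain (UU S) →ₗ[ℝ] Lp ℝ 1 ν :=
  -((LL ν S.h S.hh (gB S) (1 / 2) (gB_norm S) : Lp ℝ 1 ν →ₗ[ℝ] Lp ℝ 1 ν).comp (genL S))

lemma BB_apply (φ : genDomain (UU S)) :
    BB S φ = ∑' m, (m * cm ν S.h m (φ : Lp ℝ 1 ν)) • gB S m := by
  have : BB S φ = -(LL ν S.h S.hh (gB S) (1 / 2) (gB_norm S) (gen (UU S) φ)) := rfl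
  rw [this, LL_apply, ← tsum_neg]
  refine tsum_congr fun m => ?_
  rw [cm_gen, neg_smul, neg_neg]

lemma summable_mcm (φ : genDomain (UU S)) :
    Summable fun m : ℕ => |m * cm ν S.h m (φ : Lp ℝ 1 ν)| := by
  have := (cm_sum S.h S.hh (gen (UU S) φ)).1
  refine this.congr fun m => ?_
  rw [cm_gen, abs_neg]

lemma cm_nonneg (m : ℕ) (φ : Lp ℝ 1 ν) (hφ : 0 ≤ φ) : 0 ≤ cm ν S.h m φ := by
  rw [cm_apply]
  rw [← Lp.coeFn_nonneg] at hφ
  exact integral_nonneg_of_ae (ae_restrict_of_ae hφ)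

lemma BB_pos (φ : genDomain (UU S)) (hφ : 0 ≤ (φ : Lp ℝ 1 ν)) : 0 ≤ BB S φ := by
  rw [BB_apply]
  refine tsum_nonneg fun m => ?_
  exact Lp_smul_nonneg (mul_nonneg (Nat.cast_nonneg _) (cm_nonneg S m _ hφ)) (gB_pos S m)

lemma BB_bdd (φ : genDomain (UU S)) : ‖BB S φ‖ ≤ 1 / 2 * ‖gen (UU S) φ‖ := by
  have : BB S φ = -(LL ν S.h S.hh (gB S) (1 / 2) (gB_norm S) (gen (UU S) φ)) := rfl
  rw [this, norm_neg]
  exact (LL ν S.h S.hh (gB S) (1 / 2) (gB_norm S)).le_of_opNorm_le (LL_norm _ _ _ _ _) _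

end Pool.Agent.V11219.DP
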