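import Pool.Agent.V11219.DP4

open MeasureTheory Filter Topology
open scoped ENNReal

namespace Pool.Agent.V11219.DP

variable {Ω : Type} [MeasurableSpace Ω] {ν : Measure Ω} (S : Sys ν)

section Resolvent

/-- the multiplier `1/(lam + h)` -/
noncomputable def gres (h : Ω → ℕ) (hh : Measurable h) (lam : ℝ) (hl : 1 ≤ lam) : Mult Ω where
  f x := 1 / (lam + h x)
  meas := by
    have : Measurable fun x => (h x : ℝ) := measurable_from_nat.comp hh
    fun_prop
  bdd x := by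
    have : (0 : ℝ) ≤ h x := Nat.cast_nonneg _
    rw [abs_of_pos (by positivity), div_le_one (by positivity)]
    linarith

/-- the multiplier `h/(lam + h)` -/
noncomputable def gres' (h : Ω → ℕ) (hh : Measurable h) (lam : ℝ) (hl : 1 ≤ lam) : Mult Ω where
  f x := h x / (lam + h x)
  meas := by
    have : Measurable fun x => (h x : ℝ) := measurable_from_nat.comp hh
    fun_prop
  bdd x := by
    have : (0 : ℝ) ≤ h x := Nat.cast_nonneg _
    rw [abs_of_nonneg (by positivity), div_le_one (by positivity)]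
    linarith

/-- the multiplier `-h/(lam + h)` -/
noncomputable def gresn (h : Ω → ℕ) (hh : Measurable h) (lam : ℝ) (hl : 1 ≤ lam) : Mult Ω where
  f x := -(h x / (lam + h x))
  meas := (gres' h hh lam hl).meas.neg
  bdd x := by
    rw [abs_neg]
    exact (gres' h hh lam hl).bdd x

/-- the difference quotients -/
noncomputable def gq (h : Ω → ℕ) (hh : Measurable h) (lam : ℝ) (hl : 1 ≤ lam) (t : ℝ) :
    Mult Ω where
  f x := (Real.exp (-(max t 0 * h x)) - 1) / (max t 0 * (lam + h x))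
  meas := by
    have : Measurable fun x => (h x : ℝ) := measurable_from_nat.comp hh
    fun_prop
  bdd x := by
    have h0 : (0 : ℝ) ≤ h x := Nat.cast_nonneg _
    rcases le_or_gt t 0 with ht | ht
    · simp [max_eq_right ht]
    · rw [max_eq_left ht.le, abs_div, abs_of_pos (show 0 < t * (lam + h x) by positivity),
        div_le_one (by positivity)]
      have h1 : Real.exp (-(t * h x)) ≤ 1 := by
        rw [Real.exp_le_one_iff]
        have : 0 ≤ t * (h x : ℝ) := by positivity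
        linarith
      have h2 : -(t * h x) + 1 ≤ Real.exp (-(t * h x)) := Real.add_one_le_exp _
      rw [abs_of_nonpos (by linarith)]
      nlinarith

variable (lam : ℝ) (hl : 1 ≤ lam)

/-- the resolvent -/
noncomputable def RR : Lp ℝ 1 ν →L[ℝ] Lp ℝ 1 ν := M ν (gres S.h S.hh lam hl)

lemma RR_tendsto (φ : Lp ℝ 1 ν) :
    Tendsto (fun t : ℝ => t⁻¹ • (UU S t (RR S lam hl φ) - RR S lam hl φ)) (𝓝[>] 0)
      (𝓝 (lam • RR S lam hl φ - φ)) := by
  have e1 : lam • RR S lam hl φ - φ = M ν (gresn S.h S.hh lam hl) φ := by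
    rw [M_lin (gresn S.h S.hh lam hl) (gres S.h S.hh lam hl) lam (-1) ?_ φ]
    · unfold RR
      rw [neg_one_smul, sub_eq_add_neg]
    · intro x
      simp only [gresn, gres]
      have : (0 : ℝ) ≤ S.h x := Nat.cast_nonneg _
      have : lam + (S.h x : ℝ) ≠ 0 := by positivity
      field_simp
      ring
  rw [e1]
  have h1 : Tendsto (fun t : ℝ => M ν (gq S.h S.hh lam hl t) φ) (𝓝[>] 0)
      (𝓝 (M ν (gresn S.h S.hh lam hl) φ)) := by
    refine tendsto_M _ _ (fun x => ?_) φ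
    have hx0 : (0 : ℝ) ≤ S.h x := Nat.cast_nonneg _
    have a1 : HasDerivAt (fun t : ℝ => Real.exp (-(S.h x * t)))
        (Real.exp (-(S.h x * 0)) * (-(S.h x * 1))) 0 :=
      (((hasDerivAt_id (0 : ℝ)).const_mul (S.h x : ℝ)).fun_neg).exp
    have a2 := a1.tendsto_slope_zero
    have a3 := a2.mono_left (nhdsWithin_mono (0 : ℝ)
      (fun x (hx : x ∈ Set.Ioi 0) => (ne_of_gt hx : x ≠ 0)) : 𝓝[>] (0 : ℝ) ≤ _)
    have a4 := a3.mul_const (1 / (lam + S.h x))
    have e2 : (gresn S.h S.hh lam hl).f x =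
        Real.exp (-(S.h x * 0)) * (-(S.h x * 1)) * (1 / (lam + S.h x)) := by
      simp only [gresn]; simp; ring
    rw [e2]
    refine a4.congr' ?_
    filter_upwards [self_mem_nhdsWithin] with t ht
    have ht : 0 < t := ht
    simp only [gq, max_eq_left ht.le, smul_eq_mul, zero_add, mul_zero, neg_zero, Real.exp_zero]
    have : lam + (S.h x : ℝ) ≠ 0 := by positivity
    rw [mul_comm (S.h x : ℝ) t]
    field_simp
  refine h1.congr' ?_
  filter_upwards [self_mem_nhdsWithin] with t ht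
  have ht : 0 < t := ht
  refine Lp.ext ?_
  filter_upwards [M_ae (gq S.h S.hh lam hl t) φ,
    Lp.coeFn_smul t⁻¹ (UU S t (RR S lam hl φ) - RR S lam hl φ),
    Lp.coeFn_sub (UU S t (RR S lam hl φ)) (RR S lam hl φ),
    M_ae (gexp S.h S.hh t) (RR S lam hl φ), M_ae (gres S.h S.hh lam hl) φ] with x h1 h2 h3 h4 h5
  unfold UU RR at *
  rw [h1, h2, Pi.smul_apply, h3, Pi.sub_apply, h4, h5]
  simp only [gq, gexp, gres, max_eq_left ht.le, smul_eq_mul]
  have hx0 : (0 : ℝ) ≤ S.h x := Nat.cast_nonneg _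
  have : lam + (S.h x : ℝ) ≠ 0 := by positivity
  field_simp

lemma RR_mem (φ : Lp ℝ 1 ν) : RR S lam hl φ ∈ genDomain (UU S) := ⟨_, RR_tendsto S lam hl φ⟩

lemma gen_RR (φ : Lp ℝ 1 ν) :
    gen (UU S) ⟨RR S lam hl φ, RR_mem S lam hl φ⟩ = lam • RR S lam hl φ - φ :=
  gen_eq _ _ (RR_tendsto S lam hl φ)

lemma RR_gen (φ : genDomain (UU S)) :
    RR S lam hl (lam • (φ : Lp ℝ 1 ν) - gen (UU S) φ) = φ := by
  have h := ((RR S lam hl).continuous.tendsto _).comp (gen_tendsto (UU S) φ)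
  have h2 : Tendsto (fun t : ℝ => t⁻¹ • (UU S t (RR S lam hl (φ : Lp ℝ 1 ν)) -
      RR S lam hl (φ : Lp ℝ 1 ν))) (𝓝[>] 0) (𝓝 (RR S lam hl (gen (UU S) φ))) := by
    refine h.congr fun t => ?_
    simp only [Function.comp_apply, map_smul, map_sub]
    congr 2
    refine Lp.ext ?_
    filter_upwards [M_ae (gres S.h S.hh lam hl) (UU S t φ), M_ae (gexp S.h S.hh t) φ,
      M_ae (gexp S.h S.hh t) (RR S lam hl φ), M_ae (gres S.h S.hh lam hl) φ] with x h1 h2 h3 h4
    unfold UU RR at *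
    rw [h1, h2, h3, h4]; ring
  have := tendsto_nhds_unique h2 (RR_tendsto S lam hl φ)
  rw [map_sub, map_smul, this]
  abel

/-- `B (lam - T)⁻¹` -/
noncomputable def KK : Lp ℝ 1 ν →L[ℝ] Lp ℝ 1 ν :=
  (LL ν S.h S.hh (gB S) (1 / 2) (gB_norm S)).comp (M ν (gres' S.h S.hh lam hl))

lemma KK_apply (φ : Lp ℝ 1 ν) : KK S lam hl φ = BB S ⟨RR S lam hl φ, RR_mem S lam hl φ⟩ := by
  have h1 : BB S ⟨RR S lam hl φ, RR_mem S lam hl φ⟩ = -(LL ν S.h S.hh (gB S) (1 / 2) (gB_norm S)
    (gen (UU S) ⟨RR S lam hl φ, RR_mem S lam hl φ⟩)) := rfl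
  rw [h1, gen_RR, ← map_neg, neg_sub]
  unfold KK
  rw [ContinuousLinearMap.comp_apply]
  congr 1
  rw [M_lin (gres' S.h S.hh lam hl) (gres S.h S.hh lam hl) (-lam) 1 ?_ φ]
  · unfold RR
    rw [one_smul, neg_smul]
    abel
  · intro x
    simp only [gres', gres]
    have : (0 : ℝ) ≤ S.h x := Nat.cast_nonneg _
    have : lam + (S.h x : ℝ) ≠ 0 := by positivity
    field_simp
    ring

lemma KK_specRad : specRad (KK S lam hl) < 1 := by
  have h1 : ‖KK S lam hl‖ ≤ 1 / 2 := by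
    unfold KK
    calc _ ≤ ‖LL ν S.h S.hh (gB S) (1 / 2) (gB_norm S)‖ * ‖M ν (gres' S.h S.hh lam hl)‖ :=
        ContinuousLinearMap.opNorm_comp_le _ _
      _ ≤ (1 / 2) * 1 := mul_le_mul (LL_norm _ _ _ _ _) (M_norm _) (norm_nonneg _) (by norm_num)
      _ = 1 / 2 := by norm_num
  have h2 : specRad (KK S lam hl) ≤ ‖KK S lam hl ^ (0 + 1)‖ ^ ((1 : ℝ) / ((0 : ℕ) + 1)) := by
    unfold specRad
    refine ciInf_le (f := fun n : ℕ => ‖KK S lam hl ^ (n + 1)‖ ^ ((1 : ℝ) / (n + 1))) ?_ 0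
    refine ⟨0, ?_⟩
    rintro _ ⟨n, rfl⟩
    positivity
  simp only [zero_add, pow_one, Nat.cast_zero, div_one, Real.rpow_one] at h2
  linarith

end Resolvent

end Pool.Agent.V11219.DP
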