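import Pool.Agent.V11219.DP5

open MeasureTheory Filter Topology
open scoped ENNReal

namespace Pool.Agent.V11219.DP

variable {Ω : Type} [MeasurableSpace Ω] {ν : Measure Ω} (S : Sys ν)

/-- the vectors defining the Dyson-Phillips terms -/
noncomputable def yy (j : ℕ) (t : ℝ) (m : ℕ) : Lp ℝ 1 ν :=
  ((1 / 4 : ℝ) ^ j) • (pp j (m * max t 0) • S.e m + PP j (m * max t 0) • S.ψ m)

lemma yy_norm (j : ℕ) (t : ℝ) (m : ℕ) : ‖yy S j t m‖ ≤ 2 := by
  unfold yy
  have hx : 0 ≤ (m : ℝ) * max t 0 := by positivity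
  have h1 : ‖pp j (m * max t 0) • S.e m‖ ≤ 1 := by
    rw [norm_smul, Real.norm_eq_abs, abs_of_nonneg (pp_nonneg j hx)]
    have := S.e_norm m
    have h2 := pp_le_one j hx
    have h3 := pp_nonneg j hx
    have h4 := norm_nonneg (S.e m)
    nlinarith
  have h2 : ‖PP j (m * max t 0) • S.ψ m‖ ≤ 1 := by
    rw [norm_smul, Real.norm_eq_abs, abs_of_nonneg (PP_nonneg j hx)]
    have := S.ψ_norm m
    have h2 := PP_le_one j hx
    have h3 := PP_nonneg j hx
    have h4 := norm_nonneg (S.ψ m)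
    nlinarith
  rw [norm_smul, norm_pow]
  have h3 := norm_add_le (pp j (m * max t 0) • S.e m) (PP j (m * max t 0) • S.ψ m)
  have h4 : ‖(1 / 4 : ℝ)‖ ^ j ≤ 1 := pow_le_one₀ (norm_nonneg _) (by rw [Real.norm_eq_abs, abs_of_pos (by norm_num)]; norm_num)
  have h5 : 0 ≤ ‖(1 / 4 : ℝ)‖ ^ j := by positivity
  have h6 := norm_nonneg (pp j (m * max t 0) • S.e m + PP j (m * max t 0) • S.ψ m)
  nlinarith

lemma yy_zero {j : ℕ} (hj : 1 ≤ j) (t : ℝ) : yy S j t 0 = 0 := by
  unfold yy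
  simp [pp_zero_right hj, PP_zero_right hj]

/-- the Dyson-Phillips terms -/
noncomputable def TT : ℕ → ℝ → (Lp ℝ 1 ν →L[ℝ] Lp ℝ 1 ν)
  | 0, t => UU S t
  | j + 1, t => LL ν S.h S.hh (yy S (j + 1) t) 2 (yy_norm S (j + 1) t)

lemma TT_succ_apply (j : ℕ) (t : ℝ) (φ : Lp ℝ 1 ν) :
    TT S (j + 1) t φ = ∑' m, cm ν S.h m φ • yy S (j + 1) t m := rfl

lemma UU_e (t : ℝ) (ht : 0 ≤ t) (m : ℕ) : UU S t (S.e m) = Real.exp (-(m * t)) • S.e m := by
  refine S.e_supp m _ _ ?_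
  intro x hx
  simp only [gexp, hx, max_eq_left ht]
  congr 2; ring

lemma UU_ψ (t : ℝ) (m : ℕ) : UU S t (S.ψ m) = S.ψ m := by
  refine S.ψ_supp m _ ?_
  intro x hx
  simp [gexp, hx]

lemma TT_succ_vec (j : ℕ) (t : ℝ) (m : ℕ) (hm : 1 ≤ m) (a b : ℝ) :
    TT S (j + 1) t (a • S.e m + b • S.ψ m) = a • yy S (j + 1) t m := by
  rw [TT_succ_apply, tsum_eq_single m]
  · rw [map_add, map_smul, map_smul, S.c_e m m hm, S.c_ψ m m hm]
    simp
  · intro n hn
    rcases Nat.eq_zero_or_pos n with rfl | hn0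
    · rw [yy_zero S (by omega)]; simp
    · rw [map_add, map_smul, map_smul, S.c_e n m hm, S.c_ψ n m hn0]
      simp [hn]

lemma TT_gB (j : ℕ) (t : ℝ) (ht : 0 ≤ t) (m : ℕ) (hm : 1 ≤ m) :
    TT S j t (gB S m) =
      ((1 / 4 : ℝ) ^ (j + 1)) • (pp j (m * t) • S.e m + PP j (m * t) • S.ψ m) := by
  rcases j with _ | j
  · have h1 : TT S 0 t (gB S m) = UU S t ((1 / 4 : ℝ) • (S.e m + S.ψ m)) := rfl
    rw [h1, map_smul, map_add, UU_e S t ht, UU_ψ]
    simp [pp, PP]
  · have h1 : gB S m = (1 / 4 : ℝ) • S.e m + (1 / 4 : ℝ) • S.ψ m := by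
      unfold gB; rw [smul_add]
    rw [h1, TT_succ_vec S j t m hm]
    unfold yy
    rw [max_eq_left ht, smul_smul, pow_succ (1 / 4 : ℝ) (j + 1), mul_comm]

/-- the integrands -/
noncomputable def FF (φ : genDomain (UU S)) (j : ℕ) (t : ℝ) (m : ℕ) (s : ℝ) : Lp ℝ 1 ν :=
  (cm ν S.h m (φ : Lp ℝ 1 ν) * (1 / 4 : ℝ) ^ (j + 1)) •
    ((m * Real.exp (-(m * s)) * pp j (m * (t - s))) • S.e m +
      (m * Real.exp (-(m * s)) * PP j (m * (t - s))) • S.ψ m)

lemma continuous_FF (φ : genDomain (UU S)) (j : ℕ) (t : ℝ) (m : ℕ) :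
    Continuous (FF S φ j t m) := by
  unfold FF
  have := continuous_pp j
  have := continuous_PP j
  fun_prop

lemma FF_bound (φ : genDomain (UU S)) (j : ℕ) (t : ℝ) (m : ℕ) (s : ℝ) (hs : 0 ≤ s)
    (hst : s ≤ t) : ‖FF S φ j t m s‖ ≤ |m * cm ν S.h m (φ : Lp ℝ 1 ν)| * 2 := by
  unfold FF
  have hx : 0 ≤ (m : ℝ) * (t - s) := mul_nonneg (Nat.cast_nonneg _) (by linarith)
  have hexp : Real.exp (-(m * s)) ≤ 1 := by
    rw [Real.exp_le_one_iff]
    have : 0 ≤ (m : ℝ) * s := by positivity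
    linarith
  have hexp0 := Real.exp_pos (-((m : ℝ) * s))
  have h1 : ‖(m * Real.exp (-(m * s)) * pp j (m * (t - s))) • S.e m‖ ≤ m := by
    rw [norm_smul, Real.norm_eq_abs, abs_of_nonneg (by have := pp_nonneg j hx; positivity)]
    have h3 := pp_nonneg j hx
    calc m * Real.exp (-(m * s)) * pp j (m * (t - s)) * ‖S.e m‖ ≤ m * 1 * 1 * 1 := by
          gcongr
          · exact pp_le_one j hx
          · exact S.e_norm m
      _ = m := by ring
  have h2 : ‖(m * Real.exp (-(m * s)) * PP j (m * (t - s))) • S.ψ m‖ ≤ m := by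
    rw [norm_smul, Real.norm_eq_abs, abs_of_nonneg (by have := PP_nonneg j hx; positivity)]
    have h3 := PP_nonneg j hx
    calc m * Real.exp (-(m * s)) * PP j (m * (t - s)) * ‖S.ψ m‖ ≤ m * 1 * 1 * 1 := by
          gcongr
          · exact PP_le_one j hx
          · exact S.ψ_norm m
      _ = m := by ring
  rw [norm_smul, norm_mul, norm_pow, Real.norm_eq_abs, abs_mul, Nat.abs_cast]
  have h3 := norm_add_le ((m * Real.exp (-(m * s)) * pp j (m * (t - s))) • S.e m)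
    ((m * Real.exp (-(m * s)) * PP j (m * (t - s))) • S.ψ m)
  have h4 : ‖(1 / 4 : ℝ)‖ ^ (j + 1) ≤ 1 := pow_le_one₀ (norm_nonneg _) (by rw [Real.norm_eq_abs, abs_of_pos (by norm_num)]; norm_num)
  have h5 : 0 ≤ ‖(1 / 4 : ℝ)‖ ^ (j + 1) := by positivity
  calc |cm ν S.h m (φ : Lp ℝ 1 ν)| * ‖(1 / 4 : ℝ)‖ ^ (j + 1) * ‖_‖ ≤
      |cm ν S.h m (φ : Lp ℝ 1 ν)| * 1 * (m + m) := by
        gcongr
        linarith
    _ = m * |cm ν S.h m (φ : Lp ℝ 1 ν)| * 2 := by ring

lemma extend_UU (φ : genDomain (UU S)) (s : ℝ) (hs : 0 ≤ s) :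
    HasSum (fun m : ℕ => (m * Real.exp (-(m * s)) * cm ν S.h m (φ : Lp ℝ 1 ν)) • gB S m)
      (extend (UU S) (BB S) (UU S s (φ : Lp ℝ 1 ν))) := by
  unfold extend
  rw [dif_pos (UU_mem S s φ).1]
  have h1 : BB S ⟨UU S s (φ : Lp ℝ 1 ν), (UU_mem S s φ).1⟩ =
      -(LL ν S.h S.hh (gB S) (1 / 2) (gB_norm S)
        (gen (UU S) ⟨UU S s (φ : Lp ℝ 1 ν), (UU_mem S s φ).1⟩)) := rfl
  rw [h1, gen_UU, LL_apply, ← tsum_neg]
  have h2 : (fun m : ℕ => (m * Real.exp (-(m * s)) * cm ν S.h m (φ : Lp ℝ 1 ν)) • gB S m) =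
      fun m : ℕ => -(cm ν S.h m (UU S s (gen (UU S) φ)) • gB S m) := by
    funext m
    rw [cm_UU S m s hs, cm_gen, ← neg_smul]
    congr 1; ring
  rw [h2]
  exact (summable_cm_smul S.h S.hh (gB S) (1 / 2) (gB_norm S) _).neg.hasSum

lemma hasSum_FF (φ : genDomain (UU S)) (j : ℕ) (t s : ℝ) (hs : 0 ≤ s) (hst : s ≤ t) :
    HasSum (fun m => FF S φ j t m s)
      (TT S j (t - s) (extend (UU S) (BB S) (UU S s (φ : Lp ℝ 1 ν)))) := by
  have h := (extend_UU S φ s hs).mapL (TT S j (t - s))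
  have h2 : (fun m => FF S φ j t m s) = fun m : ℕ => TT S j (t - s)
      ((m * Real.exp (-(m * s)) * cm ν S.h m (φ : Lp ℝ 1 ν)) • gB S m) := by
    funext m
    rw [map_smul]
    rcases Nat.eq_zero_or_pos m with rfl | hm
    · simp [FF]
    · rw [TT_gB S j (t - s) (by linarith) m hm]
      unfold FF
      simp only [smul_add, smul_smul]
      congr 1
      · congr 1; ring
      · congr 1; ring
  rw [h2]
  exact h

lemma integral_FF (φ : genDomain (UU S)) (j : ℕ) (t : ℝ) (ht : 0 ≤ t) (m : ℕ) :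
    ∫ s in (0 : ℝ)..t, FF S φ j t m s = cm ν S.h m (φ : Lp ℝ 1 ν) • yy S (j + 1) t m := by
  unfold FF yy
  have c1 : Continuous fun s => m * Real.exp (-(m * s)) * pp j (m * (t - s)) := by
    have := continuous_pp j
    fun_prop
  have c2 : Continuous fun s => m * Real.exp (-(m * s)) * PP j (m * (t - s)) := by
    have := continuous_PP j
    fun_prop
  have d1 : Continuous fun s => (m * Real.exp (-(m * s)) * pp j (m * (t - s))) • S.e m :=
    c1.smul continuous_const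
  have d2 : Continuous fun s => (m * Real.exp (-(m * s)) * PP j (m * (t - s))) • S.ψ m :=
    c2.smul continuous_const
  rw [intervalIntegral.integral_smul, intervalIntegral.integral_add
    (d1.intervalIntegrable _ _) (d2.intervalIntegrable _ _),
    intervalIntegral.integral_smul_const, intervalIntegral.integral_smul_const,
    integral_pp, integral_PP, max_eq_left ht, mul_smul]

lemma continuousOn_TT (φ : genDomain (UU S)) (j : ℕ) (t : ℝ) :
    ContinuousOn (fun s => TT S j (t - s) (extend (UU S) (BB S) (UU S s (φ : Lp ℝ 1 ν))))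
      (Set.Icc 0 t) := by
  have h1 : ContinuousOn (fun s => ∑' m, FF S φ j t m s) (Set.Icc 0 t) :=
    continuousOn_tsum (fun m => (continuous_FF S φ j t m).continuousOn)
      ((summable_mcm S φ).mul_right 2) (fun m s hs => FF_bound S φ j t m s hs.1 hs.2)
  exact h1.congr fun s hs => (hasSum_FF S φ j t s hs.1 hs.2).tsum_eq.symm

lemma TT_int (φ : genDomain (UU S)) (j : ℕ) (t : ℝ) (ht : 0 ≤ t) :
    IntervalIntegrable (fun s => TT S j (t - s) (extend (UU S) (BB S)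
      (UU S s (φ : Lp ℝ 1 ν)))) volume 0 t := by
  apply ContinuousOn.intervalIntegrable
  rw [Set.uIcc_of_le ht]
  exact continuousOn_TT S φ j t

lemma TT_rec (φ : genDomain (UU S)) (j : ℕ) (t : ℝ) (ht : 0 ≤ t) :
    TT S (j + 1) t (φ : Lp ℝ 1 ν) =
      ∫ s in (0 : ℝ)..t, TT S j (t - s) (extend (UU S) (BB S) (UU S s (φ : Lp ℝ 1 ν))) := by
  have h := intervalIntegral.hasSum_integral_of_dominated_convergence (μ := volume)
    (a := 0) (b := t) (F := FF S φ j t)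
    (f := fun s => TT S j (t - s) (extend (UU S) (BB S) (UU S s (φ : Lp ℝ 1 ν))))
    (fun m _ => |m * cm ν S.h m (φ : Lp ℝ 1 ν)| * 2)
    (fun m => (continuous_FF S φ j t m).aestronglyMeasurable)
    (fun m => Eventually.of_forall fun s hs => by
      rw [Set.uIoc_of_le ht] at hs
      exact FF_bound S φ j t m s hs.1.le hs.2)
    (Eventually.of_forall fun s _ => (summable_mcm S φ).mul_right 2)
    intervalIntegrable_const
    (Eventually.of_forall fun s hs => by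
      rw [Set.uIoc_of_le ht] at hs
      exact hasSum_FF S φ j t s hs.1.le hs.2)
  rw [← h.tsum_eq, TT_succ_apply]
  exact tsum_congr fun m => (integral_FF S φ j t ht m).symm

lemma isSemigroup : IsSubstochasticSemigroup (UU S) where
  zero := UU_zero S
  add := UU_add S
  cont := fun φ => (UU_cont S φ).continuousOn
  norm_le := fun t _ => M_norm _
  nonneg := fun t _ φ hφ => M_pos _ (fun x => (Real.exp_pos _).le) φ hφ

lemma isPerturbation : IsPerturbation (UU S) (BB S) where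
  bdd := ⟨0, 1 / 2, fun φ => by rw [zero_mul, zero_add]; exact BB_bdd S φ⟩
  nonneg := BB_pos S
  spec := by
    refine ⟨1, fun lam hl => ⟨RR S lam hl, KK S lam hl, ⟨fun φ => ?_, RR_gen S lam hl⟩,
      fun φ => ?_, KK_specRad S lam hl⟩⟩
    · refine ⟨RR_mem S lam hl φ, ?_⟩
      rw [gen_RR]; abel
    · rw [KK_apply]
      unfold extend
      rw [dif_pos (RR_mem S lam hl φ)]

lemma isDysonPhillips : IsDysonPhillips (UU S) (BB S) (TT S) where
  zero := fun _ _ => rfl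
  int := fun j t ht φ hφ => TT_int S ⟨φ, hφ⟩ j t ht
  succ := fun j t ht φ hφ => TT_rec S ⟨φ, hφ⟩ j t ht

end Pool.Agent.V11219.DP
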