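import Pool.Agent.V11219.DP6

open MeasureTheory Filter Topology
open scoped ENNReal

namespace Pool.Agent.V11219.DP

variable {Ω : Type} [MeasurableSpace Ω] {ν : Measure Ω} (S : Sys ν)

lemma pp_mul_bound (j : ℕ) (hj : 1 ≤ j) (m : ℕ) (t : ℝ) (ht : 0 ≤ t) :
    pp j (m * t) * (m + 1) ≤ 2 * (j + 1) / t := by
  rcases Nat.eq_zero_or_pos m with rfl | hm
  · simp [pp_zero_right hj]; positivity
  rcases ht.eq_or_lt with rfl | ht
  · simp [pp_zero_right hj]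
  have hm1 : (1 : ℝ) ≤ m := by exact_mod_cast hm
  set x : ℝ := m * t with hx
  have hx0 : 0 < x := by positivity
  have h1 : pp j x * x = (j + 1) * pp (j + 1) x := by
    unfold pp
    rw [Nat.factorial_succ]
    push_cast
    have : (j.factorial : ℝ) ≠ 0 := by positivity
    field_simp
    ring
  have h4 : (m : ℝ) + 1 ≤ 2 * x / t := by
    rw [le_div_iff₀ ht, hx]; nlinarith
  calc pp j x * (m + 1) ≤ pp j x * (2 * x / t) :=
        mul_le_mul_of_nonneg_left h4 (pp_nonneg j hx0.le)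
    _ = 2 * (pp j x * x) / t := by ring
    _ = 2 * ((j + 1) * pp (j + 1) x) / t := by rw [h1]
    _ ≤ 2 * ((j + 1) * 1) / t := by
        gcongr
        exact pp_le_one (j + 1) hx0.le
    _ = 2 * (j + 1) / t := by ring

lemma weaklyCompact_TT (j : ℕ) (J : Lp ℝ 2 ν →L[ℝ] Lp ℝ 1 ν) (e2 ψ2 : ℕ → Lp ℝ 2 ν)
    (he : ∀ m, J (e2 m) = S.e m) (hψ : ∀ m, J (ψ2 m) = S.ψ m)
    (ne : ∀ m, ‖e2 m‖ ≤ m + 1) (nψ : ∀ m, ‖ψ2 m‖ ≤ 3) (t : ℝ) (ht : 0 ≤ t) :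
    WeaklyCompact (TT S (j + 1) t) := by
  set z : ℕ → Lp ℝ 2 ν := fun m =>
    ((1 / 4 : ℝ) ^ (j + 1)) • (pp (j + 1) (m * max t 0) • e2 m +
      PP (j + 1) (m * max t 0) • ψ2 m) with hz
  have hzb : ∀ m, ‖z m‖ ≤ 2 * ((j + 1 : ℕ) + 1) / t + 3 := by
    intro m
    simp only [hz, max_eq_left ht]
    have hx : 0 ≤ (m : ℝ) * t := by positivity
    have h1 : ‖pp (j + 1) (m * t) • e2 m‖ ≤ 2 * ((j + 1 : ℕ) + 1) / t := by
      rw [norm_smul, Real.norm_eq_abs, abs_of_nonneg (pp_nonneg _ hx)]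
      exact (mul_le_mul_of_nonneg_left (ne m) (pp_nonneg _ hx)).trans
        (pp_mul_bound (j + 1) (by omega) m t ht)
    have h2 : ‖PP (j + 1) (m * t) • ψ2 m‖ ≤ 3 := by
      rw [norm_smul, Real.norm_eq_abs, abs_of_nonneg (PP_nonneg _ hx)]
      calc PP (j + 1) (m * t) * ‖ψ2 m‖ ≤ 1 * 3 :=
          mul_le_mul (PP_le_one _ hx) (nψ m) (norm_nonneg _) zero_le_one
        _ = 3 := one_mul _
    have h3 := norm_add_le (pp (j + 1) (m * t) • e2 m) (PP (j + 1) (m * t) • ψ2 m)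
    have h6 : ‖(1 / 4 : ℝ)‖ ^ (j + 1) ≤ 1 := pow_le_one₀ (norm_nonneg _)
      (by rw [Real.norm_eq_abs, abs_of_pos (by norm_num)]; norm_num)
    have h7 : 0 ≤ ‖(1 / 4 : ℝ)‖ ^ (j + 1) := by positivity
    rw [norm_smul, norm_pow]
    have h4 := norm_nonneg (pp (j + 1) (m * t) • e2 m + PP (j + 1) (m * t) • ψ2 m)
    nlinarith
  have hfac : TT S (j + 1) t = J.comp (LL ν S.h S.hh z _ hzb) := by
    ext1 φ
    rw [ContinuousLinearMap.comp_apply, LL_apply,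
      ContinuousLinearMap.map_tsum J (summable_cm_smul S.h S.hh z _ hzb φ), TT_succ_apply]
    refine tsum_congr fun m => ?_
    rw [map_smul]
    congr 1
    simp only [hz, map_smul, map_add, he, hψ]
    rfl
  rw [hfac]
  exact weaklyCompact_of_factor _ _

lemma tendsto_pp (i : ℕ) : Tendsto (pp i) atTop (𝓝 0) := by
  have h := (Real.tendsto_pow_mul_exp_neg_atTop_nhds_zero i).div_const (i.factorial : ℝ)
  rw [zero_div] at h
  refine h.congr fun x => ?_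
  unfold pp; ring

lemma tendsto_PP (j : ℕ) : Tendsto (PP j) atTop (𝓝 1) := by
  have h := (tendsto_const_nhds (x := (1 : ℝ)) (f := atTop)).sub
    (tendsto_finsetSum (Finset.range j) fun i _ => tendsto_pp i)
  simp only [Finset.sum_const_zero, sub_zero] at h
  exact h

lemma Q_TT (j : ℕ) (Q : Mult Ω) (hQ0 : ∀ x, S.h x = 0 → Q.f x = 1)
    (hQ1 : ∀ x, S.h x ≠ 0 → Q.f x = 0) (t : ℝ) (ht : 0 < t) (n : ℕ) :
    M ν Q (TT S (j + 1) t (S.e (n + 1))) =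
      ((1 / 4 : ℝ) ^ (j + 1) * PP (j + 1) (((n + 1 : ℕ) : ℝ) * t)) • S.ψ (n + 1) := by
  have h2 := TT_succ_vec S j t (n + 1) (by omega) 1 0
  rw [one_smul, zero_smul, add_zero, one_smul] at h2
  rw [h2]
  unfold yy
  rw [map_smul, map_add, map_smul, map_smul, S.ψ_supp (n + 1) Q hQ0,
    S.e_supp (n + 1) Q 0 (fun x hx => hQ1 x (by omega)), max_eq_left ht.le]
  rw [zero_smul, smul_zero, zero_add, smul_smul]

lemma not_compact_TT (j : ℕ) (Q : Mult Ω) (hQ0 : ∀ x, S.h x = 0 → Q.f x = 1)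
    (hQ1 : ∀ x, S.h x ≠ 0 → Q.f x = 0)
    (hsep : ∀ m n, 1 ≤ m → 1 ≤ n → m ≠ n → 1 / 2 ≤ ‖S.ψ m - S.ψ n‖) (t : ℝ) (ht : 0 < t) :
    ¬ IsCompactOperator (TT S (j + 1) t) := by
  intro hA
  have hK := hA.isCompact_closure_image_closedBall 1
  have hmem : ∀ n, TT S (j + 1) t (S.e (n + 1)) ∈
      closure (TT S (j + 1) t '' Metric.closedBall 0 1) := by
    intro n
    refine subset_closure ⟨_, ?_, rfl⟩
    rw [mem_closedBall_zero_iff]
    exact S.e_norm _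
  obtain ⟨a, _, φ, hφ, hlim⟩ := hK.tendsto_subseq hmem
  have hc : (0 : ℝ) < (1 / 4 : ℝ) ^ (j + 1) * 1 := by positivity
  have h3 : Tendsto (fun k => ((φ k + 1 : ℕ) : ℝ) * t) atTop atTop := by
    refine Tendsto.atTop_mul_const ht ?_
    exact tendsto_natCast_atTop_atTop.comp
      ((tendsto_add_atTop_nat 1).comp hφ.tendsto_atTop)
  have h4 : Tendsto (fun k => (1 / 4 : ℝ) ^ (j + 1) * PP (j + 1) (((φ k + 1 : ℕ) : ℝ) * t)) atTop
      (𝓝 ((1 / 4 : ℝ) ^ (j + 1) * 1)) := ((tendsto_PP (j + 1)).comp h3).const_mul _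
  have h5 : Tendsto (fun k => S.ψ (φ k + 1)) atTop
      (𝓝 (((1 / 4 : ℝ) ^ (j + 1) * 1)⁻¹ • M ν Q a)) := by
    have h6 := ((M ν Q).continuous.tendsto a).comp hlim
    have h7 := (h4.inv₀ hc.ne').smul h6
    refine h7.congr' ?_
    filter_upwards [h4.eventually (lt_mem_nhds hc)] with k hk
    simp only [Function.comp_apply]
    rw [Q_TT S j Q hQ0 hQ1 t ht, smul_smul, inv_mul_cancel₀ hk.ne', one_smul]
  have h8 := h5.cauchySeq
  rw [Metric.cauchySeq_iff'] at h8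
  obtain ⟨N, hN⟩ := h8 (1 / 2) (by norm_num)
  have h9 := hN (N + 1) (by omega)
  rw [dist_eq_norm] at h9
  have h10 : φ N < φ (N + 1) := hφ (by omega)
  have h11 := hsep (φ (N + 1) + 1) (φ N + 1) (by omega) (by omega) (by omega)
  linarith

lemma TT_at_zero (j : ℕ) : TT S (j + 1) 0 = 0 := by
  ext1 φ
  rw [TT_succ_apply]
  have : ∀ m, yy S (j + 1) 0 m = 0 := by
    intro m
    unfold yy
    simp [pp_zero_right, PP_zero_right]
  simp [this]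

lemma norm_TT_ge (j : ℕ) (Q : Mult Ω) (hQ0 : ∀ x, S.h x = 0 → Q.f x = 1)
    (hQ1 : ∀ x, S.h x ≠ 0 → Q.f x = 0) (hn : ∀ n, ‖S.ψ n‖ = 1) (t : ℝ) (ht : 0 < t) :
    (1 / 4 : ℝ) ^ (j + 1) ≤ ‖TT S (j + 1) t‖ := by
  have h3 : Tendsto (fun k : ℕ => ((k + 1 : ℕ) : ℝ) * t) atTop atTop := by
    refine Tendsto.atTop_mul_const ht ?_
    exact tendsto_natCast_atTop_atTop.comp (tendsto_add_atTop_nat 1)
  have h4 : Tendsto (fun k : ℕ => (1 / 4 : ℝ) ^ (j + 1) * PP (j + 1) (((k + 1 : ℕ) : ℝ) * t)) atTop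
      (𝓝 ((1 / 4 : ℝ) ^ (j + 1) * 1)) := ((tendsto_PP (j + 1)).comp h3).const_mul _
  rw [mul_one] at h4
  refine le_of_tendsto' h4 fun k => ?_
  have hx : 0 ≤ ((k + 1 : ℕ) : ℝ) * t := by positivity
  calc (1 / 4 : ℝ) ^ (j + 1) * PP (j + 1) (((k + 1 : ℕ) : ℝ) * t) =
      ‖M ν Q (TT S (j + 1) t (S.e (k + 1)))‖ := by
        rw [Q_TT S j Q hQ0 hQ1 t ht, norm_smul, hn, mul_one, Real.norm_eq_abs, abs_of_nonneg]
        exact mul_nonneg (by positivity) (PP_nonneg _ hx)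
    _ ≤ ‖TT S (j + 1) t (S.e (k + 1))‖ := M_norm_apply _ _
    _ ≤ ‖TT S (j + 1) t‖ * ‖S.e (k + 1)‖ := ContinuousLinearMap.le_opNorm _ _
    _ ≤ ‖TT S (j + 1) t‖ * 1 := mul_le_mul_of_nonneg_left (S.e_norm _) (norm_nonneg _)
    _ = ‖TT S (j + 1) t‖ := mul_one _

lemma not_cont_TT (j : ℕ) (Q : Mult Ω) (hQ0 : ∀ x, S.h x = 0 → Q.f x = 1)
    (hQ1 : ∀ x, S.h x ≠ 0 → Q.f x = 0) (hn : ∀ n, ‖S.ψ n‖ = 1) :
    ¬ ContinuousOn (fun t => TT S (j + 1) t) (Set.Ici 0) := by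
  intro h
  have h1 := h 0 Set.self_mem_Ici
  have h2 : Tendsto (fun t => TT S (j + 1) t) (𝓝[>] 0) (𝓝 (TT S (j + 1) 0)) :=
    h1.mono_left (nhdsWithin_mono _ Set.Ioi_subset_Ici_self)
  rw [TT_at_zero] at h2
  have h3 := h2.norm
  rw [norm_zero] at h3
  have h4 : (1 / 4 : ℝ) ^ (j + 1) ≤ 0 := by
    refine ge_of_tendsto h3 ?_
    filter_upwards [self_mem_nhdsWithin] with t ht
    exact norm_TT_ge S j Q hQ0 hQ1 hn t ht
  have : (0 : ℝ) < (1 / 4 : ℝ) ^ (j + 1) := by positivity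
  linarith

end Pool.Agent.V11219.DP
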