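import Pool.Agent.V11219.DP7

open MeasureTheory Filter Topology
open scoped ENNReal

namespace Pool.Agent.V11219.DP

/-- the measure space `[-1, 1]` -/
noncomputable abbrev nu : Measure ℝ := (volume : Measure ℝ).restrict (Set.Icc (-1) 1)

lemma nu_univ : nu.real Set.univ = 2 := by
  simp [nu, measureReal_def]
  norm_num

/-- the rate function: `h = m` on `(1/(m+1), 1/m]`, and `h = 0` on `[-1, 0]` -/
noncomputable def hf (x : ℝ) : ℕ := ⌊x⁻¹⌋₊

lemma measurable_hf : Measurable hf := Nat.measurable_floor.comp measurable_inv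

lemma hf_preimage (n : ℕ) (hn : 1 ≤ n) :
    hf ⁻¹' {n} = Set.Ioc (1 / ((n : ℝ) + 1)) (1 / (n : ℝ)) := by
  have hn0 : (0 : ℝ) < n := by exact_mod_cast hn
  ext x
  simp only [Set.mem_preimage, Set.mem_singleton_iff, hf, Set.mem_Ioc]
  rw [Nat.floor_eq_iff' (by omega)]
  constructor
  · rintro ⟨h1, h2⟩
    have hx : 0 < x := inv_pos.1 (hn0.trans_le h1)
    constructor
    · rw [div_lt_iff₀ (by positivity)]
      have := mul_lt_mul_of_pos_left h2 hx
      rw [mul_inv_cancel₀ hx.ne'] at this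
      exact this
    · rw [le_div_iff₀ hn0]
      have := mul_le_mul_of_nonneg_left h1 hx.le
      rw [mul_inv_cancel₀ hx.ne'] at this
      exact this
  · rintro ⟨h1, h2⟩
    have hx : 0 < x := lt_trans (by positivity) h1
    constructor
    · rw [le_div_iff₀ hn0] at h2
      rw [← one_div, le_div_iff₀ hx]; linarith
    · rw [div_lt_iff₀ (by positivity)] at h1
      rw [← one_div, div_lt_iff₀ hx]; linarith

lemma nu_preimage (n : ℕ) (hn : 1 ≤ n) : nu.real (hf ⁻¹' {n}) = 1 / ((n : ℝ) * (n + 1)) := by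
  have hn0 : (1 : ℝ) ≤ n := by exact_mod_cast hn
  rw [hf_preimage n hn]
  have h1 : nu.real (Set.Ioc (1 / ((n : ℝ) + 1)) (1 / (n : ℝ))) =
      volume.real (Set.Ioc (1 / ((n : ℝ) + 1)) (1 / (n : ℝ))) := by
    rw [measureReal_def, measureReal_def, Measure.restrict_apply measurableSet_Ioc]
    congr 2
    apply Set.inter_eq_left.2
    intro x hx
    constructor
    · have : (0 : ℝ) < 1 / ((n : ℝ) + 1) := by positivity
      linarith [hx.1]
    · have : 1 / (n : ℝ) ≤ 1 := by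
        rw [div_le_one (by linarith)]; exact hn0
      linarith [hx.2]
  rw [h1, Real.volume_real_Ioc_of_le]
  · field_simp
    ring
  · apply one_div_le_one_div_of_le (by linarith) (by linarith)

/-- bounded measurable functions as elements of `L^p` -/
noncomputable def bL (p : ℝ≥0∞) (f : ℝ → ℝ) (hm : Measurable f) (C : ℝ) (hC : ∀ x, |f x| ≤ C) :
    Lp ℝ p nu :=
  (MemLp.of_bound hm.aestronglyMeasurable C (Eventually.of_forall hC) : MemLp f p nu).toLp

lemma bL_ae (p : ℝ≥0∞) (f : ℝ → ℝ) (hm : Measurable f) (C : ℝ) (hC : ∀ x, |f x| ≤ C) :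
    bL p f hm C hC =ᵐ[nu] f :=
  (MemLp.of_bound hm.aestronglyMeasurable C (Eventually.of_forall hC) : MemLp f p nu).coeFn_toLp

lemma cm_bL (m : ℕ) (f : ℝ → ℝ) (hm : Measurable f) (C : ℝ) (hC : ∀ x, |f x| ≤ C) :
    cm nu hf m (bL 1 f hm C hC) = ∫ x in hf ⁻¹' {m}, f x ∂nu :=
  integral_congr_ae (ae_restrict_of_ae (bL_ae 1 f hm C hC))

lemma norm_bL_one (f : ℝ → ℝ) (hm : Measurable f) (C : ℝ) (hC : ∀ x, |f x| ≤ C) :
    ‖bL 1 f hm C hC‖ = ∫ x, |f x| ∂nu := by
  rw [L1.norm_eq_integral_norm]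
  refine integral_congr_ae ?_
  filter_upwards [bL_ae 1 f hm C hC] with x hx
  rw [hx, Real.norm_eq_abs]

lemma norm_bL_two (f : ℝ → ℝ) (hm : Measurable f) (C : ℝ) (hC : ∀ x, |f x| ≤ C) :
    ‖bL 2 f hm C hC‖ ^ 2 = ∫ x, f x ^ 2 ∂nu := by
  rw [← real_inner_self_eq_norm_sq, L2.inner_def]
  refine integral_congr_ae ?_
  filter_upwards [bL_ae 2 f hm C hC] with x hx
  rw [hx, real_inner_self_eq_norm_sq, Real.norm_eq_abs, sq_abs]

/-- the inclusion `L^2 → L^1` -/
noncomputable def JJ : Lp ℝ 2 nu →L[ℝ] Lp ℝ 1 nu :=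
  LinearMap.mkContinuous
    { toFun := fun f => ((Lp.memLp f).mono_exponent (by norm_num : (1 : ℝ≥0∞) ≤ 2)).toLp
      map_add' := by
        intro f g
        rw [← MemLp.toLp_add]
        exact MemLp.toLp_congr _ _ (Lp.coeFn_add f g)
      map_smul' := by
        intro c f
        rw [RingHom.id_apply, ← MemLp.toLp_const_smul]
        exact MemLp.toLp_congr _ _ (Lp.coeFn_smul c f) }
    ((nu Set.univ ^ (1 / (1 : ℝ≥0∞).toReal - 1 / (2 : ℝ≥0∞).toReal)).toReal) (by
      intro f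
      simp only [LinearMap.coe_mk, AddHom.coe_mk]
      rw [Lp.norm_toLp, Lp.norm_def, ← ENNReal.toReal_mul, mul_comm]
      refine ENNReal.toReal_mono ?_ (eLpNorm_le_eLpNorm_mul_rpow_measure_univ (by norm_num)
        (Lp.aestronglyMeasurable f))
      refine ENNReal.mul_ne_top (Lp.eLpNorm_ne_top f) ?_
      exact ENNReal.rpow_ne_top_of_nonneg (by norm_num) (measure_ne_top _ _))

lemma JJ_bL (f : ℝ → ℝ) (hm : Measurable f) (C : ℝ) (hC : ∀ x, |f x| ≤ C) :
    JJ (bL 2 f hm C hC) = bL 1 f hm C hC := by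
  refine Lp.ext ?_
  have h1 : JJ (bL 2 f hm C hC) =ᵐ[nu] bL 2 f hm C hC :=
    ((Lp.memLp (bL 2 f hm C hC)).mono_exponent (by norm_num : (1 : ℝ≥0∞) ≤ 2)).coeFn_toLp
  exact h1.trans ((bL_ae 2 f hm C hC).trans (bL_ae 1 f hm C hC).symm)

/-- the normalised indicator of `{h = n}` -/
noncomputable def ef (n : ℕ) : ℝ → ℝ := (hf ⁻¹' {n}).indicator fun _ => (n : ℝ) * (n + 1)

/-- the functions `1 + cos (2 π (n+1) x)` on `[-1, 0)` -/
noncomputable def ψf (n : ℕ) : ℝ → ℝ :=
  (Set.Ico (-1 : ℝ) 0).indicator fun x => 1 + Real.cos (2 * Real.pi * (n + 1) * x)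

lemma measurable_ef (n : ℕ) : Measurable (ef n) :=
  measurable_const.indicator (measurable_hf (measurableSet_singleton n))

lemma measurable_ψf (n : ℕ) : Measurable (ψf n) :=
  (by fun_prop : Measurable fun x : ℝ => 1 + Real.cos (2 * Real.pi * (n + 1) * x)).indicator
    measurableSet_Ico

lemma ef_nonneg (n : ℕ) (x : ℝ) : 0 ≤ ef n x :=
  Set.indicator_nonneg (fun _ _ => by positivity) x

lemma ψf_nonneg (n : ℕ) (x : ℝ) : 0 ≤ ψf n x :=
  Set.indicator_nonneg (fun y _ => by linarith [Real.neg_one_le_cos (2 * Real.pi * (n + 1) * y)]) x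

lemma ef_bdd (n : ℕ) (x : ℝ) : |ef n x| ≤ (n : ℝ) * (n + 1) := by
  rw [abs_of_nonneg (ef_nonneg n x)]
  exact Set.indicator_le_self' (fun _ _ => by positivity) x

lemma ψf_bdd (n : ℕ) (x : ℝ) : |ψf n x| ≤ 2 := by
  rw [abs_of_nonneg (ψf_nonneg n x)]
  by_cases hx : x ∈ Set.Ico (-1 : ℝ) 0
  · rw [ψf, Set.indicator_of_mem hx]
    linarith [Real.cos_le_one (2 * Real.pi * (n + 1) * x)]
  · rw [ψf, Set.indicator_of_notMem hx]; norm_num

lemma int_cos (k : ℤ) (hk : k ≠ 0) :
    ∫ x in (-1 : ℝ)..0, Real.cos (2 * Real.pi * k * x) = 0 := by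
  have hk' : 2 * Real.pi * (k : ℝ) ≠ 0 := by
    have := Real.pi_ne_zero
    have : (k : ℝ) ≠ 0 := by exact_mod_cast hk
    positivity
  rw [intervalIntegral.integral_comp_mul_left (fun x => Real.cos x) hk', integral_cos]
  have : Real.sin (2 * Real.pi * k * -1) = 0 := by
    have h1 : 2 * Real.pi * k * -1 = ((-2 * k : ℤ) : ℝ) * Real.pi := by push_cast; ring
    rw [h1, Real.sin_int_mul_pi]
  rw [this]; simp

lemma int_nu_indicator (g : ℝ → ℝ) :
    ∫ x, (Set.Ico (-1 : ℝ) 0).indicator g x ∂nu = ∫ x in (-1 : ℝ)..0, g x := by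
  rw [integral_indicator measurableSet_Ico, intervalIntegral.integral_of_le (by norm_num),
    Measure.restrict_restrict measurableSet_Ico, ← integral_Icc_eq_integral_Ioc,
    integral_Icc_eq_integral_Ico]
  congr 2
  apply Set.inter_eq_left.2
  intro x hx
  exact ⟨hx.1, by linarith [hx.2]⟩

lemma int_ψf (n : ℕ) : ∫ x, ψf n x ∂nu = 1 := by
  unfold ψf
  rw [int_nu_indicator, intervalIntegral.integral_add (by simp)
    (by apply Continuous.intervalIntegrable; fun_prop)]
  have h := int_cos ((n : ℤ) + 1) (by positivity)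
  push_cast at h
  rw [h]; simp

lemma norm_ψ (n : ℕ) : ‖bL 1 (ψf n) (measurable_ψf n) 2 (ψf_bdd n)‖ = 1 := by
  rw [norm_bL_one, ← int_ψf n]
  exact integral_congr_ae (Eventually.of_forall fun x => abs_of_nonneg (ψf_nonneg n x))

lemma cos_sub_sq (a b : ℝ) : (Real.cos a - Real.cos b) ^ 2 =
    1 + Real.cos (2 * a) / 2 + Real.cos (2 * b) / 2 - Real.cos (a + b) - Real.cos (a - b) := by
  rw [Real.cos_add, Real.cos_sub, Real.cos_two_mul, Real.cos_two_mul]
  ring

lemma int_sep (m n : ℕ) (hmn : m ≠ n) :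
    ∫ x in (-1 : ℝ)..0, (Real.cos (2 * Real.pi * (m + 1) * x) -
      Real.cos (2 * Real.pi * (n + 1) * x)) ^ 2 = 1 := by
  simp only [cos_sub_sq]
  have h1 := int_cos (2 * ((m : ℤ) + 1)) (by positivity)
  have h2 := int_cos (2 * ((n : ℤ) + 1)) (by positivity)
  have h3 := int_cos (((m : ℤ) + 1) + ((n : ℤ) + 1)) (by positivity)
  have h4 := int_cos (((m : ℤ) + 1) - ((n : ℤ) + 1)) (by
    intro h; apply hmn; omega)
  push_cast at h1 h2 h3 h4
  have e : ∀ x : ℝ, 1 + Real.cos (2 * (2 * Real.pi * (m + 1) * x)) / 2 +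
      Real.cos (2 * (2 * Real.pi * (n + 1) * x)) / 2 -
      Real.cos (2 * Real.pi * (m + 1) * x + 2 * Real.pi * (n + 1) * x) -
      Real.cos (2 * Real.pi * (m + 1) * x - 2 * Real.pi * (n + 1) * x) =
      1 + Real.cos (2 * Real.pi * (2 * (m + 1)) * x) / 2 +
      Real.cos (2 * Real.pi * (2 * (n + 1)) * x) / 2 -
      Real.cos (2 * Real.pi * (m + 1 + (n + 1)) * x) -
      Real.cos (2 * Real.pi * (m + 1 - (n + 1)) * x) := by
    intro x
    have e1 : 2 * (2 * Real.pi * (m + 1) * x) = 2 * Real.pi * (2 * (m + 1)) * x := by ring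
    have e2 : 2 * (2 * Real.pi * (n + 1) * x) = 2 * Real.pi * (2 * (n + 1)) * x := by ring
    have e3 : 2 * Real.pi * (m + 1) * x + 2 * Real.pi * (n + 1) * x =
      2 * Real.pi * (m + 1 + (n + 1)) * x := by ring
    have e4 : 2 * Real.pi * (m + 1) * x - 2 * Real.pi * (n + 1) * x =
      2 * Real.pi * (m + 1 - (n + 1)) * x := by ring
    rw [e1, e2, e3, e4]
  simp only [e]
  rw [intervalIntegral.integral_sub (by apply Continuous.intervalIntegrable; fun_prop)
    (by apply Continuous.intervalIntegrable; fun_prop),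
    intervalIntegral.integral_sub (by apply Continuous.intervalIntegrable; fun_prop)
    (by apply Continuous.intervalIntegrable; fun_prop),
    intervalIntegral.integral_add (by apply Continuous.intervalIntegrable; fun_prop)
    (by apply Continuous.intervalIntegrable; fun_prop),
    intervalIntegral.integral_add (by apply Continuous.intervalIntegrable; fun_prop)
    (by apply Continuous.intervalIntegrable; fun_prop),
    intervalIntegral.integral_div, intervalIntegral.integral_div, h1, h2, h3, h4]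
  simp

lemma sep (m n : ℕ) (hmn : m ≠ n) :
    1 / 2 ≤ ‖bL 1 (ψf m) (measurable_ψf m) 2 (ψf_bdd m) -
      bL 1 (ψf n) (measurable_ψf n) 2 (ψf_bdd n)‖ := by
  have e : ‖bL 1 (ψf m) (measurable_ψf m) 2 (ψf_bdd m) -
      bL 1 (ψf n) (measurable_ψf n) 2 (ψf_bdd n)‖ = ∫ x, |ψf m x - ψf n x| ∂nu := by
    rw [L1.norm_eq_integral_norm]
    refine integral_congr_ae ?_
    filter_upwards [Lp.coeFn_sub (bL 1 (ψf m) (measurable_ψf m) 2 (ψf_bdd m))
      (bL 1 (ψf n) (measurable_ψf n) 2 (ψf_bdd n)), bL_ae 1 (ψf m) (measurable_ψf m) 2 (ψf_bdd m),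
      bL_ae 1 (ψf n) (measurable_ψf n) 2 (ψf_bdd n)] with x h1 h2 h3
    rw [h1, Pi.sub_apply, h2, h3, Real.norm_eq_abs]
  rw [e]
  have e2 : ∀ x, |ψf m x - ψf n x| = (Set.Ico (-1 : ℝ) 0).indicator
      (fun x => |Real.cos (2 * Real.pi * (m + 1) * x) - Real.cos (2 * Real.pi * (n + 1) * x)|) x := by
    intro x
    by_cases hx : x ∈ Set.Ico (-1 : ℝ) 0
    · simp only [ψf, Set.indicator_of_mem hx]
      congr 1; ring
    · simp [ψf, Set.indicator_of_notMem hx]
  simp only [e2]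
  rw [int_nu_indicator]
  have h1 := int_sep m n hmn
  have h2 : ∫ x in (-1 : ℝ)..0, (Real.cos (2 * Real.pi * (m + 1) * x) -
      Real.cos (2 * Real.pi * (n + 1) * x)) ^ 2 ≤ ∫ x in (-1 : ℝ)..0,
      2 * |Real.cos (2 * Real.pi * (m + 1) * x) - Real.cos (2 * Real.pi * (n + 1) * x)| := by
    apply intervalIntegral.integral_mono_on (by norm_num)
      (by apply Continuous.intervalIntegrable; fun_prop)
      (by apply Continuous.intervalIntegrable; fun_prop)
    intro x _
    set c := Real.cos (2 * Real.pi * (m + 1) * x)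
    set d := Real.cos (2 * Real.pi * (n + 1) * x)
    have hc1 := Real.cos_le_one (2 * Real.pi * (m + 1) * x)
    have hc2 := Real.neg_one_le_cos (2 * Real.pi * (m + 1) * x)
    have hd1 := Real.cos_le_one (2 * Real.pi * (n + 1) * x)
    have hd2 := Real.neg_one_le_cos (2 * Real.pi * (n + 1) * x)
    have h3 : |c - d| ≤ 2 := by
      rw [abs_le]; constructor <;> linarith
    rw [← sq_abs]
    nlinarith [abs_nonneg (c - d)]
  rw [intervalIntegral.integral_const_mul] at h2
  linarith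

lemma int_ef_self (n : ℕ) (hn : 1 ≤ n) : ∫ x, ef n x ∂nu = 1 := by
  have hn0 : (0 : ℝ) < n := by exact_mod_cast hn
  unfold ef
  rw [integral_indicator (measurable_hf (measurableSet_singleton n)), setIntegral_const,
    nu_preimage n hn, smul_eq_mul]
  field_simp

lemma norm_e (n : ℕ) : ‖bL 1 (ef n) (measurable_ef n) _ (ef_bdd n)‖ ≤ 1 := by
  rw [norm_bL_one]
  have : ∀ x, |ef n x| = ef n x := fun x => abs_of_nonneg (ef_nonneg n x)
  simp only [this]
  rcases Nat.eq_zero_or_pos n with rfl | hn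
  · simp [ef]
  · rw [int_ef_self n hn]

lemma norm_e2 (n : ℕ) : ‖bL 2 (ef n) (measurable_ef n) _ (ef_bdd n)‖ ≤ n + 1 := by
  have h := norm_bL_two (ef n) (measurable_ef n) _ (ef_bdd n)
  have h2 : ∫ x, ef n x ^ 2 ∂nu ≤ (n + 1) ^ 2 := by
    have e : ∀ x, ef n x ^ 2 = (n : ℝ) * (n + 1) * ef n x := by
      intro x
      unfold ef
      by_cases hx : x ∈ hf ⁻¹' {n}
      · rw [Set.indicator_of_mem hx]; ring
      · rw [Set.indicator_of_notMem hx]; ring
    simp only [e]
    rw [integral_const_mul]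
    rcases Nat.eq_zero_or_pos n with rfl | hn
    · simp
    · rw [int_ef_self n hn]
      nlinarith [(Nat.cast_nonneg n : (0 : ℝ) ≤ n)]
  rw [← h] at h2
  exact (pow_le_pow_iff_left₀ (norm_nonneg _) (by positivity) (by norm_num)).1 h2

lemma norm_ψ2 (n : ℕ) : ‖bL 2 (ψf n) (measurable_ψf n) 2 (ψf_bdd n)‖ ≤ 3 := by
  have h := norm_bL_two (ψf n) (measurable_ψf n) 2 (ψf_bdd n)
  have h2 : ∫ x, ψf n x ^ 2 ∂nu ≤ 3 ^ 2 := by
    calc ∫ x, ψf n x ^ 2 ∂nu ≤ ∫ _x, (4 : ℝ) ∂nu := by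
          refine integral_mono_of_nonneg (Eventually.of_forall fun x => sq_nonneg _)
            (integrable_const _) (Eventually.of_forall fun x => ?_)
          have := ψf_bdd n x
          rw [abs_of_nonneg (ψf_nonneg n x)] at this
          have h0 := ψf_nonneg n x
          show ψf n x ^ 2 ≤ 4
          nlinarith
      _ ≤ 3 ^ 2 := by
          rw [integral_const, nu_univ]
          norm_num
  rw [← h] at h2
  exact (pow_le_pow_iff_left₀ (norm_nonneg _) (by positivity) (by norm_num)).1 h2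

lemma M_bL (g : Mult ℝ) (a : ℝ) (f : ℝ → ℝ) (hm : Measurable f) (C : ℝ) (hC : ∀ x, |f x| ≤ C)
    (hg : ∀ x, g.f x * f x = a * f x) : M nu g (bL 1 f hm C hC) = a • bL 1 f hm C hC := by
  refine Lp.ext ?_
  filter_upwards [M_ae g (bL 1 f hm C hC), bL_ae 1 f hm C hC,
    Lp.coeFn_smul a (bL 1 f hm C hC)] with x h1 h2 h3
  rw [h1, h3, Pi.smul_apply, h2, smul_eq_mul, hg]

lemma hf_neg (x : ℝ) (hx : x < 0) : hf x = 0 := by
  unfold hf
  exact Nat.floor_of_nonpos (inv_nonpos.2 hx.le)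

lemma bL_pos (f : ℝ → ℝ) (hm : Measurable f) (C : ℝ) (hC : ∀ x, |f x| ≤ C) (h0 : ∀ x, 0 ≤ f x) :
    0 ≤ bL 1 f hm C hC := by
  rw [← Lp.coeFn_nonneg]
  filter_upwards [bL_ae 1 f hm C hC] with x hx
  rw [hx]; exact h0 x

/-- the system of the example -/
noncomputable def theSys : Sys nu where
  h := hf
  hh := measurable_hf
  e n := bL 1 (ef n) (measurable_ef n) _ (ef_bdd n)
  ψ n := bL 1 (ψf n) (measurable_ψf n) 2 (ψf_bdd n)
  e_norm := norm_e
  ψ_norm n := (norm_ψ n).le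
  e_pos n := bL_pos _ _ _ _ (ef_nonneg n)
  ψ_pos n := bL_pos _ _ _ _ (ψf_nonneg n)
  e_supp n g a hg := by
    refine M_bL g a _ _ _ _ fun x => ?_
    unfold ef
    by_cases hx : x ∈ hf ⁻¹' {n}
    · rw [hg x hx]
    · rw [Set.indicator_of_notMem hx]; ring
  ψ_supp n g hg := by
    rw [M_bL g 1 _ _ _ _ fun x => ?_, one_smul]
    unfold ψf
    by_cases hx : x ∈ Set.Ico (-1 : ℝ) 0
    · rw [hg x (hf_neg x hx.2)]
    · rw [Set.indicator_of_notMem hx]; ring
  c_e m n hn := by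
    rw [cm_bL]
    by_cases hmn : m = n
    · subst hmn
      rw [if_pos rfl, ← int_ef_self m hn, ← integral_indicator
        (measurable_hf (measurableSet_singleton m))]
      congr 1
      ext x
      unfold ef
      rw [Set.indicator_indicator, Set.inter_self]
    · rw [if_neg hmn]
      refine setIntegral_eq_zero_of_forall_eq_zero fun x hx => ?_
      unfold ef
      refine Set.indicator_of_notMem ?_ _
      intro hx'
      exact hmn (hx.symm.trans hx')
  c_ψ m n hm := by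
    rw [cm_bL]
    refine setIntegral_eq_zero_of_forall_eq_zero fun x hx => ?_
    unfold ψf
    refine Set.indicator_of_notMem ?_ _
    intro hx'
    have h1 := hf_neg x hx'.2
    have h2 : hf x = m := hx
    omega

/-- the multiplier `1_{h = 0}` -/
noncomputable def theQ : Mult ℝ where
  f := (hf ⁻¹' {0}).indicator fun _ => 1
  meas := measurable_const.indicator (measurable_hf (measurableSet_singleton 0))
  bdd x := by
    by_cases hx : x ∈ hf ⁻¹' {0}
    · rw [Set.indicator_of_mem hx]; simp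
    · rw [Set.indicator_of_notMem hx]; simp

lemma theQ0 (x : ℝ) (hx : theSys.h x = 0) : theQ.f x = 1 := by
  show (hf ⁻¹' {0}).indicator (fun _ => (1 : ℝ)) x = 1
  exact Set.indicator_of_mem (show x ∈ hf ⁻¹' {0} from hx) _

lemma theQ1 (x : ℝ) (hx : theSys.h x ≠ 0) : theQ.f x = 0 := by
  show (hf ⁻¹' {0}).indicator (fun _ => (1 : ℝ)) x = 0
  exact Set.indicator_of_notMem (show x ∉ hf ⁻¹' {0} from hx) _

theorem weakly_compact (j : ℕ) (t : ℝ) (ht : 0 ≤ t) : WeaklyCompact (TT theSys (j + 1) t) :=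
  weaklyCompact_TT theSys j JJ (fun n => bL 2 (ef n) (measurable_ef n) _ (ef_bdd n))
    (fun n => bL 2 (ψf n) (measurable_ψf n) 2 (ψf_bdd n)) (fun _ => JJ_bL _ _ _ _)
    (fun _ => JJ_bL _ _ _ _) norm_e2 norm_ψ2 t ht

theorem not_compact (j : ℕ) (t : ℝ) (ht : 0 < t) : ¬ IsCompactOperator (TT theSys (j + 1) t) :=
  not_compact_TT theSys j theQ theQ0 theQ1 (fun m n _ _ hmn => sep m n hmn) t ht

theorem not_cont (j : ℕ) : ¬ ContinuousOn (fun t => TT theSys (j + 1) t) (Set.Ici 0) :=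
  not_cont_TT theSys j theQ theQ0 theQ1 norm_ψ

end Pool.Agent.V11219.DP
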