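import Pool.Agent.V11219.ClsDefs

/-!
# Varieties with simultaneous semistable degenerations: definitions
-/

open CategoryTheory AlgebraicGeometry

universe u

namespace Pool.Agent.V11219.Min

open Pool.Agent.TH125.Gal

section Alg

variable {K A B Γ : Type} [Field K] [Ring A] [Algebra K A] [Ring B] [Algebra K B] [Group Γ]

/-- The actions of `Γ` on the algebra `A`. -/
abbrev Act (K : Type) [Field K] (A : Type) [Ring A] [Algebra K A] (Γ : Type) [Group Γ] : Type :=
  Γ →* (A ≃ₐ[K] A)

/-- The operator `g - 1`. -/
def dif (ρ : Act K A Γ) (g : Γ) : Module.End K A := (ρ g).toLinearMap - 1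

/-- `(g - 1) ^ 2 = 0` on `T`. -/
def Quad (T : Submodule K A) (ρ : Act K A Γ) (g : Γ) : Prop :=
  ∀ t ∈ T, ρ g (ρ g t - t) = ρ g t - t

/-- The number `d` is a *defect* of `g` on `T`: the rank of `g - 1` on `T`, or the (algebraic)
multiplicity on `T` of a nonzero eigenvalue of `(g - 1) (g' - 1)`, for an element `g'` of the set `M`
with `(g' - 1) ^ 2 = 0` on `T`. -/
def IsDefect (T : Submodule K A) (ρ : Act K A Γ) (M : Set Γ) (g : Γ) (d : ℕ) : Prop :=
  d = Module.finrank K (T.map (dif ρ g)) ∨ ∃ g' ∈ M, Quad T ρ g' ∧ ∃ a : K, a ≠ 0 ∧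
    d = Module.finrank K (T ⊓ Module.End.maxGenEigenspace (dif ρ g * dif ρ g') a : Submodule K A)

/-- `χ g = 1`. -/
def InKer (χ : Γ →* Kˣ) (g : Γ) : Prop := χ g = 1

/-- The defects of `g` have no common prime factor or contain the number two. -/
def Coprime (T : Submodule K A) (ρ : Act K A Γ) (N : Set Γ) (g : Γ) : Prop :=
  (∀ p : ℕ, p.Prime → ∃ d, IsDefect T ρ N g d ∧ ¬ p ∣ d) ∨ IsDefect T ρ N g 2

/-- The defects of the elements of `N` have no common prime factor. -/
def AllCoprime (T : Submodule K A) (ρ : Act K A Γ) (N : Set Γ) : Prop :=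
  ∀ p : ℕ, p.Prime → ∃ g ∈ N, ∃ d, IsDefect T ρ N g d ∧ ¬ p ∣ d

/-- The subspace `U` is stable under the conjugates of `g`. -/
def StableConj (ρ : Act K A Γ) (g : Γ) (U : Submodule K A) : Prop :=
  ∀ h : Γ, ∀ x ∈ U, ρ (h * g * h⁻¹) x ∈ U

/-- The conjugates of `g` act irreducibly on `T`. -/
def ConjIrreducible (T : Submodule K A) (ρ : Act K A Γ) (g : Γ) : Prop :=
  ∀ U ≤ T, StableConj ρ g U → U = ⊥ ∨ U = T

/-- The set `N` contains an element whose defects on `T` have no common prime factor or contain the
number two; or the conjugates of an element of `N` act irreducibly on `T`, and the defects of all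
elements of `N` have no common prime factor. -/
def SmallDefects (T : Submodule K A) (ρ : Act K A Γ) (N : Set Γ) : Prop :=
  (∃ g ∈ N, Coprime T ρ N g) ∨ ((∃ g ∈ N, ConjIrreducible T ρ g) ∧ AllCoprime T ρ N)

/-- The subspaces `T` and `T'` are isomorphic up to scalars. -/
def IsoUp (T : Submodule K A) (T' : Submodule K B) (ρ : Act K A Γ) (ρ' : Act K B Γ) : Prop :=
  ∃ f : T ≃ₗ[K] T', ∀ g, ∃ c : K, ∀ x y : T, (y : A) = ρ g x → (f y : B) = c • ρ' g (f x)

end Alg

open Pool.Agent.H914 Pool.Agent.H914.VarClass Pool.Agent.H914.VarClass.Obj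
  Pool.Agent.H914.WeilCohomology Pool.Agent.H281R3.HT

variable {k : Type u} [Field k] {𝒱 : VarClass k} {ops : CycleOps 𝒱}

/-- The characters of `Γ` with values in the coefficient field of `W`. -/
abbrev CharOf (W : WeilCohomology.{u, 0} ops) (Γ : Type) [Group Γ] : Type := Γ →* W.Kˣ

variable {W : WeilCohomology.{u, 0} ops} {Γ : Type} [Group Γ] {ι : Type}

/-- `(g - 1) ^ 2 = 0` on the transcendental cohomology of `A`. -/
def QuadVar (A : GVar W Γ) (g : Γ) : Prop := Quad (transcendental W A.X) A.act g

/-- `SmallDefects` for the transcendental cohomology of `A`. -/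
def SmallVar (A : GVar W Γ) (N : Set Γ) : Prop := SmallDefects (transcendental W A.X) A.act N

/-- The elements `g` of `Γ` with `χ g = 1` which act trivially on the cohomology of `Z` and with
`(g - 1) ^ 2 = 0` on the transcendental cohomology of all `X i`. -/
def semistable (χ : CharOf W Γ) (X : ι → GVar W Γ) (Z : GVar W Γ) : Set Γ :=
  {g | InKer χ g ∧ TrivAct Z.act g ∧ ∀ i, QuadVar (X i) g}

/-- The transcendental cohomologies of `A` and `B` are isomorphic up to scalars. -/
def IsoUpToScalars (A B : GVar W Γ) : Prop :=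
  IsoUp (transcendental W A.X) (transcendental W B.X) A.act B.act

/-- The variety `A` has odd dimension, numerical and homological equivalence coincide for `A`, and
its transcendental cohomology is in the middle degree. -/
def GoodVar (A : GVar W Γ) : Prop :=
  Odd A.X.dim ∧ HomEqNum W A.X ∧ transcendental W A.X ≤ W.gr A.X A.X.dim

/-- The action of `Γ` on the cohomology of `A` has the formal properties of a Galois action. -/
def GaloisVar (χ : CharOf W Γ) (A : GVar W Γ) : Prop :=
  IsGaloisAct χ (W.gr A.X) A.X.dim (W.tr A.X) (algClasses W A.X) A.act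

/-- The group `Γ` acts on the cohomology of the varieties `X i` like a Galois group; they satisfy
`GoodVar`; their transcendental cohomology is irreducible under all subgroups of finite index, and no
two of them are isomorphic up to scalars; and for every `i` the set `semistable` satisfies
`SmallDefects` on it. -/
structure Family (χ : CharOf W Γ) (X : ι → GVar W Γ) (Z : GVar W Γ) : Prop where
  good : ∀ i, GoodVar (X i)
  galois : ∀ i, GaloisVar χ (X i)
  irreducible : ∀ i, IrredAct (X i).act (transcendental W (X i).X)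
  distinct : ∀ i j, i ≠ j → ¬ IsoUpToScalars (X i) (X j)
  small : ∀ i, SmallVar (X i) (semistable χ X Z)

end Pool.Agent.V11219.Min
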