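import Pool.Agent.V11219.MinDefs

/-!
# Varieties with local conditions: definitions
-/

open CategoryTheory AlgebraicGeometry

universe u

namespace Pool.Agent.V11219.Min

open Pool.Agent.TH125.Gal

section Alg

variable {K : Type} [Field K] {A : Type} [Ring A] [Algebra K A] {Γ : Type} [Group Γ]

/-- There is an element `g` of `M` with `(g - 1) ^ 2 = 0` on `T` whose defects have no common prime
factor or contain the number two. -/
def Unipotent (T : Submodule K A) (ρ : Act K A Γ) (M : Set Γ) : Prop :=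
  ∃ g ∈ M, Quad T ρ g ∧ Coprime T ρ M g

/-- Numbers `a` with multiplicities `m a` (the eigenvalues of an operator) are *isolated* with
respect to a group `Λ` of numbers: they are divided into two nonempty sets, `S` and its complement,
both stable under `α ↦ α⁻¹`, such that for `α` in `S` and `β` in the complement `β / α` is not in
`Λ`, at least one of `α`, `β` has multiplicity one, `β / α` is the quotient of no other pair
except the dual pair, and geometric progressions of length three with the quotient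
`β / α` are self-dual, with outer terms of multiplicity one. -/
def Isolated (Λ : Subgroup Kˣ) (m : K → ℕ) : Prop :=
  ∃ S : Set K, (∃ α ∈ S, m α ≠ 0) ∧ (∃ β ∉ S, m β ≠ 0) ∧ (∀ α, m α ≠ 0 → (α ∈ S ↔ α⁻¹ ∈ S)) ∧
    ∀ α ∈ S, ∀ β ∉ S, m α ≠ 0 → m β ≠ 0 →
      (∀ l ∈ Λ, (l : K) ≠ β * α⁻¹) ∧ (m α = 1 ∨ m β = 1) ∧
      (∀ α', m α' ≠ 0 → m (α' * (β * α⁻¹)) ≠ 0 → α' = α ∨ α' * β = 1) ∧
      ∀ α', m α' ≠ 0 → m (α' * (β * α⁻¹)) ≠ 0 → m (α' * (β * α⁻¹) * (β * α⁻¹)) ≠ 0 →
        m α' = 1 ∧ α' * (α' * (β * α⁻¹) * (β * α⁻¹)) = 1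

/-- `g` acts on `T` with finite order and its eigenvalues are isolated with respect to `Λ`. -/
def FiniteOrder (Λ : Subgroup Kˣ) (T : Submodule K A) (ρ : Act K A Γ) (g : Γ) : Prop :=
  (∃ k : ℕ, 0 < k ∧ ∀ t ∈ T, ρ (g ^ k) t = t) ∧
    Isolated Λ fun a => Module.finrank K
      (T ⊓ Module.End.eigenspace (ρ g).toLinearMap a : Submodule K A)

/-- Some element has two eigenvalues on `T` whose quotient is not a root of unity. -/
def Hyperbolic (T : Submodule K A) (ρ : Act K A Γ) : Prop :=
  ∃ F : Γ, ∃ x ∈ T, ∃ y ∈ T, x ≠ 0 ∧ y ≠ 0 ∧ ∃ a b : K, ρ F x = a • x ∧ ρ F y = b • y ∧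
    ∀ k : ℕ, 0 < k → a ^ k ≠ b ^ k

/-- All eigenvalues of `g` belong to `Λ`. -/
def EigIn (Λ : Subgroup Kˣ) (ρ : Act K A Γ) (g : Γ) : Prop :=
  ∀ a : K, (∃ z, z ≠ 0 ∧ ρ g z = a • z) → ∃ l ∈ Λ, (l : K) = a

/-- The kernel of `χ`. -/
def kerSet (χ : Γ →* Kˣ) : Set Γ := {g | χ g = 1}

/-- The local condition: among the elements with `χ g = 1` there is a unipotent one in the set `N`
with coprime defects; or one of finite order and in the set `P Λ`, whose eigenvalues are isolated with
respect to `Λ` (and some element of the group is hyperbolic). -/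
def LocalCondition (χ : Γ →* Kˣ) (T : Submodule K A) (ρ : Act K A Γ) (N : Set Γ)
    (P : Subgroup Kˣ → Set Γ) : Prop :=
  Unipotent T ρ (kerSet χ ∩ N) ∨
    (Hyperbolic T ρ ∧ ∃ Λ, ∃ g ∈ P Λ, g ∈ kerSet χ ∧ FiniteOrder Λ T ρ g)

end Alg

open Pool.Agent.H914 Pool.Agent.H914.VarClass Pool.Agent.H914.VarClass.Obj
  Pool.Agent.H914.WeilCohomology Pool.Agent.H281R3.HT

variable {k : Type u} [Field k] {𝒱 : VarClass k} {ops : CycleOps 𝒱}
  {W : WeilCohomology.{u, 0} ops} {Γ : Type} [Group Γ] {ι : Type}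

/-- The elements of `Γ` which act trivially on the cohomology of `Z` and of the `X j`, `j ≠ i`. -/
def trivialOn (X : ι → GVar W Γ) (Z : GVar W Γ) (i : ι) : Set Γ :=
  {g | TrivAct Z.act g ∧ ∀ j, j ≠ i → TrivAct (X j).act g}

/-- The elements of `Γ` whose eigenvalues on the cohomology of `Z` and of the `X j`, `j ≠ i`, are in
`Λ`. -/
def eigenvaluesIn (X : ι → GVar W Γ) (Z : GVar W Γ) (i : ι) (Λ : Subgroup W.Kˣ) : Set Γ :=
  {g | EigIn Λ Z.act g ∧ ∀ j, j ≠ i → EigIn Λ (X j).act g}

/-- The group `Γ` acts on the cohomology of the varieties `X i` like a Galois group; they satisfy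
`GoodVar`; their transcendental cohomology is irreducible under all subgroups of finite index; and
for every `i` there is an element as in `LocalCondition`. -/
structure LocalFam (χ : CharOf W Γ) (X : ι → GVar W Γ) (Z : GVar W Γ) : Prop where
  good : ∀ i, GoodVar (X i)
  galois : ∀ i, GaloisVar χ (X i)
  irreducible : ∀ i, IrredAct (X i).act (transcendental W (X i).X)
  cond : ∀ i, LocalCondition χ (transcendental W (X i).X) (X i).act (trivialOn X Z i)
    (eigenvaluesIn X Z i)

end Pool.Agent.V11219.Min
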