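import Mathlib

/-!
# Moment operators of random quantum channels

Definitions (tensor powers of linear maps on `M_d`, moment operators, Hilbert-Schmidt norm,
the ensemble `cHaar(d, d_E)`) and the second moment of the Haar measure on `U(n)`.
-/

open Matrix MeasureTheory
open scoped BigOperators ComplexConjugate

namespace Pool.Agent.V11219.MomentOp

/-- The matrices `M_d`. -/
abbrev Mat (d : ℕ) := Matrix (Fin d) (Fin d) ℂ

/-- The matrices `M_d^{⊗ t} ≅ M_{d^t}`, realised as matrices indexed by `t`-tuples. -/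
abbrev MatT (d t : ℕ) := Matrix (Fin t → Fin d) (Fin t → Fin d) ℂ

/-- The tensor power `Φ^{⊗ t}` of a linear map `Φ : M_d → M_d`: the linear map on
`M_d^{⊗ t}` sending the matrix unit `⊗_s E_{i_s j_s}` to `⊗_s Φ(E_{i_s j_s})`. -/
noncomputable def tensorPow {d : ℕ} (t : ℕ) (Φ : Mat d →ₗ[ℂ] Mat d) :
    MatT d t →ₗ[ℂ] MatT d t where
  toFun X := Matrix.of fun k l =>
    ∑ i, ∑ j, X i j * ∏ s, Φ (Matrix.single (i s) (j s) 1) (k s) (l s)
  map_add' X Y := by
    ext k l
    simp [add_mul, Finset.sum_add_distrib]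
  map_smul' c X := by
    ext k l
    simp [Finset.mul_sum, mul_assoc]

/-- The defining property of the tensor power: `Φ^{⊗ t}(X_1 ⊗ ⋯ ⊗ X_t) =
`Φ(X_1) ⊗ ⋯ ⊗ Φ(X_t)`. -/
theorem tensorPow_pure {d : ℕ} (t : ℕ) (Φ : Mat d →ₗ[ℂ] Mat d) (X : Fin t → Mat d) :
    tensorPow t Φ (Matrix.of fun i j => ∏ s, X s (i s) (j s)) =
      Matrix.of fun k l => ∏ s, Φ (X s) (k s) (l s) := by
  ext k l
  have hX : ∀ s, Φ (X s) (k s) (l s) =
      ∑ p : Fin d × Fin d, X s p.1 p.2 * Φ (Matrix.single p.1 p.2 1) (k s) (l s) := by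
    intro s
    conv_lhs => rw [Matrix.matrix_eq_sum_single (X s)]
    simp only [map_sum, Matrix.sum_apply, Fintype.sum_prod_type]
    refine Finset.sum_congr rfl fun i _ => Finset.sum_congr rfl fun j _ => ?_
    have : Matrix.single i j (X s i j) = (X s i j) • Matrix.single i j (1 : ℂ) := by
      simp [Matrix.smul_single]
    rw [this, map_smul]; rfl
  simp only [tensorPow, LinearMap.coe_mk, AddHom.coe_mk, Matrix.of_apply]
  simp only [hX]
  rw [Finset.prod_univ_sum, Fintype.piFinset_univ]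
  calc ∑ i : Fin t → Fin d, ∑ j : Fin t → Fin d,
        (∏ s, X s (i s) (j s)) * ∏ s, Φ (Matrix.single (i s) (j s) 1) (k s) (l s)
      = ∑ q : (Fin t → Fin d) × (Fin t → Fin d),
        (∏ s, X s (q.1 s) (q.2 s)) * ∏ s, Φ (Matrix.single (q.1 s) (q.2 s) 1) (k s) (l s) := by
        rw [Fintype.sum_prod_type]
    _ = _ := by
        refine Fintype.sum_equiv
          (Equiv.arrowProdEquivProdArrow (Fin t) (fun _ => Fin d) (fun _ => Fin d)).symm _ _ ?_
        rintro ⟨i, j⟩
        simp [Finset.prod_mul_distrib, Equiv.arrowProdEquivProdArrow]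

/-- The `t`-th order moment operator `𝔼 Φ^{⊗ t}` of a random linear map `ω ↦ Φ ω`
(`ω` distributed according to `μ`): the linear map whose matrix entries are the means of the
matrix entries of `Φ_ω^{⊗ t}`. -/
noncomputable def momentOp {Ω : Type*} [MeasurableSpace Ω] (μ : Measure Ω) {d : ℕ} (t : ℕ)
    (Φ : Ω → (Mat d →ₗ[ℂ] Mat d)) : MatT d t →ₗ[ℂ] MatT d t where
  toFun X := Matrix.of fun k l =>
    ∑ i, ∑ j, X i j * ∫ ω, tensorPow t (Φ ω) (Matrix.single i j 1) k l ∂μ
  map_add' X Y := by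
    ext k l
    simp [add_mul, Finset.sum_add_distrib]
  map_smul' c X := by
    ext k l
    simp [Finset.mul_sum, mul_assoc]

/-- The squared Hilbert-Schmidt norm `Tr (A† A)` of an operator `A` on `M_{d^t}`: the sum of
the squared moduli of its matrix entries in the orthonormal basis of matrix units. -/
noncomputable def hsNormSq {d t : ℕ} (A : MatT d t →ₗ[ℂ] MatT d t) : ℝ :=
  ∑ i, ∑ j, ∑ k, ∑ l, ‖A (Matrix.single i j 1) k l‖ ^ 2

/-- The map `X ↦ Tr_E [V (X ⊗ |ψ⟩⟨ψ|) V†]` on `M_d`, for a matrix `V` on `ℂ^d ⊗ ℂ^{d_E}` and a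
vector `ψ ∈ ℂ^{d_E}`. -/
noncomputable def dilated {d dE : ℕ} (ψ : Fin dE → ℂ)
    (V : Matrix (Fin d × Fin dE) (Fin d × Fin dE) ℂ) : Mat d →ₗ[ℂ] Mat d where
  toFun X := Matrix.of fun k l =>
    ∑ x : Fin dE, (V * (Matrix.kronecker X (Matrix.vecMulVec ψ (star ψ))) * Vᴴ) (k, x) (l, x)
  map_add' X Y := by
    ext k l
    simp [Matrix.kronecker, Matrix.add_kronecker, Matrix.mul_add, Matrix.add_mul,
      Finset.sum_add_distrib]
  map_smul' c X := by
    ext k l
    simp [Matrix.kronecker, Matrix.smul_kronecker, Finset.mul_sum]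

section Haar

variable (n : Type) [Fintype n] [DecidableEq n]

/-- The unitary group `U(n)` is compact. -/
instance compactSpace_unitaryGroup : CompactSpace (Matrix.unitaryGroup n ℂ) := by
  refine isCompact_iff_compactSpace.mp (?_ : IsCompact
    ((Matrix.unitaryGroup n ℂ : Submonoid (Matrix n n ℂ)) : Set (Matrix n n ℂ)))
  have hK : IsCompact (Set.pi Set.univ fun _ : n => Set.pi Set.univ fun _ : n =>
      Metric.closedBall (0 : ℂ) 1 : Set (n → n → ℂ)) :=
    isCompact_univ_pi fun _ => isCompact_univ_pi fun _ => isCompact_closedBall _ _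
  refine IsCompact.of_isClosed_subset (s := (Set.pi Set.univ fun _ : n => Set.pi Set.univ fun _ : n =>
      Metric.closedBall (0 : ℂ) 1 : Set (Matrix n n ℂ))) hK ?_ ?_
  · have : ((Matrix.unitaryGroup n ℂ : Submonoid (Matrix n n ℂ)) : Set (Matrix n n ℂ)) =
        {V | V * star V = 1} := by
      ext V
      exact Matrix.mem_unitaryGroup_iff
    rw [this]
    exact isClosed_eq (by fun_prop) continuous_const
  · intro V hV i _ j _
    simpa using entry_norm_bound_of_unitary hV i j

noncomputable instance : MeasurableSpace (Matrix.unitaryGroup n ℂ) := borel _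

instance : BorelSpace (Matrix.unitaryGroup n ℂ) := ⟨rfl⟩

/-- The Haar probability measure on `U(n)`. -/
noncomputable def haarU : Measure (Matrix.unitaryGroup n ℂ) :=
  Measure.haarMeasure ⊤

instance : (haarU n).IsHaarMeasure := by
  unfold haarU; infer_instance

instance : IsProbabilityMeasure (haarU n) := by
  constructor
  have := Measure.haarMeasure_self (K₀ := (⊤ : TopologicalSpace.PositiveCompacts
    (Matrix.unitaryGroup n ℂ)))
  simpa [haarU] using this

end Haar

/-- `N_{t,k}(d, d_E)`: the squared Hilbert-Schmidt norm of the `k`-th power of the `t`-th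
moment operator of the ensemble `cHaar(d, d_E)`, with `|0⟩` the unit vector `ψ`. -/
noncomputable def N (t k d dE : ℕ) (ψ : Fin dE → ℂ) : ℝ :=
  hsNormSq ((momentOp (haarU (Fin d × Fin dE)) t
    (fun V => dilated (d := d) ψ (V : Matrix (Fin d × Fin dE) (Fin d × Fin dE) ℂ))) ^ k)

end Pool.Agent.V11219.MomentOp
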