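import Pool.Agent.V11219.MomentOp

open Matrix MeasureTheory
open scoped BigOperators ComplexConjugate

namespace Pool.Agent.V11219.MomentOp

section Second

variable {n : Type} [Fintype n] [DecidableEq n]

abbrev UU (n : Type) [Fintype n] [DecidableEq n] := Matrix.unitaryGroup n ℂ

/-- coordinate `a` of `V φ` -/
noncomputable def cv (φ : n → ℂ) (a : n) (V : UU n) : ℂ := ((V : Matrix n n ℂ) *ᵥ φ) a

lemma continuous_cv (φ : n → ℂ) (a : n) : Continuous (cv φ a) := by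
  unfold cv
  simp only [Matrix.mulVec, dotProduct]
  refine continuous_finsetSum _ fun i _ => ?_
  refine Continuous.mul ?_ continuous_const
  exact (continuous_apply_apply a i).comp continuous_subtype_val

lemma integrable_of_cont {f : UU n → ℂ} (hf : Continuous f) : Integrable f (haarU n) :=
  hf.integrable_of_hasCompactSupport (HasCompactSupport.of_compactSpace f)

/-- the integrand of the second moments -/
noncomputable def mm (φ₁ φ₂ χ₁ χ₂ : n → ℂ) (a b a' b' : n) (V : UU n) : ℂ :=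
  cv φ₁ a V * cv φ₂ b V * conj (cv χ₁ a' V) * conj (cv χ₂ b' V)

/-- the second moments -/
noncomputable def MM (φ₁ φ₂ χ₁ χ₂ : n → ℂ) (a b a' b' : n) : ℂ :=
  ∫ V, mm φ₁ φ₂ χ₁ χ₂ a b a' b' V ∂(haarU n)

lemma integrable_mm (φ₁ φ₂ χ₁ χ₂ : n → ℂ) (a b a' b' : n) :
    Integrable (mm φ₁ φ₂ χ₁ χ₂ a b a' b') (haarU n) := by
  apply integrable_of_cont
  unfold mm
  exact (((continuous_cv _ _).mul (continuous_cv _ _)).mul
    (Complex.continuous_conj.comp (continuous_cv _ _))).mul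
    (Complex.continuous_conj.comp (continuous_cv _ _))

lemma cv_mul (W V : UU n) (φ : n → ℂ) (a : n) :
    cv φ a (W * V) = ∑ c, (W : Matrix n n ℂ) a c * cv φ c V := by
  simp only [cv, Submonoid.coe_mul, ← Matrix.mulVec_mulVec]
  rfl

lemma shift (W : UU n) (f : UU n → ℂ) : ∫ V, f (W * V) ∂(haarU n) = ∫ V, f V ∂(haarU n) :=
  integral_mul_left_eq_self f W

variable (φ₁ φ₂ χ₁ χ₂ : n → ℂ)

lemma MM_diag (w : n → ℂ) (hw : ∀ a, w a * conj (w a) = 1) (a b a' b' : n) :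
    MM φ₁ φ₂ χ₁ χ₂ a b a' b' =
      (w a * w b * conj (w a') * conj (w b')) * MM φ₁ φ₂ χ₁ χ₂ a b a' b' := by
  have hmem : Matrix.diagonal w ∈ Matrix.unitaryGroup n ℂ := by
    rw [Matrix.mem_unitaryGroup_iff, Matrix.star_eq_conjTranspose, Matrix.diagonal_conjTranspose,
      Matrix.diagonal_mul_diagonal]
    rw [← Matrix.diagonal_one]
    congr 1
    ext a
    exact hw a
  have h := shift (⟨_, hmem⟩ : UU n) (mm φ₁ φ₂ χ₁ χ₂ a b a' b')
  have hc : ∀ (φ : n → ℂ) (a : n) (V : UU n), cv φ a ((⟨_, hmem⟩ : UU n) * V) = w a * cv φ a V := by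
    intro φ a V
    rw [cv_mul]
    simp [Matrix.diagonal_apply]
  have h2 : ∀ V, mm φ₁ φ₂ χ₁ χ₂ a b a' b' ((⟨_, hmem⟩ : UU n) * V) =
      (w a * w b * conj (w a') * conj (w b')) * mm φ₁ φ₂ χ₁ χ₂ a b a' b' V := by
    intro V
    simp only [mm, hc, map_mul]
    ring
  simp only [h2, integral_const_mul] at h
  exact h.symm

/-- number of occurrences -/
def cnt (c a b : n) : ℕ := (if a = c then 1 else 0) + (if b = c then 1 else 0)

lemma MM_zero (c a b a' b' : n) (h : cnt c a b ≠ cnt c a' b') :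
    MM φ₁ φ₂ χ₁ χ₂ a b a' b' = 0 := by
  have key := MM_diag φ₁ φ₂ χ₁ χ₂ (fun x => if x = c then Complex.I else 1)
    (by intro a; by_cases h : a = c <;> simp [h]) a b a' b'
  set m := MM φ₁ φ₂ χ₁ χ₂ a b a' b'
  by_contra hm
  have h1 : (1 : ℂ) = ((if a = c then Complex.I else 1) * (if b = c then Complex.I else 1) *
      conj (if a' = c then Complex.I else (1 : ℂ)) * conj (if b' = c then Complex.I else (1 : ℂ))) :=
    mul_right_cancel₀ hm (by rw [one_mul]; exact key)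
  unfold cnt at h
  have hI : Complex.I ≠ 1 := by
    intro h; have := congrArg Complex.re h; simp at this
  have hI' : (-Complex.I) ≠ 1 := by
    intro h; have := congrArg Complex.re h; simp at this
  have hn : (-1 : ℂ) ≠ 1 := by norm_num
  by_cases h1a : a = c <;> by_cases h1b : b = c <;> by_cases h1a' : a' = c <;>
    by_cases h1b' : b' = c <;>
    simp only [h1a, h1b, h1a', h1b', if_true, if_false, map_one, mul_one, one_mul,
      Complex.conj_I, Complex.I_mul_I, neg_mul, mul_neg, neg_neg] at h1 h <;>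
    first
    | exact hI h1.symm
    | exact hI' h1.symm
    | exact hn h1.symm
    | exact h rfl

lemma MM_perm (π : Equiv.Perm n) (a b a' b' : n) :
    MM φ₁ φ₂ χ₁ χ₂ (π a) (π b) (π a') (π b') = MM φ₁ φ₂ χ₁ χ₂ a b a' b' := by
  have hmem : (Matrix.of fun a b => if π a = b then (1 : ℂ) else 0) ∈ Matrix.unitaryGroup n ℂ := by
    rw [Matrix.mem_unitaryGroup_iff]
    ext i j
    simp only [Matrix.mul_apply, Matrix.star_apply, Matrix.of_apply, Matrix.one_apply]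
    simp only [RCLike.star_def, apply_ite conj, map_one, map_zero, ite_mul, one_mul, zero_mul,
      Finset.sum_ite_eq, Finset.mem_univ, if_true]
    by_cases h : i = j
    · simp [h]
    · have h' : ¬ j = i := fun h' => h h'.symm
      simp [h, h']
  have h := shift (⟨_, hmem⟩ : UU n) (mm φ₁ φ₂ χ₁ χ₂ a b a' b')
  have hc : ∀ (φ : n → ℂ) (a : n) (V : UU n), cv φ a ((⟨_, hmem⟩ : UU n) * V) = cv φ (π a) V := by
    intro φ a V
    rw [cv_mul]
    simp
  have h2 : ∀ V, mm φ₁ φ₂ χ₁ χ₂ a b a' b' ((⟨_, hmem⟩ : UU n) * V) =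
      mm φ₁ φ₂ χ₁ χ₂ (π a) (π b) (π a') (π b') V := by
    intro V
    simp only [mm, hc]
  simp only [h2] at h
  exact h

lemma integral_four {f₁ f₂ f₃ f₄ : UU n → ℂ} (h₁ : Integrable f₁ (haarU n))
    (h₂ : Integrable f₂ (haarU n)) (h₃ : Integrable f₃ (haarU n)) (h₄ : Integrable f₄ (haarU n))
    (c₁ c₂ c₃ c₄ : ℂ) :
    ∫ V, (c₁ * f₁ V + c₂ * f₂ V + c₃ * f₃ V + c₄ * f₄ V) ∂(haarU n) =
      c₁ * ∫ V, f₁ V ∂(haarU n) + c₂ * ∫ V, f₂ V ∂(haarU n) + c₃ * ∫ V, f₃ V ∂(haarU n) +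
        c₄ * ∫ V, f₄ V ∂(haarU n) := by
  have g₁ := h₁.const_mul c₁
  have g₂ := h₂.const_mul c₂
  have g₃ := h₃.const_mul c₃
  have g₄ := h₄.const_mul c₄
  rw [integral_add ?_ g₄, integral_add ?_ g₃, integral_add g₁ g₂]
  · simp only [integral_const_mul]
  · exact g₁.add g₂
  · exact (g₁.add g₂).add g₃

lemma MM_rot (a b : n) (hab : a ≠ b) :
    MM φ₁ φ₂ χ₁ χ₂ a a a a = MM φ₁ φ₂ χ₁ χ₂ a b a b + MM φ₁ φ₂ χ₁ χ₂ b a a b := by
  classical
  set w : n → ℂ := fun x => if x = a then 1 else if x = b then 2 else 0 with hw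
  have hwa : w a = 1 := by simp [hw]
  have hwb : w b = 2 := by simp [hw, hab.symm]
  have hdot : ∀ v : n → ℂ, w ⬝ᵥ v = v a + 2 * v b := by
    intro v
    simp only [dotProduct, hw]
    rw [Finset.sum_eq_add (a := a) (b := b) hab]
    · simp [hab.symm]
    · intro c _ hc; simp [hc.1, hc.2]
    · simp
    · simp
  have hww : w ⬝ᵥ w = 5 := by
    rw [hdot, hwa, hwb]; norm_num
  have hws : star w = w := by
    ext x
    simp only [hw, Pi.star_apply]
    split_ifs <;> simp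
  set R : Matrix n n ℂ := 1 - (2 / 5 : ℂ) • Matrix.vecMulVec w w with hR
  have hRs : star R = R := by
    simp only [hR, star_sub, star_one, star_smul, Matrix.star_eq_conjTranspose,
      Matrix.conjTranspose_vecMulVec, hws]
    congr 2
    simp
  have hRR : R * R = 1 := by
    have h1 : Matrix.vecMulVec w w * Matrix.vecMulVec w w = (5 : ℂ) • Matrix.vecMulVec w w := by
      rw [Matrix.vecMulVec_mul_vecMulVec, hww]
      ext i j
      simp [Matrix.vecMulVec_apply]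
      try ring
    simp only [hR, Matrix.sub_mul, Matrix.mul_sub, Matrix.one_mul, Matrix.mul_one,
      Matrix.smul_mul, Matrix.mul_smul, h1]
    ext i j
    simp [Matrix.vecMulVec_apply]
    ring
  have hmem : R ∈ Matrix.unitaryGroup n ℂ := by
    rw [Matrix.mem_unitaryGroup_iff, hRs, hRR]
  set W : UU n := ⟨R, hmem⟩ with hWdef
  have hWW : W * W = 1 := Subtype.ext hRR
  have hc : ∀ (φ : n → ℂ) (x : n) (V : UU n), cv φ x (W * V) =
      cv φ x V - (2 / 5 : ℂ) * (w x * (cv φ a V + 2 * cv φ b V)) := by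
    intro φ x V
    rw [cv_mul]
    have h1 : ∑ c, (W : Matrix n n ℂ) x c * cv φ c V = (R *ᵥ fun c => cv φ c V) x := rfl
    rw [h1, hR, Matrix.sub_mulVec, Matrix.one_mulVec, Matrix.smul_mulVec]
    have h2 : Matrix.vecMulVec w w *ᵥ (fun c => cv φ c V) =
        fun x => w x * (cv φ a V + 2 * cv φ b V) := by
      rw [← hdot (fun c => cv φ c V)]
      ext y
      simp only [Matrix.mulVec, dotProduct, Matrix.vecMulVec_apply, Finset.mul_sum, mul_assoc]
    rw [h2]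
    simp
  have h := shift W (fun V => cv φ₁ a (W * V) * cv φ₂ a (W * V) * conj (cv χ₁ a V) * conj (cv χ₂ b V))
  have hcc : ∀ (φ : n → ℂ) (x : n) (V : UU n), cv φ x (W * (W * V)) = cv φ x V := by
    intro φ x V
    rw [← mul_assoc, hWW, one_mul]
  simp only [hcc] at h
  have e1 : ∀ V : UU n, cv φ₁ a (W * V) * cv φ₂ a (W * V) * conj (cv χ₁ a V) * conj (cv χ₂ b V) =
      (9 / 25 : ℂ) * mm φ₁ φ₂ χ₁ χ₂ a a a b V + (-12 / 25 : ℂ) * mm φ₁ φ₂ χ₁ χ₂ a b a b V
      + (-12 / 25 : ℂ) * mm φ₁ φ₂ χ₁ χ₂ b a a b V + (16 / 25 : ℂ) * mm φ₁ φ₂ χ₁ χ₂ b b a b V := by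
    intro V
    simp only [hc, hwa, mm]
    ring
  have e2 : ∀ V : UU n, cv φ₁ a V * cv φ₂ a V * conj (cv χ₁ a (W * V)) * conj (cv χ₂ b (W * V)) =
      (-12 / 25 : ℂ) * mm φ₁ φ₂ χ₁ χ₂ a a a a V + (-9 / 25 : ℂ) * mm φ₁ φ₂ χ₁ χ₂ a a a b V
      + (16 / 25 : ℂ) * mm φ₁ φ₂ χ₁ χ₂ a a b a V + (12 / 25 : ℂ) * mm φ₁ φ₂ χ₁ χ₂ a a b b V := by
    intro V
    simp only [hc, hwa, hwb, mm, map_sub, map_mul, map_add, map_div₀, map_ofNat, map_one]
    ring
  simp only [e1, e2] at h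
  have hi := integrable_mm φ₁ φ₂ χ₁ χ₂
  rw [integral_four (hi _ _ _ _) (hi _ _ _ _) (hi _ _ _ _) (hi _ _ _ _),
    integral_four (hi _ _ _ _) (hi _ _ _ _) (hi _ _ _ _) (hi _ _ _ _)] at h
  have f : ∀ x y x' y', ∫ V, mm φ₁ φ₂ χ₁ χ₂ x y x' y' V ∂(haarU n) = MM φ₁ φ₂ χ₁ χ₂ x y x' y' :=
    fun _ _ _ _ => rfl
  simp only [f] at h
  have z1 : MM φ₁ φ₂ χ₁ χ₂ a a a b = 0 := MM_zero _ _ _ _ a _ _ _ _ (by simp [cnt, hab.symm])
  have z2 : MM φ₁ φ₂ χ₁ χ₂ a a b a = 0 := MM_zero _ _ _ _ a _ _ _ _ (by simp [cnt, hab.symm])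
  have z3 : MM φ₁ φ₂ χ₁ χ₂ a a b b = 0 := MM_zero _ _ _ _ a _ _ _ _ (by simp [cnt, hab.symm])
  have z4 : MM φ₁ φ₂ χ₁ χ₂ b b a b = 0 := MM_zero _ _ _ _ a _ _ _ _ (by simp [cnt, hab.symm])
  rw [z1, z2, z3, z4] at h
  have h' : (12 / 25 : ℂ) * MM φ₁ φ₂ χ₁ χ₂ a a a a =
      (12 / 25 : ℂ) * (MM φ₁ φ₂ χ₁ χ₂ a b a b + MM φ₁ φ₂ χ₁ χ₂ b a a b) := by
    linear_combination (-1 : ℂ) * h
  exact mul_left_cancel₀ (by norm_num) h'

omit [Fintype n] in
/-- two-transitivity of the symmetric group -/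
lemma exists_perm (a b a₀ b₀ : n) (h : a ≠ b) (h₀ : a₀ ≠ b₀) :
    ∃ π : Equiv.Perm n, π a₀ = a ∧ π b₀ = b := by
  classical
  refine ⟨Equiv.swap (Equiv.swap a₀ a b₀) b * Equiv.swap a₀ a, ?_, ?_⟩
  · simp only [Equiv.Perm.mul_apply, Equiv.swap_apply_left]
    refine Equiv.swap_apply_of_ne_of_ne ?_ h
    intro h1
    have h2 := congrArg (Equiv.swap a₀ a) h1
    rw [Equiv.swap_apply_right, Equiv.swap_apply_self] at h2
    exact h₀ h2
  · simp [Equiv.Perm.mul_apply]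

/-- The second moments of the Haar measure are a combination of the two pairings. -/
theorem exists_MM [Nontrivial n] : ∃ α β : ℂ, ∀ a b a' b', MM φ₁ φ₂ χ₁ χ₂ a b a' b' =
    α * (if a = a' ∧ b = b' then 1 else 0) + β * (if a = b' ∧ b = a' then 1 else 0) := by
  obtain ⟨a₀, b₀, h₀⟩ := exists_pair_ne n
  refine ⟨MM φ₁ φ₂ χ₁ χ₂ a₀ b₀ a₀ b₀, MM φ₁ φ₂ χ₁ χ₂ b₀ a₀ a₀ b₀, fun a b a' b' => ?_⟩
  by_cases hab : a = b
  · subst hab
    by_cases h1 : a' = a
    · by_cases h2 : b' = a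
      · subst h1; subst h2
        simp only [and_self, if_true, mul_one]
        obtain ⟨c, hc⟩ := exists_ne b'
        obtain ⟨π, h3, h4⟩ := exists_perm b' c a₀ b₀ hc.symm h₀
        rw [MM_rot _ _ _ _ b' c hc.symm]
        rw [← h3, ← h4, MM_perm, MM_perm]
      · rw [MM_zero _ _ _ _ a _ _ _ _ (by simp [cnt, h1, h2])]
        have : ¬ a = b' := fun h => h2 h.symm
        simp [this]
    · rw [MM_zero _ _ _ _ a _ _ _ _ (by
        by_cases h2 : b' = a <;> simp [cnt, h1, h2])]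
      have : ¬ a = a' := fun h => h1 h.symm
      simp [this]
  · obtain ⟨π, h3, h4⟩ := exists_perm a b a₀ b₀ hab h₀
    by_cases h1 : a = a' ∧ b = b'
    · obtain ⟨rfl, rfl⟩ := h1
      have : ¬ (a = b ∧ b = a) := fun h => hab h.1
      simp only [and_self, if_true, this, if_false, mul_one, mul_zero, add_zero]
      rw [← h3, ← h4, MM_perm]
    · by_cases h2 : a = b' ∧ b = a'
      · obtain ⟨rfl, rfl⟩ := h2
        have : ¬ (a = b ∧ b = a) := fun h => hab h.1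
        simp only [and_self, if_true, this, if_false, mul_one, mul_zero, zero_add]
        obtain ⟨π', h5, h6⟩ := exists_perm b a a₀ b₀ (Ne.symm hab) h₀
        rw [← h5, ← h6, MM_perm]
      · rw [if_neg h1, if_neg h2, mul_zero, mul_zero, add_zero]
        by_contra hne
        have hcnt : ∀ c, cnt c a b = cnt c a' b' := by
          intro c
          by_contra hc
          exact hne (MM_zero _ _ _ _ c _ _ _ _ hc)
        have ha := hcnt a
        have hb := hcnt b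
        have hba : ¬ b = a := fun h => hab h.symm
        simp only [cnt, if_true, hab, hba, if_false] at ha hb
        by_cases p1 : a' = a <;> by_cases p2 : b' = a <;> by_cases p3 : a' = b <;>
          by_cases p4 : b' = b <;> simp_all

/-- the inner product `∑ φ_a conj(χ_a)` -/
noncomputable def ip (φ χ : n → ℂ) : ℂ := ∑ a, φ a * conj (χ a)

lemma ip_cv (φ χ : n → ℂ) (V : UU n) : ∑ a, cv φ a V * conj (cv χ a V) = ip φ χ := by
  have h : (V : Matrix n n ℂ)ᴴ * (V : Matrix n n ℂ) = 1 := by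
    have := (Matrix.mem_unitaryGroup_iff').1 V.2
    rwa [Matrix.star_eq_conjTranspose] at this
  have h1 : ∑ a, cv φ a V * conj (cv χ a V) =
      star ((V : Matrix n n ℂ) *ᵥ χ) ⬝ᵥ ((V : Matrix n n ℂ) *ᵥ φ) := by
    simp only [dotProduct, cv, Pi.star_apply, RCLike.star_def]
    exact Finset.sum_congr rfl fun a _ => mul_comm _ _
  rw [h1, Matrix.star_mulVec, Matrix.dotProduct_mulVec, Matrix.vecMul_vecMul, h,
    Matrix.vecMul_one]
  simp only [dotProduct, ip, Pi.star_apply, RCLike.star_def]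
  exact Finset.sum_congr rfl fun a _ => mul_comm _ _

lemma sum_MM_diag : ∑ a, ∑ b, MM φ₁ φ₂ χ₁ χ₂ a b a b = ip φ₁ χ₁ * ip φ₂ χ₂ := by
  have h : ∀ V : UU n, ∑ a, ∑ b, mm φ₁ φ₂ χ₁ χ₂ a b a b V = ip φ₁ χ₁ * ip φ₂ χ₂ := by
    intro V
    rw [← ip_cv φ₁ χ₁ V, ← ip_cv φ₂ χ₂ V, Finset.sum_mul_sum]
    refine Finset.sum_congr rfl fun a _ => Finset.sum_congr rfl fun b _ => ?_
    simp only [mm]; ring
  unfold MM
  simp only [← integral_finsetSum _ fun b _ => integrable_mm φ₁ φ₂ χ₁ χ₂ _ b _ b]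
  rw [← integral_finsetSum _ fun a _ => integrable_finsetSum _
    fun b _ => integrable_mm φ₁ φ₂ χ₁ χ₂ a b a b]
  simp [h]

lemma sum_MM_swap : ∑ a, ∑ b, MM φ₁ φ₂ χ₁ χ₂ a b b a = ip φ₁ χ₂ * ip φ₂ χ₁ := by
  have h : ∀ V : UU n, ∑ a, ∑ b, mm φ₁ φ₂ χ₁ χ₂ a b b a V = ip φ₁ χ₂ * ip φ₂ χ₁ := by
    intro V
    rw [← ip_cv φ₁ χ₂ V, ← ip_cv φ₂ χ₁ V, Finset.sum_mul_sum]
    refine Finset.sum_congr rfl fun a _ => Finset.sum_congr rfl fun b _ => ?_
    simp only [mm]; ring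
  unfold MM
  simp only [← integral_finsetSum _ fun b _ => integrable_mm φ₁ φ₂ χ₁ χ₂ _ b b _]
  rw [← integral_finsetSum _ fun a _ => integrable_finsetSum _
    fun b _ => integrable_mm φ₁ φ₂ χ₁ χ₂ a b b a]
  simp [h]

/-- The second moments of the Haar measure of `U(n)`. -/
theorem MM_eq [Nontrivial n] (a b a' b' : n) : MM φ₁ φ₂ χ₁ χ₂ a b a' b' =
    ((Fintype.card n : ℂ) * (ip φ₁ χ₁ * ip φ₂ χ₂) - ip φ₁ χ₂ * ip φ₂ χ₁) /
      ((Fintype.card n : ℂ) * ((Fintype.card n : ℂ) ^ 2 - 1)) *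
        (if a = a' ∧ b = b' then 1 else 0) +
    ((Fintype.card n : ℂ) * (ip φ₁ χ₂ * ip φ₂ χ₁) - ip φ₁ χ₁ * ip φ₂ χ₂) /
      ((Fintype.card n : ℂ) * ((Fintype.card n : ℂ) ^ 2 - 1)) *
        (if a = b' ∧ b = a' then 1 else 0) := by
  obtain ⟨α, β, h⟩ := exists_MM φ₁ φ₂ χ₁ χ₂
  have h1 := sum_MM_diag φ₁ φ₂ χ₁ χ₂
  have h2 := sum_MM_swap φ₁ φ₂ χ₁ χ₂
  set D : ℂ := (Fintype.card n : ℂ) with hD
  have e1 : ∑ a : n, ∑ b : n, MM φ₁ φ₂ χ₁ χ₂ a b a b = α * D ^ 2 + β * D := by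
    simp only [h, and_self, if_true, mul_one, Finset.sum_add_distrib, Finset.sum_const,
      Finset.card_univ]
    have : ∀ a : n, ∑ b : n, β * (if a = b ∧ b = a then (1 : ℂ) else 0) = β := by
      intro a
      have : ∀ b : n, β * (if a = b ∧ b = a then (1 : ℂ) else 0) = if a = b then β else 0 := by
        intro b
        by_cases hab : a = b
        · simp [hab]
        · simp [hab]
      simp only [this, Finset.sum_ite_eq, Finset.mem_univ, if_true]
    simp only [this, Finset.sum_const, Finset.card_univ, nsmul_eq_mul, ← hD]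
    ring
  have e2 : ∑ a : n, ∑ b : n, MM φ₁ φ₂ χ₁ χ₂ a b b a = α * D + β * D ^ 2 := by
    simp only [h, and_self, if_true, mul_one, Finset.sum_add_distrib, Finset.sum_const,
      Finset.card_univ]
    have : ∀ a : n, ∑ b : n, α * (if a = b ∧ b = a then (1 : ℂ) else 0) = α := by
      intro a
      have : ∀ b : n, α * (if a = b ∧ b = a then (1 : ℂ) else 0) = if a = b then α else 0 := by
        intro b
        by_cases hab : a = b
        · simp [hab]
        · simp [hab]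
      simp only [this, Finset.sum_ite_eq, Finset.mem_univ, if_true]
    simp only [this, Finset.sum_const, Finset.card_univ, nsmul_eq_mul, ← hD]
    ring
  rw [e1] at h1
  rw [e2] at h2
  have hD1 : 1 < Fintype.card n := Fintype.one_lt_card
  have hD0 : D ≠ 0 := by
    rw [hD]; exact_mod_cast (by omega : Fintype.card n ≠ 0)
  have hD2 : D ^ 2 - 1 ≠ 0 := by
    intro h0
    have : ((Fintype.card n : ℂ)) ^ 2 = 1 := by linear_combination h0
    have h3 : (Fintype.card n) ^ 2 = 1 := by exact_mod_cast this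
    nlinarith
  have hα : α = (D * (ip φ₁ χ₁ * ip φ₂ χ₂) - ip φ₁ χ₂ * ip φ₂ χ₁) / (D * (D ^ 2 - 1)) := by
    rw [eq_div_iff (mul_ne_zero hD0 hD2), ← h1, ← h2]; ring
  have hβ : β = (D * (ip φ₁ χ₂ * ip φ₂ χ₁) - ip φ₁ χ₁ * ip φ₂ χ₂) / (D * (D ^ 2 - 1)) := by
    rw [eq_div_iff (mul_ne_zero hD0 hD2), ← h1, ← h2]; ring
  rw [h, ← hα, ← hβ]

end Second

end Pool.Agent.V11219.MomentOp
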