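import Pool.Agent.V11219.MomentOp2

open Matrix MeasureTheory
open scoped BigOperators ComplexConjugate

namespace Pool.Agent.V11219.MomentOp

lemma tensorPow_single {d t : ℕ} (Φ : Mat d →ₗ[ℂ] Mat d) (i j k l : Fin t → Fin d) :
    tensorPow t Φ (Matrix.single i j 1) k l =
      ∏ s, Φ (Matrix.single (i s) (j s) 1) (k s) (l s) := by
  simp only [tensorPow, LinearMap.coe_mk, AddHom.coe_mk, Matrix.of_apply]
  rw [Finset.sum_eq_single i, Finset.sum_eq_single j]
  · simp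
  · intro j' _ hj'
    simp [hj'.symm]
  · simp
  · intro i' _ hi'
    simp [hi'.symm]
  · simp

variable {d dE : ℕ}

/-- the vector `e_i ⊗ ψ` -/
noncomputable def vec (ψ : Fin dE → ℂ) (i : Fin d) : Fin d × Fin dE → ℂ :=
  fun p => if p.1 = i then ψ p.2 else 0

lemma dilated_single (ψ : Fin dE → ℂ) (V : UU (Fin d × Fin dE)) (i j k l : Fin d) :
    dilated (d := d) ψ (V : Matrix (Fin d × Fin dE) (Fin d × Fin dE) ℂ)
      (Matrix.single i j 1) k l =
      ∑ x : Fin dE, cv (vec ψ i) (k, x) V * conj (cv (vec ψ j) (l, x) V) := by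
  have h : Matrix.kronecker (Matrix.single i j (1 : ℂ)) (Matrix.vecMulVec ψ (star ψ)) =
      Matrix.vecMulVec (vec ψ i) (star (vec ψ j)) := by
    ext ⟨a, x⟩ ⟨b, y⟩
    simp only [Matrix.kronecker, Matrix.kroneckerMap_apply, Matrix.vecMulVec_apply, vec,
      Pi.star_apply, Matrix.single_apply]
    by_cases h1 : i = a <;> by_cases h2 : j = b
    · simp [h1, h2]
    · have h2' : ¬ b = j := fun h => h2 h.symm
      simp [h2, h2']
    · have h1' : ¬ a = i := fun h => h1 h.symm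
      simp [h1, h1']
    · have h1' : ¬ a = i := fun h => h1 h.symm
      simp [h1, h1']
  simp only [dilated, LinearMap.coe_mk, AddHom.coe_mk, Matrix.of_apply, h]
  refine Finset.sum_congr rfl fun x _ => ?_
  rw [Matrix.mul_vecMulVec, Matrix.vecMulVec_mul, Matrix.vecMulVec_apply,
    ← Matrix.star_mulVec]
  rfl

lemma ip_vec (ψ : Fin dE → ℂ) (hψ : ∑ x, ‖ψ x‖ ^ 2 = 1) (i j : Fin d) :
    ip (vec ψ i) (vec ψ j) = if i = j then 1 else 0 := by
  unfold ip
  rw [Fintype.sum_prod_type]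
  have h1 : ∀ x, ψ x * conj (ψ x) = ((‖ψ x‖ ^ 2 : ℝ) : ℂ) := by
    intro x
    rw [Complex.mul_conj, Complex.normSq_eq_norm_sq]
  by_cases hij : i = j
  · subst hij
    rw [Finset.sum_eq_single i]
    · simp only [vec, if_true, h1]
      rw [← Complex.ofReal_sum, hψ]
      simp
    · intro a _ ha
      simp [vec, ha]
    · simp
  · rw [if_neg hij]
    refine Finset.sum_eq_zero fun a _ => Finset.sum_eq_zero fun x _ => ?_
    by_cases h : a = i
    · have : ¬ a = j := fun h' => hij (h.symm.trans h')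
      simp [vec, this]
    · simp [vec, h]

/-- the entries of the identity matrix on `M_{d^2}` -/
noncomputable def If (i j : Fin 2 → Fin d) : ℂ := if i 0 = j 0 ∧ i 1 = j 1 then 1 else 0

/-- the entries of the flip matrix on `M_{d^2}` -/
noncomputable def Ff (i j : Fin 2 → Fin d) : ℂ := if i 0 = j 1 ∧ i 1 = j 0 then 1 else 0

/-- The matrix entries of the second moment operator of `cHaar(d, d_E)`. -/
theorem coeff (hd : 2 ≤ d) (hE : 1 ≤ dE) (ψ : Fin dE → ℂ) (hψ : ∑ x, ‖ψ x‖ ^ 2 = 1)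
    (i j k l : Fin 2 → Fin d) :
    ∫ V : UU (Fin d × Fin dE), tensorPow 2 (dilated (d := d) ψ
      (V : Matrix (Fin d × Fin dE) (Fin d × Fin dE) ℂ)) (Matrix.single i j 1) k l
        ∂(haarU (Fin d × Fin dE)) =
    (dE : ℂ) ^ 2 * (((d * dE : ℂ) * If i j - Ff i j) / ((d * dE : ℂ) * ((d * dE : ℂ) ^ 2 - 1))) *
      If k l +
    (dE : ℂ) * (((d * dE : ℂ) * Ff i j - If i j) / ((d * dE : ℂ) * ((d * dE : ℂ) ^ 2 - 1))) *
      Ff k l := by
  have : Nonempty (Fin dE) := ⟨⟨0, hE⟩⟩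
  have : Nontrivial (Fin d) := Fin.nontrivial_iff_two_le.2 hd
  have h1 : ∀ V : UU (Fin d × Fin dE), tensorPow 2 (dilated (d := d) ψ
      (V : Matrix (Fin d × Fin dE) (Fin d × Fin dE) ℂ)) (Matrix.single i j 1) k l =
      ∑ x, ∑ y, mm (vec ψ (i 0)) (vec ψ (i 1)) (vec ψ (j 0)) (vec ψ (j 1))
        (k 0, x) (k 1, y) (l 0, x) (l 1, y) V := by
    intro V
    rw [tensorPow_single, Fin.prod_univ_two, dilated_single, dilated_single, Finset.sum_mul_sum]
    refine Finset.sum_congr rfl fun x _ => Finset.sum_congr rfl fun y _ => ?_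
    simp only [mm]; ring
  simp only [h1]
  rw [integral_finsetSum _ fun x _ => integrable_finsetSum _ fun y _ => integrable_mm _ _ _ _ _ _ _ _]
  simp only [integral_finsetSum _ fun y _ => integrable_mm (n := Fin d × Fin dE) _ _ _ _ _ _ _ _]
  have h2 : ∀ x y, ∫ V, mm (vec ψ (i 0)) (vec ψ (i 1)) (vec ψ (j 0)) (vec ψ (j 1))
        (k 0, x) (k 1, y) (l 0, x) (l 1, y) V ∂(haarU (Fin d × Fin dE)) =
      (((d * dE : ℂ) * If i j - Ff i j) / ((d * dE : ℂ) * ((d * dE : ℂ) ^ 2 - 1))) *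
        If k l +
      (((d * dE : ℂ) * Ff i j - If i j) / ((d * dE : ℂ) * ((d * dE : ℂ) ^ 2 - 1))) *
        (Ff k l * if x = y then 1 else 0) := by
    intro x y
    have := MM_eq (n := Fin d × Fin dE) (vec ψ (i 0)) (vec ψ (i 1)) (vec ψ (j 0)) (vec ψ (j 1))
      (k 0, x) (k 1, y) (l 0, x) (l 1, y)
    unfold MM at this
    rw [this]
    have hcard : (Fintype.card (Fin d × Fin dE) : ℂ) = d * dE := by
      simp
    have e1 : ip (vec ψ (i 0)) (vec ψ (j 0)) * ip (vec ψ (i 1)) (vec ψ (j 1)) = If i j := by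
      rw [ip_vec ψ hψ, ip_vec ψ hψ, If]
      by_cases h1 : i 0 = j 0 <;> by_cases h2 : i 1 = j 1 <;> simp [h1, h2]
    have e2 : ip (vec ψ (i 0)) (vec ψ (j 1)) * ip (vec ψ (i 1)) (vec ψ (j 0)) = Ff i j := by
      rw [ip_vec ψ hψ, ip_vec ψ hψ, Ff]
      by_cases h1 : i 0 = j 1 <;> by_cases h2 : i 1 = j 0 <;> simp [h1, h2]
    rw [hcard, e1, e2]
    congr 1
    · congr 1
      simp only [If, Prod.mk.injEq, and_true]
    · congr 1
      simp only [Ff, Prod.mk.injEq]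
      by_cases h1 : k 0 = l 1 <;> by_cases h2 : k 1 = l 0 <;> by_cases h3 : x = y <;>
        simp [h1, h2, h3, eq_comm]
  simp only [h2, Finset.sum_add_distrib, ← Finset.mul_sum, Finset.sum_ite_eq, Finset.mem_univ,
    if_true, Finset.sum_const, Finset.card_univ, Fintype.card_fin, nsmul_eq_mul]
  ring

/-- The second moment operator of `cHaar(d, d_E)`. -/
noncomputable def TT (d dE : ℕ) (ψ : Fin dE → ℂ) : MatT d 2 →ₗ[ℂ] MatT d 2 :=
  momentOp (haarU (Fin d × Fin dE)) 2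
    (fun V => dilated (d := d) ψ (V : Matrix (Fin d × Fin dE) (Fin d × Fin dE) ℂ))

noncomputable def tau (X : MatT d 2) : ℂ := ∑ i, ∑ j, X i j * If i j
noncomputable def sig (X : MatT d 2) : ℂ := ∑ i, ∑ j, X i j * Ff i j

/-- the matrix `a I + b F` -/
noncomputable def mk (d : ℕ) (a b : ℂ) : MatT d 2 := Matrix.of fun k l => a * If k l + b * Ff k l

lemma TT_apply (hd : 2 ≤ d) (hE : 1 ≤ dE) (ψ : Fin dE → ℂ) (hψ : ∑ x, ‖ψ x‖ ^ 2 = 1)
    (X : MatT d 2) : TT d dE ψ X =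
      mk d ((dE : ℂ) ^ 2 * (((d * dE : ℂ) * tau X - sig X) /
          ((d * dE : ℂ) * ((d * dE : ℂ) ^ 2 - 1))))
        ((dE : ℂ) * (((d * dE : ℂ) * sig X - tau X) /
          ((d * dE : ℂ) * ((d * dE : ℂ) ^ 2 - 1)))) := by
  ext k l
  simp only [TT, momentOp, LinearMap.coe_mk, AddHom.coe_mk, Matrix.of_apply,
    coeff hd hE ψ hψ, mk, tau, sig]
  simp only [Finset.mul_sum, Finset.sum_div, Finset.sum_mul, ← Finset.sum_sub_distrib,
    ← Finset.sum_add_distrib]
  refine Finset.sum_congr rfl fun i _ => Finset.sum_congr rfl fun j _ => ?_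
  ring

lemma sum_fun2 {M : Type*} [AddCommMonoid M] (f : (Fin 2 → Fin d) → M) :
    ∑ i, f i = ∑ a, ∑ b, f ![a, b] := by
  rw [← Fintype.sum_prod_type' (f := fun a b => f ![a, b])]
  refine Fintype.sum_equiv (finTwoArrowEquiv (Fin d)) _ _ fun i => ?_
  congr 1
  ext x
  fin_cases x <;> rfl

lemma sum_II : ∑ i : Fin 2 → Fin d, ∑ j : Fin 2 → Fin d, If i j * If i j = (d : ℂ) ^ 2 := by
  simp only [sum_fun2, If]
  simp only [Matrix.cons_val_zero, Matrix.cons_val_one, ite_and, mul_ite, ite_mul, one_mul,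
    mul_zero, zero_mul]
  simp [pow_two]

lemma sum_IF : ∑ i : Fin 2 → Fin d, ∑ j : Fin 2 → Fin d, If i j * Ff i j = (d : ℂ) := by
  simp only [sum_fun2, If, Ff]
  simp only [Matrix.cons_val_zero, Matrix.cons_val_one, ite_and, mul_ite, ite_mul, one_mul,
    mul_zero, zero_mul]
  simp [Finset.sum_ite_eq]

lemma sum_FF : ∑ i : Fin 2 → Fin d, ∑ j : Fin 2 → Fin d, Ff i j * Ff i j = (d : ℂ) ^ 2 := by
  simp only [sum_fun2, Ff]
  simp only [Matrix.cons_val_zero, Matrix.cons_val_one, ite_and, mul_ite, ite_mul, one_mul,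
    mul_zero, zero_mul]
  simp [pow_two]

end Pool.Agent.V11219.MomentOp
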