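import Pool.Agent.V11219.MomentOp3

open Matrix MeasureTheory
open scoped BigOperators ComplexConjugate

namespace Pool.Agent.V11219.MomentOp

variable {d dE : ℕ}

lemma sum_mk_mul (a b a' b' : ℂ) :
    ∑ i : Fin 2 → Fin d, ∑ j : Fin 2 → Fin d, (a * If i j + b * Ff i j) * (a' * If i j + b' * Ff i j)
      = (a * a' + b * b') * (d : ℂ) ^ 2 + (a * b' + b * a') * (d : ℂ) := by
  rw [← sum_II, ← sum_IF]
  have h2 := sum_FF (d := d)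
  have h3 := sum_II (d := d)
  calc _ = ∑ i : Fin 2 → Fin d, ∑ j : Fin 2 → Fin d, ((a * a') * (If i j * If i j) +
        (a * b' + b * a') * (If i j * Ff i j) + (b * b') * (Ff i j * Ff i j)) := by
        refine Finset.sum_congr rfl fun i _ => Finset.sum_congr rfl fun j _ => ?_
        ring
    _ = _ := by
        simp only [Finset.sum_add_distrib, ← Finset.mul_sum, h2, h3]
        ring

lemma If_sq (i j : Fin 2 → Fin d) : If i j * If i j = If i j := by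
  unfold If; split_ifs <;> simp

lemma Ff_sq (i j : Fin 2 → Fin d) : Ff i j * Ff i j = Ff i j := by
  unfold Ff; split_ifs <;> simp

lemma tau_mk (a b : ℂ) : tau (mk d a b) = a * (d : ℂ) ^ 2 + b * d := by
  have h := sum_mk_mul (d := d) a b 1 0
  simp only [one_mul, zero_mul, add_zero, mul_one, mul_zero] at h
  unfold tau mk
  simp only [Matrix.of_apply]
  rw [h]; ring

lemma sig_mk (a b : ℂ) : sig (mk d a b) = a * d + b * (d : ℂ) ^ 2 := by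
  have h := sum_mk_mul (d := d) a b 0 1
  simp only [one_mul, zero_mul, mul_one, mul_zero, zero_add] at h
  unfold sig mk
  simp only [Matrix.of_apply]
  rw [h]; ring

/-- the second eigenvalue -/
noncomputable def lam (d dE : ℕ) : ℝ := dE * (d ^ 2 - 1) / ((d * dE) ^ 2 - 1)

/-- the constant `C` -/
noncomputable def CC (d dE : ℕ) : ℝ := (d ^ 2 - 1) / (d ^ 2 * dE + 1) ^ 2

section algebra

variable (x y t s q : ℂ)

lemma alg1 (hx : x ≠ 0) (hy : y ≠ 0) (hu : x ^ 2 * y + 1 ≠ 0) (hx2 : x ^ 2 - 1 ≠ 0)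
    (hD2 : x ^ 2 * y ^ 2 - 1 ≠ 0) :
    y ^ 2 * ((x * y * t - s) / (x * y * ((x * y) ^ 2 - 1))) =
    x * y * t / (x * (x ^ 2 * y + 1)) + (y * (x ^ 2 - 1) / ((x * y) ^ 2 - 1)) *
      (((x * y + x) * t - (x ^ 2 * y + 1) * s) / ((x ^ 2 * y + 1) * x * (x ^ 2 - 1))) := by
  have hD3 : (x * y) ^ 2 - 1 ≠ 0 := by rwa [mul_pow]
  obtain ⟨E, hE⟩ : ∃ E, E = (x * y) ^ 2 - 1 := ⟨_, rfl⟩
  obtain ⟨u, hu'⟩ : ∃ u, u = x ^ 2 * y + 1 := ⟨_, rfl⟩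
  rw [← hE] at hD3 ⊢
  rw [← hu'] at hu ⊢
  field_simp
  rw [hE, hu']
  ring

lemma alg2 (hx : x ≠ 0) (hy : y ≠ 0) (hu : x ^ 2 * y + 1 ≠ 0) (hx2 : x ^ 2 - 1 ≠ 0)
    (hD2 : x ^ 2 * y ^ 2 - 1 ≠ 0) :
    y * ((x * y * s - t) / (x * y * ((x * y) ^ 2 - 1))) =
    t / (x * (x ^ 2 * y + 1)) - x * ((y * (x ^ 2 - 1) / ((x * y) ^ 2 - 1)) *
      (((x * y + x) * t - (x ^ 2 * y + 1) * s) / ((x ^ 2 * y + 1) * x * (x ^ 2 - 1)))) := by
  have hD3 : (x * y) ^ 2 - 1 ≠ 0 := by rwa [mul_pow]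
  obtain ⟨E, hE⟩ : ∃ E, E = (x * y) ^ 2 - 1 := ⟨_, rfl⟩
  obtain ⟨u, hu'⟩ : ∃ u, u = x ^ 2 * y + 1 := ⟨_, rfl⟩
  rw [← hE] at hD3 ⊢
  rw [← hu'] at hu ⊢
  field_simp
  rw [hE, hu']
  ring

lemma alg3 (hx : x ≠ 0) (hu : x ^ 2 * y + 1 ≠ 0) (h : ℂ) :
    (x * y * t / (x * (x ^ 2 * y + 1)) + h) * x ^ 2 +
      (t / (x * (x ^ 2 * y + 1)) - x * h) * x = t := by
  field_simp
  ring

lemma alg4 (hx : x ≠ 0) (hu : x ^ 2 * y + 1 ≠ 0) (h : ℂ) :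
    (x * y * t / (x * (x ^ 2 * y + 1)) + h) * x +
      (t / (x * (x ^ 2 * y + 1)) - x * h) * x ^ 2 =
      (x * y + x) * t / (x ^ 2 * y + 1) - h * x * (x ^ 2 - 1) := by
  field_simp
  ring

lemma alg5 (hx : x ≠ 0) (hu : x ^ 2 * y + 1 ≠ 0) (hx2 : x ^ 2 - 1 ≠ 0) (h : ℂ) :
    ((x * y + x) * t - (x ^ 2 * y + 1) * ((x * y + x) * t / (x ^ 2 * y + 1)
      - h * x * (x ^ 2 - 1))) / ((x ^ 2 * y + 1) * x * (x ^ 2 - 1)) = h := by
  field_simp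
  ring

end algebra

theorem pow_apply (hd : 2 ≤ d) (hE : 1 ≤ dE) (ψ : Fin dE → ℂ) (hψ : ∑ x, ‖ψ x‖ ^ 2 = 1)
    (k : ℕ) (X : MatT d 2) : (TT d dE ψ ^ (k + 1)) X =
      mk d ((d * dE : ℂ) * tau X / (d * (d ^ 2 * dE + 1)) + (lam d dE : ℂ) ^ (k + 1) *
          (((d * dE + d : ℂ) * tau X - (d ^ 2 * dE + 1) * sig X) /
            ((d ^ 2 * dE + 1) * d * (d ^ 2 - 1))))
        (tau X / (d * (d ^ 2 * dE + 1)) - d * ((lam d dE : ℂ) ^ (k + 1) *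
          (((d * dE + d : ℂ) * tau X - (d ^ 2 * dE + 1) * sig X) /
            ((d ^ 2 * dE + 1) * d * (d ^ 2 - 1))))) := by
  have hd0 : (d : ℂ) ≠ 0 := by exact_mod_cast (by omega : d ≠ 0)
  have hE0 : (dE : ℂ) ≠ 0 := by exact_mod_cast (by omega : dE ≠ 0)
  have hu : ((d : ℂ) ^ 2 * dE + 1 : ℂ) ≠ 0 := by
    exact_mod_cast (by positivity : (d ^ 2 * dE + 1 : ℕ) ≠ 0)
  have hd2 : (d : ℂ) ^ 2 - 1 ≠ 0 := by
    intro h0
    have h1 : ((d : ℂ)) ^ 2 = 1 := by linear_combination h0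
    have h3 : d ^ 2 = 1 := by exact_mod_cast h1
    nlinarith
  have hD2 : (d : ℂ) ^ 2 * (dE : ℂ) ^ 2 - 1 ≠ 0 := by
    intro h0
    have h1 : ((d : ℂ) * dE) ^ 2 = 1 := by linear_combination h0
    have h3 : (d * dE) ^ 2 = 1 := by exact_mod_cast h1
    have : 2 ≤ d * dE := by nlinarith
    nlinarith
  have hlam : (lam d dE : ℂ) = dE * ((d : ℂ) ^ 2 - 1) / (((d : ℂ) * dE) ^ 2 - 1) := by
    unfold lam; push_cast; rfl
  have base : ∀ X : MatT d 2, TT d dE ψ X =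
      mk d ((d * dE : ℂ) * tau X / (d * (d ^ 2 * dE + 1)) + (lam d dE : ℂ) *
          (((d * dE + d : ℂ) * tau X - (d ^ 2 * dE + 1) * sig X) /
            ((d ^ 2 * dE + 1) * d * (d ^ 2 - 1))))
        (tau X / (d * (d ^ 2 * dE + 1)) - d * ((lam d dE : ℂ) *
          (((d * dE + d : ℂ) * tau X - (d ^ 2 * dE + 1) * sig X) /
            ((d ^ 2 * dE + 1) * d * (d ^ 2 - 1))))) := by
    intro X
    rw [TT_apply hd hE ψ hψ, hlam]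
    rw [alg1 _ _ _ _ hd0 hE0 hu hd2 hD2, alg2 _ _ _ _ hd0 hE0 hu hd2 hD2]
  induction k with
  | zero =>
    rw [zero_add, pow_one, pow_one, base]
  | succ k ih =>
    rw [pow_succ', Module.End.mul_apply, ih, base, tau_mk, sig_mk]
    rw [alg3 _ _ _ hd0 hu, alg4 _ _ _ hd0 hu, alg5 _ _ _ hd0 hu hd2,
      pow_succ' (lam d dE : ℂ) (k + 1)]
    simp only [mul_assoc]

lemma tau_single (i j : Fin 2 → Fin d) : tau (Matrix.single i j (1 : ℂ)) = If i j := by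
  unfold tau
  rw [Finset.sum_eq_single i, Finset.sum_eq_single j]
  · simp
  · intro j' _ hj'
    simp [hj'.symm]
  · simp
  · intro i' _ hi'
    simp [hi'.symm]
  · simp

lemma sig_single (i j : Fin 2 → Fin d) : sig (Matrix.single i j (1 : ℂ)) = Ff i j := by
  unfold sig
  rw [Finset.sum_eq_single i, Finset.sum_eq_single j]
  · simp
  · intro j' _ hj'
    simp [hj'.symm]
  · simp
  · intro i' _ hi'
    simp [hi'.symm]
  · simp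

lemma conj_If (i j : Fin 2 → Fin d) : conj (If i j) = If i j := by
  unfold If; split_ifs <;> simp

lemma conj_Ff (i j : Fin 2 → Fin d) : conj (Ff i j) = Ff i j := by
  unfold Ff; split_ifs <;> simp

lemma alg6 (x y q : ℂ) (hx : x ≠ 0) (hu : x ^ 2 * y + 1 ≠ 0) (hx2 : x ^ 2 - 1 ≠ 0)
    (a₁ b₁ a₂ b₂ : ℂ)
    (ha₁ : a₁ = x * y / (x * (x ^ 2 * y + 1)) + q * ((x * y + x) / ((x ^ 2 * y + 1) * x * (x ^ 2 - 1))))
    (hb₁ : b₁ = - (q / (x * (x ^ 2 - 1))))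
    (ha₂ : a₂ = 1 / (x * (x ^ 2 * y + 1)) - x * (q * ((x * y + x) / ((x ^ 2 * y + 1) * x * (x ^ 2 - 1)))))
    (hb₂ : b₂ = q / (x ^ 2 - 1)) :
    x ^ 2 * (((a₁ * a₁ + b₁ * b₁) * x ^ 2 + (a₁ * b₁ + b₁ * a₁) * x) +
      ((a₂ * a₂ + b₂ * b₂) * x ^ 2 + (a₂ * b₂ + b₂ * a₂) * x)) +
    2 * x * ((a₁ * a₂ + b₁ * b₂) * x ^ 2 + (a₁ * b₂ + b₁ * a₂) * x) =
    1 + q ^ 2 + (x ^ 2 - 1) / (x ^ 2 * y + 1) ^ 2 * (1 - q) ^ 2 := by
  subst ha₁ hb₁ ha₂ hb₂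
  obtain ⟨u, hu'⟩ : ∃ u, u = x ^ 2 * y + 1 := ⟨_, rfl⟩
  obtain ⟨m, hm'⟩ : ∃ m, m = x ^ 2 - 1 := ⟨_, rfl⟩
  rw [← hu'] at hu ⊢
  rw [← hm'] at hx2 ⊢
  field_simp
  rw [hm', hu']
  ring

/-- The closed formula for `N_{2,k}(d, d_E)`. -/
theorem N_two (hd : 2 ≤ d) (hE : 1 ≤ dE) (ψ : Fin dE → ℂ) (hψ : ∑ x, ‖ψ x‖ ^ 2 = 1) (k : ℕ) :
    N 2 (k + 1) d dE ψ = 1 + (lam d dE ^ (k + 1)) ^ 2 + CC d dE * (1 - lam d dE ^ (k + 1)) ^ 2 := by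
  have hd0 : (d : ℂ) ≠ 0 := by exact_mod_cast (by omega : d ≠ 0)
  have hu : ((d : ℂ) ^ 2 * dE + 1 : ℂ) ≠ 0 := by
    exact_mod_cast (by positivity : (d ^ 2 * dE + 1 : ℕ) ≠ 0)
  have hd2 : (d : ℂ) ^ 2 - 1 ≠ 0 := by
    intro h0
    have h1 : ((d : ℂ)) ^ 2 = 1 := by linear_combination h0
    have h3 : d ^ 2 = 1 := by exact_mod_cast h1
    nlinarith
  apply Complex.ofReal_injective
  have hN : N 2 (k + 1) d dE ψ = hsNormSq (TT d dE ψ ^ (k + 1)) := rfl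
  rw [hN]
  set q : ℂ := (lam d dE : ℂ) ^ (k + 1) with hq
  have hqc : conj q = q := by rw [hq, map_pow, Complex.conj_ofReal]
  set a₁ : ℂ := (d : ℂ) * dE / (d * ((d : ℂ) ^ 2 * dE + 1)) + q * (((d : ℂ) * dE + d) /
    (((d : ℂ) ^ 2 * dE + 1) * d * ((d : ℂ) ^ 2 - 1))) with ha₁
  set b₁ : ℂ := - (q / ((d : ℂ) * ((d : ℂ) ^ 2 - 1))) with hb₁
  set a₂ : ℂ := 1 / ((d : ℂ) * ((d : ℂ) ^ 2 * dE + 1)) - d * (q * (((d : ℂ) * dE + d) /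
    (((d : ℂ) ^ 2 * dE + 1) * d * ((d : ℂ) ^ 2 - 1)))) with ha₂
  set b₂ : ℂ := q / ((d : ℂ) ^ 2 - 1) with hb₂
  have hent : ∀ i j k' l' : Fin 2 → Fin d, (TT d dE ψ ^ (k + 1)) (Matrix.single i j 1) k' l' =
      (a₁ * If i j + b₁ * Ff i j) * If k' l' + (a₂ * If i j + b₂ * Ff i j) * Ff k' l' := by
    intro i j k' l'
    rw [pow_apply hd hE ψ hψ, tau_single, sig_single, ← hq]
    simp only [mk, Matrix.of_apply]
    congr 2
    · rw [ha₁, hb₁]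
      field_simp
      ring
    · rw [ha₂, hb₂]
      field_simp
      ring
  have hconj : ∀ i j k' l' : Fin 2 → Fin d,
      conj ((a₁ * If i j + b₁ * Ff i j) * If k' l' + (a₂ * If i j + b₂ * Ff i j) * Ff k' l') =
      (a₁ * If i j + b₁ * Ff i j) * If k' l' + (a₂ * If i j + b₂ * Ff i j) * Ff k' l' := by
    intro i j k' l'
    simp only [map_add, map_mul, conj_If, conj_Ff, ha₁, hb₁, ha₂, hb₂, map_div₀, map_neg, map_sub,
      map_one, hqc, map_pow, Complex.conj_natCast]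
  have hsq : ∀ z : ℂ, conj z = z → (((‖z‖ ^ 2 : ℝ)) : ℂ) = z * z := by
    intro z hz
    conv_rhs => rw [← hz]
    conv_rhs => rw [hz]
    rw [← Complex.normSq_eq_norm_sq, ← Complex.mul_conj, hz]
  unfold hsNormSq
  simp only [hent, Complex.ofReal_sum]
  simp only [hsq _ (hconj _ _ _ _)]
  simp only [sum_mk_mul]
  have e1 : ∀ i j : Fin 2 → Fin d,
      ((a₁ * If i j + b₁ * Ff i j) * (a₁ * If i j + b₁ * Ff i j) +
        (a₂ * If i j + b₂ * Ff i j) * (a₂ * If i j + b₂ * Ff i j)) * (d : ℂ) ^ 2 +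
      ((a₁ * If i j + b₁ * Ff i j) * (a₂ * If i j + b₂ * Ff i j) +
        (a₂ * If i j + b₂ * Ff i j) * (a₁ * If i j + b₁ * Ff i j)) * (d : ℂ) =
      (d : ℂ) ^ 2 * ((a₁ * If i j + b₁ * Ff i j) * (a₁ * If i j + b₁ * Ff i j) +
        (a₂ * If i j + b₂ * Ff i j) * (a₂ * If i j + b₂ * Ff i j)) +
      2 * (d : ℂ) * ((a₁ * If i j + b₁ * Ff i j) * (a₂ * If i j + b₂ * Ff i j)) := by
    intro i j; ring
  simp only [e1, Finset.sum_add_distrib, ← Finset.mul_sum, sum_mk_mul]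
  rw [alg6 (d : ℂ) (dE : ℂ) q hd0 hu hd2 a₁ b₁ a₂ b₂ ha₁ hb₁ ha₂ hb₂]
  unfold CC
  push_cast
  rw [← hq]

end Pool.Agent.V11219.MomentOp
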