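import Mathlib
import Pool.Agent.V11219.DomMain

/-!
# Direct factors of cohomology, comparison of ranks
-/

universe u

namespace Pool.Agent.V11219.Cls

open Pool.Agent.TH125.Gal Pool.Agent.V11219.Min
open Pool.Agent.H914 Pool.Agent.H914.VarClass Pool.Agent.H914.VarClass.Obj
  Pool.Agent.H914.WeilCohomology Pool.Agent.H281R3.HT

variable {k : Type u} [Field k] {𝒱 : VarClass k} {ops : CycleOps 𝒱}
  {W : WeilCohomology.{u, 0} ops} {Γ : Type} [Group Γ] {χ : CharOf W Γ}
  {ι β : Type} {X : ι → GVar W Γ} {Y : β → GVar W Γ} {Z : GVar W Γ} {d : ℕ}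

/-- **Direct factors, comparison of ranks.** -/
theorem factors_over [IsAlgClosed W.K] [Finite ι] [Fintype β] {C : Classes W}
    (hC : ClassSystem W C) (h : FamilyOver χ X Y d Z) {S' : Set β} {Z₁ : GVar W Γ}
    (hZ : Tower Y Z S' Z₁) {S : Set ι} {T : GVar W Γ} (hT : Tower X Z₁ S T) :
    (TateIn χ C T ∧ FactorsTate χ C T) ↔ TateIn χ C Z₁ := by
  classical
  have := Fintype.ofFinite ι
  have h1 := cls_over hC h.over (hZ.gTower fun b => (h.good' b).1)
    (hT.gTower fun i => (h.good i).1)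
  exact ⟨fun h2 => h1.1 h2.1, fun h2 => ⟨h1.2 h2, (h1.2 h2).factors⟩⟩

/-- **Dominated varieties and direct factors.** -/
theorem dom_factors [IsAlgClosed W.K] [Finite ι] {C : Classes W} (hC : ClassSystem W C)
    (h : Family χ X Z) {S : Set ι} {T : GVar W Γ} (hT : Tower X Z S T) :
    (∀ B, DominatesVar T B → TateIn χ C B ∧ FactorsTate χ C B) ↔ TateIn χ C Z := by
  have h1 := dom_sst hC h hT
  exact ⟨fun h2 => h1.1 fun B hB => (h2 B hB).1,
    fun h2 B hB => ⟨h1.2 h2 B hB, (h1.2 h2 B hB).factors⟩⟩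

end Pool.Agent.V11219.Cls
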