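import Pool.Agent.V11219.TwoDefs

/-!
# Classes on direct factors: definitions
-/

namespace Pool.Agent.V11219.Cls

/-- The image of `U` under `P` is contained in the image of `V`. -/
def MapLe {K A : Type} [Field K] [AddCommGroup A] [Module K A] (P : Module.End K A)
    (U V : Submodule K A) : Prop :=
  U.map P ≤ V.map P

end Pool.Agent.V11219.Cls
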