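import Mathlib
import Pool.Agent.V11219.NcDefs
import Pool.Agent.V11219.MinLocMain

/-!
# Classes on direct factors
-/

namespace Pool.Agent.V11219.Cls

theorem mapLe_iff {K A : Type} [Field K] [AddCommGroup A] [Module K A] {U V : Submodule K A} :
    (∀ P : Module.End K A, MapLe P U V) ↔ U ≤ V := by
  constructor
  · intro h
    have h1 : U.map (LinearMap.id : A →ₗ[K] A) ≤ V.map LinearMap.id := h LinearMap.id
    rwa [Submodule.map_id, Submodule.map_id] at h1
  · intro h P
    exact Submodule.map_mono h

end Pool.Agent.V11219.Cls
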