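import Mathlib

/-!
# The Lie algebra of the group of symmetries of functional relations
-/

set_option linter.unusedSectionVars false

open Filter

namespace Pool.Agent.V11219.Per

variable {n : ℕ}

/-- Relations between the entries of a matrix, with coefficients in `ℂ[x]`. -/
abbrev Rel (n : ℕ) : Type := MvPolynomial (Fin n × Fin n) (Polynomial ℂ)

/-- The value of a relation. -/
noncomputable def rl (R : Rel n) (s : ℝ) (Z : Matrix (Fin n) (Fin n) ℂ) : ℂ :=
  MvPolynomial.eval₂ (Polynomial.evalRingHom (1 / (s : ℂ))) (fun v => Z v.1 v.2) R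

/-- The value as a ring homomorphism. -/
noncomputable def rh (s : ℝ) (Z : Matrix (Fin n) (Fin n) ℂ) : Rel n →+* ℂ :=
  MvPolynomial.eval₂Hom (Polynomial.evalRingHom (1 / (s : ℂ))) fun v => Z v.1 v.2

theorem rh_apply (R : Rel n) (s : ℝ) (Z : Matrix (Fin n) (Fin n) ℂ) : rh s Z R = rl R s Z := rfl

/-- The entries of `X Z`. -/
noncomputable def lin (X : Matrix (Fin n) (Fin n) ℂ) (v : Fin n × Fin n) : Rel n :=
  ∑ l, MvPolynomial.C (Polynomial.C (X v.1 l)) * MvPolynomial.X (l, v.2)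

theorem rh_X (s : ℝ) (Z : Matrix (Fin n) (Fin n) ℂ) (v : Fin n × Fin n) :
    rh s Z (MvPolynomial.X v) = Z v.1 v.2 := by
  rw [rh, MvPolynomial.coe_eval₂Hom, MvPolynomial.eval₂_X]

theorem rh_C (s : ℝ) (Z : Matrix (Fin n) (Fin n) ℂ) (p : Polynomial ℂ) :
    rh s Z (MvPolynomial.C p) = p.eval (1 / (s : ℂ)) := by
  rw [rh, MvPolynomial.coe_eval₂Hom, MvPolynomial.eval₂_C]
  rfl

theorem rh_lin (X Z : Matrix (Fin n) (Fin n) ℂ) (s : ℝ) (v : Fin n × Fin n) :
    rh s Z (lin X v) = (X * Z) v.1 v.2 := by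
  rw [lin, map_sum, Matrix.mul_apply]
  refine Finset.sum_congr rfl fun l _ => ?_
  rw [map_mul, rh_C, rh_X, Polynomial.eval_C]

theorem lin_add (X Y : Matrix (Fin n) (Fin n) ℂ) (v : Fin n × Fin n) :
    lin (X + Y) v = lin X v + lin Y v := by
  rw [lin, lin, lin, ← Finset.sum_add_distrib]
  refine Finset.sum_congr rfl fun l _ => ?_
  rw [Matrix.add_apply, map_add, map_add, add_mul]

theorem lin_smul (c : ℂ) (X : Matrix (Fin n) (Fin n) ℂ) (v : Fin n × Fin n) :
    lin (c • X) v = MvPolynomial.C (Polynomial.C c) * lin X v := by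
  rw [lin, lin, Finset.mul_sum]
  refine Finset.sum_congr rfl fun l _ => ?_
  rw [Matrix.smul_apply, smul_eq_mul, map_mul, map_mul, mul_assoc]

theorem lin_one (v : Fin n × Fin n) : lin 1 v = MvPolynomial.X v := by
  rw [lin, Finset.sum_eq_single v.1]
  · rw [Matrix.one_apply_eq, map_one, map_one, one_mul]
  · intro l _ hl
    rw [Matrix.one_apply_ne (Ne.symm hl), map_zero, map_zero, zero_mul]
  · intro h
    exact absurd (Finset.mem_univ _) h

theorem lin_mul (X Y : Matrix (Fin n) (Fin n) ℂ) (v : Fin n × Fin n) :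
    lin (X * Y) v = ∑ l, MvPolynomial.C (Polynomial.C (X v.1 l)) * lin Y (l, v.2) := by
  have h1 : ∀ l, MvPolynomial.C (Polynomial.C (X v.1 l)) * lin Y (l, v.2) =
      ∑ m, MvPolynomial.C (Polynomial.C (X v.1 l * Y l m)) * MvPolynomial.X (m, v.2) := by
    intro l
    rw [lin, Finset.mul_sum]
    refine Finset.sum_congr rfl fun m _ => ?_
    rw [map_mul, map_mul, mul_assoc]
  rw [Finset.sum_congr rfl fun l _ => h1 l, Finset.sum_comm, lin]
  refine Finset.sum_congr rfl fun m _ => ?_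
  rw [Matrix.mul_apply, map_sum, map_sum, Finset.sum_mul]

/-- The derivation. -/
noncomputable def dX (X : Matrix (Fin n) (Fin n) ℂ) :
    Derivation (Polynomial ℂ) (Rel n) (Rel n) :=
  MvPolynomial.mkDerivation (Polynomial ℂ) (lin X)

theorem dX_X (X : Matrix (Fin n) (Fin n) ℂ) (v : Fin n × Fin n) :
    dX X (MvPolynomial.X v) = lin X v := MvPolynomial.mkDerivation_X _ _ _

theorem dX_C (X : Matrix (Fin n) (Fin n) ℂ) (p : Polynomial ℂ) :
    dX X (MvPolynomial.C p) = 0 := MvPolynomial.derivation_C _ _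

theorem dX_mul (X : Matrix (Fin n) (Fin n) ℂ) (p q : Rel n) :
    dX X (p * q) = p * dX X q + q * dX X p := by
  rw [Derivation.leibniz, smul_eq_mul, smul_eq_mul]

theorem dX_lin (X Y : Matrix (Fin n) (Fin n) ℂ) (v : Fin n × Fin n) :
    dX X (lin Y v) = lin (Y * X) v := by
  rw [lin_mul, lin, map_sum]
  refine Finset.sum_congr rfl fun l _ => ?_
  rw [dX_mul, dX_C, mul_zero, add_zero, dX_X]

theorem dX_add (X Y : Matrix (Fin n) (Fin n) ℂ) (R : Rel n) : dX (X + Y) R = dX X R + dX Y R := by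
  have h : dX (X + Y) = dX X + dX Y := by
    refine MvPolynomial.derivation_ext fun v => ?_
    rw [Derivation.add_apply, dX_X, dX_X, dX_X, lin_add]
  rw [h, Derivation.add_apply]

theorem dX_smul (c : ℂ) (X : Matrix (Fin n) (Fin n) ℂ) (R : Rel n) :
    dX (c • X) R = MvPolynomial.C (Polynomial.C c) * dX X R := by
  have h : dX (c • X) = (Polynomial.C c) • dX X := by
    refine MvPolynomial.derivation_ext fun v => ?_
    rw [Derivation.smul_apply, dX_X, dX_X, lin_smul, MvPolynomial.smul_eq_C_mul]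
  rw [h, Derivation.smul_apply, MvPolynomial.smul_eq_C_mul]

theorem dX_zero (R : Rel n) : dX (0 : Matrix (Fin n) (Fin n) ℂ) R = 0 := by
  have h := dX_smul 0 (0 : Matrix (Fin n) (Fin n) ℂ) R
  rwa [zero_smul, map_zero, map_zero, zero_mul] at h

theorem dX_bracket (X Y : Matrix (Fin n) (Fin n) ℂ) (R : Rel n) :
    dX (X * Y - Y * X) R = dX Y (dX X R) - dX X (dX Y R) := by
  have h : dX (X * Y - Y * X) = ⁅dX Y, dX X⁆ := by
    refine MvPolynomial.derivation_ext fun v => ?_
    rw [Derivation.commutator_apply, dX_X, dX_X, dX_X, dX_lin, dX_lin, sub_eq_add_neg, lin_add,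
      ← neg_one_smul ℂ (Y * X), lin_smul, sub_eq_add_neg]
    congr 1
    rw [map_neg, map_neg, map_one, map_one]
    ring
  rw [h, Derivation.commutator_apply]

/-- The substitution. -/
noncomputable def sb (g : Matrix (Fin n) (Fin n) ℂ) : Rel n →ₐ[Polynomial ℂ] Rel n :=
  MvPolynomial.aeval (lin g)

theorem sb_X (g : Matrix (Fin n) (Fin n) ℂ) (v : Fin n × Fin n) :
    sb g (MvPolynomial.X v) = lin g v := MvPolynomial.aeval_X _ _

theorem sb_C (g : Matrix (Fin n) (Fin n) ℂ) (p : Polynomial ℂ) :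
    sb g (MvPolynomial.C p) = MvPolynomial.C p := MvPolynomial.algHom_C _ _

theorem sb_lin (g Y : Matrix (Fin n) (Fin n) ℂ) (v : Fin n × Fin n) :
    sb g (lin Y v) = lin (Y * g) v := by
  rw [lin_mul, lin, map_sum]
  refine Finset.sum_congr rfl fun l _ => ?_
  rw [map_mul, sb_C, sb_X]

theorem rh_sb (g Z : Matrix (Fin n) (Fin n) ℂ) (s : ℝ) (R : Rel n) :
    rh s Z (sb g R) = rh s (g * Z) R := by
  induction R using MvPolynomial.induction_on with
  | C p => rw [sb_C, rh_C, rh_C]
  | add p q hp hq => rw [map_add, map_add, map_add, hp, hq]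
  | mul_X p v hp => rw [map_mul, map_mul, map_mul, hp, sb_X, rh_lin, rh_X]

theorem sb_sb {g g' : Matrix (Fin n) (Fin n) ℂ} (h : g' * g = 1) (R : Rel n) :
    sb g (sb g' R) = R := by
  induction R using MvPolynomial.induction_on with
  | C p => rw [sb_C, sb_C]
  | add p q hp hq => rw [map_add, map_add, hp, hq]
  | mul_X p v hp => rw [map_mul, map_mul, hp, sb_X, sb_lin, h, lin_one]

theorem dX_sb {g X Y : Matrix (Fin n) (Fin n) ℂ} (h : X * g = g * Y) (R : Rel n) :
    dX Y (sb g R) = sb g (dX X R) := by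
  induction R using MvPolynomial.induction_on with
  | C p => rw [sb_C, dX_C, dX_C, map_zero]
  | add p q hp hq => rw [map_add, map_add, map_add, map_add, hp, hq]
  | mul_X p v hp =>
    rw [map_mul, dX_mul, dX_mul, map_add, map_mul, map_mul, hp, sb_X, dX_X, dX_lin, sb_lin, h]

/-- The flow. -/
noncomputable def fl (N : Matrix (Fin n) (Fin n) ℂ) (s : ℝ) (Z : Matrix (Fin n) (Fin n) ℂ) :
    Rel n →+* Polynomial ℂ :=
  MvPolynomial.eval₂Hom (Polynomial.C.comp (Polynomial.evalRingHom (1 / (s : ℂ))))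
    fun v => Polynomial.C (Z v.1 v.2) + Polynomial.X * Polynomial.C ((N * Z) v.1 v.2)

theorem fl_X (N Z : Matrix (Fin n) (Fin n) ℂ) (s : ℝ) (v : Fin n × Fin n) :
    fl N s Z (MvPolynomial.X v) =
      Polynomial.C (Z v.1 v.2) + Polynomial.X * Polynomial.C ((N * Z) v.1 v.2) := by
  rw [fl, MvPolynomial.coe_eval₂Hom, MvPolynomial.eval₂_X]

theorem fl_C (N Z : Matrix (Fin n) (Fin n) ℂ) (s : ℝ) (p : Polynomial ℂ) :
    fl N s Z (MvPolynomial.C p) = Polynomial.C (p.eval (1 / (s : ℂ))) := by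
  rw [fl, MvPolynomial.coe_eval₂Hom, MvPolynomial.eval₂_C]
  rfl

theorem fl_eval (N Z : Matrix (Fin n) (Fin n) ℂ) (s : ℝ) (t : ℂ) (R : Rel n) :
    (fl N s Z R).eval t = rh s ((1 + t • N) * Z) R := by
  induction R using MvPolynomial.induction_on with
  | C p => rw [fl_C, rh_C, Polynomial.eval_C]
  | add p q hp hq => rw [map_add, map_add, Polynomial.eval_add, hp, hq]
  | mul_X p v hp =>
    rw [map_mul, map_mul, Polynomial.eval_mul, hp, fl_X, rh_X, Matrix.add_mul, Matrix.one_mul,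
      Matrix.smul_mul, Matrix.add_apply, Matrix.smul_apply, smul_eq_mul, Polynomial.eval_add,
      Polynomial.eval_mul, Polynomial.eval_C, Polynomial.eval_C, Polynomial.eval_X]

theorem fl_lin (N Z Y : Matrix (Fin n) (Fin n) ℂ) (s : ℝ) (v : Fin n × Fin n) :
    fl N s Z (lin Y v) = Polynomial.C ((Y * Z) v.1 v.2) +
      Polynomial.X * Polynomial.C ((Y * (N * Z)) v.1 v.2) := by
  rw [lin, map_sum, Matrix.mul_apply, Matrix.mul_apply, map_sum, map_sum, Finset.mul_sum,
    ← Finset.sum_add_distrib]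
  refine Finset.sum_congr rfl fun l _ => ?_
  rw [map_mul, fl_C, fl_X, Polynomial.eval_C, map_mul, map_mul]
  ring

theorem fl_deriv {N : Matrix (Fin n) (Fin n) ℂ} (hN : N * N = 0) (Z : Matrix (Fin n) (Fin n) ℂ)
    (s : ℝ) (R : Rel n) : Polynomial.derivative (fl N s Z R) = fl N s Z (dX N R) := by
  induction R using MvPolynomial.induction_on with
  | C p => rw [fl_C, dX_C, map_zero, Polynomial.derivative_C]
  | add p q hp hq => rw [map_add, Polynomial.derivative_add, map_add, map_add, hp, hq]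
  | mul_X p v hp =>
    have h1 : fl N s Z (lin N v) = Polynomial.C ((N * Z) v.1 v.2) := by
      rw [fl_lin, ← Matrix.mul_assoc, hN, Matrix.zero_mul, Matrix.zero_apply, map_zero, mul_zero,
        add_zero]
    rw [map_mul, Polynomial.derivative_mul, hp, dX_mul, map_add, map_mul, map_mul, dX_X, h1, fl_X]
    simp only [Polynomial.derivative_add, Polynomial.derivative_C, Polynomial.derivative_mul,
      Polynomial.derivative_X, zero_add, one_mul, mul_zero, add_zero]
    ring

theorem fl_deg (R : Rel n) : ∃ d : ℕ, ∀ (N : Matrix (Fin n) (Fin n) ℂ) (s : ℝ)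
    (Z : Matrix (Fin n) (Fin n) ℂ), (fl N s Z R).natDegree ≤ d := by
  induction R using MvPolynomial.induction_on with
  | C p =>
    refine ⟨0, fun N s Z => ?_⟩
    rw [fl_C, Polynomial.natDegree_C]
  | add p q hp hq =>
    obtain ⟨d, hd⟩ := hp
    obtain ⟨e, he⟩ := hq
    refine ⟨max d e, fun N s Z => ?_⟩
    rw [map_add]
    exact (Polynomial.natDegree_add_le _ _).trans (max_le_max (hd N s Z) (he N s Z))
  | mul_X p v hp =>
    obtain ⟨d, hd⟩ := hp
    refine ⟨d + 1, fun N s Z => ?_⟩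
    rw [map_mul, fl_X]
    refine Polynomial.natDegree_mul_le.trans (add_le_add (hd N s Z) ?_)
    refine (Polynomial.natDegree_add_le _ _).trans (max_le ?_ ?_)
    · rw [Polynomial.natDegree_C]
      exact Nat.zero_le _
    · refine Polynomial.natDegree_mul_le.trans ?_
      rw [Polynomial.natDegree_C, add_zero]
      exact Polynomial.natDegree_X_le

/-- Iterated derivatives. -/
theorem fl_iter {N : Matrix (Fin n) (Fin n) ℂ} (hN : N * N = 0) (Z : Matrix (Fin n) (Fin n) ℂ)
    (s : ℝ) (k : ℕ) (R : Rel n) :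
    Polynomial.derivative^[k] (fl N s Z R) = fl N s Z ((dX N)^[k] R) := by
  induction k generalizing R with
  | zero => rfl
  | succ k ih => rw [Function.iterate_succ_apply, fl_deriv hN, ih, Function.iterate_succ_apply]

variable {Z : ℝ → Matrix (Fin n) (Fin n) ℂ}

/-- The relations of `Z`. -/
def IsRel (Z : ℝ → Matrix (Fin n) (Fin n) ℂ) (R : Rel n) : Prop :=
  ∀ᶠ s : ℝ in atTop, rh s (Z s) R = 0

/-- `g Z` satisfies the relations of `Z`. -/
def Pres (Z : ℝ → Matrix (Fin n) (Fin n) ℂ) (g : Matrix (Fin n) (Fin n) ℂ) : Prop :=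
  ∀ R : Rel n, IsRel Z R → ∀ᶠ s : ℝ in atTop, rh s (g * Z s) R = 0

theorem IsRel.zero : IsRel Z 0 := Eventually.of_forall fun _ => map_zero _

theorem IsRel.add {R R' : Rel n} (h : IsRel Z R) (h' : IsRel Z R') : IsRel Z (R + R') := by
  filter_upwards [h, h'] with s h1 h2
  rw [map_add, h1, h2, add_zero]

theorem IsRel.sub {R R' : Rel n} (h : IsRel Z R) (h' : IsRel Z R') : IsRel Z (R - R') := by
  filter_upwards [h, h'] with s h1 h2
  rw [map_sub, h1, h2, sub_zero]

theorem IsRel.mul {R : Rel n} (h : IsRel Z R) (R' : Rel n) : IsRel Z (R' * R) := by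
  filter_upwards [h] with s h1
  rw [map_mul, h1, mul_zero]

theorem pres_iff {g : Matrix (Fin n) (Fin n) ℂ} :
    Pres Z g ↔ ∀ R : Rel n, IsRel Z R → IsRel Z (sb g R) := by
  constructor
  · intro h R hR
    filter_upwards [h R hR] with s h1
    rw [rh_sb, h1]
  · intro h R hR
    filter_upwards [h R hR] with s h1
    rw [← rh_sb, h1]

/-- **The Lie algebra.** -/
noncomputable def lie (Z : ℝ → Matrix (Fin n) (Fin n) ℂ) :
    Submodule ℂ (Matrix (Fin n) (Fin n) ℂ) where
  carrier := {X | ∀ R : Rel n, IsRel Z R → IsRel Z (dX X R)}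
  zero_mem' := by
    intro R _
    rw [dX_zero]
    exact IsRel.zero
  add_mem' := by
    intro X Y hX hY R hR
    rw [dX_add]
    exact (hX R hR).add (hY R hR)
  smul_mem' := by
    intro c X hX R hR
    rw [dX_smul]
    exact (hX R hR).mul _

theorem lie_br {X Y : Matrix (Fin n) (Fin n) ℂ} (hX : X ∈ lie Z) (hY : Y ∈ lie Z) :
    X * Y - Y * X ∈ lie Z := by
  intro R hR
  rw [dX_bracket]
  exact (hY _ (hX R hR)).sub (hX _ (hY R hR))

theorem lie_conj {g g' X : Matrix (Fin n) (Fin n) ℂ} (hg : Pres Z g) (hg' : Pres Z g')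
    (h1 : g * g' = 1) (h2 : g' * g = 1) (hX : X ∈ lie Z) : g' * X * g ∈ lie Z := by
  intro R hR
  have h3 : X * g = g * (g' * X * g) := by
    rw [← Matrix.mul_assoc, ← Matrix.mul_assoc, h1, Matrix.one_mul]
  have h4 : R = sb g (sb g' R) := (sb_sb h2 R).symm
  rw [h4, dX_sb h3]
  exact pres_iff.1 hg _ (hX _ (pres_iff.1 hg' _ hR))

/-- Unipotent elements. -/
theorem lie_of_pres {N : Matrix (Fin n) (Fin n) ℂ} (hN : N * N = 0)
    (h : ∀ m : ℕ, Pres Z (1 + (m : ℂ) • N)) : N ∈ lie Z := by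
  classical
  intro R hR
  obtain ⟨d, hd⟩ := fl_deg R
  have h1 : ∀ᶠ s : ℝ in atTop, ∀ m ∈ Finset.range (d + 1),
      rh s ((1 + (m : ℂ) • N) * Z s) R = 0 := by
    rw [Filter.eventually_all_finset]
    intro m _
    exact h m R hR
  filter_upwards [h1] with s hs
  have h2 : fl N s (Z s) R = 0 := by
    refine Polynomial.eq_zero_of_natDegree_lt_card_of_eval_eq_zero' _
      ((Finset.range (d + 1)).image (fun m : ℕ => (m : ℂ))) ?_ ?_
    · intro z hz
      obtain ⟨m, hm, rfl⟩ := Finset.mem_image.1 hz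
      rw [fl_eval]
      exact hs m hm
    · rw [Finset.card_image_of_injective _ Nat.cast_injective, Finset.card_range]
      exact Nat.lt_succ_of_le (hd N s (Z s))
  have h3 := fl_deriv hN (Z s) s R
  rw [h2, Polynomial.derivative_zero] at h3
  have h4 := fl_eval N (Z s) s 0 (dX N R)
  rw [← h3, Polynomial.eval_zero, zero_smul, add_zero, Matrix.one_mul] at h4
  exact h4.symm

theorem pres_of_lie {N : Matrix (Fin n) (Fin n) ℂ} (hN : N * N = 0) (h : N ∈ lie Z) (t : ℂ) :
    Pres Z (1 + t • N) := by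
  intro R hR
  obtain ⟨d, hd⟩ := fl_deg R
  have h0 : ∀ k : ℕ, IsRel Z ((dX N)^[k] R) := by
    intro k
    induction k with
    | zero => exact hR
    | succ k ih =>
      rw [Function.iterate_succ_apply']
      exact h _ ih
  have h1 : ∀ᶠ s : ℝ in atTop, ∀ k ∈ Finset.range (d + 1), rh s (Z s) ((dX N)^[k] R) = 0 := by
    rw [Filter.eventually_all_finset]
    intro k _
    exact h0 k
  filter_upwards [h1] with s hs
  have h2 : fl N s (Z s) R = 0 := by
    ext k
    rw [Polynomial.coeff_zero]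
    by_cases hk : k < d + 1
    · have h3 := hs k (Finset.mem_range.2 hk)
      have h4 := fl_eval N (Z s) s 0 ((dX N)^[k] R)
      rw [zero_smul, add_zero, Matrix.one_mul, h3, ← fl_iter hN,
        ← Polynomial.coeff_zero_eq_eval_zero, Polynomial.coeff_iterate_derivative, zero_add,
        Nat.descFactorial_self] at h4
      exact (smul_eq_zero.1 h4).resolve_left (Nat.factorial_ne_zero k)
    · exact Polynomial.coeff_eq_zero_of_natDegree_lt (lt_of_le_of_lt (hd N s (Z s)) (by omega))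
  rw [← fl_eval, h2, Polynomial.eval_zero]

end Pool.Agent.V11219.Per
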