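import Mathlib
import Pool.Agent.V11219.GkDefs
import Pool.Agent.V11219.PerLie

/-!
# Families of period matrices with local monodromy conditions: definitions
-/

set_option autoImplicit false

open PowerSeries Filter
open scoped Matrix

namespace Pool.Agent.V11219.Per

/-- an integer polynomial as a power series with rational coefficients -/
noncomputable def toQ (P : Polynomial ℤ) : PowerSeries ℚ :=
  ((P.map (Int.castRingHom ℚ) : Polynomial ℚ) : PowerSeries ℚ)

/-- the power series `P(u^e)` -/
noncomputable def atPow (e : ℕ) (P : Polynomial ℤ) : PowerSeries ℂ :=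
  ((Polynomial.expand ℂ e (P.map (Int.castRingHom ℂ)) : Polynomial ℂ) : PowerSeries ℂ)

/-- the matrices `G_s` over `ℤ[x]` with `T^s y^(s) = G_s y` for all solutions `y` of `T y' = A y` -/
noncomputable def iter {r : ℕ} (T : Polynomial ℤ) (A : Fin r → Fin r → Polynomial ℤ) :
    ℕ → Fin r → Fin r → Polynomial ℤ
  | 0 => fun i j => if i = j then 1 else 0
  | s + 1 => fun i j => T * Polynomial.derivative (iter T A s i j) +
      ∑ l, iter T A s i l * A l j -
      (s : Polynomial ℤ) * (Polynomial.derivative T * iter T A s i j)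

/-- The system `T y' = A y` has a fundamental matrix of solutions of the form
`u^(-M) ∑_n Φ_n(u) (log u)^n` with `u^e = x` and convergent power series `Φ_n`: the point `0` is
regular or a regular singularity with rational exponents. -/
def QuasiUnipotent {r : ℕ} (T : Polynomial ℤ) (A : Fin r → Fin r → Polynomial ℤ) : Prop :=
  ∃ (e M : ℕ) (K : ℝ) (Φ : Matrix (Fin r) (Fin r) (Polynomial (PowerSeries ℂ))), 1 ≤ e ∧
    Φ.det ≠ 0 ∧ (∀ i j n m, ‖coeff m ((Φ i j).coeff n)‖ ≤ K ^ (m + 1)) ∧
    ∀ i j n, atPow e T * (X * PowerSeries.derivative ℂ ((Φ i j).coeff n) +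
        ((n : PowerSeries ℂ) + 1) * (Φ i j).coeff (n + 1) -
          (M : PowerSeries ℂ) * (Φ i j).coeff n) =
      (e : PowerSeries ℂ) * X ^ e * ∑ l, atPow e (A i l) * (Φ l j).coeff n

/-- `h_1, ..., h_r` are G-functions with rational coefficients which solve the differential system
`T y' = A y`, with the conditions of Siegel and Galochkin, and `0` is a regular point or a regular
singularity with rational exponents of the system. -/
structure GFamily {r : ℕ} (T : Polynomial ℤ) (A : Fin r → Fin r → Polynomial ℤ)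
    (h : Fin r → PowerSeries ℚ) : Prop where
  /-- the denominator is not zero -/
  T_ne : T ≠ 0
  /-- the differential equations -/
  ode : ∀ i, toQ T * PowerSeries.derivative ℚ (h i) = ∑ j, toQ (A i j) * h j
  /-- the coefficients have geometric growth -/
  size : ∃ C : ℝ, ∀ i m, |((coeff m (h i) : ℚ) : ℝ)| ≤ C ^ (m + 1)
  /-- the common denominators of the coefficients have geometric growth -/
  den : ∃ C : ℝ, ∀ m : ℕ, ∃ d : ℕ, 0 < d ∧ (d : ℝ) ≤ C ^ (m + 1) ∧
    ∀ i, ∀ j ≤ m, ∃ a : ℤ, (d : ℚ) * coeff j (h i) = a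
  /-- Galochkin's condition: the common denominators of the matrices `G_s / s!` have geometric
  growth -/
  galochkin : ∃ C : ℝ, ∀ m : ℕ, ∃ d : ℕ, 0 < d ∧ (d : ℝ) ≤ C ^ (m + 1) ∧ ∀ s ≤ m, ∀ i j,
    ∃ H : Polynomial ℤ, (d : Polynomial ℤ) * iter T A s i j = (s.factorial : Polynomial ℤ) * H
  /-- the local exponents at `0` are rational and the singularity is regular -/
  regular : QuasiUnipotent T A

section family
variable {r n : ℕ}

/-- The period matrix at `x = 1 / s`: the entries are the polynomials `P a b` in `log s` and in the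
`h_l(1 / s)`. -/
noncomputable def perMat (h : Fin r → PowerSeries ℚ)
    (P : Fin n → Fin n → MvPolynomial (Option (Fin r)) ℂ) (s : ℝ) :
    Matrix (Fin n) (Fin n) ℂ :=
  Matrix.of fun a b => MvPolynomial.aeval (fun o : Option (Fin r) => o.elim ((Real.log s : ℝ) : ℂ)
    fun l => ((∑' m : ℕ, ((coeff m (h l) : ℚ) : ℝ) * (1 / s) ^ m : ℝ) : ℂ)) (P a b)

/-- the value at `x = 1 / s` and at the matrix `Z` of a polynomial in the entries of a matrix over
`ℂ[x]` -/
noncomputable def relAt (R : MvPolynomial (Fin n × Fin n) (Polynomial ℂ)) (s : ℝ)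
    (Z : Matrix (Fin n) (Fin n) ℂ) : ℂ :=
  MvPolynomial.eval₂ (Polynomial.evalRingHom (1 / (s : ℂ))) (fun v => Z v.1 v.2) R

/-- `g P(x)` satisfies all polynomial relations over `ℂ[x]` which `P(x)` satisfies. -/
def Preserves (h : Fin r → PowerSeries ℚ) (P : Fin n → Fin n → MvPolynomial (Option (Fin r)) ℂ)
    (g : Matrix (Fin n) (Fin n) ℂ) : Prop :=
  ∀ R : MvPolynomial (Fin n × Fin n) (Polynomial ℂ),
    (∀ᶠ s : ℝ in Filter.atTop, relAt R s (perMat h P s) = 0) →
    ∀ᶠ s : ℝ in Filter.atTop, relAt R s (g * perMat h P s) = 0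

theorem preserves_mul {h : Fin r → PowerSeries ℚ}
    {P : Fin n → Fin n → MvPolynomial (Option (Fin r)) ℂ} {g g' : Matrix (Fin n) (Fin n) ℂ}
    (hg : Preserves h P g) (hg' : Preserves h P g') : Preserves h P (g * g') := by
  intro R hR
  have h1 := hg' (sb g R) (by
    filter_upwards [hg R hR] with s hs
    exact (rh_sb g _ s R).trans hs)
  filter_upwards [h1] with s hs
  rw [Matrix.mul_assoc]
  exact (rh_sb g _ s R).symm.trans hs

theorem preserves_one {h : Fin r → PowerSeries ℚ}
    {P : Fin n → Fin n → MvPolynomial (Option (Fin r)) ℂ} :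
    Preserves h P ((1 : Matrix.GeneralLinearGroup (Fin n) ℂ) : Matrix (Fin n) (Fin n) ℂ) := by
  intro R hR
  filter_upwards [hR] with s hs
  rw [Units.val_one, Matrix.one_mul]
  exact hs

/-- The group of the matrices `g` such that `g` and `g⁻¹` preserve the relations. If `P` is a
fundamental matrix of a linear differential system over `ℂ(x)` this is its differential Galois
group. -/
def Gal (h : Fin r → PowerSeries ℚ) (P : Fin n → Fin n → MvPolynomial (Option (Fin r)) ℂ) :
    Subgroup (Matrix.GeneralLinearGroup (Fin n) ℂ) where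
  carrier := {g | Preserves h P (g : Matrix (Fin n) (Fin n) ℂ) ∧
    Preserves h P ((g⁻¹ : Matrix.GeneralLinearGroup (Fin n) ℂ) : Matrix (Fin n) (Fin n) ℂ)}
  mul_mem' := fun {a b} ha hb => ⟨by rw [Units.val_mul]; exact preserves_mul ha.1 hb.1,
    by rw [mul_inv_rev, Units.val_mul]; exact preserves_mul hb.2 ha.2⟩
  one_mem' := ⟨preserves_one, by rw [inv_one]; exact preserves_one⟩
  inv_mem' := fun {a} ha => ⟨ha.2, by rw [inv_inv]; exact ha.1⟩

end family

section pieces

variable {n m : ℕ}

/-- The matrix is block diagonal for the partition of the indices given by `β`. -/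
def BlockDiagonal (β : Fin n → Fin m) (g : Matrix (Fin n) (Fin n) ℂ) : Prop :=
  ∀ a b, β a ≠ β b → g a b = 0

/-- The block `j` of a matrix. -/
def blk (β : Fin n → Fin m) (j : Fin m) (g : Matrix (Fin n) (Fin n) ℂ) :
    Matrix {a // β a = j} {a // β a = j} ℂ := g.submatrix Subtype.val Subtype.val

theorem blk_one (β : Fin n → Fin m) (j : Fin m) : blk β j 1 = 1 := by
  ext a b
  rw [blk, Matrix.submatrix_apply, Matrix.one_apply, Matrix.one_apply]
  simp [Subtype.ext_iff]

theorem blk_mul {β : Fin n → Fin m} (j : Fin m) {g g' : Matrix (Fin n) (Fin n) ℂ}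
    (hg : BlockDiagonal β g) : blk β j (g * g') = blk β j g * blk β j g' := by
  ext a b
  rw [blk, Matrix.submatrix_apply, Matrix.mul_apply, Matrix.mul_apply,
    ← Fintype.sum_subtype_add_sum_subtype (fun c => β c = j) (fun c => g a.1 c * g' c b.1)]
  have h0 : ∑ c : {c // ¬ β c = j}, g a.1 c.1 * g' c.1 b.1 = 0 := by
    refine Finset.sum_eq_zero fun c _ => ?_
    rw [hg a.1 c.1 (fun h => c.2 (h.symm.trans a.2)), zero_mul]
  rw [h0, add_zero]
  rfl

/-- The matrix of an element of a group of matrices. -/
def mat {G : Subgroup (Matrix.GeneralLinearGroup (Fin n) ℂ)} (g : G) : Matrix (Fin n) (Fin n) ℂ :=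
  g.1.1

/-- The group `G` is block diagonal. -/
def BlockGroup (β : Fin n → Fin m) (G : Subgroup (Matrix.GeneralLinearGroup (Fin n) ℂ)) : Prop :=
  ∀ g : G, BlockDiagonal β (mat g)

/-- The action of `g` on the `j`-th piece. -/
noncomputable def onPiece (β : Fin n → Fin m) {G : Subgroup (Matrix.GeneralLinearGroup (Fin n) ℂ)}
    (j : Fin m) (g : G) : ({a // β a = j} → ℂ) →ₗ[ℂ] ({a // β a = j} → ℂ) :=
  Matrix.toLin' (blk β j (mat g))

theorem onPiece_one (β : Fin n → Fin m) {G : Subgroup (Matrix.GeneralLinearGroup (Fin n) ℂ)}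
    (j : Fin m) : onPiece β j (1 : G) = 1 := by
  have h : mat (1 : G) = 1 := rfl
  rw [onPiece, h, blk_one, Matrix.toLin'_one]
  rfl

theorem onPiece_mul {β : Fin n → Fin m} {G : Subgroup (Matrix.GeneralLinearGroup (Fin n) ℂ)}
    (hG : BlockGroup β G) (j : Fin m) (g g' : G) :
    onPiece β j (g * g') = onPiece β j g * onPiece β j g' := by
  have h : mat (g * g') = mat g * mat g' := rfl
  rw [onPiece, h, blk_mul j (hG g), Matrix.toLin'_mul]
  rfl

/-- The representation of the block diagonal group `G` on the `j`-th piece. -/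
noncomputable def piece (β : Fin n → Fin m) (G : Subgroup (Matrix.GeneralLinearGroup (Fin n) ℂ))
    (hG : BlockGroup β G) (j : Fin m) : Representation ℂ G ({a // β a = j} → ℂ) where
  toFun g := onPiece β j g
  map_one' := onPiece_one β j
  map_mul' := onPiece_mul hG j

/-- The elements `g` of `G` with `(g - 1) ^ 2 = 0` which respect the form `B`. -/
def quadratics (B : Matrix (Fin n) (Fin n) ℂ)
    (G : Subgroup (Matrix.GeneralLinearGroup (Fin n) ℂ)) : Set G :=
  {g | (mat g - 1) * (mat g - 1) = 0 ∧ mat g * B * (mat g)ᵀ = B}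

/-- The form `B` is alternating and nondegenerate, and the orthogonal sum of its blocks. -/
structure OrthogonalSum (β : Fin n → Fin m) (B : Matrix (Fin n) (Fin n) ℂ) : Prop where
  unit : IsUnit B
  skew : Bᵀ = -B
  block : BlockDiagonal β B

/-- The group `G` respects the blocks of `B` up to characters. -/
def Similitudes (β : Fin n → Fin m) (B : Matrix (Fin n) (Fin n) ℂ)
    (G : Subgroup (Matrix.GeneralLinearGroup (Fin n) ℂ)) : Prop :=
  ∃ μ : Fin m → G →* ℂ, ∀ (g : G) (a b : Fin n),
    (mat g * B * (mat g)ᵀ) a b = μ (β a) g * B a b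

/-- The form `B` is alternating and nondegenerate, and the orthogonal sum of its blocks. The group `G`
is block diagonal, respects the blocks of `B` up to characters, acts strongly irreducibly on every
piece, and no two pieces are isomorphic up to scalars; for every piece, the set of the quadratic
unipotent elements of `G` satisfies `SmallDefects`. -/
structure LocalMonodromy (β : Fin n → Fin m) (B : Matrix (Fin n) (Fin n) ℂ)
    (G : Subgroup (Matrix.GeneralLinearGroup (Fin n) ℂ)) : Prop where
  form : OrthogonalSum β B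
  group : BlockGroup β G
  similitudes : Similitudes β B G
  irreducible : ∀ j, Sm.StronglyIrreducible (piece β G group j)
  distinct : ∀ i j, i ≠ j → ¬ Gk.IsoUpToScalars (piece β G group i) (piece β G group j)
  small : ∀ j, Gk.SmallDefects (piece β G group j) (quadratics B G)

/-- The block diagonal matrices which respect the form `B`: the product of the symplectic groups of
the blocks. -/
def Isometry (β : Fin n → Fin m) (B g : Matrix (Fin n) (Fin n) ℂ) : Prop :=
  BlockDiagonal β g ∧ g * B * gᵀ = B

end pieces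

end Pool.Agent.V11219.Per
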