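import Mathlib
import Pool.Agent.V11219.PerDefs

/-!
# Families of 1-motives with local monodromy conditions: definitions
-/

set_option autoImplicit false

open scoped Matrix

namespace Pool.Agent.V11219.Om

open Pool.Agent.V11219.Per

variable {p q m : ℕ}

/-- The matrix `((g, 0), (w, 1))`, with rows and columns numbered by the `p` cycles and then the `q`
paths: the cycles are mapped to cycles by `g`, and every path to itself plus a cycle, a row of `w`. -/
def ext (g : Matrix (Fin p) (Fin p) ℂ) (w : Matrix (Fin q) (Fin p) ℂ) :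
    Matrix (Fin (p + q)) (Fin (p + q)) ℂ :=
  Matrix.reindex finSumFinEquiv finSumFinEquiv (Matrix.fromBlocks g 0 w 1)

/-- The rows of `w` which belong to the paths `a` of the piece `γ a` are supported on the cycles of this
piece. -/
def Compatible (β : Fin p → Fin m) (γ : Fin q → Fin m) (w : Matrix (Fin q) (Fin p) ℂ) : Prop :=
  ∀ a b, γ a ≠ β b → w a b = 0

theorem ext_mul (g g' : Matrix (Fin p) (Fin p) ℂ) (w w' : Matrix (Fin q) (Fin p) ℂ) :
    ext g w * ext g' w' = ext (g * g') (w * g' + w') := by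
  rw [ext, ext, ext, Matrix.reindex_apply, Matrix.reindex_apply, Matrix.reindex_apply,
    Matrix.submatrix_mul_equiv, Matrix.fromBlocks_multiply]
  simp

theorem ext_one : ext (1 : Matrix (Fin p) (Fin p) ℂ) (0 : Matrix (Fin q) (Fin p) ℂ) = 1 := by
  rw [ext, Matrix.fromBlocks_one, Matrix.reindex_apply, Matrix.submatrix_one_equiv]

theorem ext_inj {g g' : Matrix (Fin p) (Fin p) ℂ} {w w' : Matrix (Fin q) (Fin p) ℂ}
    (h : ext g w = ext g' w') : g = g' ∧ w = w' := by
  have h1 := (Matrix.reindex finSumFinEquiv finSumFinEquiv).injective h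
  rw [Matrix.fromBlocks_inj] at h1
  exact ⟨h1.1, h1.2.2.1⟩

/-- If `ext g w` is the matrix of an invertible element then its inverse is of this form. -/
theorem ext_inv (g : Matrix.GeneralLinearGroup (Fin p) ℂ) (w : Matrix (Fin q) (Fin p) ℂ)
    (h : Matrix.GeneralLinearGroup (Fin (p + q)) ℂ)
    (he : (h : Matrix (Fin (p + q)) (Fin (p + q)) ℂ) = ext (g : Matrix (Fin p) (Fin p) ℂ) w) :
    ((h⁻¹ : Matrix.GeneralLinearGroup (Fin (p + q)) ℂ) : Matrix (Fin (p + q)) (Fin (p + q)) ℂ) =
      ext ((g⁻¹ : Matrix.GeneralLinearGroup (Fin p) ℂ) : Matrix (Fin p) (Fin p) ℂ)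
        (-(w * ((g⁻¹ : Matrix.GeneralLinearGroup (Fin p) ℂ) : Matrix (Fin p) (Fin p) ℂ))) := by
  have h1 : (h : Matrix (Fin (p + q)) (Fin (p + q)) ℂ) *
      ext ((g⁻¹ : Matrix.GeneralLinearGroup (Fin p) ℂ) : Matrix (Fin p) (Fin p) ℂ)
        (-(w * ((g⁻¹ : Matrix.GeneralLinearGroup (Fin p) ℂ) : Matrix (Fin p) (Fin p) ℂ))) = 1 := by
    rw [he, ext_mul, add_neg_cancel, ← Units.val_mul, mul_inv_cancel, Units.val_one, ext_one]
  exact (Units.inv_eq_of_mul_eq_one_right h1).trans rfl

/-- The group of the action on the cycles of a group of matrices `ext g w`. -/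
def cycles (G : Subgroup (Matrix.GeneralLinearGroup (Fin (p + q)) ℂ)) :
    Subgroup (Matrix.GeneralLinearGroup (Fin p) ℂ) where
  carrier := {g | ∃ w : Matrix (Fin q) (Fin p) ℂ, ∃ h ∈ G,
    (h : Matrix (Fin (p + q)) (Fin (p + q)) ℂ) = ext (g : Matrix (Fin p) (Fin p) ℂ) w}
  mul_mem' := by
    rintro g g' ⟨w, h, hh, he⟩ ⟨w', h', hh', he'⟩
    exact ⟨_, h * h', G.mul_mem hh hh', by rw [Units.val_mul, he, he', ext_mul, Units.val_mul]⟩
  one_mem' := ⟨0, 1, G.one_mem, by rw [Units.val_one, Units.val_one, ext_one]⟩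
  inv_mem' := by
    rintro g ⟨w, h, hh, he⟩
    exact ⟨_, h⁻¹, G.inv_mem hh, ext_inv g w h he⟩

/-- The matrices of the group `G` are of the form `ext g w`, and compatible with the pieces; the group of
its action on the cycles satisfies the condition `LocalMonodromy` on the local monodromy; and no
nonzero combination of the cycles and paths is fixed by the group. -/
structure PathMonodromy (β : Fin p → Fin m) (γ : Fin q → Fin m) (B : Matrix (Fin p) (Fin p) ℂ)
    (G : Subgroup (Matrix.GeneralLinearGroup (Fin (p + q)) ℂ)) : Prop where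
  shape : ∀ g ∈ G, ∃ (g₀ : Matrix (Fin p) (Fin p) ℂ) (w : Matrix (Fin q) (Fin p) ℂ),
    (g : Matrix (Fin (p + q)) (Fin (p + q)) ℂ) = ext g₀ w ∧ Compatible β γ w
  cycles : LocalMonodromy β B (cycles G)
  independent : ∀ x : Fin (p + q) → ℂ,
    (∀ g ∈ G, x ᵥ* (g : Matrix (Fin (p + q)) (Fin (p + q)) ℂ) = x) → x = 0

/-- The matrices `ext g w` for which `g` is an isometry of the form `B` and `w` is arbitrary, both
compatible with the pieces: the product over the pieces of the semidirect products of the symplectic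
groups and of sums of copies of their standard representations. -/
def ExtIsometry (β : Fin p → Fin m) (γ : Fin q → Fin m) (B : Matrix (Fin p) (Fin p) ℂ)
    (y : Matrix (Fin (p + q)) (Fin (p + q)) ℂ) : Prop :=
  ∃ (g : Matrix (Fin p) (Fin p) ℂ) (w : Matrix (Fin q) (Fin p) ℂ),
    y = ext g w ∧ Isometry β B g ∧ Compatible β γ w

end Pool.Agent.V11219.Om
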