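import Pool.Agent.V11219.PerFam
import Pool.Agent.Y123.GN.E8

/-!
# The product of the symplectic groups of the blocks is perfect and contained in the Galois group
-/

set_option linter.unusedSectionVars false

open Matrix Module Pool.Agent.Y123.GN Pool.Agent.V11219.Gk
open scoped commutatorElement

namespace Pool.Agent.V11219.Per

variable {n m : ℕ} {β : Fin n → Fin m} {B J : Matrix (Fin n) (Fin n) ℂ}

/-- Extension by zero. -/
noncomputable def inc (β : Fin n → Fin m) (j : Fin m) (v : {a // β a = j} → ℂ) (a : Fin n) : ℂ :=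
  if h : β a = j then v ⟨a, h⟩ else 0

theorem inc_off {j : Fin m} (v : {a // β a = j} → ℂ) {a : Fin n} (h : β a ≠ j) :
    inc β j v a = 0 := dif_neg h

theorem inc_on {j : Fin m} (v : {a // β a = j} → ℂ) (a : {a // β a = j}) :
    inc β j v a.1 = v a := by
  rw [inc, dif_pos a.2]

theorem vecMul_off (hJ : BlockDiagonal β J) {j : Fin m} {v : Fin n → ℂ}
    (hv : ∀ a, β a ≠ j → v a = 0) {b : Fin n} (hb : β b ≠ j) : (v ᵥ* J) b = 0 := by
  rw [Matrix.vecMul, dotProduct]
  refine Finset.sum_eq_zero fun a _ => ?_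
  by_cases ha : β a = j
  · have h1 : J a b = 0 := hJ a b (by rw [ha]; exact Ne.symm hb)
    rw [h1, mul_zero]
  · rw [hv a ha, zero_mul]

theorem ro_bd (hJ : BlockDiagonal β J) {j : Fin m} {u v : Fin n → ℂ}
    (hu : ∀ a, β a ≠ j → u a = 0) (hv : ∀ a, β a ≠ j → v a = 0) : BlockDiagonal β (ro J u v) := by
  intro a b hab
  rw [ro, Matrix.vecMulVec_apply]
  by_cases ha : β a = j
  · rw [vecMul_off hJ hv (b := b) (by rw [← ha]; exact Ne.symm hab), mul_zero]
  · rw [hu a ha, zero_mul]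

theorem nv_eq_ro (v : Fin n → ℂ) : nv J v = ro J v v := rfl

theorem LX_single (hJ : BlockDiagonal β B⁻¹) (j : Fin m) (v : {a // β a = j} → ℂ) :
    LX β (Pi.single j ((Cf β B j v).smulRight v)) = nv B⁻¹ (inc β j v) := by
  refine bd_ext (LX_bd _) (ro_bd hJ (fun a => inc_off v) (fun a => inc_off v)) fun k => ?_
  rw [blk_LX]
  ext a b
  change _ = (inc β j v) a.1 * ((inc β j v) ᵥ* B⁻¹) b.1
  by_cases hk : k = j
  · subst hk
    rw [Pi.single_eq_same, inc_on, LinearMap.toMatrix'_apply, LinearMap.smulRight_apply,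
      Pi.smul_apply, smul_eq_mul, mul_comm]
    congr 1
    have h1 : (fun j' => if j' = b then (1 : ℂ) else 0) = Pi.single b 1 := by
      funext j'
      rw [Pi.single_apply]
    rw [Cf_apply, Matrix.dotProduct_mulVec]
    first
      | rw [h1, dotProduct_single_one]
      | rw [dotProduct_single_one]
    rw [Matrix.vecMul, Matrix.vecMul, dotProduct, dotProduct,
      ← Fintype.sum_subtype_add_sum_subtype (fun c => β c = k)
        (fun c => inc β k v c * B⁻¹ c b.1)]
    have h0 : ∑ c : {c // ¬ β c = k}, inc β k v c.1 * B⁻¹ c.1 b.1 = 0 := by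
      refine Finset.sum_eq_zero fun c _ => ?_
      rw [inc_off v c.2, zero_mul]
    rw [h0, add_zero]
    refine Finset.sum_congr rfl fun c _ => ?_
    rw [inc_on]
    rfl
  · rw [Pi.single_eq_of_ne hk, map_zero, Matrix.zero_apply, inc_off v (a := a.1)
      (by rw [a.2]; exact hk), zero_mul]

/-- The group of block isometries. -/
def IsoG (β : Fin n → Fin m) (B : Matrix (Fin n) (Fin n) ℂ) :
    Subgroup (Matrix.GeneralLinearGroup (Fin n) ℂ) where
  carrier := {g | Isometry β B (g : Matrix (Fin n) (Fin n) ℂ)}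
  mul_mem' := by
    rintro g h ⟨h1, h2⟩ ⟨h3, h4⟩
    refine ⟨by rw [Units.val_mul]; exact bd_mul h1 h3, ?_⟩
    rw [Units.val_mul, transpose_mul]
    calc (g : Matrix (Fin n) (Fin n) ℂ) * h * B * ((h : Matrix (Fin n) (Fin n) ℂ)ᵀ *
          (g : Matrix (Fin n) (Fin n) ℂ)ᵀ) = g * (h * B * (h : Matrix (Fin n) (Fin n) ℂ)ᵀ) *
            (g : Matrix (Fin n) (Fin n) ℂ)ᵀ := by simp only [Matrix.mul_assoc]
      _ = B := by rw [h4, h2]
  one_mem' := ⟨by rw [Units.val_one]; exact bd_one, by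
    rw [Units.val_one, Matrix.one_mul, transpose_one, Matrix.mul_one]⟩
  inv_mem' := by
    rintro g ⟨h1, h2⟩
    have e1 : ((g⁻¹ : Matrix.GeneralLinearGroup (Fin n) ℂ) : Matrix (Fin n) (Fin n) ℂ) =
      (g : Matrix (Fin n) (Fin n) ℂ)⁻¹ := Matrix.coe_units_inv g
    refine ⟨by rw [e1]; exact bd_inv h1 g.isUnit, ?_⟩
    have e2 : ((g⁻¹ : Matrix.GeneralLinearGroup (Fin n) ℂ) : Matrix (Fin n) (Fin n) ℂ) *
        (g : Matrix (Fin n) (Fin n) ℂ) = 1 := by
      rw [← Units.val_mul, inv_mul_cancel, Units.val_one]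
    have e3 : (g : Matrix (Fin n) (Fin n) ℂ)ᵀ *
        ((g⁻¹ : Matrix.GeneralLinearGroup (Fin n) ℂ) : Matrix (Fin n) (Fin n) ℂ)ᵀ = 1 := by
      rw [← transpose_mul, e2, transpose_one]
    calc ((g⁻¹ : Matrix.GeneralLinearGroup (Fin n) ℂ) : Matrix (Fin n) (Fin n) ℂ) * B *
        ((g⁻¹ : Matrix.GeneralLinearGroup (Fin n) ℂ) : Matrix (Fin n) (Fin n) ℂ)ᵀ =
        ((g⁻¹ : Matrix.GeneralLinearGroup (Fin n) ℂ) : Matrix (Fin n) (Fin n) ℂ) *
          ((g : Matrix (Fin n) (Fin n) ℂ) * B * (g : Matrix (Fin n) (Fin n) ℂ)ᵀ) *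
        ((g⁻¹ : Matrix.GeneralLinearGroup (Fin n) ℂ) : Matrix (Fin n) (Fin n) ℂ)ᵀ := by rw [h2]
      _ = (((g⁻¹ : Matrix.GeneralLinearGroup (Fin n) ℂ) : Matrix (Fin n) (Fin n) ℂ) * g) * B *
          ((g : Matrix (Fin n) (Fin n) ℂ)ᵀ * ((g⁻¹ : Matrix.GeneralLinearGroup (Fin n) ℂ) :
            Matrix (Fin n) (Fin n) ℂ)ᵀ) := by simp only [Matrix.mul_assoc]
      _ = B := by rw [e2, e3, Matrix.one_mul, Matrix.mul_one]

/-- The nilpotent matrices. -/
def SN (β : Fin n → Fin m) (B : Matrix (Fin n) (Fin n) ℂ) : Set (Matrix (Fin n) (Fin n) ℂ) :=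
  {N | ∃ (j : Fin m) (v : {a // β a = j} → ℂ) (t : ℂ), N = t • nv B⁻¹ (inc β j v)}

/-- The monoid generated by the transvections. -/
noncomputable def MM (β : Fin n → Fin m) (B : Matrix (Fin n) (Fin n) ℂ) :
    Submonoid (Matrix (Fin n) (Fin n) ℂ) :=
  Submonoid.closure {x : Matrix (Fin n) (Fin n) ℂ | ∃ N ∈ SN β B, x = IsNilpotent.exp N}

variable (hu : IsUnit B) (hs : Bᵀ = -B) (hb : BlockDiagonal β B)
include hu hs hb

theorem one_block (j : Fin m) {x : Module.End ℂ ({a // β a = j} → ℂ)}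
    (hx : ∀ u v, Cf β B j (x u) (x v) = Cf β B j u v) :
    LX β (Function.update 1 j x) ∈ MM β B := by
  have hJ : BlockDiagonal β B⁻¹ := bd_inv hb hu
  have h1 := Pool.Agent.W948.ZC.TR.aux ℂ _ ({a // β a = j} → ℂ) (Cf β B j) rfl (Cf_alt hu hs j)
    (fun u hu' => Cf_nondeg hu hb j u hu') x hx
  clear hx
  unfold Pool.Agent.W948.ZC.TR.G at h1
  induction h1 using Submonoid.closure_induction with
  | mem T h =>
    obtain ⟨c, u, rfl⟩ := h
    have e1 : (Function.update 1 j (1 + c • (Cf β B j u).smulRight u) :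
        ∀ j, Module.End ℂ ({a // β a = j} → ℂ)) =
        (1 : ∀ j, Module.End ℂ ({a // β a = j} → ℂ)) +
          c • (Pi.single j ((Cf β B j u).smulRight u) :
            ∀ j, Module.End ℂ ({a // β a = j} → ℂ)) := by
      funext k
      by_cases hk : k = j
      · subst hk
        rw [Function.update_self, Pi.add_apply, Pi.smul_apply, Pi.single_eq_same, Pi.one_apply]
      · rw [Function.update_of_ne hk, Pi.add_apply, Pi.smul_apply, Pi.single_eq_of_ne hk, smul_zero,
          add_zero]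
    rw [e1, map_add, LX_one, map_smul, LX_single hJ, ← nv_exp (inv_tr hu hs)]
    exact Submonoid.subset_closure ⟨_, ⟨j, u, c, rfl⟩, rfl⟩
  | one =>
    have e1 : (Function.update 1 j 1 : ∀ j, Module.End ℂ ({a // β a = j} → ℂ)) = 1 :=
      Function.update_eq_self j 1
    rw [e1, LX_one]
    exact one_mem _
  | mul x y _ _ hx hy =>
    have e1 : (Function.update 1 j (x * y) : ∀ j, Module.End ℂ ({a // β a = j} → ℂ)) =
        (Function.update 1 j x : ∀ j, Module.End ℂ ({a // β a = j} → ℂ)) *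
          (Function.update 1 j y : ∀ j, Module.End ℂ ({a // β a = j} → ℂ)) := by
      funext k
      by_cases hk : k = j
      · subst hk
        rw [Pi.mul_apply, Function.update_self, Function.update_self, Function.update_self]
      · rw [Pi.mul_apply, Function.update_of_ne hk, Function.update_of_ne hk,
          Function.update_of_ne hk, Pi.one_apply, mul_one]
    rw [e1, LX_mul]
    exact mul_mem hx hy

theorem iso_gen {g : Matrix (Fin n) (Fin n) ℂ} (hg : Isometry β B g) : g ∈ MM β B := by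
  classical
  have h1 : ∀ j (x y : {a // β a = j} → ℂ), Cf β B j (Matrix.toLin' (blk β j g) x)
      (Matrix.toLin' (blk β j g) y) = Cf β B j x y := by
    intro j x y
    have h2 := Cf_act hu hb hg.1 j one_ne_zero (by rw [hg.2, one_smul]) x y
    rwa [one_mul] at h2
  have h2 : ∀ F : Finset (Fin m), LX β (fun j => if j ∈ F then Matrix.toLin' (blk β j g) else 1) ∈
      MM β B := by
    intro F
    induction F using Finset.induction_on with
    | empty =>
      have e1 : (fun j : Fin m => if j ∈ (∅ : Finset (Fin m)) then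
          Matrix.toLin' (blk β j g) else 1) = 1 := by
        funext j
        rw [if_neg (Finset.notMem_empty j)]
        rfl
      rw [e1, LX_one]
      exact one_mem _
    | insert j F hj ih =>
      have e1 : (fun k : Fin m => if k ∈ insert j F then Matrix.toLin' (blk β k g) else 1) =
          (Function.update 1 j (Matrix.toLin' (blk β j g)) :
            ∀ j, Module.End ℂ ({a // β a = j} → ℂ)) *
            fun k : Fin m => if k ∈ F then Matrix.toLin' (blk β k g) else 1 := by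
        funext k
        rw [Pi.mul_apply]
        by_cases hk : k = j
        · subst hk
          rw [Function.update_self, if_pos (Finset.mem_insert_self _ _), if_neg hj, mul_one]
        · rw [Function.update_of_ne hk, Pi.one_apply, one_mul]
          by_cases hF : k ∈ F
          · rw [if_pos hF, if_pos (Finset.mem_insert_of_mem hF)]
          · rw [if_neg hF, if_neg fun h => (Finset.mem_insert.1 h).elim hk hF]
      rw [e1, LX_mul]
      exact mul_mem (one_block hu hs hb j (h1 j)) ih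
  have h3 := h2 Finset.univ
  have e1 : (fun j : Fin m => if j ∈ (Finset.univ : Finset (Fin m)) then
      Matrix.toLin' (blk β j g) else 1) = fun j => Matrix.toLin' (blk β j g) := by
    funext j
    rw [if_pos (Finset.mem_univ j)]
  rw [e1, LX_blk hg.1] at h3
  exact h3

theorem det_ne : B.det ≠ 0 := ((Matrix.isUnit_iff_isUnit_det _).1 hu).ne_zero

theorem isoG_of_iso {g : Matrix (Fin n) (Fin n) ℂ} (hg : BlockDiagonal β g)
    (h : gᵀ * B⁻¹ * g = B⁻¹) (hd : g.det = 1) :
    ∃ u ∈ IsoG β B, (u : Matrix (Fin n) (Fin n) ℂ) = g := by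
  have hu' : IsUnit g := (Matrix.isUnit_iff_isUnit_det _).2 (by rw [hd]; exact isUnit_one)
  exact ⟨hu'.unit, ⟨hg, iso_flip (det_ne hu hs hb) h⟩, rfl⟩

/-- The group is perfect and generated by unipotent elements. -/
theorem isoG_perf : IsoG β B ≤ ⁅Ug (IsoG β B), Ug (IsoG β B)⁆ := by
  have hJ : (B⁻¹)ᵀ = -B⁻¹ := inv_tr hu hs
  have hJb : BlockDiagonal β B⁻¹ := bd_inv hb hu
  have hJd : (B⁻¹).det ≠ 0 := inv_det (det_ne hu hs hb)
  have hJ' : (B⁻¹)ᵀ = (-1 : ℂ) • B⁻¹ := by rw [hJ, neg_one_smul]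
  have hsq : ∀ (v : Fin n → ℂ) (t : ℂ), (t • nv B⁻¹ v) * (t • nv B⁻¹ v) = 0 := by
    intro v t
    rw [smul_mul_smul_comm, nv_sq hJ, smul_zero]
  refine perf (S := SN β B) ?_ ?_ ?_ ?_ ?_
  · rintro N ⟨j, v, t, rfl⟩
    exact ⟨2, by rw [pow_two, hsq]⟩
  · rintro N ⟨j, v, s, rfl⟩ t
    exact ⟨j, v, t * s, by rw [smul_smul]⟩
  · rintro N ⟨j, v, t, rfl⟩
    refine isoG_of_iso hu hs hb ?_ (nv_isom hJ _ t) (det_exp (nv_nil hJ _) t)
    rw [nv_exp hJ]
    exact bd_add bd_one (bd_smul t (ro_bd hJb (fun a => inc_off v) (fun a => inc_off v)))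
  · intro g hg
    exact iso_gen hu hs hb hg
  · rintro N ⟨j, v', t, rfl⟩
    set v := inc β j v' with hvdef
    have hvs : ∀ a, β a ≠ j → v a = 0 := fun a => inc_off v'
    by_cases hv : v = 0
    · refine ⟨1, (IsoG β B).one_mem, 0, zero_ne_one, ?_⟩
      have h0 : nv B⁻¹ (0 : Fin n → ℂ) = 0 := by
        unfold nv
        rw [zero_vecMulVec]
      rw [hv, h0, smul_zero, Matrix.mul_zero, zero_smul, Matrix.zero_mul]
    obtain ⟨w', hw'⟩ := Pool.Agent.Y123.GN.nondeg hJd hv
    set w : Fin n → ℂ := fun a => if β a = j then w' a else 0 with hwdef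
    have hws : ∀ a, β a ≠ j → w a = 0 := fun a ha => if_neg ha
    have hw : bf B⁻¹ v w = 1 := by
      rw [← hw']
      unfold bf
      rw [dotProduct_mulVec, dotProduct_mulVec, dotProduct, dotProduct]
      refine Finset.sum_congr rfl fun b _ => ?_
      by_cases hbj : β b = j
      · rw [hwdef]
        dsimp only
        rw [if_pos hbj]
      · rw [vecMul_off hJb hvs hbj, zero_mul, zero_mul]
    have hvv : bf B⁻¹ v v = 0 := form_self hJ v
    have hww : bf B⁻¹ w w = 0 := form_self hJ w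
    have hwv : bf B⁻¹ w v = -1 := by rw [bf_symm hJ', hw]; ring
    set H : Matrix (Fin n) (Fin n) ℂ := 1 - ro B⁻¹ v w - (1 / 2 : ℂ) • ro B⁻¹ w v with hH
    set H' : Matrix (Fin n) (Fin n) ℂ := 1 + ro B⁻¹ w v + (1 / 2 : ℂ) • ro B⁻¹ v w with hH'
    have hHb : BlockDiagonal β H :=
      bd_sub (bd_sub bd_one (ro_bd hJb hvs hws)) (bd_smul _ (ro_bd hJb hws hvs))
    have hadj : Hᵀ * B⁻¹ = B⁻¹ * H' := by
      rw [hH, hH', transpose_sub, transpose_sub, transpose_one, transpose_smul, Matrix.sub_mul,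
        Matrix.sub_mul, Matrix.one_mul, Matrix.smul_mul, ro_adj (by norm_num) hJ',
        ro_adj (by norm_num) hJ', Matrix.mul_add, Matrix.mul_add, Matrix.mul_one, Matrix.mul_smul]
      module
    have hinv : H' * H = 1 := by
      rw [hH, hH']
      simp only [Matrix.add_mul, Matrix.mul_sub, Matrix.one_mul, Matrix.mul_one, Matrix.smul_mul,
        Matrix.mul_smul, ro_mul, hvv, hww, hw, hwv]
      module
    have hiso := iso_of_adj hadj hinv
    have hiso2 := iso_mul hiso hiso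
    have hd2 : (H * H).det = 1 := by rw [det_mul, iso_det_sq hJd hiso]
    obtain ⟨u, hu1, hu'⟩ := isoG_of_iso hu hs hb (bd_mul hHb hHb) hiso2 hd2
    refine ⟨u, hu1, 16, by norm_num, ?_⟩
    have hn : nv B⁻¹ v = ro B⁻¹ v v := rfl
    have h1 : H * ro B⁻¹ v v = (4 : ℂ) • ro B⁻¹ v v * H := by
      rw [hH]
      simp only [Matrix.sub_mul, Matrix.mul_sub, Matrix.one_mul, Matrix.mul_one, Matrix.smul_mul,
        Matrix.mul_smul, ro_mul, hvv, hw, hwv]
      module
    rw [hu', hn, Matrix.mul_smul, Matrix.mul_assoc, h1, ← Matrix.mul_assoc, Matrix.mul_smul, h1]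
    simp only [Matrix.smul_mul, Matrix.mul_assoc]
    module

omit hu hs hb

variable {Z : ℝ → Matrix (Fin n) (Fin n) ℂ} {G : Subgroup (Matrix.GeneralLinearGroup (Fin n) ℂ)}

/-- **The Galois group contains the symplectic groups of the blocks.** -/
theorem isoG_le (hG : ∀ g, g ∈ G ↔ Pres Z (g : Matrix (Fin n) (Fin n) ℂ) ∧
      Pres Z ((g⁻¹ : Matrix.GeneralLinearGroup (Fin n) ℂ) : Matrix (Fin n) (Fin n) ℂ))
    (hL : LocalMonodromy β B G) : IsoG β B ≤ G := by
  have hJ : (B⁻¹)ᵀ = -B⁻¹ := inv_tr hL.form.unit hL.form.skew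
  have hJb : BlockDiagonal β B⁻¹ := bd_inv hL.form.block hL.form.unit
  have key : ∀ x ∈ MM β B, ∃ u ∈ G, (u : Matrix (Fin n) (Fin n) ℂ) = x := by
    intro x hx
    unfold MM at hx
    induction hx using Submonoid.closure_induction with
    | mem x h =>
      obtain ⟨N, ⟨j, v, t, rfl⟩, rfl⟩ := h
      have h1 := rank_one_mem hG hL j v
      rw [LX_single hJb] at h1
      have h2 := nv_sq hJ (inc β j v)
      have h3 : (1 + t • nv B⁻¹ (inc β j v)) * (1 + (-t) • nv B⁻¹ (inc β j v)) = 1 := by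
        rw [Matrix.mul_add, Matrix.mul_one, Matrix.add_mul, Matrix.one_mul, smul_mul_smul_comm, h2,
          smul_zero, add_zero, neg_smul]
        abel
      have h4 := mul_eq_one_comm.1 h3
      refine ⟨⟨_, _, h3, h4⟩, (hG _).2 ⟨pres_of_lie h2 h1 t, pres_of_lie h2 h1 (-t)⟩, ?_⟩
      rw [nv_exp hJ]
    | one => exact ⟨1, G.one_mem, Units.val_one⟩
    | mul x y _ _ hx hy =>
      obtain ⟨u, hu, rfl⟩ := hx
      obtain ⟨v, hv, rfl⟩ := hy
      exact ⟨u * v, G.mul_mem hu hv, Units.val_mul _ _⟩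
  intro g hg
  obtain ⟨u, hu, h1⟩ := key _ (iso_gen hL.form.unit hL.form.skew hL.form.block hg)
  have h2 : u = g := Units.ext h1
  rwa [← h2]

theorem isoG_le_comm (hG : ∀ g, g ∈ G ↔ Pres Z (g : Matrix (Fin n) (Fin n) ℂ) ∧
      Pres Z ((g⁻¹ : Matrix.GeneralLinearGroup (Fin n) ℂ) : Matrix (Fin n) (Fin n) ℂ))
    (hL : LocalMonodromy β B G) : IsoG β B ≤ ⁅Ug G, Ug G⁆ :=
  mono_comm (isoG_le hG hL) (isoG_perf hL.form.unit hL.form.skew hL.form.block)

/-- The quotient of two isomorphisms. -/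
theorem quot_iso (hu : IsUnit B) {X Y Q : Matrix (Fin n) (Fin n) ℂ}
    {μ : Fin m → ℂ} (hμ : ∀ j, μ j ≠ 0) (hXu : IsUnit X) (hXb : BlockDiagonal β X)
    (hYb : BlockDiagonal β Y) (hX : ∀ a b, (X * Q * Xᵀ) a b = μ (β a) * B a b)
    (hY : ∀ a b, (Y * Q * Yᵀ) a b = μ (β a) * B a b) :
    ∃ g ∈ IsoG β B, (g : Matrix (Fin n) (Fin n) ℂ) * X = Y := by
  have hXd : IsUnit X.det := (Matrix.isUnit_iff_isUnit_det _).1 hXu
  have hX1 : X * X⁻¹ = 1 := Matrix.mul_nonsing_inv _ hXd
  have hX2 : X⁻¹ * X = 1 := Matrix.nonsing_inv_mul _ hXd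
  set D : Matrix (Fin n) (Fin n) ℂ := Matrix.diagonal fun a => μ (β a) with hD
  have hDB : ∀ {M : Matrix (Fin n) (Fin n) ℂ}, (∀ a b, M a b = μ (β a) * B a b) → M = D * B := by
    intro M hM
    ext a b
    rw [hM, hD, Matrix.diagonal_mul]
  have hDc : ∀ {M : Matrix (Fin n) (Fin n) ℂ}, BlockDiagonal β M → D * M = M * D := by
    intro M hM
    ext a b
    rw [hD, Matrix.diagonal_mul, Matrix.mul_diagonal]
    by_cases hab : β a = β b
    · rw [hab, mul_comm]
    · rw [hM a b hab, mul_zero, zero_mul]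
  have hDi : (Matrix.diagonal fun a => (μ (β a))⁻¹) * D = 1 := by
    rw [hD, Matrix.diagonal_mul_diagonal]
    ext a b
    by_cases hab : a = b
    · subst hab
      rw [Matrix.diagonal_apply_eq, Matrix.one_apply_eq, inv_mul_cancel₀ (hμ _)]
    · rw [Matrix.diagonal_apply_ne _ hab, Matrix.one_apply_ne hab]
  have hX' := hDB hX
  have hY' := hDB hY
  set g := Y * X⁻¹ with hg
  have hgb : BlockDiagonal β g := bd_mul hYb (bd_inv hXb hXu)
  have hgX : g * X = Y := by rw [hg, Matrix.mul_assoc, hX2, Matrix.mul_one]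
  have h1 : g * (D * B) * gᵀ = D * B := by
    have h0 : g * (X * Q * Xᵀ) * gᵀ = Y * Q * Yᵀ := by
      rw [← hgX, transpose_mul g X]
      simp only [Matrix.mul_assoc]
    rw [← hX', h0, hY', hX']
  have h2 : D * (g * B * gᵀ) = D * B := by
    rw [← Matrix.mul_assoc, ← Matrix.mul_assoc, hDc hgb, Matrix.mul_assoc g D B]
    exact h1
  have h3 : g * B * gᵀ = B := by
    have h4 := congrArg (fun M => (Matrix.diagonal fun a => (μ (β a))⁻¹) * M) h2
    rw [← Matrix.mul_assoc, hDi, Matrix.one_mul, ← Matrix.mul_assoc, hDi, Matrix.one_mul] at h4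
    exact h4
  have h5 : IsUnit g := by
    rw [Matrix.isUnit_iff_isUnit_det]
    have h6 := congrArg Matrix.det h3
    rw [det_mul, det_mul, det_transpose] at h6
    have h7 : B.det ≠ 0 := ((Matrix.isUnit_iff_isUnit_det _).1 hu).ne_zero
    refine Ne.isUnit fun h0 => ?_
    rw [h0, zero_mul, zero_mul] at h6
    exact h7 h6.symm
  exact ⟨h5.unit, ⟨hgb, h3⟩, hgX⟩

end Pool.Agent.V11219.Per
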