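import Mathlib
import Pool.Agent.V11219.PerPerf
import Pool.Agent.V11219.OmDefs

/-!
# Lie algebras of extensions of trivial representations by sums of symplectic representations
-/

set_option linter.unusedSectionVars false
set_option linter.unusedVariables false

open Matrix Module Pool.Agent.Y123.GN

namespace Pool.Agent.V11219.Om

open Pool.Agent.V11219.Per

variable {p q m : ℕ} {β : Fin p → Fin m} {γ : Fin q → Fin m} {J : Matrix (Fin p) (Fin p) ℂ}

/-- The support is in the piece. -/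
def Supp (β : Fin p → Fin m) (j : Fin m) (v : Fin p → ℂ) : Prop := ∀ a, β a ≠ j → v a = 0

theorem Supp.zero {j : Fin m} : Supp β j (0 : Fin p → ℂ) := fun _ _ => rfl

theorem Supp.add {j : Fin m} {u v : Fin p → ℂ} (hu : Supp β j u) (hv : Supp β j v) :
    Supp β j (u + v) := fun a ha => by rw [Pi.add_apply, hu a ha, hv a ha, add_zero]

theorem Supp.smul {j : Fin m} {u : Fin p → ℂ} (t : ℂ) (hu : Supp β j u) :
    Supp β j (t • u) := fun a ha => by rw [Pi.smul_apply, hu a ha, smul_zero]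

theorem supp_single (a : Fin p) (t : ℂ) : Supp β (β a) (Pi.single a t) := fun b hb => by
  rw [Pi.single_apply, if_neg]
  rintro rfl
  exact hb rfl

theorem dot_supp {j : Fin m} {r : Fin p → ℂ} (hr : Supp β j r)
    (h : ∀ v : Fin p → ℂ, Supp β j v → r ⬝ᵥ v = 0) : r = 0 := by
  funext b
  by_cases hb : β b = j
  · have h1 := h (Pi.single b 1) (by rw [← hb]; exact supp_single b 1)
    rwa [dotProduct_single, mul_one] at h1
  · exact hr b hb

theorem row_nv (r v : Fin p → ℂ) : r ᵥ* nv J v = (r ⬝ᵥ v) • (v ᵥ* J) := by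
  rw [nv, vecMul_vecMulVec]

theorem nv_add (u v : Fin p → ℂ) : nv J (u + v) = nv J u + nv J v + (ro J u v + ro J v u) := by
  rw [nv, nv, nv, ro, ro, add_vecMul, add_vecMulVec, vecMulVec_add, vecMulVec_add]
  abel

theorem nv_smul (t : ℂ) (u : Fin p → ℂ) : nv J (t • u) = (t * t) • nv J u := by
  rw [nv, nv, smul_vecMul, smul_vecMulVec, vecMulVec_smul, smul_smul]

theorem nv_zero : nv J (0 : Fin p → ℂ) = 0 := by
  rw [nv, zero_vecMulVec]

theorem vJ_dot (u v : Fin p → ℂ) : (u ᵥ* J) ⬝ᵥ v = bf J u v := (dotProduct_mulVec u J v).symm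

theorem vJ_ne (hdet : J.det ≠ 0) {v : Fin p → ℂ} (hv : v ≠ 0) : v ᵥ* J ≠ 0 := by
  intro h
  apply hv
  have h2 : (v ᵥ* J) ᵥ* J⁻¹ = 0 := by rw [h, zero_vecMul]
  rw [vecMul_vecMul, mul_nonsing_inv _ (Ne.isUnit hdet), vecMul_one] at h2
  exact h2

theorem supp_vJ (hJb : BlockDiagonal β J) {j : Fin m} {v : Fin p → ℂ} (hv : Supp β j v) :
    Supp β j (v ᵥ* J) := fun _ hb => vecMul_off hJb hv hb

theorem nondeg_block (hJb : BlockDiagonal β J) (hdet : J.det ≠ 0) {j : Fin m} {v : Fin p → ℂ}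
    (hv : Supp β j v) (hv0 : v ≠ 0) : ∃ w, Supp β j w ∧ bf J v w = 1 := by
  obtain ⟨w', hw'⟩ := Pool.Agent.Y123.GN.nondeg hdet hv0
  refine ⟨fun a => if β a = j then w' a else 0, fun a ha => if_neg ha, ?_⟩
  rw [← hw', ← vJ_dot, ← vJ_dot, dotProduct, dotProduct]
  refine Finset.sum_congr rfl fun b _ => ?_
  by_cases hb : β b = j
  · rw [if_pos hb]
  · rw [vecMul_off hJb hv hb, zero_mul, zero_mul]

theorem bf_cross (hJb : BlockDiagonal β J) {i j : Fin m} (hij : i ≠ j) {u v : Fin p → ℂ}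
    (hu : Supp β i u) (hv : Supp β j v) : bf J u v = 0 := by
  rw [← vJ_dot, dotProduct]
  refine Finset.sum_eq_zero fun b _ => ?_
  by_cases hb : β b = i
  · rw [hv b (by rw [hb]; exact hij), mul_zero]
  · rw [vecMul_off hJb hu hb, zero_mul]

/-- The Lie algebra. -/
structure ExtLie (β : Fin p → Fin m) (γ : Fin q → Fin m) (J : Matrix (Fin p) (Fin p) ℂ)
    (𝔩 : Submodule ℂ (Matrix (Fin p) (Fin p) ℂ × Matrix (Fin q) (Fin p) ℂ)) : Prop where
  skew : Jᵀ = -J
  det : J.det ≠ 0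
  block : BlockDiagonal β J
  compat : ∀ y ∈ 𝔩, Compatible β γ y.2
  br : ∀ y ∈ 𝔩, ∀ z ∈ 𝔩, (y.1 * z.1 - z.1 * y.1, y.2 * z.1 - z.2 * y.1) ∈ 𝔩
  lift : ∀ j v, Supp β j v → ∃ w, (nv J v, w) ∈ 𝔩

variable {𝔩 : Submodule ℂ (Matrix (Fin p) (Fin p) ℂ × Matrix (Fin q) (Fin p) ℂ)}

/-- The values of the functional on the second components. -/
def Zr (𝔩 : Submodule ℂ (Matrix (Fin p) (Fin p) ℂ × Matrix (Fin q) (Fin p) ℂ)) (c : Fin q → ℂ)
    (X : Matrix (Fin p) (Fin p) ℂ) (r : Fin p → ℂ) : Prop := ∃ w, (X, w) ∈ 𝔩 ∧ c ᵥ* w = r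

section cocycle

variable (h : ExtLie β γ J 𝔩) {c : Fin q → ℂ} (hc : ∀ w, (0, w) ∈ 𝔩 → c ᵥ* w = 0)
include h hc

omit h in
theorem Zr.unique {X : Matrix (Fin p) (Fin p) ℂ} {r s : Fin p → ℂ} (hr : Zr 𝔩 c X r)
    (hs : Zr 𝔩 c X s) : r = s := by
  obtain ⟨w, hw, rfl⟩ := hr
  obtain ⟨w', hw', rfl⟩ := hs
  have h1 := 𝔩.sub_mem hw hw'
  rw [Prod.mk_sub_mk, sub_self] at h1
  have h2 := hc _ h1
  rw [vecMul_sub] at h2
  exact sub_eq_zero.1 h2

omit h hc in
theorem Zr.add {X Y : Matrix (Fin p) (Fin p) ℂ} {r s : Fin p → ℂ} (hr : Zr 𝔩 c X r)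
    (hs : Zr 𝔩 c Y s) : Zr 𝔩 c (X + Y) (r + s) := by
  obtain ⟨w, hw, rfl⟩ := hr
  obtain ⟨w', hw', rfl⟩ := hs
  exact ⟨w + w', 𝔩.add_mem hw hw', vecMul_add _ _ _⟩

omit h hc in
theorem Zr.smul {X : Matrix (Fin p) (Fin p) ℂ} {r : Fin p → ℂ} (t : ℂ) (hr : Zr 𝔩 c X r) :
    Zr 𝔩 c (t • X) (t • r) := by
  obtain ⟨w, hw, rfl⟩ := hr
  exact ⟨t • w, 𝔩.smul_mem t hw, vecMul_smul _ _ _⟩

omit h hc in
theorem Zr.sub {X Y : Matrix (Fin p) (Fin p) ℂ} {r s : Fin p → ℂ} (hr : Zr 𝔩 c X r)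
    (hs : Zr 𝔩 c Y s) : Zr 𝔩 c (X - Y) (r - s) := by
  obtain ⟨w, hw, rfl⟩ := hr
  obtain ⟨w', hw', rfl⟩ := hs
  exact ⟨w - w', 𝔩.sub_mem hw hw', vecMul_sub _ _ _⟩

omit hc in
theorem Zr.br {X Y : Matrix (Fin p) (Fin p) ℂ} {r s : Fin p → ℂ} (hr : Zr 𝔩 c X r)
    (hs : Zr 𝔩 c Y s) : Zr 𝔩 c (X * Y - Y * X) (r ᵥ* Y - s ᵥ* X) := by
  obtain ⟨w, hw, rfl⟩ := hr
  obtain ⟨w', hw', rfl⟩ := hs
  refine ⟨_, h.br _ hw _ hw', ?_⟩
  rw [vecMul_sub, vecMul_vecMul, vecMul_vecMul]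

omit h hc in
theorem Zr.zero : Zr 𝔩 c 0 0 := ⟨0, 𝔩.zero_mem, vecMul_zero _⟩

/-- The bracket of two elements of rank one. -/
theorem star {u v r s b : Fin p → ℂ} (hr : Zr 𝔩 c (nv J u) r) (hs : Zr 𝔩 c (nv J v) s)
    (hb : Zr 𝔩 c (ro J u v + ro J v u) b) :
    bf J u v • b = (r ⬝ᵥ v) • (v ᵥ* J) - (s ⬝ᵥ u) • (u ᵥ* J) := by
  have h1 := Zr.br h hr hs
  rw [row_nv, row_nv] at h1
  have h2 : nv J u * nv J v - nv J v * nv J u = bf J u v • (ro J u v + ro J v u) := by
    rw [nv_eq_ro, nv_eq_ro, ro_mul, ro_mul]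
    have h3 : bf J v u = -bf J u v := by
      rw [bf_symm (ε := -1) (by rw [h.skew, neg_one_smul])]
      ring
    rw [h3]
    module
  rw [h2] at h1
  exact (Zr.unique hc (hb.smul _) h1)

/-- The value at an element of rank one. -/
theorem value {j : Fin m} {u r : Fin p → ℂ} (hu : Supp β j u) (hr : Zr 𝔩 c (nv J u) r) :
    ∃ f : ℂ, r = f • (u ᵥ* J) := by
  by_cases hu0 : u = 0
  · subst hu0
    rw [nv_zero] at hr
    exact ⟨0, by rw [zero_smul]; exact Zr.unique hc hr Zr.zero⟩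
  obtain ⟨v, hv, huv⟩ := nondeg_block h.block h.det hu hu0
  obtain ⟨ws, hws⟩ := h.lift j v hv
  obtain ⟨wt, hwt⟩ := h.lift j (u + v) (hu.add hv)
  have hs : Zr 𝔩 c (nv J v) (c ᵥ* ws) := ⟨ws, hws, rfl⟩
  have ht : Zr 𝔩 c (nv J (u + v)) (c ᵥ* wt) := ⟨wt, hwt, rfl⟩
  set s := c ᵥ* ws
  set t := c ᵥ* wt
  have hb : Zr 𝔩 c (ro J u v + ro J v u) (t - r - s) := by
    have h1 := (ht.sub hr).sub hs
    have h2 : nv J (u + v) - nv J u - nv J v = ro J u v + ro J v u := by
      rw [nv_add]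
      abel
    rwa [h2] at h1
  have hb' : Zr 𝔩 c (ro J u (u + v) + ro J (u + v) u) ((t - r - s) + (2 : ℂ) • r) := by
    have h1 := hb.add (hr.smul 2)
    have h2 : ro J u v + ro J v u + (2 : ℂ) • nv J u = ro J u (u + v) + ro J (u + v) u := by
      rw [nv_eq_ro, ro, ro, ro, ro, ro, add_vecMul, vecMulVec_add, add_vecMulVec]
      module
    rwa [h2] at h1
  have e1 := star h hc hr hs hb
  have e2 := star h hc hr ht hb'
  have huu : bf J u u = 0 := form_self h.skew u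
  have hvu : bf J v u = -1 := by
    rw [bf_symm (ε := -1) (by rw [h.skew, neg_one_smul]), huv]
    ring
  have huuv : bf J u (u + v) = 1 := by
    unfold bf
    unfold bf at huv huu
    rw [mulVec_add, dotProduct_add, huv, huu, zero_add]
  rw [huv, one_smul] at e1
  rw [huuv, one_smul, e1, dotProduct_add, add_vecMul] at e2
  have ht' : t = r + s + ((r ⬝ᵥ v) • (v ᵥ* J) - (s ⬝ᵥ u) • (u ᵥ* J)) := by
    rw [← e1]
    abel
  have e3 : t ⬝ᵥ u = r ⬝ᵥ u + s ⬝ᵥ u - r ⬝ᵥ v := by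
    rw [ht', add_dotProduct, add_dotProduct, sub_dotProduct, smul_dotProduct, smul_dotProduct,
      vJ_dot, vJ_dot, huu, hvu, smul_zero, smul_eq_mul]
    ring
  rw [e3] at e2
  have e4 := congrArg (fun x => x ⬝ᵥ u) e2
  simp only [add_dotProduct, sub_dotProduct, smul_dotProduct, vJ_dot, huu, hvu, smul_eq_mul] at e4
  have e5 : r ⬝ᵥ u = 0 := by linear_combination (1 / 3 : ℂ) * e4
  refine ⟨r ⬝ᵥ v, ?_⟩
  rw [e5] at e2
  have e6 : (2 : ℂ) • r = (2 : ℂ) • ((r ⬝ᵥ v) • (u ᵥ* J)) := by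
    have e7 := congrArg (fun x => x - ((r ⬝ᵥ v) • (v ᵥ* J) - (s ⬝ᵥ u) • (u ᵥ* J))) e2
    have e8 : (2 : ℂ) • r = (r ⬝ᵥ v) • (v ᵥ* J) - (s ⬝ᵥ u) • (u ᵥ* J) + (2 : ℂ) • r -
        ((r ⬝ᵥ v) • (v ᵥ* J) - (s ⬝ᵥ u) • (u ᵥ* J)) := by abel
    rw [e8]
    refine e7.trans ?_
    module
  have e9 := congrArg (fun x => (1 / 2 : ℂ) • x) e6
  simpa [smul_smul] using e9

/-- The values are linear. -/
theorem additive {j : Fin m} {u v : Fin p → ℂ} (hu : Supp β j u) (hv : Supp β j v) {a b d : ℂ}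
    (huv : bf J u v ≠ 0) (ha : Zr 𝔩 c (nv J u) (a • (u ᵥ* J)))
    (hb : Zr 𝔩 c (nv J v) (b • (v ᵥ* J)))
    (hd : Zr 𝔩 c (nv J (u + v)) (d • ((u + v) ᵥ* J))) : d = a + b := by
  have h0 : Zr 𝔩 c (ro J u v + ro J v u) (d • ((u + v) ᵥ* J) - a • (u ᵥ* J) - b • (v ᵥ* J)) := by
    have h1 := (hd.sub ha).sub hb
    have h2 : nv J (u + v) - nv J u - nv J v = ro J u v + ro J v u := by
      rw [nv_add]
      abel
    rwa [h2] at h1
  have h1 := star h hc ha hb h0
  have hvu : bf J v u = -bf J u v := by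
    rw [bf_symm (ε := -1) (by rw [h.skew, neg_one_smul])]
    ring
  have huu : bf J u u = 0 := form_self h.skew u
  have hne : u + v ≠ 0 := by
    intro h0
    apply huv
    have h3 : v = -u := (neg_eq_of_add_eq_zero_right h0).symm
    rw [h3]
    unfold bf
    unfold bf at huu
    rw [mulVec_neg, dotProduct_neg, huu, neg_zero]
  rw [smul_dotProduct, smul_dotProduct, vJ_dot, vJ_dot, hvu] at h1
  have h2 : bf J u v • ((d - (a + b)) • ((u + v) ᵥ* J)) = 0 := by
    have h3 : bf J u v • ((d - (a + b)) • ((u + v) ᵥ* J)) =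
        bf J u v • (d • ((u + v) ᵥ* J) - a • (u ᵥ* J) - b • (v ᵥ* J)) -
          ((a • bf J u v) • (v ᵥ* J) - (b • -bf J u v) • (u ᵥ* J)) := by
      rw [add_vecMul]
      simp only [smul_eq_mul]
      module
    rw [h3, h1, sub_self]
  rcases smul_eq_zero.1 h2 with h3 | h3
  · exact absurd h3 huv
  · rcases smul_eq_zero.1 h3 with h4 | h4
    · exact sub_eq_zero.1 h4
    · exact absurd h4 (vJ_ne h.det hne)

/-- The subspace of the vectors with support in the piece. -/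
def Vj (β : Fin p → Fin m) (j : Fin m) : Submodule ℂ (Fin p → ℂ) where
  carrier := {v | Supp β j v}
  zero_mem' := Supp.zero
  add_mem' := Supp.add
  smul_mem' t _ hv := Supp.smul t hv

/-- The values are given by a vector. -/
theorem exists_row (j : Fin m) : ∃ l : Fin p → ℂ, Supp β j l ∧
    ∀ u, Supp β j u → Zr 𝔩 c (nv J u) (l ᵥ* nv J u) := by
  classical
  have hex : ∀ u : Fin p → ℂ, ∃ f : ℂ, (u = 0 → f = 0) ∧
      (Supp β j u → Zr 𝔩 c (nv J u) (f • (u ᵥ* J))) := by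
    intro u
    by_cases hu : Supp β j u
    · by_cases hu0 : u = 0
      · refine ⟨0, fun _ => rfl, fun _ => ?_⟩
        rw [hu0, nv_zero, zero_smul]
        exact Zr.zero
      · obtain ⟨w, hw⟩ := h.lift j u hu
        obtain ⟨f, hf⟩ := value h hc hu (r := c ᵥ* w) ⟨w, hw, rfl⟩
        exact ⟨f, fun h0 => absurd h0 hu0, fun _ => hf ▸ ⟨w, hw, rfl⟩⟩
    · exact ⟨0, fun _ => rfl, fun h' => absurd h' hu⟩
  choose f hf0 hf using hex
  have hf00 : f 0 = 0 := hf0 0 rfl
  have hmul : ∀ (t : ℂ) (u : Fin p → ℂ), Supp β j u → f (t • u) = t * f u := by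
    intro t u hu
    by_cases ht : t = 0
    · rw [ht, zero_smul, hf00, zero_mul]
    by_cases hu0 : u = 0
    · rw [hu0, smul_zero, hf00, mul_zero]
    have h1 := hf _ (hu.smul t)
    have h2 := (hf _ hu).smul (t * t)
    rw [← nv_smul] at h2
    have h3 := Zr.unique hc h1 h2
    rw [smul_vecMul, smul_smul, smul_smul] at h3
    have h4 : (f (t • u) * t - t * t * f u) • (u ᵥ* J) = 0 := by rw [sub_smul, h3, sub_self]
    rcases smul_eq_zero.1 h4 with h5 | h5
    · have h6 : t * (f (t • u) - t * f u) = 0 := by linear_combination h5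
      rcases mul_eq_zero.1 h6 with h7 | h7
      · exact absurd h7 ht
      · exact sub_eq_zero.1 h7
    · exact absurd h5 (vJ_ne h.det hu0)
  have hadd0 : ∀ u v : Fin p → ℂ, Supp β j u → Supp β j v → bf J u v ≠ 0 →
      f (u + v) = f u + f v := fun u v hu hv huv =>
    additive h hc hu hv huv (hf u hu) (hf v hv) (hf _ (hu.add hv))
  have hadd : ∀ u v : Fin p → ℂ, Supp β j u → Supp β j v → f (u + v) = f u + f v := by
    intro u v hu hv
    by_cases hu0 : u = 0
    · rw [hu0, zero_add, hf00, zero_add]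
    by_cases hv0 : v = 0
    · rw [hv0, add_zero, hf00, add_zero]
    by_cases huv0 : u + v = 0
    · have h3 : v = (-1 : ℂ) • u := by
        rw [neg_one_smul]
        exact (neg_eq_of_add_eq_zero_right huv0).symm
      rw [huv0, hf00, h3, hmul _ _ hu]
      ring
    have hg : ∀ x : Fin p → ℂ, Supp β j x → x ≠ 0 → ∃ w ∈ Vj β j,
        (Matrix.toLinearMap₂' ℂ J x) w ≠ 0 := by
      intro x hx hx0
      obtain ⟨w, hw, hxw⟩ := nondeg_block h.block h.det hx hx0
      refine ⟨w, hw, ?_⟩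
      rw [Matrix.toLinearMap₂'_apply']
      have h5 : x ⬝ᵥ (J *ᵥ w) = 1 := hxw
      rw [h5]
      exact one_ne_zero
    obtain ⟨w, hw, hw'⟩ := Module.Dual.exists_forall_mem_ne_zero_of_forall_exists (Vj β j)
      (fun i : Fin 3 => Matrix.toLinearMap₂' ℂ J (![u, v, u + v] i)) (by
        intro i
        fin_cases i
        · exact hg u hu hu0
        · exact hg v hv hv0
        · exact hg _ (hu.add hv) huv0)
    have h1 : bf J u w ≠ 0 := by
      have h2 := hw' 0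
      rwa [Matrix.toLinearMap₂'_apply'] at h2
    have h2 : bf J v w ≠ 0 := by
      have h2 := hw' 1
      rwa [Matrix.toLinearMap₂'_apply'] at h2
    have h3 : bf J (u + v) w ≠ 0 := by
      have h2 := hw' 2
      rwa [Matrix.toLinearMap₂'_apply'] at h2
    have e1 := hadd0 (u + v) w (hu.add hv) hw h3
    have e2 := hadd0 v w hv hw h2
    -- `v + w` is replaced by a multiple
    by_cases h4 : bf J u (v + w) = 0
    · have h5 : bf J u (v + (2 : ℂ) • w) ≠ 0 := by
        have h6 : bf J u (v + (2 : ℂ) • w) = bf J u (v + w) + bf J u w := by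
          unfold bf
          rw [← dotProduct_add, ← mulVec_add]
          congr 2
          module
        rw [h6, h4, zero_add]
        exact h1
      have hw2 : Supp β j ((2 : ℂ) • w) := Supp.smul 2 hw
      have h7 : ∀ x : Fin p → ℂ, bf J x w ≠ 0 → bf J x ((2 : ℂ) • w) ≠ 0 := by
        intro x hx
        have h8 : bf J x ((2 : ℂ) • w) = 2 * bf J x w := by
          unfold bf
          rw [mulVec_smul, dotProduct_smul, smul_eq_mul]
        rw [h8]
        exact mul_ne_zero two_ne_zero hx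
      have e3 := hadd0 u (v + (2 : ℂ) • w) hu (hv.add hw2) h5
      have e4 := hadd0 v _ hv hw2 (h7 v h2)
      have e5 := hadd0 (u + v) _ (hu.add hv) hw2 (h7 _ h3)
      rw [← add_assoc] at e3
      rw [e3, e4] at e5
      linear_combination -e5
    · have e3 := hadd0 u (v + w) hu (hv.add hw) h4
      rw [← add_assoc] at e3
      rw [e3, e2] at e1
      linear_combination -e1
  -- the projection to the piece
  set π : (Fin p → ℂ) → (Fin p → ℂ) := fun v a => if β a = j then v a else 0 with hπ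
  have hπs : ∀ v, Supp β j (π v) := fun v a ha => if_neg ha
  have hπa : ∀ u v, π (u + v) = π u + π v := by
    intro u v
    funext a
    simp only [hπ, Pi.add_apply]
    split_ifs <;> simp
  have hπm : ∀ (t : ℂ) u, π (t • u) = t • π u := by
    intro t u
    funext a
    simp only [hπ, Pi.smul_apply]
    split_ifs <;> simp
  have hπe : ∀ u, Supp β j u → π u = u := by
    intro u hu
    funext a
    by_cases ha : β a = j
    · exact if_pos ha
    · exact (if_neg ha).trans (hu a ha).symm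
  let F : (Fin p → ℂ) →ₗ[ℂ] ℂ :=
    { toFun := fun v => f (π v)
      map_add' := fun u v => by rw [hπa, hadd _ _ (hπs u) (hπs v)]
      map_smul' := fun t u => by rw [hπm, hmul _ _ (hπs u), RingHom.id_apply, smul_eq_mul] }
  refine ⟨fun a => F fun b => if a = b then 1 else 0, ?_, ?_⟩
  · intro a ha
    change f (π _) = 0
    have h1 : π (fun b => if a = b then 1 else 0) = 0 := by
      funext b
      by_cases hb : β b = j
      · refine (if_pos hb).trans (if_neg ?_)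
        rintro rfl
        exact ha hb
      · exact if_neg hb
    rw [h1, hf00]
  · intro u hu
    rw [row_nv]
    have h1 : (fun a => F fun b => if a = b then 1 else 0) ⬝ᵥ u = F u := by
      rw [LinearMap.pi_apply_eq_sum_univ F u, dotProduct]
      refine Finset.sum_congr rfl fun a _ => ?_
      rw [smul_eq_mul, mul_comm]
    have h2 : F u = f u := by
      change f (π u) = f u
      rw [hπe u hu]
    rw [h1, h2]
    exact hf u hu

end cocycle

end Pool.Agent.V11219.Om
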