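import Mathlib
import Pool.Agent.V11219.OmExt

/-!
# The Lie algebra of an extension without fixed vectors contains the whole radical
-/

set_option linter.unusedSectionVars false
set_option linter.unusedVariables false

open Matrix Module Pool.Agent.Y123.GN

namespace Pool.Agent.V11219.Om

open Pool.Agent.V11219.Per

variable {p q m : ℕ} {β : Fin p → Fin m} {γ : Fin q → Fin m} {J : Matrix (Fin p) (Fin p) ℂ}
  {𝔩 : Submodule ℂ (Matrix (Fin p) (Fin p) ℂ × Matrix (Fin q) (Fin p) ℂ)}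

section cocycle

variable (h : ExtLie β γ J 𝔩) {c : Fin q → ℂ} (hc : ∀ w, (0, w) ∈ 𝔩 → c ᵥ* w = 0)
include h hc

/-- The values at the other pieces. -/
theorem other {i j : Fin m} (hij : i ≠ j) (hcs : ∀ a, γ a ≠ j → c a = 0) {u : Fin p → ℂ}
    (hu : Supp β i u) : Zr 𝔩 c (nv J u) 0 := by
  obtain ⟨w, hw⟩ := h.lift i u hu
  have hr : Zr 𝔩 c (nv J u) (c ᵥ* w) := ⟨w, hw, rfl⟩
  have hs : Supp β j (c ᵥ* w) := by
    intro b hb
    rw [vecMul, dotProduct]
    refine Finset.sum_eq_zero fun a _ => ?_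
    by_cases ha : γ a = j
    · have h3 : w a b = 0 := h.compat _ hw a b (by rw [ha]; exact Ne.symm hb)
      rw [h3, mul_zero]
    · rw [hcs a ha, zero_mul]
  have h0 : c ᵥ* w = 0 := by
    refine dot_supp hs fun v hv => ?_
    by_cases hv0 : v = 0
    · rw [hv0, dotProduct_zero]
    obtain ⟨l, hl, hlv⟩ := exists_row h hc j
    have h1 := Zr.br h hr (hlv v hv)
    have e1 : nv J u * nv J v - nv J v * nv J u = 0 := by
      rw [nv_eq_ro, nv_eq_ro, ro_mul, ro_mul, bf_cross h.block hij hu hv,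
        bf_cross h.block (Ne.symm hij) hv hu, zero_smul, zero_smul, sub_self]
    rw [e1, row_nv, row_nv, row_nv, smul_dotProduct, vJ_dot,
      bf_cross h.block (Ne.symm hij) hv hu, smul_zero, zero_smul, sub_zero] at h1
    have h2 := Zr.unique hc h1 Zr.zero
    rcases smul_eq_zero.1 h2 with h3 | h3
    · exact h3
    · exact absurd h3 (vJ_ne h.det hv0)
  rwa [h0] at hr

/-- The values are given by a vector. -/
theorem exists_all {j : Fin m} (hcs : ∀ a, γ a ≠ j → c a = 0) : ∃ l : Fin p → ℂ,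
    ∀ i u, Supp β i u → Zr 𝔩 c (nv J u) (l ᵥ* nv J u) := by
  obtain ⟨l, hl, hlv⟩ := exists_row h hc j
  refine ⟨l, fun i u hu => ?_⟩
  by_cases hij : i = j
  · subst hij
    exact hlv u hu
  · have h1 : l ⬝ᵥ u = 0 := by
      rw [dotProduct]
      refine Finset.sum_eq_zero fun b _ => ?_
      by_cases hb : β b = j
      · rw [hu b (by rw [hb]; exact Ne.symm hij), mul_zero]
      · rw [hl b hb, zero_mul]
    rw [row_nv, h1, zero_smul]
    exact other h hc hij hcs hu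

omit h in
/-- A row is fixed by an element of the group. -/
theorem fixed (hdet : J.det ≠ 0) {l : Fin p → ℂ}
    (hl : ∀ i u, Supp β i u → Zr 𝔩 c (nv J u) (l ᵥ* nv J u)) {g g' : Matrix (Fin p) (Fin p) ℂ}
    {w : Matrix (Fin q) (Fin p) ℂ} (hg : g' * g = 1)
    (hconj : ∀ y ∈ 𝔩, (g * y.1 * g', (w * y.1 + y.2) * g') ∈ 𝔩)
    (hsim : ∀ i u, Supp β i u → Supp β i (g *ᵥ u) ∧
      ∃ t : ℂ, g * nv J u * g' = t • nv J (g *ᵥ u)) : c ᵥ* w + l = l ᵥ* g := by
  have key : ∀ i u, Supp β i u → (c ᵥ* w + l - l ᵥ* g) ⬝ᵥ u = 0 := by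
    intro i u hu
    by_cases hu0 : u = 0
    · rw [hu0, dotProduct_zero]
    obtain ⟨W, hW, hcW⟩ := hl i u hu
    obtain ⟨hs, t, ht⟩ := hsim i u hu
    have h0 : (g * nv J u * g', (w * nv J u + W) * g') ∈ 𝔩 := hconj (nv J u, W) hW
    have h1 : Zr 𝔩 c (g * nv J u * g') (c ᵥ* ((w * nv J u + W) * g')) :=
      ⟨(w * nv J u + W) * g', h0, rfl⟩
    have h2 := (hl i _ hs).smul t
    rw [← ht, ← vecMul_smul, ← ht] at h2
    have h3 := Zr.unique hc h1 h2
    have h4 := congrArg (fun x => x ᵥ* g) h3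
    rw [vecMul_vecMul, vecMul_vecMul, Matrix.mul_assoc, hg, Matrix.mul_one, Matrix.mul_assoc, hg,
      Matrix.mul_one, vecMul_add, hcW, ← vecMul_vecMul, ← vecMul_vecMul, row_nv, row_nv, row_nv]
      at h4
    have h5 : ((c ᵥ* w + l - l ᵥ* g) ⬝ᵥ u) • (u ᵥ* J) = 0 := by
      rw [sub_dotProduct, add_dotProduct, sub_smul, add_smul, h4, sub_self]
    rcases smul_eq_zero.1 h5 with h6 | h6
    · exact h6
    · exact absurd h6 (vJ_ne hdet hu0)
  have h1 : c ᵥ* w + l - l ᵥ* g = 0 := by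
    funext b
    have h2 := key (β b) (Pi.single b 1) (supp_single b 1)
    rwa [dotProduct_single, mul_one] at h2
  exact sub_eq_zero.1 h1

end cocycle

section radical

variable (h : ExtLie β γ J 𝔩)
include h

/-- The radical contains with `w` the matrices with the columns `w v`. -/
theorem col_mem {j : Fin m} {w : Matrix (Fin q) (Fin p) ℂ} (hw : (0, w) ∈ 𝔩) {v u : Fin p → ℂ}
    (hv : Supp β j v) (hu : Supp β j u) : (0, vecMulVec (w *ᵥ v) (u ᵥ* J)) ∈ 𝔩 := by
  have h1 : ∀ (w' : Matrix (Fin q) (Fin p) ℂ), (0, w') ∈ 𝔩 → ∀ x, Supp β j x →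
      (0, vecMulVec (w' *ᵥ x) (x ᵥ* J)) ∈ 𝔩 := by
    intro w' hw' x hx
    obtain ⟨W, hW⟩ := h.lift j x hx
    have h2 := h.br _ hw' _ hW
    dsimp only at h2
    rw [Matrix.zero_mul, Matrix.mul_zero, sub_self, Matrix.mul_zero, sub_zero, nv,
      mul_vecMulVec] at h2
    exact h2
  have h2 := h1 w hw v hv
  have h3 : ∀ x, Supp β j x → bf J v x ≠ 0 → (0, vecMulVec (w *ᵥ v) (x ᵥ* J)) ∈ 𝔩 := by
    intro x hx hvx
    have h4 := h1 _ h2 x hx
    have h5 : vecMulVec (w *ᵥ v) (v ᵥ* J) *ᵥ x = bf J v x • (w *ᵥ v) := by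
      rw [vecMulVec_mulVec, vJ_dot]
      ext a
      simp [mul_comm]
    rw [h5, smul_vecMulVec] at h4
    have h6 : ((0 : Matrix (Fin p) (Fin p) ℂ), bf J v x • vecMulVec (w *ᵥ v) (x ᵥ* J)) =
        bf J v x • ((0 : Matrix (Fin p) (Fin p) ℂ), vecMulVec (w *ᵥ v) (x ᵥ* J)) := by
      rw [Prod.smul_mk, smul_zero]
    rw [h6] at h4
    exact (Submodule.smul_mem_iff _ hvx).1 h4
  by_cases hv0 : v = 0
  · rw [hv0, mulVec_zero, zero_vecMulVec]
    exact 𝔩.zero_mem
  obtain ⟨u₀, hu₀, hvu₀⟩ := nondeg_block h.block h.det hv hv0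
  by_cases hvu : bf J v u = 0
  · have h4 := h3 (u + u₀) (hu.add hu₀) (by
      have h5 : bf J v (u + u₀) = bf J v u + bf J v u₀ := by
        unfold bf
        rw [mulVec_add, dotProduct_add]
      rw [h5, hvu, hvu₀, zero_add]
      exact one_ne_zero)
    have h5 := h3 u₀ hu₀ (by rw [hvu₀]; exact one_ne_zero)
    have h6 := 𝔩.sub_mem h4 h5
    rwa [Prod.mk_sub_mk, sub_self, add_vecMul, vecMulVec_add, add_sub_cancel_right] at h6
  · exact h3 u hu hvu

/-- The vectors `τ` for which all `τ ⊗ l` belong to the radical. -/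
def Wj (𝔩 : Submodule ℂ (Matrix (Fin p) (Fin p) ℂ × Matrix (Fin q) (Fin p) ℂ)) (β : Fin p → Fin m)
    (J : Matrix (Fin p) (Fin p) ℂ) (j : Fin m) : Submodule ℂ (Fin q → ℂ) where
  carrier := {τ | ∀ u, Supp β j u → (0, vecMulVec τ (u ᵥ* J)) ∈ 𝔩}
  zero_mem' := fun u _ => by
    rw [zero_vecMulVec]
    exact 𝔩.zero_mem
  add_mem' := fun {a b} ha hb u hu => by
    have h1 := 𝔩.add_mem (ha u hu) (hb u hu)
    rwa [Prod.mk_add_mk, add_zero, ← add_vecMulVec] at h1
  smul_mem' := fun t a ha u hu => by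
    have h1 := 𝔩.smul_mem t (ha u hu)
    rwa [Prod.smul_mk, smul_zero, ← smul_vecMulVec] at h1

variable {𝒢 : Set (Matrix (Fin p) (Fin p) ℂ × Matrix (Fin q) (Fin p) ℂ)}

/-- **The whole radical.** -/
theorem radical (hgrp : ∀ g ∈ 𝒢, ∃ g' : Matrix (Fin p) (Fin p) ℂ, g' * g.1 = 1 ∧
      (∀ y ∈ 𝔩, (g.1 * y.1 * g', (g.2 * y.1 + y.2) * g') ∈ 𝔩) ∧
      ∀ i u, Supp β i u → Supp β i (g.1 *ᵥ u) ∧
        ∃ t : ℂ, g.1 * nv J u * g' = t • nv J (g.1 *ᵥ u))
    (hind : ∀ (l : Fin p → ℂ) (c : Fin q → ℂ), (∀ g ∈ 𝒢, c ᵥ* g.2 + l = l ᵥ* g.1) → c = 0)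
    {w : Matrix (Fin q) (Fin p) ℂ} (hw : Compatible β γ w) : (0, w) ∈ 𝔩 := by
  classical
  -- functionals which vanish on the radical
  have hfun : ∀ j (c : Fin q → ℂ), (∀ a, γ a ≠ j → c a = 0) →
      (∀ w, (0, w) ∈ 𝔩 → c ᵥ* w = 0) → c = 0 := by
    intro j c hcs hc
    obtain ⟨l, hl⟩ := exists_all h hc hcs
    refine hind l c fun g hg => ?_
    obtain ⟨g', hg', hconj, hsim⟩ := hgrp g hg
    exact fixed hc h.det hl hg' hconj hsim
  -- the vectors
  have hW : ∀ j (τ : Fin q → ℂ), (∀ a, γ a ≠ j → τ a = 0) → τ ∈ Wj 𝔩 β J j := by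
    intro j τ hτ
    by_contra hcon
    obtain ⟨φ, hφ, hφW⟩ := Submodule.exists_le_ker_of_notMem hcon
    set c : Fin q → ℂ := fun a => if γ a = j then φ (fun b => if a = b then 1 else 0) else 0
      with hcdef
    have hcτ : ∀ τ' : Fin q → ℂ, (∀ a, γ a ≠ j → τ' a = 0) → c ⬝ᵥ τ' = φ τ' := by
      intro τ' hτ'
      rw [LinearMap.pi_apply_eq_sum_univ φ τ', dotProduct]
      refine Finset.sum_congr rfl fun a _ => ?_
      rw [smul_eq_mul, hcdef]
      dsimp only
      by_cases ha : γ a = j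
      · rw [if_pos ha, mul_comm]
      · rw [if_neg ha, hτ' a ha, zero_mul, zero_mul]
    have hc0 : c = 0 := by
      refine hfun j c (fun a ha => if_neg ha) fun w' hw' => ?_
      funext b
      have h1 : (c ᵥ* w') b = c ⬝ᵥ (w' *ᵥ Pi.single b 1) := by
        rw [dotProduct_mulVec, dotProduct_single, mul_one]
      rw [h1]
      by_cases hb : β b = j
      · have hs : ∀ a, γ a ≠ j → (w' *ᵥ Pi.single b 1) a = 0 := by
          intro a ha
          rw [mulVec_single_one]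
          exact h.compat _ hw' a b (by rw [hb]; exact ha)
        rw [hcτ _ hs]
        have h2 : w' *ᵥ Pi.single b 1 ∈ Wj 𝔩 β J j := by
          intro u hu
          exact col_mem h hw' (by rw [← hb]; exact supp_single b 1) hu
        exact hφW h2
      · rw [dotProduct]
        refine Finset.sum_eq_zero fun a _ => ?_
        by_cases ha : γ a = j
        · rw [mulVec_single_one]
          have h3 : w' a b = 0 := h.compat _ hw' a b (by rw [ha]; exact Ne.symm hb)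
          have h4 : w'.col b a = w' a b := rfl
          rw [h4, h3, mul_zero]
        · have h3 : c a = 0 := if_neg ha
          rw [h3, zero_mul]
    apply hφ
    rw [← hcτ τ hτ, hc0, zero_dotProduct]
  -- the matrix units
  have hunit : ∀ a b, γ a = β b → (0, (Matrix.single a b (1 : ℂ) : Matrix (Fin q) (Fin p) ℂ)) ∈ 𝔩 := by
    intro a b hab
    have h1 := hW (β b) (Pi.single a 1) (fun a' ha' => by
      rw [Pi.single_apply, if_neg]
      rintro rfl
      exact ha' hab)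
    have hJu : IsUnit J := (Matrix.isUnit_iff_isUnit_det _).2 (Ne.isUnit h.det)
    have h2 : Supp β (β b) ((Pi.single b (1 : ℂ) : Fin p → ℂ) ᵥ* J⁻¹) :=
      supp_vJ (bd_inv h.block hJu) (supp_single b 1)
    have h3 := h1 _ h2
    rw [vecMul_vecMul, nonsing_inv_mul _ (Ne.isUnit h.det), vecMul_one] at h3
    have h4 : vecMulVec (Pi.single a (1 : ℂ) : Fin q → ℂ) (Pi.single b (1 : ℂ) : Fin p → ℂ) =
        Matrix.single a b (1 : ℂ) := by
      rw [Matrix.single_eq_single_vecMulVec_single]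
    rwa [h4] at h3
  have hsum : (0, w) = ∑ a, ∑ b, (w a b) • ((0 : Matrix (Fin p) (Fin p) ℂ),
      (Matrix.single a b (1 : ℂ) : Matrix (Fin q) (Fin p) ℂ)) := by
    refine Prod.ext ?_ ?_
    · rw [Prod.fst_sum]
      simp only [Prod.fst_sum, Prod.smul_fst, smul_zero, Finset.sum_const_zero]
    · rw [Prod.snd_sum]
      simp only [Prod.snd_sum, Prod.smul_snd, Matrix.smul_single, smul_eq_mul, mul_one]
      exact Matrix.matrix_eq_sum_single w
  rw [hsum]
  refine 𝔩.sum_mem fun a _ => 𝔩.sum_mem fun b _ => ?_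
  by_cases hab : γ a = β b
  · exact 𝔩.smul_mem _ (hunit a b hab)
  · rw [hw a b hab, zero_smul]
    exact 𝔩.zero_mem

end radical

end Pool.Agent.V11219.Om
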