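import Mathlib
import Pool.Agent.V11219.PerLie

/-!
# The logarithms of unipotent symmetries of functional relations, in three steps
-/

set_option linter.unusedSectionVars false

open Filter

namespace Pool.Agent.V11219.Om

open Pool.Agent.V11219.Per

variable {n : ℕ}

/-- The flow of a matrix whose third power is zero. -/
noncomputable def fl3 (N : Matrix (Fin n) (Fin n) ℂ) (s : ℝ) (Z : Matrix (Fin n) (Fin n) ℂ) :
    Rel n →+* Polynomial ℂ :=
  MvPolynomial.eval₂Hom (Polynomial.C.comp (Polynomial.evalRingHom (1 / (s : ℂ))))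
    fun v => Polynomial.C (Z v.1 v.2) + Polynomial.X * Polynomial.C ((N * Z) v.1 v.2) +
      Polynomial.X ^ 2 * Polynomial.C (1 / 2 * (N * (N * Z)) v.1 v.2)

theorem fl3_X (N Z : Matrix (Fin n) (Fin n) ℂ) (s : ℝ) (v : Fin n × Fin n) :
    fl3 N s Z (MvPolynomial.X v) =
      Polynomial.C (Z v.1 v.2) + Polynomial.X * Polynomial.C ((N * Z) v.1 v.2) +
      Polynomial.X ^ 2 * Polynomial.C (1 / 2 * (N * (N * Z)) v.1 v.2) := by
  rw [fl3, MvPolynomial.coe_eval₂Hom, MvPolynomial.eval₂_X]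

theorem fl3_C (N Z : Matrix (Fin n) (Fin n) ℂ) (s : ℝ) (p : Polynomial ℂ) :
    fl3 N s Z (MvPolynomial.C p) = Polynomial.C (p.eval (1 / (s : ℂ))) := by
  rw [fl3, MvPolynomial.coe_eval₂Hom, MvPolynomial.eval₂_C]
  rfl

theorem fl3_eval (N Z : Matrix (Fin n) (Fin n) ℂ) (s : ℝ) (t : ℂ) (R : Rel n) :
    (fl3 N s Z R).eval t = rh s ((1 + t • N + (t ^ 2 / 2) • (N * N)) * Z) R := by
  induction R using MvPolynomial.induction_on with
  | C p => rw [fl3_C, rh_C, Polynomial.eval_C]
  | add p q hp hq => rw [map_add, map_add, Polynomial.eval_add, hp, hq]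
  | mul_X p v hp =>
    rw [map_mul, map_mul, Polynomial.eval_mul, hp, fl3_X, rh_X, Matrix.add_mul, Matrix.add_mul,
      Matrix.one_mul, Matrix.smul_mul, Matrix.smul_mul, Matrix.mul_assoc, Matrix.add_apply,
      Matrix.add_apply, Matrix.smul_apply, Matrix.smul_apply, smul_eq_mul, smul_eq_mul,
      Polynomial.eval_add, Polynomial.eval_add,
      Polynomial.eval_mul, Polynomial.eval_mul, Polynomial.eval_C, Polynomial.eval_C,
      Polynomial.eval_C, Polynomial.eval_X, Polynomial.eval_pow, Polynomial.eval_X]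
    congr 1
    ring

theorem fl3_lin (N Z Y : Matrix (Fin n) (Fin n) ℂ) (s : ℝ) (v : Fin n × Fin n) :
    fl3 N s Z (lin Y v) = Polynomial.C ((Y * Z) v.1 v.2) +
      Polynomial.X * Polynomial.C ((Y * (N * Z)) v.1 v.2) +
      Polynomial.X ^ 2 * Polynomial.C (1 / 2 * (Y * (N * (N * Z))) v.1 v.2) := by
  rw [lin, map_sum, Matrix.mul_apply, Matrix.mul_apply, Matrix.mul_apply, map_sum, map_sum,
    Finset.mul_sum, Finset.mul_sum, map_sum, Finset.mul_sum, ← Finset.sum_add_distrib,
    ← Finset.sum_add_distrib]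
  refine Finset.sum_congr rfl fun l _ => ?_
  rw [map_mul, fl3_C, fl3_X, Polynomial.eval_C]
  simp only [map_mul]
  ring

theorem fl3_deriv {N : Matrix (Fin n) (Fin n) ℂ} (hN : N * (N * N) = 0)
    (Z : Matrix (Fin n) (Fin n) ℂ) (s : ℝ) (R : Rel n) :
    Polynomial.derivative (fl3 N s Z R) = fl3 N s Z (dX N R) := by
  induction R using MvPolynomial.induction_on with
  | C p => rw [fl3_C, dX_C, map_zero, Polynomial.derivative_C]
  | add p q hp hq => rw [map_add, Polynomial.derivative_add, map_add, map_add, hp, hq]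
  | mul_X p v hp =>
    have h0 : N * (N * (N * Z)) = 0 := by
      rw [← Matrix.mul_assoc N N Z, ← Matrix.mul_assoc, hN, Matrix.zero_mul]
    have h1 : fl3 N s Z (lin N v) = Polynomial.C ((N * Z) v.1 v.2) +
        Polynomial.X * Polynomial.C ((N * (N * Z)) v.1 v.2) := by
      rw [fl3_lin, h0, Matrix.zero_apply, mul_zero, map_zero, mul_zero, add_zero]
    have h2 : (Polynomial.C (1 / 2 * (N * (N * Z)) v.1 v.2) : Polynomial ℂ) * 2 =
        Polynomial.C ((N * (N * Z)) v.1 v.2) := by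
      have h3 : (2 : Polynomial ℂ) = Polynomial.C 2 := (Polynomial.C_ofNat 2).symm
      rw [h3, ← map_mul]
      congr 1
      ring
    rw [map_mul, Polynomial.derivative_mul, hp, dX_mul, map_add, map_mul, map_mul, dX_X, h1, fl3_X]
    simp only [Polynomial.derivative_add, Polynomial.derivative_C, Polynomial.derivative_mul,
      Polynomial.derivative_X, zero_add, one_mul, mul_zero, add_zero, Polynomial.derivative_X_pow]
    rw [← h2]
    have h5 : (Polynomial.C (2 : ℂ) : Polynomial ℂ) = 2 := Polynomial.C_ofNat 2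
    simp
    rw [h5]
    ring

theorem fl3_deg (R : Rel n) : ∃ d : ℕ, ∀ (N : Matrix (Fin n) (Fin n) ℂ) (s : ℝ)
    (Z : Matrix (Fin n) (Fin n) ℂ), (fl3 N s Z R).natDegree ≤ d := by
  induction R using MvPolynomial.induction_on with
  | C p =>
    refine ⟨0, fun N s Z => ?_⟩
    rw [fl3_C, Polynomial.natDegree_C]
  | add p q hp hq =>
    obtain ⟨d, hd⟩ := hp
    obtain ⟨e, he⟩ := hq
    refine ⟨max d e, fun N s Z => ?_⟩
    rw [map_add]
    exact (Polynomial.natDegree_add_le _ _).trans (max_le_max (hd N s Z) (he N s Z))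
  | mul_X p v hp =>
    obtain ⟨d, hd⟩ := hp
    refine ⟨d + 2, fun N s Z => ?_⟩
    rw [map_mul, fl3_X]
    refine Polynomial.natDegree_mul_le.trans (add_le_add (hd N s Z) ?_)
    refine (Polynomial.natDegree_add_le _ _).trans (max_le ?_ ?_)
    · refine (Polynomial.natDegree_add_le _ _).trans (max_le ?_ ?_)
      · rw [Polynomial.natDegree_C]
        exact Nat.zero_le _
      · refine Polynomial.natDegree_mul_le.trans ?_
        rw [Polynomial.natDegree_C, add_zero]
        exact Polynomial.natDegree_X_le.trans one_le_two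
    · refine Polynomial.natDegree_mul_le.trans ?_
      rw [Polynomial.natDegree_C, add_zero]
      exact Polynomial.natDegree_X_pow_le 2

variable {Z : ℝ → Matrix (Fin n) (Fin n) ℂ}

/-- The logarithm belongs to the Lie algebra. -/
theorem lie_of_pres3 {N : Matrix (Fin n) (Fin n) ℂ} (hN : N * (N * N) = 0)
    (h : ∀ m : ℕ, Pres Z (1 + (m : ℂ) • N + ((m : ℂ) ^ 2 / 2) • (N * N))) : N ∈ lie Z := by
  classical
  intro R hR
  obtain ⟨d, hd⟩ := fl3_deg R
  have h1 : ∀ᶠ s : ℝ in atTop, ∀ m ∈ Finset.range (d + 1),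
      rh s ((1 + (m : ℂ) • N + ((m : ℂ) ^ 2 / 2) • (N * N)) * Z s) R = 0 := by
    rw [Filter.eventually_all_finset]
    intro m _
    exact h m R hR
  filter_upwards [h1] with s hs
  have h2 : fl3 N s (Z s) R = 0 := by
    refine Polynomial.eq_zero_of_natDegree_lt_card_of_eval_eq_zero' _
      ((Finset.range (d + 1)).image (fun m : ℕ => (m : ℂ))) ?_ ?_
    · intro z hz
      obtain ⟨m, hm, rfl⟩ := Finset.mem_image.1 hz
      rw [fl3_eval]
      exact hs m hm
    · rw [Finset.card_image_of_injective _ Nat.cast_injective, Finset.card_range]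
      exact Nat.lt_succ_of_le (hd N s (Z s))
  have h3 := fl3_deriv hN (Z s) s R
  rw [h2, Polynomial.derivative_zero] at h3
  have h4 := fl3_eval N (Z s) s 0 (dX N R)
  rw [← h3, Polynomial.eval_zero, zero_smul, add_zero, zero_pow two_ne_zero, zero_div, zero_smul,
    add_zero, Matrix.one_mul] at h4
  exact h4.symm

theorem unip_pow3 {A : Type} [Ring A] [Algebra ℂ A] {M : A} (h : M * (M * M) = 0) (k : ℕ) :
    (1 + M) ^ k = 1 + (k : ℂ) • (M - (1 / 2 : ℂ) • (M * M)) + ((k : ℂ) ^ 2 / 2) • (M * M) := by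
  induction k with
  | zero => simp
  | succ k ih =>
    have h' : M * M * M = 0 := by rw [mul_assoc]; exact h
    rw [pow_succ, ih]
    have h1 : (1 + (k : ℂ) • (M - (1 / 2 : ℂ) • (M * M)) + ((k : ℂ) ^ 2 / 2) • (M * M)) * (1 + M) =
        1 + (k : ℂ) • (M - (1 / 2 : ℂ) • (M * M)) + ((k : ℂ) ^ 2 / 2) • (M * M) + M +
          (k : ℂ) • (M * M) := by
      rw [mul_add, mul_one, add_mul, add_mul, one_mul, smul_mul_assoc, smul_mul_assoc, h',
        smul_zero, add_zero, sub_mul, smul_mul_assoc, h', smul_zero, sub_zero]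
      abel
    rw [h1, Nat.cast_succ]
    module

/-- The logarithm of a unipotent symmetry. -/
theorem lie_of_unip {M : Matrix (Fin n) (Fin n) ℂ} (h : M * (M * M) = 0)
    (hp : ∀ k : ℕ, Pres Z ((1 + M) ^ k)) : M - (1 / 2 : ℂ) • (M * M) ∈ lie Z := by
  have h' : M * M * M = 0 := by rw [mul_assoc]; exact h
  have h4 : M * M * (M * M) = 0 := by rw [← mul_assoc, h', zero_mul]
  have h2 : (M - (1 / 2 : ℂ) • (M * M)) * (M - (1 / 2 : ℂ) • (M * M)) = M * M := by
    rw [sub_mul, mul_sub, mul_sub, mul_smul_comm, smul_mul_assoc, smul_mul_smul_comm, h, h', h4]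
    simp
  have h3 : (M - (1 / 2 : ℂ) • (M * M)) * (M * M) = 0 := by
    rw [sub_mul, smul_mul_assoc, h, h4]
    simp
  refine lie_of_pres3 (by rw [h2, h3]) fun k => ?_
  rw [h2, ← unip_pow3 h]
  exact hp k

end Pool.Agent.V11219.Om
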