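import Mathlib
import Pool.Agent.V11219.OmLog
import Pool.Agent.V11219.OmExt2

/-!
# The Lie algebra of the symmetries of a family of period matrices of 1-motives
-/

set_option linter.unusedSectionVars false
set_option linter.unusedVariables false

open scoped Matrix
open Module Pool.Agent.V11219.Gk Pool.Agent.H204R3.SP Matrix Pool.Agent.Y123.GN

namespace Pool.Agent.V11219.Om

open Pool.Agent.V11219.Per

variable {p q m : ℕ} {β : Fin p → Fin m} {γ : Fin q → Fin m} {B : Matrix (Fin p) (Fin p) ℂ}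

/-- The matrix `((X, 0), (w, 0))`. -/
def ext0 (X : Matrix (Fin p) (Fin p) ℂ) (w : Matrix (Fin q) (Fin p) ℂ) :
    Matrix (Fin (p + q)) (Fin (p + q)) ℂ :=
  Matrix.reindex finSumFinEquiv finSumFinEquiv (Matrix.fromBlocks X 0 w 0)

theorem ext0_mul (g g' : Matrix (Fin p) (Fin p) ℂ) (w w' : Matrix (Fin q) (Fin p) ℂ) :
    ext0 g w * ext0 g' w' = ext0 (g * g') (w * g') := by
  rw [ext0, ext0, ext0, Matrix.reindex_apply, Matrix.reindex_apply, Matrix.reindex_apply,
    Matrix.submatrix_mul_equiv, Matrix.fromBlocks_multiply]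
  simp

theorem ext_mul_ext0 (g g' : Matrix (Fin p) (Fin p) ℂ) (w w' : Matrix (Fin q) (Fin p) ℂ) :
    ext g w * ext0 g' w' = ext0 (g * g') (w * g' + w') := by
  rw [ext, ext0, ext0, Matrix.reindex_apply, Matrix.reindex_apply, Matrix.reindex_apply,
    Matrix.submatrix_mul_equiv, Matrix.fromBlocks_multiply]
  simp

theorem ext0_mul_ext (g g' : Matrix (Fin p) (Fin p) ℂ) (w w' : Matrix (Fin q) (Fin p) ℂ) :
    ext0 g w * ext g' w' = ext0 (g * g') (w * g') := by
  rw [ext, ext0, ext0, Matrix.reindex_apply, Matrix.reindex_apply, Matrix.reindex_apply,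
    Matrix.submatrix_mul_equiv, Matrix.fromBlocks_multiply]
  simp

theorem ext0_add (g g' : Matrix (Fin p) (Fin p) ℂ) (w w' : Matrix (Fin q) (Fin p) ℂ) :
    ext0 g w + ext0 g' w' = ext0 (g + g') (w + w') := by
  have h1 : Matrix.fromBlocks g (0 : Matrix (Fin p) (Fin q) ℂ) w (0 : Matrix (Fin q) (Fin q) ℂ) +
      Matrix.fromBlocks g' 0 w' 0 = Matrix.fromBlocks (g + g') 0 (w + w') 0 := by
    rw [Matrix.fromBlocks_add, add_zero, add_zero]
  rw [ext0, ext0, ext0, ← h1]
  rfl

theorem ext0_smul (t : ℂ) (g : Matrix (Fin p) (Fin p) ℂ) (w : Matrix (Fin q) (Fin p) ℂ) :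
    t • ext0 g w = ext0 (t • g) (t • w) := by
  have h1 : t • Matrix.fromBlocks g (0 : Matrix (Fin p) (Fin q) ℂ) w
      (0 : Matrix (Fin q) (Fin q) ℂ) = Matrix.fromBlocks (t • g) 0 (t • w) 0 := by
    rw [Matrix.fromBlocks_smul, smul_zero, smul_zero]
  rw [ext0, ext0, ← h1]
  rfl

theorem ext0_zero : ext0 (0 : Matrix (Fin p) (Fin p) ℂ) (0 : Matrix (Fin q) (Fin p) ℂ) = 0 := by
  rw [ext0, Matrix.fromBlocks_zero]
  rfl

theorem one_add_ext0 (g : Matrix (Fin p) (Fin p) ℂ) (w : Matrix (Fin q) (Fin p) ℂ) :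
    1 + ext0 g w = ext (1 + g) w := by
  have h1 : Matrix.fromBlocks (1 : Matrix (Fin p) (Fin p) ℂ) (0 : Matrix (Fin p) (Fin q) ℂ)
      (0 : Matrix (Fin q) (Fin p) ℂ) (1 : Matrix (Fin q) (Fin q) ℂ) +
      Matrix.fromBlocks g 0 w 0 = Matrix.fromBlocks (1 + g) 0 w 1 := by
    rw [Matrix.fromBlocks_add, add_zero, add_zero, zero_add]
  rw [← ext_one (p := p) (q := q), ext, ext, ext0, ← h1]
  rfl

theorem comp_add {w w' : Matrix (Fin q) (Fin p) ℂ} (h : Compatible β γ w)
    (h' : Compatible β γ w') : Compatible β γ (w + w') := fun a b hab => by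
  rw [Matrix.add_apply, h a b hab, h' a b hab, add_zero]

theorem comp_sub {w w' : Matrix (Fin q) (Fin p) ℂ} (h : Compatible β γ w)
    (h' : Compatible β γ w') : Compatible β γ (w - w') := fun a b hab => by
  rw [Matrix.sub_apply, h a b hab, h' a b hab, sub_zero]

theorem comp_smul (t : ℂ) {w : Matrix (Fin q) (Fin p) ℂ} (h : Compatible β γ w) :
    Compatible β γ (t • w) := fun a b hab => by
  rw [Matrix.smul_apply, h a b hab, smul_zero]

theorem comp_zero : Compatible β γ (0 : Matrix (Fin q) (Fin p) ℂ) := fun _ _ _ => rfl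

theorem comp_mul {w : Matrix (Fin q) (Fin p) ℂ} {g : Matrix (Fin p) (Fin p) ℂ}
    (h : Compatible β γ w) (hg : BlockDiagonal β g) : Compatible β γ (w * g) := by
  intro a b hab
  rw [Matrix.mul_apply]
  refine Finset.sum_eq_zero fun c _ => ?_
  by_cases hc : γ a = β c
  · rw [hg c b (by rw [← hc]; exact hab), mul_zero]
  · rw [h a c hc, zero_mul]

variable {Z : ℝ → Matrix (Fin (p + q)) (Fin (p + q)) ℂ}
  {G : Subgroup (Matrix.GeneralLinearGroup (Fin (p + q)) ℂ)}

/-- The Lie algebra of the symmetries. -/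
def l0 (β : Fin p → Fin m) (γ : Fin q → Fin m) (Z : ℝ → Matrix (Fin (p + q)) (Fin (p + q)) ℂ) :
    Submodule ℂ (Matrix (Fin p) (Fin p) ℂ × Matrix (Fin q) (Fin p) ℂ) where
  carrier := {y | Compatible β γ y.2 ∧ BlockDiagonal β y.1 ∧ ext0 y.1 y.2 ∈ lie Z}
  zero_mem' := ⟨comp_zero, bd_zero, by
    have h1 : ext0 (0 : Matrix (Fin p) (Fin p) ℂ × Matrix (Fin q) (Fin p) ℂ).1
        (0 : Matrix (Fin p) (Fin p) ℂ × Matrix (Fin q) (Fin p) ℂ).2 = 0 := ext0_zero
    rw [h1]
    exact Submodule.zero_mem _⟩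
  add_mem' := by
    rintro x y ⟨h1, h2, h3⟩ ⟨h1', h2', h3'⟩
    refine ⟨comp_add h1 h1', bd_add h2 h2', ?_⟩
    have h4 := Submodule.add_mem _ h3 h3'
    rwa [ext0_add] at h4
  smul_mem' := by
    rintro t x ⟨h1, h2, h3⟩
    refine ⟨comp_smul t h1, bd_smul t h2, ?_⟩
    have h4 := Submodule.smul_mem _ t h3
    rwa [ext0_smul] at h4

theorem l0_br {x y : Matrix (Fin p) (Fin p) ℂ × Matrix (Fin q) (Fin p) ℂ} (hx : x ∈ l0 β γ Z)
    (hy : y ∈ l0 β γ Z) : (x.1 * y.1 - y.1 * x.1, x.2 * y.1 - y.2 * x.1) ∈ l0 β γ Z := by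
  obtain ⟨h1, h2, h3⟩ := hx
  obtain ⟨h1', h2', h3'⟩ := hy
  refine ⟨comp_sub (comp_mul h1 h2') (comp_mul h1' h2), bd_sub (bd_mul h2 h2') (bd_mul h2' h2), ?_⟩
  have h4 := lie_br h3 h3'
  rw [ext0_mul, ext0_mul] at h4
  have h5 : ext0 (x.1 * y.1) (x.2 * y.1) - ext0 (y.1 * x.1) (y.2 * x.1) =
      ext0 (x.1 * y.1 - y.1 * x.1) (x.2 * y.1 - y.2 * x.1) := by
    rw [sub_eq_add_neg, ← neg_one_smul ℂ (ext0 (y.1 * x.1) (y.2 * x.1)), ext0_smul, ext0_add]
    congr 1 <;> module
  rwa [h5] at h4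

section group

variable (hG : ∀ g, g ∈ G ↔ Pres Z (g : Matrix (Fin (p + q)) (Fin (p + q)) ℂ) ∧
      Pres Z ((g⁻¹ : Matrix.GeneralLinearGroup (Fin (p + q)) ℂ) :
        Matrix (Fin (p + q)) (Fin (p + q)) ℂ))
  (hL : PathMonodromy β γ B G)

include hL in
/-- The data of an element of the group. -/
theorem elt {h : Matrix.GeneralLinearGroup (Fin (p + q)) ℂ} (hh : h ∈ G) :
    ∃ (g : cycles G) (w : Matrix (Fin q) (Fin p) ℂ),
      (h : Matrix (Fin (p + q)) (Fin (p + q)) ℂ) = ext (mat g) w ∧ Compatible β γ w := by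
  obtain ⟨g₀, w, he, hw⟩ := hL.shape h hh
  obtain ⟨g₁, w₁, he₁, -⟩ := hL.shape h⁻¹ (G.inv_mem hh)
  have h1 : g₀ * g₁ = 1 := by
    have h2 : (h : Matrix (Fin (p + q)) (Fin (p + q)) ℂ) *
        ((h⁻¹ : Matrix.GeneralLinearGroup (Fin (p + q)) ℂ) :
          Matrix (Fin (p + q)) (Fin (p + q)) ℂ) = 1 := by
      rw [← Units.val_mul, mul_inv_cancel, Units.val_one]
    rw [he, he₁, ext_mul, ← ext_one] at h2
    exact (ext_inj h2).1
  have h2 : g₁ * g₀ = 1 := mul_eq_one_comm.1 h1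
  exact ⟨⟨⟨g₀, g₁, h1, h2⟩, w, h, hh, he⟩, w, he, hw⟩

theorem lift_elt (g : cycles G) (hL : PathMonodromy β γ B G) :
    ∃ (w : Matrix (Fin q) (Fin p) ℂ), ∃ h ∈ G,
      (h : Matrix (Fin (p + q)) (Fin (p + q)) ℂ) = ext (mat g) w ∧ Compatible β γ w := by
  obtain ⟨g, w, h, hh, he⟩ := g
  refine ⟨w, h, hh, he, ?_⟩
  obtain ⟨g₀, w', he', hw'⟩ := hL.shape h hh
  rw [he] at he'
  rw [(ext_inj he').2]
  exact hw'

include hG hL

/-- Conjugation. -/
theorem l0_conj {g : cycles G} {w : Matrix (Fin q) (Fin p) ℂ}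
    {h : Matrix.GeneralLinearGroup (Fin (p + q)) ℂ} (hh : h ∈ G)
    (he : (h : Matrix (Fin (p + q)) (Fin (p + q)) ℂ) = ext (mat g) w) (hw : Compatible β γ w)
    {y : Matrix (Fin p) (Fin p) ℂ × Matrix (Fin q) (Fin p) ℂ} (hy : y ∈ l0 β γ Z) :
    (mat g * y.1 * mat g⁻¹, (w * y.1 + y.2) * mat g⁻¹) ∈ l0 β γ Z := by
  obtain ⟨h1, h2, h3⟩ := hy
  have hgb : BlockDiagonal β (mat g) := hL.cycles.group g
  have hgb' : BlockDiagonal β (mat g⁻¹) := hL.cycles.group g⁻¹
  refine ⟨comp_mul (comp_add (comp_mul hw h2) h1) hgb', bd_mul (bd_mul hgb h2) hgb', ?_⟩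
  have h4 := (hG h).1 hh
  have h5 : (h : Matrix (Fin (p + q)) (Fin (p + q)) ℂ) *
      ((h⁻¹ : Matrix.GeneralLinearGroup (Fin (p + q)) ℂ) :
        Matrix (Fin (p + q)) (Fin (p + q)) ℂ) = 1 := by
    rw [← Units.val_mul, mul_inv_cancel, Units.val_one]
  have h6 := lie_conj h4.2 h4.1 (mul_eq_one_comm.1 h5) h5 h3
  have h7 := ext_inv g.1 w h he
  rw [h7, he, ext_mul_ext0, ext0_mul_ext] at h6
  exact h6

/-- The logarithms. -/
theorem l0_log {g : cycles G} (hg : g ∈ quadratics B (cycles G)) :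
    ∃ w, (mat g - 1, w) ∈ l0 β γ Z := by
  obtain ⟨w, h, hh, he, hw⟩ := lift_elt g hL
  obtain ⟨h1, -⟩ := hg
  have hgb : BlockDiagonal β (mat g - 1) := bd_sub (hL.cycles.group g) bd_one
  set M := ext0 (mat g - 1) w with hM
  have e1 : (h : Matrix (Fin (p + q)) (Fin (p + q)) ℂ) = 1 + M := by
    rw [he, hM, one_add_ext0, add_sub_cancel]
  have e2 : M * M = ext0 0 (w * (mat g - 1)) := by
    rw [hM, ext0_mul, h1]
  have e3 : M * (M * M) = 0 := by
    rw [e2, hM, ext0_mul, Matrix.mul_zero, Matrix.mul_zero, ext0_zero]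
  have e4 : ∀ k : ℕ, Pres Z ((1 + M) ^ k) := by
    intro k
    have h5 := ((hG _).1 (G.pow_mem hh k)).1
    rwa [Units.val_pow_eq_pow_val, e1] at h5
  have e5 := lie_of_unip e3 e4
  refine ⟨w - (1 / 2 : ℂ) • (w * (mat g - 1)), comp_sub hw (comp_smul _ (comp_mul hw hgb)), hgb, ?_⟩
  rw [e2, ext0_smul, hM, sub_eq_add_neg, ← neg_one_smul ℂ (ext0 _ _), ext0_smul, ext0_add] at e5
  have e6 : ext0 (mat g - 1 + (-1 : ℂ) • (1 / 2 : ℂ) • (0 : Matrix (Fin p) (Fin p) ℂ))
      (w + (-1 : ℂ) • (1 / 2 : ℂ) • (w * (mat g - 1))) =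
      ext0 (mat g - 1) (w - (1 / 2 : ℂ) • (w * (mat g - 1))) := by
    congr 1 <;> module
  rwa [e6] at e5

omit hG hL

/-- The logarithms are skew. -/
theorem sk_log {G₀ : Subgroup (Matrix.GeneralLinearGroup (Fin p) ℂ)}
    (hL : LocalMonodromy β B G₀) {g : G₀} (hg : g ∈ quadratics B G₀) (j : Fin m) :
    Sk (Cf β B j) (piece β G₀ hL.group j g - 1) := by
  obtain ⟨h1, h2⟩ := hg
  have h3 : ∀ x y, Cf β B j (piece β G₀ hL.group j g x) (piece β G₀ hL.group j g y) =
      (1 : ℂ) * Cf β B j x y := fun x y => by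
    refine Cf_act hL.form.unit hL.form.block (hL.group g) j one_ne_zero ?_ x y
    rw [h2, one_smul]
  have h4 : (piece β G₀ hL.group j g - 1) * (piece β G₀ hL.group j g - 1) = 0 :=
    congrFun (log_sq hL ⟨h1, h2⟩) j
  have hh : ∀ x, piece β G₀ hL.group j g x = x + (piece β G₀ hL.group j g - 1) x := by
    intro x
    rw [LinearMap.sub_apply, Module.End.one_apply]
    abel
  have hN : ∀ x, (piece β G₀ hL.group j g - 1) ((piece β G₀ hL.group j g - 1) x) = 0 := fun x =>
    congrArg (fun f : End ℂ _ => f x) h4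
  have h0 : ∀ x y, Cf β B j ((piece β G₀ hL.group j g - 1) x) y +
      Cf β B j x ((piece β G₀ hL.group j g - 1) y) +
      Cf β B j ((piece β G₀ hL.group j g - 1) x) ((piece β G₀ hL.group j g - 1) y) = 0 := by
    intro x y
    have h8 := h3 x y
    rw [one_mul, hh x, hh y] at h8
    simp only [map_add, LinearMap.add_apply] at h8
    linear_combination h8
  intro x y
  have h8 := h0 ((piece β G₀ hL.group j g - 1) x) y
  rw [hN, map_zero, LinearMap.zero_apply, LinearMap.zero_apply, zero_add, add_zero] at h8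
  have h9 := h0 x y
  rwa [h8, add_zero] at h9

/-- The matrix of the logarithm. -/
theorem LX_log {G₀ : Subgroup (Matrix.GeneralLinearGroup (Fin p) ℂ)}
    (hL : LocalMonodromy β B G₀) (g : G₀) :
    LX β (fun j => piece β G₀ hL.group j g - 1) = mat g - 1 := by
  have e2 : (fun j => piece β G₀ hL.group j g - 1) =
      (fun j => piece β G₀ hL.group j g) - 1 := rfl
  rw [e2, map_sub, LX_piece, LX_one]

/-- The Lie algebra on the cycles. -/
noncomputable def L1 (β : Fin p → Fin m) (γ : Fin q → Fin m) (B : Matrix (Fin p) (Fin p) ℂ)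
    (Z : ℝ → Matrix (Fin (p + q)) (Fin (p + q)) ℂ) :
    Submodule ℂ (∀ j, Module.End ℂ ({a // β a = j} → ℂ)) where
  carrier := {X | (∃ w, (LX β X, w) ∈ l0 β γ Z) ∧ ∀ j, Sk (Cf β B j) (X j)}
  zero_mem' := by
    refine ⟨⟨0, by rw [map_zero]; exact Submodule.zero_mem _⟩, fun j x y => ?_⟩
    change Cf β B j (0 : {a // β a = j} → ℂ) y + Cf β B j x 0 = 0
    simp
  add_mem' := by
    rintro X Y ⟨⟨w, h1⟩, h2⟩ ⟨⟨w', h1'⟩, h2'⟩
    refine ⟨⟨w + w', by rw [map_add]; exact Submodule.add_mem _ h1 h1'⟩, fun j x y => ?_⟩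
    change Cf β B j (X j x + Y j x) y + Cf β B j x (X j y + Y j y) = 0
    rw [map_add, map_add, LinearMap.add_apply]
    linear_combination h2 j x y + h2' j x y
  smul_mem' := by
    rintro c X ⟨⟨w, h1⟩, h2⟩
    refine ⟨⟨c • w, by rw [map_smul]; exact Submodule.smul_mem _ c h1⟩, fun j x y => ?_⟩
    change Cf β B j (c • X j x) y + Cf β B j x (c • X j y) = 0
    rw [map_smul, map_smul, LinearMap.smul_apply, smul_eq_mul, smul_eq_mul]
    linear_combination c * h2 j x y

include hG hL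

theorem log_mem1 {g : cycles G} (hg : g ∈ quadratics B (cycles G)) :
    (fun j => piece β (cycles G) hL.cycles.group j g - 1) ∈ L1 β γ B Z := by
  obtain ⟨w, hw⟩ := l0_log hG hL hg
  exact ⟨⟨w, by rw [LX_log hL.cycles]; exact hw⟩, fun j => sk_log hL.cycles hg j⟩

theorem fdefect1 {j : Fin m} {g : cycles G} {d : ℕ}
    (hd : Sm.IsDefect (piece β (cycles G) hL.cycles.group j) (quadratics B (cycles G)) g d) :
    FDefect (L1 β γ B Z) j (fun j => piece β (cycles G) hL.cycles.group j g - 1) d := by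
  rcases hd with hd | ⟨g', hg', -, a, ha, hd⟩
  · exact Or.inl hd
  · exact Or.inr ⟨_, log_mem1 hG hL hg', log_sq hL.cycles hg', a, ha, hd⟩

/-- The Lie algebra satisfies the conditions. -/
theorem lieFam1 : ∃ μ : Fin m → cycles G →* ℂ,
    LieFam μ (piece β (cycles G) hL.cycles.group) (Cf β B) (L1 β γ B Z) := by
  obtain ⟨μ, hμ⟩ := hL.cycles.similitudes
  have hact : ∀ (j : Fin m) (g : cycles G) x y,
      Cf β B j (piece β (cycles G) hL.cycles.group j g x)
      (piece β (cycles G) hL.cycles.group j g y) = μ j g * Cf β B j x y := by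
    intro j g x y
    have hne : μ j g ≠ 0 := by
      have h1 : μ j g * μ j g⁻¹ = 1 := by rw [← map_mul, mul_inv_cancel, map_one]
      exact left_ne_zero_of_mul_eq_one h1
    refine Cf_act hL.cycles.form.unit hL.cycles.form.block (hL.cycles.group g) j hne ?_ x y
    ext a b
    have h1 := hμ g a.1 b.1
    rw [a.2] at h1
    exact h1
  refine ⟨μ, ?_⟩
  exact {
    alt := Cf_alt hL.cycles.form.unit hL.cycles.form.skew
    nondeg := Cf_nondeg hL.cycles.form.unit hL.cycles.form.block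
    act := hact
    irreducible := hL.cycles.irreducible
    distinct := hL.cycles.distinct
    br := by
      rintro X ⟨⟨w, h1⟩, h2⟩ Y ⟨⟨w', h1'⟩, h2'⟩
      have h3 : (LX β (X * Y - Y * X), w * LX β Y - w' * LX β X) ∈ l0 β γ Z := by
        rw [map_sub, LX_mul, LX_mul]
        exact l0_br (x := (LX β X, w)) (y := (LX β Y, w')) h1 h1'
      exact ⟨⟨w * LX β Y - w' * LX β X, h3⟩, fun j => sk_br (h2 j) (h2' j)⟩
    conj := by
      rintro g X ⟨⟨W, h1⟩, h2⟩
      obtain ⟨w, h, hh, he, hw⟩ := lift_elt g hL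
      have e1 : (fun i => piece β (cycles G) hL.cycles.group i g * X i *
          piece β (cycles G) hL.cycles.group i g⁻¹) =
          (fun i => piece β (cycles G) hL.cycles.group i g) * X *
            fun i => piece β (cycles G) hL.cycles.group i g⁻¹ := rfl
      have h3 : (LX β (fun i => piece β (cycles G) hL.cycles.group i g * X i *
          piece β (cycles G) hL.cycles.group i g⁻¹), (w * LX β X + W) * mat g⁻¹) ∈ l0 β γ Z := by
        rw [e1, LX_mul, LX_mul, LX_piece, LX_piece]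
        exact l0_conj hG hL hh he hw (y := (LX β X, W)) h1
      exact ⟨⟨_, h3⟩, fun j => sk_conj (hact j) (h2 j) g⟩
    sk := fun X hX j => hX.2 j
    small := by
      intro i
      rcases hL.cycles.small i with ⟨g, hg, hd⟩ | ⟨⟨g, hg, hW⟩, hd⟩
      · refine Or.inl ⟨_, log_mem1 hG hL hg, log_sq hL.cycles hg, ?_⟩
        rcases hd with hd | hd
        · left
          intro p hp
          obtain ⟨d, hd, hpd⟩ := hd p hp
          exact ⟨d, fdefect1 hG hL hd, hpd⟩
        · exact Or.inr (fdefect1 hG hL hd)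
      · refine Or.inr ⟨_, log_mem1 hG hL hg, log_sq hL.cycles hg,
          fun W hW' => hW W fun s x hx => ?_, ?_⟩
        · have h1 := hW' s x hx
          have h2 : piece β (cycles G) hL.cycles.group i (s * g * s⁻¹) x =
              (piece β (cycles G) hL.cycles.group i s *
              (piece β (cycles G) hL.cycles.group i g - 1) *
              piece β (cycles G) hL.cycles.group i s⁻¹) x + x := by
            have e1 : piece β (cycles G) hL.cycles.group i s *
                piece β (cycles G) hL.cycles.group i s⁻¹ = 1 := by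
              rw [← map_mul, mul_inv_cancel, map_one]
            rw [map_mul, map_mul, mul_sub, sub_mul, mul_one, e1, LinearMap.sub_apply,
              Module.End.one_apply]
            abel
          rw [h2]
          exact W.add_mem h1 hx
        · intro p hp
          obtain ⟨g', hg', d, hd, hpd⟩ := hd p hp
          exact ⟨_, log_mem1 hG hL hg', log_sq hL.cycles hg', d, fdefect1 hG hL hd, hpd⟩ }

/-- The Lie algebra contains lifts of the matrices of rank one. -/
theorem extLie : ExtLie β γ B⁻¹ (l0 β γ Z) where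
  skew := inv_tr hL.cycles.form.unit hL.cycles.form.skew
  det := inv_det (det_ne hL.cycles.form.unit hL.cycles.form.skew hL.cycles.form.block)
  block := bd_inv hL.cycles.form.block hL.cycles.form.unit
  compat := fun y hy => hy.1
  br := fun y hy z hz => l0_br hy hz
  lift := by
    classical
    intro j v hv
    obtain ⟨μ, hF⟩ := lieFam1 hG hL
    set v' : {a // β a = j} → ℂ := fun a => v a.1 with hv'
    obtain ⟨⟨w, hw⟩, -⟩ := hF.single_mem j v' v'
    have h2 : (Pi.single j (SS (Cf β B j) v' v') :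
        ∀ j, Module.End ℂ ({a // β a = j} → ℂ)) =
        (2 : ℂ) • Pi.single j ((Cf β B j v').smulRight v') := by
      funext k
      by_cases hk : k = j
      · subst hk
        rw [Pi.smul_apply, Pi.single_eq_same, Pi.single_eq_same]
        refine LinearMap.ext fun x => ?_
        rw [LinearMap.smul_apply, LinearMap.smulRight_apply, SS_apply]
        module
      · rw [Pi.smul_apply, Pi.single_eq_of_ne hk, Pi.single_eq_of_ne hk, smul_zero]
    have h3 : inc β j v' = v := by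
      funext a
      by_cases ha : β a = j
      · rw [inc, dif_pos ha]
      · rw [inc, dif_neg ha, hv a ha]
    rw [h2, map_smul, LX_single (bd_inv hL.cycles.form.block hL.cycles.form.unit), h3] at hw
    refine ⟨(1 / 2 : ℂ) • w, ?_⟩
    have h4 := (l0 β γ Z).smul_mem (1 / 2 : ℂ) hw
    rw [Prod.smul_mk, smul_smul] at h4
    norm_num at h4
    exact h4

/-- **The Lie algebra contains the whole radical.** -/
theorem radical_mem {w : Matrix (Fin q) (Fin p) ℂ} (hw : Compatible β γ w) :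
    (0, w) ∈ l0 β γ Z := by
  classical
  have hE := extLie hG hL
  refine radical (𝒢 := {y | ∃ (g : cycles G) (w : Matrix (Fin q) (Fin p) ℂ), y = (mat g, w) ∧
    Compatible β γ w ∧ ∃ h ∈ G, (h : Matrix (Fin (p + q)) (Fin (p + q)) ℂ) = ext (mat g) w})
    hE ?_ ?_ hw
  · rintro _ ⟨g, w, rfl, hw, h, hh, he⟩
    refine ⟨mat g⁻¹, ?_, fun y hy => l0_conj hG hL hh he hw hy, ?_⟩
    · have h5 : mat g⁻¹ * mat g = mat (g⁻¹ * g) := rfl
      rw [h5, inv_mul_cancel]
      rfl
    · intro i u hu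
      dsimp only
      have hgb : BlockDiagonal β (mat g) := hL.cycles.group g
      have hgb' : BlockDiagonal β (mat g⁻¹) := hL.cycles.group g⁻¹
      have hs : Supp β i (mat g *ᵥ u) := by
        intro a ha
        rw [mulVec, dotProduct]
        refine Finset.sum_eq_zero fun b _ => ?_
        by_cases hb : β b = i
        · rw [hgb a b (by rw [hb]; exact ha), zero_mul]
        · rw [hu b hb, mul_zero]
      refine ⟨hs, ?_⟩
      obtain ⟨μ, hμ⟩ := hL.cycles.similitudes
      have hne : μ i g ≠ 0 := by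
        have h1 : μ i g * μ i g⁻¹ = 1 := by rw [← map_mul, mul_inv_cancel, map_one]
        exact left_ne_zero_of_mul_eq_one h1
      have hdet : IsUnit B.det := (Matrix.isUnit_iff_isUnit_det _).1 hL.cycles.form.unit
      have h1 : mat g * B * (mat g)ᵀ = Matrix.diagonal (fun a => μ (β a) g) * B := by
        ext a b
        rw [hμ g a b, Matrix.diagonal_mul]
      have h6 : mat g⁻¹ * mat g = 1 := by
        have h5 : mat g⁻¹ * mat g = mat (g⁻¹ * g) := rfl
        rw [h5, inv_mul_cancel]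
        rfl
      have h2 : B * (mat g)ᵀ = mat g⁻¹ * Matrix.diagonal (fun a => μ (β a) g) * B := by
        calc B * (mat g)ᵀ = (mat g⁻¹ * mat g) * B * (mat g)ᵀ := by rw [h6, Matrix.one_mul]
          _ = mat g⁻¹ * (mat g * B * (mat g)ᵀ) := by simp only [Matrix.mul_assoc]
          _ = _ := by rw [h1]; simp only [Matrix.mul_assoc]
      have h3 : (mat g)ᵀ * B⁻¹ = B⁻¹ * mat g⁻¹ * Matrix.diagonal (fun a => μ (β a) g) := by
        calc (mat g)ᵀ * B⁻¹ = (B⁻¹ * B) * (mat g)ᵀ * B⁻¹ := by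
              rw [nonsing_inv_mul _ hdet, Matrix.one_mul]
          _ = B⁻¹ * (B * (mat g)ᵀ) * B⁻¹ := by simp only [Matrix.mul_assoc]
          _ = B⁻¹ * (mat g⁻¹ * Matrix.diagonal (fun a => μ (β a) g)) * (B * B⁻¹) := by
              rw [h2]
              simp only [Matrix.mul_assoc]
          _ = _ := by rw [mul_nonsing_inv _ hdet, Matrix.mul_one]; simp only [Matrix.mul_assoc]
      refine ⟨(μ i g)⁻¹, ?_⟩
      have h4 : (u ᵥ* B⁻¹) ᵥ* mat g⁻¹ = (μ i g)⁻¹ • ((mat g *ᵥ u) ᵥ* B⁻¹) := by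
        have h5 : (mat g *ᵥ u) ᵥ* B⁻¹ = ((u ᵥ* B⁻¹) ᵥ* mat g⁻¹) ᵥ*
            Matrix.diagonal (fun a => μ (β a) g) := by
          rw [vecMul_vecMul, vecMul_vecMul, ← Matrix.mul_assoc, ← h3, ← vecMul_vecMul,
            vecMul_transpose]
        have h7 : Supp β i ((u ᵥ* B⁻¹) ᵥ* mat g⁻¹) := supp_vJ hgb'
          (supp_vJ (bd_inv hL.cycles.form.block hL.cycles.form.unit) hu)
        rw [h5]
        funext b
        rw [Pi.smul_apply, smul_eq_mul, vecMul_diagonal]
        by_cases hb : β b = i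
        · rw [hb]
          field_simp
        · rw [h7 b hb, zero_mul, mul_zero]
      rw [nv, nv, mul_vecMulVec, vecMulVec_mul, h4, vecMulVec_smul]
  · intro l c hlc
    have h1 := hL.independent (Sum.elim (-l) c ∘ finSumFinEquiv.symm) (by
      intro h hh
      obtain ⟨g, w, he, hw⟩ := elt hL hh
      have h2 := hlc (mat g, w) ⟨g, w, rfl, hw, h, hh, he⟩
      rw [he, ext, reindex_apply, submatrix_vecMul_equiv, vecMul_fromBlocks]
      simp only [Equiv.symm_symm, Function.comp_assoc, Equiv.symm_comp_self, Function.comp_id,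
        Sum.elim_comp_inl, Sum.elim_comp_inr, vecMul_zero, vecMul_one, zero_add]
      congr 2
      rw [neg_vecMul, ← h2]
      abel)
    funext a
    have h2 := congrFun h1 (finSumFinEquiv (Sum.inr a))
    simpa using h2

end group

end Pool.Agent.V11219.Om
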