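import Mathlib
import Pool.Agent.V11219.OmFam

/-!
# The extended isometry group is perfect and contained in the Galois group
-/

set_option linter.unusedSectionVars false
set_option linter.unusedVariables false

open Matrix Module Pool.Agent.Y123.GN Pool.Agent.V11219.Gk
open scoped commutatorElement

namespace Pool.Agent.V11219.Om

open Pool.Agent.V11219.Per

variable {p q m : ℕ} {β : Fin p → Fin m} {γ : Fin q → Fin m} {B : Matrix (Fin p) (Fin p) ℂ}

theorem ext_split (g : Matrix (Fin p) (Fin p) ℂ) (w : Matrix (Fin q) (Fin p) ℂ) :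
    ext g w = ext g 0 * ext 1 w := by
  rw [ext_mul, Matrix.mul_one, Matrix.zero_mul, zero_add]

/-- The group. -/
def ExtG (β : Fin p → Fin m) (γ : Fin q → Fin m) (B : Matrix (Fin p) (Fin p) ℂ) :
    Subgroup (Matrix.GeneralLinearGroup (Fin (p + q)) ℂ) where
  carrier := {y | ∃ g ∈ IsoG β B, ∃ w : Matrix (Fin q) (Fin p) ℂ, Compatible β γ w ∧
    (y : Matrix (Fin (p + q)) (Fin (p + q)) ℂ) = ext (g : Matrix (Fin p) (Fin p) ℂ) w}
  mul_mem' := by
    rintro y y' ⟨g, hg, w, hw, he⟩ ⟨g', hg', w', hw', he'⟩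
    exact ⟨g * g', (IsoG β B).mul_mem hg hg', w * (g' : Matrix (Fin p) (Fin p) ℂ) + w',
      comp_add (comp_mul hw hg'.1) hw', by rw [Units.val_mul, he, he', ext_mul, Units.val_mul]⟩
  one_mem' := ⟨1, (IsoG β B).one_mem, 0, comp_zero, by rw [Units.val_one, Units.val_one, ext_one]⟩
  inv_mem' := by
    rintro y ⟨g, hg, w, hw, he⟩
    have hg' := (IsoG β B).inv_mem hg
    refine ⟨g⁻¹, hg', _, ?_, ext_inv g w y he⟩
    have h1 := comp_smul (-1) (comp_mul hw hg'.1)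
    rwa [neg_one_smul] at h1

theorem extG_of (hu : IsUnit B) {y : Matrix (Fin (p + q)) (Fin (p + q)) ℂ}
    (hy : ExtIsometry β γ B y) : ∃ u ∈ ExtG β γ B,
      (u : Matrix (Fin (p + q)) (Fin (p + q)) ℂ) = y := by
  obtain ⟨g, w, rfl, hg, hw⟩ := hy
  have hB : B.det ≠ 0 := ((Matrix.isUnit_iff_isUnit_det _).1 hu).ne_zero
  have hgu : IsUnit g := by
    rw [Matrix.isUnit_iff_isUnit_det]
    have h6 := congrArg Matrix.det hg.2
    rw [det_mul, det_mul, det_transpose] at h6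
    refine Ne.isUnit fun h0 => ?_
    rw [h0, zero_mul, zero_mul] at h6
    exact hB h6.symm
  obtain ⟨g, rfl⟩ := hgu
  have h1 : ext (g : Matrix (Fin p) (Fin p) ℂ) w *
      ext ((g⁻¹ : Matrix.GeneralLinearGroup (Fin p) ℂ) : Matrix (Fin p) (Fin p) ℂ)
        (-(w * ((g⁻¹ : Matrix.GeneralLinearGroup (Fin p) ℂ) : Matrix (Fin p) (Fin p) ℂ))) = 1 := by
    rw [ext_mul, add_neg_cancel, ← Units.val_mul, mul_inv_cancel, Units.val_one, ext_one]
  exact ⟨⟨_, _, h1, mul_eq_one_comm.1 h1⟩, ⟨g, hg, w, hw, rfl⟩, rfl⟩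

section scal

variable (hu : IsUnit B) (hs : Bᵀ = -B) (hb : BlockDiagonal β B)
include hu hs hb

/-- An isometry which scales. -/
theorem scal {j : Fin m} {v : Fin p → ℂ} (hvs : Supp β j v) : ∃ u ∈ IsoG β B,
    (v ᵥ* B⁻¹) ᵥ* (u : Matrix (Fin p) (Fin p) ℂ) = (1 / 4 : ℂ) • (v ᵥ* B⁻¹) ∧
    (u : Matrix (Fin p) (Fin p) ℂ) * nv B⁻¹ v =
      (16 : ℂ) • (nv B⁻¹ v * (u : Matrix (Fin p) (Fin p) ℂ)) := by
  have hJ : (B⁻¹)ᵀ = -B⁻¹ := inv_tr hu hs
  have hJb : BlockDiagonal β B⁻¹ := bd_inv hb hu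
  have hJd : (B⁻¹).det ≠ 0 := inv_det (det_ne hu hs hb)
  have hJ' : (B⁻¹)ᵀ = (-1 : ℂ) • B⁻¹ := by rw [hJ, neg_one_smul]
  by_cases hv : v = 0
  · refine ⟨1, (IsoG β B).one_mem, ?_, ?_⟩
    · rw [hv, zero_vecMul, zero_vecMul, smul_zero]
    · rw [hv, nv_zero, Matrix.mul_zero, Matrix.zero_mul, smul_zero]
  obtain ⟨w, hws, hw⟩ := nondeg_block hJb hJd hvs hv
  have hvv : bf B⁻¹ v v = 0 := form_self hJ v
  have hww : bf B⁻¹ w w = 0 := form_self hJ w
  have hwv : bf B⁻¹ w v = -1 := by rw [bf_symm hJ', hw]; ring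
  set H : Matrix (Fin p) (Fin p) ℂ := 1 - ro B⁻¹ v w - (1 / 2 : ℂ) • ro B⁻¹ w v with hH
  set H' : Matrix (Fin p) (Fin p) ℂ := 1 + ro B⁻¹ w v + (1 / 2 : ℂ) • ro B⁻¹ v w with hH'
  have hHb : BlockDiagonal β H :=
    bd_sub (bd_sub bd_one (ro_bd hJb hvs hws)) (bd_smul _ (ro_bd hJb hws hvs))
  have hadj : Hᵀ * B⁻¹ = B⁻¹ * H' := by
    rw [hH, hH', transpose_sub, transpose_sub, transpose_one, transpose_smul, Matrix.sub_mul,
      Matrix.sub_mul, Matrix.one_mul, Matrix.smul_mul, ro_adj (by norm_num) hJ',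
      ro_adj (by norm_num) hJ', Matrix.mul_add, Matrix.mul_add, Matrix.mul_one, Matrix.mul_smul]
    module
  have hinv : H' * H = 1 := by
    rw [hH, hH']
    simp only [Matrix.add_mul, Matrix.mul_sub, Matrix.one_mul, Matrix.mul_one, Matrix.smul_mul,
      Matrix.mul_smul, ro_mul, hvv, hww, hw, hwv]
    module
  have hiso := iso_of_adj hadj hinv
  have hiso2 := iso_mul hiso hiso
  have hd2 : (H * H).det = 1 := by rw [det_mul, iso_det_sq hJd hiso]
  obtain ⟨u, hu1, hu'⟩ := isoG_of_iso hu hs hb (bd_mul hHb hHb) hiso2 hd2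
  refine ⟨u, hu1, ?_, ?_⟩
  · have h1 : (v ᵥ* B⁻¹) ᵥ* H = (1 / 2 : ℂ) • (v ᵥ* B⁻¹) := by
      rw [hH, vecMul_sub, vecMul_sub, vecMul_one, vecMul_smul]
      have h2 : (v ᵥ* B⁻¹) ᵥ* ro B⁻¹ v w = 0 := by
        rw [ro, vecMul_vecMulVec, vJ_dot, hvv, zero_smul]
      have h3 : (v ᵥ* B⁻¹) ᵥ* ro B⁻¹ w v = v ᵥ* B⁻¹ := by
        rw [ro, vecMul_vecMulVec, vJ_dot, hw, one_smul]
      rw [h2, h3]
      module
    rw [hu', ← vecMul_vecMul, h1, smul_vecMul, h1, smul_smul]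
    norm_num
  · have hn : nv B⁻¹ v = ro B⁻¹ v v := rfl
    have h1 : H * ro B⁻¹ v v = (4 : ℂ) • ro B⁻¹ v v * H := by
      rw [hH]
      simp only [Matrix.sub_mul, Matrix.mul_sub, Matrix.one_mul, Matrix.mul_one, Matrix.smul_mul,
        Matrix.mul_smul, ro_mul, hvv, hw, hwv]
      module
    rw [hu', hn, Matrix.mul_assoc, h1, ← Matrix.mul_assoc, Matrix.mul_smul, h1]
    simp only [Matrix.smul_mul, Matrix.mul_assoc]
    module

end scal

/-- The nilpotent matrices. -/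
def SE (β : Fin p → Fin m) (γ : Fin q → Fin m) (B : Matrix (Fin p) (Fin p) ℂ) :
    Set (Matrix (Fin (p + q)) (Fin (p + q)) ℂ) :=
  {N | (∃ (j : Fin m) (v : Fin p → ℂ) (t : ℂ), Supp β j v ∧ N = ext0 (t • nv B⁻¹ v) 0) ∨
    ∃ (a : Fin q) (v : Fin p → ℂ) (t : ℂ), Supp β (γ a) v ∧
      N = ext0 0 (t • vecMulVec (Pi.single a 1) (v ᵥ* B⁻¹))}

section perf

variable (hu : IsUnit B) (hs : Bᵀ = -B) (hb : BlockDiagonal β B)
include hu hs hb

theorem SE_sq {N : Matrix (Fin (p + q)) (Fin (p + q)) ℂ} (hN : N ∈ SE β γ B) : N * N = 0 := by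
  rcases hN with ⟨j, v, t, hv, rfl⟩ | ⟨a, v, t, hv, rfl⟩
  · rw [ext0_mul, smul_mul_smul_comm, nv_sq (inv_tr hu hs), smul_zero, Matrix.zero_mul, ext0_zero]
  · rw [ext0_mul, Matrix.mul_zero, Matrix.mul_zero, ext0_zero]

theorem exp_sq {M : Type} [Fintype M] [DecidableEq M] {N : Matrix M M ℂ} (hN : N * N = 0) :
    IsNilpotent.exp N = 1 + N := by
  rw [IsNilpotent.exp_eq_sum (by rw [pow_two, hN] : N ^ 2 = 0), Finset.sum_range_succ,
    Finset.sum_range_one]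
  simp

theorem comp_rank {a : Fin q} {v : Fin p → ℂ} (hv : Supp β (γ a) v) (t : ℂ) :
    Compatible β γ (t • vecMulVec (Pi.single a (1 : ℂ)) (v ᵥ* B⁻¹)) := by
  refine comp_smul t ?_
  intro a' b hab
  rw [vecMulVec_apply]
  by_cases ha : a' = a
  · subst ha
    rw [supp_vJ (bd_inv hb hu) hv b (Ne.symm hab), mul_zero]
  · rw [Pi.single_eq_of_ne ha, zero_mul]

theorem SE_exp {N : Matrix (Fin (p + q)) (Fin (p + q)) ℂ} (hN : N ∈ SE β γ B) :
    ∃ u ∈ ExtG β γ B, (u : Matrix (Fin (p + q)) (Fin (p + q)) ℂ) = IsNilpotent.exp N := by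
  rw [exp_sq hu hs hb (SE_sq hu hs hb hN)]
  rcases hN with ⟨j, v, t, hv, rfl⟩ | ⟨a, v, t, hv, rfl⟩
  · refine extG_of hu ⟨1 + t • nv B⁻¹ v, 0, one_add_ext0 _ _, ?_, comp_zero⟩
    have hJ : (B⁻¹)ᵀ = -B⁻¹ := inv_tr hu hs
    have hJb : BlockDiagonal β B⁻¹ := bd_inv hb hu
    obtain ⟨u, hu1, hu'⟩ := isoG_of_iso hu hs hb (g := 1 + t • nv B⁻¹ v)
      (bd_add bd_one (bd_smul t (ro_bd hJb hv hv)))
      (by
        have h1 := nv_isom hJ v t
        rwa [nv_exp hJ] at h1)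
      (by
        have h1 := det_exp (nv_nil hJ v) t
        rwa [nv_exp hJ] at h1)
    rw [← hu']
    exact hu1
  · refine extG_of hu ⟨1, _, ?_, ⟨bd_one, ?_⟩, comp_rank hu hs hb hv t⟩
    · rw [one_add_ext0, add_zero]
    · rw [Matrix.one_mul, transpose_one, Matrix.mul_one]

/-- The monoid. -/
theorem mem_clo {g : Matrix (Fin p) (Fin p) ℂ} {w : Matrix (Fin q) (Fin p) ℂ}
    (hg : Isometry β B g) (hw : Compatible β γ w) : ext g w ∈ Submonoid.closure
      {x : Matrix (Fin (p + q)) (Fin (p + q)) ℂ | ∃ N ∈ SE β γ B, x = IsNilpotent.exp N} := by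
  classical
  rw [ext_split]
  refine mul_mem ?_ ?_
  · have h1 := iso_gen hu hs hb hg
    unfold MM at h1
    clear hg
    induction h1 using Submonoid.closure_induction with
    | mem x h =>
      obtain ⟨N, ⟨j, v, t, rfl⟩, rfl⟩ := h
      refine Submonoid.subset_closure ⟨ext0 (t • nv B⁻¹ (inc β j v)) 0,
        Or.inl ⟨j, inc β j v, t, fun a => inc_off v, rfl⟩, ?_⟩
      rw [nv_exp (inv_tr hu hs), exp_sq hu hs hb, one_add_ext0]
      exact SE_sq (γ := γ) hu hs hb (Or.inl ⟨j, inc β j v, t, fun a => inc_off v, rfl⟩)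
    | one =>
      rw [ext_one]
      exact one_mem _
    | mul x y _ _ hx hy =>
      have h2 : ext (x * y) (0 : Matrix (Fin q) (Fin p) ℂ) = ext x 0 * ext y 0 := by
        rw [ext_mul, Matrix.zero_mul, zero_add]
      rw [h2]
      exact mul_mem hx hy
  · have hadd : ∀ w w' : Matrix (Fin q) (Fin p) ℂ, ext 1 (w + w') =
        ext (1 : Matrix (Fin p) (Fin p) ℂ) w * ext 1 w' := by
      intro w w'
      rw [ext_mul, Matrix.mul_one, Matrix.mul_one]
    have hsum : ∀ {κ : Type} (F : Finset κ) (f : κ → Matrix (Fin q) (Fin p) ℂ),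
        (∀ i ∈ F, ext (1 : Matrix (Fin p) (Fin p) ℂ) (f i) ∈ Submonoid.closure
          {x : Matrix (Fin (p + q)) (Fin (p + q)) ℂ | ∃ N ∈ SE β γ B, x = IsNilpotent.exp N}) →
        ext (1 : Matrix (Fin p) (Fin p) ℂ) (∑ i ∈ F, f i) ∈ Submonoid.closure
          {x : Matrix (Fin (p + q)) (Fin (p + q)) ℂ | ∃ N ∈ SE β γ B, x = IsNilpotent.exp N} := by
      intro κ F f hF
      induction F using Finset.induction_on with
      | empty =>
        rw [Finset.sum_empty, ext_one]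
        exact one_mem _
      | insert i F hi ih =>
        rw [Finset.sum_insert hi, hadd]
        exact mul_mem (hF i (Finset.mem_insert_self _ _))
          (ih fun k hk => hF k (Finset.mem_insert_of_mem hk))
    rw [Matrix.matrix_eq_sum_single w]
    refine hsum _ _ fun a _ => hsum _ _ fun b _ => ?_
    by_cases hab : γ a = β b
    · refine Submonoid.subset_closure ?_
      have hJu : IsUnit B⁻¹ := (Matrix.isUnit_nonsing_inv_iff).2 hu
      have h2 : Supp β (γ a) ((Pi.single b (1 : ℂ) : Fin p → ℂ) ᵥ* B) := by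
        rw [hab]
        exact supp_vJ hb (supp_single b 1)
      have h4 : ext0 (0 : Matrix (Fin p) (Fin p) ℂ) (Matrix.single a b (w a b)) =
          ext0 0 (w a b • vecMulVec (Pi.single a 1)
            (((Pi.single b (1 : ℂ) : Fin p → ℂ) ᵥ* B) ᵥ* B⁻¹)) := by
        rw [vecMul_vecMul, mul_nonsing_inv _ ((Matrix.isUnit_iff_isUnit_det _).1 hu), vecMul_one,
          ← Matrix.single_eq_single_vecMulVec_single, Matrix.smul_single, smul_eq_mul, mul_one]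
      have h5 : ext0 (0 : Matrix (Fin p) (Fin p) ℂ) (Matrix.single a b (w a b)) ∈ SE β γ B := by
        rw [h4]
        exact Or.inr ⟨a, _, _, h2, rfl⟩
      refine ⟨_, h5, ?_⟩
      rw [exp_sq hu hs hb (SE_sq hu hs hb h5), one_add_ext0, add_zero]
    · rw [hw a b hab, Matrix.single_zero, ext_one]
      exact one_mem _

/-- **The group is perfect and generated by unipotent elements.** -/
theorem extG_perf : ExtG β γ B ≤ ⁅Ug (ExtG β γ B), Ug (ExtG β γ B)⁆ := by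
  refine perf (S := SE β γ B) ?_ ?_ ?_ ?_ ?_
  · intro N hN
    exact ⟨2, by rw [pow_two, SE_sq hu hs hb hN]⟩
  · rintro N (⟨j, v, s, hv, rfl⟩ | ⟨a, v, s, hv, rfl⟩) t
    · exact Or.inl ⟨j, v, t * s, hv, by rw [ext0_smul, smul_smul, smul_zero]⟩
    · exact Or.inr ⟨a, v, t * s, hv, by rw [ext0_smul, smul_smul, smul_zero]⟩
  · intro N hN
    exact SE_exp hu hs hb hN
  · rintro g ⟨g₀, hg, w, hw, he⟩
    rw [he]
    exact mem_clo hu hs hb hg hw
  · rintro N (⟨j, v, t, hv, rfl⟩ | ⟨a, v, t, hv, rfl⟩)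
    · obtain ⟨u, hu1, -, h2⟩ := scal hu hs hb hv
      obtain ⟨U, hU, hU'⟩ := extG_of (γ := γ) hu ⟨(u : Matrix (Fin p) (Fin p) ℂ), 0, rfl, hu1,
        comp_zero⟩
      refine ⟨U, hU, 16, by norm_num, ?_⟩
      rw [hU', ext_mul_ext0, ext0_smul, ext0_mul_ext, Matrix.zero_mul, Matrix.mul_smul, h2,
        smul_zero, Matrix.zero_mul, add_zero, Matrix.smul_mul, Matrix.smul_mul]
      congr 1
      module
    · obtain ⟨u, hu1, h2, -⟩ := scal hu hs hb hv
      obtain ⟨U, hU, hU'⟩ := extG_of (γ := γ) hu ⟨(u : Matrix (Fin p) (Fin p) ℂ), 0, rfl, hu1,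
        comp_zero⟩
      refine ⟨U, hU, 4, by norm_num, ?_⟩
      rw [hU', ext_mul_ext0, ext0_smul, ext0_mul_ext, smul_zero, Matrix.zero_mul, Matrix.mul_zero,
        Matrix.zero_mul, zero_add, Matrix.smul_mul, Matrix.smul_mul, vecMulVec_mul, h2,
        vecMulVec_smul, smul_smul, smul_smul]
      congr 2
      ring

end perf

variable {Z : ℝ → Matrix (Fin (p + q)) (Fin (p + q)) ℂ}
  {G : Subgroup (Matrix.GeneralLinearGroup (Fin (p + q)) ℂ)}

/-- **The Galois group contains the extended group.** -/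
theorem extG_le (hG : ∀ g, g ∈ G ↔ Pres Z (g : Matrix (Fin (p + q)) (Fin (p + q)) ℂ) ∧
      Pres Z ((g⁻¹ : Matrix.GeneralLinearGroup (Fin (p + q)) ℂ) :
        Matrix (Fin (p + q)) (Fin (p + q)) ℂ))
    (hL : PathMonodromy β γ B G) : ExtG β γ B ≤ G := by
  have hu := hL.cycles.form.unit
  have hs := hL.cycles.form.skew
  have hb := hL.cycles.form.block
  have hJ : (B⁻¹)ᵀ = -B⁻¹ := inv_tr hu hs
  have key0 : ∀ N ∈ SE β γ B, N ∈ lie Z := by
    rintro N (⟨j, v, t, hv, rfl⟩ | ⟨a, v, t, hv, rfl⟩)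
    · obtain ⟨w, hw⟩ := (extLie hG hL).lift j v hv
      have h1 := radical_mem hG hL hw.1
      have h2 := ((l0 β γ Z).sub_mem hw h1)
      rw [Prod.mk_sub_mk, sub_zero] at h2
      have h3 := ((l0 β γ Z).smul_mem t h2).2.2
      have h4 : ext0 (t • (nv B⁻¹ v, w - w)).1 (t • (nv B⁻¹ v, w - w)).2 =
          ext0 (t • nv B⁻¹ v) 0 := by
        rw [Prod.smul_mk, sub_self, smul_zero]
      rwa [h4] at h3
    · exact (radical_mem hG hL (comp_rank hu hs hb hv t)).2.2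
  have key : ∀ x ∈ Submonoid.closure
      {x : Matrix (Fin (p + q)) (Fin (p + q)) ℂ | ∃ N ∈ SE β γ B, x = IsNilpotent.exp N},
      ∃ u ∈ G, (u : Matrix (Fin (p + q)) (Fin (p + q)) ℂ) = x := by
    intro x hx
    induction hx using Submonoid.closure_induction with
    | mem x h =>
      obtain ⟨N, hN, rfl⟩ := h
      have h2 := SE_sq hu hs hb hN
      have h3 : (1 + (1 : ℂ) • N) * (1 + (-1 : ℂ) • N) = 1 := by
        rw [Matrix.mul_add, Matrix.mul_one, Matrix.add_mul, Matrix.one_mul, smul_mul_smul_comm, h2,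
          smul_zero, add_zero, neg_smul]
        abel
      have h4 := mul_eq_one_comm.1 h3
      refine ⟨⟨_, _, h3, h4⟩, (hG _).2 ⟨pres_of_lie h2 (key0 N hN) 1,
        pres_of_lie h2 (key0 N hN) (-1)⟩, ?_⟩
      rw [exp_sq hu hs hb h2]
      change 1 + (1 : ℂ) • N = 1 + N
      rw [one_smul]
    | one => exact ⟨1, G.one_mem, Units.val_one⟩
    | mul x y _ _ hx hy =>
      obtain ⟨u, hu, rfl⟩ := hx
      obtain ⟨v, hv, rfl⟩ := hy
      exact ⟨u * v, G.mul_mem hu hv, Units.val_mul _ _⟩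
  rintro y ⟨g, hg, w, hw, he⟩
  obtain ⟨u, hu', h1⟩ := key _ (mem_clo hu hs hb hg hw)
  have h2 : u = y := Units.ext (h1.trans he.symm)
  rwa [← h2]

theorem extG_le_comm (hG : ∀ g, g ∈ G ↔ Pres Z (g : Matrix (Fin (p + q)) (Fin (p + q)) ℂ) ∧
      Pres Z ((g⁻¹ : Matrix.GeneralLinearGroup (Fin (p + q)) ℂ) :
        Matrix (Fin (p + q)) (Fin (p + q)) ℂ))
    (hL : PathMonodromy β γ B G) : ExtG β γ B ≤ ⁅Ug G, Ug G⁆ :=
  mono_comm (extG_le hG hL)
    (extG_perf hL.cycles.form.unit hL.cycles.form.skew hL.cycles.form.block)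

/-- The quotient of two isomorphisms. -/
theorem quot_ext (hu : IsUnit B) {X Y : Matrix (Fin p) (Fin p) ℂ}
    {x y : Matrix (Fin q) (Fin p) ℂ} {Q : Matrix (Fin p) (Fin p) ℂ}
    {μ : Fin m → ℂ} (hμ : ∀ j, μ j ≠ 0) (hXu : IsUnit X) (hXb : BlockDiagonal β X)
    (hYb : BlockDiagonal β Y) (hX : ∀ a b, (X * Q * Xᵀ) a b = μ (β a) * B a b)
    (hY : ∀ a b, (Y * Q * Yᵀ) a b = μ (β a) * B a b) (hx : Compatible β γ x)
    (hy : Compatible β γ y) :
    ∃ g ∈ ExtG β γ B, (g : Matrix (Fin (p + q)) (Fin (p + q)) ℂ) * ext X x = ext Y y := by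
  obtain ⟨g, hg, hgX⟩ := quot_iso hu hμ hXu hXb hYb hX hY
  have hXd : IsUnit X.det := (Matrix.isUnit_iff_isUnit_det _).1 hXu
  have hw : Compatible β γ ((y - x) * X⁻¹) := comp_mul (comp_sub hy hx) (bd_inv hXb hXu)
  obtain ⟨U, hU, hU'⟩ := extG_of (γ := γ) hu ⟨(g : Matrix (Fin p) (Fin p) ℂ), _, rfl, hg, hw⟩
  refine ⟨U, hU, ?_⟩
  rw [hU', ext_mul, hgX, Matrix.mul_assoc, Matrix.nonsing_inv_mul _ hXd, Matrix.mul_one,
    sub_add_cancel]

end Pool.Agent.V11219.Om
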