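import Pool.Agent.V11219.PerPerf

/-!
# Relations of bounded degree over number fields at almost all tuples
-/

set_option autoImplicit false
set_option linter.unusedSectionVars false

open Matrix Module PowerSeries Filter

namespace Pool.Agent.V11219.Per

open Pool.Agent.TH127.PT Pool.Agent.Y123.ST Pool.Agent.Y123.SR Pool.Agent.Y113 Pool.Agent.Y113.GG
  Pool.Agent.Y120.R Pool.Agent.Y123.GN



/-- The relations of degree at most `d` over `K` are preserved by the groups. -/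
def RelOK {k r : ℕ} {ρ n : Fin k → ℕ} (K : Subfield ℂ) (d : ℕ) (C₀ : Matrix (Fin r) (Fin r) ℂ)
    (h : ∀ i, Fin (ρ i) → ℚ⟦X⟧) (P : ∀ i, Fin (n i) → Fin (n i) → MvPolynomial (Option (Fin (ρ i))) ℂ)
    (t : Fin k → ℕ) : Prop :=
  ∀ g : ∀ i, (Matrix (Fin (n i)) (Fin (n i)) ℂ)ˣ, (∀ i, g i ∈ Gs (h i) (P i)) →
    Rl K d (EG C₀ fun i => pM (h i) (P i) (t i : ℝ))
      (EG 1 (fun i => (g i : Matrix (Fin (n i)) (Fin (n i)) ℂ)) *
        EG C₀ fun i => pM (h i) (P i) (t i : ℝ))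

theorem rel_main (k D d e r : ℕ) (ρ n : Fin k → ℕ) (h : ∀ i, Fin (ρ i) → ℚ⟦X⟧)
    (hF : ∀ i δ, Fam δ (h i)) :
    ∃ c C : ℝ, 0 < c ∧ 0 ≤ C ∧
    ∀ P : ∀ i, Fin (n i) → Fin (n i) → MvPolynomial (Option (Fin (ρ i))) ℂ,
    (∀ i a b, (P i a b).totalDegree ≤ e) → ∀ K : Subfield ℂ, FiniteDimensional ℚ K →
    Module.finrank ℚ K ≤ D → ∀ C₀ : Matrix (Fin r) (Fin r) ℂ, ∀ (x : Fin k → ℕ) (N : ℕ), 1 ≤ N →
    ∀ S : Finset (Fin k → ℕ),
    (∀ t ∈ S, (∀ i, x i < t i ∧ t i ≤ x i + N) ∧ ¬ RelOK K d C₀ h P t) →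
    (S.card : ℝ) ≤ C * (N : ℝ) ^ (k - 1) * ∑ i, (1 + N / ((x i : ℝ) + N) ^ c) := by
  classical
  obtain ⟨c, C, hc, hC, hmain⟩ := gx (ν := fun i => Fin (n i) × Fin (n i)) (h := h) d e
    ((D + r * r + 1) ^ (d + 1)) (fun i => hF i _)
  refine ⟨c, C, hc, hC, ?_⟩
  intro P hP K hKf hKD C₀ x N hN S hS
  obtain ⟨W, hW1, hW2, hKW, hW3⟩ := exists_W' K (fun b : Fin r × Fin r => C₀ b.1 b.2)
  obtain ⟨hp1, hp2⟩ := finrank_pow_le W (d + 1)
  have hWD : Module.finrank ℚ W ≤ D + r * r + 1 := by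
    refine hW2.trans ?_
    rw [Fintype.card_prod, Fintype.card_fin]
    omega
  have h1W : (1 : ℂ) ∈ W := hKW 1 K.one_mem
  refine hmain (fun i v => P i v.1 v.2) (fun i v => hP i v.1 v.2) (W ^ (d + 1))
    (hp2.trans (Nat.pow_le_pow_left hWD _)) x N hN S fun t ht => ?_
  obtain ⟨hbox, hnot⟩ := hS t ht
  refine ⟨hbox, ?_⟩
  by_contra hcon
  apply hnot
  have hval : ∀ i (g : Matrix (Fin (n i)) (Fin (n i)) ℂ) (v : Fin (n i) × Fin (n i)),
      MvPolynomial.aeval (p1 (h i) (t i : ℝ)) (tl (P i) g v) =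
        (g * pM (h i) (P i) (t i : ℝ)) v.1 v.2 := fun i g v => tl_eval (h i) (P i) g _ v
  have hrel : ∀ g : ∀ i, (Matrix (Fin (n i)) (Fin (n i)) ℂ)ˣ, (∀ i, g i ∈ Gs (h i) (P i)) →
      ∀ F : MvPolynomial (Σ i, Fin (n i) × Fin (n i)) ℂ, F.totalDegree ≤ d →
      (∀ s, F.coeff s ∈ W ^ (d + 1)) →
      MvPolynomial.aeval (fun v : Σ i, Fin (n i) × Fin (n i) =>
        pM (h v.1) (P v.1) (t v.1 : ℝ) v.2.1 v.2.2) F = 0 →
      MvPolynomial.aeval (fun v : Σ i, Fin (n i) × Fin (n i) =>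
        ((g v.1 : Matrix (Fin (n v.1)) (Fin (n v.1)) ℂ) *
          pM (h v.1) (P v.1) (t v.1 : ℝ)) v.2.1 v.2.2) F = 0 := by
    intro g hg F hFd hFV hF0
    by_contra hne
    refine hcon ⟨F, hFd, hFV, ?_, fun i => tl (P i) (g i), fun i => Prs_sat (hg i).1, ?_⟩
    · rw [MvPolynomial.aeval_eq_eval] at hF0
      exact hF0
    · intro h2
      apply hne
      rw [MvPolynomial.aeval_eq_eval]
      refine Eq.trans ?_ h2
      congr 2
      funext v
      exact (hval v.1 (g v.1) v.2).symm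
  intro g hg
  refine Rl_of hKW (PhiG_DC h1W fun a b => hW3 (a, b))
    (y := fun v : Σ i, Fin (n i) × Fin (n i) => pM (h v.1) (P v.1) (t v.1 : ℝ) v.2.1 v.2.2)
    (y' := fun v : Σ i, Fin (n i) × Fin (n i) =>
      ((g v.1 : Matrix (Fin (n v.1)) (Fin (n v.1)) ℂ) * pM (h v.1) (P v.1) (t v.1 : ℝ)) v.2.1 v.2.2)
    (fun F h2 h3 h4 => hrel g hg F h2 h3 h4) (fun b => PhiG_eval C₀ _ b) fun b => ?_
  rw [EG_mul, Matrix.one_mul]
  exact PhiG_eval C₀ _ b

/-- Automorphisms. -/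
theorem eval_aut {σ : Type} {K : Subfield ℂ} {F : MvPolynomial σ ℂ} (hF : ∀ m, F.coeff m ∈ K)
    {φ : ℂ ≃+* ℂ} (hφ : ∀ x ∈ K, φ x = x) (v : σ → ℂ) :
    MvPolynomial.eval (fun b => φ (v b)) F = φ (MvPolynomial.eval v F) := by
  rw [MvPolynomial.eval_eq, MvPolynomial.eval_eq, map_sum]
  refine Finset.sum_congr rfl fun m _ => ?_
  rw [map_mul, map_prod, hφ _ (hF m)]
  congr 1
  refine Finset.prod_congr rfl fun b _ => ?_
  rw [map_pow]

/-- A polynomial on a curve. -/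
theorem eval_curve {σ : Type} (F : MvPolynomial σ ℂ) {E : σ → Polynomial ℂ} (s : ℂ) :
    (MvPolynomial.aeval E F : Polynomial ℂ).eval s =
      MvPolynomial.eval (fun b => (E b).eval s) F := by
  induction F using MvPolynomial.induction_on with
  | C a => simp
  | add p q hp hq => rw [map_add, Polynomial.eval_add, hp, hq, map_add]
  | mul_X p b hp => rw [map_mul, Polynomial.eval_mul, hp, map_mul, MvPolynomial.aeval_X,
      MvPolynomial.eval_X]

section final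

variable {k r : ℕ} {ρ n m : Fin k → ℕ}

/-- The isomorphisms `X_i` respect the pieces and their polarisations `Q_i` (de Rham) and `B_i` (Betti)
up to the factors `μ_ij`. -/
def Resp (β : ∀ i, Fin (n i) → Fin (m i)) (B Q : ∀ i, Matrix (Fin (n i)) (Fin (n i)) ℂ)
    (μ : ∀ i, Fin (m i) → ℂ) (X : ∀ i, Matrix (Fin (n i)) (Fin (n i)) ℂ) : Prop :=
  ∀ i, BlockDiagonal (β i) (X i) ∧ ∀ a b, (X i * Q i * (X i)ᵀ) a b = μ i (β i a) * B i a b

theorem resp_unit {n m : ℕ} {β : Fin n → Fin m} {B Q X : Matrix (Fin n) (Fin n) ℂ} {μ : Fin m → ℂ}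
    (hu : IsUnit B) (hμ : ∀ j, μ j ≠ 0) (hX : ∀ a b, (X * Q * Xᵀ) a b = μ (β a) * B a b) :
    IsUnit X := by
  have h1 : X * Q * Xᵀ = Matrix.diagonal (fun a => μ (β a)) * B := by
    ext a b
    rw [hX, Matrix.diagonal_mul]
  have h2 := congrArg Matrix.det h1
  rw [det_mul, det_mul, det_mul, det_diagonal] at h2
  rw [Matrix.isUnit_iff_isUnit_det]
  refine Ne.isUnit fun h0 => ?_
  rw [h0, zero_mul, zero_mul] at h2
  have h3 : B.det ≠ 0 := ((Matrix.isUnit_iff_isUnit_det _).1 hu).ne_zero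
  exact mul_ne_zero (Finset.prod_ne_zero_iff.2 fun a _ => hμ (β a)) h3 h2.symm

variable {K : Subfield ℂ} {d : ℕ} {C₀ : Matrix (Fin r) (Fin r) ℂ}
  {h : ∀ i, Fin (ρ i) → ℚ⟦X⟧} {P : ∀ i, Fin (n i) → Fin (n i) → MvPolynomial (Option (Fin (ρ i))) ℂ}
  {t : Fin k → ℕ} {β : ∀ i, Fin (n i) → Fin (m i)} {B : ∀ i, Matrix (Fin (n i)) (Fin (n i)) ℂ}

/-- The relative case. -/
theorem relative (hR : RelOK K d C₀ h P t)
    (hL : ∀ i, LocalMonodromy (β i) (B i) (Gal (h i) (P i)))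
    {F : MvPolynomial (IG (Fin r) n × IG (Fin r) n) ℂ} (hFK : ∀ s, F.coeff s ∈ K)
    (hFd : F.totalDegree ≤ d)
    (hF : MvPolynomial.eval (Pool.Agent.Y123.ST.fl (EG C₀ fun i => perMat (h i) (P i) (t i : ℝ))) F = 0)
    {Q : ∀ i, Matrix (Fin (n i)) (Fin (n i)) ℂ} {μ : ∀ i, Fin (m i) → ℂ} (hμ : ∀ i j, μ i j ≠ 0)
    (hZ : Resp β B Q μ fun i => perMat (h i) (P i) (t i : ℝ))
    {X : ∀ i, Matrix (Fin (n i)) (Fin (n i)) ℂ} (hX : Resp β B Q μ X) :
    MvPolynomial.eval (Pool.Agent.Y123.ST.fl (EG C₀ X)) F = 0 := by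
  choose g hg hgX using fun i => quot_iso (hL i).form.unit (hμ i)
    (resp_unit (hL i).form.unit (hμ i) (hZ i).2) (hZ i).1 (hX i).1 (hZ i).2 (hX i).2
  have h1 := hR g (fun i => isoG_le (Z := perMat (h i) (P i)) (G := Gal (h i) (P i))
    (fun _ => Iff.rfl) (hL i) (hg i)) F hFK hFd hF
  rw [EG_mul, Matrix.one_mul] at h1
  have h2 : (fun i => (g i : Matrix (Fin (n i)) (Fin (n i)) ℂ) * pM (h i) (P i) (t i : ℝ)) = X := by
    funext i
    exact hgX i
  rwa [h2] at h1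

/-- Scaling. -/
noncomputable def scl (w : ∀ i, Fin (m i) → ℕ) (β : ∀ i, Fin (n i) → Fin (m i)) (s : ℂ)
    (X : ∀ i, Matrix (Fin (n i)) (Fin (n i)) ℂ) (i : Fin k) : Matrix (Fin (n i)) (Fin (n i)) ℂ :=
  Matrix.diagonal (fun a => s ^ w i (β i a)) * X i

theorem scl_one (w : ∀ i, Fin (m i) → ℕ) (X : ∀ i, Matrix (Fin (n i)) (Fin (n i)) ℂ) :
    scl w β 1 X = X := by
  funext i
  rw [scl]
  have h1 : (fun a => (1 : ℂ) ^ w i (β i a)) = fun _ => 1 := by
    funext a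
    rw [one_pow]
  rw [h1, Matrix.diagonal_one, Matrix.one_mul]

theorem scl_resp (hb : ∀ i, BlockDiagonal (β i) (B i)) {Q : ∀ i, Matrix (Fin (n i)) (Fin (n i)) ℂ}
    {w : ∀ i, Fin (m i) → ℕ} {z : ℂ} {X : ∀ i, Matrix (Fin (n i)) (Fin (n i)) ℂ}
    (hX : Resp β B Q (fun i j => z ^ w i j) X) (s : ℂ) :
    Resp β B Q (fun i j => (s ^ 2 * z) ^ w i j) (scl w β s X) := by
  intro i
  refine ⟨?_, ?_⟩
  · refine bd_mul ?_ (hX i).1
    intro a b hab
    exact Matrix.diagonal_apply_ne _ fun e => hab (congrArg (β i) e)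
  · intro a b
    have h1 : scl w β s X i * Q i * (scl w β s X i)ᵀ =
        Matrix.diagonal (fun a => s ^ w i (β i a)) * (X i * Q i * (X i)ᵀ) *
          Matrix.diagonal (fun a => s ^ w i (β i a)) := by
      rw [scl, transpose_mul, diagonal_transpose]
      simp only [Matrix.mul_assoc]
    have h2 : (X i * Q i * (X i)ᵀ) a b = z ^ w i (β i a) * B i a b := (hX i).2 a b
    rw [h1, Matrix.mul_diagonal, Matrix.diagonal_mul, h2]
    change s ^ w i (β i a) * (z ^ w i (β i a) * B i a b) * s ^ w i (β i b) =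
      (s ^ 2 * z) ^ w i (β i a) * B i a b
    by_cases hab : β i a = β i b
    · rw [← hab, mul_pow, ← pow_mul]
      ring
    · rw [hb i a b hab]
      ring

/-- The entries on the curve. -/
theorem curve_entries (w : ∀ i, Fin (m i) → ℕ) (z : ℂ)
    (X : ∀ i, Matrix (Fin (n i)) (Fin (n i)) ℂ) : ∃ E : IG (Fin r) n × IG (Fin r) n → Polynomial ℂ,
    ∀ s b, (E b).eval s = Pool.Agent.Y123.ST.fl (EG ((s ^ 2 * z) • (1 : Matrix (Fin r) (Fin r) ℂ)) (scl w β s X)) b := by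
  suffices H : ∀ b : IG (Fin r) n × IG (Fin r) n, ∃ E : Polynomial ℂ, ∀ s,
      E.eval s = Pool.Agent.Y123.ST.fl (EG ((s ^ 2 * z) • (1 : Matrix (Fin r) (Fin r) ℂ)) (scl w β s X)) b by
    choose E hE using H
    exact ⟨E, fun s b => hE b s⟩
  rintro ⟨a | ⟨i, a⟩, b | ⟨j, b⟩⟩
  · refine ⟨Polynomial.X ^ 2 * Polynomial.C (z * (1 : Matrix (Fin r) (Fin r) ℂ) a b), fun s => ?_⟩
    change _ = (s ^ 2 * z) * (1 : Matrix (Fin r) (Fin r) ℂ) a b
    rw [Polynomial.eval_mul, Polynomial.eval_pow, Polynomial.eval_X, Polynomial.eval_C]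
    ring
  · refine ⟨0, fun s => ?_⟩
    change _ = (0 : ℂ)
    rw [Polynomial.eval_zero]
  · refine ⟨0, fun s => ?_⟩
    change _ = (0 : ℂ)
    rw [Polynomial.eval_zero]
  · by_cases hij : i = j
    · subst hij
      refine ⟨Polynomial.X ^ w i (β i a) * Polynomial.C (X i a b), fun s => ?_⟩
      change _ = blockDiagonal' (scl w β s X) ⟨i, a⟩ ⟨i, b⟩
      rw [blockDiagonal'_apply_eq, scl, Matrix.diagonal_mul, Polynomial.eval_mul,
        Polynomial.eval_pow, Polynomial.eval_X, Polynomial.eval_C]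
    · refine ⟨0, fun s => ?_⟩
      change _ = blockDiagonal' (scl w β s X) ⟨i, a⟩ ⟨j, b⟩
      rw [blockDiagonal'_apply_ne _ _ _ hij, Polynomial.eval_zero]

/-- The absolute case. -/
theorem absolute_rel (hKalg : ∀ x ∈ K, IsAlgebraic ℚ x)
    (hR : RelOK K d ((tpi : ℂ) • (1 : Matrix (Fin r) (Fin r) ℂ)) h P t)
    (hL : ∀ i, LocalMonodromy (β i) (B i) (Gal (h i) (P i)))
    {F : MvPolynomial (IG (Fin r) n × IG (Fin r) n) ℂ} (hFK : ∀ s, F.coeff s ∈ K)
    (hFd : F.totalDegree ≤ d)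
    (hF : MvPolynomial.eval (Pool.Agent.Y123.ST.fl (EG ((tpi : ℂ) • (1 : Matrix (Fin r) (Fin r) ℂ))
      fun i => perMat (h i) (P i) (t i : ℝ))) F = 0)
    {Q : ∀ i, Matrix (Fin (n i)) (Fin (n i)) ℂ} (hBK : ∀ i a b, B i a b ∈ K)
    (hQK : ∀ i a b, Q i a b ∈ K) {w : ∀ i, Fin (m i) → ℕ}
    (hZ : Resp β B Q (fun i j => tpi ^ w i j) fun i => perMat (h i) (P i) (t i : ℝ))
    {z : ℂ} (hz : z ≠ 0) {X : ∀ i, Matrix (Fin (n i)) (Fin (n i)) ℂ}
    (hX : Resp β B Q (fun i j => z ^ w i j) X) :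
    MvPolynomial.eval (Pool.Agent.Y123.ST.fl (EG (z • (1 : Matrix (Fin r) (Fin r) ℂ)) X)) F = 0 := by
  have hτ : Transcendental K tpi := tpi_tr hKalg
  -- transcendental values
  have htr : ∀ z : ℂ, Transcendental K z → ∀ X : ∀ i, Matrix (Fin (n i)) (Fin (n i)) ℂ,
      Resp β B Q (fun i j => z ^ w i j) X →
      MvPolynomial.eval (Pool.Agent.Y123.ST.fl (EG (z • (1 : Matrix (Fin r) (Fin r) ℂ)) X)) F = 0 := by
    intro z hz X hX
    obtain ⟨σ, h1, h2⟩ := Pool.Agent.H37PG.exists_aut hz hτ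
    have hσK : ∀ x ∈ K, σ x = x := fun x hx => h1 ⟨x, hx⟩
    have h3 : Resp β B Q (fun i j => tpi ^ w i j) (fun i => (X i).map σ) := by
      intro i
      refine ⟨fun a b hab => ?_, fun a b => ?_⟩
      · change σ (X i a b) = 0
        rw [(hX i).1 a b hab, map_zero]
      · have h4 : (X i).map σ * Q i * ((X i).map σ)ᵀ = (X i * Q i * (X i)ᵀ).map σ := by
          have h5 : Q i = (Q i).map σ := by
            ext a b
            rw [Matrix.map_apply, hσK _ (hQK i a b)]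
          rw [Matrix.map_mul, Matrix.map_mul, ← h5, transpose_map]
        have h7 : (X i * Q i * (X i)ᵀ) a b = z ^ w i (β i a) * B i a b := (hX i).2 a b
        change ((X i).map σ * Q i * ((X i).map σ)ᵀ) a b = tpi ^ w i (β i a) * B i a b
        rw [h4, Matrix.map_apply, h7, map_mul, map_pow, h2, hσK _ (hBK i a b)]
    have h4 := relative hR hL hFK hFd hF (fun i j => pow_ne_zero _ tpi_ne) hZ h3
    have h5 : Pool.Agent.Y123.ST.fl (EG ((tpi : ℂ) • (1 : Matrix (Fin r) (Fin r) ℂ)) fun i => (X i).map σ) =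
        fun b => σ (Pool.Agent.Y123.ST.fl (EG (z • (1 : Matrix (Fin r) (Fin r) ℂ)) X) b) := by
      have h6 : (EG (z • (1 : Matrix (Fin r) (Fin r) ℂ)) X).map σ =
          EG ((tpi : ℂ) • (1 : Matrix (Fin r) (Fin r) ℂ)) (fun i => (X i).map σ) := by
        unfold EG
        rw [fromBlocks_map, blockDiagonal'_map _ _ (map_zero σ)]
        congr 1
        · ext a b
          rw [Matrix.map_apply, Matrix.smul_apply, Matrix.smul_apply, smul_eq_mul, smul_eq_mul,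
            map_mul, h2, Matrix.one_apply]
          split_ifs
          · rw [map_one]
          · rw [map_zero]
        · ext a b
          exact map_zero σ
        · ext a b
          exact map_zero σ
      rw [← h6]
      rfl
    rw [h5, eval_aut hFK hσK] at h4
    exact (map_eq_zero σ).1 h4
  obtain ⟨E, hE⟩ := curve_entries (r := r) (β := β) w z X
  set p : Polynomial ℂ := MvPolynomial.aeval E F with hp
  have hpe : ∀ s, p.eval s = MvPolynomial.eval
      (Pool.Agent.Y123.ST.fl (EG ((s ^ 2 * z) • (1 : Matrix (Fin r) (Fin r) ℂ)) (scl w β s X))) F := by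
    intro s
    rw [hp, eval_curve]
    congr 2
    funext b
    exact hE s b
  have hp0 : p = 0 := by
    choose s hs using fun l : ℕ => IsAlgClosed.exists_pow_nat_eq (tpi ^ (l + 1) / z) (n := 2) two_pos
    have hs' : ∀ l, s l ^ 2 * z = tpi ^ (l + 1) := by
      intro l
      rw [hs, div_mul_cancel₀ _ hz]
    refine Polynomial.eq_zero_of_infinite_isRoot p ?_
    have hinj : Function.Injective s := by
      intro l l' hl
      have h1 : tpi ^ (l + 1) = tpi ^ (l' + 1) := by rw [← hs', ← hs', hl]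
      by_contra hne
      wlog hlt : l < l' generalizing l l'
      · exact this hl.symm h1.symm (Ne.symm hne) (by omega)
      apply hτ
      obtain ⟨q, rfl⟩ : ∃ q, l' = l + (q + 1) := ⟨l' - l - 1, by omega⟩
      have h2 : tpi ^ (q + 1) = 1 := by
        have h3 : tpi ^ (l + 1) * tpi ^ (q + 1) = tpi ^ (l + 1) * 1 := by
          rw [mul_one]
          nth_rewrite 2 [h1]
          rw [← pow_add]
          congr 1
          omega
        exact mul_left_cancel₀ (pow_ne_zero _ tpi_ne) h3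
      refine IsAlgebraic.of_pow (Nat.succ_pos q) ?_
      rw [h2]
      exact isAlgebraic_one
    refine (Set.infinite_range_of_injective hinj).mono ?_
    rintro _ ⟨l, rfl⟩
    change p.eval (s l) = 0
    rw [hpe]
    refine htr _ ?_ _ (scl_resp (fun i => (hL i).form.block) hX (s l))
    rw [hs']
    exact hτ.pow (Nat.succ_pos l)
  have h1 := hpe 1
  rw [hp0, Polynomial.eval_zero, one_pow, one_mul, scl_one] at h1
  exact h1.symm

end final

end Pool.Agent.V11219.Per
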