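import Mathlib
import Pool.Agent.V11219.OmPerf
import Pool.Agent.V11219.PerRel
import Pool.Agent.V11273.GH.A2

/-!
# Independence of the abelian logarithms
-/

set_option linter.unusedSectionVars false
set_option linter.unusedVariables false

open Matrix Module PowerSeries Filter

namespace Pool.Agent.V11219.Om

open Pool.Agent.V11219.Per Pool.Agent.Y123.GN

section idc

variable {p q m : ℕ} {β : Fin p → Fin m} {γ : Fin q → Fin m} {B : Matrix (Fin p) (Fin p) ℂ}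
  {Z : ℝ → Matrix (Fin (p + q)) (Fin (p + q)) ℂ}
  {G : Subgroup (Matrix.GeneralLinearGroup (Fin (p + q)) ℂ)}

/-- The extended group is contained in all subgroups of finite index. -/
theorem extG_fin (hG : ∀ g, g ∈ G ↔ Pres Z (g : Matrix (Fin (p + q)) (Fin (p + q)) ℂ) ∧
      Pres Z ((g⁻¹ : Matrix.GeneralLinearGroup (Fin (p + q)) ℂ) :
        Matrix (Fin (p + q)) (Fin (p + q)) ℂ))
    (hL : PathMonodromy β γ B G) {y : Matrix.GeneralLinearGroup (Fin (p + q)) ℂ}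
    (hy : y ∈ ExtG β γ B) (H : Subgroup G) (hH : H.FiniteIndex) :
    (⟨y, extG_le hG hL hy⟩ : G) ∈ H := by
  have hu := hL.cycles.form.unit
  have hs := hL.cycles.form.skew
  have hb := hL.cycles.form.block
  have hn : H.normalCore.index ≠ 0 := (Subgroup.finiteIndex_normalCore (H := H)).index_ne_zero
  have key0 : ∀ N ∈ SE β γ B, ∀ u : Matrix.GeneralLinearGroup (Fin (p + q)) ℂ,
      (u : Matrix (Fin (p + q)) (Fin (p + q)) ℂ) = 1 + N → ∀ hu' : u ∈ G, (⟨u, hu'⟩ : G) ∈ H := by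
    intro N hN u hu1 hu'
    have hN' : ((H.normalCore.index : ℕ) : ℂ)⁻¹ • N ∈ SE β γ B := by
      rcases hN with ⟨j, v, t, hv, rfl⟩ | ⟨a, v, t, hv, rfl⟩
      · exact Or.inl ⟨j, v, _ * t, hv, by rw [ext0_smul, smul_smul, smul_zero]⟩
      · exact Or.inr ⟨a, v, _ * t, hv, by rw [ext0_smul, smul_smul, smul_zero]⟩
    obtain ⟨w, hw, hw'⟩ := SE_exp hu hs hb hN'
    have h2 := SE_sq hu hs hb hN'
    rw [exp_sq hu hs hb h2] at hw'
    have h1 := Subgroup.pow_index_mem H.normalCore (⟨w, extG_le hG hL hw⟩ : G)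
    have h3 : (⟨w, extG_le hG hL hw⟩ : G) ^ H.normalCore.index = ⟨u, hu'⟩ := by
      apply Subtype.ext
      rw [Subgroup.coe_pow]
      apply Units.ext
      rw [Units.val_pow_eq_pow_val]
      change (w : Matrix (Fin (p + q)) (Fin (p + q)) ℂ) ^ H.normalCore.index = u
      have h4 := unip_pow (g := 1 + ((H.normalCore.index : ℕ) : ℂ)⁻¹ • N)
        (by rw [add_sub_cancel_left, h2]) H.normalCore.index
      rw [hw', h4, add_sub_cancel_left, smul_smul, mul_inv_cancel₀ (by exact_mod_cast hn), one_smul,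
        hu1]
    rw [h3] at h1
    exact H.normalCore_le h1
  have key : ∀ x ∈ Submonoid.closure
      {x : Matrix (Fin (p + q)) (Fin (p + q)) ℂ | ∃ N ∈ SE β γ B, x = IsNilpotent.exp N},
      ∃ u : Matrix.GeneralLinearGroup (Fin (p + q)) ℂ,
        (u : Matrix (Fin (p + q)) (Fin (p + q)) ℂ) = x ∧ ∃ hu' : u ∈ G, (⟨u, hu'⟩ : G) ∈ H := by
    intro x hx
    induction hx using Submonoid.closure_induction with
    | mem x h =>
      obtain ⟨N, hN, rfl⟩ := h
      obtain ⟨w, hw, hw'⟩ := SE_exp hu hs hb hN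
      refine ⟨w, hw', extG_le hG hL hw, key0 N hN w ?_ _⟩
      rw [hw', exp_sq hu hs hb (SE_sq hu hs hb hN)]
    | one => exact ⟨1, Units.val_one, G.one_mem, H.one_mem⟩
    | mul x y _ _ hx hy =>
      obtain ⟨u, rfl, hu1, hu2⟩ := hx
      obtain ⟨v, rfl, hv1, hv2⟩ := hy
      exact ⟨u * v, Units.val_mul _ _, G.mul_mem hu1 hv1, H.mul_mem hu2 hv2⟩
  obtain ⟨g, hg, w, hw, he⟩ := id hy
  obtain ⟨u, hu1, hu2, hu3⟩ := key _ (mem_clo hu hs hb hg hw)
  have h2 : u = y := Units.ext (hu1.trans he.symm)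
  subst h2
  exact hu3

end idc

variable {k r : ℕ} {p q m ρ : Fin k → ℕ}

/-- The relations of degree at most `d` over `K` are preserved by the extended groups. -/
def RelE (K : Subfield ℂ) (d : ℕ) (C₀ : Matrix (Fin r) (Fin r) ℂ)
    (β : ∀ i, Fin (p i) → Fin (m i)) (γ : ∀ i, Fin (q i) → Fin (m i))
    (B : ∀ i, Matrix (Fin (p i)) (Fin (p i)) ℂ)
    (Z : ∀ i, Matrix (Fin (p i + q i)) (Fin (p i + q i)) ℂ) : Prop :=
  ∀ g : ∀ i, (Matrix (Fin (p i + q i)) (Fin (p i + q i)) ℂ)ˣ,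
    (∀ i, g i ∈ ExtG (β i) (γ i) (B i)) →
    Rl K d (EG C₀ Z) (EG 1 (fun i => (g i : Matrix (Fin (p i + q i)) (Fin (p i + q i)) ℂ)) * EG C₀ Z)

theorem relE_of {D : ℕ} {C₀ : Matrix (Fin r) (Fin r) ℂ} {h : ∀ i, Fin (ρ i) → ℚ⟦X⟧}
    {P : ∀ i, Fin (p i + q i) → Fin (p i + q i) → MvPolynomial (Option (Fin (ρ i))) ℂ}
    {t : Fin k → ℕ} (hg : Pool.Agent.V11273.GH.GoodI D C₀ h P t) {K : Subfield ℂ}
    (hKf : FiniteDimensional ℚ K) (hKD : finrank ℚ K ≤ D) {β : ∀ i, Fin (p i) → Fin (m i)}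
    {γ : ∀ i, Fin (q i) → Fin (m i)} {B : ∀ i, Matrix (Fin (p i)) (Fin (p i)) ℂ}
    (hL : ∀ i, PathMonodromy (β i) (γ i) (B i) (Gal (h i) (P i))) :
    RelE K D C₀ β γ B fun i => perMat (h i) (P i) (t i : ℝ) := by
  intro g hgE
  exact hg K hKf hKD g fun i => ⟨extG_le (Z := perMat (h i) (P i)) (G := Gal (h i) (P i))
    (fun _ => Iff.rfl) (hL i) (hgE i), fun H hH _ =>
      extG_fin (Z := perMat (h i) (P i)) (G := Gal (h i) (P i)) (fun _ => Iff.rfl) (hL i) (hgE i) H hH⟩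

/-- The values of the polynomials over `K` of degree at most `d` at the entries of the matrix `C₀`
(arbitrary constants) and of the matrices `X_i` (the periods of the abelian varieties). -/
def Coefficients (K : Subfield ℂ) (d : ℕ) (C₀ : Matrix (Fin r) (Fin r) ℂ)
    (X : ∀ i, Matrix (Fin (p i)) (Fin (p i)) ℂ) : Set ℂ :=
  {x | ∃ R : MvPolynomial ((Fin r × Fin r) ⊕ Σ i, Fin (p i) × Fin (p i)) ℂ, R.totalDegree ≤ d ∧
    (∀ s, R.coeff s ∈ K) ∧
    MvPolynomial.eval (Sum.elim (fun b => C₀ b.1 b.2) fun b => X b.1 b.2.1 b.2.2) R = x}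

/-- The pairs of a path and a cycle of the same piece. -/
abbrev LogIdx (β : ∀ i, Fin (p i) → Fin (m i)) (γ : ∀ i, Fin (q i) → Fin (m i)) : Type :=
  {x : Σ i, Fin (q i) × Fin (p i) // γ x.1 x.2.1 = β x.1 x.2.2}

/-- The indices of the coefficients. -/
def i1 : (Fin r × Fin r) ⊕ (Σ i, Fin (p i) × Fin (p i)) →
    IG (Fin r) (fun i => p i + q i) × IG (Fin r) (fun i => p i + q i)
  | Sum.inl b => (Sum.inl b.1, Sum.inl b.2)
  | Sum.inr b => (Sum.inr ⟨b.1, Fin.castAdd _ b.2.1⟩, Sum.inr ⟨b.1, Fin.castAdd _ b.2.2⟩)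

/-- The indices of the logarithms. -/
def i2 (β : ∀ i, Fin (p i) → Fin (m i)) (γ : ∀ i, Fin (q i) → Fin (m i)) (x : LogIdx β γ) :
    IG (Fin r) (fun i => p i + q i) × IG (Fin r) (fun i => p i + q i) :=
  (Sum.inr ⟨x.1.1, Fin.natAdd _ x.1.2.1⟩, Sum.inr ⟨x.1.1, Fin.castAdd _ x.1.2.2⟩)

theorem ext_cc {p q : ℕ} (X : Matrix (Fin p) (Fin p) ℂ) (w : Matrix (Fin q) (Fin p) ℂ)
    (a b : Fin p) : ext X w (Fin.castAdd q a) (Fin.castAdd q b) = X a b := by
  rw [ext, reindex_apply, submatrix_apply, finSumFinEquiv_symm_apply_castAdd,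
    finSumFinEquiv_symm_apply_castAdd, fromBlocks_apply₁₁]

theorem ext_nc {p q : ℕ} (X : Matrix (Fin p) (Fin p) ℂ) (w : Matrix (Fin q) (Fin p) ℂ)
    (a : Fin q) (b : Fin p) : ext X w (Fin.natAdd p a) (Fin.castAdd q b) = w a b := by
  rw [ext, reindex_apply, submatrix_apply, finSumFinEquiv_symm_apply_castAdd,
    finSumFinEquiv_symm_apply_natAdd, fromBlocks_apply₂₁]

theorem val1 (C₀ : Matrix (Fin r) (Fin r) ℂ) (X : ∀ i, Matrix (Fin (p i)) (Fin (p i)) ℂ)
    (v : ∀ i, Matrix (Fin (q i)) (Fin (p i)) ℂ) :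
    (Pool.Agent.Y123.ST.fl (EG C₀ fun i => ext (X i) (v i))) ∘ i1 =
      Sum.elim (fun b => C₀ b.1 b.2) fun b => X b.1 b.2.1 b.2.2 := by
  funext b
  rcases b with b | ⟨i, a, b⟩
  · rfl
  · change blockDiagonal' (fun i => ext (X i) (v i)) ⟨i, Fin.castAdd _ a⟩ ⟨i, Fin.castAdd _ b⟩ = _
    rw [blockDiagonal'_apply_eq, ext_cc]
    rfl

theorem val2 (β : ∀ i, Fin (p i) → Fin (m i)) (γ : ∀ i, Fin (q i) → Fin (m i))
    (C₀ : Matrix (Fin r) (Fin r) ℂ) (X : ∀ i, Matrix (Fin (p i)) (Fin (p i)) ℂ)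
    (v : ∀ i, Matrix (Fin (q i)) (Fin (p i)) ℂ) :
    (Pool.Agent.Y123.ST.fl (EG C₀ fun i => ext (X i) (v i))) ∘ i2 β γ =
      fun x : LogIdx β γ => v x.1.1 x.1.2.1 x.1.2.2 := by
  funext x
  obtain ⟨⟨i, a, b⟩, hx⟩ := x
  change blockDiagonal' (fun i => ext (X i) (v i)) ⟨i, Fin.natAdd _ a⟩ ⟨i, Fin.castAdd _ b⟩ = _
  rw [blockDiagonal'_apply_eq, ext_nc]

variable {K : Subfield ℂ} {d : ℕ} {C₀ : Matrix (Fin r) (Fin r) ℂ}
  {β : ∀ i, Fin (p i) → Fin (m i)} {γ : ∀ i, Fin (q i) → Fin (m i)}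
  {B : ∀ i, Matrix (Fin (p i)) (Fin (p i)) ℂ}
  {Z : ∀ i, Matrix (Fin (p i + q i)) (Fin (p i + q i)) ℂ}

/-- **The logarithms are independent.** -/
theorem logs_indep (hR : RelE K (d + d) C₀ β γ B Z) (hB : ∀ i, IsUnit (B i))
    {X : ∀ i, Matrix (Fin (p i)) (Fin (p i)) ℂ} {v : ∀ i, Matrix (Fin (q i)) (Fin (p i)) ℂ}
    (hZ : ∀ i, Z i = ext (X i) (v i)) (hXu : ∀ i, IsUnit (X i))
    (hXb : ∀ i, BlockDiagonal (β i) (X i)) (hv : ∀ i, Compatible (β i) (γ i) (v i))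
    {F : MvPolynomial (LogIdx β γ) ℂ} (hFd : F.totalDegree ≤ d)
    (hFc : ∀ s, F.coeff s ∈ Coefficients K d C₀ X)
    (hF : MvPolynomial.eval (fun x : LogIdx β γ => v x.1.1 x.1.2.1 x.1.2.2) F = 0) : F = 0 := by
  classical
  choose R hRd hRK hRv using hFc
  -- the polynomial over `K`
  have hR' : ∀ s, ∃ R' : MvPolynomial ((Fin r × Fin r) ⊕ Σ i, Fin (p i) × Fin (p i)) K,
      MvPolynomial.map K.subtype R' = R s := by
    intro s
    have h1 : R s ∈ Set.range (MvPolynomial.map K.subtype) := by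
      rw [MvPolynomial.mem_range_map_iff_coeffs_subset]
      intro x hx
      obtain ⟨u, -, hu⟩ := MvPolynomial.mem_coeffs_iff.1 hx
      exact ⟨⟨x, by rw [hu]; exact hRK s u⟩, rfl⟩
    exact h1
  choose R' hR' using hR'
  set G' : MvPolynomial (IG (Fin r) (fun i => p i + q i) × IG (Fin r) (fun i => p i + q i)) K :=
    ∑ s ∈ F.support, MvPolynomial.rename i1 (R' s) *
      MvPolynomial.rename (i2 β γ) (MvPolynomial.monomial s 1) with hG'
  set G := MvPolynomial.map K.subtype G' with hG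
  have hGe : G = ∑ s ∈ F.support, MvPolynomial.rename i1 (R s) *
      MvPolynomial.rename (i2 β γ) (MvPolynomial.monomial s 1) := by
    rw [hG, hG', map_sum]
    refine Finset.sum_congr rfl fun s _ => ?_
    rw [map_mul, MvPolynomial.map_rename, MvPolynomial.map_rename, hR', MvPolynomial.map_monomial,
      map_one]
  have hGK : ∀ s, G.coeff s ∈ K := by
    intro s
    rw [hG, MvPolynomial.coeff_map]
    exact (MvPolynomial.coeff s G').2
  have hGd : G.totalDegree ≤ d + d := by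
    rw [hGe]
    refine MvPolynomial.totalDegree_finsetSum_le fun s hs => ?_
    refine (MvPolynomial.totalDegree_mul _ _).trans (add_le_add ?_ ?_)
    · exact (MvPolynomial.totalDegree_rename_le _ _).trans (hRd s)
    · refine (MvPolynomial.totalDegree_rename_le _ _).trans ?_
      refine (MvPolynomial.totalDegree_monomial_le _ _).trans ?_
      exact (MvPolynomial.le_totalDegree hs).trans hFd
  have hGv : ∀ v' : ∀ i, Matrix (Fin (q i)) (Fin (p i)) ℂ,
      MvPolynomial.eval (Pool.Agent.Y123.ST.fl (EG C₀ fun i => ext (X i) (v' i))) G =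
        MvPolynomial.eval (fun x : LogIdx β γ => v' x.1.1 x.1.2.1 x.1.2.2) F := by
    intro v'
    rw [hGe, map_sum, MvPolynomial.eval_eq']
    simp only [map_mul, MvPolynomial.eval_rename]
    rw [val1, val2]
    refine Finset.sum_congr rfl fun s _ => ?_
    rw [hRv, MvPolynomial.eval_monomial, one_mul, Finsupp.prod_fintype _ _ fun i => pow_zero _]
  refine MvPolynomial.funext fun v₁ => ?_
  rw [map_zero]
  -- the matrices
  set w : ∀ i, Matrix (Fin (q i)) (Fin (p i)) ℂ := fun i => Matrix.of fun a b =>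
    if hab : γ i a = β i b then v₁ ⟨⟨i, a, b⟩, hab⟩ else 0 with hw
  have hwc : ∀ i, Compatible (β i) (γ i) (w i) := by
    intro i a b hab
    rw [hw]
    exact dif_neg hab
  have hwv : (fun x : LogIdx β γ => w x.1.1 x.1.2.1 x.1.2.2) = v₁ := by
    funext x
    obtain ⟨⟨i, a, b⟩, hx⟩ := x
    rw [hw]
    exact dif_pos hx
  rw [← hwv, ← hGv w]
  have hg : ∀ i, ∃ g ∈ ExtG (β i) (γ i) (B i),
      (g : Matrix (Fin (p i + q i)) (Fin (p i + q i)) ℂ) * ext (X i) (v i) =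
        ext (X i) (w i) := by
    intro i
    have hXd : IsUnit (X i).det := (Matrix.isUnit_iff_isUnit_det _).1 (hXu i)
    have hc : Compatible (β i) (γ i) ((w i - v i) * (X i)⁻¹) :=
      comp_mul (comp_sub (hwc i) (hv i)) (bd_inv (hXb i) (hXu i))
    obtain ⟨U, hU, hU'⟩ := extG_of (β := β i) (γ := γ i) (hB i)
      ⟨1, _, rfl, ⟨bd_one, by rw [Matrix.one_mul, transpose_one, Matrix.mul_one]⟩, hc⟩
    refine ⟨U, hU, ?_⟩
    rw [hU', ext_mul, Matrix.one_mul, Matrix.mul_assoc, Matrix.nonsing_inv_mul _ hXd,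
      Matrix.mul_one, sub_add_cancel]
  choose g hgG hgX using hg
  have h1 := hR g hgG G hGK hGd
  have h2 : Z = fun i => ext (X i) (v i) := by
    funext i
    exact hZ i
  rw [h2] at h1
  have h3 := h1 (by rw [hGv v]; exact hF)
  rw [EG_mul, Matrix.one_mul] at h3
  have h4 : (fun i => (g i : Matrix (Fin (p i + q i)) (Fin (p i + q i)) ℂ) * ext (X i) (v i)) =
      fun i => ext (X i) (w i) := by
    funext i
    exact hgX i
  rwa [h4] at h3

end Pool.Agent.V11219.Om
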