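import Mathlib
import Pool.Agent.V11219.OmInd

/-!
# Relations of bounded degree between the periods of 1-motives
-/

set_option linter.unusedSectionVars false
set_option linter.unusedVariables false

open Matrix Module PowerSeries Filter

namespace Pool.Agent.V11219.Om

open Pool.Agent.V11219.Per Pool.Agent.Y123.GN

/-- The isomorphism `((X, 0), (w, 1))` of the de Rham and Betti realisations respects the pieces and
their polarisations `Q` (de Rham) and `B` (Betti) up to the factors `μ_j`. -/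
def RespectsOne {p q m : ℕ} (β : Fin p → Fin m) (γ : Fin q → Fin m)
    (B Q : Matrix (Fin p) (Fin p) ℂ) (μ : Fin m → ℂ) (Y : Matrix (Fin (p + q)) (Fin (p + q)) ℂ) :
    Prop :=
  ∃ (X : Matrix (Fin p) (Fin p) ℂ) (w : Matrix (Fin q) (Fin p) ℂ), Y = ext X w ∧
    Compatible β γ w ∧ BlockDiagonal β X ∧ ∀ a b, (X * Q * Xᵀ) a b = μ (β a) * B a b

/-- All the isomorphisms `Y_i` respect the pieces and their polarisations. -/
def RespectsAll {k : ℕ} {p q m : Fin k → ℕ} (β : ∀ i, Fin (p i) → Fin (m i))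
    (γ : ∀ i, Fin (q i) → Fin (m i)) (B Q : ∀ i, Matrix (Fin (p i)) (Fin (p i)) ℂ)
    (μ : ∀ i, Fin (m i) → ℂ) (Y : ∀ i, Matrix (Fin (p i + q i)) (Fin (p i + q i)) ℂ) : Prop :=
  ∀ i, RespectsOne (β i) (γ i) (B i) (Q i) (μ i) (Y i)

/-- The isomorphisms are invertible. -/
theorem respects_unit {n m : ℕ} {β : Fin n → Fin m} {B Q X : Matrix (Fin n) (Fin n) ℂ}
    {μ : Fin m → ℂ} (hu : IsUnit B) (hμ : ∀ j, μ j ≠ 0)
    (hX : ∀ a b, (X * Q * Xᵀ) a b = μ (β a) * B a b) : IsUnit X := resp_unit hu hμ hX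

section one

variable {p q m : ℕ}

/-- The pieces of the rows. -/
def be (β : Fin p → Fin m) : Fin (p + q) → Fin (m + 1) :=
  Fin.addCases (fun a => (β a).castSucc) fun _ => Fin.last m

/-- The weights. -/
def we (w : Fin m → ℕ) : Fin (m + 1) → ℕ := Fin.lastCases 0 w

theorem diag_ext (d : Fin p → ℂ) : ext (Matrix.diagonal d) (0 : Matrix (Fin q) (Fin p) ℂ) =
    Matrix.diagonal (Fin.addCases d fun _ => 1) := by
  have h1 : (1 : Matrix (Fin q) (Fin q) ℂ) = Matrix.diagonal fun _ => 1 := Matrix.diagonal_one.symm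
  rw [ext, h1, Matrix.fromBlocks_diagonal, Matrix.reindex_apply, Matrix.submatrix_diagonal_equiv]
  congr 1
  funext a
  refine Fin.addCases (fun a => ?_) (fun a => ?_) a
  · rw [Function.comp_apply, finSumFinEquiv_symm_apply_castAdd, Fin.addCases_left, Sum.elim_inl]
  · rw [Function.comp_apply, finSumFinEquiv_symm_apply_natAdd, Fin.addCases_right, Sum.elim_inr]

theorem scale_ext (β : Fin p → Fin m) (w : Fin m → ℕ) (s : ℂ) (X : Matrix (Fin p) (Fin p) ℂ)
    (x : Matrix (Fin q) (Fin p) ℂ) :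
    Matrix.diagonal (fun a => s ^ we w (be β a)) * ext X x =
      ext (Matrix.diagonal (fun a => s ^ w (β a)) * X) x := by
  have h1 : (fun a => s ^ we w (be (q := q) β a)) =
      Fin.addCases (fun a => s ^ w (β a)) fun _ => 1 := by
    funext a
    refine Fin.addCases (fun a => ?_) (fun a => ?_) a
    · rw [be, Fin.addCases_left, Fin.addCases_left, we, Fin.lastCases_castSucc]
    · rw [be, Fin.addCases_right, Fin.addCases_right, we, Fin.lastCases_last, pow_zero]
  rw [h1, ← diag_ext, ext_mul, Matrix.zero_mul, zero_add]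

theorem ext_map (X : Matrix (Fin p) (Fin p) ℂ) (x : Matrix (Fin q) (Fin p) ℂ) (σ : ℂ →+* ℂ) :
    (ext X x).map σ = ext (X.map σ) (x.map σ) := by
  have h1 : (Matrix.fromBlocks X (0 : Matrix (Fin p) (Fin q) ℂ) x
      (1 : Matrix (Fin q) (Fin q) ℂ)).map σ = Matrix.fromBlocks (X.map σ) 0 (x.map σ) 1 := by
    rw [fromBlocks_map]
    congr 1
    · ext a b
      exact map_zero σ
    · ext a b
      rw [map_apply, one_apply]
      split_ifs
      · exact map_one σ
      · exact map_zero σ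
  rw [ext, ext, ← h1]
  rfl

end one

variable {k r : ℕ} {p q m ρ : Fin k → ℕ} {K : Subfield ℂ} {d : ℕ}
  {C₀ : Matrix (Fin r) (Fin r) ℂ}
  {β : ∀ i, Fin (p i) → Fin (m i)} {γ : ∀ i, Fin (q i) → Fin (m i)}
  {B : ∀ i, Matrix (Fin (p i)) (Fin (p i)) ℂ}
  {Z : ∀ i, Matrix (Fin (p i + q i)) (Fin (p i + q i)) ℂ}

/-- The relative case. -/
theorem relativeE (hR : RelE K d C₀ β γ B Z) (hB : ∀ i, IsUnit (B i))
    {F : MvPolynomial (IG (Fin r) (fun i => p i + q i) × IG (Fin r) (fun i => p i + q i)) ℂ}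
    (hFK : ∀ s, F.coeff s ∈ K) (hFd : F.totalDegree ≤ d)
    (hF : MvPolynomial.eval (Pool.Agent.Y123.ST.fl (EG C₀ Z)) F = 0)
    {Q : ∀ i, Matrix (Fin (p i)) (Fin (p i)) ℂ} {μ : ∀ i, Fin (m i) → ℂ} (hμ : ∀ i j, μ i j ≠ 0)
    (hZ : RespectsAll β γ B Q μ Z) {Y : ∀ i, Matrix (Fin (p i + q i)) (Fin (p i + q i)) ℂ}
    (hY : RespectsAll β γ B Q μ Y) :
    MvPolynomial.eval (Pool.Agent.Y123.ST.fl (EG C₀ Y)) F = 0 := by
  have hq : ∀ i, ∃ g ∈ ExtG (β i) (γ i) (B i),
      (g : Matrix (Fin (p i + q i)) (Fin (p i + q i)) ℂ) * Z i = Y i := by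
    intro i
    obtain ⟨X₀, w, hXe, hw, hXb, hXQ⟩ := hZ i
    obtain ⟨Y₀, w', hYe, hw', hYb, hYQ⟩ := hY i
    obtain ⟨g, hg, hgX⟩ := quot_ext (hB i) (hμ i) (respects_unit (hB i) (hμ i) hXQ) hXb hYb hXQ
      hYQ hw hw'
    exact ⟨g, hg, by rw [hXe, hYe, hgX]⟩
  choose g hg hgX using hq
  have h1 := hR g hg F hFK hFd hF
  rw [EG_mul, Matrix.one_mul] at h1
  have h2 : (fun i => (g i : Matrix (Fin (p i + q i)) (Fin (p i + q i)) ℂ) * Z i) = Y := by
    funext i
    exact hgX i
  rwa [h2] at h1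

/-- The absolute case. -/
theorem absoluteE (hKalg : ∀ x ∈ K, IsAlgebraic ℚ x)
    (hR : RelE K d ((tpi : ℂ) • (1 : Matrix (Fin r) (Fin r) ℂ)) β γ B Z)
    (hB : ∀ i, IsUnit (B i)) (hBb : ∀ i, BlockDiagonal (β i) (B i))
    {F : MvPolynomial (IG (Fin r) (fun i => p i + q i) × IG (Fin r) (fun i => p i + q i)) ℂ}
    (hFK : ∀ s, F.coeff s ∈ K) (hFd : F.totalDegree ≤ d)
    (hF : MvPolynomial.eval (Pool.Agent.Y123.ST.fl
      (EG ((tpi : ℂ) • (1 : Matrix (Fin r) (Fin r) ℂ)) Z)) F = 0)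
    {Q : ∀ i, Matrix (Fin (p i)) (Fin (p i)) ℂ} (hBK : ∀ i a b, B i a b ∈ K)
    (hQK : ∀ i a b, Q i a b ∈ K) {w : ∀ i, Fin (m i) → ℕ}
    (hZ : RespectsAll β γ B Q (fun i j => tpi ^ w i j) Z)
    {z : ℂ} (hz : z ≠ 0) {Y : ∀ i, Matrix (Fin (p i + q i)) (Fin (p i + q i)) ℂ}
    (hY : RespectsAll β γ B Q (fun i j => z ^ w i j) Y) :
    MvPolynomial.eval (Pool.Agent.Y123.ST.fl (EG (z • (1 : Matrix (Fin r) (Fin r) ℂ)) Y)) F = 0 := by
  have hτ : Transcendental K tpi := tpi_tr hKalg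
  -- transcendental values
  have htr : ∀ z : ℂ, Transcendental K z →
      ∀ Y : ∀ i, Matrix (Fin (p i + q i)) (Fin (p i + q i)) ℂ,
      RespectsAll β γ B Q (fun i j => z ^ w i j) Y → MvPolynomial.eval (Pool.Agent.Y123.ST.fl
        (EG (z • (1 : Matrix (Fin r) (Fin r) ℂ)) Y)) F = 0 := by
    intro z hz Y hY
    obtain ⟨σ, h1, h2⟩ := Pool.Agent.H37PG.exists_aut hz hτ
    have hσK : ∀ x ∈ K, σ x = x := fun x hx => h1 ⟨x, hx⟩
    have h3 : RespectsAll β γ B Q (fun i j => tpi ^ w i j) (fun i => (Y i).map σ) := by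
      intro i
      obtain ⟨X, x, hXe, hx, hXb, hXQ⟩ := hY i
      refine ⟨X.map σ, x.map σ, ?_, fun a b hab => ?_, fun a b hab => ?_, fun a b => ?_⟩
      · change (Y i).map σ = _
        rw [hXe]
        exact ext_map X x (σ : ℂ →+* ℂ)
      · change σ (x a b) = 0
        rw [hx a b hab, map_zero]
      · change σ (X a b) = 0
        rw [hXb a b hab, map_zero]
      · have h4 : X.map σ * Q i * (X.map σ)ᵀ = (X * Q i * Xᵀ).map σ := by
          have h5 : Q i = (Q i).map σ := by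
            ext a b
            rw [Matrix.map_apply, hσK _ (hQK i a b)]
          rw [Matrix.map_mul, Matrix.map_mul, ← h5, transpose_map]
        have h7 : (X * Q i * Xᵀ) a b = z ^ w i (β i a) * B i a b := hXQ a b
        change (X.map σ * Q i * (X.map σ)ᵀ) a b = tpi ^ w i (β i a) * B i a b
        rw [h4, Matrix.map_apply, h7, map_mul, map_pow, h2, hσK _ (hBK i a b)]
    have h4 := relativeE hR hB hFK hFd hF (fun i j => pow_ne_zero _ tpi_ne) hZ h3
    have h5 : Pool.Agent.Y123.ST.fl (EG ((tpi : ℂ) • (1 : Matrix (Fin r) (Fin r) ℂ))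
        fun i => (Y i).map σ) = fun b => σ (Pool.Agent.Y123.ST.fl
          (EG (z • (1 : Matrix (Fin r) (Fin r) ℂ)) Y) b) := by
      have h6 : (EG (z • (1 : Matrix (Fin r) (Fin r) ℂ)) Y).map σ =
          EG ((tpi : ℂ) • (1 : Matrix (Fin r) (Fin r) ℂ)) (fun i => (Y i).map σ) := by
        unfold EG
        rw [fromBlocks_map, blockDiagonal'_map _ _ (map_zero σ)]
        congr 1
        · ext a b
          rw [Matrix.map_apply, Matrix.smul_apply, Matrix.smul_apply, smul_eq_mul, smul_eq_mul,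
            map_mul, h2, Matrix.one_apply]
          split_ifs
          · rw [map_one]
          · rw [map_zero]
        · ext a b
          exact map_zero σ
        · ext a b
          exact map_zero σ
      rw [← h6]
      rfl
    rw [h5, eval_aut hFK hσK] at h4
    exact (map_eq_zero σ).1 h4
  obtain ⟨E, hE⟩ := curve_entries (r := r) (β := fun i => be (q := q i) (β i))
    (fun i => we (w i)) z Y
  -- the scaled matrices
  have hscl : ∀ s : ℂ, RespectsAll β γ B Q (fun i j => (s ^ 2 * z) ^ w i j)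
      (scl (fun i => we (w i)) (fun i => be (q := q i) (β i)) s Y) := by
    intro s i
    obtain ⟨X, x, hXe, hx, hXb, hXQ⟩ := hY i
    have h0 := scl_resp (k := 1) (n := fun _ => p i) (m := fun _ => m i) (β := fun _ => β i)
      (B := fun _ => B i) (Q := fun _ => Q i) (w := fun _ => w i) (z := z) (X := fun _ => X)
      (fun _ => hBb i) (fun _ => ⟨hXb, hXQ⟩) s 0
    refine ⟨_, x, ?_, hx, h0.1, h0.2⟩
    rw [scl, hXe, scale_ext]
    rfl
  set P : Polynomial ℂ := MvPolynomial.aeval E F with hP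
  have hpe : ∀ s, P.eval s = MvPolynomial.eval
      (Pool.Agent.Y123.ST.fl (EG ((s ^ 2 * z) • (1 : Matrix (Fin r) (Fin r) ℂ))
        (scl (fun i => we (w i)) (fun i => be (q := q i) (β i)) s Y))) F := by
    intro s
    rw [hP, eval_curve]
    congr 2
    funext b
    exact hE s b
  have hp0 : P = 0 := by
    choose s hs using fun l : ℕ => IsAlgClosed.exists_pow_nat_eq (tpi ^ (l + 1) / z) (n := 2) two_pos
    have hs' : ∀ l, s l ^ 2 * z = tpi ^ (l + 1) := by
      intro l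
      rw [hs, div_mul_cancel₀ _ hz]
    refine Polynomial.eq_zero_of_infinite_isRoot P ?_
    have hinj : Function.Injective s := by
      intro l l' hl
      have h1 : tpi ^ (l + 1) = tpi ^ (l' + 1) := by rw [← hs', ← hs', hl]
      by_contra hne
      wlog hlt : l < l' generalizing l l'
      · exact this hl.symm h1.symm (Ne.symm hne) (by omega)
      apply hτ
      obtain ⟨q, rfl⟩ : ∃ q, l' = l + (q + 1) := ⟨l' - l - 1, by omega⟩
      have h2 : tpi ^ (q + 1) = 1 := by
        have h3 : tpi ^ (l + 1) * tpi ^ (q + 1) = tpi ^ (l + 1) * 1 := by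
          rw [mul_one]
          nth_rewrite 2 [h1]
          rw [← pow_add]
          congr 1
          omega
        exact mul_left_cancel₀ (pow_ne_zero _ tpi_ne) h3
      refine IsAlgebraic.of_pow (Nat.succ_pos q) ?_
      rw [h2]
      exact isAlgebraic_one
    refine (Set.infinite_range_of_injective hinj).mono ?_
    rintro _ ⟨l, rfl⟩
    change P.eval (s l) = 0
    rw [hpe]
    refine htr _ ?_ _ (hscl (s l))
    rw [hs']
    exact hτ.pow (Nat.succ_pos l)
  have h1 := hpe 1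
  rw [hp0, Polynomial.eval_zero, one_pow, one_mul, scl_one] at h1
  exact h1.symm

end Pool.Agent.V11219.Om
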