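import Pool.Agent.V11219.PerDefs

/-!
# Block diagonal matrices
-/

set_option linter.unusedSectionVars false

open scoped Matrix

namespace Pool.Agent.V11219.Per

variable {n m : ℕ} {β : Fin n → Fin m}

theorem bd_one : BlockDiagonal β (1 : Matrix (Fin n) (Fin n) ℂ) := fun _ _ h =>
  Matrix.one_apply_ne fun e => h (congrArg β e)

theorem bd_zero : BlockDiagonal β (0 : Matrix (Fin n) (Fin n) ℂ) := fun _ _ _ => rfl

theorem bd_add {g g' : Matrix (Fin n) (Fin n) ℂ} (h : BlockDiagonal β g)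
    (h' : BlockDiagonal β g') : BlockDiagonal β (g + g') := by
  intro a b hab
  rw [Matrix.add_apply, h a b hab, h' a b hab, add_zero]

theorem bd_sub {g g' : Matrix (Fin n) (Fin n) ℂ} (h : BlockDiagonal β g)
    (h' : BlockDiagonal β g') : BlockDiagonal β (g - g') := by
  intro a b hab
  rw [Matrix.sub_apply, h a b hab, h' a b hab, sub_zero]

theorem bd_smul {g : Matrix (Fin n) (Fin n) ℂ} (c : ℂ) (h : BlockDiagonal β g) :
    BlockDiagonal β (c • g) := by
  intro a b hab
  rw [Matrix.smul_apply, h a b hab, smul_zero]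

theorem bd_transpose {g : Matrix (Fin n) (Fin n) ℂ} (h : BlockDiagonal β g) :
    BlockDiagonal β gᵀ := by
  intro a b hab
  rw [Matrix.transpose_apply, h b a (Ne.symm hab)]

theorem bd_mul {g g' : Matrix (Fin n) (Fin n) ℂ} (h : BlockDiagonal β g)
    (h' : BlockDiagonal β g') : BlockDiagonal β (g * g') := by
  intro a b hab
  rw [Matrix.mul_apply]
  refine Finset.sum_eq_zero fun c _ => ?_
  by_cases hc : β a = β c
  · rw [h' c b (by rw [← hc]; exact hab), mul_zero]
  · rw [h a c hc, zero_mul]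

theorem bd_ext {g g' : Matrix (Fin n) (Fin n) ℂ} (h : BlockDiagonal β g)
    (h' : BlockDiagonal β g') (hb : ∀ j, blk β j g = blk β j g') : g = g' := by
  ext a b
  by_cases hab : β a = β b
  · have h1 := congrFun (congrFun (hb (β b)) ⟨a, hab⟩) ⟨b, rfl⟩
    exact h1
  · rw [h a b hab, h' a b hab]

theorem blk_transpose (j : Fin m) (g : Matrix (Fin n) (Fin n) ℂ) : blk β j gᵀ = (blk β j g)ᵀ := rfl

theorem blk_add (j : Fin m) (g g' : Matrix (Fin n) (Fin n) ℂ) :
    blk β j (g + g') = blk β j g + blk β j g' := rfl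

theorem blk_smul (j : Fin m) (c : ℂ) (g : Matrix (Fin n) (Fin n) ℂ) :
    blk β j (c • g) = c • blk β j g := rfl

/-- The matrix with given blocks. -/
noncomputable def asm (β : Fin n → Fin m) (X : ∀ j, Matrix {a // β a = j} {a // β a = j} ℂ) :
    Matrix (Fin n) (Fin n) ℂ :=
  Matrix.of fun a b => if h : β b = β a then X (β a) ⟨a, rfl⟩ ⟨b, h⟩ else 0

theorem asm_bd (X : ∀ j, Matrix {a // β a = j} {a // β a = j} ℂ) : BlockDiagonal β (asm β X) := by
  intro a b hab
  rw [asm, Matrix.of_apply, dif_neg (Ne.symm hab)]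

theorem blk_asm (X : ∀ j, Matrix {a // β a = j} {a // β a = j} ℂ) (j : Fin m) :
    blk β j (asm β X) = X j := by
  ext ⟨a, ha⟩ ⟨b, hb⟩
  subst ha
  change asm β X a b = _
  rw [asm, Matrix.of_apply, dif_pos hb]

theorem asm_blk {g : Matrix (Fin n) (Fin n) ℂ} (h : BlockDiagonal β g) :
    asm β (fun j => blk β j g) = g :=
  bd_ext (asm_bd _) h fun j => blk_asm _ j

theorem asm_mul (X Y : ∀ j, Matrix {a // β a = j} {a // β a = j} ℂ) :
    asm β (fun j => X j * Y j) = asm β X * asm β Y :=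
  bd_ext (asm_bd _) (bd_mul (asm_bd _) (asm_bd _)) fun j => by
    rw [blk_asm, blk_mul j (asm_bd _), blk_asm, blk_asm]

theorem asm_one : asm β (fun _ => 1) = 1 :=
  bd_ext (asm_bd _) bd_one fun j => by rw [blk_asm, blk_one]

theorem asm_add (X Y : ∀ j, Matrix {a // β a = j} {a // β a = j} ℂ) :
    asm β (fun j => X j + Y j) = asm β X + asm β Y :=
  bd_ext (asm_bd _) (bd_add (asm_bd _) (asm_bd _)) fun j => by
    rw [blk_asm, blk_add, blk_asm, blk_asm]

theorem asm_smul (c : ℂ) (X : ∀ j, Matrix {a // β a = j} {a // β a = j} ℂ) :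
    asm β (fun j => c • X j) = c • asm β X :=
  bd_ext (asm_bd _) (bd_smul c (asm_bd _)) fun j => by
    rw [blk_asm, blk_smul, blk_asm]

theorem bd_inv {B : Matrix (Fin n) (Fin n) ℂ} (hB : BlockDiagonal β B) (hu : IsUnit B) :
    BlockDiagonal β B⁻¹ := by
  have h1 : B * B⁻¹ = 1 := Matrix.mul_nonsing_inv _ ((Matrix.isUnit_iff_isUnit_det _).1 hu)
  have h2 : B * asm β (fun j => blk β j B⁻¹) = 1 := by
    refine bd_ext (bd_mul hB (asm_bd _)) bd_one fun j => ?_
    rw [blk_mul j hB, blk_asm, ← blk_mul j hB, h1]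
  rw [Matrix.inv_eq_right_inv h2]
  exact asm_bd _

/-- The matrix of a family of endomorphisms. -/
noncomputable def LX (β : Fin n → Fin m) :
    (∀ j, Module.End ℂ ({a // β a = j} → ℂ)) →ₗ[ℂ] Matrix (Fin n) (Fin n) ℂ where
  toFun X := asm β fun j => LinearMap.toMatrix' (X j)
  map_add' X Y := by
    rw [← asm_add]
    congr 1
  map_smul' c X := by
    rw [RingHom.id_apply, ← asm_smul]
    congr 1

theorem LX_apply (X : ∀ j, Module.End ℂ ({a // β a = j} → ℂ)) :
    LX β X = asm β fun j => LinearMap.toMatrix' (X j) := rfl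

theorem LX_bd (X : ∀ j, Module.End ℂ ({a // β a = j} → ℂ)) : BlockDiagonal β (LX β X) := by
  rw [LX_apply]
  exact asm_bd _

theorem LX_mul (X Y : ∀ j, Module.End ℂ ({a // β a = j} → ℂ)) :
    LX β (X * Y) = LX β X * LX β Y := by
  rw [LX_apply, LX_apply, LX_apply, ← asm_mul]
  congr 1
  funext j
  exact LinearMap.toMatrix'_mul (X j) (Y j)

theorem LX_one : LX β 1 = 1 := by
  rw [LX_apply, ← asm_one (β := β)]
  congr 1
  funext j
  exact LinearMap.toMatrix'_one

theorem LX_blk {g : Matrix (Fin n) (Fin n) ℂ} (h : BlockDiagonal β g) :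
    LX β (fun j => Matrix.toLin' (blk β j g)) = g := by
  rw [LX_apply]
  refine Eq.trans ?_ (asm_blk h)
  congr 1
  funext j
  exact LinearMap.toMatrix'_toLin' _

theorem blk_LX (X : ∀ j, Module.End ℂ ({a // β a = j} → ℂ)) (j : Fin m) :
    blk β j (LX β X) = LinearMap.toMatrix' (X j) := by
  rw [LX_apply, blk_asm]

end Pool.Agent.V11219.Per
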