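import Mathlib
import Pool.Agent.V11219.PerRel

/-!
# Degree-bounded relations between the periods of almost all fibres
-/

set_option autoImplicit false

open PowerSeries Filter
open scoped Matrix

namespace Pool.Agent.V11219.Per

open Pool.Agent.TH127.PT Pool.Agent.Y123.ST Pool.Agent.Y123.SR Pool.Agent.Y113 Pool.Agent.Y113.GG
  Pool.Agent.Y120.R Pool.Agent.Y123.GN

theorem coeff_rename_mem {σ τ : Type} {K : Subfield ℂ} {f : σ → τ} (hf : Function.Injective f)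
    {F : MvPolynomial σ ℂ} (hF : ∀ s, F.coeff s ∈ K) (s : τ →₀ ℕ) :
    (MvPolynomial.rename f F).coeff s ∈ K := by
  by_cases h : ∃ u : σ →₀ ℕ, Finsupp.mapDomain f u = s
  · obtain ⟨u, rfl⟩ := h
    rw [MvPolynomial.coeff_rename_mapDomain f hf]
    exact hF u
  · rw [MvPolynomial.coeff_rename_eq_zero f F s fun u hu => absurd ⟨u, hu⟩ h]
    exact K.zero_mem

variable {k : ℕ} {ρ n m : Fin k → ℕ}

theorem degree_rel {K : Subfield ℂ} (hKf : FiniteDimensional ℚ K) {d : ℕ}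
    {h : ∀ i, Fin (ρ i) → PowerSeries ℚ}
    {P : ∀ i, Fin (n i) → Fin (n i) → MvPolynomial (Option (Fin (ρ i))) ℂ} {t : Fin k → ℕ}
    {β : ∀ i, Fin (n i) → Fin (m i)} {B Q : ∀ i, Matrix (Fin (n i)) (Fin (n i)) ℂ}
    (hR : RelOK K d (((2 * Real.pi * Complex.I : ℂ)) • (1 : Matrix (Fin 0) (Fin 0) ℂ)) h P t)
    (hL : ∀ i, LocalMonodromy (β i) (B i) (Gal (h i) (P i)))
    {F : MvPolynomial ((Σ i, Fin (n i)) × Σ i, Fin (n i)) ℂ} (hFK : ∀ s, F.coeff s ∈ K)
    (hFd : F.totalDegree ≤ d)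
    (hF : MvPolynomial.eval (fun b =>
      Matrix.blockDiagonal' (fun i => perMat (h i) (P i) (t i : ℝ)) b.1 b.2) F = 0)
    (hBK : ∀ i a b, B i a b ∈ K) (hQK : ∀ i a b, Q i a b ∈ K) {w : ∀ i, Fin (m i) → ℕ}
    (hZ : ∀ i, BlockDiagonal (β i) (perMat (h i) (P i) (t i : ℝ)) ∧ ∀ a b,
      (perMat (h i) (P i) (t i : ℝ) * Q i * (perMat (h i) (P i) (t i : ℝ))ᵀ) a b =
        (2 * Real.pi * Complex.I : ℂ) ^ w i (β i a) * B i a b)
    {z : ℂ} (hz : z ≠ 0) {X : ∀ i, Matrix (Fin (n i)) (Fin (n i)) ℂ}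
    (hX : ∀ i, BlockDiagonal (β i) (X i) ∧ ∀ a b,
      (X i * Q i * (X i)ᵀ) a b = z ^ w i (β i a) * B i a b) :
    MvPolynomial.eval (fun b => Matrix.blockDiagonal' X b.1 b.2) F = 0 := by
  have hKalg : ∀ x ∈ K, IsAlgebraic ℚ x := by
    intro x hx
    have : NumberField K := { to_charZero := inferInstance, to_finiteDimensional := hKf }
    have h6 : IsAlgebraic ℚ (⟨x, hx⟩ : K) := Algebra.IsAlgebraic.isAlgebraic _
    exact h6.algebraMap (A := ℂ)
  set f : (Σ i, Fin (n i)) × (Σ i, Fin (n i)) →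
    (Fin 0 ⊕ Σ i, Fin (n i)) × (Fin 0 ⊕ Σ i, Fin (n i)) := Prod.map Sum.inr Sum.inr with hf
  have hinj : Function.Injective f := Sum.inr_injective.prodMap Sum.inr_injective
  have key : ∀ (z : ℂ) (X : ∀ i, Matrix (Fin (n i)) (Fin (n i)) ℂ),
      MvPolynomial.eval (Pool.Agent.Y123.ST.fl (EG (z • (1 : Matrix (Fin 0) (Fin 0) ℂ)) X))
        (MvPolynomial.rename f F) =
      MvPolynomial.eval (fun b => Matrix.blockDiagonal' X b.1 b.2) F := by
    intro z X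
    rw [MvPolynomial.eval_rename]
    rfl
  have h1 := absolute_rel (r := 0) (F := MvPolynomial.rename f F) hKalg hR hL
    (coeff_rename_mem hinj hFK) ((MvPolynomial.totalDegree_rename_le f F).trans hFd)
    ((key _ _).trans hF) hBK hQK hZ hz hX
  rwa [key] at h1

end Pool.Agent.V11219.Per
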