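import Pool.Agent.V11219.PerDefs

/-!
# The degree-bounded statement for one fibre: definitions
-/

set_option autoImplicit false

open scoped Matrix

namespace Pool.Agent.V11219.Per.Deg

open Pool.Agent.V11219.Per

variable {k : ℕ} {n m : Fin k → ℕ} {ρ : Fin k → ℕ}

/-- The indices of the block matrices. -/
abbrev Idx (n : Fin k → ℕ) : Type := Σ i, Fin (n i)

/-- the block matrix `X_1 ⊕ … ⊕ X_k` -/
noncomputable def total (X : ∀ i, Matrix (Fin (n i)) (Fin (n i)) ℂ) : Matrix (Idx n) (Idx n) ℂ :=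
  Matrix.blockDiagonal' X

/-- The matrices `X_i` respect the pieces and satisfy the Riemann relations
`X_i Q_i X_i^t = z^(w_ij) B_i` on the pieces. -/
def Riemann (β : ∀ i, Fin (n i) → Fin (m i)) (B Q : ∀ i, Matrix (Fin (n i)) (Fin (n i)) ℂ)
    (w : ∀ i, Fin (m i) → ℕ) (z : ℂ) (X : ∀ i, Matrix (Fin (n i)) (Fin (n i)) ℂ) : Prop :=
  ∀ i, BlockDiagonal (β i) (X i) ∧
    ∀ a b, (X i * Q i * (X i)ᵀ) a b = z ^ w i (β i a) * B i a b

/-- The torsor of all `X_1 ⊕ … ⊕ X_k` which satisfy the Riemann relations for some `z ≠ 0`. -/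
def torsor (β : ∀ i, Fin (n i) → Fin (m i)) (B Q : ∀ i, Matrix (Fin (n i)) (Fin (n i)) ℂ)
    (w : ∀ i, Fin (m i) → ℕ) : Set (Matrix (Idx n) (Idx n) ℂ) :=
  {y | ∃ z : ℂ, z ≠ 0 ∧ ∃ X, Riemann β B Q w z X ∧ y = total X}

/-- `F` is a polynomial of degree at most `d` with coefficients in `K` which vanishes at `y`. -/
def Vanishes {I : Type} (K : Subfield ℂ) (d : ℕ) (F : MvPolynomial (I × I) ℂ) (y : Matrix I I ℂ) :
    Prop :=
  (∀ s, F.coeff s ∈ K) ∧ F.totalDegree ≤ d ∧ MvPolynomial.eval (fun b => y b.1 b.2) F = 0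

/-- The degree-`d` statement over `K` for one fibre: `Z i` is the period matrix of the fibre of the
`i`-th family. -/
def DegreeStatement (K : Subfield ℂ) (d : ℕ) (h : ∀ i, Fin (ρ i) → PowerSeries ℚ)
    (P : ∀ i, Fin (n i) → Fin (n i) → MvPolynomial (Option (Fin (ρ i))) ℂ)
    (Z : ∀ i, Matrix (Fin (n i)) (Fin (n i)) ℂ) : Prop :=
  ∀ (m : Fin k → ℕ) (β : ∀ i, Fin (n i) → Fin (m i)) (B Q : ∀ i, Matrix (Fin (n i)) (Fin (n i)) ℂ)
    (w : ∀ i, Fin (m i) → ℕ), (∀ i, LocalMonodromy (β i) (B i) (Gal (h i) (P i))) →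
    (∀ i a b, B i a b ∈ K ∧ Q i a b ∈ K) → Riemann β B Q w (2 * Real.pi * Complex.I) Z →
    ∀ F, Vanishes K d F (total Z) → ∀ y ∈ torsor β B Q w, Vanishes K d F y

/-- The maximum of the coordinates. -/
def height (t : Fin k → ℕ) : ℕ := Finset.univ.sup t

/-- The set of the `t` in the box `[1, N]^k` such that the degree-`δ (height t)` statement over `K` is
not true at the fibre with the coordinates `1 / t_i`. -/
def exceptional (K : Subfield ℂ) (δ : ℕ → ℕ) (h : ∀ i, Fin (ρ i) → PowerSeries ℚ)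
    (P : ∀ i, Fin (n i) → Fin (n i) → MvPolynomial (Option (Fin (ρ i))) ℂ) (N : ℕ) :
    Set (Fin k → ℕ) :=
  {t | (∀ i, 1 ≤ t i ∧ t i ≤ N) ∧
    ¬ DegreeStatement K (δ (height t)) h P fun i => perMat (h i) (P i) (t i : ℝ)}

end Pool.Agent.V11219.Per.Deg
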