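import Pool.Agent.V11219.PerBlk
import Pool.Agent.V11219.GkMain

/-!
# The Lie algebra of the symmetries of a family of period matrices
-/

set_option linter.unusedSectionVars false

open scoped Matrix
open Module Pool.Agent.V11219.Gk Pool.Agent.H204R3.SP Matrix

namespace Pool.Agent.V11219.Per

section flip

variable {κ : Type} [Fintype κ] [DecidableEq κ]

theorem flip_form {A A' g : Matrix κ κ ℂ} (h : A * A' = 1) {c : ℂ} (hc : c ≠ 0)
    (hg : g * A * gᵀ = c • A) : gᵀ * A' * g = c • A' := by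
  have h' : A' * A = 1 := mul_eq_one_comm.1 h
  have h1 : g * (c⁻¹ • (A * gᵀ * A')) = 1 := by
    rw [Matrix.mul_smul, ← Matrix.mul_assoc, ← Matrix.mul_assoc, hg, Matrix.smul_mul, h,
      smul_smul, inv_mul_cancel₀ hc, one_smul]
  have h2 := mul_eq_one_comm.1 h1
  have h3 : A * (gᵀ * A' * g) = c • 1 := by
    rw [← h2, Matrix.smul_mul, smul_smul, mul_inv_cancel₀ hc, one_smul]
    simp only [Matrix.mul_assoc]
  calc gᵀ * A' * g = A' * A * (gᵀ * A' * g) := by rw [h', Matrix.one_mul]
    _ = A' * (A * (gᵀ * A' * g)) := Matrix.mul_assoc _ _ _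
    _ = c • A' := by rw [h3, Matrix.mul_smul, Matrix.mul_one]

theorem skew_self {M : Matrix κ κ ℂ} (hM : Mᵀ = -M) (x : κ → ℂ) : x ⬝ᵥ (M *ᵥ x) = 0 := by
  have h1 : x ⬝ᵥ (M *ᵥ x) = x ⬝ᵥ (Mᵀ *ᵥ x) := by
    rw [Matrix.mulVec_transpose, dotProduct_comm x (x ᵥ* M), ← Matrix.dotProduct_mulVec]
  rw [hM, Matrix.neg_mulVec, dotProduct_neg] at h1
  linear_combination h1 / 2

end flip

variable {n m : ℕ} {β : Fin n → Fin m} {B : Matrix (Fin n) (Fin n) ℂ}

/-- The dual form on the piece. -/
noncomputable def Cf (β : Fin n → Fin m) (B : Matrix (Fin n) (Fin n) ℂ) (j : Fin m) :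
    ({a // β a = j} → ℂ) →ₗ[ℂ] ({a // β a = j} → ℂ) →ₗ[ℂ] ℂ :=
  Matrix.toLinearMap₂' ℂ (blk β j B⁻¹)

theorem Cf_apply (j : Fin m) (x y : {a // β a = j} → ℂ) :
    Cf β B j x y = x ⬝ᵥ (blk β j B⁻¹ *ᵥ y) := Matrix.toLinearMap₂'_apply' _ _ _

theorem blk_inv (hu : IsUnit B) (hb : BlockDiagonal β B) (j : Fin m) :
    blk β j B * blk β j B⁻¹ = 1 := by
  rw [← blk_mul j hb, Matrix.mul_nonsing_inv _ ((Matrix.isUnit_iff_isUnit_det _).1 hu), blk_one]

theorem inv_tr (hu : IsUnit B) (hs : Bᵀ = -B) : (B⁻¹)ᵀ = -B⁻¹ := by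
  rw [Matrix.transpose_nonsing_inv, hs]
  refine Matrix.inv_eq_right_inv ?_
  rw [neg_mul_neg, Matrix.mul_nonsing_inv _ ((Matrix.isUnit_iff_isUnit_det _).1 hu)]

theorem Cf_alt (hu : IsUnit B) (hs : Bᵀ = -B) (j : Fin m) (x : {a // β a = j} → ℂ) :
    Cf β B j x x = 0 := by
  rw [Cf_apply]
  refine skew_self ?_ x
  rw [← blk_transpose, inv_tr hu hs]
  rfl

theorem Cf_nondeg (hu : IsUnit B) (hb : BlockDiagonal β B) (j : Fin m) (x : {a // β a = j} → ℂ)
    (h : ∀ y, Cf β B j x y = 0) : x = 0 := by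
  have h1 : x ᵥ* blk β j B⁻¹ = 0 := by
    refine dotProduct_eq_zero _ fun y => ?_
    rw [← Matrix.dotProduct_mulVec, ← Cf_apply]
    exact h y
  have h2 : (x ᵥ* blk β j B⁻¹) ᵥ* blk β j B = x := by
    rw [Matrix.vecMul_vecMul, mul_eq_one_comm.1 (blk_inv hu hb j), Matrix.vecMul_one]
  rw [← h2, h1, Matrix.zero_vecMul]

theorem Cf_act (hu : IsUnit B) (hb : BlockDiagonal β B) {g : Matrix (Fin n) (Fin n) ℂ}
    (hg : BlockDiagonal β g) (j : Fin m) {c : ℂ} (hc : c ≠ 0)
    (h : blk β j (g * B * gᵀ) = c • blk β j B) (x y : {a // β a = j} → ℂ) :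
    Cf β B j (Matrix.toLin' (blk β j g) x) (Matrix.toLin' (blk β j g) y) = c * Cf β B j x y := by
  have h1 : blk β j g * blk β j B * (blk β j g)ᵀ = c • blk β j B := by
    rw [← blk_transpose, ← blk_mul j hg, ← blk_mul j (bd_mul hg hb), h]
  have h2 := flip_form (blk_inv hu hb j) hc h1
  rw [Cf_apply, Cf_apply, Matrix.toLin'_apply, Matrix.toLin'_apply, Matrix.mulVec_mulVec,
    Matrix.dotProduct_mulVec, Matrix.vecMul_mulVec, ← Matrix.mul_assoc, h2, ← Matrix.dotProduct_mulVec,
    Matrix.smul_mulVec, dotProduct_smul, smul_eq_mul]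

variable {Z : ℝ → Matrix (Fin n) (Fin n) ℂ} {G : Subgroup (Matrix.GeneralLinearGroup (Fin n) ℂ)}

/-- The Lie algebra. -/
noncomputable def LL (β : Fin n → Fin m) (B : Matrix (Fin n) (Fin n) ℂ)
    (Z : ℝ → Matrix (Fin n) (Fin n) ℂ) :
    Submodule ℂ (∀ j, Module.End ℂ ({a // β a = j} → ℂ)) where
  carrier := {X | LX β X ∈ lie Z ∧ ∀ j, Sk (Cf β B j) (X j)}
  zero_mem' := by
    refine ⟨by rw [map_zero]; exact Submodule.zero_mem _, fun j x y => ?_⟩
    change Cf β B j (0 : {a // β a = j} → ℂ) y + Cf β B j x 0 = 0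
    simp
  add_mem' := by
    rintro X Y ⟨h1, h2⟩ ⟨h1', h2'⟩
    refine ⟨by rw [map_add]; exact Submodule.add_mem _ h1 h1', fun j x y => ?_⟩
    change Cf β B j (X j x + Y j x) y + Cf β B j x (X j y + Y j y) = 0
    rw [map_add, map_add, LinearMap.add_apply]
    linear_combination h2 j x y + h2' j x y
  smul_mem' := by
    rintro c X ⟨h1, h2⟩
    refine ⟨by rw [map_smul]; exact Submodule.smul_mem _ c h1, fun j x y => ?_⟩
    change Cf β B j (c • X j x) y + Cf β B j x (c • X j y) = 0
    rw [map_smul, map_smul, LinearMap.smul_apply, smul_eq_mul, smul_eq_mul]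
    linear_combination c * h2 j x y

theorem piece_eq (hG : BlockGroup β G) (j : Fin m)
    (g : G) : piece β G hG j g = Matrix.toLin' (blk β j
      (mat g)) := rfl

theorem LX_piece (hG : BlockGroup β G) (g : G) :
    LX β (fun j => piece β G hG j g) =
      mat g :=
  LX_blk (hG g)

theorem unip_pow {κ : Type} [Fintype κ] [DecidableEq κ] {g : Matrix κ κ ℂ}
    (h : (g - 1) * (g - 1) = 0) (k : ℕ) : g ^ k = 1 + (k : ℂ) • (g - 1) := by
  induction k with
  | zero => rw [pow_zero, Nat.cast_zero, zero_smul, add_zero]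
  | succ k ih =>
    have h1 : g = 1 + (g - 1) := by abel
    rw [pow_succ, ih]
    nth_rewrite 2 [h1]
    rw [Matrix.mul_add, Matrix.mul_one, Matrix.add_mul, Matrix.one_mul, Matrix.smul_mul, h,
      smul_zero, add_zero, Nat.cast_succ]
    module

/-- The logarithms of the quadratic elements. -/
theorem log_mem (hG : ∀ g, g ∈ G ↔ Pres Z (g : Matrix (Fin n) (Fin n) ℂ) ∧
      Pres Z ((g⁻¹ : Matrix.GeneralLinearGroup (Fin n) ℂ) : Matrix (Fin n) (Fin n) ℂ))
    (hL : LocalMonodromy β B G) {g : G} (hg : g ∈ quadratics B G) :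
    (fun j => piece β G hL.group j g - 1) ∈ LL β B Z := by
  obtain ⟨h1, h2⟩ := hg
  have e1 : LX β (fun j => piece β G hL.group j g - 1) =
      mat g - 1 := by
    have e2 : (fun j => piece β G hL.group j g - 1) =
        (fun j => piece β G hL.group j g) - 1 := rfl
    rw [e2, map_sub, LX_piece, LX_one]
  refine ⟨?_, fun j => ?_⟩
  · rw [e1]
    refine lie_of_pres h1 fun k => ?_
    rw [← unip_pow h1]
    exact ((hG _).1 (G.pow_mem g.2 k)).1
  · have h3 : ∀ x y, Cf β B j (piece β G hL.group j g x) (piece β G hL.group j g y) =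
        (1 : ℂ) * Cf β B j x y := fun x y => by
      refine Cf_act hL.form.unit hL.form.block (hL.group g) j one_ne_zero ?_ x y
      rw [h2, one_smul]
    have h4 : (piece β G hL.group j g - 1) * (piece β G hL.group j g - 1) = 0 := by
      have h5 : piece β G hL.group j g - 1 = Matrix.toLin' (blk β j
          (mat g - 1)) := by
        have h6 : blk β j (mat g - 1) = blk β j (mat g) - 1 := by
          rw [← blk_one β j]
          rfl
        rw [h6, map_sub, Matrix.toLin'_one, piece_eq]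
        rfl
      rw [h5]
      have h7 : Matrix.toLin' (blk β j (mat g - 1)) * Matrix.toLin' (blk β j
          (mat g - 1)) =
          Matrix.toLin' (blk β j (mat g - 1) * blk β j (mat g - 1)) := (Matrix.toLin'_mul _ _).symm
      rw [h7, ← blk_mul j (bd_sub (hL.group g) bd_one), h1]
      exact map_zero _
    -- use the form
    have hh : ∀ x, piece β G hL.group j g x = x + (piece β G hL.group j g - 1) x := by
      intro x
      rw [LinearMap.sub_apply, Module.End.one_apply]
      abel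
    have hN : ∀ x, (piece β G hL.group j g - 1) ((piece β G hL.group j g - 1) x) = 0 := fun x =>
      congrArg (fun f : End ℂ _ => f x) h4
    have h0 : ∀ x y, Cf β B j ((piece β G hL.group j g - 1) x) y +
        Cf β B j x ((piece β G hL.group j g - 1) y) +
        Cf β B j ((piece β G hL.group j g - 1) x) ((piece β G hL.group j g - 1) y) = 0 := by
      intro x y
      have h8 := h3 x y
      rw [one_mul, hh x, hh y] at h8
      simp only [map_add, LinearMap.add_apply] at h8
      linear_combination h8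
    intro x y
    have h8 := h0 ((piece β G hL.group j g - 1) x) y
    rw [hN, map_zero, LinearMap.zero_apply, LinearMap.zero_apply, zero_add, add_zero] at h8
    have h9 := h0 x y
    rwa [h8, add_zero] at h9

theorem log_sq (hL : LocalMonodromy β B G) {g : G} (hg : g ∈ quadratics B G) :
    (fun j => piece β G hL.group j g - 1) * (fun j => piece β G hL.group j g - 1) = 0 := by
  obtain ⟨h1, h2⟩ := hg
  funext j
  change (piece β G hL.group j g - 1) * (piece β G hL.group j g - 1) = 0
  have h5 : piece β G hL.group j g - 1 = Matrix.toLin' (blk β j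
      (mat g - 1)) := by
    have h6 : blk β j (mat g - 1) = blk β j (mat g) - 1 := by
      rw [← blk_one β j]
      rfl
    rw [h6, map_sub, Matrix.toLin'_one, piece_eq]
    rfl
  rw [h5]
  have h7 : Matrix.toLin' (blk β j (mat g - 1)) * Matrix.toLin' (blk β j
      (mat g - 1)) =
      Matrix.toLin' (blk β j (mat g - 1) * blk β j (mat g - 1)) := (Matrix.toLin'_mul _ _).symm
  rw [h7, ← blk_mul j (bd_sub (hL.group g) bd_one), h1]
  exact map_zero _

theorem fdefect (hG : ∀ g, g ∈ G ↔ Pres Z (g : Matrix (Fin n) (Fin n) ℂ) ∧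
      Pres Z ((g⁻¹ : Matrix.GeneralLinearGroup (Fin n) ℂ) : Matrix (Fin n) (Fin n) ℂ))
    (hL : LocalMonodromy β B G) {j : Fin m} {g : G} {d : ℕ}
    (hd : Sm.IsDefect (piece β G hL.group j) (quadratics B G) g d) :
    FDefect (LL β B Z) j (fun j => piece β G hL.group j g - 1) d := by
  rcases hd with hd | ⟨g', hg', -, a, ha, hd⟩
  · exact Or.inl hd
  · exact Or.inr ⟨_, log_mem hG hL hg', log_sq hL hg', a, ha, hd⟩

/-- The Lie algebra satisfies the conditions. -/
theorem lieFam (hG : ∀ g, g ∈ G ↔ Pres Z (g : Matrix (Fin n) (Fin n) ℂ) ∧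
      Pres Z ((g⁻¹ : Matrix.GeneralLinearGroup (Fin n) ℂ) : Matrix (Fin n) (Fin n) ℂ))
    (hL : LocalMonodromy β B G) : ∃ μ : Fin m → G →* ℂ,
    LieFam μ (piece β G hL.group) (Cf β B) (LL β B Z) := by
  obtain ⟨μ, hμ⟩ := hL.similitudes
  have hact : ∀ (j : Fin m) (g : G) x y, Cf β B j (piece β G hL.group j g x)
      (piece β G hL.group j g y) = μ j g * Cf β B j x y := by
    intro j g x y
    have hne : μ j g ≠ 0 := by
      have h1 : μ j g * μ j g⁻¹ = 1 := by rw [← map_mul, mul_inv_cancel, map_one]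
      exact left_ne_zero_of_mul_eq_one h1
    refine Cf_act hL.form.unit hL.form.block (hL.group g) j hne ?_ x y
    ext a b
    have h1 := hμ g a.1 b.1
    rw [a.2] at h1
    exact h1
  refine ⟨μ, ?_⟩
  exact {
    alt := Cf_alt hL.form.unit hL.form.skew
    nondeg := Cf_nondeg hL.form.unit hL.form.block
    act := hact
    irreducible := hL.irreducible
    distinct := hL.distinct
    br := by
      rintro X ⟨h1, h2⟩ Y ⟨h1', h2'⟩
      refine ⟨?_, fun j => sk_br (h2 j) (h2' j)⟩
      rw [map_sub, LX_mul, LX_mul]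
      exact lie_br h1 h1'
    conj := by
      rintro g X ⟨h1, h2⟩
      refine ⟨?_, fun j => sk_conj (hact j) (h2 j) g⟩
      have e1 : (fun i => piece β G hL.group i g * X i * piece β G hL.group i g⁻¹) =
          (fun i => piece β G hL.group i g) * X * fun i => piece β G hL.group i g⁻¹ := rfl
      rw [e1, LX_mul, LX_mul, LX_piece, LX_piece]
      have h3 := (hG _).1 g.2
      refine lie_conj h3.2 h3.1 ?_ ?_ h1
      · have h5 : mat g⁻¹ * mat g = mat (g⁻¹ * g) := rfl
        rw [h5, inv_mul_cancel]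
        rfl
      · have h5 : mat g * mat g⁻¹ = mat (g * g⁻¹) := rfl
        rw [h5, mul_inv_cancel]
        rfl
    sk := fun X hX j => hX.2 j
    small := by
      intro i
      rcases hL.small i with ⟨g, hg, hd⟩ | ⟨⟨g, hg, hW⟩, hd⟩
      · refine Or.inl ⟨_, log_mem hG hL hg, log_sq hL hg, ?_⟩
        rcases hd with hd | hd
        · left
          intro p hp
          obtain ⟨d, hd, hpd⟩ := hd p hp
          exact ⟨d, fdefect hG hL hd, hpd⟩
        · exact Or.inr (fdefect hG hL hd)
      · refine Or.inr ⟨_, log_mem hG hL hg, log_sq hL hg, fun W hW' => hW W fun s x hx => ?_, ?_⟩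
        · have h1 := hW' s x hx
          have h2 : piece β G hL.group i (s * g * s⁻¹) x = (piece β G hL.group i s *
              (piece β G hL.group i g - 1) * piece β G hL.group i s⁻¹) x + x := by
            have e1 : piece β G hL.group i s * piece β G hL.group i s⁻¹ = 1 := by
              rw [← map_mul, mul_inv_cancel, map_one]
            rw [map_mul, map_mul, mul_sub, sub_mul, mul_one, e1, LinearMap.sub_apply,
              Module.End.one_apply]
            abel
          rw [h2]
          exact W.add_mem h1 hx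
        · intro p hp
          obtain ⟨g', hg', d, hd, hpd⟩ := hd p hp
          exact ⟨_, log_mem hG hL hg', log_sq hL hg', d, fdefect hG hL hd, hpd⟩ }

/-- The symmetries of rank one belong to the Lie algebra. -/
theorem rank_one_mem (hG : ∀ g, g ∈ G ↔ Pres Z (g : Matrix (Fin n) (Fin n) ℂ) ∧
      Pres Z ((g⁻¹ : Matrix.GeneralLinearGroup (Fin n) ℂ) : Matrix (Fin n) (Fin n) ℂ))
    (hL : LocalMonodromy β B G) (j : Fin m) (v : {a // β a = j} → ℂ) :
    LX β (Pi.single j ((Cf β B j v).smulRight v)) ∈ lie Z := by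
  classical
  obtain ⟨μ, hF⟩ := lieFam hG hL
  have h1 := (hF.single_mem j v v).1
  have h2 : (Pi.single j (SS (Cf β B j) v v) : ∀ j, Module.End ℂ ({a // β a = j} → ℂ)) =
      (2 : ℂ) • Pi.single j ((Cf β B j v).smulRight v) := by
    funext k
    by_cases hk : k = j
    · subst hk
      rw [Pi.smul_apply, Pi.single_eq_same, Pi.single_eq_same]
      refine LinearMap.ext fun x => ?_
      rw [LinearMap.smul_apply, LinearMap.smulRight_apply, SS_apply]
      module
    · rw [Pi.smul_apply, Pi.single_eq_of_ne hk, Pi.single_eq_of_ne hk, smul_zero]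
  rw [h2, map_smul] at h1
  exact (Submodule.smul_mem_iff _ (two_ne_zero)).1 h1

end Pool.Agent.V11219.Per
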