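import Mathlib
import Pool.Agent.V11219.PerDeg

/-!
# Growing degrees
-/

set_option autoImplicit false

open Filter

namespace Pool.Agent.V11219.Per

/-- Choice of a slowly growing function. -/
theorem exists_delta {B : ℕ → ℕ → ℝ} {b : ℕ → ℕ → ℝ} (hB : ∀ d, ∀ᶠ N in atTop, B d N ≤ b d N) :
    ∃ δ : ℕ → ℕ, Monotone δ ∧ Tendsto δ atTop atTop ∧ (∀ N, δ N ≤ N) ∧
      ∀ N, δ N ≠ 0 → B (δ N) N ≤ b (δ N) N := by
  classical
  refine ⟨fun N => Nat.findGreatest (fun d => ∀ N' ≥ N, B d N' ≤ b d N') N, ?_, ?_,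
    fun N => Nat.findGreatest_le N, ?_⟩
  · intro N M hNM
    exact Nat.findGreatest_mono (fun d hd N' hN' => hd N' (hNM.trans hN')) hNM
  · refine tendsto_atTop.2 fun d => ?_
    obtain ⟨N₀, hN₀⟩ := eventually_atTop.1 (hB d)
    filter_upwards [eventually_ge_atTop (max N₀ d)] with N hN
    exact Nat.le_findGreatest ((le_max_right _ _).trans hN) fun N' hN' =>
      hN₀ N' ((le_max_left _ _).trans (hN.trans hN'))
  · intro N hN
    exact Nat.findGreatest_of_ne_zero rfl hN N le_rfl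

/-- The bound. -/
theorem bound_tendsto (k d : ℕ) {c C : ℝ} (hc : 0 < c) :
    ∀ᶠ N : ℕ in atTop, C * (N : ℝ) ^ (k - 1) *
      ∑ _i : Fin k, (1 + N / (((0 : ℕ) : ℝ) + N) ^ c) ≤ (N : ℝ) ^ k / (d + 1) := by
  have h1 : Tendsto (fun N : ℕ => C * k * (d + 1) * ((N : ℝ)⁻¹ + ((N : ℝ) ^ c)⁻¹)) atTop (nhds 0) := by
    have h2 : Tendsto (fun N : ℕ => (N : ℝ)⁻¹) atTop (nhds 0) :=
      tendsto_inv_atTop_zero.comp tendsto_natCast_atTop_atTop
    have h3 : Tendsto (fun N : ℕ => ((N : ℝ) ^ c)⁻¹) atTop (nhds 0) :=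
      tendsto_inv_atTop_zero.comp ((tendsto_rpow_atTop hc).comp tendsto_natCast_atTop_atTop)
    simpa using (h2.add h3).const_mul (C * k * (d + 1))
  filter_upwards [h1.eventually (gt_mem_nhds (zero_lt_one)), eventually_ge_atTop 1] with N hN hN1
  have hN0 : (0 : ℝ) < N := by exact_mod_cast hN1
  have hNc : (0 : ℝ) < (N : ℝ) ^ c := Real.rpow_pos_of_pos hN0 c
  rw [Finset.sum_const, Finset.card_univ, Fintype.card_fin, nsmul_eq_mul, Nat.cast_zero, zero_add,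
    le_div_iff₀ (by positivity)]
  rcases Nat.eq_zero_or_pos k with rfl | hk
  · simp
  · obtain ⟨m, rfl⟩ : ∃ m, k = m + 1 := ⟨k - 1, by omega⟩
    rw [Nat.add_sub_cancel, pow_succ]
    have h4 : C * (N : ℝ) ^ m * (((m + 1 : ℕ) : ℝ) * (1 + N / (N : ℝ) ^ c)) * (d + 1) =
        (N : ℝ) ^ m * N * (C * ((m + 1 : ℕ) : ℝ) * (d + 1) * ((N : ℝ)⁻¹ + ((N : ℝ) ^ c)⁻¹)) := by
      field_simp
    rw [h4]
    calc _ ≤ (N : ℝ) ^ m * N * 1 := by
          refine mul_le_mul_of_nonneg_left hN.le (by positivity)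
      _ = _ := mul_one _

end Pool.Agent.V11219.Per
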