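import Mathlib
import Pool.Agent.V11219.PerGrow
import Pool.Agent.V11219.PerDegDefs

/-!
# Growing degrees: the theorem
-/

set_option autoImplicit false

open PowerSeries Filter
open scoped Matrix

namespace Pool.Agent.V11219.Per.Deg

open Pool.Agent.V11219.Per

theorem iter_eq {r : ℕ} (T : Polynomial ℤ) (A : Fin r → Fin r → Polynomial ℤ) (s : ℕ) :
    iter T A s = Pool.Agent.Y120.GH.itm T A s := by
  induction s with
  | zero => rfl
  | succ s ih =>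
    funext i j
    rw [iter, Pool.Agent.Y120.GH.itm, ih]

theorem qu_eq {r : ℕ} {T : Polynomial ℤ} {A : Fin r → Fin r → Polynomial ℤ}
    (h : QuasiUnipotent T A) : Pool.Agent.Y120.GH.QU0 T A := by
  obtain ⟨e, M, K, Φ, he, hdet, hc, heq⟩ := h
  have he0 : e ≠ 0 := by omega
  refine ⟨e, he0, M, K, Φ, hc, fun i j n => ?_, hdet⟩
  have h1 := heq i j n
  simp only [atPow] at h1
  rw [Pool.Agent.Y120.GH.expand_poly he0]
  simp only [Pool.Agent.Y120.GH.expand_poly he0]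
  exact h1

theorem fam {r : ℕ} {T : Polynomial ℤ} {A : Fin r → Fin r → Polynomial ℤ}
    {h : Fin r → PowerSeries ℚ} (hG : GFamily T A h) (δ : ℕ) : Pool.Agent.Y120.R.Fam δ h :=
  ⟨hG.size, Pool.Agent.Y120.GH.family_main hG.T_ne hG.ode hG.size hG.den (by
    obtain ⟨C, hC⟩ := hG.galochkin
    refine ⟨C, fun m => ?_⟩
    obtain ⟨d, h1, h2, h3⟩ := hC m
    refine ⟨d, h1, h2, fun s hs i' j' => ?_⟩
    rw [← iter_eq]
    exact h3 s hs i' j') (qu_eq hG.regular) δ⟩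

variable {k : ℕ} {n m : Fin k → ℕ} {ρ : Fin k → ℕ}

theorem statement_of {K : Subfield ℂ} (hKf : FiniteDimensional ℚ K) {d : ℕ}
    {h : ∀ i, Fin (ρ i) → PowerSeries ℚ}
    {P : ∀ i, Fin (n i) → Fin (n i) → MvPolynomial (Option (Fin (ρ i))) ℂ} {t : Fin k → ℕ}
    (hg : RelOK K d (((2 * Real.pi * Complex.I : ℂ)) • (1 : Matrix (Fin 0) (Fin 0) ℂ)) h P t) :
    DegreeStatement K d h P fun i => perMat (h i) (P i) (t i : ℝ) := by
  rintro m β B Q w hL hBQ hZ F hF _ ⟨z, hz, X, hX, rfl⟩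
  exact ⟨hF.1, hF.2.1, degree_rel hKf hg hL hF.1 hF.2.1 hF.2.2 (fun i a b => (hBQ i a b).1)
    (fun i a b => (hBQ i a b).2) hZ hz hX⟩

theorem DegreeStatement.mono {K : Subfield ℂ} {d d' : ℕ} (hd : d' ≤ d)
    {h : ∀ i, Fin (ρ i) → PowerSeries ℚ}
    {P : ∀ i, Fin (n i) → Fin (n i) → MvPolynomial (Option (Fin (ρ i))) ℂ}
    {Z : ∀ i, Matrix (Fin (n i)) (Fin (n i)) ℂ} (hs : DegreeStatement K d h P Z) :
    DegreeStatement K d' h P Z := by
  intro m β B Q w hL hBQ hZ F hF y hy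
  exact ⟨hF.1, hF.2.1, (hs m β B Q w hL hBQ hZ F ⟨hF.1, hF.2.1.trans hd, hF.2.2⟩ y hy).2.2⟩

/-- **The theorem.** -/
theorem grow_main (k e : ℕ) (ρ n : Fin k → ℕ) (T : Fin k → Polynomial ℤ)
    (A : ∀ i, Fin (ρ i) → Fin (ρ i) → Polynomial ℤ) (h : ∀ i, Fin (ρ i) → PowerSeries ℚ)
    (hG : ∀ i, GFamily (T i) (A i) (h i)) :
    ∃ δ : ℕ → ℕ, Monotone δ ∧ Tendsto δ atTop atTop ∧
      ∀ P : ∀ i, Fin (n i) → Fin (n i) → MvPolynomial (Option (Fin (ρ i))) ℂ,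
      (∀ i a b, (P i a b).totalDegree ≤ e) →
      ∀ K : Subfield ℂ, FiniteDimensional ℚ K → ∀ N : ℕ, Module.finrank ℚ K ≤ δ N →
      (((exceptional K δ h P N).ncard : ℕ) : ℝ) ≤ (N : ℝ) ^ k / (δ N + 1) := by
  classical
  have hmain := fun d : ℕ => rel_main k d d e 0 ρ n h fun i δ => fam (hG i) δ
  choose c C hc hC hm using hmain
  obtain ⟨δ, hδ1, hδ2, hδ0, hδ3⟩ := exists_delta
    (B := fun d N => C d * (N : ℝ) ^ (k - 1) *
      ∑ _i : Fin k, (1 + N / (((0 : ℕ) : ℝ) + N) ^ c d))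
    (b := fun d N => (N : ℝ) ^ k / (d + 1)) fun d => bound_tendsto k d (hc d)
  refine ⟨δ, hδ1, hδ2, ?_⟩
  intro P hP K hKf N hN
  have hK1 : 0 < Module.finrank ℚ K := Module.finrank_pos
  have hδN : δ N ≠ 0 := by omega
  have hN0 : 1 ≤ N := by
    have := hδ0 N
    omega
  have hfin : (exceptional K δ h P N).Finite := by
    refine (Set.finite_Iic (fun _ : Fin k => N)).subset ?_
    intro t ht i
    exact (ht.1 i).2
  rw [Set.ncard_eq_toFinset_card _ hfin]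
  refine le_trans (hm (δ N) P hP K hKf hN ((2 * Real.pi * Complex.I : ℂ) • 1) (fun _ => 0) N hN0 _
    fun t ht => ?_) (hδ3 N hδN)
  have ht' := hfin.mem_toFinset.1 ht
  refine ⟨fun i => ⟨?_, ?_⟩, fun hgood => ht'.2 ?_⟩
  · have := (ht'.1 i).1
    omega
  · have := (ht'.1 i).2
    omega
  · refine (statement_of hKf hgood).mono (hδ1 ?_)
    exact Finset.sup_le fun i _ => (ht'.1 i).2

end Pool.Agent.V11219.Per.Deg
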