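import Mathlib

/-!
Separately continuous real functions on a product: the cross-open and the cross-uniform topology.
-/

namespace Pool.Agent.V11219.SepCont

open Set Topology

universe u v

/-- The set `S(X × Y)` of separately continuous real-valued functions on `X × Y`, to be endowed with
the cross-open topology. -/
def SCro (X : Type u) (Y : Type v) [TopologicalSpace X] [TopologicalSpace Y] : Type (max u v) :=
  {s : X × Y → ℝ // (∀ x : X, Continuous fun y : Y => s (x, y)) ∧
    (∀ y : Y, Continuous fun x : X => s (x, y))}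

variable {X : Type u} {Y : Type v}

/-- The cross `cr{c} = (X × {c.2}) ∪ ({c.1} × Y)` of a point `c` of `X × Y`. -/
def cross (c : X × Y) : Set (X × Y) := {p | p.2 = c.2} ∪ {p | p.1 = c.1}

/-- The set `S(X × Y)` of separately continuous real-valued functions on `X × Y`, to be endowed with
the cross-uniform topology. -/
def SCru (X : Type u) (Y : Type v) [TopologicalSpace X] [TopologicalSpace Y] : Type (max u v) :=
  {s : X × Y → ℝ // (∀ x : X, Continuous fun y : Y => s (x, y)) ∧
    (∀ y : Y, Continuous fun x : X => s (x, y))}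

/-- The cross-open topology: it is generated by the sets `{s | s(A) ⊆ W}` where `W ⊆ ℝ` is open and
`A = closure (G ∩ C) ∩ C` with `C = cross c` for some `c` and `G` open in `X × Y`
(so that `G ∩ C` is an arbitrary relatively open subset of the cross `C`). -/
instance crossOpenTopology [TopologicalSpace X] [TopologicalSpace Y] :
    TopologicalSpace (SCro X Y) :=
  TopologicalSpace.generateFrom
    {B | ∃ (c : X × Y) (G : Set (X × Y)) (W : Set ℝ), IsOpen G ∧ IsOpen W ∧
      B = {s : SCro X Y | ∀ p ∈ closure (G ∩ cross c) ∩ cross c, s.1 p ∈ W}}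

/-- The extended pseudometric `d_c(s, t) = sup {|s p - t p| : p ∈ cross c}` (a supremum in
`[0, ∞]`). -/
noncomputable def crossDist [TopologicalSpace X] [TopologicalSpace Y] (c : X × Y)
    (s t : SCru X Y) : ENNReal :=
  ⨆ p ∈ cross c, edist (s.1 p) (t.1 p)

/-- The cross-uniform topology: it is generated by all open balls of the extended pseudometrics
`crossDist c`, `c ∈ X × Y`. -/
instance crossUniformTopology [TopologicalSpace X] [TopologicalSpace Y] :
    TopologicalSpace (SCru X Y) :=
  TopologicalSpace.generateFrom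
    {B | ∃ (c : X × Y) (s : SCru X Y) (ε : ENNReal), B = {t : SCru X Y | crossDist c s t < ε}}

variable [TopologicalSpace X] [TopologicalSpace Y]

/-- A separately continuous function is continuous on every cross. -/
lemma continuousOn_cross [T1Space X] [T1Space Y] (s : SCro X Y) (c : X × Y) :
    ContinuousOn s.1 (cross c) := by
  have h1 : ContinuousOn s.1 {p : X × Y | p.2 = c.2} := by
    have : ContinuousOn (fun p : X × Y => s.1 (p.1, c.2)) {p : X × Y | p.2 = c.2} :=
      ((s.2.2 c.2).comp continuous_fst).continuousOn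
    refine this.congr ?_
    rintro ⟨x, y⟩ hy
    have : y = c.2 := hy
    simp [this]
  have h2 : ContinuousOn s.1 {p : X × Y | p.1 = c.1} := by
    have : ContinuousOn (fun p : X × Y => s.1 (c.1, p.2)) {p : X × Y | p.1 = c.1} :=
      ((s.2.1 c.1).comp continuous_snd).continuousOn
    refine this.congr ?_
    rintro ⟨x, y⟩ hx
    have : x = c.1 := hx
    simp [this]
  refine h1.union_of_isClosed h2 ?_ ?_
  · exact (isClosed_singleton (x := c.2)).preimage continuous_snd
  · exact (isClosed_singleton (x := c.1)).preimage continuous_fst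

/-- Evaluations are continuous: the cross-open topology is finer than the pointwise one. -/
lemma continuous_eval [T1Space X] [T1Space Y] (p : X × Y) :
    Continuous fun s : SCro X Y => s.1 p := by
  refine continuous_iff_continuousAt.2 fun s => ?_
  refine Filter.tendsto_def.2 fun N hN => ?_
  obtain ⟨V, hVN, hVo, hsV⟩ := mem_nhds_iff.1 hN
  obtain ⟨K', hK', hKc', hKN'⟩ := exists_mem_nhds_isClosed_subset (hVo.mem_nhds hsV)
  obtain ⟨V', hVK', hVo', hsV'⟩ := mem_nhds_iff.1 hK'
  -- the relatively open set of the cross where `s` takes values in `V'`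
  have hc := continuousOn_cross s p
  obtain ⟨G, hG, hGeq⟩ := (continuousOn_iff'.1 hc) V' hVo'
  have hpc : p ∈ cross p := Or.inl rfl
  have hpG : p ∈ G := by
    have : p ∈ s.1 ⁻¹' V' ∩ cross p := ⟨hsV', hpc⟩
    rw [hGeq] at this
    exact this.1
  refine mem_nhds_iff.2 ⟨{t : SCro X Y | ∀ q ∈ closure (G ∩ cross p) ∩ cross p, t.1 q ∈ V},
    ?_, ?_, ?_⟩
  · intro t ht
    have := ht p ⟨subset_closure ⟨hpG, hpc⟩, hpc⟩
    exact hVN this
  · exact TopologicalSpace.isOpen_generateFrom_of_mem ⟨p, G, V, hG, hVo, rfl⟩
  · rintro q ⟨hq1, hq2⟩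
    apply hKN'
    have h3 : ContinuousWithinAt s.1 (G ∩ cross p) q :=
      (hc q hq2).mono Set.inter_subset_right
    have h4 : Set.MapsTo s.1 (G ∩ cross p) K' := by
      intro r hr
      rw [← hGeq] at hr
      exact hVK' hr.1
    have := h3.mem_closure hq1 h4
    rwa [hKc'.closure_eq] at this

/-- The values on a product of two dense sets determine a separately continuous function. -/
lemma eq_of_eqOn_dense {DX : Set X} {DY : Set Y} (hDX : Dense DX) (hDY : Dense DY)
    {s t : SCro X Y} (h : ∀ x ∈ DX, ∀ y ∈ DY, s.1 (x, y) = t.1 (x, y)) : s = t := by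
  have h1 : ∀ x ∈ DX, ∀ y, s.1 (x, y) = t.1 (x, y) := by
    intro x hx y
    have := Continuous.ext_on hDY (s.2.1 x) (t.2.1 x) (fun y hy => h x hx y hy)
    exact congrFun this y
  apply Subtype.ext
  funext ⟨x, y⟩
  have := Continuous.ext_on hDX (s.2.2 y) (t.2.2 y) (fun x hx => h1 x hx y)
  exact congrFun this x

/-- Evaluations are continuous for the cross-uniform topology. -/
lemma continuous_eval_cru (p : X × Y) : Continuous fun s : SCru X Y => s.1 p := by
  refine continuous_iff_continuousAt.2 fun s => ?_
  refine EMetric.tendsto_nhds.2 fun ε hε => ?_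
  have hopen : IsOpen {t : SCru X Y | crossDist p s t < ε} :=
    TopologicalSpace.isOpen_generateFrom_of_mem ⟨p, s, ε, rfl⟩
  have hmem : s ∈ {t : SCru X Y | crossDist p s t < ε} := by
    have : crossDist p s s = 0 := by simp [crossDist]
    simpa [this] using hε
  filter_upwards [hopen.mem_nhds hmem] with t ht
  have hpc : p ∈ cross p := Or.inl rfl
  have h1 : edist (s.1 p) (t.1 p) ≤ crossDist p s t :=
    le_iSup₂ (f := fun (q : X × Y) (_ : q ∈ cross p) => edist (s.1 q) (t.1 q)) p hpc
  rw [edist_comm]
  exact lt_of_le_of_lt h1 ht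

/-- The values on a product of two dense sets determine a separately continuous function. -/
lemma eq_of_eqOn_dense_cru {DX : Set X} {DY : Set Y} (hDX : Dense DX) (hDY : Dense DY)
    {s t : SCru X Y} (h : ∀ x ∈ DX, ∀ y ∈ DY, s.1 (x, y) = t.1 (x, y)) : s = t := by
  have h1 : ∀ x ∈ DX, ∀ y, s.1 (x, y) = t.1 (x, y) := by
    intro x hx y
    have := Continuous.ext_on hDY (s.2.1 x) (t.2.1 x) (fun y hy => h x hx y hy)
    exact congrFun this y
  apply Subtype.ext
  funext ⟨x, y⟩
  have := Continuous.ext_on hDX (s.2.2 y) (t.2.2 y) (fun x hx => h1 x hx y)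
  exact congrFun this x

/-- Compact subspaces of `S_cro(X × Y)` are metrizable for separable `T₁` spaces `X`, `Y`. -/
theorem metrizable_cro [T1Space X] [T1Space Y] [TopologicalSpace.SeparableSpace X]
    [TopologicalSpace.SeparableSpace Y] (K : Set (SCro X Y)) (hK : IsCompact K) :
    TopologicalSpace.MetrizableSpace K := by
  obtain ⟨DX, hDXc, hDX⟩ := TopologicalSpace.exists_countable_dense X
  obtain ⟨DY, hDYc, hDY⟩ := TopologicalSpace.exists_countable_dense Y
  have : Countable DX := hDXc.to_subtype
  have : Countable DY := hDYc.to_subtype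
  let Φ : K → (DX × DY → ℝ) := fun s d => s.1.1 (d.1.1, d.2.1)
  have hΦ : Continuous Φ :=
    continuous_pi fun d => (continuous_eval (d.1.1, d.2.1)).comp continuous_subtype_val
  have hinj : Function.Injective Φ := by
    intro s t hst
    apply Subtype.ext
    refine eq_of_eqOn_dense hDX hDY fun x hx y hy => ?_
    exact congrFun hst (⟨x, hx⟩, ⟨y, hy⟩)
  have : CompactSpace K := isCompact_iff_compactSpace.1 hK
  exact (hΦ.isClosedEmbedding hinj).isEmbedding.metrizableSpace

/-- Compact subspaces of `S_cru(X × Y)` are metrizable for separable spaces `X`, `Y`. -/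
theorem metrizable_cru [TopologicalSpace.SeparableSpace X]
    [TopologicalSpace.SeparableSpace Y] (K : Set (SCru X Y)) (hK : IsCompact K) :
    TopologicalSpace.MetrizableSpace K := by
  obtain ⟨DX, hDXc, hDX⟩ := TopologicalSpace.exists_countable_dense X
  obtain ⟨DY, hDYc, hDY⟩ := TopologicalSpace.exists_countable_dense Y
  have : Countable DX := hDXc.to_subtype
  have : Countable DY := hDYc.to_subtype
  let Φ : K → (DX × DY → ℝ) := fun s d => s.1.1 (d.1.1, d.2.1)
  have hΦ : Continuous Φ :=
    continuous_pi fun d => (continuous_eval_cru (d.1.1, d.2.1)).comp continuous_subtype_val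
  have hinj : Function.Injective Φ := by
    intro s t hst
    apply Subtype.ext
    refine eq_of_eqOn_dense_cru hDX hDY fun x hx y hy => ?_
    exact congrFun hst (⟨x, hx⟩, ⟨y, hy⟩)
  have : CompactSpace K := isCompact_iff_compactSpace.1 hK
  exact (hΦ.isClosedEmbedding hinj).isEmbedding.metrizableSpace

/-- The functions on `ℝ` with values in `{0, 1}` that have at most one nonzero value: this is the
one-point compactification of an uncountable discrete space. -/
def Spikes : Set (ℝ → ℝ) :=
  {f | (∀ x, f x ∈ ({0, 1} : Set ℝ)) ∧ ∀ x y, x ≠ y → f x * f y = 0}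

lemma isCompact_spikes : IsCompact Spikes := by
  have h1 : IsCompact (Set.pi Set.univ fun _ : ℝ => ({0, 1} : Set ℝ)) :=
    isCompact_univ_pi fun _ => (Set.toFinite _).isCompact
  have h2 : IsClosed {f : ℝ → ℝ | ∀ x y, x ≠ y → f x * f y = 0} := by
    simp only [Set.setOf_forall]
    refine isClosed_iInter fun x => isClosed_iInter fun y => isClosed_iInter fun _ => ?_
    exact isClosed_eq ((continuous_apply x).mul (continuous_apply y)) continuous_const
  have : Spikes = (Set.pi Set.univ fun _ : ℝ => ({0, 1} : Set ℝ)) ∩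
      {f : ℝ → ℝ | ∀ x y, x ≠ y → f x * f y = 0} := by
    ext f
    simp [Spikes]
  rw [this]
  exact h1.inter_right h2

lemma spike_mem (x : ℝ) : (Pi.single x 1 : ℝ → ℝ) ∈ Spikes := by
  classical
  refine ⟨fun y => ?_, fun y z hyz => ?_⟩
  · by_cases h : y = x
    · subst h; simp
    · simp [Pi.single_eq_of_ne h]
  · by_cases h : y = x
    · subst h
      simp [Pi.single_eq_of_ne hyz.symm]
    · simp [Pi.single_eq_of_ne h]

lemma not_metrizable_spikes : ¬ TopologicalSpace.MetrizableSpace Spikes := by
  intro hm
  have : CompactSpace Spikes := isCompact_iff_compactSpace.1 isCompact_spikes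
  let U : ℝ → Set Spikes := fun x => {f | (1 / 2 : ℝ) < f.1 x}
  have hU : ∀ x, IsOpen (U x) := fun x =>
    isOpen_lt continuous_const ((continuous_apply x).comp continuous_subtype_val)
  have hne : ∀ x, (U x).Nonempty := fun x => ⟨⟨Pi.single x 1, spike_mem x⟩, by
    simp [U]; norm_num⟩
  have hdisj : Pairwise (Function.onFun Disjoint U) := by
    intro x y hxy
    refine Set.disjoint_left.2 fun f hfx hfy => ?_
    have h1 : (1 / 2 : ℝ) < f.1 x := hfx
    have h2 : (1 / 2 : ℝ) < f.1 y := hfy
    have h3 := f.2.2 x y hxy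
    nlinarith
  letI := TopologicalSpace.metrizableSpaceMetric Spikes
  have hc : Countable ℝ := by
    have := Set.PairwiseDisjoint.countable_of_isOpen (s := U) (a := Set.univ)
      (fun x _ y _ h => hdisj h) (fun x _ => hU x) (fun x _ => hne x)
    exact Set.countable_univ_iff.1 this
  exact Cardinal.not_countable_real (Set.countable_univ_iff.2 hc)

/-- Every member of `Spikes` is a pointwise limit of continuous functions. -/
lemma baireOne_spikes {f : ℝ → ℝ} (hf : f ∈ Spikes) :
    ∃ g : ℕ → ℝ → ℝ, (∀ n, Continuous (g n)) ∧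
      ∀ x, Filter.Tendsto (fun n => g n x) Filter.atTop (𝓝 (f x)) := by
  by_cases h : ∃ a, f a ≠ 0
  · obtain ⟨a, ha⟩ := h
    have ha1 : f a = 1 := by
      rcases hf.1 a with h | h
      · exact absurd h ha
      · exact h
    refine ⟨fun n x => max 0 (1 - n * |x - a|), fun n => by fun_prop, fun x => ?_⟩
    by_cases hx : x = a
    · subst hx
      simp [ha1]
    · have hfx : f x = 0 := by
        have := hf.2 x a hx
        rw [ha1, mul_one] at this
        exact this
      rw [hfx]
      have hpos : 0 < |x - a| := abs_pos.2 (sub_ne_zero.2 hx)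
      obtain ⟨N, hN⟩ := exists_nat_gt (1 / |x - a|)
      refine tendsto_const_nhds.congr' ?_
      filter_upwards [Filter.eventually_ge_atTop N] with n hn
      have h1 : (1 : ℝ) < n * |x - a| := by
        have : (1 / |x - a| : ℝ) < n := lt_of_lt_of_le hN (by exact_mod_cast hn)
        rwa [div_lt_iff₀ hpos] at this
      rw [max_eq_left]
      linarith
  · push_neg at h
    exact ⟨fun _ _ => 0, fun _ => continuous_const, fun x => by simp [h x]⟩

end Pool.Agent.V11219.SepCont
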