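import Mathlib

/-!
Set-self-Tietze spaces and a product theorem: if `P` has a point that is not a `G_δ` and `Q` is an
infinite compact Hausdorff space, then `P × Q` is not set-self-Tietze.
-/

namespace Pool.Agent.V11219.SetTietze

open Set Topology Filter

universe u v

/-- A set-valued map `F` is upper semi-continuous if `{y | F y ⊆ U}` is open for every open `U`. -/
def USC {Y : Type u} {X : Type v} [TopologicalSpace Y] [TopologicalSpace X] (F : Y → Set X) :
    Prop :=
  ∀ U : Set X, IsOpen U → IsOpen {y | F y ⊆ U}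

/-- `X` is set-self-Tietze: for every closed `A ⊆ X`, every upper semi-continuous map `f` from `A`
to the nonempty closed subsets of `X` extends to an upper semi-continuous map `F` from `X` to the
nonempty closed subsets of `X`. -/
def SetSelfTietze (X : Type u) [TopologicalSpace X] : Prop :=
  ∀ A : Set X, IsClosed A → ∀ f : A → Set X, (∀ a, IsClosed (f a) ∧ (f a).Nonempty) → USC f →
    ∃ F : X → Set X, (∀ x, IsClosed (F x) ∧ (F x).Nonempty) ∧ USC F ∧ ∀ a : A, F a = f a

section

variable {P : Type u} {Q : Type v} [TopologicalSpace P] [TopologicalSpace Q]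

/-- General obstruction. -/
theorem not_setSelfTietze_prod [T1Space P] [T2Space Q] [CompactSpace Q] (p₀ : P)
    (hp₀ : ∀ V : ℕ → Set P, (∀ n, V n ∈ 𝓝 p₀) → ∃ p, p ≠ p₀ ∧ ∀ n, p ∈ V n)
    (q : ℕ → Q) (q₀ : Q) (hq₀ : ∀ n, q n ≠ q₀) (W : ℕ → Set Q) (hWo : ∀ n, IsOpen (W n))
    (hqW : ∀ n, q n ∈ W n) (hWd : ∀ m n, m ≠ n → Disjoint (W m) (W n))
    (hcl : ∀ N ∈ 𝓝 q₀, ∃ n, n ≠ 0 ∧ q n ∈ N) : ¬ SetSelfTietze (P × Q) := by
  classical
  intro hST
  let A : Set (P × Q) := {x | x.1 = p₀ ∨ x.2 = q₀}
  have hA : IsClosed A :=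
    (isClosed_singleton.preimage continuous_fst).union (isClosed_singleton.preimage continuous_snd)
  let f : A → Set (P × Q) := fun a =>
    if a.1.1 = p₀ then (if a.1.2 = q₀ then {x | x.1 = p₀} else {a.1}) else {(a.1.1, q 0)}
  have hf : ∀ a, IsClosed (f a) ∧ (f a).Nonempty := by
    intro a
    simp only [f]
    split_ifs with h1 h2
    · exact ⟨isClosed_singleton.preimage continuous_fst, ⟨(p₀, q₀), rfl⟩⟩
    · exact ⟨isClosed_singleton, singleton_nonempty _⟩
    · exact ⟨isClosed_singleton, singleton_nonempty _⟩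
  have hffst : ∀ a : A, ∀ x ∈ f a, x.1 = a.1.1 := by
    intro a x hx
    simp only [f] at hx
    split_ifs at hx with h1 h2
    · rw [h1]; exact hx
    · rw [mem_singleton_iff.1 hx]
    · rw [mem_singleton_iff.1 hx]
  have husc : USC f := by
    intro U hU
    rw [isOpen_iff_mem_nhds]
    intro a ha
    by_cases h1 : a.1.1 = p₀
    · by_cases h2 : a.1.2 = q₀
      · -- the corner
        have hsub : {x : P × Q | x.1 = p₀} ⊆ U := by
          have : f a ⊆ U := ha
          simpa [f, h1, h2] using this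
        let V : Set P := {p | ∀ y : Q, (p, y) ∈ U}
        have hV : IsOpen V := by
          have h3 : IsClosed (Prod.fst '' (Uᶜ : Set (P × Q))) :=
            isClosedMap_fst_of_compactSpace _ hU.isClosed_compl
          have h4 : V = (Prod.fst '' (Uᶜ : Set (P × Q)))ᶜ := by
            ext p
            simp only [V, mem_setOf_eq, mem_compl_iff, mem_image, Prod.exists, exists_and_right,
              exists_eq_right, not_exists, not_not]
          rw [h4]
          exact h3.isOpen_compl
        have h5 : a.1.1 ∈ V := fun y => hsub h1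
        have h6 : {b : A | b.1.1 ∈ V} ∈ 𝓝 a :=
          (hV.preimage (continuous_fst.comp continuous_subtype_val)).mem_nhds h5
        filter_upwards [h6] with b hb x hx
        have := hffst b x hx
        have h7 : b.1.1 ∈ V := hb
        rw [← this] at h7
        exact h7 x.2
      · have hsub : a.1 ∈ U := by
          have : f a ⊆ U := ha
          simpa [f, h1, h2] using this
        have h6 : {b : A | b.1.2 ≠ q₀ ∧ b.1 ∈ U} ∈ 𝓝 a := by
          refine IsOpen.mem_nhds ?_ ⟨h2, hsub⟩
          exact (isOpen_ne.preimage (continuous_snd.comp continuous_subtype_val)).inter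
            (hU.preimage continuous_subtype_val)
        filter_upwards [h6] with b hb
        have h7 : b.1.1 = p₀ := by
          rcases b.2 with h | h
          · exact h
          · exact absurd h hb.1
        have : f b = {b.1} := by simp [f, h7, hb.1]
        show f b ⊆ U
        rw [this]
        exact singleton_subset_iff.2 hb.2
    · have hsub : (a.1.1, q 0) ∈ U := by
        have : f a ⊆ U := ha
        simpa [f, h1] using this
      have h6 : {b : A | b.1.1 ≠ p₀ ∧ (b.1.1, q 0) ∈ U} ∈ 𝓝 a := by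
        refine IsOpen.mem_nhds ?_ ⟨h1, hsub⟩
        refine (isOpen_ne.preimage (continuous_fst.comp continuous_subtype_val)).inter
          (hU.preimage ?_)
        exact (continuous_fst.comp continuous_subtype_val).prodMk continuous_const
      filter_upwards [h6] with b hb
      have : f b = {(b.1.1, q 0)} := by simp [f, hb.1]
      show f b ⊆ U
      rw [this]
      exact singleton_subset_iff.2 hb.2
  obtain ⟨F, hF, hFusc, hFf⟩ := hST A hA f hf husc
  -- near `(p₀, q n)` the values of `F` lie in the strip over `W n`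
  have hstrip : ∀ n, {p : P | F (p, q n) ⊆ {x | x.2 ∈ W n}} ∈ 𝓝 p₀ := by
    intro n
    have h1 : F (p₀, q n) = {(p₀, q n)} := by
      have := hFf ⟨(p₀, q n), Or.inl rfl⟩
      rw [this]
      simp [f, hq₀ n]
    have h2 : IsOpen {y : P × Q | F y ⊆ {x | x.2 ∈ W n}} :=
      hFusc _ ((hWo n).preimage continuous_snd)
    have h3 : (p₀, q n) ∈ {y : P × Q | F y ⊆ {x | x.2 ∈ W n}} := by
      show F (p₀, q n) ⊆ _
      rw [h1]
      exact singleton_subset_iff.2 (hqW n)
    have h4 : Continuous fun p : P => (p, q n) := by fun_prop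
    exact (h2.preimage h4).mem_nhds h3
  obtain ⟨p, hp, hpV⟩ := hp₀ _ hstrip
  have h1 : F (p, q₀) = {(p, q 0)} := by
    have := hFf ⟨(p, q₀), Or.inr rfl⟩
    rw [this]
    simp [f, hp]
  have h2 : IsOpen {y : P × Q | F y ⊆ {x | x.2 ∈ W 0}} :=
    hFusc _ ((hWo 0).preimage continuous_snd)
  have h3 : (p, q₀) ∈ {y : P × Q | F y ⊆ {x | x.2 ∈ W 0}} := by
    show F (p, q₀) ⊆ _
    rw [h1]
    exact singleton_subset_iff.2 (hqW 0)
  have h4 : Continuous fun y : Q => (p, y) := by fun_prop
  obtain ⟨n, hn, hnN⟩ := hcl _ ((h2.preimage h4).mem_nhds h3)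
  obtain ⟨x, hx⟩ := (hF (p, q n)).2
  exact Set.disjoint_left.1 (hWd n 0 hn) (hpV n hx) (hnN hx)

/-- If `P` is a `T₁` space with a point that is not a `G_δ`, and `Q` is an infinite compact
Hausdorff space, then `P × Q` is not set-self-Tietze. -/
theorem not_setSelfTietze_prod_of_infinite [T1Space P] [T2Space Q] [CompactSpace Q] [Infinite Q]
    (p₀ : P) (hp₀ : ∀ V : ℕ → Set P, (∀ n, V n ∈ 𝓝 p₀) → ∃ p, p ≠ p₀ ∧ ∀ n, p ∈ V n) :
    ¬ SetSelfTietze (P × Q) := by
  obtain ⟨U, hUi, hUo, hUd⟩ := exists_seq_infinite_isOpen_pairwise_disjoint Q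
  choose q hq using fun n => (hUi n).nonempty
  obtain ⟨q₀, hq₀⟩ := exists_clusterPt_of_compactSpace (Filter.map q Filter.atTop)
  have hfreq : ∀ N ∈ 𝓝 q₀, ∃ᶠ n in Filter.atTop, q n ∈ N :=
    mapClusterPt_iff_frequently.1 hq₀
  have hnotin : ∀ n, q₀ ∉ U n := by
    intro n hn
    have := (hfreq (U n) ((hUo n).mem_nhds hn)).and_eventually (eventually_gt_atTop n)
    obtain ⟨m, hm, hmn⟩ := this.exists
    exact Set.disjoint_left.1 (hUd (ne_of_gt hmn)) (hq m) hm
  refine not_setSelfTietze_prod p₀ hp₀ q q₀ (fun n h => hnotin n (h ▸ hq n)) U hUo hq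
    (fun m n h => hUd h) ?_
  intro N hN
  have := (hfreq N hN).and_eventually (eventually_gt_atTop 0)
  obtain ⟨m, hm, hmn⟩ := this.exists
  exact ⟨m, hmn.ne', hm⟩

end

end Pool.Agent.V11219.SetTietze
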