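import Mathlib

/-!
# Transcendence degree in bounded degree from tangent vectors
-/

set_option linter.unusedSectionVars false
set_option linter.unusedVariables false

open Module

namespace Pool.Agent.V11219.Td

variable {I : Type} [Fintype I] [DecidableEq I]

/-- The derivative of a polynomial along a vector. -/
noncomputable def dv (c τ : I → ℂ) (F : MvPolynomial I ℂ) : ℂ :=
  ∑ i, MvPolynomial.eval c (MvPolynomial.pderiv i F) * τ i

theorem dv_add (c : I → ℂ) (F : MvPolynomial I ℂ) (τ τ' : I → ℂ) :
    dv c (τ + τ') F = dv c τ F + dv c τ' F := by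
  rw [dv, dv, dv, ← Finset.sum_add_distrib]
  refine Finset.sum_congr rfl fun i _ => ?_
  rw [Pi.add_apply, mul_add]

theorem dv_smul (c : I → ℂ) (F : MvPolynomial I ℂ) (a : ℂ) (τ : I → ℂ) :
    dv c (a • τ) F = a * dv c τ F := by
  rw [dv, dv, Finset.mul_sum]
  refine Finset.sum_congr rfl fun i _ => ?_
  rw [Pi.smul_apply, smul_eq_mul]
  ring

theorem dv_span {c : I → ℂ} {F : MvPolynomial I ℂ} {S : Set (I → ℂ)}
    (h : ∀ τ ∈ S, dv c τ F = 0) : ∀ τ ∈ Submodule.span ℂ S, dv c τ F = 0 := by
  intro τ hτ
  induction hτ using Submodule.span_induction with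
  | mem x hx => exact h x hx
  | zero =>
    rw [dv]
    exact Finset.sum_eq_zero fun i _ => by rw [Pi.zero_apply, mul_zero]
  | add x y _ _ hx hy => rw [dv_add, hx, hy, add_zero]
  | smul a x _ hx => rw [dv_smul, hx, mul_zero]

/-- The chain rule. -/
theorem chain (E : I → Polynomial ℂ) (F : MvPolynomial I ℂ) (s : ℂ) :
    (Polynomial.derivative (MvPolynomial.aeval E F : Polynomial ℂ)).eval s =
      dv (fun i => (E i).eval s) (fun i => (Polynomial.derivative (E i)).eval s) F := by
  have hev : ∀ G : MvPolynomial I ℂ, (MvPolynomial.aeval E G : Polynomial ℂ).eval s =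
      MvPolynomial.eval (fun i => (E i).eval s) G := by
    intro G
    induction G using MvPolynomial.induction_on with
    | C a => simp
    | add p q hp hq => rw [map_add, Polynomial.eval_add, hp, hq, map_add]
    | mul_X p b hp => rw [map_mul, Polynomial.eval_mul, hp, map_mul, MvPolynomial.aeval_X,
        MvPolynomial.eval_X]
  induction F using MvPolynomial.induction_on with
  | C a =>
    rw [dv]
    simp
  | add p q hp hq =>
    rw [map_add, Polynomial.derivative_add, Polynomial.eval_add, hp, hq, dv, dv, dv,
      ← Finset.sum_add_distrib]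
    refine Finset.sum_congr rfl fun i _ => ?_
    rw [map_add, map_add, add_mul]
  | mul_X p b hp =>
    have h1 : dv (fun i => (E i).eval s) (fun i => (Polynomial.derivative (E i)).eval s)
        (p * MvPolynomial.X b) = dv (fun i => (E i).eval s)
          (fun i => (Polynomial.derivative (E i)).eval s) p * (E b).eval s +
        MvPolynomial.eval (fun i => (E i).eval s) p * (Polynomial.derivative (E b)).eval s := by
      rw [dv, dv, Finset.sum_mul]
      have h2 : ∀ i, MvPolynomial.eval (fun i => (E i).eval s)
          (MvPolynomial.pderiv i (p * MvPolynomial.X b)) * (Polynomial.derivative (E i)).eval s =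
          MvPolynomial.eval (fun i => (E i).eval s) (MvPolynomial.pderiv i p) *
            (Polynomial.derivative (E i)).eval s * (E b).eval s +
          (if i = b then MvPolynomial.eval (fun i => (E i).eval s) p *
            (Polynomial.derivative (E b)).eval s else 0) := by
        intro i
        rw [MvPolynomial.pderiv_mul, map_add, map_mul, map_mul, MvPolynomial.eval_X,
          MvPolynomial.pderiv_X]
        by_cases hib : i = b
        · subst hib
          rw [Pi.single_eq_same, map_one, if_pos rfl]
          ring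
        · rw [Pi.single_eq_of_ne (Ne.symm hib), map_zero, if_neg hib]
          ring
      rw [Finset.sum_congr rfl fun i _ => h2 i, Finset.sum_add_distrib, Finset.sum_ite_eq',
        if_pos (Finset.mem_univ b)]
    rw [map_mul, Polynomial.derivative_mul, MvPolynomial.aeval_X, Polynomial.eval_add,
      Polynomial.eval_mul, Polynomial.eval_mul, hp, h1, hev]

/-- A polynomial which vanishes on a curve has derivative zero along the tangent vector. -/
theorem dv_curve {F : MvPolynomial I ℂ} (E : I → Polynomial ℂ)
    (h : ∀ s : ℂ, MvPolynomial.eval (fun i => (E i).eval s) F = 0) (s : ℂ) :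
    dv (fun i => (E i).eval s) (fun i => (Polynomial.derivative (E i)).eval s) F = 0 := by
  have hev : (MvPolynomial.aeval E F : Polynomial ℂ) = 0 := by
    refine Polynomial.funext fun x => ?_
    rw [Polynomial.eval_zero, ← h x]
    have : ∀ G : MvPolynomial I ℂ, (MvPolynomial.aeval E G : Polynomial ℂ).eval x =
        MvPolynomial.eval (fun i => (E i).eval x) G := by
      intro G
      induction G using MvPolynomial.induction_on with
      | C a => simp
      | add p q hp hq => rw [map_add, Polynomial.eval_add, hp, hq, map_add]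
      | mul_X p b hp => rw [map_mul, Polynomial.eval_mul, hp, map_mul, MvPolynomial.aeval_X,
          MvPolynomial.eval_X]
    exact this F
  rw [← chain, hev, Polynomial.derivative_zero, Polynomial.eval_zero]

/-- A polynomial which vanishes on a line. -/
theorem dv_line {F : MvPolynomial I ℂ} {c τ : I → ℂ}
    (h : ∀ s : ℂ, MvPolynomial.eval (c + s • τ) F = 0) : dv c τ F = 0 := by
  have h1 := dv_curve (F := F) (fun i => Polynomial.C (c i) + Polynomial.X * Polynomial.C (τ i))
    (fun s => by
      have h2 : (fun i => (Polynomial.C (c i) + Polynomial.X * Polynomial.C (τ i)).eval s) =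
          c + s • τ := by
        funext i
        rw [Polynomial.eval_add, Polynomial.eval_C, Polynomial.eval_mul, Polynomial.eval_X,
          Polynomial.eval_C, Pi.add_apply, Pi.smul_apply, smul_eq_mul]
      rw [h2]
      exact h s) 0
  have h2 : (fun i => (Polynomial.C (c i) + Polynomial.X * Polynomial.C (τ i)).eval 0) = c := by
    funext i
    simp
  have h3 : (fun i => (Polynomial.derivative
      (Polynomial.C (c i) + Polynomial.X * Polynomial.C (τ i))).eval 0) = τ := by
    funext i
    simp
  rwa [h2, h3] at h1

/-- Coordinates of a subspace. -/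
theorem exists_coord (T : Submodule ℂ (I → ℂ)) : ∃ V : Finset I, V.card = finrank ℂ T ∧
    ∀ y : V → ℂ, ∃ τ ∈ T, ∀ v : V, τ v = y v := by
  classical
  set φ : I → Module.Dual ℂ T := fun i => (LinearMap.proj i).comp T.subtype with hφ
  obtain ⟨κ, a, ha, hsp, hli⟩ := exists_linearIndependent' ℂ φ
  have : Finite κ := Finite.of_injective a ha
  have := Fintype.ofFinite κ
  -- the map
  let Φ : T →ₗ[ℂ] (κ → ℂ) := LinearMap.pi fun k => φ (a k)
  have hinj : Function.Injective Φ := by
    rw [injective_iff_map_eq_zero]
    intro τ hτ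
    have h1 : ∀ ψ ∈ Submodule.span ℂ (Set.range (φ ∘ a)), ψ τ = 0 := by
      intro ψ hψ
      induction hψ using Submodule.span_induction with
      | mem x hx =>
        obtain ⟨k, rfl⟩ := hx
        exact congrFun hτ k
      | zero => rfl
      | add x y _ _ hx hy => rw [LinearMap.add_apply, hx, hy, add_zero]
      | smul b x _ hx => rw [LinearMap.smul_apply, hx, smul_zero]
    apply Subtype.ext
    funext i
    have h2 := h1 (φ i) (by rw [hsp]; exact Submodule.subset_span ⟨i, rfl⟩)
    exact h2
  have hcard : Fintype.card κ = finrank ℂ T := by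
    have h1 : Fintype.card κ ≤ finrank ℂ T := by
      have h2 := hli.fintype_card_le_finrank
      rwa [Subspace.dual_finrank_eq] at h2
    have h2 : finrank ℂ T ≤ Fintype.card κ := by
      have h3 := LinearMap.finrank_le_finrank_of_injective hinj
      rwa [Module.finrank_fintype_fun_eq_card] at h3
    exact le_antisymm h1 h2
  have hsurj : Function.Surjective Φ := by
    have h1 : finrank ℂ T = finrank ℂ (κ → ℂ) := by
      rw [Module.finrank_fintype_fun_eq_card, hcard]
    exact (LinearMap.injective_iff_surjective_of_finrank_eq_finrank h1).1 hinj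
  refine ⟨Finset.univ.map ⟨a, ha⟩, ?_, fun y => ?_⟩
  · rw [Finset.card_map, Finset.card_univ, hcard]
  · obtain ⟨τ, hτ⟩ := hsurj fun k => y ⟨a k, Finset.mem_map.2 ⟨k, Finset.mem_univ _, rfl⟩⟩
    refine ⟨τ.1, τ.2, ?_⟩
    rintro ⟨v, hv⟩
    obtain ⟨k, -, rfl⟩ := Finset.mem_map.1 hv
    exact congrFun hτ k

/-- A polynomial all of whose derivatives are zero is constant. -/
theorem const_of_pderiv {J : Type} [Fintype J] [DecidableEq J] {F : MvPolynomial J ℂ}
    (h : ∀ j, MvPolynomial.pderiv j F = 0) : F = MvPolynomial.C (F.coeff 0) := by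
  ext s
  rw [MvPolynomial.coeff_C]
  by_cases hs : 0 = s
  · rw [if_pos hs, hs]
  rw [if_neg hs]
  obtain ⟨j, hj⟩ : ∃ j, s j ≠ 0 := by
    by_contra hcon
    push Not at hcon
    exact hs (Finsupp.ext fun j => (hcon j).symm)
  have h1 := congrArg (MvPolynomial.coeff (s - Finsupp.single j 1)) (h j)
  rw [MvPolynomial.coeff_zero] at h1
  have h2 : s - Finsupp.single j 1 + Finsupp.single j 1 = s := by
    refine Finsupp.ext fun i => ?_
    rw [Finsupp.add_apply, Finsupp.tsub_apply, Finsupp.single_apply]
    split_ifs with hij
    · subst hij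
      omega
    · omega
  have h3 : MvPolynomial.coeff (s - Finsupp.single j 1) (MvPolynomial.pderiv j F) =
      MvPolynomial.coeff s F * (s j : ℂ) := by
    rw [MvPolynomial.coeff_pderiv, h2]
    congr 1
    rw [Finsupp.tsub_apply, Finsupp.single_eq_same]
    have h4 : s j = (s j - 1) + 1 := by omega
    nth_rewrite 2 [h4]
    push_cast
    ring
  rw [h3] at h1
  rcases mul_eq_zero.1 h1 with h4 | h4
  · exact h4
  · exact absurd (Nat.cast_eq_zero.1 h4) hj

/-- **No relations between the coordinates.** -/
theorem no_rel {V : Finset I} {T : Submodule ℂ (I → ℂ)}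
    (hV : ∀ y : V → ℂ, ∃ τ ∈ T, ∀ v : V, τ v = y v) {c : I → ℂ} {S : Set ℂ}
    (hS : ∀ x ∈ S, ∀ n : ℕ, x * n ∈ S) {D : ℕ}
    (hT : ∀ F : MvPolynomial I ℂ, F.totalDegree ≤ D → (∀ s, F.coeff s ∈ S) →
      MvPolynomial.eval c F = 0 → ∀ τ ∈ T, dv c τ F = 0) (n : ℕ) :
    ∀ F : MvPolynomial V ℂ, F.totalDegree ≤ n → F.totalDegree ≤ D → (∀ s, F.coeff s ∈ S) →
      MvPolynomial.eval (fun v : V => c v) F = 0 → F = 0 := by
  classical
  induction n with
  | zero =>
    intro F hF0 _ _ hF
    rw [MvPolynomial.totalDegree_eq_zero_iff_eq_C.1 (Nat.le_zero.1 hF0)] at hF ⊢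
    rw [MvPolynomial.eval_C] at hF
    rw [hF, map_zero]
  | succ n ih =>
    intro F hFn hFD hFS hF
    have hS0 : (0 : ℂ) ∈ S := by
      have h1 := hS _ (hFS 0) 0
      rwa [Nat.cast_zero, mul_zero] at h1
    -- the derivatives vanish at the point
    have hren : ∀ s, (MvPolynomial.rename (Subtype.val : V → I) F).coeff s ∈ S := by
      intro s
      by_cases hs : ∃ u, Finsupp.mapDomain (Subtype.val : V → I) u = s
      · obtain ⟨u, rfl⟩ := hs
        rw [MvPolynomial.coeff_rename_mapDomain _ Subtype.val_injective]
        exact hFS u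
      · rw [MvPolynomial.coeff_rename_eq_zero _ _ _ fun u hu => absurd ⟨u, hu⟩ hs]
        exact hS0
    have h1 := hT (MvPolynomial.rename (Subtype.val : V → I) F)
      ((MvPolynomial.totalDegree_rename_le _ _).trans hFD) hren
      (by rw [MvPolynomial.eval_rename]; exact hF)
    have hpt : ∀ v : V, MvPolynomial.eval (fun v : V => c v) (MvPolynomial.pderiv v F) = 0 := by
      intro v
      obtain ⟨τ, hτ, hτv⟩ := hV (Pi.single v 1)
      have h2 := h1 τ hτ
      rw [dv, ← Finset.sum_subset (Finset.subset_univ V) (fun i _ hi => by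
        rw [MvPolynomial.pderiv_eq_zero_of_notMem_vars, map_zero, zero_mul]
        intro h3
        obtain ⟨u, -, hu⟩ := Finset.mem_image.1 (MvPolynomial.vars_rename _ _ h3)
        exact hi (by rw [← hu]; exact u.2)), ← Finset.sum_coe_sort] at h2
      have h3 : ∀ u : V, MvPolynomial.eval c (MvPolynomial.pderiv (u : I)
          (MvPolynomial.rename (Subtype.val : V → I) F)) * τ u =
          if u = v then MvPolynomial.eval (fun v : V => c v) (MvPolynomial.pderiv v F) else 0 := by
        intro u
        rw [MvPolynomial.pderiv_rename Subtype.val_injective, MvPolynomial.eval_rename, hτv,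
          Pi.single_apply]
        split_ifs with huv
        · rw [huv, mul_one]
          rfl
        · rw [mul_zero]
      rw [Finset.sum_congr rfl fun u _ => h3 u, Finset.sum_ite_eq', if_pos (Finset.mem_univ v)] at h2
      exact h2
    have hz : ∀ v : V, MvPolynomial.pderiv v F = 0 := by
      intro v
      have hdeg : ∀ m : ℕ, F.totalDegree ≤ m → (MvPolynomial.pderiv v F).totalDegree ≤ m - 1 := by
        intro m hm
        refine Finset.sup_le fun s hs => ?_
        rw [MvPolynomial.mem_support_iff, MvPolynomial.coeff_pderiv] at hs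
        have h4 : MvPolynomial.coeff (s + Finsupp.single v 1) F ≠ 0 := left_ne_zero_of_mul hs
        have h5 := (MvPolynomial.le_totalDegree (MvPolynomial.mem_support_iff.2 h4)).trans hm
        rw [Finsupp.sum_add_index' (fun _ => rfl) (fun _ _ _ => rfl),
          Finsupp.sum_single_index rfl] at h5
        omega
      refine ih _ (hdeg _ hFn) ((hdeg _ hFD).trans (Nat.sub_le _ _)) ?_ (hpt v)
      · intro s
        rw [MvPolynomial.coeff_pderiv]
        have h6 := hS _ (hFS (s + Finsupp.single v 1)) (s v + 1)
        push_cast at h6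
        exact h6
    rw [const_of_pderiv hz] at hF ⊢
    rw [MvPolynomial.eval_C] at hF
    rw [hF, map_zero]

end Pool.Agent.V11219.Td
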