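import Mathlib
import Pool.Agent.V11219.TdMain
import Pool.Agent.V11219.OmRel

/-!
# The transcendence degree in bounded degree of the periods of families of 1-motives
-/

set_option linter.unusedSectionVars false
set_option linter.unusedVariables false

open Matrix Module PowerSeries Filter

namespace Pool.Agent.V11219.Td

open Pool.Agent.V11219.Per Pool.Agent.V11219.Om Pool.Agent.Y123.GN

/-- The entries of the matrices `Z_i`. -/
abbrev Ent {k : ℕ} (n : Fin k → ℕ) : Type := Σ i, Fin (n i) × Fin (n i)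

/-- The values of the entries. -/
def en {k : ℕ} {n : Fin k → ℕ} (Z : ∀ i, Matrix (Fin (n i)) (Fin (n i)) ℂ) : Ent n → ℂ :=
  fun x => Z x.1 x.2.1 x.2.2

/-- The values of the polynomials over `K` of degree at most `d` at the entries of the matrix `C₀`. -/
def Coef {r : ℕ} (K : Subfield ℂ) (d : ℕ) (C₀ : Matrix (Fin r) (Fin r) ℂ) : Set ℂ :=
  {x | ∃ R : MvPolynomial (Fin r × Fin r) ℂ, R.totalDegree ≤ d ∧ (∀ s, R.coeff s ∈ K) ∧
    MvPolynomial.eval (fun b => C₀ b.1 b.2) R = x}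

theorem coef_nat {r : ℕ} {K : Subfield ℂ} {d : ℕ} {C₀ : Matrix (Fin r) (Fin r) ℂ} :
    ∀ x ∈ Coef K d C₀, ∀ n : ℕ, x * n ∈ Coef K d C₀ := by
  rintro x ⟨R, hd, hK, rfl⟩ n
  refine ⟨MvPolynomial.C (n : ℂ) * R, ?_, fun s => ?_, ?_⟩
  · refine (MvPolynomial.totalDegree_mul _ _).trans ?_
    rw [MvPolynomial.totalDegree_C, zero_add]
    exact hd
  · rw [MvPolynomial.coeff_C_mul]
    exact K.mul_mem (natCast_mem K n) (hK s)
  · rw [map_mul, MvPolynomial.eval_C, mul_comm]

section rel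

variable {k r : ℕ} {n : Fin k → ℕ} {K : Subfield ℂ} {d : ℕ} {C₀ : Matrix (Fin r) (Fin r) ℂ}
  {Z Y : ∀ i, Matrix (Fin (n i)) (Fin (n i)) ℂ}

/-- The indices of the entries of `C₀`. -/
def j1 {k r : ℕ} {n : Fin k → ℕ} (b : Fin r × Fin r) : IG (Fin r) n × IG (Fin r) n :=
  (Sum.inl b.1, Sum.inl b.2)

/-- The indices of the entries of the matrices. -/
def j2 {k r : ℕ} {n : Fin k → ℕ} (x : Ent n) : IG (Fin r) n × IG (Fin r) n :=
  (Sum.inr ⟨x.1, x.2.1⟩, Sum.inr ⟨x.1, x.2.2⟩)

theorem fl1 (C₀ : Matrix (Fin r) (Fin r) ℂ) (Y : ∀ i, Matrix (Fin (n i)) (Fin (n i)) ℂ) :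
    (Pool.Agent.Y123.ST.fl (EG C₀ Y)) ∘ j1 = fun b => C₀ b.1 b.2 := rfl

theorem fl2 (C₀ : Matrix (Fin r) (Fin r) ℂ) (Y : ∀ i, Matrix (Fin (n i)) (Fin (n i)) ℂ) :
    (Pool.Agent.Y123.ST.fl (EG C₀ Y)) ∘ j2 = en Y := by
  funext x
  obtain ⟨i, a, b⟩ := x
  change blockDiagonal' Y ⟨i, a⟩ ⟨i, b⟩ = Y i a b
  rw [blockDiagonal'_apply_eq]

/-- Relations whose coefficients are polynomials in the entries of `C₀`. -/
theorem rel_coef (hR : Rl K (d + d) (EG C₀ Z) (EG C₀ Y)) {F : MvPolynomial (Ent n) ℂ}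
    (hFd : F.totalDegree ≤ d) (hFc : ∀ s, F.coeff s ∈ Coef K d C₀)
    (hF : MvPolynomial.eval (en Z) F = 0) : MvPolynomial.eval (en Y) F = 0 := by
  classical
  choose R hRd hRK hRv using hFc
  have hR' : ∀ s, ∃ R' : MvPolynomial (Fin r × Fin r) K, MvPolynomial.map K.subtype R' = R s := by
    intro s
    have h1 : R s ∈ Set.range (MvPolynomial.map K.subtype) := by
      rw [MvPolynomial.mem_range_map_iff_coeffs_subset]
      intro x hx
      obtain ⟨u, -, hu⟩ := MvPolynomial.mem_coeffs_iff.1 hx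
      exact ⟨⟨x, by rw [hu]; exact hRK s u⟩, rfl⟩
    exact h1
  choose R' hR' using hR'
  set G' : MvPolynomial (IG (Fin r) n × IG (Fin r) n) K :=
    ∑ s ∈ F.support, MvPolynomial.rename j1 (R' s) *
      MvPolynomial.rename j2 (MvPolynomial.monomial s 1) with hG'
  set G := MvPolynomial.map K.subtype G' with hG
  have hGe : G = ∑ s ∈ F.support, MvPolynomial.rename j1 (R s) *
      MvPolynomial.rename j2 (MvPolynomial.monomial s 1) := by
    rw [hG, hG', map_sum]
    refine Finset.sum_congr rfl fun s _ => ?_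
    rw [map_mul, MvPolynomial.map_rename, MvPolynomial.map_rename, hR', MvPolynomial.map_monomial,
      map_one]
  have hGK : ∀ s, G.coeff s ∈ K := by
    intro s
    rw [hG, MvPolynomial.coeff_map]
    exact (MvPolynomial.coeff s G').2
  have hGd : G.totalDegree ≤ d + d := by
    rw [hGe]
    refine MvPolynomial.totalDegree_finsetSum_le fun s hs => ?_
    refine (MvPolynomial.totalDegree_mul _ _).trans (add_le_add ?_ ?_)
    · exact (MvPolynomial.totalDegree_rename_le _ _).trans (hRd s)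
    · refine (MvPolynomial.totalDegree_rename_le _ _).trans ?_
      refine (MvPolynomial.totalDegree_monomial_le _ _).trans ?_
      exact (MvPolynomial.le_totalDegree hs).trans hFd
  have hGv : ∀ Y : ∀ i, Matrix (Fin (n i)) (Fin (n i)) ℂ,
      MvPolynomial.eval (Pool.Agent.Y123.ST.fl (EG C₀ Y)) G = MvPolynomial.eval (en Y) F := by
    intro Y
    rw [hGe, map_sum, MvPolynomial.eval_eq']
    simp only [map_mul, MvPolynomial.eval_rename]
    rw [fl1, fl2]
    refine Finset.sum_congr rfl fun s _ => ?_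
    rw [hRv, MvPolynomial.eval_monomial, one_mul, Finsupp.prod_fintype _ _ fun i => pow_zero _]
  have h1 := hR G hGK hGd
  rw [hGv, hGv] at h1
  exact h1 hF

end rel

/-- Symmetric matrices which are block diagonal. -/
theorem sym_span {p q m : ℕ} {β : Fin p → Fin m} {γ : Fin q → Fin m}
    {B : Matrix (Fin p) (Fin p) ℂ} {S : Matrix (Fin p) (Fin p) ℂ} (hS : Sᵀ = S)
    (hSb : BlockDiagonal β S) :
    ext0 (S * B⁻¹) (0 : Matrix (Fin q) (Fin p) ℂ) ∈ Submodule.span ℂ (SE β γ B) := by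
  classical
  -- the linear map
  have key : ∀ v : Fin p → ℂ, ∀ j, Supp β j v →
      ext0 (nv B⁻¹ v) (0 : Matrix (Fin q) (Fin p) ℂ) ∈ Submodule.span ℂ (SE β γ B) := by
    intro v j hv
    refine Submodule.subset_span (Or.inl ⟨j, v, 1, hv, ?_⟩)
    rw [one_smul]
  have hro : ∀ a b, β a = β b → ext0 (ro B⁻¹ (Pi.single a 1) (Pi.single b 1) +
      ro B⁻¹ (Pi.single b 1) (Pi.single a 1)) (0 : Matrix (Fin q) (Fin p) ℂ) ∈
      Submodule.span ℂ (SE β γ B) := by
    intro a b hab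
    have h1 := key _ _ (supp_single (β := β) a 1)
    have h2 := key _ _ (supp_single (β := β) b 1)
    have h3 := key ((Pi.single a 1 : Fin p → ℂ) + Pi.single b 1) (β a) (by
      intro c hc
      rw [Pi.add_apply, supp_single (β := β) a 1 c hc,
        supp_single (β := β) b 1 c (by rw [← hab]; exact hc), add_zero])
    have h4 := Submodule.sub_mem _ (Submodule.sub_mem _ h3 h1) h2
    rw [← neg_add_eq_sub, ← neg_add_eq_sub, ← neg_one_smul ℂ (ext0 (nv B⁻¹ (Pi.single a 1)) _),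
      ← neg_one_smul ℂ (ext0 (nv B⁻¹ (Pi.single b 1)) _), ext0_smul, ext0_smul, ext0_add, ext0_add,
      Pool.Agent.V11219.Om.nv_add] at h4
    convert h4 using 2
    · module
    · module
  -- the sum
  have hsum : ∀ {κ : Type} (F : Finset κ) (f : κ → Matrix (Fin p) (Fin p) ℂ),
      (∀ i ∈ F, ext0 (f i) (0 : Matrix (Fin q) (Fin p) ℂ) ∈ Submodule.span ℂ (SE β γ B)) →
      ext0 (∑ i ∈ F, f i) (0 : Matrix (Fin q) (Fin p) ℂ) ∈ Submodule.span ℂ (SE β γ B) := by
    intro κ F f hF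
    induction F using Finset.induction_on with
    | empty =>
      rw [Finset.sum_empty, ext0_zero]
      exact Submodule.zero_mem _
    | insert i F hi ih =>
      have h5 := Submodule.add_mem _ (hF i (Finset.mem_insert_self _ _))
        (ih fun k hk => hF k (Finset.mem_insert_of_mem hk))
      rw [ext0_add, add_zero] at h5
      rwa [Finset.sum_insert hi]
  have hdec : S * B⁻¹ = ∑ a, ∑ b, ((1 / 2 : ℂ) * S a b) •
      (ro B⁻¹ (Pi.single a 1) (Pi.single b 1) + ro B⁻¹ (Pi.single b 1) (Pi.single a 1)) := by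
    have h1 : ∀ a b, ro B⁻¹ (Pi.single a (1 : ℂ)) (Pi.single b 1) =
        Matrix.single a b (1 : ℂ) * B⁻¹ := by
      intro a b
      rw [ro, Matrix.single_eq_single_vecMulVec_single, vecMulVec_mul]
    have h2 : S = ∑ a, ∑ b, ((1 / 2 : ℂ) * S a b) •
        (Matrix.single a b (1 : ℂ) + Matrix.single b a 1) := by
      have h3 : S = ∑ a, ∑ b, S a b • Matrix.single a b (1 : ℂ) := by
        conv_lhs => rw [Matrix.matrix_eq_sum_single S]
        refine Finset.sum_congr rfl fun a _ => Finset.sum_congr rfl fun b _ => ?_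
        rw [Matrix.smul_single, smul_eq_mul, mul_one]
      have h4 : S = ∑ a, ∑ b, S a b • Matrix.single b a (1 : ℂ) := by
        rw [Finset.sum_comm]
        conv_lhs => rw [h3]
        refine Finset.sum_congr rfl fun a _ => Finset.sum_congr rfl fun b _ => ?_
        have h5 := congrFun (congrFun hS a) b
        rw [transpose_apply] at h5
        rw [h5]
      have h5 : S = (1 / 2 : ℂ) • ((∑ a, ∑ b, S a b • Matrix.single a b (1 : ℂ)) +
          ∑ a, ∑ b, S a b • Matrix.single b a (1 : ℂ)) := by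
        rw [← h3, ← h4]
        module
      refine h5.trans ?_
      rw [← Finset.sum_add_distrib, Finset.smul_sum]
      refine Finset.sum_congr rfl fun a _ => ?_
      rw [← Finset.sum_add_distrib, Finset.smul_sum]
      refine Finset.sum_congr rfl fun b _ => ?_
      module
    conv_lhs => rw [h2]
    rw [Finset.sum_mul]
    refine Finset.sum_congr rfl fun a _ => ?_
    rw [Finset.sum_mul]
    refine Finset.sum_congr rfl fun b _ => ?_
    rw [Matrix.smul_mul, Matrix.add_mul, h1, h1]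
  rw [hdec]
  refine hsum _ _ fun a _ => hsum _ _ fun b _ => ?_
  by_cases hab : β a = β b
  · have h1 := Submodule.smul_mem _ ((1 / 2 : ℂ) * S a b) (hro a b hab)
    rwa [ext0_smul, smul_zero] at h1
  · rw [hSb a b hab, mul_zero, zero_smul, ext0_zero]
    exact Submodule.zero_mem _

theorem w_span {p q m : ℕ} {β : Fin p → Fin m} {γ : Fin q → Fin m}
    {B : Matrix (Fin p) (Fin p) ℂ} (hu : IsUnit B) (hb : BlockDiagonal β B)
    {w : Matrix (Fin q) (Fin p) ℂ} (hw : Compatible β γ w) :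
    ext0 (0 : Matrix (Fin p) (Fin p) ℂ) w ∈ Submodule.span ℂ (SE β γ B) := by
  classical
  have hsum : ∀ {κ : Type} (F : Finset κ) (f : κ → Matrix (Fin q) (Fin p) ℂ),
      (∀ i ∈ F, ext0 (0 : Matrix (Fin p) (Fin p) ℂ) (f i) ∈ Submodule.span ℂ (SE β γ B)) →
      ext0 (0 : Matrix (Fin p) (Fin p) ℂ) (∑ i ∈ F, f i) ∈ Submodule.span ℂ (SE β γ B) := by
    intro κ F f hF
    induction F using Finset.induction_on with
    | empty =>
      rw [Finset.sum_empty, ext0_zero]
      exact Submodule.zero_mem _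
    | insert i F hi ih =>
      have h5 := Submodule.add_mem _ (hF i (Finset.mem_insert_self _ _))
        (ih fun k hk => hF k (Finset.mem_insert_of_mem hk))
      rw [ext0_add, add_zero] at h5
      rwa [Finset.sum_insert hi]
  rw [Matrix.matrix_eq_sum_single w]
  refine hsum _ _ fun a _ => hsum _ _ fun b _ => ?_
  by_cases hab : γ a = β b
  · refine Submodule.subset_span ?_
    have h2 : Supp β (γ a) ((Pi.single b (1 : ℂ) : Fin p → ℂ) ᵥ* B) := by
      rw [hab]
      exact supp_vJ hb (supp_single b 1)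
    have h4 : ext0 (0 : Matrix (Fin p) (Fin p) ℂ) (Matrix.single a b (w a b)) =
        ext0 0 (w a b • vecMulVec (Pi.single a 1)
          (((Pi.single b (1 : ℂ) : Fin p → ℂ) ᵥ* B) ᵥ* B⁻¹)) := by
      rw [vecMul_vecMul, mul_nonsing_inv _ ((Matrix.isUnit_iff_isUnit_det _).1 hu), vecMul_one,
        ← Matrix.single_eq_single_vecMulVec_single, Matrix.smul_single, smul_eq_mul, mul_one]
    rw [h4]
    exact Or.inr ⟨a, _, _, h2, rfl⟩
  · rw [hw a b hab, Matrix.single_zero, ext0_zero]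
    exact Submodule.zero_mem _

theorem all_span {p q m : ℕ} {β : Fin p → Fin m} {γ : Fin q → Fin m}
    {B : Matrix (Fin p) (Fin p) ℂ} (hu : IsUnit B) (hb : BlockDiagonal β B)
    {S : Matrix (Fin p) (Fin p) ℂ} (hS : Sᵀ = S) (hSb : BlockDiagonal β S)
    {w : Matrix (Fin q) (Fin p) ℂ} (hw : Compatible β γ w) :
    ext0 (S * B⁻¹) w ∈ Submodule.span ℂ (SE β γ B) := by
  have h1 := Submodule.add_mem _ (sym_span (γ := γ) (B := B) hS hSb) (w_span hu hb hw)
  rwa [ext0_add, add_zero, zero_add] at h1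

theorem ext0_inj {p q : ℕ} {g g' : Matrix (Fin p) (Fin p) ℂ} {w w' : Matrix (Fin q) (Fin p) ℂ}
    (h : ext0 g w = ext0 g' w') : g = g' ∧ w = w' := by
  have h1 := (Matrix.reindex finSumFinEquiv finSumFinEquiv).injective h
  rw [Matrix.fromBlocks_inj] at h1
  exact ⟨h1.1, h1.2.2.1⟩

section lin

variable {k : ℕ} {n : Fin k → ℕ}

/-- The linear map `W ↦ W Z`. -/
def lin (Z : ∀ i, Matrix (Fin (n i)) (Fin (n i)) ℂ) :
    (∀ i, Matrix (Fin (n i)) (Fin (n i)) ℂ) →ₗ[ℂ] (Ent n → ℂ) where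
  toFun W := en fun i => W i * Z i
  map_add' W W' := by
    funext x
    change ((W x.1 + W' x.1) * Z x.1) x.2.1 x.2.2 = _
    rw [Matrix.add_mul]
    rfl
  map_smul' t W := by
    funext x
    change ((t • W x.1) * Z x.1) x.2.1 x.2.2 = _
    rw [Matrix.smul_mul]
    rfl

theorem lin_inj {Z : ∀ i, Matrix (Fin (n i)) (Fin (n i)) ℂ} (hZ : ∀ i, IsUnit (Z i))
    {W : ∀ i, Matrix (Fin (n i)) (Fin (n i)) ℂ} (h : lin Z W = 0) (i : Fin k) : W i = 0 := by
  have h1 : W i * Z i = 0 := by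
    ext a b
    exact congrFun h ⟨i, a, b⟩
  have h2 : W i * Z i * (Z i)⁻¹ = 0 * (Z i)⁻¹ := by rw [h1]
  rwa [Matrix.mul_assoc, Matrix.mul_nonsing_inv _ ((Matrix.isUnit_iff_isUnit_det _).1 (hZ i)),
    Matrix.mul_one, Matrix.zero_mul] at h2

end lin

section tan

variable {k r : ℕ} {p q m : Fin k → ℕ} {K : Subfield ℂ} {d : ℕ}
  {C₀ : Matrix (Fin r) (Fin r) ℂ}
  {β : ∀ i, Fin (p i) → Fin (m i)} {γ : ∀ i, Fin (q i) → Fin (m i)}
  {B : ∀ i, Matrix (Fin (p i)) (Fin (p i)) ℂ}
  {Z : ∀ i, Matrix (Fin (p i + q i)) (Fin (p i + q i)) ℂ}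

/-- **Tangent vectors.** -/
theorem tan (hR : RelE K (d + d) C₀ β γ B Z) (hu : ∀ i, IsUnit (B i)) (hs : ∀ i, (B i)ᵀ = -B i)
    (hb : ∀ i, BlockDiagonal (β i) (B i)) {F : MvPolynomial (Ent fun i => p i + q i) ℂ}
    (hFd : F.totalDegree ≤ d) (hFc : ∀ s, F.coeff s ∈ Coef K d C₀)
    (hF : MvPolynomial.eval (en Z) F = 0)
    {W : ∀ i, Matrix (Fin (p i + q i)) (Fin (p i + q i)) ℂ}
    (hW : ∀ i, W i ∈ Submodule.span ℂ (SE (β i) (γ i) (B i))) :
    dv (en Z) (lin Z W) F = 0 := by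
  classical
  have hadd : ∀ W W' : ∀ i, Matrix (Fin (p i + q i)) (Fin (p i + q i)) ℂ,
      dv (en Z) (lin Z W) F = 0 → dv (en Z) (lin Z W') F = 0 →
      dv (en Z) (lin Z (W + W')) F = 0 := by
    intro W W' h h'
    rw [map_add, dv_add, h, h', add_zero]
  have h0 : dv (en Z) (lin Z (0 : ∀ i, Matrix (Fin (p i + q i)) (Fin (p i + q i)) ℂ)) F = 0 := by
    have h1 := dv_smul (en Z) F 0 0
    rw [zero_mul, smul_zero] at h1
    rw [map_zero, h1]
  have hone : ∀ i, ∀ N ∈ Submodule.span ℂ (SE (β i) (γ i) (B i)),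
      dv (en Z) (lin Z (Pi.single i N)) F = 0 := by
    intro i N hN
    induction hN using Submodule.span_induction with
    | mem N hN =>
      refine dv_line fun s => ?_
      have hg : ∀ j, ∃ g ∈ ExtG (β j) (γ j) (B j),
          (g : Matrix (Fin (p j + q j)) (Fin (p j + q j)) ℂ) =
            1 + s • (Pi.single i N : ∀ i, Matrix (Fin (p i + q i)) (Fin (p i + q i)) ℂ) j := by
        intro j
        by_cases hij : j = i
        · subst hij
          rw [Pi.single_eq_same]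
          have hN' : s • N ∈ SE (β j) (γ j) (B j) := by
            rcases hN with ⟨l, v, t, hv, rfl⟩ | ⟨a, v, t, hv, rfl⟩
            · exact Or.inl ⟨l, v, s * t, hv, by rw [ext0_smul, smul_smul, smul_zero]⟩
            · exact Or.inr ⟨a, v, s * t, hv, by rw [ext0_smul, smul_smul, smul_zero]⟩
          obtain ⟨g, hg, hg'⟩ := SE_exp (hu j) (hs j) (hb j) hN'
          exact ⟨g, hg, by rw [hg', exp_sq (hu j) (hs j) (hb j) (SE_sq (hu j) (hs j) (hb j) hN')]⟩
        · rw [Pi.single_eq_of_ne hij, smul_zero, add_zero]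
          exact ⟨1, (ExtG (β j) (γ j) (B j)).one_mem, Units.val_one⟩
      choose g hg hg' using hg
      have h1 := hR g hg
      rw [EG_mul, Matrix.one_mul] at h1
      have h2 := rel_coef h1 hFd hFc hF
      have h3 : (en fun j => (g j : Matrix (Fin (p j + q j)) (Fin (p j + q j)) ℂ) * Z j) =
          en Z + s • lin Z (Pi.single i N) := by
        funext x
        change ((g x.1 : Matrix (Fin (p x.1 + q x.1)) (Fin (p x.1 + q x.1)) ℂ) * Z x.1)
          x.2.1 x.2.2 = _
        rw [hg', Matrix.add_mul, Matrix.one_mul, Matrix.smul_mul]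
        rfl
      rwa [h3] at h2
    | zero =>
      rw [Pi.single_zero]
      exact h0
    | add N N' _ _ h h' =>
      rw [Pi.single_add]
      exact hadd _ _ h h'
    | smul t N _ h =>
      rw [Pi.single_smul, map_smul, dv_smul, h, mul_zero]
  have hsum : W = ∑ i, Pi.single i (W i) := (Finset.univ_sum_single W).symm
  rw [hsum]
  refine Finset.sum_induction (fun i => Pi.single i (W i))
    (fun W => dv (en Z) (lin Z W) F = 0) hadd h0 fun i _ => hone i _ (hW i)

end tan

section coord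

variable {p q m : ℕ}

/-- The symmetric matrix with the given coordinates. -/
noncomputable def Sy (β : Fin p → Fin m) (θ : (Σ j : Fin m, Sym2 {a : Fin p // β a = j}) → ℂ) :
    Matrix (Fin p) (Fin p) ℂ :=
  Matrix.of fun a b => if h : β a = β b then θ ⟨β b, s(⟨a, h⟩, ⟨b, rfl⟩)⟩ else 0

/-- The matrix with the given coordinates. -/
noncomputable def Wy (β : Fin p → Fin m) (γ : Fin q → Fin m)
    (θ : (Σ a : Fin q, {b : Fin p // β b = γ a}) → ℂ) : Matrix (Fin q) (Fin p) ℂ :=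
  Matrix.of fun a b => if h : β b = γ a then θ ⟨a, ⟨b, h⟩⟩ else 0

theorem swap_aux {β : Fin p → Fin m} {a b : Fin p} {j j' : Fin m} (e : j = j') (ha : β a = j)
    (hb : β b = j) (ha' : β a = j') (hb' : β b = j') :
    (⟨j, s(⟨a, ha⟩, ⟨b, hb⟩)⟩ : Σ j : Fin m, Sym2 {a : Fin p // β a = j}) =
      ⟨j', s(⟨b, hb'⟩, ⟨a, ha'⟩)⟩ := by
  subst e
  rw [Sym2.eq_swap]

theorem Sy_symm (β : Fin p → Fin m) (θ : (Σ j : Fin m, Sym2 {a : Fin p // β a = j}) → ℂ) :
    (Sy β θ)ᵀ = Sy β θ := by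
  ext a b
  rw [transpose_apply, Sy, of_apply, of_apply]
  by_cases h : β a = β b
  · rw [dif_pos h, dif_pos h.symm]
    exact congrArg θ (swap_aux h _ _ _ _)
  · rw [dif_neg h, dif_neg (Ne.symm h)]

theorem Sy_block (β : Fin p → Fin m) (θ : (Σ j : Fin m, Sym2 {a : Fin p // β a = j}) → ℂ) :
    BlockDiagonal β (Sy β θ) := fun a b h => dif_neg h

theorem Wy_comp (β : Fin p → Fin m) (γ : Fin q → Fin m)
    (θ : (Σ a : Fin q, {b : Fin p // β b = γ a}) → ℂ) : Compatible β γ (Wy β γ θ) :=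
  fun a b h => dif_neg (Ne.symm h)

theorem Sy_add (β : Fin p → Fin m) (θ θ' : (Σ j : Fin m, Sym2 {a : Fin p // β a = j}) → ℂ) :
    Sy β (θ + θ') = Sy β θ + Sy β θ' := by
  ext a b
  rw [Matrix.add_apply, Sy, Sy, Sy, of_apply, of_apply, of_apply]
  split_ifs
  · rfl
  · rw [add_zero]

theorem Sy_smul (β : Fin p → Fin m) (t : ℂ) (θ : (Σ j : Fin m, Sym2 {a : Fin p // β a = j}) → ℂ) :
    Sy β (t • θ) = t • Sy β θ := by
  ext a b
  rw [Matrix.smul_apply, Sy, Sy, of_apply, of_apply]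
  split_ifs
  · rfl
  · rw [smul_zero]

theorem Wy_add (β : Fin p → Fin m) (γ : Fin q → Fin m)
    (θ θ' : (Σ a : Fin q, {b : Fin p // β b = γ a}) → ℂ) :
    Wy β γ (θ + θ') = Wy β γ θ + Wy β γ θ' := by
  ext a b
  rw [Matrix.add_apply, Wy, Wy, Wy, of_apply, of_apply, of_apply]
  split_ifs
  · rfl
  · rw [add_zero]

theorem Wy_smul (β : Fin p → Fin m) (γ : Fin q → Fin m) (t : ℂ)
    (θ : (Σ a : Fin q, {b : Fin p // β b = γ a}) → ℂ) :
    Wy β γ (t • θ) = t • Wy β γ θ := by
  ext a b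
  rw [Matrix.smul_apply, Wy, Wy, of_apply, of_apply]
  split_ifs
  · rfl
  · rw [smul_zero]

theorem Sy_inj {β : Fin p → Fin m} {θ : (Σ j : Fin m, Sym2 {a : Fin p // β a = j}) → ℂ}
    (h : Sy β θ = 0) (x : Σ j : Fin m, Sym2 {a : Fin p // β a = j}) : θ x = 0 := by
  obtain ⟨j, x⟩ := x
  induction x using Sym2.ind with
  | _ a b =>
    obtain ⟨a, ha⟩ := a
    obtain ⟨b, hb⟩ := b
    subst hb
    have h1 := congrFun (congrFun h a) b
    rw [Sy, of_apply, dif_pos ha] at h1
    exact h1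

theorem Wy_inj {β : Fin p → Fin m} {γ : Fin q → Fin m}
    {θ : (Σ a : Fin q, {b : Fin p // β b = γ a}) → ℂ}
    (h : Wy β γ θ = 0) (x : Σ a : Fin q, {b : Fin p // β b = γ a}) : θ x = 0 := by
  obtain ⟨a, b, hb⟩ := x
  have h1 := congrFun (congrFun h a) b
  rw [Wy, of_apply, dif_pos hb] at h1
  exact h1

end coord

/-- The dimension of the group. -/
def dimG {k : ℕ} {p q m : Fin k → ℕ} (β : ∀ i, Fin (p i) → Fin (m i))
    (γ : ∀ i, Fin (q i) → Fin (m i)) : ℕ :=
  ∑ i, ((∑ j, (Finset.univ.filter fun a => β i a = j).card *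
    ((Finset.univ.filter fun a => β i a = j).card + 1) / 2) +
    ∑ b, (Finset.univ.filter fun a => β i a = γ i b).card)

/-- The coordinates. -/
abbrev Th {k : ℕ} {p q m : Fin k → ℕ} (β : ∀ i, Fin (p i) → Fin (m i))
    (γ : ∀ i, Fin (q i) → Fin (m i)) : Type :=
  Σ i, ((Σ j : Fin (m i), Sym2 {a : Fin (p i) // β i a = j}) ⊕
    (Σ a : Fin (q i), {b : Fin (p i) // β i b = γ i a}))

theorem card_Th {k : ℕ} {p q m : Fin k → ℕ} (β : ∀ i, Fin (p i) → Fin (m i))
    (γ : ∀ i, Fin (q i) → Fin (m i)) : Fintype.card (Th β γ) = dimG β γ := by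
  rw [Fintype.card_sigma, dimG]
  refine Finset.sum_congr rfl fun i _ => ?_
  rw [Fintype.card_sum, Fintype.card_sigma, Fintype.card_sigma]
  congr 1
  · refine Finset.sum_congr rfl fun j _ => ?_
    rw [Sym2.card, Nat.choose_two_right, Nat.add_sub_cancel, Fintype.card_subtype, mul_comm]
  · refine Finset.sum_congr rfl fun j _ => ?_
    rw [Fintype.card_subtype]

section main

variable {k r : ℕ} {p q m : Fin k → ℕ} {C₀ : Matrix (Fin r) (Fin r) ℂ}
  {β : ∀ i, Fin (p i) → Fin (m i)} {γ : ∀ i, Fin (q i) → Fin (m i)}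
  {B : ∀ i, Matrix (Fin (p i)) (Fin (p i)) ℂ}
  {Z : ∀ i, Matrix (Fin (p i + q i)) (Fin (p i + q i)) ℂ}

/-- The parametrisation. -/
noncomputable def par (β : ∀ i, Fin (p i) → Fin (m i)) (γ : ∀ i, Fin (q i) → Fin (m i))
    (B : ∀ i, Matrix (Fin (p i)) (Fin (p i)) ℂ) :
    (Th β γ → ℂ) →ₗ[ℂ] (∀ i, Matrix (Fin (p i + q i)) (Fin (p i + q i)) ℂ) where
  toFun θ i := ext0 (Sy (β i) (fun x => θ ⟨i, Sum.inl x⟩) * (B i)⁻¹)
    (Wy (β i) (γ i) fun x => θ ⟨i, Sum.inr x⟩)
  map_add' θ θ' := by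
    funext i
    have h1 := Sy_add (β i) (fun x => θ ⟨i, Sum.inl x⟩) (fun x => θ' ⟨i, Sum.inl x⟩)
    have h2 := Wy_add (β i) (γ i) (fun x => θ ⟨i, Sum.inr x⟩) (fun x => θ' ⟨i, Sum.inr x⟩)
    rw [Pi.add_apply, ext0_add, ← Matrix.add_mul, ← h1, ← h2]
    rfl
  map_smul' t θ := by
    funext i
    have h1 := Sy_smul (β i) t (fun x => θ ⟨i, Sum.inl x⟩)
    have h2 := Wy_smul (β i) (γ i) t (fun x => θ ⟨i, Sum.inr x⟩)
    rw [RingHom.id_apply, Pi.smul_apply, ext0_smul, ← Matrix.smul_mul, ← h1, ← h2]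
    rfl

theorem par_inj (hu : ∀ i, IsUnit (B i)) {θ : Th β γ → ℂ} (h : ∀ i, par β γ B θ i = 0) : θ = 0 := by
  funext x
  obtain ⟨i, x⟩ := x
  have h1 : ext0 (Sy (β i) (fun x => θ ⟨i, Sum.inl x⟩) * (B i)⁻¹)
    (Wy (β i) (γ i) fun x => θ ⟨i, Sum.inr x⟩) = ext0 0 0 := (h i).trans ext0_zero.symm
  obtain ⟨h2, h3⟩ := ext0_inj h1
  rcases x with x | x
  · refine Sy_inj (θ := fun x => θ ⟨i, Sum.inl x⟩) ?_ x
    have h4 : Sy (β i) (fun x => θ ⟨i, Sum.inl x⟩) * (B i)⁻¹ * B i = 0 * B i := by rw [h2]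
    rwa [Matrix.mul_assoc, Matrix.nonsing_inv_mul _ ((Matrix.isUnit_iff_isUnit_det _).1 (hu i)),
      Matrix.mul_one, Matrix.zero_mul] at h4
  · exact Wy_inj (θ := fun x => θ ⟨i, Sum.inr x⟩) h3 x

/-- **The entries.** -/
theorem exists_indep (hu : ∀ i, IsUnit (B i)) (hs : ∀ i, (B i)ᵀ = -B i)
    (hb : ∀ i, BlockDiagonal (β i) (B i)) (hZ : ∀ i, IsUnit (Z i)) :
    ∃ V : Finset (Ent fun i => p i + q i), V.card = dimG β γ ∧
      ∀ (K : Subfield ℂ) (d : ℕ) (C₀ : Matrix (Fin r) (Fin r) ℂ), RelE K (d + d) C₀ β γ B Z →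
      ∀ F : MvPolynomial V ℂ, F.totalDegree ≤ d → (∀ s, F.coeff s ∈ Coef K d C₀) →
      MvPolynomial.eval (fun v : V => en Z v) F = 0 → F = 0 := by
  classical
  set T : Submodule ℂ ((Ent fun i => p i + q i) → ℂ) :=
    LinearMap.range ((lin Z).comp (par β γ B)) with hT
  have hT' : finrank ℂ T = dimG β γ := by
    rw [hT, LinearMap.finrank_range_of_inj, Module.finrank_fintype_fun_eq_card, card_Th]
    rw [injective_iff_map_eq_zero]
    intro θ hθ
    exact par_inj hu fun i => lin_inj hZ hθ i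
  obtain ⟨V, hV, hsurj⟩ := exists_coord T
  refine ⟨V, hV.trans hT', ?_⟩
  intro K d C₀ hR F hFd hFc hF
  refine no_rel hsurj (S := Coef K d C₀) coef_nat (D := d) ?_ d F hFd hFd hFc hF
  rintro F hFd hFc hF _ ⟨θ, rfl⟩
  refine tan hR hu hs hb hFd hFc hF fun i => ?_
  exact all_span (hu i) (hb i) (Sy_symm _ _) (Sy_block _ _) (Wy_comp _ _ _)

/-- **Together with independent entries of `C₀`.** -/
theorem sum_indep {n : Fin k → ℕ} {Z : ∀ i, Matrix (Fin (n i)) (Fin (n i)) ℂ}
    {V : Finset (Ent n)} {K : Subfield ℂ} {d : ℕ} {V₀ : Finset (Fin r × Fin r)}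
    (h0 : ∀ R : MvPolynomial V₀ ℂ, R.totalDegree ≤ d → (∀ s, R.coeff s ∈ K) →
      MvPolynomial.eval (fun v : V₀ => C₀ v.1.1 v.1.2) R = 0 → R = 0)
    (hV : ∀ F : MvPolynomial V ℂ, F.totalDegree ≤ d → (∀ s, F.coeff s ∈ Coef K d C₀) →
      MvPolynomial.eval (fun v : V => en Z v) F = 0 → F = 0)
    {F : MvPolynomial (V₀ ⊕ V) ℂ} (hFd : F.totalDegree ≤ d) (hFK : ∀ s, F.coeff s ∈ K)
    (hF : MvPolynomial.eval (Sum.elim (fun v : V₀ => C₀ v.1.1 v.1.2) fun v : V => en Z v) F = 0) :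
    F = 0 := by
  classical
  set s₁ : (V₀ ⊕ V →₀ ℕ) → (V₀ →₀ ℕ) := fun s =>
    s.comapDomain Sum.inl Sum.inl_injective.injOn with hs₁
  set s₂ : (V₀ ⊕ V →₀ ℕ) → (V →₀ ℕ) := fun s =>
    s.comapDomain Sum.inr Sum.inr_injective.injOn with hs₂
  have e₁ : ∀ s v, s₁ s v = s (Sum.inl v) := fun s v => rfl
  have e₂ : ∀ s v, s₂ s v = s (Sum.inr v) := fun s v => rfl
  have hdeg : ∀ s ∈ F.support, ∑ v, s (Sum.inl v) + ∑ v, s (Sum.inr v) ≤ d := by
    intro s hs
    have h1 := (MvPolynomial.le_totalDegree hs).trans hFd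
    rw [Finsupp.sum_fintype _ _ fun _ => rfl, Fintype.sum_sum_type] at h1
    exact h1
  have hd1 : ∀ s ∈ F.support, (s₁ s).sum (fun _ e => e) ≤ d := by
    intro s hs
    rw [Finsupp.sum_fintype _ _ fun _ => rfl]
    exact (Nat.le_add_right _ _).trans (hdeg s hs)
  have hd2 : ∀ s ∈ F.support, (s₂ s).sum (fun _ e => e) ≤ d := by
    intro s hs
    rw [Finsupp.sum_fintype _ _ fun _ => rfl]
    exact (Nat.le_add_left _ _).trans (hdeg s hs)
  set c : V₀ → ℂ := fun v => C₀ v.1.1 v.1.2 with hc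
  set F' : MvPolynomial V ℂ := ∑ s ∈ F.support,
    MvPolynomial.monomial (s₂ s) (F.coeff s * ∏ v, c v ^ s₁ s v) with hF'
  have hco : ∀ u, F'.coeff u = ∑ s ∈ F.support,
      if s₂ s = u then F.coeff s * ∏ v, c v ^ s₁ s v else 0 := by
    intro u
    rw [hF', MvPolynomial.coeff_sum]
    refine Finset.sum_congr rfl fun s _ => ?_
    rw [MvPolynomial.coeff_monomial]
  set R : (V →₀ ℕ) → MvPolynomial V₀ ℂ := fun u => ∑ s ∈ F.support,
    if s₂ s = u then MvPolynomial.monomial (s₁ s) (F.coeff s) else 0 with hR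
  have hRd : ∀ u, (R u).totalDegree ≤ d := by
    intro u
    refine MvPolynomial.totalDegree_finsetSum_le fun s hs => ?_
    split_ifs
    · exact (MvPolynomial.totalDegree_monomial_le _ _).trans (hd1 s hs)
    · rw [MvPolynomial.totalDegree_zero]
      exact Nat.zero_le _
  have hRK : ∀ u s, (R u).coeff s ∈ K := by
    intro u s'
    rw [hR, MvPolynomial.coeff_sum]
    refine K.sum_mem fun s _ => ?_
    split_ifs
    · rw [MvPolynomial.coeff_monomial]
      split_ifs
      · exact hFK s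
      · exact K.zero_mem
    · rw [MvPolynomial.coeff_zero]
      exact K.zero_mem
  have hRv : ∀ u, MvPolynomial.eval c (R u) = F'.coeff u := by
    intro u
    rw [hco, hR, map_sum]
    refine Finset.sum_congr rfl fun s _ => ?_
    split_ifs
    · rw [MvPolynomial.eval_monomial, Finsupp.prod_fintype _ _ fun i => pow_zero _]
    · rw [map_zero]
  have h1 : F' = 0 := by
    refine hV F' ?_ ?_ ?_
    · refine MvPolynomial.totalDegree_finsetSum_le fun s hs => ?_
      exact (MvPolynomial.totalDegree_monomial_le _ _).trans (hd2 s hs)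
    · intro u
      refine ⟨MvPolynomial.rename Subtype.val (R u),
        (MvPolynomial.totalDegree_rename_le _ _).trans (hRd u), fun s => ?_, ?_⟩
      · by_cases hs : ∃ u', Finsupp.mapDomain (Subtype.val : V₀ → Fin r × Fin r) u' = s
        · obtain ⟨u', rfl⟩ := hs
          rw [MvPolynomial.coeff_rename_mapDomain _ Subtype.val_injective]
          exact hRK u u'
        · rw [MvPolynomial.coeff_rename_eq_zero _ _ _ fun u' hu => absurd ⟨u', hu⟩ hs]
          exact K.zero_mem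
      · rw [MvPolynomial.eval_rename, ← hRv]
        rfl
    · rw [hF', map_sum, ← hF, MvPolynomial.eval_eq']
      refine Finset.sum_congr rfl fun s _ => ?_
      rw [MvPolynomial.eval_monomial, Finsupp.prod_fintype _ _ fun i => pow_zero _,
        Fintype.prod_sum_type, mul_assoc]
      rfl
  by_contra hne
  obtain ⟨s₀, hs₀⟩ := MvPolynomial.support_nonempty.2 hne
  have h2 : R (s₂ s₀) = 0 := by
    refine h0 _ (hRd _) (hRK _) ?_
    have h3 := hRv (s₂ s₀)
    rw [h1, MvPolynomial.coeff_zero] at h3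
    exact h3
  have h5 : (R (s₂ s₀)).coeff (s₁ s₀) = 0 := by rw [h2, MvPolynomial.coeff_zero]
  rw [hR, MvPolynomial.coeff_sum, Finset.sum_eq_single s₀] at h5
  · rw [if_pos rfl, MvPolynomial.coeff_monomial, if_pos rfl] at h5
    exact MvPolynomial.mem_support_iff.1 hs₀ h5
  · intro s _ hss
    split_ifs with h6
    · rw [MvPolynomial.coeff_monomial, if_neg]
      intro h7
      apply hss
      refine Finsupp.ext fun o => ?_
      rcases o with v | v
      · exact DFunLike.congr_fun h7 v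
      · exact DFunLike.congr_fun h6 v
    · rw [MvPolynomial.coeff_zero]
  · intro h6
    exact absurd hs₀ h6

/-- **Together with `2 π i`.** -/
theorem abs_indep {n : Fin k → ℕ} {Z : ∀ i, Matrix (Fin (n i)) (Fin (n i)) ℂ}
    {V : Finset (Ent n)} {K : Subfield ℂ} {d : ℕ} (hKalg : ∀ x ∈ K, IsAlgebraic ℚ x)
    {a b : Fin r} (hC : C₀ a b = tpi)
    (hV : ∀ F : MvPolynomial V ℂ, F.totalDegree ≤ d → (∀ s, F.coeff s ∈ Coef K d C₀) →
      MvPolynomial.eval (fun v : V => en Z v) F = 0 → F = 0)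
    {F : MvPolynomial (Option V) ℂ} (hFd : F.totalDegree ≤ d) (hFK : ∀ s, F.coeff s ∈ K)
    (hF : MvPolynomial.eval (fun o => o.elim tpi fun v : V => en Z v) F = 0) : F = 0 := by
  classical
  have hdeg : ∀ s ∈ F.support, s none + ∑ v, s (some v) ≤ d := by
    intro s hs
    have h1 := (MvPolynomial.le_totalDegree hs).trans hFd
    rw [Finsupp.sum_fintype _ _ fun _ => rfl, Fintype.sum_option] at h1
    exact h1
  set F' : MvPolynomial V ℂ := ∑ s ∈ F.support,
    MvPolynomial.monomial s.some (F.coeff s * tpi ^ s none) with hF'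
  have hco : ∀ u, F'.coeff u = ∑ s ∈ F.support,
      if s.some = u then F.coeff s * tpi ^ s none else 0 := by
    intro u
    rw [hF', MvPolynomial.coeff_sum]
    refine Finset.sum_congr rfl fun s _ => ?_
    rw [MvPolynomial.coeff_monomial]
  have h1 : F' = 0 := by
    refine hV F' ?_ ?_ ?_
    · refine MvPolynomial.totalDegree_finsetSum_le fun s hs => ?_
      refine (MvPolynomial.totalDegree_monomial_le _ _).trans ?_
      rw [Finsupp.sum_fintype _ _ fun _ => rfl]
      refine le_trans ?_ (hdeg s hs)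
      exact Nat.le_add_left _ _
    · intro u
      rw [hco]
      refine ⟨∑ s ∈ F.support, if s.some = u then
        MvPolynomial.monomial (Finsupp.single (a, b) (s none)) (F.coeff s) else 0, ?_, ?_, ?_⟩
      · refine MvPolynomial.totalDegree_finsetSum_le fun s hs => ?_
        split_ifs
        · refine (MvPolynomial.totalDegree_monomial_le _ _).trans ?_
          rw [Finsupp.sum_single_index rfl]
          exact (Nat.le_add_right _ _).trans (hdeg s hs)
        · rw [MvPolynomial.totalDegree_zero]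
          exact Nat.zero_le _
      · intro s'
        rw [MvPolynomial.coeff_sum]
        refine K.sum_mem fun s _ => ?_
        split_ifs
        · rw [MvPolynomial.coeff_monomial]
          split_ifs
          · exact hFK s
          · exact K.zero_mem
        · rw [MvPolynomial.coeff_zero]
          exact K.zero_mem
      · rw [map_sum]
        refine Finset.sum_congr rfl fun s _ => ?_
        split_ifs
        · rw [MvPolynomial.eval_monomial]
          have h3 : (Finsupp.single (a, b) (s none)).prod (fun n e => C₀ n.1 n.2 ^ e) =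
              C₀ a b ^ s none := Finsupp.prod_single_index (pow_zero _)
          rw [h3, hC]
        · rw [map_zero]
    · rw [hF', map_sum, ← hF, MvPolynomial.eval_eq']
      refine Finset.sum_congr rfl fun s _ => ?_
      rw [MvPolynomial.eval_monomial, Finsupp.prod_fintype _ _ fun i => pow_zero _,
        Fintype.prod_option, mul_assoc]
      rfl
  by_contra hne
  obtain ⟨s₀, hs₀⟩ := MvPolynomial.support_nonempty.2 hne
  have h2 := hco s₀.some
  rw [h1, MvPolynomial.coeff_zero] at h2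
  have hτ : Transcendental K tpi := tpi_tr hKalg
  set P : Polynomial K := ∑ s ∈ F.support,
    if s.some = s₀.some then Polynomial.monomial (s none) (⟨F.coeff s, hFK s⟩ : K) else 0 with hP
  have h3 : Polynomial.aeval tpi P = 0 := by
    rw [hP, map_sum, h2]
    refine Finset.sum_congr rfl fun s _ => ?_
    split_ifs
    · rw [Polynomial.aeval_monomial]
      rfl
    · rw [map_zero]
  have h4 : P = 0 := by
    by_contra hP0
    exact hτ ⟨P, hP0, h3⟩
  have h5 : Polynomial.coeff P (s₀ none) = Polynomial.coeff 0 (s₀ none) := by rw [h4]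
  rw [hP, Polynomial.finsetSum_coeff, Polynomial.coeff_zero, Finset.sum_eq_single s₀] at h5
  · rw [if_pos rfl, Polynomial.coeff_monomial, if_pos rfl] at h5
    exact MvPolynomial.mem_support_iff.1 hs₀ (congrArg Subtype.val h5)
  · intro s _ hss
    split_ifs with h6
    · rw [Polynomial.coeff_monomial, if_neg]
      intro h7
      apply hss
      refine Finsupp.ext fun o => ?_
      rcases o with _ | v
      · exact h7
      · exact DFunLike.congr_fun h6 v
    · rw [Polynomial.coeff_zero]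
  · intro h6
    exact absurd hs₀ h6

end main

end Pool.Agent.V11219.Td
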