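import Mathlib
import Pool.Agent.V11219.TdRel

/-!
# The transcendence degree in bounded degree of the periods of all objects of the tensor category
generated by the fibres of families with local monodromy conditions
-/

set_option linter.unusedSectionVars false
set_option linter.unusedVariables false

open Matrix Module PowerSeries Filter

namespace Pool.Agent.V11219.Td

open Pool.Agent.V11219.Per Pool.Agent.Y123.GN

section idc

variable {n m : ℕ} {β : Fin n → Fin m} {B : Matrix (Fin n) (Fin n) ℂ}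
  {Z : ℝ → Matrix (Fin n) (Fin n) ℂ} {G : Subgroup (Matrix.GeneralLinearGroup (Fin n) ℂ)}

theorem SN_sq (hu : IsUnit B) (hs : Bᵀ = -B) {N : Matrix (Fin n) (Fin n) ℂ} (hN : N ∈ SN β B) :
    N * N = 0 := by
  obtain ⟨j, v, t, rfl⟩ := hN
  rw [smul_mul_smul_comm, nv_sq (inv_tr hu hs), smul_zero]

theorem SN_smul {N : Matrix (Fin n) (Fin n) ℂ} (hN : N ∈ SN β B) (s : ℂ) : s • N ∈ SN β B := by
  obtain ⟨j, v, t, rfl⟩ := hN
  exact ⟨j, v, s * t, by rw [smul_smul]⟩

theorem SN_one (hu : IsUnit B) (hs : Bᵀ = -B) (hb : BlockDiagonal β B)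
    {N : Matrix (Fin n) (Fin n) ℂ} (hN : N ∈ SN β B) :
    ∃ u ∈ IsoG β B, (u : Matrix (Fin n) (Fin n) ℂ) = 1 + N := by
  obtain ⟨j, v, t, rfl⟩ := hN
  have hJ : (B⁻¹)ᵀ = -B⁻¹ := inv_tr hu hs
  have hJb : BlockDiagonal β B⁻¹ := bd_inv hb hu
  obtain ⟨u, h1, h2⟩ := isoG_of_iso hu hs hb (g := 1 + t • nv B⁻¹ (inc β j v))
    (bd_add bd_one (bd_smul t (ro_bd hJb (fun a => inc_off v) (fun a => inc_off v))))
    (by
      have h1 := nv_isom hJ (inc β j v) t
      rwa [nv_exp hJ] at h1)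
    (by
      have h1 := det_exp (nv_nil hJ (inc β j v)) t
      rwa [nv_exp hJ] at h1)
  exact ⟨u, h1, h2⟩

/-- The isometry group is contained in all subgroups of finite index. -/
theorem isoG_fin (hG : ∀ g, g ∈ G ↔ Pres Z (g : Matrix (Fin n) (Fin n) ℂ) ∧
      Pres Z ((g⁻¹ : Matrix.GeneralLinearGroup (Fin n) ℂ) : Matrix (Fin n) (Fin n) ℂ))
    (hL : LocalMonodromy β B G) {y : Matrix.GeneralLinearGroup (Fin n) ℂ}
    (hy : y ∈ IsoG β B) (H : Subgroup G) (hH : H.FiniteIndex) :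
    (⟨y, isoG_le hG hL hy⟩ : G) ∈ H := by
  have hu := hL.form.unit
  have hs := hL.form.skew
  have hb := hL.form.block
  have hn : H.normalCore.index ≠ 0 := (Subgroup.finiteIndex_normalCore (H := H)).index_ne_zero
  have key0 : ∀ N ∈ SN β B, ∀ u : Matrix.GeneralLinearGroup (Fin n) ℂ,
      (u : Matrix (Fin n) (Fin n) ℂ) = 1 + N → ∀ hu' : u ∈ G, (⟨u, hu'⟩ : G) ∈ H := by
    intro N hN u hu1 hu'
    have hN' := SN_smul hN ((H.normalCore.index : ℕ) : ℂ)⁻¹
    obtain ⟨w, hw, hw'⟩ := SN_one hu hs hb hN'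
    have h2 := SN_sq hu hs hN'
    have h1 := Subgroup.pow_index_mem H.normalCore (⟨w, isoG_le hG hL hw⟩ : G)
    have h3 : (⟨w, isoG_le hG hL hw⟩ : G) ^ H.normalCore.index = ⟨u, hu'⟩ := by
      apply Subtype.ext
      rw [Subgroup.coe_pow]
      apply Units.ext
      rw [Units.val_pow_eq_pow_val]
      change (w : Matrix (Fin n) (Fin n) ℂ) ^ H.normalCore.index = u
      have h4 := unip_pow (g := 1 + ((H.normalCore.index : ℕ) : ℂ)⁻¹ • N)
        (by rw [add_sub_cancel_left, h2]) H.normalCore.index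
      rw [hw', h4, add_sub_cancel_left, smul_smul, mul_inv_cancel₀ (by exact_mod_cast hn), one_smul,
        hu1]
    rw [h3] at h1
    exact H.normalCore_le h1
  have key : ∀ x ∈ MM β B, ∃ u : Matrix.GeneralLinearGroup (Fin n) ℂ,
        (u : Matrix (Fin n) (Fin n) ℂ) = x ∧ ∃ hu' : u ∈ G, (⟨u, hu'⟩ : G) ∈ H := by
    intro x hx
    unfold MM at hx
    induction hx using Submonoid.closure_induction with
    | mem x h =>
      obtain ⟨N, hN, rfl⟩ := h
      obtain ⟨w, hw, hw'⟩ := SN_one hu hs hb hN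
      have h5 : IsNilpotent.exp N = 1 + N := Pool.Agent.V11219.Om.exp_sq hu hs hb (SN_sq hu hs hN)
      rw [h5]
      exact ⟨w, hw', isoG_le hG hL hw, key0 N hN w hw' _⟩
    | one => exact ⟨1, Units.val_one, G.one_mem, H.one_mem⟩
    | mul x y _ _ hx hy =>
      obtain ⟨u, rfl, hu1, hu2⟩ := hx
      obtain ⟨v, rfl, hv1, hv2⟩ := hy
      exact ⟨u * v, Units.val_mul _ _, G.mul_mem hu1 hv1, H.mul_mem hu2 hv2⟩
  obtain ⟨u, hu1, hu2, hu3⟩ := key _ (iso_gen hu hs hb hy)
  have h2 : u = y := Units.ext hu1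
  subst h2
  exact hu3

end idc

variable {k r : ℕ} {n m ρ : Fin k → ℕ}

/-- The relations of degree at most `d` over `K` are preserved by the isometry groups. -/
def RelI (K : Subfield ℂ) (d : ℕ) (C₀ : Matrix (Fin r) (Fin r) ℂ)
    (β : ∀ i, Fin (n i) → Fin (m i)) (B : ∀ i, Matrix (Fin (n i)) (Fin (n i)) ℂ)
    (Z : ∀ i, Matrix (Fin (n i)) (Fin (n i)) ℂ) : Prop :=
  ∀ g : ∀ i, (Matrix (Fin (n i)) (Fin (n i)) ℂ)ˣ, (∀ i, g i ∈ IsoG (β i) (B i)) →
    Rl K d (EG C₀ Z) (EG C₀ fun i => (g i : Matrix (Fin (n i)) (Fin (n i)) ℂ) * Z i)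

theorem relI_of {D : ℕ} {C₀ : Matrix (Fin r) (Fin r) ℂ} {h : ∀ i, Fin (ρ i) → ℚ⟦X⟧}
    {P : ∀ i, Fin (n i) → Fin (n i) → MvPolynomial (Option (Fin (ρ i))) ℂ}
    {t : Fin k → ℕ} (hg : Pool.Agent.V11273.GH.GoodI D C₀ h P t) {K : Subfield ℂ}
    (hKf : FiniteDimensional ℚ K) (hKD : finrank ℚ K ≤ D) {β : ∀ i, Fin (n i) → Fin (m i)}
    {B : ∀ i, Matrix (Fin (n i)) (Fin (n i)) ℂ}
    (hL : ∀ i, LocalMonodromy (β i) (B i) (Gal (h i) (P i))) :
    RelI K D C₀ β B fun i => perMat (h i) (P i) (t i : ℝ) := by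
  intro g hgE
  have h1 := hg K hKf hKD g fun i => ⟨isoG_le (Z := perMat (h i) (P i)) (G := Gal (h i) (P i))
    (fun _ => Iff.rfl) (hL i) (hgE i), fun H hH _ =>
      isoG_fin (Z := perMat (h i) (P i)) (G := Gal (h i) (P i)) (fun _ => Iff.rfl) (hL i) (hgE i) H hH⟩
  rw [EG_mul, Matrix.one_mul] at h1
  exact h1

/-- Relations between polynomials in the entries, with coefficients which are polynomials in the
entries of `C₀`. -/
theorem rel_fun {l : Type} [Fintype l] {K : Subfield ℂ} {d : ℕ} {C₀ : Matrix (Fin r) (Fin r) ℂ}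
    {Z Y : ∀ i, Matrix (Fin (n i)) (Fin (n i)) ℂ} (hR : Rl K (d + d * d) (EG C₀ Z) (EG C₀ Y))
    {f : l → MvPolynomial (IG (Fin r) n × IG (Fin r) n) ℂ} (hfd : ∀ j, (f j).totalDegree ≤ d)
    (hfK : ∀ j s, (f j).coeff s ∈ K) {F : MvPolynomial l ℂ}
    (hFd : F.totalDegree ≤ d) (hFc : ∀ s, F.coeff s ∈ Coef K d C₀)
    (hF : MvPolynomial.eval (fun j => MvPolynomial.eval (Pool.Agent.Y123.ST.fl (EG C₀ Z)) (f j)) F =
      0) :
    MvPolynomial.eval (fun j => MvPolynomial.eval (Pool.Agent.Y123.ST.fl (EG C₀ Y)) (f j)) F =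
      0 := by
  classical
  choose R hRd hRK hRv using hFc
  have hlift : ∀ {σ : Type} (R : MvPolynomial σ ℂ), (∀ s, R.coeff s ∈ K) →
      ∃ R' : MvPolynomial σ K, MvPolynomial.map K.subtype R' = R := by
    intro σ R hR
    have h1 : R ∈ Set.range (MvPolynomial.map K.subtype) := by
      rw [MvPolynomial.mem_range_map_iff_coeffs_subset]
      intro x hx
      obtain ⟨u, -, hu⟩ := MvPolynomial.mem_coeffs_iff.1 hx
      exact ⟨⟨x, by rw [hu]; exact hR u⟩, rfl⟩
    exact h1
  choose R' hR' using fun s => hlift (R s) (hRK s)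
  choose f' hf' using fun j => hlift (f j) (hfK j)
  set G' : MvPolynomial (IG (Fin r) n × IG (Fin r) n) K :=
    ∑ s ∈ F.support, MvPolynomial.rename j1 (R' s) * ∏ j, f' j ^ s j with hG'
  set G := MvPolynomial.map K.subtype G' with hG
  have hGe : G = ∑ s ∈ F.support, MvPolynomial.rename j1 (R s) * ∏ j, f j ^ s j := by
    rw [hG, hG', map_sum]
    refine Finset.sum_congr rfl fun s _ => ?_
    rw [map_mul, MvPolynomial.map_rename, hR', map_prod]
    congr 1
    refine Finset.prod_congr rfl fun j _ => ?_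
    rw [map_pow, hf']
  have hGK : ∀ s, G.coeff s ∈ K := by
    intro s
    rw [hG, MvPolynomial.coeff_map]
    exact (MvPolynomial.coeff s G').2
  have hGd : G.totalDegree ≤ d + d * d := by
    rw [hGe]
    refine MvPolynomial.totalDegree_finsetSum_le fun s hs => ?_
    refine (MvPolynomial.totalDegree_mul _ _).trans (add_le_add ?_ ?_)
    · exact (MvPolynomial.totalDegree_rename_le _ _).trans (hRd s)
    · refine (MvPolynomial.totalDegree_finsetProd _ _).trans ?_
      have h1 : ∑ j, s j ≤ d := by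
        have h2 := (MvPolynomial.le_totalDegree hs).trans hFd
        rwa [Finsupp.sum_fintype _ _ fun _ => rfl] at h2
      calc ∑ j, (f j ^ s j).totalDegree ≤ ∑ j, s j * d := by
            refine Finset.sum_le_sum fun j _ => ?_
            exact (MvPolynomial.totalDegree_pow _ _).trans (Nat.mul_le_mul_left _ (hfd j))
        _ = (∑ j, s j) * d := by rw [Finset.sum_mul]
        _ ≤ d * d := Nat.mul_le_mul_right _ h1
  have hGv : ∀ Y : ∀ i, Matrix (Fin (n i)) (Fin (n i)) ℂ,
      MvPolynomial.eval (Pool.Agent.Y123.ST.fl (EG C₀ Y)) G =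
        MvPolynomial.eval (fun j => MvPolynomial.eval (Pool.Agent.Y123.ST.fl (EG C₀ Y)) (f j)) F := by
    intro Y
    rw [hGe, map_sum, MvPolynomial.eval_eq' (fun j => MvPolynomial.eval
      (Pool.Agent.Y123.ST.fl (EG C₀ Y)) (f j))]
    refine Finset.sum_congr rfl fun s _ => ?_
    rw [map_mul, MvPolynomial.eval_rename, fl1, hRv, map_prod]
    congr 1
    refine Finset.prod_congr rfl fun j _ => ?_
    rw [map_pow]
  have h1 := hR G hGK hGd
  rw [hGv, hGv] at h1
  exact h1 hF

/-- The value of a polynomial on a line. -/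
theorem line_eval {I : Type} (c τ : I → ℂ) (f : MvPolynomial I ℂ) (s : ℂ) :
    (MvPolynomial.aeval (fun i => Polynomial.C (c i) + Polynomial.X * Polynomial.C (τ i)) f :
      Polynomial ℂ).eval s = MvPolynomial.eval (c + s • τ) f := by
  induction f using MvPolynomial.induction_on with
  | C a => simp
  | add p q hp hq => rw [map_add, Polynomial.eval_add, hp, hq, map_add]
  | mul_X p b hp => rw [map_mul, Polynomial.eval_mul, hp, map_mul, MvPolynomial.aeval_X,
      MvPolynomial.eval_X, Polynomial.eval_add, Polynomial.eval_C, Polynomial.eval_mul,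
      Polynomial.eval_X, Polynomial.eval_C, Pi.add_apply, Pi.smul_apply, smul_eq_mul]

theorem line_deriv {I : Type} [Fintype I] [DecidableEq I] (c τ : I → ℂ) (f : MvPolynomial I ℂ) :
    (Polynomial.derivative (MvPolynomial.aeval
      (fun i => Polynomial.C (c i) + Polynomial.X * Polynomial.C (τ i)) f : Polynomial ℂ)).eval 0 =
      dv c τ f := by
  rw [chain]
  congr 1
  · funext i
    simp
  · funext i
    simp

/-- The derivative of a relation between functions along a line. -/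
theorem line_fun {I l : Type} [Fintype I] [DecidableEq I] [Fintype l] [DecidableEq l]
    {c τ : I → ℂ} {f : l → MvPolynomial I ℂ} {F : MvPolynomial l ℂ}
    (h : ∀ s : ℂ, MvPolynomial.eval (fun j => MvPolynomial.eval (c + s • τ) (f j)) F = 0) :
    dv (fun j => MvPolynomial.eval c (f j)) (fun j => dv c τ (f j)) F = 0 := by
  have h1 := dv_curve (F := F) (fun j => (MvPolynomial.aeval
    (fun i => Polynomial.C (c i) + Polynomial.X * Polynomial.C (τ i)) (f j) : Polynomial ℂ))
    (fun s => by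
      simp only [line_eval]
      exact h s) 0
  simp only [line_eval, line_deriv, zero_smul, add_zero] at h1
  exact h1

end Pool.Agent.V11219.Td
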