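import Mathlib
import Pool.Agent.V11219.TdPure

/-!
# The rank of the periods of an object of the tensor category
-/

set_option linter.unusedSectionVars false
set_option linter.unusedVariables false

open Matrix Module PowerSeries Filter

namespace Pool.Agent.V11219.Td

open Pool.Agent.V11219.Per Pool.Agent.Y123.GN

section one

variable {n m : ℕ} {β : Fin n → Fin m} {B : Matrix (Fin n) (Fin n) ℂ}

theorem inc_eq {j : Fin m} {v : Fin n → ℂ} (hv : Pool.Agent.V11219.Om.Supp β j v) :
    inc β j (fun a => v a.1) = v := by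
  funext a
  by_cases ha : β a = j
  · exact inc_on (β := β) (j := j) (fun a => v a.1) ⟨a, ha⟩
  · rw [inc_off _ ha, hv a ha]

/-- The Lie algebra of the isometry group is spanned by the elements of rank one. -/
theorem sym_span_SN {S : Matrix (Fin n) (Fin n) ℂ} (hS : Sᵀ = S) (hSb : BlockDiagonal β S) :
    S * B⁻¹ ∈ Submodule.span ℂ (SN β B) := by
  classical
  have key : ∀ v : Fin n → ℂ, ∀ j, Pool.Agent.V11219.Om.Supp β j v →
      nv B⁻¹ v ∈ Submodule.span ℂ (SN β B) := by
    intro v j hv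
    refine Submodule.subset_span ⟨j, fun a => v a.1, 1, ?_⟩
    rw [inc_eq hv, one_smul]
  have hro : ∀ a b, β a = β b → ro B⁻¹ (Pi.single a 1) (Pi.single b 1) +
      ro B⁻¹ (Pi.single b 1) (Pi.single a 1) ∈ Submodule.span ℂ (SN β B) := by
    intro a b hab
    have h1 := key _ _ (Pool.Agent.V11219.Om.supp_single (β := β) a 1)
    have h2 := key _ _ (Pool.Agent.V11219.Om.supp_single (β := β) b 1)
    have h3 := key ((Pi.single a 1 : Fin n → ℂ) + Pi.single b 1) (β a) (by
      intro c hc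
      rw [Pi.add_apply, Pool.Agent.V11219.Om.supp_single (β := β) a 1 c hc,
        Pool.Agent.V11219.Om.supp_single (β := β) b 1 c (by rw [← hab]; exact hc), add_zero])
    have h4 := Submodule.sub_mem _ (Submodule.sub_mem _ h3 h1) h2
    rw [Pool.Agent.V11219.Om.nv_add] at h4
    convert h4 using 1
    module
  have h3 : S = ∑ a, ∑ b, S a b • Matrix.single a b (1 : ℂ) := by
    conv_lhs => rw [Matrix.matrix_eq_sum_single S]
    refine Finset.sum_congr rfl fun a _ => Finset.sum_congr rfl fun b _ => ?_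
    rw [Matrix.smul_single, smul_eq_mul, mul_one]
  have h4 : S = ∑ a, ∑ b, S a b • Matrix.single b a (1 : ℂ) := by
    rw [Finset.sum_comm]
    conv_lhs => rw [h3]
    refine Finset.sum_congr rfl fun a _ => Finset.sum_congr rfl fun b _ => ?_
    have h5 := congrFun (congrFun hS a) b
    rw [transpose_apply] at h5
    rw [h5]
  have h2 : S = ∑ a, ∑ b, ((1 / 2 : ℂ) * S a b) •
      (Matrix.single a b (1 : ℂ) + Matrix.single b a 1) := by
    have h5 : S = (1 / 2 : ℂ) • ((∑ a, ∑ b, S a b • Matrix.single a b (1 : ℂ)) +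
        ∑ a, ∑ b, S a b • Matrix.single b a (1 : ℂ)) := by
      rw [← h3, ← h4]
      module
    refine h5.trans ?_
    rw [← Finset.sum_add_distrib, Finset.smul_sum]
    refine Finset.sum_congr rfl fun a _ => ?_
    rw [← Finset.sum_add_distrib, Finset.smul_sum]
    refine Finset.sum_congr rfl fun b _ => ?_
    module
  have h1 : ∀ a b, ro B⁻¹ (Pi.single a (1 : ℂ)) (Pi.single b 1) =
      Matrix.single a b (1 : ℂ) * B⁻¹ := by
    intro a b
    rw [ro, Matrix.single_eq_single_vecMulVec_single, vecMulVec_mul]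
  have hdec : S * B⁻¹ = ∑ a, ∑ b, ((1 / 2 : ℂ) * S a b) •
      (ro B⁻¹ (Pi.single a 1) (Pi.single b 1) + ro B⁻¹ (Pi.single b 1) (Pi.single a 1)) := by
    conv_lhs => rw [h2]
    rw [Finset.sum_mul]
    refine Finset.sum_congr rfl fun a _ => ?_
    rw [Finset.sum_mul]
    refine Finset.sum_congr rfl fun b _ => ?_
    rw [Matrix.smul_mul, Matrix.add_mul, h1, h1]
  rw [hdec]
  refine Submodule.sum_mem _ fun a _ => Submodule.sum_mem _ fun b _ => ?_
  by_cases hab : β a = β b
  · exact Submodule.smul_mem _ _ (hro a b hab)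
  · rw [hSb a b hab, mul_zero, zero_smul]
    exact Submodule.zero_mem _

end one

variable {k r : ℕ} {n m : Fin k → ℕ}

/-- The Lie algebra of the isometry group. -/
def lieIso (β : ∀ i, Fin (n i) → Fin (m i)) (B : ∀ i, Matrix (Fin (n i)) (Fin (n i)) ℂ) :
    Submodule ℂ (∀ i, Matrix (Fin (n i)) (Fin (n i)) ℂ) where
  carrier := {N | ∀ i, BlockDiagonal (β i) (N i) ∧ N i * B i + B i * (N i)ᵀ = 0}
  zero_mem' := fun i => ⟨fun _ _ _ => rfl, by
    rw [Pi.zero_apply, Matrix.zero_mul, transpose_zero, Matrix.mul_zero, add_zero]⟩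
  add_mem' := fun {N N'} h h' i => ⟨fun a b hab => by
    rw [Pi.add_apply, Matrix.add_apply, (h i).1 a b hab, (h' i).1 a b hab, add_zero], by
    rw [Pi.add_apply, Matrix.add_mul, transpose_add, Matrix.mul_add, add_add_add_comm, (h i).2,
      (h' i).2, add_zero]⟩
  smul_mem' := fun t N h i => ⟨fun a b hab => by
    rw [Pi.smul_apply, Matrix.smul_apply, (h i).1 a b hab, smul_zero], by
    rw [Pi.smul_apply, Matrix.smul_mul, transpose_smul, Matrix.mul_smul, ← smul_add, (h i).2,
      smul_zero]⟩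

theorem lie_span {β : ∀ i, Fin (n i) → Fin (m i)} {B : ∀ i, Matrix (Fin (n i)) (Fin (n i)) ℂ}
    (hu : ∀ i, IsUnit (B i)) (hs : ∀ i, (B i)ᵀ = -B i) (hb : ∀ i, BlockDiagonal (β i) (B i))
    {N : ∀ i, Matrix (Fin (n i)) (Fin (n i)) ℂ} (hN : N ∈ lieIso β B) (i : Fin k) :
    N i ∈ Submodule.span ℂ (SN (β i) (B i)) := by
  have h1 : N i = (N i * B i) * (B i)⁻¹ := by
    rw [Matrix.mul_assoc, Matrix.mul_nonsing_inv _ ((Matrix.isUnit_iff_isUnit_det _).1 (hu i)),
      Matrix.mul_one]
  rw [h1]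
  refine sym_span_SN ?_ (bd_mul (hN i).1 (hb i))
  rw [transpose_mul, hs, Matrix.neg_mul]
  exact neg_eq_of_add_eq_zero_left (hN i).2

/-- The dimension of the isometry group. -/
def dimIso (β : ∀ i, Fin (n i) → Fin (m i)) : ℕ :=
  ∑ i, ∑ j, (Finset.univ.filter fun a => β i a = j).card *
    ((Finset.univ.filter fun a => β i a = j).card + 1) / 2

theorem finrank_lie {β : ∀ i, Fin (n i) → Fin (m i)} {B : ∀ i, Matrix (Fin (n i)) (Fin (n i)) ℂ}
    (hu : ∀ i, IsUnit (B i)) (hs : ∀ i, (B i)ᵀ = -B i) (hb : ∀ i, BlockDiagonal (β i) (B i)) :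
    finrank ℂ (lieIso β B) = dimIso β := by
  classical
  let Φ : ((Σ i, Σ j : Fin (m i), Sym2 {a : Fin (n i) // β i a = j}) → ℂ) →ₗ[ℂ]
      (∀ i, Matrix (Fin (n i)) (Fin (n i)) ℂ) :=
    { toFun := fun θ i => Sy (β i) (fun x => θ ⟨i, x⟩) * (B i)⁻¹
      map_add' := fun θ θ' => by
        funext i
        have h1 := Sy_add (β i) (fun x => θ ⟨i, x⟩) (fun x => θ' ⟨i, x⟩)
        rw [Pi.add_apply, ← Matrix.add_mul, ← h1]
        rfl
      map_smul' := fun t θ => by
        funext i
        have h1 := Sy_smul (β i) t (fun x => θ ⟨i, x⟩)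
        rw [RingHom.id_apply, Pi.smul_apply, ← Matrix.smul_mul, ← h1]
        rfl }
  have hinj : Function.Injective Φ := by
    rw [injective_iff_map_eq_zero]
    intro θ hθ
    funext x
    obtain ⟨i, x⟩ := x
    refine Sy_inj (θ := fun x => θ ⟨i, x⟩) ?_ x
    have h1 : Sy (β i) (fun x => θ ⟨i, x⟩) * (B i)⁻¹ = 0 := congrFun hθ i
    have h4 : Sy (β i) (fun x => θ ⟨i, x⟩) * (B i)⁻¹ * B i = 0 * B i := by rw [h1]
    rwa [Matrix.mul_assoc, Matrix.nonsing_inv_mul _ ((Matrix.isUnit_iff_isUnit_det _).1 (hu i)),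
      Matrix.mul_one, Matrix.zero_mul] at h4
  have hran : LinearMap.range Φ = lieIso β B := by
    refine le_antisymm ?_ ?_
    · rintro _ ⟨θ, rfl⟩ i
      refine ⟨bd_mul (Sy_block _ _) (bd_inv (hb i) (hu i)), ?_⟩
      change Sy (β i) (fun x => θ ⟨i, x⟩) * (B i)⁻¹ * B i +
        B i * (Sy (β i) (fun x => θ ⟨i, x⟩) * (B i)⁻¹)ᵀ = 0
      have hd := (Matrix.isUnit_iff_isUnit_det _).1 (hu i)
      rw [transpose_mul, Sy_symm, inv_tr (hu i) (hs i), Matrix.neg_mul, Matrix.mul_neg,
        ← Matrix.mul_assoc, Matrix.mul_nonsing_inv _ hd, Matrix.one_mul, Matrix.mul_assoc,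
        Matrix.nonsing_inv_mul _ hd, Matrix.mul_one, add_neg_cancel]
    · intro N hN
      have hsym : ∀ i, (N i * B i)ᵀ = N i * B i := by
        intro i
        rw [transpose_mul, hs, Matrix.neg_mul]
        exact neg_eq_of_add_eq_zero_left (hN i).2
      refine ⟨fun x => Sym2.lift ⟨fun a b => (N x.1 * B x.1) a.1 b.1, fun a b => ?_⟩ x.2.2, ?_⟩
      · exact (congrFun (congrFun (hsym x.1) a.1) b.1).symm
      · funext i
        have hd := (Matrix.isUnit_iff_isUnit_det _).1 (hu i)
        have h1 : Sy (β i) (fun x : Σ j : Fin (m i), Sym2 {a : Fin (n i) // β i a = j} =>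
            Sym2.lift ⟨fun a b => (N i * B i) a.1 b.1, fun a b =>
              (congrFun (congrFun (hsym i) a.1) b.1).symm⟩ x.2) = N i * B i := by
          ext a b
          rw [Sy, of_apply]
          by_cases hab : β i a = β i b
          · rw [dif_pos hab]
            rfl
          · rw [dif_neg hab]
            exact (bd_mul (hN i).1 (hb i) a b hab).symm
        change Sy (β i) (fun x : Σ j : Fin (m i), Sym2 {a : Fin (n i) // β i a = j} =>
            Sym2.lift ⟨fun a b => (N i * B i) a.1 b.1, fun a b =>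
              (congrFun (congrFun (hsym i) a.1) b.1).symm⟩ x.2) * (B i)⁻¹ = N i
        rw [h1, Matrix.mul_assoc, Matrix.mul_nonsing_inv _ hd, Matrix.mul_one]
  rw [← hran, LinearMap.finrank_range_of_inj hinj, Module.finrank_fintype_fun_eq_card,
    Fintype.card_sigma, dimIso]
  refine Finset.sum_congr rfl fun i _ => ?_
  rw [Fintype.card_sigma]
  refine Finset.sum_congr rfl fun j _ => ?_
  rw [Sym2.card, Nat.choose_two_right, Nat.add_sub_cancel, Fintype.card_subtype, mul_comm]

/-- The derivatives of the polynomials `f_j` in the entries of `C₀` and `Z`, in the direction of `Y`. -/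
noncomputable def jac {l : Type} (C₀ : Matrix (Fin r) (Fin r) ℂ)
    (Z : ∀ i, Matrix (Fin (n i)) (Fin (n i)) ℂ)
    (f : l → MvPolynomial (IG (Fin r) n × IG (Fin r) n) ℂ) :
    (∀ i, Matrix (Fin (n i)) (Fin (n i)) ℂ) →ₗ[ℂ] (l → ℂ) where
  toFun Y j := dv (Pool.Agent.Y123.ST.fl (EG C₀ Z)) (Pool.Agent.Y123.ST.fl (EG 0 Y)) (f j)
  map_add' Y Y' := by
    funext j
    have h1 : Pool.Agent.Y123.ST.fl (EG (0 : Matrix (Fin r) (Fin r) ℂ) (Y + Y')) =
        Pool.Agent.Y123.ST.fl (EG (0 : Matrix (Fin r) (Fin r) ℂ) Y) +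
          Pool.Agent.Y123.ST.fl (EG (0 : Matrix (Fin r) (Fin r) ℂ) Y') := by
      have h2 := EG_add (0 : Matrix (Fin r) (Fin r) ℂ) 0 Y Y'
      rw [add_zero] at h2
      rw [← h2]
      rfl
    rw [h1, dv_add]
    rfl
  map_smul' t Y := by
    funext j
    have h1 : Pool.Agent.Y123.ST.fl (EG (0 : Matrix (Fin r) (Fin r) ℂ) (t • Y)) =
        t • Pool.Agent.Y123.ST.fl (EG (0 : Matrix (Fin r) (Fin r) ℂ) Y) := by
      have h2 := EG_smul t (0 : Matrix (Fin r) (Fin r) ℂ) Y
      rw [smul_zero] at h2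
      rw [← h2]
      rfl
    rw [h1, dv_smul]
    rfl

/-- Multiplication by `Z`. -/
def mulZ (Z : ∀ i, Matrix (Fin (n i)) (Fin (n i)) ℂ) :
    (∀ i, Matrix (Fin (n i)) (Fin (n i)) ℂ) →ₗ[ℂ] (∀ i, Matrix (Fin (n i)) (Fin (n i)) ℂ) where
  toFun N i := N i * Z i
  map_add' N N' := by
    funext i
    exact Matrix.add_mul _ _ _
  map_smul' t N := by
    funext i
    exact Matrix.smul_mul t (N i) (Z i)

/-- An element of rank one in one factor. -/
theorem lift_line {β : ∀ i, Fin (n i) → Fin (m i)} {B : ∀ i, Matrix (Fin (n i)) (Fin (n i)) ℂ}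
    (hu : ∀ i, IsUnit (B i)) (hs : ∀ i, (B i)ᵀ = -B i) (hb : ∀ i, BlockDiagonal (β i) (B i))
    (i : Fin k) {N : Matrix (Fin (n i)) (Fin (n i)) ℂ} (hN : N ∈ SN (β i) (B i)) (s : ℂ) :
    ∃ g : ∀ j, (Matrix (Fin (n j)) (Fin (n j)) ℂ)ˣ, (∀ j, g j ∈ IsoG (β j) (B j)) ∧
      ∀ j, (g j : Matrix (Fin (n j)) (Fin (n j)) ℂ) =
        1 + s • (Pi.single i N : ∀ i, Matrix (Fin (n i)) (Fin (n i)) ℂ) j := by
  classical
  have hg : ∀ j, ∃ g ∈ IsoG (β j) (B j), (g : Matrix (Fin (n j)) (Fin (n j)) ℂ) =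
      1 + s • (Pi.single i N : ∀ i, Matrix (Fin (n i)) (Fin (n i)) ℂ) j := by
    intro j
    by_cases hij : j = i
    · subst hij
      rw [Pi.single_eq_same]
      exact SN_one (hu j) (hs j) (hb j) (SN_smul hN s)
    · rw [Pi.single_eq_of_ne hij, smul_zero, add_zero]
      exact ⟨1, (IsoG (β j) (B j)).one_mem, Units.val_one⟩
  choose g hg hg' using hg
  exact ⟨g, hg, hg'⟩

theorem line_EG (C₀ : Matrix (Fin r) (Fin r) ℂ) (Z N : ∀ i, Matrix (Fin (n i)) (Fin (n i)) ℂ)
    {g : ∀ j, (Matrix (Fin (n j)) (Fin (n j)) ℂ)ˣ} {s : ℂ}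
    (hg : ∀ j, (g j : Matrix (Fin (n j)) (Fin (n j)) ℂ) = 1 + s • N j) :
    Pool.Agent.Y123.ST.fl (EG C₀ fun j => (g j : Matrix (Fin (n j)) (Fin (n j)) ℂ) * Z j) =
      Pool.Agent.Y123.ST.fl (EG C₀ Z) + s • Pool.Agent.Y123.ST.fl (EG 0 (mulZ Z N)) := by
  have h1 : EG C₀ (fun j => (g j : Matrix (Fin (n j)) (Fin (n j)) ℂ) * Z j) =
      EG C₀ Z + s • EG 0 (mulZ Z N) := by
    rw [EG_smul, EG_add, smul_zero, add_zero]
    congr 1
    funext j
    rw [hg, Matrix.add_mul, Matrix.one_mul, Matrix.smul_mul]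
    rfl
  rw [h1]
  rfl

section ind

variable {β : ∀ i, Fin (n i) → Fin (m i)} {B : ∀ i, Matrix (Fin (n i)) (Fin (n i)) ℂ}
  {Z : ∀ i, Matrix (Fin (n i)) (Fin (n i)) ℂ}

/-- A property of elements of the Lie algebra which is linear and true for the elements of rank one is
true for all elements. -/
theorem lie_ind (hu : ∀ i, IsUnit (B i)) (hs : ∀ i, (B i)ᵀ = -B i)
    (hb : ∀ i, BlockDiagonal (β i) (B i)) {M : Submodule ℂ (∀ i, Matrix (Fin (n i)) (Fin (n i)) ℂ)}
    (h : ∀ i, ∀ N ∈ SN (β i) (B i), Pi.single i N ∈ M) : lieIso β B ≤ M := by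
  classical
  intro N hN
  have h1 : ∀ i, ∀ N ∈ Submodule.span ℂ (SN (β i) (B i)), Pi.single i N ∈ M := by
    intro i N hN
    induction hN using Submodule.span_induction with
    | mem N hN => exact h i N hN
    | zero =>
      rw [Pi.single_zero]
      exact M.zero_mem
    | add N N' _ _ h h' =>
      rw [Pi.single_add]
      exact M.add_mem h h'
    | smul t N _ h =>
      rw [Pi.single_smul]
      exact M.smul_mem t h
  have hsum : N = ∑ i, Pi.single i (N i) := (Finset.univ_sum_single N).symm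
  rw [hsum]
  exact M.sum_mem fun i _ => h1 i _ (lie_span hu hs hb hN i)

/-- **The rank in the equivariant case.** -/
theorem rank_equiv (hu : ∀ i, IsUnit (B i)) (hs : ∀ i, (B i)ᵀ = -B i)
    (hb : ∀ i, BlockDiagonal (β i) (B i)) {l : Type} [Fintype l] [DecidableEq l]
    {C₀ : Matrix (Fin r) (Fin r) ℂ}
    {f : l × l → MvPolynomial (IG (Fin r) n × IG (Fin r) n) ℂ} {R : l × l → MvPolynomial (Ent n) ℂ}
    (hfR : ∀ g : ∀ i, (Matrix (Fin (n i)) (Fin (n i)) ℂ)ˣ, (∀ i, g i ∈ IsoG (β i) (B i)) →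
      ∀ a b, MvPolynomial.eval (Pool.Agent.Y123.ST.fl (EG C₀ fun j =>
        (g j : Matrix (Fin (n j)) (Fin (n j)) ℂ) * Z j)) (f (a, b)) =
        ∑ c, MvPolynomial.eval (en fun j => (g j : Matrix (Fin (n j)) (Fin (n j)) ℂ)) (R (a, c)) *
          MvPolynomial.eval (Pool.Agent.Y123.ST.fl (EG C₀ Z)) (f (c, b)))
    (hf : IsUnit (Matrix.of fun a b =>
      MvPolynomial.eval (Pool.Agent.Y123.ST.fl (EG C₀ Z)) (f (a, b)) : Matrix l l ℂ)) :
    finrank ℂ (Submodule.map ((jac C₀ Z f).comp (mulZ Z)) (lieIso β B)) =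
      finrank ℂ (Submodule.span ℂ {v : l × l → ℂ | ∃ N ∈ lieIso β B,
        ∀ x, v x = dv (en (1 : ∀ i, Matrix (Fin (n i)) (Fin (n i)) ℂ)) (en N) (R x)}) := by
  classical
  set φ : Matrix l l ℂ := Matrix.of fun a b =>
    MvPolynomial.eval (Pool.Agent.Y123.ST.fl (EG C₀ Z)) (f (a, b)) with hφ
  -- the derivative of the representation
  let dR : (∀ i, Matrix (Fin (n i)) (Fin (n i)) ℂ) →ₗ[ℂ] (l × l → ℂ) :=
    { toFun := fun N x => dv (en (1 : ∀ i, Matrix (Fin (n i)) (Fin (n i)) ℂ)) (en N) (R x)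
      map_add' := fun N N' => by
        funext x
        exact dv_add _ _ _ _
      map_smul' := fun t N => by
        funext x
        exact dv_smul _ _ _ _ }
  let mr : (l × l → ℂ) →ₗ[ℂ] (l × l → ℂ) :=
    { toFun := fun x y => ∑ c, x (y.1, c) * φ c y.2
      map_add' := fun x x' => by
        funext y
        change ∑ c, (x (y.1, c) + x' (y.1, c)) * φ c y.2 =
          (∑ c, x (y.1, c) * φ c y.2) + ∑ c, x' (y.1, c) * φ c y.2
        rw [← Finset.sum_add_distrib]
        refine Finset.sum_congr rfl fun c _ => ?_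
        rw [add_mul]
      map_smul' := fun t x => by
        funext y
        change ∑ c, (t * x (y.1, c)) * φ c y.2 = t * ∑ c, x (y.1, c) * φ c y.2
        rw [Finset.mul_sum]
        refine Finset.sum_congr rfl fun c _ => ?_
        rw [mul_assoc] }
  have hmr : Function.Injective mr := by
    rw [injective_iff_map_eq_zero]
    intro x hx
    have h1 : (Matrix.of fun a b => x (a, b) : Matrix l l ℂ) * φ = 0 := by
      ext a b
      exact congrFun hx (a, b)
    have h2 : (Matrix.of fun a b => x (a, b) : Matrix l l ℂ) * φ * φ⁻¹ = 0 * φ⁻¹ := by rw [h1]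
    rw [Matrix.mul_assoc, Matrix.mul_nonsing_inv _ ((Matrix.isUnit_iff_isUnit_det _).1 hf),
      Matrix.mul_one, Matrix.zero_mul] at h2
    funext y
    exact congrFun (congrFun h2 y.1) y.2
  -- the submodule
  have hle : lieIso β B ≤ LinearMap.eqLocus ((jac C₀ Z f).comp (mulZ Z)) (mr.comp dR) := by
    refine lie_ind hu hs hb fun i N hN => ?_
    change (jac C₀ Z f).comp (mulZ Z) (Pi.single i N) = (mr.comp dR) (Pi.single i N)
    funext x
    obtain ⟨a, b⟩ := x
    set N' : ∀ i, Matrix (Fin (n i)) (Fin (n i)) ℂ := Pi.single i N with hN'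
    set c := Pool.Agent.Y123.ST.fl (EG C₀ Z) with hc
    set τ := Pool.Agent.Y123.ST.fl (EG (0 : Matrix (Fin r) (Fin r) ℂ) (mulZ Z N')) with hτ
    -- two polynomials
    have hpol : (MvPolynomial.aeval
        (fun x => Polynomial.C (c x) + Polynomial.X * Polynomial.C (τ x)) (f (a, b)) :
          Polynomial ℂ) = ∑ e, (MvPolynomial.aeval (fun x => Polynomial.C
            (en (1 : ∀ i, Matrix (Fin (n i)) (Fin (n i)) ℂ) x) +
              Polynomial.X * Polynomial.C (en N' x)) (R (a, e)) : Polynomial ℂ) *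
                Polynomial.C (φ e b) := by
      refine Polynomial.funext fun s => ?_
      obtain ⟨g, hg, hg'⟩ := lift_line hu hs hb i hN s
      rw [line_eval, Polynomial.eval_finsetSum, ← line_EG C₀ Z N' hg', hfR g hg a b]
      refine Finset.sum_congr rfl fun e _ => ?_
      rw [Polynomial.eval_mul, Polynomial.eval_C, line_eval]
      congr 2
      congr 1
      funext x
      change (g x.1 : Matrix (Fin (n x.1)) (Fin (n x.1)) ℂ) x.2.1 x.2.2 = _
      rw [hg']
      rfl
    have h1 := congrArg (fun P : Polynomial ℂ => (Polynomial.derivative P).eval 0) hpol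
    simp only [line_deriv, Polynomial.derivative_sum, Polynomial.eval_finsetSum,
      Polynomial.derivative_mul, Polynomial.derivative_C, mul_zero, add_zero, Polynomial.eval_mul,
      Polynomial.eval_C] at h1
    exact h1
  have hmap : Submodule.map ((jac C₀ Z f).comp (mulZ Z)) (lieIso β B) =
      Submodule.map mr (Submodule.map dR (lieIso β B)) := by
    rw [← Submodule.map_comp]
    ext x
    constructor
    · rintro ⟨N, hN, rfl⟩
      exact ⟨N, hN, (hle hN).symm⟩
    · rintro ⟨N, hN, rfl⟩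
      exact ⟨N, hN, hle hN⟩
  have hspan : Submodule.span ℂ {v : l × l → ℂ | ∃ N ∈ lieIso β B,
        ∀ x, v x = dv (en (1 : ∀ i, Matrix (Fin (n i)) (Fin (n i)) ℂ)) (en N) (R x)} =
      Submodule.map dR (lieIso β B) := by
    rw [← Submodule.span_eq (Submodule.map dR (lieIso β B))]
    congr 1
    ext v
    constructor
    · rintro ⟨N, hN, hv⟩
      exact ⟨N, hN, (funext hv).symm⟩
    · rintro ⟨N, hN, rfl⟩
      exact ⟨N, hN, fun x => rfl⟩
  rw [hmap, hspan]
  exact (LinearEquiv.finrank_eq (Submodule.equivMapOfInjective mr hmr _)).symm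

/-- **Independent periods.** -/
theorem exists_indep_fun (hu : ∀ i, IsUnit (B i)) (hs : ∀ i, (B i)ᵀ = -B i)
    (hb : ∀ i, BlockDiagonal (β i) (B i)) {l : Type} [Fintype l] [DecidableEq l]
    (C₀ : Matrix (Fin r) (Fin r) ℂ) (f : l → MvPolynomial (IG (Fin r) n × IG (Fin r) n) ℂ) :
    ∃ V : Finset l, V.card =
        finrank ℂ (Submodule.map ((jac C₀ Z f).comp (mulZ Z)) (lieIso β B)) ∧
      ∀ (K : Subfield ℂ) (d : ℕ), RelI K (d + d * d) C₀ β B Z → (∀ j, (f j).totalDegree ≤ d) →
      (∀ j s, (f j).coeff s ∈ K) →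
      ∀ F : MvPolynomial V ℂ, F.totalDegree ≤ d → (∀ s, F.coeff s ∈ Coef K d C₀) →
      MvPolynomial.eval (fun v : V =>
        MvPolynomial.eval (Pool.Agent.Y123.ST.fl (EG C₀ Z)) (f v)) F = 0 → F = 0 := by
  classical
  obtain ⟨V, hV, hsurj⟩ := exists_coord
    (Submodule.map ((jac C₀ Z f).comp (mulZ Z)) (lieIso β B))
  refine ⟨V, hV, ?_⟩
  intro K d hR hfd hfK F hFd hFc hF
  refine no_rel (c := fun j => MvPolynomial.eval (Pool.Agent.Y123.ST.fl (EG C₀ Z)) (f j)) hsurj
    (S := Coef K d C₀) coef_nat (D := d) ?_ d F hFd hFd hFc hF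
  intro F hFd hFc hF τ hτ
  have hle : lieIso β B ≤ Submodule.comap ((jac C₀ Z f).comp (mulZ Z))
      { carrier := {τ | dv (fun j => MvPolynomial.eval (Pool.Agent.Y123.ST.fl (EG C₀ Z)) (f j))
          τ F = 0}
        zero_mem' := by
          have h1 := dv_smul (fun j => MvPolynomial.eval (Pool.Agent.Y123.ST.fl (EG C₀ Z)) (f j))
            F 0 0
          rw [zero_mul, smul_zero] at h1
          exact h1
        add_mem' := fun {a b} ha hb => by
          have h1 := dv_add (fun j => MvPolynomial.eval (Pool.Agent.Y123.ST.fl (EG C₀ Z)) (f j))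
            F a b
          rw [ha, hb, add_zero] at h1
          exact h1
        smul_mem' := fun t a ha => by
          have h1 := dv_smul (fun j => MvPolynomial.eval (Pool.Agent.Y123.ST.fl (EG C₀ Z)) (f j))
            F t a
          rw [ha, mul_zero] at h1
          exact h1 } := by
    refine lie_ind hu hs hb fun i N hN => ?_
    refine line_fun (c := Pool.Agent.Y123.ST.fl (EG C₀ Z)) fun s => ?_
    obtain ⟨g, hg, hg'⟩ := lift_line hu hs hb i hN s
    have h1 := rel_fun (hR g hg) hfd hfK hFd hFc hF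
    rw [line_EG C₀ Z _ hg'] at h1
    exact h1
  obtain ⟨N, hN, rfl⟩ := hτ
  exact hle hN

end ind

/-- **Together with `2 π i`.** -/
theorem abs_indep_fun {J : Type} [Fintype J] {y : J → ℂ} {C₀ : Matrix (Fin r) (Fin r) ℂ}
    {K : Subfield ℂ} {d : ℕ} (hKalg : ∀ x ∈ K, IsAlgebraic ℚ x)
    {a b : Fin r} (hC : C₀ a b = tpi)
    (hV : ∀ F : MvPolynomial J ℂ, F.totalDegree ≤ d → (∀ s, F.coeff s ∈ Coef K d C₀) →
      MvPolynomial.eval y F = 0 → F = 0)
    {F : MvPolynomial (Option J) ℂ} (hFd : F.totalDegree ≤ d) (hFK : ∀ s, F.coeff s ∈ K)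
    (hF : MvPolynomial.eval (fun o => o.elim tpi y) F = 0) : F = 0 := by
  classical
  have hdeg : ∀ s ∈ F.support, s none + ∑ v, s (some v) ≤ d := by
    intro s hs
    have h1 := (MvPolynomial.le_totalDegree hs).trans hFd
    rw [Finsupp.sum_fintype _ _ fun _ => rfl, Fintype.sum_option] at h1
    exact h1
  set F' : MvPolynomial J ℂ := ∑ s ∈ F.support,
    MvPolynomial.monomial s.some (F.coeff s * tpi ^ s none) with hF'
  have hco : ∀ u, F'.coeff u = ∑ s ∈ F.support,
      if s.some = u then F.coeff s * tpi ^ s none else 0 := by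
    intro u
    rw [hF', MvPolynomial.coeff_sum]
    refine Finset.sum_congr rfl fun s _ => ?_
    rw [MvPolynomial.coeff_monomial]
  have h1 : F' = 0 := by
    refine hV F' ?_ ?_ ?_
    · refine MvPolynomial.totalDegree_finsetSum_le fun s hs => ?_
      refine (MvPolynomial.totalDegree_monomial_le _ _).trans ?_
      rw [Finsupp.sum_fintype _ _ fun _ => rfl]
      refine le_trans ?_ (hdeg s hs)
      exact Nat.le_add_left _ _
    · intro u
      rw [hco]
      refine ⟨∑ s ∈ F.support, if s.some = u then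
        MvPolynomial.monomial (Finsupp.single (a, b) (s none)) (F.coeff s) else 0, ?_, ?_, ?_⟩
      · refine MvPolynomial.totalDegree_finsetSum_le fun s hs => ?_
        split_ifs
        · refine (MvPolynomial.totalDegree_monomial_le _ _).trans ?_
          rw [Finsupp.sum_single_index rfl]
          exact (Nat.le_add_right _ _).trans (hdeg s hs)
        · rw [MvPolynomial.totalDegree_zero]
          exact Nat.zero_le _
      · intro s'
        rw [MvPolynomial.coeff_sum]
        refine K.sum_mem fun s _ => ?_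
        split_ifs
        · rw [MvPolynomial.coeff_monomial]
          split_ifs
          · exact hFK s
          · exact K.zero_mem
        · rw [MvPolynomial.coeff_zero]
          exact K.zero_mem
      · rw [map_sum]
        refine Finset.sum_congr rfl fun s _ => ?_
        split_ifs
        · rw [MvPolynomial.eval_monomial]
          have h3 : (Finsupp.single (a, b) (s none)).prod (fun n e => C₀ n.1 n.2 ^ e) =
              C₀ a b ^ s none := Finsupp.prod_single_index (pow_zero _)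
          rw [h3, hC]
        · rw [map_zero]
    · rw [hF', map_sum, ← hF, MvPolynomial.eval_eq']
      refine Finset.sum_congr rfl fun s _ => ?_
      rw [MvPolynomial.eval_monomial, Finsupp.prod_fintype _ _ fun i => pow_zero _,
        Fintype.prod_option, mul_assoc]
      rfl
  by_contra hne
  obtain ⟨s₀, hs₀⟩ := MvPolynomial.support_nonempty.2 hne
  have h2 := hco s₀.some
  rw [h1, MvPolynomial.coeff_zero] at h2
  have hτ : Transcendental K tpi := tpi_tr hKalg
  set P : Polynomial K := ∑ s ∈ F.support,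
    if s.some = s₀.some then Polynomial.monomial (s none) (⟨F.coeff s, hFK s⟩ : K) else 0 with hP
  have h3 : Polynomial.aeval tpi P = 0 := by
    rw [hP, map_sum, h2]
    refine Finset.sum_congr rfl fun s _ => ?_
    split_ifs
    · rw [Polynomial.aeval_monomial]
      rfl
    · rw [map_zero]
  have h4 : P = 0 := by
    by_contra hP0
    exact hτ ⟨P, hP0, h3⟩
  have h5 : Polynomial.coeff P (s₀ none) = Polynomial.coeff 0 (s₀ none) := by rw [h4]
  rw [hP, Polynomial.finsetSum_coeff, Polynomial.coeff_zero, Finset.sum_eq_single s₀] at h5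
  · rw [if_pos rfl, Polynomial.coeff_monomial, if_pos rfl] at h5
    exact MvPolynomial.mem_support_iff.1 hs₀ (congrArg Subtype.val h5)
  · intro s _ hss
    split_ifs with h6
    · rw [Polynomial.coeff_monomial, if_neg]
      intro h7
      apply hss
      refine Finsupp.ext fun o => ?_
      rcases o with _ | v
      · exact h7
      · exact DFunLike.congr_fun h6 v
    · rw [Polynomial.coeff_zero]
  · intro h6
    exact absurd hs₀ h6

end Pool.Agent.V11219.Td
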