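import Pool.Agent.V11219.MinDefs

/-!
# Towers of products and dominated varieties: definitions
-/

open CategoryTheory AlgebraicGeometry

universe u

namespace Pool.Agent.V11219.Dm

open Pool.Agent.TH125.Gal Pool.Agent.V11219.Cls

section Alg

variable {K A B Γ : Type} [Field K] [Ring A] [Algebra K A] [Ring B] [Algebra K B] [Group Γ]

/-- The map `f` is compatible with the actions. -/
def EquivMap (ρ : Min.Act K A Γ) (σ : Min.Act K B Γ) (f : B →ₐ[K] A) : Prop :=
  ∀ γ x, ρ γ (f x) = f (σ γ x)

/-- `1` is the image under `f` of an element of `U`. -/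
def OneImage (U : Submodule K A) (f : A →ₗ[K] B) : Prop := ∃ a ∈ U, f a = 1

end Alg

open Pool.Agent.H914 Pool.Agent.H914.VarClass Pool.Agent.H914.VarClass.Obj
  Pool.Agent.H914.WeilCohomology Pool.Agent.H281R3.HT

variable {k : Type u} [Field k] {𝒱 : VarClass k}

/-- The product of `n + 1` copies of `X` and of `Z`. -/
noncomputable def powTimes (ops : CycleOps 𝒱) (X : 𝒱.Obj) (n : ℕ) (Z : 𝒱.Obj) : 𝒱.Obj :=
  (power ops X n).prod Z

/-- The projections of `X^(n+1) × Z` to the factors `X`. -/
noncomputable def toFactor (ops : CycleOps 𝒱) (X : 𝒱.Obj) (n : ℕ) (Z : 𝒱.Obj) (p : Fin (n + 1)) :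
    powTimes ops X n Z ⟶ X :=
  fst (power ops X n) Z ≫ powerPrj ops X n p

/-- The projection of `X^(n+1) × Z` to `Z`. -/
noncomputable def toLast (ops : CycleOps 𝒱) (X : 𝒱.Obj) (n : ℕ) (Z : 𝒱.Obj) :
    powTimes ops X n Z ⟶ Z :=
  snd (power ops X n) Z

variable {ops : CycleOps 𝒱}

/-- The actions of `Γ` on the cohomology of `A`. -/
abbrev ActOn (W : WeilCohomology.{u, 0} ops) (Γ : Type) [Group Γ] (A : 𝒱.Obj) : Type :=
  Min.Act W.K (W.H A) Γ

variable {W : WeilCohomology.{u, 0} ops} {Γ : Type} [Group Γ] {ι : Type}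

/-- The pull-back by `g` is compatible with the actions of `Γ`. -/
def PullEq {A B : 𝒱.Obj} (ρ : ActOn W Γ A) (σ : ActOn W Γ B) (g : A ⟶ B) : Prop :=
  EquivMap ρ σ (W.map g)

/-- `Y` is the product of `n + 1` copies of `X` and of `Z`, with an action of `Γ` on the cohomology
which is compatible with the projections to the factors. -/
def PowTimes (X : GVar W Γ) (n : ℕ) (Z Y : GVar W Γ) : Prop :=
  ∃ υ : ActOn W Γ (powTimes ops X.X n Z.X), (∀ p, PullEq υ X.act (toFactor ops X.X n Z.X p)) ∧
    PullEq υ Z.act (toLast ops X.X n Z.X) ∧ Y = GVar.mk (powTimes ops X.X n Z.X) υ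

/-- The varieties `Y = X_1^(n_1) × (X_2^(n_2) × ( ⋯ × Z))`, where the `X_i` are pairwise different
members of the family `X` (`S` is the set of the indices which are used). -/
inductive Tow (X : ι → GVar W Γ) (Z : GVar W Γ) : Set ι → GVar W Γ → Prop
  | base : Tow X Z ∅ Z
  | step {S Y Y'} (i : ι) (n : ℕ) : Tow X Z S Y → i ∉ S → PowTimes (X i) n Y Y' →
      Tow X Z (insert i S) Y'

/-- `1` is the direct image under `g` of a combination of classes of algebraic cycles. -/
def PushOne (W : WeilCohomology.{u, 0} ops) {A B : 𝒱.Obj} (g : A ⟶ B) : Prop :=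
  OneImage (algSpan W A) (W.push g)

/-- The variety `B` is *dominated* by `A`: there is a morphism `g` from `A` to `B`, compatible with
the actions of `Γ`, such that `1` is the direct image of a combination of classes of algebraic
cycles. -/
def Dominates (A B : GVar W Γ) : Prop := ∃ g : A.X ⟶ B.X, PushOne W g ∧ PullEq A.act B.act g

/-- All potentially semi-invariant classes of all varieties dominated by `A` are in `C`. -/
def AllDominated (χ : Min.CharOf W Γ) (C : Classes W) (A : GVar W Γ) : Prop :=
  ∀ B : GVar W Γ, Dominates A B → TateIn χ C B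

end Pool.Agent.V11219.Dm
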