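import Mathlib
import Pool.Agent.V11219.TowDefs
import Pool.Agent.V11219.MotMain

/-!
# Towers of products and dominated varieties
-/

open CategoryTheory AlgebraicGeometry

universe u

namespace Pool.Agent.V11219.Dm

open Pool.Agent.TH125.Gal Pool.Agent.V11219.Min Pool.Agent.V11219.Cls
open Pool.Agent.H914 Pool.Agent.H914.VarClass Pool.Agent.H914.VarClass.Obj
  Pool.Agent.H914.WeilCohomology Pool.Agent.H281R3.HT

variable {k : Type u} [Field k] {𝒱 : VarClass k} {ops : CycleOps 𝒱}
  {W : WeilCohomology.{u, 0} ops} {Γ : Type} [Group Γ] {χ : CharOf W Γ}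
  {ι β : Type} {X : ι → GVar W Γ} {Y : β → GVar W Γ} {Z : GVar W Γ} {d : ℕ}

theorem PowTimes.isPowProd {X Z Y : GVar W Γ} {n : ℕ} (h : PowTimes X n Z Y) :
    IsPowProd X n Z Y := by
  obtain ⟨υ, h1, h2, rfl⟩ := h
  exact IsPowProd.mk υ (fun p γ x => h1 p γ x) fun γ x => h2 γ x

theorem Tow.tower {S : Set ι} {T : GVar W Γ} (h : Tow X Z S T) : Tower X Z S T := by
  induction h with
  | base => exact .base
  | step i n _ hi hP ih => exact .step i n ih hi hP.isPowProd

theorem Dominates.dom {A B : GVar W Γ} (h : Dominates A B) : DominatesVar A B := h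

theorem allDominated_iff {C : Classes W} (hC : ClassSystem W C) {A : GVar W Γ} :
    AllDominated χ C A ↔ TateIn χ C A :=
  ⟨fun h => h A (dominates_refl A), fun h _ hB => h.dominated hC hB⟩

/-- **Dominated varieties, comparison of ranks.** -/
theorem all_over [IsAlgClosed W.K] [Finite ι] [Fintype β] {C : Classes W}
    (hC : ClassSystem W C) (h : FamilyOver χ X Y d Z) {S' : Set β} {Z₁ : GVar W Γ}
    (hZ : Tow Y Z S' Z₁) {S : Set ι} {T : GVar W Γ} (hT : Tow X Z₁ S T) :
    AllDominated χ C T ↔ TateIn χ C Z₁ :=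
  (allDominated_iff hC).trans ((dominatedTate_iff hC).symm.trans (dom_over hC h hZ.tower hT.tower))

/-- **Dominated varieties.** -/
theorem all_sst [IsAlgClosed W.K] [Finite ι] {C : Classes W} (hC : ClassSystem W C)
    (h : Family χ X Z) {S : Set ι} {T : GVar W Γ} (hT : Tow X Z S T) :
    AllDominated χ C T ↔ TateIn χ C Z :=
  (allDominated_iff hC).trans ((dominatedTate_iff hC).symm.trans (dom_sst hC h hT.tower))

/-- **Dominated varieties and direct factors.** -/
theorem all_factors [IsAlgClosed W.K] [Finite ι] {C : Classes W} (hC : ClassSystem W C)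
    (h : Family χ X Z) {S : Set ι} {T : GVar W Γ} (hT : Tow X Z S T) :
    (∀ B, Dominates T B → TateIn χ C B ∧ FactorsTate χ C B) ↔ TateIn χ C Z :=
  dom_factors hC h hT.tower

end Pool.Agent.V11219.Dm
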