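import Mathlib
import Pool.Agent.V11219.TowMain
import Pool.Agent.V11219.MinLocMain

/-!
# Dominated varieties, local conditions
-/

open CategoryTheory AlgebraicGeometry

universe u

namespace Pool.Agent.V11219.Dm

open Pool.Agent.TH125.Gal Pool.Agent.V11219.Min Pool.Agent.V11219.Cls
open Pool.Agent.H914 Pool.Agent.H914.VarClass Pool.Agent.H914.VarClass.Obj
  Pool.Agent.H914.WeilCohomology Pool.Agent.H281R3.HT

variable {k : Type u} [Field k] {𝒱 : VarClass k} {ops : CycleOps 𝒱}
  {W : WeilCohomology.{u, 0} ops} {Γ : Type} [Group Γ] {χ : CharOf W Γ}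
  {ι : Type} {X : ι → GVar W Γ} {Z : GVar W Γ}

/-- **Dominated varieties, local conditions.** -/
theorem all_local [IsAlgClosed W.K] {C : Classes W} (hC : ClassSystem W C)
    (h : LocalFam χ X Z) {S : Set ι} {T : GVar W Γ} (hT : Tow X Z S T) :
    AllDominated χ C T ↔ TateIn χ C Z :=
  (allDominated_iff hC).trans (cls_local hC h.vars (hT.tower.gTower fun i => (h.good i).1))

end Pool.Agent.V11219.Dm
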